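import Pool.Agent.Mg.F4f0ed6.Gbb96b0
import Pool.Agent.MP_4f0ed6_gt.Defs

section

open Set Laplacian Filter Topology MeasureTheory Metric InnerProductSpace
open scoped ContDiff

namespace Pool.Agent.MP_4f0ed6_gt

namespace Glue

variable {A K : Type} [Fintype K] {G : Glue A K}

theorem Part_le_gf {f : A → ℂ → ℝ} (hf : ∀ α z, 0 ≤ f α z) (α : A) (z : ℂ) :
    f α z ≤ G.gf f α z := by
  classical
  unfold gf
  refine le_add_of_nonneg_right (Finset.sum_nonneg fun κ _ => ?_)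
  split_ifs
  · exact hf _ _
  · exact le_rfl

theorem Part_le_gf' {f : A → ℂ → ℝ} (hf : ∀ α z, 0 ≤ f α z) {κ : K} {z : ℂ} (hz : z ∈ G.O κ) :
    f (G.ch (G.σ κ)) (G.τ κ z) ≤ G.gf f (G.ch κ) z := by
  classical
  unfold gf
  refine le_add_of_nonneg_of_le (hf _ _) ?_
  refine le_trans ?_ (Finset.single_le_sum (f := fun κ' => if G.ch κ' = G.ch κ ∧ z ∈ G.O κ' then
    f (G.ch (G.σ κ')) (G.τ κ' z) else 0) (fun κ' _ => ?_) (Finset.mem_univ κ))
  · simp [hz]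
  · split_ifs
    · exact hf _ _
    · exact le_rfl

theorem Part_le_gd {f : A → ℂ → ℝ} (hf : ∀ α z, 0 ≤ f α z) (α : A) (z : ℂ) :
    f α z ≤ G.gd f α z := by
  classical
  unfold gd
  refine le_add_of_nonneg_right (Finset.sum_nonneg fun κ _ => ?_)
  split_ifs
  · exact mul_nonneg (hf _ _) (sq_nonneg _)
  · exact le_rfl

theorem Part_le_gd' {f : A → ℂ → ℝ} (hf : ∀ α z, 0 ≤ f α z) {κ : K} {z : ℂ} (hz : z ∈ G.O κ) :
    f (G.ch (G.σ κ)) (G.τ κ z) * ‖deriv (G.τ κ) z‖ ^ 2 ≤ G.gd f (G.ch κ) z := by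
  classical
  unfold gd
  refine le_add_of_nonneg_of_le (hf _ _) ?_
  refine le_trans ?_ (Finset.single_le_sum (f := fun κ' => if G.ch κ' = G.ch κ ∧ z ∈ G.O κ' then
    f (G.ch (G.σ κ')) (G.τ κ' z) * ‖deriv (G.τ κ') z‖ ^ 2 else 0) (fun κ' _ => ?_)
    (Finset.mem_univ κ))
  · simp [hz]
  · split_ifs
    · exact mul_nonneg (hf _ _) (sq_nonneg _)
    · exact le_rfl

theorem Part_gd_pos (hG : G.Ok) {f : A → ℂ → ℝ} (hf : ∀ α z, 0 ≤ f α z) {α : A} {z : ℂ}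
    (h : G.gf f α z ≠ 0) : 0 < G.gd f α z := by
  classical
  by_contra hn
  apply h
  have hle := not_lt.1 hn
  have h0 : f α z = 0 := le_antisymm ((Part_le_gd hf α z).trans hle) (hf _ _)
  unfold gf
  rw [h0, zero_add]
  refine Finset.sum_eq_zero fun κ _ => ?_
  split_ifs with hc
  · obtain ⟨rfl, hz⟩ := hc
    have h1 := (Part_le_gd' hf hz).trans hle
    have hd : deriv (G.τ κ) z ≠ 0 := by
      intro h2
      have := hG.deriv_mul hz
      rw [h2, mul_zero] at this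
      exact zero_ne_one this
    have hp : 0 < ‖deriv (G.τ κ) z‖ ^ 2 := by positivity
    refine le_antisymm ?_ (hf _ _)
    by_contra h3
    exact absurd h1 (not_le.2 (mul_pos (not_le.1 h3) hp))
  · rfl

omit [Fintype K] in
theorem Part_O_iff {j : A → A} {jk : K → K} (hS : G.Sym j jk) (κ : K) (z : ℂ) :
    -z ∈ G.O (jk κ) ↔ z ∈ G.O κ := by
  refine ⟨fun h => ?_, hS.O_jk κ z⟩
  have := hS.O_jk _ _ h
  rwa [hS.jkjk, neg_neg] at this

omit [Fintype K] in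
theorem Part_W_iff {j : A → A} {jk : K → K} (hS : G.Sym j jk) (α : A) (z : ℂ) :
    -z ∈ G.W (j α) ↔ z ∈ G.W α := by
  refine ⟨fun h => ?_, hS.W_j α z⟩
  have := hS.W_j _ _ h
  rwa [hS.jj, neg_neg] at this

omit [Fintype K] in
theorem Part_deriv (hG : G.Ok) {j : A → A} {jk : K → K} (hS : G.Sym j jk) {κ : K} {z : ℂ}
    (hz : z ∈ G.O κ) : deriv (G.τ (jk κ)) (-z) = deriv (G.τ κ) z := by
  have h1 : (fun w => G.τ (jk κ) (-w)) =ᶠ[𝓝 z] fun w => -G.τ κ w := by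
    filter_upwards [(hG.O_open κ).mem_nhds hz] with w hw using hS.τ_jk κ w hw
  have h2 := h1.deriv_eq
  rw [deriv_comp_neg, deriv.fun_neg] at h2
  exact neg_injective h2

theorem exists_part (hG : G.Ok) : ∃ χ : A → ℂ → ℝ, G.CS ∞ χ ∧ (∀ α z, 0 ≤ χ α z ∧ χ α z ≤ 1) ∧
    ∀ α, ∀ z ∈ G.W α, G.gf χ α z = 1 := by
  choose χ0 h1 h2 h3 h4 h5 using fun α =>
    exists_cutoff (hG.Cp_compact α) (hG.W_open α) (hG.Cp_sub α)
  have hcs : G.CS ∞ χ0 := fun α => ⟨h1 α, h2 α, h3 α⟩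
  have hnn : ∀ α z, 0 ≤ χ0 α z := fun α z => (h4 α z).1
  have hpos : ∀ α, ∀ z ∈ G.W α, 0 < G.gf χ0 α z := by
    intro α z hz
    rcases hG.cover α z hz with h | ⟨κ, rfl, hκ, h⟩
    · have := Part_le_gf (G := G) hnn α z
      rw [h5 α z h] at this
      linarith
    · have := Part_le_gf' (G := G) hnn hκ
      rw [h5 _ _ h] at this
      linarith
  have hc : G.Compat fun α z => (G.gf χ0 α z)⁻¹ := fun κ z hz => by
    simp only [gf_compat hG χ0 κ z hz]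
  refine ⟨fun α z => χ0 α z * (G.gf χ0 α z)⁻¹, hcs.mul hG fun α =>
    (gf_smooth hG hcs α).inv fun z hz => (hpos α z hz).ne', fun α z => ?_, fun α z hz => ?_⟩
  · have h6 := Part_le_gf (G := G) hnn α z
    have h7 := (hnn α z).trans h6
    refine ⟨mul_nonneg (hnn α z) (inv_nonneg.2 h7), ?_⟩
    exact (div_eq_mul_inv _ _).symm.trans_le (div_le_one_of_le₀ h6 h7)
  · rw [gf_mul hc]
    exact mul_inv_cancel₀ (hpos α z hz).ne'

omit [Fintype K] in
theorem CS.rf {j : A → A} {jk : K → K} (hS : G.Sym j jk) {k : WithTop ℕ∞} {f : A → ℂ → ℝ}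
    (h : G.CS k f) : G.CS k (rf j f) := by
  intro α
  obtain ⟨h1, h2, h3⟩ := h (j α)
  refine ⟨h1.comp contDiff_neg, h2.comp_homeomorph (Homeomorph.neg ℂ), fun z hz => ?_⟩
  have h4 : tsupport (MP_4f0ed6_gt.rf j f α) ⊆ (fun w : ℂ => -w) ⁻¹' tsupport (f (j α)) := by
    refine closure_minimal (fun w hw => subset_tsupport _ hw) ?_
    exact (isClosed_tsupport _).preimage continuous_neg
  exact (Part_W_iff hS α z).1 (h3 (h4 hz))

theorem gd_rf (hG : G.Ok) {j : A → A} {jk : K → K} (hS : G.Sym j jk) (g : A → ℂ → ℝ) (α : A)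
    (z : ℂ) : G.gd (rf j g) α z = G.gd g (j α) (-z) := by
  classical
  have hi : Function.Involutive jk := hS.jkjk
  have hj : Function.Involutive j := hS.jj
  unfold gd
  rw [← Equiv.sum_comp hi.toPerm (fun κ => if G.ch κ = j α ∧ -z ∈ G.O κ then
    g (G.ch (G.σ κ)) (G.τ κ (-z)) * ‖deriv (G.τ κ) (-z)‖ ^ 2 else 0)]
  congr 1
  refine Finset.sum_congr rfl fun κ _ => ?_
  simp only [Function.Involutive.coe_toPerm, Part_O_iff hS, hS.ch_jk, hj.injective.eq_iff]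
  split_ifs with hc
  · rw [Part_deriv hG hS hc.2, hS.σ_jk, hS.ch_jk, hS.τ_jk κ z hc.2]
    rfl
  · rfl

theorem exists_tiny (hG : G.Ok) {j : A → A} {jk : K → K} (hS : G.Sym j jk) :
    ∃ ξ : A → ℂ → ℝ, G.CS ∞ ξ ∧ (∀ α z, 0 ≤ ξ α z ∧ ξ α z ≤ 1) ∧
      (∀ α z, ξ (j α) (-z) = ξ α z) ∧ ∀ α, ∀ z ∈ G.W α, 0 < G.gd ξ α z := by
  obtain ⟨χ, h1, h2, h3⟩ := exists_part hG
  have hnn : ∀ α z, 0 ≤ χ α z := fun α z => (h2 α z).1
  refine ⟨fun α z => (1 / 2 : ℝ) * (χ α z + rf j χ α z),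
    (h1.add (h1.rf hS)).const_mul fun _ => 1 / 2, fun α z => ?_, fun α z => ?_, fun α z hz => ?_⟩
  · have := h2 α z
    have := h2 (j α) (-z)
    simp only [rf]
    constructor <;> linarith [this.1, this.2, (h2 α z).1, (h2 α z).2]
  · simp only [rf, hS.jj, neg_neg, add_comm]
  · rw [gd_const_mul (1 / 2) fun α z => χ α z + rf j χ α z, gd_add]
    have h4 : 0 < G.gd χ α z := Part_gd_pos hG hnn (by rw [h3 α z hz]; exact one_ne_zero)
    have h5 : 0 ≤ G.gd (rf j χ) α z := gd_nonneg (fun α z => hnn _ _) α z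
    positivity

theorem GSol.rf (hG : G.Ok) {j : A → A} {jk : K → K} (hS : G.Sym j jk) {φ g : A → ℂ → ℝ}
    (h : G.GSol φ g) : G.GSol (rf j φ) (rf j g) := by
  refine ⟨fun α => (h.smooth (j α)).comp contDiff_neg.contDiffOn fun z hz => hS.W_j α z hz,
    fun κ z hz => ?_, fun α z hz => ?_⟩
  · have := h.compat (jk κ) (-z) (hS.O_jk κ z hz)
    rw [hS.σ_jk, hS.ch_jk, hS.ch_jk, hS.τ_jk κ z hz] at this
    exact this
  · have hz' := hS.W_j α z hz
    have h1 : ContDiffAt ℝ 2 (φ (j α)) (-z) :=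
      ((h.smooth (j α)).contDiffAt ((hG.W_open _).mem_nhds hz')).of_le (by norm_cast)
    have h2 := laplacian_comp_hol (f := φ (j α)) (τ := fun w => -w) (z := z) h1 (by fun_prop)
    rw [gd_rf hG hS, ← h.lap _ _ hz']
    refine h2.trans ?_
    simp

theorem GSol.sum (hG : G.Ok) {ι : Type} [Fintype ι] (c : ι → ℝ) {φ g : ι → A → ℂ → ℝ}
    (h : ∀ i, G.GSol (φ i) (g i)) :
    G.GSol (fun α z => ∑ i, c i * φ i α z) fun α z => ∑ i, c i * g i α z := by
  classical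
  refine ⟨fun α => ContDiffOn.sum fun i _ => contDiffOn_const.mul ((h i).smooth α),
    fun κ z hz => Finset.sum_congr rfl fun i _ => by rw [(h i).compat κ z hz], fun α z hz => ?_⟩
  have h1 : ∀ i, ContDiffAt ℝ 2 (φ i α) z := fun i =>
    (((h i).smooth α).contDiffAt ((hG.W_open _).mem_nhds hz)).of_le (by norm_cast)
  have h2 : G.gd (fun α z => ∑ i, c i * g i α z) α z = ∑ i, c i * G.gd (g i) α z := by
    unfold gd
    simp only [mul_add, Finset.sum_add_distrib, Finset.mul_sum]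
    rw [Finset.sum_comm (s := Finset.univ (α := ι))]
    congr 1
    refine Finset.sum_congr rfl fun κ _ => ?_
    split_ifs
    · rw [Finset.sum_mul]
      exact Finset.sum_congr rfl fun i _ => mul_assoc _ _ _
    · simp
  rw [lap_sum Finset.univ (fun i w => c i * φ i α w) fun i _ => contDiffAt_const.mul (h1 i), h2,
    Finset.mul_sum]
  refine Finset.sum_congr rfl fun i _ => ?_
  rw [lap_const_mul _ (h1 i), (h i).lap α z hz]
  ring

end Glue

end Pool.Agent.MP_4f0ed6_gt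

end

section

open Set Laplacian Filter Topology MeasureTheory Metric InnerProductSpace
open scoped ContDiff

namespace Pool.Agent.MP_4f0ed6_gt

theorem PotH_slit {u w : ℂ} (hu : ‖u‖ ≤ 2) (hw : ‖w‖ < 1 / 2) : 1 - u * w ∈ Complex.slitPlane := by
  rw [sub_eq_add_neg]
  apply Complex.mem_slitPlane_of_norm_lt_one
  rw [norm_neg, norm_mul]
  nlinarith [norm_nonneg u, norm_nonneg w]

theorem PotH_int {g : ℂ → ℝ} (hg : Continuous g) (hs : ∀ u, g u ≠ 0 → ‖u‖ < 2) {w : ℂ}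
    (hw : ‖w‖ < 1 / 2) : Integrable fun u : ℂ => Complex.log (1 - u * w) * (g u : ℂ) := by
  have hsub : Function.support (fun u : ℂ => Complex.log (1 - u * w) * (g u : ℂ)) ⊆
      closedBall 0 2 := by
    intro u hu
    have : g u ≠ 0 := fun h => hu (by simp [h])
    simpa using (hs u this).le
  rw [← integrableOn_iff_integrable_of_support_subset hsub]
  refine ContinuousOn.integrableOn_compact (isCompact_closedBall 0 2) ?_
  refine ContinuousOn.mul (ContinuousOn.clog (by fun_prop) fun u hu => ?_) (by fun_prop)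
  exact PotH_slit (by simpa using hu) hw

theorem PotH_diff {g : ℂ → ℝ} (hg : Continuous g) (hs : ∀ u, g u ≠ 0 → ‖u‖ < 2) {w : ℂ}
    (hw : ‖w‖ < 1 / 2) :
    DifferentiableAt ℂ (fun x : ℂ => ∫ u : ℂ, Complex.log (1 - u * x) * (g u : ℂ)) w := by
  obtain ⟨ε, hε, hε'⟩ : ∃ ε : ℝ, 0 < ε ∧ ‖w‖ + 2 * ε = 1 / 2 :=
    ⟨(1 / 2 - ‖w‖) / 2, by linarith, by ring⟩
  have hx : ∀ x ∈ ball w ε, ‖x‖ < 1 / 2 - ε := by
    intro x hx
    have h1 : ‖x - w‖ < ε := by simpa [dist_eq_norm] using hx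
    have h2 : ‖x‖ ≤ ‖w‖ + ‖x - w‖ := by simpa using norm_add_le w (x - w)
    linarith
  have hc : HasCompactSupport g :=
    HasCompactSupport.intro (isCompact_closedBall 0 2) fun u hu => by
      by_contra h
      exact hu (by simpa using (hs u h).le)
  have hm : Measurable fun u : ℂ => (g u : ℂ) :=
    (Complex.continuous_ofReal.comp hg).measurable
  refine (hasDerivAt_integral_of_dominated_loc_of_deriv_le (μ := volume)
    (F := fun x u : ℂ => Complex.log (1 - u * x) * (g u : ℂ))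
    (F' := fun x u : ℂ => -u / (1 - u * x) * (g u : ℂ)) (bound := fun u => ε⁻¹ * ‖g u‖)
    (ball_mem_nhds w hε) (Eventually.of_forall fun x => ?_) (PotH_int hg hs hw) ?_
    (Eventually.of_forall fun u x hxu => ?_) ((hg.integrable_of_hasCompactSupport hc).norm.const_mul _)
    (Eventually.of_forall fun u x hxu => ?_)).2.differentiableAt
  · exact ((Measurable.clog (by fun_prop)).mul hm).aestronglyMeasurable
  · exact (Measurable.mul (by fun_prop) hm).aestronglyMeasurable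
  · by_cases h : g u = 0
    · simp [h]
    · have hu := hs u h
      have h1 := hx x hxu
      have h2 : 2 * ε ≤ ‖1 - u * x‖ := by
        have := norm_sub_norm_le (1 : ℂ) (u * x)
        rw [norm_one, norm_mul] at this
        nlinarith [norm_nonneg u, norm_nonneg x]
      rw [norm_mul, norm_div, norm_neg, Complex.norm_real]
      refine mul_le_mul_of_nonneg_right ?_ (norm_nonneg _)
      rw [div_le_iff₀ (by linarith), ← div_eq_inv_mul, le_div_iff₀ hε]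
      nlinarith
  · by_cases h : g u = 0
    · simpa [h] using hasDerivAt_const x (0 : ℂ)
    · have h1 : HasDerivAt (fun y : ℂ => 1 - u * y) (-u) x := by
        simpa using ((hasDerivAt_id x).const_mul u).const_sub 1
      exact (h1.clog (PotH_slit (hs u h).le (by linarith [hx x hxu]))).mul_const _

theorem NQ_near {g : ℂ → ℝ} (hg : Continuous g) (hs : ∀ u, g u ≠ 0 → ‖u‖ < 2) {w : ℂ}
    (hw : ‖w‖ < 1 / 2) : ContDiffAt ℝ ∞ (NQ g) w ∧ Δ (NQ g) w = 0 := by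
  have hb : ball (0 : ℂ) (1 / 2) ∈ 𝓝 w := isOpen_ball.mem_nhds (by simpa using hw)
  have ha : AnalyticAt ℂ (fun x : ℂ => ∫ u : ℂ, Complex.log (1 - u * x) * (g u : ℂ)) w :=
    DifferentiableOn.analyticAt
      (fun x hx => (PotH_diff hg hs (by simpa using hx)).differentiableWithinAt) hb
  have he : NQ g =ᶠ[𝓝 w]
      fun x : ℂ => (∫ u : ℂ, Complex.log (1 - u * x) * (g u : ℂ)).re := by
    filter_upwards [hb] with x hx
    have := integral_re (PotH_int hg hs (w := x) (by simpa using hx))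
    simp only [RCLike.re_to_complex, Complex.mul_re, Complex.ofReal_re, Complex.ofReal_im,
      mul_zero, sub_zero, Complex.log_re] at this
    exact this
  refine ⟨ContDiffAt.congr_of_eventuallyEq ?_ he, ?_⟩
  · exact Complex.reCLM.contDiff.contDiffAt.comp w (analytic_real_smooth ha ∞)
  · rw [lap_congr he]
    exact ha.harmonicAt_re.2.self_of_nhds

end Pool.Agent.MP_4f0ed6_gt

end

section

open Set Laplacian Filter Topology MeasureTheory Metric InnerProductSpace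
open scoped ContDiff

namespace Pool.Agent.MP_4f0ed6_gt

theorem Green0_dir_smooth {f : ℂ → ℝ} (hf : ContDiff ℝ ∞ f) (v : ℂ) :
    ContDiff ℝ ∞ (fun y => fderiv ℝ f y v) := by
  have h1 : ContDiff ℝ ∞ (fderiv ℝ f) := hf.fderiv_right (m := ∞) (by simp)
  exact h1.clm_apply contDiff_const

theorem Green0_second {f : ℂ → ℝ} (hf : ContDiff ℝ ∞ f) (x v : ℂ) :
    iteratedFDeriv ℝ 2 f x ![v, v] = fderiv ℝ (fun y => fderiv ℝ f y v) x v := by
  have h1 : ContDiff ℝ ∞ (fderiv ℝ f) := hf.fderiv_right (m := ∞) (by simp)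
  have h2 : DifferentiableAt ℝ (fderiv ℝ f) x := (h1.differentiable (by simp)) x
  rw [iteratedFDeriv_two_apply, fderiv_clm_apply h2 (differentiableAt_const v)]
  simp

theorem Green0_lap {f : ℂ → ℝ} (hf : ContDiff ℝ ∞ f) (x : ℂ) :
    Δ f x = fderiv ℝ (fun y => fderiv ℝ f y 1) x 1 +
      fderiv ℝ (fun y => fderiv ℝ f y Complex.I) x Complex.I := by
  rw [laplacian_eq_iteratedFDeriv_complexPlane]
  simp only [Green0_second hf]

theorem Green0_int {a b : ℂ → ℝ} (ha : Continuous a) (hb : Continuous b)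
    (hc : HasCompactSupport a) : Integrable (fun x => a x * b x) := by
  exact (ha.mul hb).integrable_of_hasCompactSupport hc.mul_right

theorem Green0_int' {a b : ℂ → ℝ} (ha : Continuous a) (hb : Continuous b)
    (hc : HasCompactSupport b) : Integrable (fun x => a x * b x) := by
  exact (ha.mul hb).integrable_of_hasCompactSupport hc.mul_left

theorem Green0_parts {F g : ℂ → ℝ} (hF : ContDiff ℝ ∞ F) (hc : HasCompactSupport F)
    (hg : ContDiff ℝ ∞ g) (v : ℂ) :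
    ∫ x, F x * fderiv ℝ g x v = - ∫ x, fderiv ℝ F x v * g x := by
  apply integral_mul_fderiv_eq_neg_fderiv_mul_of_integrable
  · exact Green0_int (Green0_dir_smooth hF v).continuous hg.continuous (hc.fderiv_apply ℝ v)
  · exact Green0_int hF.continuous (Green0_dir_smooth hg v).continuous hc
  · exact Green0_int hF.continuous hg.continuous hc
  · exact fun x _ => (hF.differentiable (by simp)) x
  · exact fun x _ => (hg.differentiable (by simp)) x

theorem Green0_dir {F g : ℂ → ℝ} (hF : ContDiff ℝ ∞ F) (hc : HasCompactSupport F)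
    (hg : ContDiff ℝ ∞ g) (v : ℂ) :
    ∫ x, F x * fderiv ℝ (fun y => fderiv ℝ g y v) x v =
      ∫ x, g x * fderiv ℝ (fun y => fderiv ℝ F y v) x v := by
  rw [Green0_parts hF hc (Green0_dir_smooth hg v) v,
    Green0_parts (Green0_dir_smooth hF v) (hc.fderiv_apply ℝ v) hg v, neg_neg]
  exact integral_congr_ae (Eventually.of_forall fun x => mul_comm _ _)

theorem Green0_main {F g : ℂ → ℝ} (hF : ContDiff ℝ ∞ F) (hc : HasCompactSupport F)
    (hg : ContDiff ℝ ∞ g) : ∫ z, F z * Δ g z = ∫ z, g z * Δ F z := by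
  have c2 : ∀ {u : ℂ → ℝ}, ContDiff ℝ ∞ u → ∀ v : ℂ,
      Continuous (fun x => fderiv ℝ (fun y => fderiv ℝ u y v) x v) :=
    fun hu v => (Green0_dir_smooth (Green0_dir_smooth hu v) v).continuous
  have s2 : ∀ v : ℂ, HasCompactSupport (fun x => fderiv ℝ (fun y => fderiv ℝ F y v) x v) :=
    fun v => (hc.fderiv_apply ℝ v).fderiv_apply ℝ v
  simp only [Green0_lap hF, Green0_lap hg, mul_add]
  rw [integral_add (Green0_int hF.continuous (c2 hg 1) hc)
      (Green0_int hF.continuous (c2 hg Complex.I) hc),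
    integral_add (Green0_int' hg.continuous (c2 hF 1) (s2 1))
      (Green0_int' hg.continuous (c2 hF Complex.I) (s2 Complex.I)),
    Green0_dir hF hc hg, Green0_dir hF hc hg]

theorem green0 {U : Set ℂ} (hU : IsOpen U) {F f : ℂ → ℝ} (hF : ContDiff ℝ ∞ F)
    (hc : HasCompactSupport F) (hs : tsupport F ⊆ U) (hf : ContDiffOn ℝ ∞ f U) :
    ∫ z, F z * Δ f z = ∫ z, f z * Δ F z := by
  obtain ⟨K, hK, hK1, hK2⟩ := exists_compact_between hc.isCompact hU hs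
  obtain ⟨ξ, hξ, -, hξU, -, hξ1⟩ := exists_cutoff hK hU hK2
  have hg : ContDiff ℝ ∞ (fun z => ξ z * f z) := contDiff_mul_of_supp hU hξ hξU hf
  have e1 : ∀ z, F z * Δ f z = F z * Δ (fun z => ξ z * f z) z := by
    intro z
    by_cases hz : z ∈ tsupport F
    · congr 1
      apply lap_congr
      filter_upwards [mem_interior_iff_mem_nhds.1 (hK1 hz)] with w hw
      rw [hξ1 w hw, one_mul]
    · rw [image_eq_zero_of_notMem_tsupport hz, zero_mul, zero_mul]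
  have e2 : ∀ z, f z * Δ F z = (ξ z * f z) * Δ F z := by
    intro z
    by_cases hz : z ∈ tsupport F
    · rw [hξ1 z (interior_subset (hK1 hz)), one_mul]
    · have : Δ F z = 0 := image_eq_zero_of_notMem_tsupport fun h => hz (tsupport_lap F h)
      rw [this, mul_zero, mul_zero]
  simp only [e1, e2]
  exact Green0_main hF hc hg

end Pool.Agent.MP_4f0ed6_gt

end

section

open Set Laplacian Filter Topology MeasureTheory Metric InnerProductSpace
open scoped ContDiff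

namespace Pool.Agent.MP_4f0ed6_gt

theorem PotF_sq (u : ℂ) : ‖u‖ ^ 2 = u.re * u.re + u.im * u.im := by
  rw [Complex.sq_norm, Complex.normSq_apply]

theorem PotF_der {c : ℝ} (z : ℂ) : HasFDerivAt (fun u : ℂ => ‖u‖ ^ 2 + c)
    ((2 * z.re) • Complex.reCLM + (2 * z.im) • Complex.imCLM) z := by
  have hre : HasFDerivAt (fun u : ℂ => u.re) Complex.reCLM z := Complex.reCLM.hasFDerivAt
  have him : HasFDerivAt (fun u : ℂ => u.im) Complex.imCLM z := Complex.imCLM.hasFDerivAt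
  simp only [PotF_sq]
  rw [two_mul, two_mul, add_smul, add_smul]
  exact ((hre.mul hre).add (him.mul him)).add_const c

theorem PotF_lap {c : ℝ} (hc : 0 < c) (z : ℂ) :
    Δ (fun u : ℂ => Real.log (‖u‖ ^ 2 + c) / 2) z = 2 * c / (‖z‖ ^ 2 + c) ^ 2 := by
  have hpos : ∀ u : ℂ, ‖u‖ ^ 2 + c ≠ 0 := fun u => by positivity
  have h1 : fderiv ℝ (fun u : ℂ => Real.log (‖u‖ ^ 2 + c) / 2) = fun u : ℂ =>
      (‖u‖ ^ 2 + c)⁻¹ • (u.re • Complex.reCLM + u.im • Complex.imCLM) := by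
    funext u
    simp only [div_eq_mul_inv]
    rw [(((PotF_der u).log (hpos u)).mul_const 2⁻¹).fderiv]
    ext v
    simp
    ring
  have hre : HasFDerivAt (fun u : ℂ => u.re) Complex.reCLM z := Complex.reCLM.hasFDerivAt
  have him : HasFDerivAt (fun u : ℂ => u.im) Complex.imCLM z := Complex.imCLM.hasFDerivAt
  have h2 := ((hasDerivAt_inv (hpos z)).comp_hasFDerivAt z (PotF_der z)).smul
    ((hre.smul_const Complex.reCLM).add (him.smul_const Complex.imCLM))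
  have h3 := HasFDerivAt.fderiv (f := fun u : ℂ =>
    (‖u‖ ^ 2 + c)⁻¹ • (u.re • Complex.reCLM + u.im • Complex.imCLM)) h2
  rw [laplacian_eq_iteratedFDeriv_complexPlane]
  simp only [iteratedFDeriv_two_apply]
  rw [h1, h3]
  have h4 := hpos z
  simp
  field_simp
  rw [PotF_sq]
  ring

theorem PotF_smooth {c : ℝ} (hc : 0 < c) :
    ContDiff ℝ ∞ fun u : ℂ => Real.log (‖u‖ ^ 2 + c) / 2 :=
  (((contDiff_norm_sq ℝ).add contDiff_const).log fun u => by positivity).div_const 2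

theorem PotF_mass : ∫ v : ℂ, 2 / (1 + ‖v‖ ^ 2) ^ 2 = 2 * Real.pi := by
  have h1 : ∫ y in Ioi (0 : ℝ), y * (2 / (1 + y ^ 2) ^ 2) = 0 - -(1 + (0 : ℝ) ^ 2)⁻¹ := by
    refine integral_Ioi_of_hasDerivAt_of_nonneg' (g := fun y : ℝ => -(1 + y ^ 2)⁻¹)
      (fun x _ => ?_) (fun x (hx : 0 < x) => by positivity) ?_
    · have h0 : (1 + x ^ 2) ≠ 0 := by positivity
      refine (((hasDerivAt_pow 2 x).const_add 1).inv h0).neg.congr_deriv ?_
      simp
      ring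
    · rw [← neg_zero]
      exact (tendsto_inv_atTop_zero.comp
        (tendsto_atTop_add_const_left _ 1 (tendsto_pow_atTop two_ne_zero))).neg
  rw [integral_fun_norm_addHaar volume fun r : ℝ => 2 / (1 + r ^ 2) ^ 2]
  simp only [Complex.finrank_real_complex, Nat.add_one_sub_one, pow_one, smul_eq_mul, h1]
  simp [Measure.real, Complex.volume_ball]

theorem PotF_int : Integrable fun v : ℂ => 2 / (1 + ‖v‖ ^ 2) ^ 2 := by
  refine ((integrable_rpow_neg_one_add_norm_sq (E := ℂ) (μ := volume) (r := 4)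
    (by rw [Complex.finrank_real_complex]; norm_num)).const_mul 2).congr
    (Eventually.of_forall fun v => ?_)
  have : (-4 / 2 : ℝ) = -(2 : ℕ) := by norm_num
  simp only [this]
  rw [Real.rpow_neg (by positivity), Real.rpow_natCast, div_eq_mul_inv]

theorem PotF_scale (F : ℂ → ℝ) {d : ℝ} (hd : 0 < d) :
    ∫ z : ℂ, F z * (2 * d ^ 2 / (‖z‖ ^ 2 + d ^ 2) ^ 2) =
      ∫ v : ℂ, F (d • v) * (2 / (1 + ‖v‖ ^ 2) ^ 2) := by
  have h := Measure.integral_comp_smul volume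
    (fun z : ℂ => d ^ 2 * (F z * (2 * d ^ 2 / (‖z‖ ^ 2 + d ^ 2) ^ 2))) d
  rw [Complex.finrank_real_complex, abs_of_pos (by positivity), smul_eq_mul,
    integral_const_mul (d ^ 2) fun z : ℂ => F z * (2 * d ^ 2 / (‖z‖ ^ 2 + d ^ 2) ^ 2),
    inv_mul_cancel_left₀ (by positivity)] at h
  rw [← h]
  refine integral_congr_ae (Eventually.of_forall fun v => ?_)
  simp only [norm_smul, Real.norm_eq_abs, abs_of_pos hd]
  field_simp
  ring

theorem fund_sol {F : ℂ → ℝ} (hF : ContDiff ℝ ∞ F) (hc : HasCompactSupport F) :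
    ∫ u : ℂ, Real.log ‖u‖ * Δ F u = 2 * Real.pi * F 0 := by
  have hd : ∀ n : ℕ, 0 < 1 / ((n : ℝ) + 1) := fun n => by positivity
  have hd1 : ∀ n : ℕ, (1 / ((n : ℝ) + 1)) ^ 2 ≤ 1 := fun n =>
    pow_le_one₀ (hd n).le ((div_le_one (by positivity)).2 (by simp))
  have hlim := tendsto_one_div_add_atTop_nhds_zero_nat (𝕜 := ℝ)
  have hL : Continuous (Δ F) :=
    continuous_iff_continuousAt.2 fun z => (lap_smoothAt hF.contDiffAt).continuousAt
  have hLc : HasCompactSupport (Δ F) :=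
    IsCompact.of_isClosed_subset hc (isClosed_tsupport _) (tsupport_lap F)
  have hne : ∀ᵐ u : ℂ, u ≠ 0 := by simp [ae_iff]
  have e : ∀ n : ℕ, ∫ u : ℂ, Real.log (‖u‖ ^ 2 + (1 / ((n : ℝ) + 1)) ^ 2) / 2 * Δ F u =
      ∫ v : ℂ, F ((1 / ((n : ℝ) + 1)) • v) * (2 / (1 + ‖v‖ ^ 2) ^ 2) := fun n => by
    rw [← PotF_scale F (hd n), ← green0 isOpen_univ hF hc (subset_univ _)
      (PotF_smooth (pow_pos (hd n) 2)).contDiffOn]
    simp only [PotF_lap (pow_pos (hd n) 2)]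
  have hA : Tendsto (fun n : ℕ =>
      ∫ u : ℂ, Real.log (‖u‖ ^ 2 + (1 / ((n : ℝ) + 1)) ^ 2) / 2 * Δ F u) atTop
      (𝓝 (∫ u : ℂ, Real.log ‖u‖ * Δ F u)) := by
    refine tendsto_integral_of_dominated_convergence
      (fun u => (‖Real.log ‖u‖‖ + Real.log (‖u‖ ^ 2 + 1) / 2) * ‖Δ F u‖)
      (fun n => ((PotF_smooth (pow_pos (hd n) 2)).continuous.mul hL).aestronglyMeasurable) ?_
      (fun n => ?_) ?_
    · have h1 : LocallyIntegrable fun u : ℂ => ‖Real.log ‖u‖‖ + Real.log (‖u‖ ^ 2 + 1) / 2 :=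
        LocallyIntegrable.add (fun x => (locInt_log x).norm)
          (PotF_smooth one_pos).continuous.locallyIntegrable
      exact h1.integrable_smul_right_of_hasCompactSupport hL.norm hLc.norm
    · filter_upwards [hne] with u hu
      rw [norm_mul]
      refine mul_le_mul_of_nonneg_right ?_ (norm_nonneg _)
      have h0 : 0 < ‖u‖ ^ 2 := by positivity
      have h1 := Real.log_le_log h0 (le_add_of_nonneg_right (pow_pos (hd n) 2).le)
      have h2 := Real.log_le_log (add_pos h0 (pow_pos (hd n) 2)) (add_le_add_right (hd1 n) _)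
      have h3 : 0 ≤ Real.log (‖u‖ ^ 2 + 1) := Real.log_nonneg (by linarith)
      rw [Real.log_pow] at h1
      have h4 := neg_abs_le (Real.log ‖u‖)
      have h5 := abs_nonneg (Real.log ‖u‖)
      rw [Real.norm_eq_abs, Real.norm_eq_abs, abs_le]
      push_cast at h1
      constructor <;> linarith
    · filter_upwards [hne] with u hu
      refine Tendsto.mul_const _ ?_
      have h0 : ‖u‖ ^ 2 + (0 : ℝ) ^ 2 ≠ 0 := by positivity
      convert (((hlim.pow 2).const_add (‖u‖ ^ 2)).log h0).div_const 2 using 2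
      simp
  have hB : Tendsto (fun n : ℕ =>
      ∫ v : ℂ, F ((1 / ((n : ℝ) + 1)) • v) * (2 / (1 + ‖v‖ ^ 2) ^ 2)) atTop
      (𝓝 (∫ v : ℂ, F 0 * (2 / (1 + ‖v‖ ^ 2) ^ 2))) := by
    obtain ⟨C, hC⟩ := hc.exists_bound_of_continuous hF.continuous
    refine tendsto_integral_of_dominated_convergence (fun v => C * (2 / (1 + ‖v‖ ^ 2) ^ 2))
      (fun n => ((hF.continuous.comp (continuous_const_smul _)).aestronglyMeasurable).mul
        PotF_int.aestronglyMeasurable) (PotF_int.const_mul C)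
      (fun n => Eventually.of_forall fun v => ?_) (Eventually.of_forall fun v => ?_)
    · rw [norm_mul, Real.norm_of_nonneg (by positivity : (0 : ℝ) ≤ 2 / (1 + ‖v‖ ^ 2) ^ 2)]
      exact mul_le_mul_of_nonneg_right (hC _) (by positivity)
    · refine Tendsto.mul_const _ ((hF.continuous.tendsto 0).comp ?_)
      simpa using hlim.smul_const v
  rw [integral_const_mul, PotF_mass, mul_comm] at hB
  exact tendsto_nhds_unique hA (hB.congr fun n => (e n).symm)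

end Pool.Agent.MP_4f0ed6_gt

end

section

open Set Laplacian Filter Topology MeasureTheory Metric InnerProductSpace
open scoped ContDiff

namespace Pool.Agent.MP_4f0ed6_gt

theorem PotL_conv (g : ℂ → ℝ) :
    NP g = convolution (fun u : ℂ => Real.log ‖u‖) g (ContinuousLinearMap.mul ℝ ℝ) volume := by
  funext w
  rw [convolution_eq_swap]
  simp [NP]

theorem PotL_smooth {g : ℂ → ℝ} (hg : ContDiff ℝ ∞ g) (hc : HasCompactSupport g) :
    ContDiff ℝ ∞ (NP g) := by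
  rw [PotL_conv]
  exact hc.contDiff_convolution_right _ locInt_log hg

theorem PotL_dir_smooth {g : ℂ → ℝ} (hg : ContDiff ℝ ∞ g) (v : ℂ) :
    ContDiff ℝ ∞ (fun u => fderiv ℝ g u v) :=
  (hg.fderiv_right (m := ∞) (by simp)).clm_apply contDiff_const

theorem PotL_dir_cs {g : ℂ → ℝ} (hc : HasCompactSupport g) (v : ℂ) :
    HasCompactSupport (fun u => fderiv ℝ g u v) :=
  hc.fderiv_apply ℝ v

theorem PotL_fderiv {g : ℂ → ℝ} (hg : ContDiff ℝ ∞ g) (hc : HasCompactSupport g) (w v : ℂ) :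
    fderiv ℝ (NP g) w v = NP (fun u => fderiv ℝ g u v) w := by
  have h1 : ContDiff ℝ 1 g := hg.of_le (by simp)
  rw [PotL_conv, PotL_conv, (hc.hasFDerivAt_convolution_right _ locInt_log h1 w).fderiv,
    convolution_precompR_apply _ locInt_log (hc.fderiv ℝ) (h1.continuous_fderiv (by simp))]

theorem PotL_second {f : ℂ → ℝ} (hf : ContDiff ℝ ∞ f) (w v : ℂ) :
    iteratedFDeriv ℝ 2 f w ![v, v] = fderiv ℝ (fun y => fderiv ℝ f y v) w v := by
  have hd : DifferentiableAt ℝ (fderiv ℝ f) w :=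
    ((hf.fderiv_right (m := ∞) (by simp)).differentiable (by simp)) w
  rw [iteratedFDeriv_two_apply, fderiv_clm_apply hd (differentiableAt_const v)]
  simp

theorem PotL_NP_second {g : ℂ → ℝ} (hg : ContDiff ℝ ∞ g) (hc : HasCompactSupport g) (w v : ℂ) :
    iteratedFDeriv ℝ 2 (NP g) w ![v, v] = NP (fun u => iteratedFDeriv ℝ 2 g u ![v, v]) w := by
  rw [PotL_second (PotL_smooth hg hc)]
  have h1 : (fun y => fderiv ℝ (NP g) y v) = NP (fun u => fderiv ℝ g u v) :=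
    funext fun y => PotL_fderiv hg hc y v
  rw [h1, PotL_fderiv (PotL_dir_smooth hg v) (PotL_dir_cs hc v)]
  congr 1
  funext u
  rw [PotL_second hg]

theorem PotL_lap {g : ℂ → ℝ} (hg : ContDiff ℝ ∞ g) (hc : HasCompactSupport g) (w : ℂ) :
    Δ (NP g) w = NP (Δ g) w := by
  have hs : ∀ v : ℂ, (fun u => iteratedFDeriv ℝ 2 g u ![v, v]) =
      fun u => fderiv ℝ (fun y => fderiv ℝ g y v) u v := fun v => funext fun u => PotL_second hg u v
  have hcont : ∀ v : ℂ, Continuous (fun u => iteratedFDeriv ℝ 2 g u ![v, v]) := fun v => by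
    rw [hs]
    exact (PotL_dir_smooth (PotL_dir_smooth hg v) v).continuous
  have hcs : ∀ v : ℂ, HasCompactSupport (fun u => iteratedFDeriv ℝ 2 g u ![v, v]) := fun v => by
    rw [hs]
    exact PotL_dir_cs (PotL_dir_cs hc v) v
  rw [laplacian_eq_iteratedFDeriv_complexPlane (NP g), laplacian_eq_iteratedFDeriv_complexPlane g,
    NP_add (hcont 1) (hcs 1) (hcont _) (hcs _)]
  simp only []
  rw [PotL_NP_second hg hc, PotL_NP_second hg hc]

theorem NP_lap {g : ℂ → ℝ} (hg : ContDiff ℝ ∞ g) (hc : HasCompactSupport g) (w : ℂ) :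
    Δ (NP g) w = 2 * Real.pi * g w := by
  have hF : ContDiff ℝ ∞ (fun u : ℂ => g (w - u)) := hg.comp (contDiff_const.sub contDiff_id)
  have hFc : HasCompactSupport (fun u : ℂ => g (w - u)) :=
    hc.comp_homeomorph (Homeomorph.subLeft w)
  have h := fund_sol hF hFc
  have hl : ∀ u : ℂ, Δ (fun u : ℂ => g (w - u)) u = Δ g (w - u) := fun u => by
    have ha : AnalyticAt ℂ (fun u : ℂ => w - u) u := by fun_prop
    rw [laplacian_comp_hol (τ := fun u : ℂ => w - u) (hg.contDiffAt.of_le (WithTop.coe_le_coe.2 (le_top : (2 : ℕ∞) ≤ ⊤))) ha]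
    have : deriv (fun u : ℂ => w - u) u = -1 := by
      simp
    rw [this]
    simp
  rw [PotL_lap hg hc, PotL_conv, convolution_def]
  simp only [hl, sub_zero] at h
  simpa using h

end Pool.Agent.MP_4f0ed6_gt

end

section

open Set Laplacian Filter Topology MeasureTheory Metric InnerProductSpace
open scoped ContDiff

namespace Pool.Agent.MP_4f0ed6_gt

theorem PotQ_hcs {g : ℂ → ℝ} (hs : ∀ u, g u ≠ 0 → ‖u‖ < 2) : HasCompactSupport g :=
  HasCompactSupport.intro (isCompact_closedBall (0 : ℂ) 2) fun u hu => by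
    by_contra h
    exact hu (mem_closedBall_zero_iff.2 (hs u h).le)

theorem PotQ_ev {g : ℂ → ℝ} (hg : Continuous g) (hc : HasCompactSupport g) {w : ℂ}
    (hw : w ≠ 0) :
    NQ g =ᶠ[𝓝 w] fun z => NP g z⁻¹ + (∫ u, g u) * Real.log ‖z‖ := by
  filter_upwards [isOpen_ne.mem_nhds hw] with z hz
  rw [NQ_eq hg hc hz, mul_comm]

theorem PotQ_inv {w : ℂ} (hw : w ≠ 0) : AnalyticAt ℂ (fun z : ℂ => z⁻¹) w :=
  analyticAt_id.inv hw

theorem NQ_contDiff (k : ℕ) {g : ℂ → ℝ} (hg : ContDiff ℝ k g) (hs : ∀ u, g u ≠ 0 → ‖u‖ < 2) :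
    ContDiff ℝ (k + 1 : ℕ) (NQ g) := by
  refine contDiff_iff_contDiffAt.2 fun w => ?_
  rcases eq_or_ne w 0 with rfl | hw
  · exact (NQ_near hg.continuous hs (by simp)).1.of_le (by exact_mod_cast le_top)
  · refine ContDiffAt.congr_of_eventuallyEq ?_ (PotQ_ev hg.continuous (PotQ_hcs hs) hw)
    refine ContDiffAt.add ?_ (contDiffAt_const.mul ?_)
    · exact (NP_contDiff k hg (PotQ_hcs hs)).contDiffAt.comp w
        (analytic_real_smooth (PotQ_inv hw) _)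
    · exact (log_norm_smooth (g := fun z => z) analyticAt_id hw).of_le (by exact_mod_cast le_top)

theorem NQ_lap {g : ℂ → ℝ} (hg : ContDiff ℝ ∞ g) (hs : ∀ u, g u ≠ 0 → ‖u‖ < 2) (w : ℂ) :
    Δ (NQ g) w = 2 * Real.pi * (g w⁻¹ * ‖deriv (fun z : ℂ => z⁻¹) w‖ ^ 2) := by
  rcases eq_or_ne w 0 with rfl | hw
  · rw [(NQ_near hg.continuous hs (by simp)).2, deriv_inv]
    simp
  · have h2 : (2 : WithTop ℕ∞) ≤ ∞ := WithTop.coe_le_coe.2 (le_top : (2 : ℕ∞) ≤ ⊤)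
    have hP : ContDiffAt ℝ 2 (NP g) w⁻¹ :=
      ((NP_smooth hg (PotQ_hcs hs)).of_le h2).contDiffAt
    have hL : ContDiffAt ℝ 2 (fun z : ℂ => Real.log ‖z‖) w :=
      (log_norm_smooth (g := fun z => z) analyticAt_id hw).of_le h2
    rw [lap_congr (PotQ_ev hg.continuous (PotQ_hcs hs) hw),
      lap_add (f := fun z => NP g z⁻¹) (hP.comp w (analytic_real_smooth (PotQ_inv hw) _))
        (contDiffAt_const.mul hL),
      lap_const_mul _ hL, log_norm_lap (g := fun z => z) analyticAt_id hw,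
      laplacian_comp_hol (τ := fun z => z⁻¹) hP (PotQ_inv hw), NP_lap hg (PotQ_hcs hs)]
    ring

end Pool.Agent.MP_4f0ed6_gt

end

section

open Set Laplacian Filter Topology MeasureTheory Metric InnerProductSpace
open scoped ContDiff

namespace Pool.Agent.MP_4f0ed6_gt

namespace Plumb

variable {V P : Type} [Fintype P] {Q : Plumb V P} {β : V → ℂ → ℝ} {Λ : ℝ} {Y : Inp V P} {k : ℕ}

theorem Fld1_le (k : ℕ) : ((k : ℕ) : WithTop ℕ∞) ≤ ∞ := by exact_mod_cast le_top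

theorem Fld1_two : (2 : WithTop ℕ∞) ≤ ∞ := Fld1_le 2

theorem Fld1_comb {f : ℂ → ℝ} {g τ : ℂ → ℂ} {w : ℂ} (b : ℝ) (hg : AnalyticAt ℂ g w)
    (h0 : g w ≠ 0) (hτ : AnalyticAt ℂ τ w) (hf : ContDiffAt ℝ ∞ f (τ w) ∧ Δ f (τ w) = 0) :
    ContDiffAt ℝ ∞ (fun w => b * Real.log ‖g w‖ + f (τ w)) w ∧
      Δ (fun w => b * Real.log ‖g w‖ + f (τ w)) w = 0 := by
  have h₁ := log_norm_smooth hg h0
  have h₂ : ContDiffAt ℝ ∞ (fun w => b * Real.log ‖g w‖) w := contDiffAt_const.mul h₁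
  have h₃ : ContDiffAt ℝ ∞ (fun w => f (τ w)) w := hf.1.comp w (analytic_real_smooth hτ ∞)
  refine ⟨h₂.add h₃, ?_⟩
  rw [lap_add (h₂.of_le Fld1_two) (h₃.of_le Fld1_two), lap_const_mul b (h₁.of_le Fld1_two),
    log_norm_lap hg h0, laplacian_comp_hol (hf.1.of_le Fld1_two) hτ, hf.2]
  simp

omit [Fintype P] in
theorem Fld1_norm (π : P) {z : ℂ} {t : ℝ} (hz : 0 < ‖z‖) (h : Q.r π ^ 2 < t * ‖z‖) :
    ‖Q.ε π / z‖ < t := by
  rw [norm_div, norm_ε, div_lt_iff₀ hz]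
  exact h

theorem Fld1_an {a c w : ℂ} (h : w - c ≠ 0) : AnalyticAt ℂ (fun w => a / (w - c)) w :=
  analyticAt_const.div (analyticAt_id.sub analyticAt_const) h

theorem gs_cs {k : WithTop ℕ∞} (hk : k ≤ ∞) (hQ : Q.Ok) (hβ : Q.Bump β Λ) (hY : Q.Reg Y k) :
    Q.glue.CS k (Q.gs β Y) :=
  hY.2.add ((hQ.cs_fin (fun v => (hβ.smooth v).of_le hk) hβ.supp).const_mul
    fun α => Q.tt Y α.1)

theorem Pot_reg (hQ : Q.Ok) (hβ : Q.Bump β Λ) (hY : Q.Reg Y k) (α : V × Bool) :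
    ContDiff ℝ (k + 1 : ℕ) (Q.Pot β Y α) := by
  have h := gs_cs (Fld1_le k) hQ hβ hY
  exact (NP_contDiff k (h α).1 (h α).2.1).add (NQ_contDiff k (h _).1 (cs_supp h _))

theorem farY_reg (hh : ∀ π, Continuous (Y.h π)) (π : P) {y : ℂ} (hy : ‖y‖ < Q.r π / 2) :
    ContDiffAt ℝ ∞ (Q.farY Y π) y ∧ Δ (Q.farY Y π) y = 0 := by
  obtain ⟨h₁, h₂⟩ := PI_smooth (hh (Q.σ π)) hy
  refine ⟨h₁.sub contDiffAt_const, ?_⟩
  have := lap_sub (g := fun _ => PI (Q.r π / 2) (Y.h (Q.σ π)) 0) (h₁.of_le Fld1_two)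
    contDiffAt_const
  rw [h₂, lap_const, sub_zero] at this
  exact this

theorem term_reg (hh : ∀ π, Continuous (Y.h π)) (π : P) {w : ℂ}
    (hw : 2 * Q.r π < ‖w - Q.c π‖) :
    ContDiffAt ℝ ∞ (Q.term Y π) w ∧ Δ (Q.term Y π) w = 0 := by
  have hr : 0 < Q.r π := r_pos π
  have h0 : 0 < ‖w - Q.c π‖ := by linarith
  have h1 : w - Q.c π ≠ 0 := norm_pos_iff.1 h0
  exact Fld1_comb (g := fun w => w - Q.c π) (τ := fun w => Q.ε π / (w - Q.c π)) (Y.b π)
    (analyticAt_id.sub analyticAt_const) h1 (Fld1_an h1)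
    (farY_reg hh π (Fld1_norm π h0 (by nlinarith)))

theorem cap_reg (hQ : Q.Ok) (hh : ∀ π, Continuous (Y.h π)) (π : P) {w : ℂ} (hw : ‖w‖ < 2) :
    ContDiffAt ℝ ∞ (fun w => Y.b π * Real.log ‖1 - Q.c π * w‖ +
        Q.farY Y π (Q.ε π * w / (1 - Q.c π * w))) w ∧
      Δ (fun w => Y.b π * Real.log ‖1 - Q.c π * w‖ +
        Q.farY Y π (Q.ε π * w / (1 - Q.c π * w))) w = 0 := by
  have hr : 0 < Q.r π := r_pos π
  have hr' : Q.r π ≤ 1 / 64 := by linarith [hQ.r_le' π, hQ.sep_le]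
  have h2 : ‖Q.c π * w‖ ≤ 1 / 2 := by
    rw [norm_mul]
    nlinarith [hQ.c_le π, norm_nonneg w, norm_nonneg (Q.c π)]
  have h3 : 1 / 2 ≤ ‖1 - Q.c π * w‖ := by
    have := norm_sub_norm_le (1 : ℂ) (Q.c π * w)
    rw [norm_one] at this
    linarith
  have h0 : 0 < ‖1 - Q.c π * w‖ := by linarith
  have h1 : 1 - Q.c π * w ≠ 0 := norm_pos_iff.1 h0
  have ha : AnalyticAt ℂ (fun w => 1 - Q.c π * w) w :=
    analyticAt_const.sub (analyticAt_const.mul analyticAt_id)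
  refine Fld1_comb (g := fun w => 1 - Q.c π * w) (τ := fun w => Q.ε π * w / (1 - Q.c π * w))
    (Y.b π) ha h1 ((analyticAt_const.mul analyticAt_id).div ha h1) (farY_reg hh π ?_)
  rw [norm_div, norm_mul, norm_ε, div_lt_iff₀ h0]
  have h4 : Q.r π ^ 2 * ‖w‖ ≤ Q.r π ^ 2 * 2 := by gcongr
  nlinarith

theorem R0_reg (hQ : Q.Ok) (hβ : Q.Bump β Λ) (hY : Q.Reg Y k) (π : P) {x : ℂ}
    (hx : ‖x‖ ≤ Q.sep / 2) : ContDiffAt ℝ (k + 1 : ℕ) (Q.R0 β Y π) x := by
  classical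
  have hc : ContDiffAt ℝ (k + 1 : ℕ) (fun x : ℂ => Q.c π + x) x :=
    contDiffAt_const.add contDiffAt_id
  unfold R0
  refine ((Pot_reg hQ hβ hY _).contDiffAt.comp x hc).add (ContDiffAt.sum fun π' h' => ?_)
  obtain ⟨h₁, h₂⟩ := Finset.mem_erase.1 h'
  have h₃ := (hQ.near h₁ (mem_pts.1 h₂) hx).1
  have hr : 0 < Q.r π' := r_pos π'
  exact ((term_reg hY.1 π' (by linarith [hQ.r_le' π'])).1.of_le (Fld1_le _)).comp x hc

theorem Phi_reg (hQ : Q.Ok) (hβ : Q.Bump β Λ) (hY : Q.Reg Y k) (v : V) {w : ℂ}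
    (hw : w ∈ Q.bulk v) : ContDiffAt ℝ (k + 1 : ℕ) (Q.Phi β Y v) w := by
  unfold Phi
  refine (Pot_reg hQ hβ hY _).contDiffAt.add (ContDiffAt.sum fun π h => ?_)
  have h₃ := hw.2 π (mem_pts.1 h)
  have hr : 0 < Q.r π := r_pos π
  exact (term_reg hY.1 π (by linarith [hQ.r_le' π])).1.of_le (Fld1_le _)

theorem integrable_β_Phi (hQ : Q.Ok) (hβ : Q.Bump β Λ) (hY : Q.Reg Y 0) (v : V) :
    Integrable fun w => β v w * Q.Phi β Y v w := by
  have hY' : Q.Reg Y ((0 : ℕ) : WithTop ℕ∞) := by simpa using hY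
  refine (integrableOn_iff_integrable_of_support_subset (s := Q.core v) fun w hw =>
    hβ.supp v w (left_ne_zero_of_mul hw)).1 ?_
  refine ContinuousOn.integrableOn_compact (isCompact_core v) fun w hw => ?_
  exact ((hβ.smooth v).continuous.continuousAt.mul
    (Phi_reg hQ hβ hY' v (hQ.core_sub_bulk v hw)).continuousAt).continuousWithinAt

theorem phi_reg (hQ : Q.Ok) (hβ : Q.Bump β Λ) (hY : Q.Reg Y k) (α : V × Bool) :
    ContDiffOn ℝ (k + 1 : ℕ) (Q.phi β Y α) (Q.W α) := by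
  intro w hw
  refine ContDiffAt.contDiffWithinAt ?_
  obtain ⟨v, _ | _⟩ := α
  · refine (contDiffAt_const.add (Pot_reg hQ hβ hY _).contDiffAt).add
      (ContDiffAt.sum fun π h => ?_)
    have h₃ := hw.2 π (mem_pts.1 h)
    have hr : 0 < Q.r π := r_pos π
    have h0 : 0 < ‖w - Q.c π‖ := by linarith
    have h1 : w - Q.c π ≠ 0 := norm_pos_iff.1 h0
    have h2 : ‖Q.ε π / (w - Q.c π)‖ < 2 * Q.r π := Fld1_norm π h0 (by nlinarith)
    refine ((contDiffAt_const.mul ((log_norm_smooth (g := fun w => w - Q.c π)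
      (analyticAt_id.sub analyticAt_const) h1).of_le (Fld1_le _))).add ?_).sub contDiffAt_const
    exact (R0_reg hQ hβ hY (Q.σ π) (by linarith [hQ.r_le' π])).comp w
      (analytic_real_smooth (Fld1_an h1) _)
  · exact (contDiffAt_const.add (Pot_reg hQ hβ hY _).contDiffAt).add
      (ContDiffAt.sum fun π _ => (cap_reg hQ hY.1 π (norm_lt_of_W hw)).1.of_le (Fld1_le _))

end Plumb

end Pool.Agent.MP_4f0ed6_gt

end

section

open Set Laplacian Filter Topology MeasureTheory Metric InnerProductSpace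
open scoped ContDiff

namespace Pool.Agent.MP_4f0ed6_gt

namespace Plumb

variable {V P : Type} [Fintype P] {Q : Plumb V P} {β : V → ℂ → ℝ} {Λ : ℝ} {Y Z : Inp V P}

omit [Fintype P] in
theorem Reg.sub (hY : Q.Reg Y 0) (hZ : Q.Reg Z 0) : Q.Reg (Y.sub Z) 0 := by
  refine ⟨fun π => (hY.1 π).sub (hZ.1 π), fun α => ?_⟩
  obtain ⟨h1, h2, h3⟩ := hY.2 α
  obtain ⟨k1, k2, k3⟩ := hZ.2 α
  refine ⟨h1.sub k1, h2.sub k2, ?_⟩
  exact (tsupport_sub (Y.g α) (Z.g α)).trans (union_subset h3 k3)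

theorem Fld2_tt (hY : Q.Reg Y 0) (hZ : Q.Reg Z 0) (v : V) :
    Q.tt (Y.sub Z) v = Q.tt Y v - Q.tt Z v := by
  have hi : ∀ {X : Inp V P}, Q.Reg X 0 → ∀ α, Integrable (X.g α) := fun hX α =>
    (hX.2 α).1.continuous.integrable_of_hasCompactSupport (hX.2 α).2.1
  simp only [tt, Inp.sub]
  rw [integral_sub (hi hY _) (hi hZ _), integral_sub (hi hY _) (hi hZ _), Finset.sum_sub_distrib]
  ring

theorem Fld2_gs (hY : Q.Reg Y 0) (hZ : Q.Reg Z 0) (α : V × Bool) :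
    Q.gs β (Y.sub Z) α = fun z => Q.gs β Y α z - Q.gs β Z α z := by
  funext z
  simp only [gs]
  rw [Fld2_tt hY hZ]
  simp only [Inp.sub]
  ring

theorem Fld2_Pot (hQ : Q.Ok) (hβ : Q.Bump β Λ) (hY : Q.Reg Y 0) (hZ : Q.Reg Z 0)
    (α : V × Bool) (w : ℂ) : Q.Pot β (Y.sub Z) α w = Q.Pot β Y α w - Q.Pot β Z α w := by
  have h1 := gs_cs (k := 0) (by simp) hQ hβ hY
  have h2 := gs_cs (k := 0) (by simp) hQ hβ hZ
  simp only [Pot]
  rw [Fld2_gs hY hZ, Fld2_gs hY hZ,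
    NP_sub (h1 _).1.continuous (h1 _).2.1 (h2 _).1.continuous (h2 _).2.1,
    NQ_sub (h1 _).1.continuous (h1 _).2.1 (h2 _).1.continuous (h2 _).2.1]
  ring

omit [Fintype P] in
theorem Fld2_farY (hY : Q.Reg Y 0) (hZ : Q.Reg Z 0) (π : P) {y : ℂ} (hy : ‖y‖ < Q.r π / 2) :
    Q.farY (Y.sub Z) π y = Q.farY Y π y - Q.farY Z π y := by
  have h0 : ‖(0 : ℂ)‖ < Q.r π / 2 := by
    have := r_pos (Q := Q) π
    rw [norm_zero]; linarith
  have e : (Y.sub Z).h (Q.σ π) = fun x => Y.h (Q.σ π) x - Z.h (Q.σ π) x := rfl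
  simp only [farY]
  rw [e, PI_sub (hY.1 _) (hZ.1 _) hy, PI_sub (hY.1 _) (hZ.1 _) h0]
  ring

omit [Fintype P] in
theorem Fld2_term (hY : Q.Reg Y 0) (hZ : Q.Reg Z 0) (π : P) {w : ℂ}
    (hw : 2 * Q.r π < ‖w - Q.c π‖) :
    Q.term (Y.sub Z) π w = Q.term Y π w - Q.term Z π w := by
  have hr := r_pos (Q := Q) π
  have hy : ‖Q.ε π / (w - Q.c π)‖ < Q.r π / 2 := by
    rw [norm_div, norm_ε, div_lt_iff₀ (by linarith)]
    nlinarith
  simp only [term]
  rw [Fld2_farY hY hZ π hy]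
  simp only [Inp.sub]
  ring

theorem Fld2_Phi (hQ : Q.Ok) (hβ : Q.Bump β Λ) (hY : Q.Reg Y 0) (hZ : Q.Reg Z 0) (v : V) {w : ℂ}
    (hw : w ∈ Q.bulk v) : Q.Phi β (Y.sub Z) v w = Q.Phi β Y v w - Q.Phi β Z v w := by
  simp only [Phi]
  rw [Fld2_Pot hQ hβ hY hZ, Finset.sum_congr rfl fun π hπ => Fld2_term hY hZ π (w := w) ?_,
    Finset.sum_sub_distrib]
  · ring
  · have h1 := hw.2 π (mem_pts.1 hπ)
    have h2 := hQ.r_le' π
    have h3 := hQ.sep_pos
    linarith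

theorem Fld2_CC (hQ : Q.Ok) (hβ : Q.Bump β Λ) (hY : Q.Reg Y 0) (hZ : Q.Reg Z 0) (v : V) :
    Q.CC β (Y.sub Z) v = Q.CC β Y v - Q.CC β Z v := by
  have e : (fun w => β v w * Q.Phi β (Y.sub Z) v w) =
      fun w => β v w * Q.Phi β Y v w - β v w * Q.Phi β Z v w := by
    funext w
    by_cases h : β v w = 0
    · simp [h]
    · rw [Fld2_Phi hQ hβ hY hZ v (hQ.core_sub_bulk v (hβ.supp v w h))]
      ring
  simp only [CC]
  rw [e, integral_sub (integrable_β_Phi hQ hβ hY v) (integrable_β_Phi hQ hβ hZ v)]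
  simp only [Inp.sub]
  ring

theorem R0_sub (hQ : Q.Ok) (hβ : Q.Bump β Λ) (hY : Q.Reg Y 0) (hZ : Q.Reg Z 0) (π : P) {x : ℂ}
    (hx : ‖x‖ ≤ Q.sep / 2) : Q.R0 β (Y.sub Z) π x = Q.R0 β Y π x - Q.R0 β Z π x := by
  classical
  simp only [R0]
  rw [Fld2_Pot hQ hβ hY hZ,
    Finset.sum_congr rfl fun π' hπ => Fld2_term hY hZ π' (w := Q.c π + x) ?_,
    Finset.sum_sub_distrib]
  · ring
  · have h0 := Finset.mem_erase.1 hπ
    have h1 := (hQ.near h0.1 (mem_pts.1 h0.2) hx).1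
    have h2 := hQ.r_le' π'
    have h3 := hQ.sep_pos
    linarith

theorem RR_sub (hQ : Q.Ok) (hβ : Q.Bump β Λ) (hY : Q.Reg Y 0) (hZ : Q.Reg Z 0) (π : P) :
    Q.RR β (Y.sub Z) π = Q.RR β Y π - Q.RR β Z π := by
  have h0 : ‖(0 : ℂ)‖ ≤ Q.sep / 2 := by
    have := hQ.sep_pos
    rw [norm_zero]; linarith
  simp only [RR]
  rw [Fld2_CC hQ hβ hY hZ, R0_sub hQ hβ hY hZ π h0]
  ring

theorem phi_sub (hQ : Q.Ok) (hβ : Q.Bump β Λ) (hY : Q.Reg Y 0) (hZ : Q.Reg Z 0) (α : V × Bool)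
    {w : ℂ} (hw : w ∈ Q.W α) : Q.phi β (Y.sub Z) α w = Q.phi β Y α w - Q.phi β Z α w := by
  have h0 : ‖(0 : ℂ)‖ ≤ Q.sep / 2 := by
    have := hQ.sep_pos
    rw [norm_zero]; linarith
  obtain ⟨v, _ | _⟩ := α
  · simp only [phi]
    rw [Fld2_CC hQ hβ hY hZ, Fld2_Pot hQ hβ hY hZ]
    have e : ∀ π ∈ Q.pts v, (Y.sub Z).b π * Real.log ‖w - Q.c π‖ +
        Q.R0 β (Y.sub Z) (Q.σ π) (Q.ε π / (w - Q.c π)) - Q.R0 β (Y.sub Z) (Q.σ π) 0 =
        (Y.b π * Real.log ‖w - Q.c π‖ + Q.R0 β Y (Q.σ π) (Q.ε π / (w - Q.c π)) -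
          Q.R0 β Y (Q.σ π) 0) -
        (Z.b π * Real.log ‖w - Q.c π‖ + Q.R0 β Z (Q.σ π) (Q.ε π / (w - Q.c π)) -
          Q.R0 β Z (Q.σ π) 0) := by
      intro π hπ
      have h1 := hw.2 π (mem_pts.1 hπ)
      have h2 := hQ.r_le' π
      have hr := r_pos (Q := Q) π
      have hy : ‖Q.ε π / (w - Q.c π)‖ ≤ Q.sep / 2 := by
        rw [norm_div, norm_ε, div_le_iff₀ (by linarith)]
        nlinarith
      rw [R0_sub hQ hβ hY hZ _ hy, R0_sub hQ hβ hY hZ _ h0]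
      simp only [Inp.sub]
      ring
    rw [Finset.sum_congr rfl e, Finset.sum_sub_distrib]
    ring
  · simp only [phi]
    rw [Fld2_CC hQ hβ hY hZ, Fld2_Pot hQ hβ hY hZ]
    have e : ∀ π ∈ Q.pts v, (Y.sub Z).b π * Real.log ‖1 - Q.c π * w‖ +
        Q.farY (Y.sub Z) π (Q.ε π * w / (1 - Q.c π * w)) =
        (Y.b π * Real.log ‖1 - Q.c π * w‖ + Q.farY Y π (Q.ε π * w / (1 - Q.c π * w))) -
        (Z.b π * Real.log ‖1 - Q.c π * w‖ + Q.farY Z π (Q.ε π * w / (1 - Q.c π * w))) := by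
      intro π _
      have h1 : ‖w‖ < 2 := norm_lt_of_W hw
      have h2 := hQ.r_le' π
      have h3 := hQ.sep_le
      have h4 := hQ.c_le π
      have hr := r_pos (Q := Q) π
      have h5 : 1 / 2 ≤ ‖1 - Q.c π * w‖ := by
        have h6 := norm_sub_norm_le (1 : ℂ) (Q.c π * w)
        rw [norm_one, norm_mul] at h6
        nlinarith [norm_nonneg w, norm_nonneg (Q.c π)]
      have hy : ‖Q.ε π * w / (1 - Q.c π * w)‖ < Q.r π / 2 := by
        rw [norm_div, norm_mul, norm_ε, div_lt_iff₀ (by linarith)]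
        have h7 : Q.r π ^ 2 * ‖w‖ ≤ Q.r π ^ 2 * 2 :=
          mul_le_mul_of_nonneg_left h1.le (sq_nonneg _)
        nlinarith
      rw [Fld2_farY hY hZ π hy]
      simp only [Inp.sub]
      ring
    rw [Finset.sum_congr rfl e, Finset.sum_sub_distrib]
    ring

end Plumb

end Pool.Agent.MP_4f0ed6_gt

end

section

open Set Laplacian Filter Topology MeasureTheory Metric InnerProductSpace
open scoped ContDiff

namespace Pool.Agent.MP_4f0ed6_gt

namespace Plumb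

variable {V P : Type} [Fintype P] {Q : Plumb V P} {β : V → ℂ → ℝ} {Λ s : ℝ} {Y : Inp V P}
  {ν ext : V × Bool → ℂ → ℝ}

theorem Boot_le (k : ℕ) : (k : WithTop ℕ∞) ≤ ∞ := by exact_mod_cast le_top

theorem Boot_two : (2 : WithTop ℕ∞) ≤ ∞ := Boot_le 2

omit [Fintype P] in
theorem Boot_reg (hY : Q.Reg Y ∞) (k : ℕ) : Q.Reg Y k := ⟨hY.1, hY.2.of_le (Boot_le k)⟩

theorem Boot_mul {k : WithTop ℕ∞} {f φ : V × Bool → ℂ → ℝ} (h : Q.glue.CS k f)
    (hφ : ∀ α, ContDiffOn ℝ k (φ α) (Q.W α)) : Q.glue.CS k fun α z => f α z * φ α z :=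
  fun α => ⟨contDiff_mul_of_supp (isOpen_W α) (h α).1 (h α).2.2 (hφ α), (h α).2.1.mul_right,
    (tsupport_mul_subset_left (f := f α) (g := φ α)).trans (h α).2.2⟩

theorem Boot_shift {f : ℂ → ℝ} {c x : ℂ} (hf : ContDiffAt ℝ 2 f (c + x)) :
    ContDiffAt ℝ 2 (fun y => f (c + y)) x ∧ Δ (fun y => f (c + y)) x = Δ f (c + x) := by
  refine ⟨hf.comp x (contDiffAt_const.add contDiffAt_id), ?_⟩
  have h1 : AnalyticAt ℂ (fun y : ℂ => c + y) x := analyticAt_const.add analyticAt_id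
  rw [laplacian_comp_hol (τ := fun y : ℂ => c + y) hf h1]
  simp

theorem IsFix.smooth (hQ : Q.Ok) (hβ : Q.Bump β Λ) (hν : Q.glue.CS ∞ ν)
    (hext : Q.glue.CS ∞ ext) (h : Q.IsFix β Y s ν ext) : Q.Reg Y ∞ := by
  have key : ∀ k : ℕ, Q.Reg Y k := by
    intro k
    induction k with
    | zero => exact h.reg
    | succ k ih =>
      refine ⟨ih.1, ?_⟩
      have e : Y.g = fun α z => -s * ν α z * Q.phi β Y α z + ext α z :=
        funext fun α => funext fun z => h.sour α z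
      have h1 := (Boot_mul ((hν.of_le (Boot_le (k + 1))).const_mul fun _ => -s)
        (phi_reg hQ hβ ih)).add (hext.of_le (Boot_le (k + 1)))
      rw [← e] at h1
      exact h1
  exact ⟨h.reg.1, fun α => ⟨contDiff_infty.2 fun k => ((key k).2 α).1, (h.reg.2 α).2⟩⟩

theorem phi_smooth (hQ : Q.Ok) (hβ : Q.Bump β Λ) (hY : Q.Reg Y ∞) (α : V × Bool) :
    ContDiffOn ℝ ∞ (Q.phi β Y α) (Q.W α) :=
  contDiffOn_infty.2 fun k =>
    (phi_reg hQ hβ (Boot_reg hY k) α).of_le (by exact_mod_cast Nat.le_succ k)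

theorem Pot_lap (hQ : Q.Ok) (hβ : Q.Bump β Λ) (hY : Q.Reg Y ∞) (α : V × Bool) (w : ℂ) :
    Δ (Q.Pot β Y α) w = 2 * Real.pi * (Q.gs β Y α w +
      Q.gs β Y (α.1, !α.2) w⁻¹ * ‖deriv (fun z : ℂ => z⁻¹) w‖ ^ 2) := by
  have hg := gs_cs le_rfl hQ hβ hY
  have h1 : ContDiffAt ℝ 2 (NP (Q.gs β Y α)) w :=
    ((NP_smooth (hg α).1 (hg α).2.1).of_le Boot_two).contDiffAt
  have h2 : ContDiffAt ℝ 2 (NQ (Q.gs β Y (α.1, !α.2))) w :=
    (NQ_contDiff 1 ((hg _).1.of_le (Boot_le 1)) (cs_supp hg _)).contDiffAt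
  have e : Q.Pot β Y α = fun w => NP (Q.gs β Y α) w + NQ (Q.gs β Y (α.1, !α.2)) w := rfl
  rw [e, lap_add h1 h2, NP_lap (hg α).1 (hg α).2.1, NQ_lap (hg _).1 (cs_supp hg _)]
  ring

theorem R0_lap (hQ : Q.Ok) (hβ : Q.Bump β Λ) (hY : Q.Reg Y ∞) (π : P) {x : ℂ}
    (hx : ‖x‖ < Q.sep / 2) :
    Δ (Q.R0 β Y π) x = 2 * Real.pi * Q.gs β Y (Q.pc π, false) (Q.c π + x) := by
  classical
  have hg := gs_cs le_rfl hQ hβ hY
  obtain ⟨h1, h2⟩ := Boot_shift (c := Q.c π) (x := x)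
    (Pot_reg hQ hβ (Boot_reg hY 1) (Q.pc π, false)).contDiffAt
  have h3 : ∀ π' ∈ (Q.pts (Q.pc π)).erase π,
      ContDiffAt ℝ 2 (fun y => Q.term Y π' (Q.c π + y)) x ∧
        Δ (fun y => Q.term Y π' (Q.c π + y)) x = 0 := by
    intro π' hπ'
    obtain ⟨a1, a2⟩ := Finset.mem_erase.1 hπ'
    have a3 := (hQ.near a1 (mem_pts.1 a2) hx.le).1
    have a4 := hQ.r_le' π'
    have a5 := r_pos (Q := Q) π'
    obtain ⟨b1, b2⟩ := term_reg (Q := Q) hY.1 π' (w := Q.c π + x) (by linarith)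
    obtain ⟨b3, b4⟩ := Boot_shift (b1.of_le Boot_two)
    exact ⟨b3, b4.trans b2⟩
  have e : Q.R0 β Y π = fun y => Q.Pot β Y (Q.pc π, false) (Q.c π + y) +
      ∑ π' ∈ (Q.pts (Q.pc π)).erase π, Q.term Y π' (Q.c π + y) := by
    funext y
    unfold R0
    congr
  have h4 : ContDiffAt ℝ 2 (fun y => ∑ π' ∈ (Q.pts (Q.pc π)).erase π,
      Q.term Y π' (Q.c π + y)) x := ContDiffAt.sum fun π' hπ' => (h3 π' hπ').1
  rw [e, lap_add h1 h4, h2, lap_sum _ (fun π' y => Q.term Y π' (Q.c π + y))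
    fun π' hπ' => (h3 π' hπ').1, Finset.sum_eq_zero fun π' hπ' => (h3 π' hπ').2, add_zero,
    Pot_lap hQ hβ hY]
  have h5 : Q.gs β Y ((Q.pc π, false).1, !(Q.pc π, false).2) (Q.c π + x)⁻¹ *
      ‖deriv (fun z : ℂ => z⁻¹) (Q.c π + x)‖ ^ 2 = 0 := by
    by_cases h0 : Q.c π + x = 0
    · rw [h0]
      simp
    · refine mul_eq_zero_of_left ?_ _
      by_contra hn
      have a1 := cs_supp hg _ _ hn
      have a2 : ‖Q.c π + x‖ ≤ ‖Q.c π‖ + ‖x‖ := norm_add_le _ _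
      have a3 := hQ.c_le π
      have a4 := hQ.sep_le
      have a5 : 0 < ‖Q.c π + x‖ := norm_pos_iff.2 h0
      rw [norm_inv, inv_lt_comm₀ a5 (by norm_num)] at a1
      linarith
  rw [h5, add_zero]

theorem far_eq (hQ : Q.Ok) (hβ : Q.Bump β Λ) (hY : Q.Reg Y ∞) (h : Q.IsFix β Y s ν ext) (π : P)
    {y : ℂ} (hy : ‖y‖ < Q.r π / 2) :
    Q.farY Y π y = Q.R0 β Y (Q.σ π) y - Q.R0 β Y (Q.σ π) 0 := by
  have hg := gs_cs le_rfl hQ hβ hY
  have hr := r_pos (Q := Q) π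
  have hs := hQ.r_le' π
  have hU : IsOpen {x : ℂ | ‖x‖ < Q.sep / 2 ∧
      Q.c (Q.σ π) + x ∉ tsupport (Q.gs β Y (Q.pc (Q.σ π), false))} :=
    (isOpen_lt continuous_norm continuous_const).inter
      ((isClosed_tsupport _).isOpen_compl.preimage (continuous_const.add continuous_id))
  have hf : ∀ x : ℂ, ‖x‖ ≤ Q.r π / 2 → HarmonicAt (Q.R0 β Y (Q.σ π)) x := by
    intro x hx
    refine harmonicAt_of_lap hU
      (fun z hz => (R0_reg hQ hβ (Boot_reg hY 1) (Q.σ π) hz.1.le).contDiffWithinAt)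
      (fun z hz => ?_) ⟨by linarith, fun hn => ?_⟩
    · rw [R0_lap hQ hβ hY _ hz.1, image_eq_zero_of_notMem_tsupport hz.2, mul_zero]
    · have h1 := ((hg _).2.2 hn).2 (Q.σ π) rfl
      rw [add_sub_cancel_left, hQ.r_σ] at h1
      linarith
  have he : ∀ x : ℂ, ‖x‖ = Q.r π / 2 → Y.h (Q.σ π) x = Q.R0 β Y (Q.σ π) x := fun x hx =>
    h.circ (Q.σ π) x (by rw [hQ.r_σ]; exact hx)
  unfold farY
  rw [PI_eq hf he hy, PI_eq hf he (by rw [norm_zero]; linarith)]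

theorem phi_far (hQ : Q.Ok) (hβ : Q.Bump β Λ) (hY : Q.Reg Y ∞) (h : Q.IsFix β Y s ν ext) (v : V)
    {w : ℂ} (hw : ∀ π, Q.pc π = v → 2 * Q.r π < ‖w - Q.c π‖) :
    Q.phi β Y (v, false) w = Q.CC β Y v + Q.Phi β Y v w := by
  simp only [phi, Phi, term, add_assoc]
  congr 2
  refine Finset.sum_congr rfl fun π hπ => ?_
  have h1 := hw π (mem_pts.1 hπ)
  have hr := r_pos (Q := Q) π
  have h2 : ‖Q.ε π / (w - Q.c π)‖ < Q.r π / 2 := by
    rw [norm_div, norm_ε, div_lt_iff₀ (by linarith)]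
    nlinarith
  rw [far_eq hQ hβ hY h π h2]
  ring

end Plumb

end Pool.Agent.MP_4f0ed6_gt

end

section

open Set Laplacian Filter Topology MeasureTheory Metric InnerProductSpace
open scoped ContDiff

namespace Pool.Agent.MP_4f0ed6_gt

namespace Plumb

variable {V P : Type} [Fintype V] [Fintype P] {Q : Plumb V P} {β : V → ℂ → ℝ} {Λ s : ℝ}
  {Y : Inp V P} {ν ext : V × Bool → ℂ → ℝ}

omit [Fintype V] in
theorem Match1_b_σ (hQ : Q.Ok) (h : Q.IsFix β Y s ν ext) (π : P) : Y.b (Q.σ π) = -Y.b π := by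
  have h1 := h.tube π
  have h2 := h.tube (Q.σ π)
  rw [hQ.σσ, hQ.L_σ] at h2
  have hL := hQ.L_pos π
  have h3 : Q.L π * (Y.b (Q.σ π) + Y.b π) = 0 := by rw [mul_add, h1, h2]; ring
  rcases mul_eq_zero.1 h3 with h4 | h4
  · exact absurd h4 hL.ne'
  · linarith

omit [Fintype V] in
theorem Match1_near (hQ : Q.Ok) (hβ : Q.Bump β Λ) (hY : Q.Reg Y ∞) (h : Q.IsFix β Y s ν ext)
    (π : P) {x : ℂ} (hx : ‖x‖ < 2 * Q.r π) :
    Q.phi β Y (Q.pc π, false) (Q.c π + x) = Q.CC β Y (Q.pc π) + Q.R0 β Y π x +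
      (Y.b π * Real.log ‖x‖ + Q.R0 β Y (Q.σ π) (Q.ε π / x) - Q.R0 β Y (Q.σ π) 0) := by
  classical
  have hmem : π ∈ Q.pts (Q.pc π) := mem_pts.2 rfl
  have hsum : ∑ π' ∈ (Q.pts (Q.pc π)).erase π,
      (Y.b π' * Real.log ‖Q.c π + x - Q.c π'‖ +
        Q.R0 β Y (Q.σ π') (Q.ε π' / (Q.c π + x - Q.c π')) - Q.R0 β Y (Q.σ π') 0) =
      ∑ π' ∈ (Q.pts (Q.pc π)).erase π, Q.term Y π' (Q.c π + x) := by
    refine Finset.sum_congr rfl fun π' hπ' => ?_
    obtain ⟨hne, hp⟩ := Finset.mem_erase.1 hπ'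
    have hp' : Q.pc π' = Q.pc π := mem_pts.1 hp
    have hr := hQ.r_le' π
    have hr' := hQ.r_le' π'
    have hrp := r_pos (Q := Q) π
    have hrp' := r_pos (Q := Q) π'
    have hn := (hQ.near hne hp' (x := x) (by linarith)).1
    have hy : ‖Q.ε π' / (Q.c π + x - Q.c π')‖ < Q.r π' / 2 := by
      rw [norm_div, norm_ε, div_lt_iff₀ (by linarith)]
      nlinarith
    rw [term, far_eq hQ hβ hY h π' hy]
    ring
  have e1 : Q.phi β Y (Q.pc π, false) (Q.c π + x) = Q.CC β Y (Q.pc π) +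
      Q.Pot β Y (Q.pc π, false) (Q.c π + x) + ∑ π' ∈ Q.pts (Q.pc π),
      (Y.b π' * Real.log ‖Q.c π + x - Q.c π'‖ +
        Q.R0 β Y (Q.σ π') (Q.ε π' / (Q.c π + x - Q.c π')) - Q.R0 β Y (Q.σ π') 0) := rfl
  have e2 : Q.R0 β Y π x = Q.Pot β Y (Q.pc π, false) (Q.c π + x) +
      ∑ π' ∈ (Q.pts (Q.pc π)).erase π, Q.term Y π' (Q.c π + x) := by
    rw [R0]
  rw [e1, e2, ← Finset.add_sum_erase _ _ hmem, hsum, add_sub_cancel_left]
  ring

omit [Fintype V] in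
theorem Match1_tube (hQ : Q.Ok) (hβ : Q.Bump β Λ) (hY : Q.Reg Y ∞) (h : Q.IsFix β Y s ν ext)
    (π : P) {z : ℂ} (h1 : Q.r π / 2 < ‖z - Q.c π‖) (h2 : ‖z - Q.c π‖ < 2 * Q.r π) :
    Q.phi β Y (Q.pc π, false) z =
      Q.phi β Y (Q.pc (Q.σ π), false) (Q.c (Q.σ π) + Q.ε π / (z - Q.c π)) := by
  obtain ⟨x, rfl⟩ : ∃ x, z = Q.c π + x := ⟨z - Q.c π, by ring⟩
  rw [add_sub_cancel_left] at h1 h2 ⊢
  have hrp := r_pos (Q := Q) π
  have hx0 : 0 < ‖x‖ := by linarith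
  have hx : x ≠ 0 := norm_pos_iff.1 hx0
  have hε : Q.ε π ≠ 0 := by
    rw [← norm_pos_iff, norm_ε]
    positivity
  have hy : ‖Q.ε π / x‖ < 2 * Q.r (Q.σ π) := by
    rw [hQ.r_σ, norm_div, norm_ε, div_lt_iff₀ hx0]
    nlinarith
  have hyx : Q.ε π / (Q.ε π / x) = x := by field_simp
  have hlog : Real.log ‖Q.ε π / x‖ = -Q.L π - Real.log ‖x‖ := by
    rw [norm_div, norm_ε, Real.log_div (by positivity) hx0.ne', Real.log_pow, log_r]
    push_cast
    ring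
  rw [Match1_near hQ hβ hY h π h2, Match1_near hQ hβ hY h (Q.σ π) hy, hQ.σσ, hQ.ε_σ, hyx,
    Match1_b_σ hQ h, hlog]
  have ht := h.tube π
  rw [RR, RR] at ht
  linarith

omit [Fintype V] in
theorem Match1_cap (hQ : Q.Ok) (hβ : Q.Bump β Λ) (hY : Q.Reg Y ∞) (h : Q.IsFix β Y s ν ext)
    (v : V) {w : ℂ} (h1 : 1 / 2 < ‖w‖) :
    Q.phi β Y (v, false) w = Q.phi β Y (v, true) w⁻¹ := by
  have hw0 : 0 < ‖w‖ := by linarith
  have hw : w ≠ 0 := norm_pos_iff.1 hw0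
  have hfar : ∀ π, 1 / 4 < ‖w - Q.c π‖ := fun π => by
    have a1 := hQ.c_le π
    have a2 := norm_sub_norm_le w (Q.c π)
    linarith
  have hgs := gs_cs (k := ∞) le_rfl hQ hβ hY
  have hc : ∀ α, Continuous (Q.gs β Y α) := fun α => (hgs α).1.continuous
  have hs : ∀ α, HasCompactSupport (Q.gs β Y α) := fun α => (hgs α).2.1
  have hgi : ∀ α, Integrable (Y.g α) := fun α =>
    (hY.2 α).1.continuous.integrable_of_hasCompactSupport (hY.2 α).2.1
  have hβi : Integrable (β v) := by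
    refine (hβ.smooth v).continuous.integrable_of_hasCompactSupport ?_
    exact HasCompactSupport.intro (isCompact_core (Q := Q) v) fun u hu => by
      by_contra hne
      exact hu (hβ.supp v u hne)
  have i1 : ∫ u, Q.gs β Y (v, false) u = (∫ u, Y.g (v, false) u) + Q.tt Y v := by
    have : (fun u => Q.gs β Y (v, false) u) = fun u => Y.g (v, false) u + Q.tt Y v * β v u := rfl
    rw [this, integral_add (hgi _) (hβi.const_mul _), integral_const_mul, hβ.int, mul_one]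
  have i2 : ∫ u, Q.gs β Y (v, true) u = ∫ u, Y.g (v, true) u := by
    have : (fun u => Q.gs β Y (v, true) u) = fun u => Y.g (v, true) u + Q.tt Y v * 0 := rfl
    rw [this]
    simp
  have hsum : ∑ π ∈ Q.pts v, (Y.b π * Real.log ‖1 - Q.c π * w⁻¹‖ +
      Q.farY Y π (Q.ε π * w⁻¹ / (1 - Q.c π * w⁻¹))) =
      ∑ π ∈ Q.pts v, Q.term Y π w - (∑ π ∈ Q.pts v, Y.b π) * Real.log ‖w‖ := by
    rw [Finset.sum_mul, ← Finset.sum_sub_distrib]
    refine Finset.sum_congr rfl fun π _ => ?_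
    have hd0 : 0 < ‖w - Q.c π‖ := by linarith [hfar π]
    have hd : w - Q.c π ≠ 0 := norm_pos_iff.1 hd0
    have a1 : 1 - Q.c π * w⁻¹ = (w - Q.c π) / w := by field_simp
    have a2 : Q.ε π * w⁻¹ / ((w - Q.c π) / w) = Q.ε π / (w - Q.c π) := by field_simp
    rw [a1, a2, norm_div, Real.log_div hd0.ne' hw0.ne', term]
    ring
  have e1 : Q.phi β Y (v, true) w⁻¹ = Q.CC β Y v + (NP (Q.gs β Y (v, true)) w⁻¹ +
      NQ (Q.gs β Y (v, false)) w⁻¹) + ∑ π ∈ Q.pts v, (Y.b π * Real.log ‖1 - Q.c π * w⁻¹‖ +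
      Q.farY Y π (Q.ε π * w⁻¹ / (1 - Q.c π * w⁻¹))) := rfl
  have e2 : Q.Phi β Y v w = NP (Q.gs β Y (v, false)) w + NQ (Q.gs β Y (v, true)) w +
      ∑ π ∈ Q.pts v, Q.term Y π w := rfl
  have e3 : Q.tt Y v = -(∑ π ∈ Q.pts v, Y.b π) - (∫ z, Y.g (v, false) z) -
      ∫ z, Y.g (v, true) z := rfl
  rw [phi_far hQ hβ hY h v fun π _ => by
      linarith [hfar π, hQ.r_le' π, hQ.sep_le, r_pos (Q := Q) π],
    e1, e2, hsum, NQ_eq (hc _) (hs _) hw, NQ_eq (hc _) (hs _) (inv_ne_zero hw), inv_inv, i1, i2,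
    e3, norm_inv, Real.log_inv]
  ring

omit [Fintype V] in
theorem phi_compat (hQ : Q.Ok) (hβ : Q.Bump β Λ) (hY : Q.Reg Y ∞) (h : Q.IsFix β Y s ν ext) :
    Q.glue.Compat (Q.phi β Y) := by
  rintro (π | ⟨v, _ | _⟩) z hz
  · exact Match1_tube hQ hβ hY h π hz.1 hz.2
  · exact Match1_cap hQ hβ hY h v hz.1
  · have h1 : 1 / 2 < ‖z‖ := hz.1
    have h2 : ‖z‖ < 2 := hz.2
    have h3 : 1 / 2 < ‖z⁻¹‖ := by
      rw [norm_inv, lt_inv_comm₀ (by norm_num) (by linarith)]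
      linarith
    have h4 := Match1_cap hQ hβ hY h v h3
    rw [inv_inv] at h4
    exact h4.symm

end Plumb

end Pool.Agent.MP_4f0ed6_gt

end

section

open Set Laplacian Filter Topology MeasureTheory Metric InnerProductSpace
open scoped ContDiff

namespace Pool.Agent.MP_4f0ed6_gt

namespace Plumb

variable {V P : Type} [Fintype V] [Fintype P] {Q : Plumb V P} {g : V × Bool → ℂ → ℝ}

omit [Fintype V] [Fintype P] in
theorem PlGd_cap (hg : ∀ α, ∀ z ∉ Q.W α, g α z = 0) (α : V × Bool) {w : ℂ}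
    (h : ¬ (1 / 2 < ‖w‖)) : g α w⁻¹ * ‖deriv (fun z : ℂ => z⁻¹) w‖ ^ 2 = 0 := by
  by_cases h0 : w = 0
  · subst h0
    simp
  · have hp : 0 < ‖w‖ := norm_pos_iff.mpr h0
    have hn : w⁻¹ ∉ Q.W α := by
      intro hW
      have h2 := norm_lt_of_W hW
      rw [norm_inv, inv_lt_comm₀ hp (by norm_num)] at h2
      apply h
      linarith
    rw [hg α _ hn, zero_mul]

omit [Fintype V] in
theorem PlGd_port (hQ : Q.Ok) (hg : ∀ α, ∀ z ∉ Q.W α, g α z = 0) (π : P) {w : ℂ}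
    (h : ¬ (‖w - Q.c π‖ < 2 * Q.r π)) :
    g (Q.pc (Q.σ π), false) (Q.c (Q.σ π) + Q.ε π / (w - Q.c π)) = 0 := by
  apply hg
  intro hW
  have h1 := hW.2 (Q.σ π) rfl
  have hr := r_pos (Q := Q) π
  rw [add_sub_cancel_left, norm_div, norm_ε, hQ.r_σ] at h1
  push Not at h
  have hp : 0 < ‖w - Q.c π‖ := by linarith
  rw [lt_div_iff₀ hp] at h1
  nlinarith

omit [Fintype P] in
theorem PlGd_capsum (hg : ∀ α, ∀ z ∉ Q.W α, g α z = 0) (α : V × Bool) {w : ℂ}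
    (hw : ‖w‖ < 2)
    {_ : ∀ κ, Decidable (Q.glue.ch (Sum.inr κ) = α ∧ w ∈ Q.glue.O (Sum.inr κ))} :
    (∑ κ : V × Bool, if Q.glue.ch (Sum.inr κ) = α ∧ w ∈ Q.glue.O (Sum.inr κ) then
      g (Q.glue.ch (Q.glue.σ (Sum.inr κ))) (Q.glue.τ (Sum.inr κ) w) *
        ‖deriv (Q.glue.τ (Sum.inr κ)) w‖ ^ 2 else 0) =
      g (α.1, !α.2) w⁻¹ * ‖deriv (fun z : ℂ => z⁻¹) w‖ ^ 2 := by
  rw [Finset.sum_eq_single α]
  · by_cases h : 1 / 2 < ‖w‖
    · rw [if_pos ⟨rfl, h, hw⟩]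
      rfl
    · rw [if_neg (fun hh => h hh.2.1), PlGd_cap hg _ h]
  · intro b _ hb
    exact if_neg (fun hh => hb hh.1)
  · intro h
    exact absurd (Finset.mem_univ _) h

theorem Ok.gd_false (hQ : Q.Ok) (hg : ∀ α, ∀ z ∉ Q.W α, g α z = 0) {v : V} {w : ℂ}
    (hw : w ∈ Q.W (v, false)) :
    Q.glue.gd g (v, false) w = g (v, false) w +
      g (v, true) w⁻¹ * ‖deriv (fun z : ℂ => z⁻¹) w‖ ^ 2 +
      ∑ π ∈ Q.pts v, g (Q.pc (Q.σ π), false) (Q.c (Q.σ π) + Q.ε π / (w - Q.c π)) *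
        ‖deriv (fun z : ℂ => Q.ε π / (z - Q.c π)) w‖ ^ 2 := by
  classical
  unfold Glue.gd
  rw [Fintype.sum_sum_type, add_assoc, add_comm (∑ _ : P, _)]
  refine congrArg _ (congrArg₂ (· + ·) (PlGd_capsum hg (v, false) (norm_lt_of_W hw)) ?_)
  unfold pts
  rw [Finset.sum_filter]
  refine Finset.sum_congr rfl fun π _ => ?_
  by_cases hv : Q.pc π = v
  · rw [if_pos hv]
    by_cases h : ‖w - Q.c π‖ < 2 * Q.r π
    · rw [if_pos ⟨by subst hv; rfl, hw.2 π hv, h⟩]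
      have : deriv (Q.glue.τ (Sum.inl π)) w = deriv (fun z : ℂ => Q.ε π / (z - Q.c π)) w :=
        deriv_const_add (f := fun z : ℂ => Q.ε π / (z - Q.c π)) (Q.c (Q.σ π))
      rw [this]
      rfl
    · rw [if_neg (fun hh => h hh.2.2), PlGd_port hQ hg π h, zero_mul]
  · rw [if_neg hv, if_neg (fun hh => hv (congrArg Prod.fst hh.1))]

theorem Ok.gd_true (hQ : Q.Ok) (hg : ∀ α, ∀ z ∉ Q.W α, g α z = 0) {v : V} {w : ℂ}
    (hw : w ∈ Q.W (v, true)) :
    Q.glue.gd g (v, true) w = g (v, true) w +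
      g (v, false) w⁻¹ * ‖deriv (fun z : ℂ => z⁻¹) w‖ ^ 2 := by
  classical
  have _ := hQ
  unfold Glue.gd
  rw [Fintype.sum_sum_type, Finset.sum_eq_zero (s := (Finset.univ : Finset P)), zero_add]
  · exact congrArg _ (PlGd_capsum hg (v, true) (norm_lt_of_W hw))
  · intro π _
    refine if_neg fun hh => ?_
    have := congrArg Prod.snd hh.1
    simp [glue] at this

end Plumb

end Pool.Agent.MP_4f0ed6_gt

end

section

open Set Laplacian Filter Topology MeasureTheory Metric InnerProductSpace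
open scoped ContDiff

namespace Pool.Agent.MP_4f0ed6_gt

namespace Plumb

variable {V P : Type} [Fintype V] [Fintype P] {Q : Plumb V P} {β : V → ℂ → ℝ} {Λ s : ℝ}
  {Y : Inp V P} {ν ext : V × Bool → ℂ → ℝ}

theorem Match_two : (2 : WithTop ℕ∞) ≤ ∞ := WithTop.coe_le_coe.2 (le_top (a := (2 : ℕ∞)))

omit [Fintype V] [Fintype P] in
theorem Match_one (hY : Q.Reg Y ∞) : Q.Reg Y (1 : ℕ) :=
  ⟨hY.1, hY.2.of_le (by exact_mod_cast le_top)⟩

omit [Fintype V] in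
theorem Match_port (hQ : Q.Ok) (hβ : Q.Bump β Λ) (hY : Q.Reg Y ∞) (π : P) {w : ℂ}
    (hw : Q.r π / 2 < ‖w - Q.c π‖) :
    ContDiffAt ℝ 2 (fun w => Y.b π * Real.log ‖w - Q.c π‖ +
      Q.R0 β Y (Q.σ π) (Q.ε π / (w - Q.c π)) - Q.R0 β Y (Q.σ π) 0) w ∧
    Δ (fun w => Y.b π * Real.log ‖w - Q.c π‖ +
      Q.R0 β Y (Q.σ π) (Q.ε π / (w - Q.c π)) - Q.R0 β Y (Q.σ π) 0) w =
      2 * Real.pi * (Q.gs β Y (Q.pc (Q.σ π), false) (Q.c (Q.σ π) + Q.ε π / (w - Q.c π)) *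
        ‖deriv (fun z : ℂ => Q.ε π / (z - Q.c π)) w‖ ^ 2) := by
  have hr := r_pos (Q := Q) π
  have h0 : w - Q.c π ≠ 0 := norm_pos_iff.1 (by linarith)
  have a₁ : AnalyticAt ℂ (fun z : ℂ => z - Q.c π) w := analyticAt_id.sub analyticAt_const
  have a₂ : AnalyticAt ℂ (fun z : ℂ => Q.ε π / (z - Q.c π)) w := analyticAt_const.div a₁ h0
  have hx : ‖Q.ε π / (w - Q.c π)‖ < Q.sep / 2 := by
    have := hQ.r_le' π
    rw [norm_div, norm_ε, div_lt_iff₀ (by linarith)]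
    nlinarith
  have c₁ : ContDiffAt ℝ 2 (fun z : ℂ => Real.log ‖z - Q.c π‖) w :=
    (log_norm_smooth a₁ h0).of_le Match_two
  have c₂ : ContDiffAt ℝ 2 (Q.R0 β Y (Q.σ π)) (Q.ε π / (w - Q.c π)) :=
    R0_reg hQ hβ (Match_one hY) (Q.σ π) hx.le
  have c₃ : ContDiffAt ℝ 2 (fun z => Q.R0 β Y (Q.σ π) (Q.ε π / (z - Q.c π))) w :=
    ContDiffAt.comp (g := Q.R0 β Y (Q.σ π)) w c₂ (analytic_real_smooth a₂ 2)
  have c₄ := (contDiffAt_const (c := Y.b π)).mul c₁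
  refine ⟨(c₄.add c₃).sub contDiffAt_const, ?_⟩
  rw [lap_sub (c₄.add c₃) contDiffAt_const, lap_add c₄ c₃, lap_const, lap_const_mul _ c₁,
    log_norm_lap a₁ h0, laplacian_comp_hol (τ := fun z : ℂ => Q.ε π / (z - Q.c π)) c₂ a₂,
    R0_lap hQ hβ hY _ hx]
  ring

theorem phi_lap (hQ : Q.Ok) (hβ : Q.Bump β Λ) (hY : Q.Reg Y ∞) (α : V × Bool) {w : ℂ}
    (hw : w ∈ Q.W α) : Δ (Q.phi β Y α) w = 2 * Real.pi * Q.glue.gd (Q.gs β Y) α w := by
  have hg : ∀ α, ∀ z ∉ Q.W α, Q.gs β Y α z = 0 := fun α z hz =>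
    (gs_cs le_rfl hQ hβ hY).eq_zero hz
  have cP : ContDiffAt ℝ 2 (Q.Pot β Y α) w := (Pot_reg hQ hβ (Match_one hY) α).contDiffAt
  have cC := (contDiffAt_const (c := Q.CC β Y α.1)).add cP
  obtain ⟨v, _ | _⟩ := α
  · have h := fun π (hπ : π ∈ Q.pts v) => Match_port hQ hβ hY π (hw.2 π (mem_pts.1 hπ))
    rw [hQ.gd_false hg hw, phi, lap_add cC (ContDiffAt.sum fun π hπ => (h π hπ).1),
      lap_add contDiffAt_const cP, lap_const, Pot_lap hQ hβ hY,
      lap_sum _ _ fun π hπ => (h π hπ).1, Finset.sum_congr rfl fun π hπ => (h π hπ).2,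
      ← Finset.mul_sum]
    simp only [Bool.not_false]
    ring
  · have h := fun π => cap_reg hQ hY.1 π (norm_lt_of_W hw)
    rw [hQ.gd_true hg hw, phi,
      lap_add cC (ContDiffAt.sum fun π _ => (h π).1.of_le Match_two),
      lap_add contDiffAt_const cP, lap_const, Pot_lap hQ hβ hY,
      lap_sum _ _ fun π _ => (h π).1.of_le Match_two, Finset.sum_eq_zero fun π _ => (h π).2]
    simp only [Bool.not_true]
    ring

theorem IsFix.gsol (hQ : Q.Ok) (hβ : Q.Bump β Λ) (hν : Q.glue.CS ∞ ν) (hext : Q.glue.CS ∞ ext)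
    (h : Q.IsFix β Y s ν ext) : Q.glue.GSol (Q.phi β Y)
      fun α z => src s ν β (Q.tt Y) (Q.phi β Y) α z + ext α z := by
  have hY := h.smooth hQ hβ hν hext
  have e : (fun α z => src s ν β (Q.tt Y) (Q.phi β Y) α z + ext α z) = Q.gs β Y := by
    funext α z
    rw [src, gs, h.sour]
    ring
  rw [e]
  exact ⟨phi_smooth hQ hβ hY, phi_compat hQ hβ hY h, fun α z hz => phi_lap hQ hβ hY α hz⟩

end Plumb

end Pool.Agent.MP_4f0ed6_gt

end

section

open Set Laplacian Filter Topology MeasureTheory Metric InnerProductSpace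
open scoped ContDiff

namespace Pool.Agent.MP_4f0ed6_gt

lemma Trans_det (c : ℂ) : |(c • (1 : ℂ →L[ℝ] ℂ)).det| = ‖c‖ ^ 2 := by
  have : (c • (1 : ℂ →L[ℝ] ℂ)).det = ‖c‖ ^ 2 := by
    rw [ContinuousLinearMap.det, ← LinearMap.det_toMatrix Complex.basisOneI, Matrix.det_fin_two,
      Complex.sq_norm, Complex.normSq_apply]
    simp [LinearMap.toMatrix_apply]
  rw [this, abs_of_nonneg (by positivity)]

section
variable {A K : Type} {G : Glue A K}

lemma Trans_image (hG : G.Ok) (κ : K) : G.τ κ '' G.O κ = G.O (G.σ κ) := by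
  refine Subset.antisymm (image_subset_iff.2 fun z hz => hG.maps κ z hz) fun w hw => ?_
  have h1 := hG.maps _ w hw
  have h2 := hG.inv _ w hw
  rw [hG.σσ] at h1 h2
  exact ⟨_, h1, h2⟩

lemma Trans_change (hG : G.Ok) (κ : K) {F : ℂ → ℝ} (hF : IntegrableOn F (G.O (G.σ κ))) :
    IntegrableOn (fun z => ‖deriv (G.τ κ) z‖ ^ 2 * F (G.τ κ z)) (G.O κ) ∧
      ∫ z in G.O κ, ‖deriv (G.τ κ) z‖ ^ 2 * F (G.τ κ z) = ∫ w in G.O (G.σ κ), F w := by
  have hm := (hG.O_open κ).measurableSet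
  have hd : ∀ z ∈ G.O κ, HasFDerivWithinAt (G.τ κ) (deriv (G.τ κ) z • (1 : ℂ →L[ℝ] ℂ))
      (G.O κ) z := fun z hz =>
    (hG.analytic hz).differentiableAt.hasDerivAt.complexToReal_fderiv.hasFDerivWithinAt
  have hi : InjOn (G.τ κ) (G.O κ) := fun z hz w hw e => by
    rw [← hG.inv κ z hz, e, hG.inv κ w hw]
  have h1 := integrableOn_image_iff_integrableOn_abs_det_fderiv_smul volume hm hd hi F
  have h2 := integral_image_eq_integral_abs_det_fderiv_smul volume hm hd hi F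
  simp only [Trans_det, Trans_image hG, smul_eq_mul] at h1 h2
  exact ⟨h1.1 hF, h2.symm⟩

lemma Trans_bdd {χ : A → ℂ → ℝ} (hχ : G.CS 0 χ) (α : A) : ∃ B, ∀ z, ‖χ α z‖ ≤ B :=
  (hχ α).1.continuous.bounded_above_of_compact_support (hχ α).2.1

lemma Trans_int (hG : G.Ok) {χ h : A → ℂ → ℝ} (hχ : G.CS 0 χ) (hh : G.CS 0 h) (κ : K) :
    IntegrableOn (fun z => h (G.ch κ) z * χ (G.ch (G.σ κ)) (G.τ κ z)) (G.O κ) := by
  obtain ⟨B, hB⟩ := Trans_bdd hχ (G.ch (G.σ κ))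
  refine Integrable.mul_bdd (hh.integrable _).integrableOn ?_ (Eventually.of_forall fun z => hB _)
  exact ((hχ _).1.continuous.comp_continuousOn (hG.hol κ).continuousOn).aestronglyMeasurable
    (hG.O_open κ).measurableSet

open Classical in
lemma Trans_sum [Fintype A] [Fintype K] (hG : G.Ok) {u : A → ℂ → ℝ} {F : K → ℂ → ℝ}
    (hu : ∀ α, Integrable (u α)) (hF : ∀ κ, IntegrableOn (F κ) (G.O κ)) :
    ∑ α, ∫ z, (u α z + ∑ κ, if G.ch κ = α ∧ z ∈ G.O κ then F κ z else 0) =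
      ∑ α, (∫ z, u α z) + ∑ κ, ∫ z in G.O κ, F κ z := by
  have e : ∀ α κ, (fun z => if G.ch κ = α ∧ z ∈ G.O κ then F κ z else 0) =
      if G.ch κ = α then (G.O κ).indicator (F κ) else 0 := by
    intro α κ
    funext z
    by_cases h : G.ch κ = α <;> simp [h, indicator_apply]
  have hi : ∀ α κ, Integrable fun z => if G.ch κ = α ∧ z ∈ G.O κ then F κ z else 0 := by
    intro α κ
    rw [e]
    split_ifs
    · exact (integrable_indicator_iff (hG.O_open κ).measurableSet).2 (hF κ)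
    · exact integrable_zero _ _ _
  have h2 : ∀ α κ, ∫ z, (if G.ch κ = α ∧ z ∈ G.O κ then F κ z else 0) =
      if G.ch κ = α then ∫ z in G.O κ, F κ z else 0 := by
    intro α κ
    rw [e]
    split_ifs
    · exact integral_indicator (hG.O_open κ).measurableSet
    · simp
  have h3 : ∀ α, ∫ z, (u α z + ∑ κ, if G.ch κ = α ∧ z ∈ G.O κ then F κ z else 0) =
      (∫ z, u α z) + ∑ κ, if G.ch κ = α then ∫ z in G.O κ, F κ z else 0 := by
    intro α
    rw [integral_add (hu α) (integrable_finsetSum _ fun κ _ => hi α κ),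
      integral_finsetSum _ fun κ _ => hi α κ]
    simp only [h2]
  simp only [h3]
  rw [Finset.sum_add_distrib, Finset.sum_comm]
  simp

end

theorem Glue.transport {A K : Type} [Fintype A] [Fintype K] {G : Glue A K} (hG : G.Ok)
    {χ h : A → ℂ → ℝ} (hχ : G.CS 0 χ) (hh : G.CS 0 h)
    (h1 : ∀ α, ∀ z ∈ G.W α, G.gf χ α z = 1) :
    ∑ α, ∫ z, χ α z * G.gd h α z = ∑ α, ∫ z, h α z := by
  classical
  have hu : ∀ α, Integrable fun z => h α z * χ α z := by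
    intro α
    obtain ⟨B, hB⟩ := Trans_bdd hχ α
    exact (hh.integrable α).mul_bdd (hχ α).1.continuous.aestronglyMeasurable
      (Eventually.of_forall hB)
  have hJ := Trans_int hG hχ hh
  have hI := fun κ => Trans_change hG κ (hJ (G.σ κ))
  have e1 : ∀ α z, χ α z * G.gd h α z = h α z * χ α z +
      ∑ κ, if G.ch κ = α ∧ z ∈ G.O κ then ‖deriv (G.τ κ) z‖ ^ 2 *
        (h (G.ch (G.σ κ)) (G.τ κ z) * χ (G.ch (G.σ (G.σ κ))) (G.τ (G.σ κ) (G.τ κ z))) else 0 := by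
    intro α z
    rw [Glue.gd, mul_add, mul_comm, Finset.mul_sum]
    congr 1
    refine Finset.sum_congr rfl fun κ _ => ?_
    split_ifs with hc
    · rw [hG.inv κ z hc.2, hG.σσ, hc.1]
      ring
    · exact mul_zero _
  have e2 : ∀ α z, h α z = h α z * χ α z +
      ∑ κ, if G.ch κ = α ∧ z ∈ G.O κ then h (G.ch κ) z * χ (G.ch (G.σ κ)) (G.τ κ z) else 0 := by
    intro α z
    have e3 : h α z = h α z * G.gf χ α z := by
      by_cases hz : z ∈ G.W α
      · rw [h1 α z hz, mul_one]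
      · rw [hh.eq_zero hz, zero_mul]
    rw [Glue.gf, mul_add, Finset.mul_sum] at e3
    refine e3.trans ?_
    congr 1
    refine Finset.sum_congr rfl fun κ _ => ?_
    split_ifs with hc
    · rw [hc.1]
    · exact mul_zero _
  have s1 := Trans_sum hG hu fun κ => (hI κ).1
  have s2 := Trans_sum hG hu hJ
  simp only [← e1] at s1
  simp only [← e2] at s2
  rw [s1, s2]
  congr 1
  simp only [fun κ => (hI κ).2]
  exact Equiv.sum_comp (Function.Involutive.toPerm G.σ hG.σσ)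
    fun κ => ∫ z in G.O κ, h (G.ch κ) z * χ (G.ch (G.σ κ)) (G.τ κ z)

end Pool.Agent.MP_4f0ed6_gt

end

section

open Set Laplacian Filter Topology MeasureTheory Metric InnerProductSpace
open scoped ContDiff

namespace Pool.Agent.MP_4f0ed6_gt

theorem GI_int {A K : Type} {G : Glue A K} {χ : A → ℂ → ℝ} (hχ : G.CS 0 χ)
    {u v : A → ℂ → ℝ} (c : ℝ) (huv : ∀ α, ∀ z ∈ G.W α, u α z = c * v α z) :
    ∑ᶠ α, ∫ z, χ α z * u α z = ∑ᶠ α, c * ∫ z, χ α z * v α z := by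
  refine finsum_congr fun α => ?_
  rw [← integral_const_mul]
  refine integral_congr_ae (Eventually.of_forall fun z => ?_)
  by_cases hz : z ∈ G.W α
  · simp only [huv α z hz]; ring
  · simp [hχ.eq_zero hz]

theorem GI_sum {A K : Type} [Fintype A] {G : Glue A K} {χ : A → ℂ → ℝ} (hχ : G.CS 0 χ)
    {u v : A → ℂ → ℝ} (c : ℝ) (huv : ∀ α, ∀ z ∈ G.W α, u α z = c * v α z) :
    ∑ α, ∫ z, χ α z * u α z = c * ∑ α, ∫ z, χ α z * v α z := by
  have := GI_int hχ c huv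
  rw [finsum_eq_sum_of_fintype, finsum_eq_sum_of_fintype] at this
  rw [this, Finset.mul_sum]

theorem Glue.green {A K : Type} [Fintype A] [Fintype K] {G : Glue A K} (hG : G.Ok)
    {φ g φ' g' : A → ℂ → ℝ} (h : G.GSol φ g) (h' : G.GSol φ' g') (hg : G.CS 0 g)
    (hg' : G.CS 0 g') : ∑ α, ∫ z, g' α z * φ α z = ∑ α, ∫ z, g α z * φ' α z := by
  obtain ⟨χ, hχ, -, h1⟩ := Glue.exists_part hG
  have h0 : (0 : WithTop ℕ∞) ≤ ∞ := zero_le
  have hχ0 : G.CS 0 χ := hχ.of_le h0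
  have hφ0 : ∀ α, ContDiffOn ℝ 0 (φ α) (G.W α) := fun α => (h.smooth α).of_le h0
  have hφ0' : ∀ α, ContDiffOn ℝ 0 (φ' α) (G.W α) := fun α => (h'.smooth α).of_le h0
  have hF : G.CS ∞ fun α z => χ α z * φ α z := hχ.mul hG h.smooth
  have hL : G.CS 0 fun α z => Δ (fun w => χ α w * φ α w) z * φ' α z :=
    (hF.lap.of_le h0).mul hG hφ0'
  have e0 : ∑ α, ∫ z, (χ α z * φ α z) * Δ (φ' α) z =
      ∑ α, ∫ z, Δ (fun w => χ α w * φ α w) z * φ' α z := by
    refine Finset.sum_congr rfl fun α _ => ?_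
    rw [green0 (hG.W_open α) (hF α).1 (hF α).2.1 (hF α).2.2 (h'.smooth α)]
    simp only [mul_comm]
  have e1 : ∑ α, ∫ z, (χ α z * φ α z) * Δ (φ' α) z =
      2 * Real.pi * ∑ α, ∫ z, g' α z * φ α z := by
    rw [← Glue.transport hG hχ0 (hg'.mul hG hφ0) h1]
    simp only [mul_assoc (χ _ _)]
    refine GI_sum hχ0 (u := fun α z => φ α z * Δ (φ' α) z) _ fun α z hz => ?_
    rw [Glue.gd_mul h.compat, h'.lap α z hz]
    ring
  have e2 : ∑ α, ∫ z, Δ (fun w => χ α w * φ α w) z * φ' α z =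
      2 * Real.pi * ∑ α, ∫ z, g α z * φ' α z := by
    rw [← Glue.transport hG hχ0 hL h1, ← Glue.transport hG hχ0 (hg.mul hG hφ0') h1]
    refine GI_sum hχ0 _ fun α z hz => ?_
    rw [Glue.gd_mul h'.compat, Glue.gd_mul h'.compat g, ← mul_assoc, ← h.lap α z hz]
    have := Glue.lap_gf hG hF hz
    rw [← this]
    congr 1
    refine lap_congr ?_
    filter_upwards [(hG.W_open α).mem_nhds hz] with w hw
    rw [Glue.gf_mul h.compat, h1 α w hw, one_mul]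
  have hp : (2 * Real.pi) ≠ 0 := by positivity
  exact mul_left_cancel₀ hp (by rw [← e1, e0, e2])

end Pool.Agent.MP_4f0ed6_gt

end

section

open Real

namespace Pool.Agent.MP_4f0ed6_gt

theorem Asym2_e {m γ : ℕ} (hm : 0 < m) (h : 2 ^ (5 * m ^ 2) ≤ γ) :
    ∃ e : ℕ, m ≤ e ∧ 2 ^ (e * m) * 2 * (e * m + 4 ^ e) ≤ γ ∧
      γ ≤ 10 * 2 ^ m * (2 ^ e) ^ m * (2 ^ e) ^ 2 := by
  classical
  let P : ℕ → Prop := fun e => 2 ^ (e * m) * 2 * (e * m + 4 ^ e) ≤ γ
  have h4 : ∀ e : ℕ, 4 ^ e = 2 ^ e * 2 ^ e := fun e => by rw [← mul_pow]; norm_num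
  have hP : P m := by
    refine le_trans ?_ h
    have h1 : m * m ≤ 4 ^ m := by
      rw [h4]
      exact Nat.mul_le_mul Nat.lt_two_pow_self.le Nat.lt_two_pow_self.le
    calc 2 ^ (m * m) * 2 * (m * m + 4 ^ m) ≤ 2 ^ (m * m) * 2 * (4 ^ m + 4 ^ m) := by gcongr
      _ = 2 ^ (m * m + 2 * m + 2) := by rw [h4]; ring
      _ ≤ _ := Nat.pow_le_pow_right (by norm_num) (by nlinarith)
  have hle : ∀ e, P e → e < γ := fun e he => by
    have h1 : e < 4 ^ e := Nat.lt_pow_self (by norm_num)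
    have h2 : 1 ≤ 2 ^ (e * m) := Nat.one_le_two_pow
    have h3 : 1 * 2 * (0 + 4 ^ e) ≤ 2 ^ (e * m) * 2 * (e * m + 4 ^ e) := by
      gcongr
      exact Nat.zero_le _
    have : 2 ^ (e * m) * 2 * (e * m + 4 ^ e) ≤ γ := he
    omega
  obtain ⟨e, he⟩ : ∃ e, e = Nat.findGreatest P γ := ⟨_, rfl⟩
  have h1 : m ≤ e := he ▸ Nat.le_findGreatest (hle m hP).le hP
  have h2 : P e := he ▸ Nat.findGreatest_spec (hle m hP).le hP
  have h3 : ¬P (e + 1) :=
    Nat.findGreatest_is_greatest (he ▸ Nat.lt_succ_self e) (hle e h2)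
  refine ⟨e, h1, h2, (not_le.1 h3).le.trans ?_⟩
  have h5 : e + 1 ≤ 2 ^ e := Nat.lt_two_pow_self
  have h6 : (e + 1) * m ≤ 2 ^ e * 2 ^ e := Nat.mul_le_mul h5 (by omega)
  calc 2 ^ ((e + 1) * m) * 2 * ((e + 1) * m + 4 ^ (e + 1))
      ≤ 2 ^ ((e + 1) * m) * 2 * (2 ^ e * 2 ^ e + 4 ^ (e + 1)) := by gcongr
    _ = _ := by rw [pow_succ 4, h4]; ring

theorem Asym2_choose {q m : ℕ} (h : 2 * m ≤ q) :
    (q : ℝ) ^ m ≤ (2 * m) ^ m * Nat.choose q m := by
  have h1 := Nat.pow_le_choose (α := ℝ) m q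
  have h2 : (0 : ℝ) < m.factorial := by exact_mod_cast m.factorial_pos
  rw [div_le_iff₀ h2] at h1
  have h3 : (m.factorial : ℝ) ≤ (m : ℝ) ^ m := by exact_mod_cast m.factorial_le_pow
  have h4 : (q : ℝ) ≤ 2 * ((q + 1 - m : ℕ) : ℝ) := by
    exact_mod_cast (by omega : q ≤ 2 * (q + 1 - m))
  calc (q : ℝ) ^ m ≤ (2 * ((q + 1 - m : ℕ) : ℝ)) ^ m := by gcongr
    _ = 2 ^ m * ((q + 1 - m : ℕ) : ℝ) ^ m := mul_pow _ _ _
    _ ≤ 2 ^ m * (Nat.choose q m * (m : ℝ) ^ m) := by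
      gcongr
      exact h1.trans (by gcongr)
    _ = _ := by rw [mul_pow]; ring

theorem asym2 : ∃ γ₀ : ℕ, ∀ γ ≥ γ₀, ∃ e m : ℕ, 0 < e ∧ 0 < m ∧ m ≤ 2 ^ e ∧
    2 ^ (e * m) * 2 * (e * m + 4 ^ e) ≤ γ ∧
    (γ : ℝ) * exp (-5 * √(log γ * log (log γ))) ≤ Nat.choose (2 ^ e) m := by
  refine ⟨⌈exp (exp 14)⌉₊, fun γ hγ => ?_⟩
  have hγ' : exp (exp 14) ≤ (γ : ℝ) := Nat.ceil_le.1 hγ
  have hγ0 : (0 : ℝ) < γ := (exp_pos _).trans_le hγ'
  obtain ⟨L, hL⟩ : ∃ L, L = log γ := ⟨_, rfl⟩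
  have hL1 : exp 14 ≤ L := hL ▸ (le_log_iff_exp_le hγ0).2 hγ'
  have hL0 : 0 < L := (exp_pos _).trans_le hL1
  obtain ⟨l, hl⟩ : ∃ l, l = log L := ⟨_, rfl⟩
  have hl1 : 14 ≤ l := hl ▸ (le_log_iff_exp_le hL0).2 hL1
  have hlL : l ≤ L := hl ▸ (log_le_sub_one_of_pos hL0).trans (by linarith)
  rw [← hL, ← hl]
  obtain ⟨s, hs⟩ : ∃ s, s = √(L * l) := ⟨_, rfl⟩
  rw [← hs]
  have hl0 : 0 < l := by linarith
  have s2 : s ^ 2 = L * l := hs ▸ sq_sqrt (by positivity)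
  have s0 : 0 ≤ s := hs ▸ sqrt_nonneg _
  have ls : l ≤ s := by
    refine (pow_le_pow_iff_left₀ hl0.le s0 two_ne_zero).1 ?_
    nlinarith
  obtain ⟨m, hm⟩ : ∃ m, m = ⌈s / l⌉₊ := ⟨_, rfl⟩
  have m1 : s ≤ m * l := by
    rw [← div_le_iff₀ hl0, hm]
    exact Nat.le_ceil _
  have m2 : m * l ≤ 2 * s := by
    have : (m : ℝ) ≤ s / l + 1 := hm ▸ (Nat.ceil_lt_add_one (by positivity)).le
    have h2 : (s / l + 1) * l = s + l := by field_simp
    nlinarith
  have m0 : 0 < m := by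
    rcases Nat.eq_zero_or_pos m with h | h
    · simp only [h, Nat.cast_zero, zero_mul] at m1
      linarith
    · exact h
  have m0' : (0 : ℝ) < m := by exact_mod_cast m0
  have m3 : L ≤ m * s := by
    refine le_of_mul_le_mul_right ?_ hl0
    nlinarith
  have m4 : (m : ℝ) ^ 2 * l ≤ 4 * L := by
    refine le_of_mul_le_mul_right ?_ hl0
    have : (m * l) ^ 2 ≤ (2 * s) ^ 2 := by gcongr
    nlinarith
  have m5 : 4 * (m : ℝ) ≤ L := by
    refine (pow_le_pow_iff_left₀ (by positivity) hL0.le two_ne_zero).1 ?_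
    nlinarith
  have l2 : log 2 ≤ 7 / 10 := log_two_lt_d9.le.trans (by norm_num)
  obtain ⟨e, e1, e2, e3⟩ := Asym2_e (γ := γ) m0 (by
    have : ((2 ^ (5 * m ^ 2) : ℕ) : ℝ) ≤ γ := by
      rw [← log_le_log_iff (by positivity) hγ0, ← hL]
      push_cast
      rw [log_pow]
      push_cast
      nlinarith
    exact_mod_cast this)
  have q1 : 2 * m ≤ 2 ^ e := by
    obtain ⟨k, rfl⟩ := Nat.exists_eq_succ_of_ne_zero m0.ne'
    calc 2 * (k + 1) ≤ 2 * 2 ^ k := Nat.mul_le_mul_left _ Nat.lt_two_pow_self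
      _ = 2 ^ (k + 1) := by ring
      _ ≤ _ := Nat.pow_le_pow_right (by norm_num) e1
  refine ⟨e, m, by omega, m0, by omega, e2, ?_⟩
  have c1 := Asym2_choose q1
  obtain ⟨q, hq⟩ : ∃ q : ℕ, q = 2 ^ e := ⟨_, rfl⟩
  have q2 : q ^ m ≤ γ := by
    refine le_trans ?_ e2
    rw [hq, ← pow_mul, mul_assoc]
    exact Nat.le_mul_of_pos_right _ (by positivity)
  rw [← hq] at c1 e3 ⊢
  have q0 : (0 : ℝ) < q := by rw [hq]; positivity
  have q3 : (q : ℝ) ≤ exp s := by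
    rw [← log_le_iff_le_exp q0]
    refine le_of_mul_le_mul_left ?_ m0'
    rw [← log_pow]
    refine le_trans ?_ m3
    rw [hL]
    exact log_le_log (by positivity) (by exact_mod_cast q2)
  have q4 : (4 * m : ℝ) ^ m ≤ exp (2 * s) := by
    rw [← log_le_iff_le_exp (by positivity), log_pow]
    refine le_trans ?_ m2
    rw [hl]
    gcongr
  have q5 : (10 : ℝ) ≤ exp s := by linarith [add_one_le_exp s]
  have e4 : (γ : ℝ) ≤ 10 * 2 ^ m * (q : ℝ) ^ m * (q : ℝ) ^ 2 := by exact_mod_cast e3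
  have e5 : (γ : ℝ) ≤ exp (5 * s) * Nat.choose q m := by
    calc (γ : ℝ) ≤ 10 * 2 ^ m * ((2 * m) ^ m * Nat.choose q m) * (q : ℝ) ^ 2 :=
          e4.trans (by gcongr)
      _ = 10 * (4 * m) ^ m * (q : ℝ) ^ 2 * Nat.choose q m := by
          rw [show (4 * m : ℝ) = 2 * (2 * m) by ring, mul_pow 2 (2 * m : ℝ)]
          ring
      _ ≤ exp s * exp (2 * s) * exp s ^ 2 * Nat.choose q m := by gcongr
      _ = _ := by
          rw [← exp_nat_mul, ← exp_add, ← exp_add]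
          congr 2
          push_cast
          ring
  rw [neg_mul, exp_neg, ← div_eq_mul_inv, div_le_iff₀' (exp_pos _)]
  exact e5

end Pool.Agent.MP_4f0ed6_gt

end
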