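import Pool.Agent.MP_4f0ed6_gt.Defs

section

open Set Laplacian Filter Topology MeasureTheory
open scoped ContDiff Manifold

namespace Pool.Agent.MP_4f0ed6_gt

/-- A surface of genus `γ` with first eigenvalue `1` of multiplicity at least `k`. -/
def Good (γ k : ℕ) : Prop :=
  ∃ (M : Type) (_ : TopologicalSpace M) (_ : ChartedSpace ℂ M), T2Space M ∧ CompactSpace M ∧
    ConnectedSpace M ∧ IsManifold 𝓘(ℂ) ω M ∧ genus M = γ ∧
    ∃ (g : ConfMetric M) (f : Fin k → M → ℝ),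
      (∀ μ : ℝ, 0 < μ → μ < 1 → ∀ u, IsEigen g μ u → u = 0) ∧ LinearIndependent ℝ f ∧
      ∀ i, IsEigen g 1 (f i)

/-- Plane domains `W α` glued along the maps `τ κ : O κ → O (σ κ)`. -/
structure Glue (A K : Type) where
  W : A → Set ℂ
  Cp : A → Set ℂ
  ch : K → A
  σ : K → K
  O : K → Set ℂ
  τ : K → ℂ → ℂ

namespace Glue

variable {A K : Type} (G : Glue A K)

structure Ok : Prop where
  W_open : ∀ α, IsOpen (G.W α)
  O_open : ∀ κ, IsOpen (G.O κ)
  O_sub : ∀ κ, G.O κ ⊆ G.W (G.ch κ)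
  σσ : ∀ κ, G.σ (G.σ κ) = κ
  ch_ne : ∀ κ, G.ch (G.σ κ) ≠ G.ch κ
  maps : ∀ κ, ∀ z ∈ G.O κ, G.τ κ z ∈ G.O (G.σ κ)
  inv : ∀ κ, ∀ z ∈ G.O κ, G.τ (G.σ κ) (G.τ κ z) = z
  hol : ∀ κ, DifferentiableOn ℂ (G.τ κ) (G.O κ)
  disj : ∀ κ κ' z, G.ch κ = G.ch κ' → z ∈ G.O κ → z ∈ G.O κ' → κ = κ'
  closed : ∀ κ (C : Set ℂ), IsCompact C → C ⊆ G.W (G.ch (G.σ κ)) → ∀ z ∈ G.W (G.ch κ),
    z ∉ G.O κ → ∀ᶠ w in 𝓝 z, w ∈ G.O κ → G.τ κ w ∉ C
  Cp_compact : ∀ α, IsCompact (G.Cp α)
  Cp_sub : ∀ α, G.Cp α ⊆ G.W α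
  cover : ∀ α, ∀ z ∈ G.W α, z ∈ G.Cp α ∨
    ∃ κ, G.ch κ = α ∧ z ∈ G.O κ ∧ G.τ κ z ∈ G.Cp (G.ch (G.σ κ))
  W_conn : ∀ α, IsPreconnected (G.W α)
  O_ne : ∀ κ, (G.O κ).Nonempty
  ne : Nonempty A
  conn : ∀ α β, Relation.ReflTransGen (fun a b => ∃ κ, G.ch κ = a ∧ G.ch (G.σ κ) = b) α β
  core : ∀ α, ∃ z ∈ G.W α, ∀ κ, G.ch κ = α → z ∉ G.O κ

/-- `φ` is a function on the glued surface -/
def Compat (φ : A → ℂ → ℝ) : Prop :=
  ∀ κ, ∀ z ∈ G.O κ, φ (G.ch κ) z = φ (G.ch (G.σ κ)) (G.τ κ z)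

/-- each `g α` is `C^n` with compact support in `W α` -/
def CS (n : WithTop ℕ∞) (g : A → ℂ → ℝ) : Prop :=
  ∀ α, ContDiff ℝ n (g α) ∧ HasCompactSupport (g α) ∧ tsupport (g α) ⊆ G.W α

/-- holomorphic 1-forms on the glued surface -/
def forms : Submodule ℂ (A → ℂ → ℂ) where
  carrier := {f | (∀ α, DifferentiableOn ℂ (f α) (G.W α)) ∧ (∀ α, ∀ z ∉ G.W α, f α z = 0) ∧
    ∀ κ, ∀ z ∈ G.O κ, f (G.ch κ) z = f (G.ch (G.σ κ)) (G.τ κ z) * deriv (G.τ κ) z}
  add_mem' := fun ha hb => ⟨fun x => (ha.1 x).add (hb.1 x),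
    fun x z hz => by simp [ha.2.1 x z hz, hb.2.1 x z hz],
    fun x y hq => by simp [ha.2.2 x y hq, hb.2.2 x y hq, add_mul]⟩
  zero_mem' := ⟨fun _ => differentiableOn_const 0, fun _ _ _ => rfl, fun _ _ _ => by simp⟩
  smul_mem' := fun c _ ha => ⟨fun x => (ha.1 x).const_smul c,
    fun x z hz => by simp [ha.2.1 x z hz],
    fun x y hq => by simp [ha.2.2 x y hq, mul_assoc]⟩

/-- a symmetry acting by `z ↦ -z` in the charts -/
structure Sym (j : A → A) (jk : K → K) : Prop where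
  jj : ∀ α, j (j α) = α
  jkjk : ∀ κ, jk (jk κ) = κ
  ch_jk : ∀ κ, G.ch (jk κ) = j (G.ch κ)
  σ_jk : ∀ κ, G.σ (jk κ) = jk (G.σ κ)
  W_j : ∀ α z, z ∈ G.W α → -z ∈ G.W (j α)
  O_jk : ∀ κ z, z ∈ G.O κ → -z ∈ G.O (jk κ)
  τ_jk : ∀ κ, ∀ z ∈ G.O κ, G.τ (jk κ) (-z) = -G.τ κ z

variable [Fintype K]

open Classical in
/-- the sum of the functions `f α`, extended by zero, read in the chart `α` -/
noncomputable def gf (f : A → ℂ → ℝ) (α : A) (z : ℂ) : ℝ :=
  f α z + ∑ κ, if G.ch κ = α ∧ z ∈ G.O κ then f (G.ch (G.σ κ)) (G.τ κ z) else 0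

open Classical in
/-- the sum of the densities `g α`, extended by zero, read in the chart `α` -/
noncomputable def gd (g : A → ℂ → ℝ) (α : A) (z : ℂ) : ℝ :=
  g α z + ∑ κ, if G.ch κ = α ∧ z ∈ G.O κ then
    g (G.ch (G.σ κ)) (G.τ κ z) * ‖deriv (G.τ κ) z‖ ^ 2 else 0

/-- `φ` is a smooth function on the glued surface with Laplacian `2 π g` -/
structure GSol (φ g : A → ℂ → ℝ) : Prop where
  smooth : ∀ α, ContDiffOn ℝ ∞ (φ α) (G.W α)
  compat : G.Compat φ
  lap : ∀ α, ∀ z ∈ G.W α, Δ (φ α) z = 2 * Real.pi * G.gd g α z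

/-- an atlas of the glued surface -/
structure Atl where
  M : Type
  [top : TopologicalSpace M]
  e : A → OpenPartialHomeomorph M ℂ
  idx : M → A
  target : ∀ α, (e α).target = G.W α
  mem : ∀ q, q ∈ (e (idx q)).source
  surj : ∀ α, ∃ q, idx q = α
  glue : ∀ κ, ∀ z ∈ G.O κ, (e (G.ch κ)).symm z = (e (G.ch (G.σ κ))).symm (G.τ κ z)
  sep : ∀ α β, ∀ z ∈ G.W α, ∀ z' ∈ G.W β, (e α).symm z = (e β).symm z' →
    (α = β ∧ z = z') ∨ ∃ κ, G.ch κ = α ∧ G.ch (G.σ κ) = β ∧ z ∈ G.O κ ∧ z' = G.τ κ z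

variable {G}

instance Atl.instTop (X : G.Atl) : TopologicalSpace X.M := X.top

instance Atl.instCharted (X : G.Atl) : ChartedSpace ℂ X.M where
  atlas := range X.e
  chartAt q := X.e (X.idx q)
  mem_chart_source := X.mem
  chart_mem_atlas q := ⟨X.idx q, rfl⟩

omit [Fintype K] in
theorem Atl.chartAt_eq (X : G.Atl) (q : X.M) : chartAt ℂ q = X.e (X.idx q) := rfl

end Glue

/-- reflection of a family -/
def rf {A : Type} (j : A → A) (f : A → ℂ → ℝ) : A → ℂ → ℝ := fun α z => f (j α) (-z)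

end Pool.Agent.MP_4f0ed6_gt

end

section

open Set Laplacian Filter Topology MeasureTheory Metric
open scoped ContDiff

namespace Pool.Agent.MP_4f0ed6_gt

/-- logarithmic potential -/
noncomputable def NP (g : ℂ → ℝ) (w : ℂ) : ℝ := ∫ u, Real.log ‖w - u‖ * g u

/-- logarithmic potential of a source living in the chart at infinity -/
noncomputable def NQ (g : ℂ → ℝ) (w : ℂ) : ℝ := ∫ u, Real.log ‖1 - u * w‖ * g u

/-- Poisson integral -/
noncomputable def PI (R : ℝ) (h : ℂ → ℝ) (y : ℂ) : ℝ :=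
  Real.circleAverage ((Complex.re ∘ herglotzRieszKernel 0 y) • h) 0 R

/-- the odd kernel -/
noncomputable def kk (w c : ℂ) : ℝ := Real.log ‖w - c‖ - Real.log ‖w + c‖

/-- rescaled density -/
noncomputable def scl (ρ : ℝ) (g : ℂ → ℝ) (u : ℂ) : ℝ := (ρ ^ 2)⁻¹ * g (u / ρ)

/-- `g` is continuous, lives in the disc of radius 2, and its potentials are bounded by `Λ` -/
structure PB (g : ℂ → ℝ) (Λ : ℝ) : Prop where
  cont : Continuous g
  supp : ∀ u, g u ≠ 0 → ‖u‖ < 2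
  mass : ∫ u, |g u| ≤ Λ
  np : ∀ w : ℂ, ‖w‖ ≤ 2 → ∫ u, |Real.log ‖w - u‖| * |g u| ≤ Λ
  nq : ∀ w : ℂ, ‖w‖ ≤ 2 → ∫ u, |Real.log ‖1 - u * w‖| * |g u| ≤ Λ

/-- spheres `v : V` with ports `π : P` at `c π` on the sphere `pc π`; the ports `π` and `σ π`
are joined by a tube of length `L π` -/
structure Plumb (V P : Type) where
  pc : P → V
  σ : P → P
  c : P → ℂ
  L : P → ℝ
  sep : ℝ

/-- input of the field formulas -/
structure Inp (V P : Type) where
  u : V → ℝ
  b : P → ℝ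
  h : P → ℂ → ℝ
  g : V × Bool → ℂ → ℝ

/-- difference of inputs -/
def Inp.sub {V P : Type} (Y Z : Inp V P) : Inp V P where
  u v := Y.u v - Z.u v
  b π := Y.b π - Z.b π
  h π x := Y.h π x - Z.h π x
  g α z := Y.g α z - Z.g α z

/-- a family on the spheres, placed in the finite charts -/
def fin {V : Type} (f : V → ℂ → ℝ) : V × Bool → ℂ → ℝ
  | (v, false) => f v
  | (_, true) => fun _ => 0

/-- the source `-s ν φ + t β` -/
def src {V : Type} (s : ℝ) (ν : V × Bool → ℂ → ℝ) (β : V → ℂ → ℝ) (t : V → ℝ)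
    (φ : V × Bool → ℂ → ℝ) : V × Bool → ℂ → ℝ :=
  fun α z => -s * ν α z * φ α z + t α.1 * fin β α z

/-- total mass density: main part `μ` and tiny part `νt` -/
def tot {V : Type} (μ : V → ℂ → ℝ) (νt : V × Bool → ℂ → ℝ) : V × Bool → ℂ → ℝ :=
  fun α z => fin μ α z + νt α z

/-- average of `φ` on the sphere `v` -/
noncomputable def av {V : Type} (β : V → ℂ → ℝ) (φ : V × Bool → ℂ → ℝ) (v : V) : ℝ :=
  ∫ w, β v w * φ (v, false) w

namespace Plumb

variable {V P : Type} (Q : Plumb V P)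

/-- radius of the neck -/
noncomputable def r (π : P) : ℝ := Real.exp (-Q.L π / 2)

/-- gluing constant -/
noncomputable def ε (π : P) : ℂ := ((Q.r π ^ 2 : ℝ) : ℂ)

def core (v : V) : Set ℂ := {w | ‖w‖ ≤ 1 / 4 ∧ ∀ π, Q.pc π = v → Q.sep ≤ ‖w - Q.c π‖}

def bulk (v : V) : Set ℂ := {w | ‖w‖ ≤ 1 / 2 ∧ ∀ π, Q.pc π = v → Q.sep / 2 ≤ ‖w - Q.c π‖}

def W : V × Bool → Set ℂ
  | (v, false) => {w | ‖w‖ < 2 ∧ ∀ π, Q.pc π = v → Q.r π / 2 < ‖w - Q.c π‖}
  | (_, true) => {w | ‖w‖ < 2}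

def Cp : V × Bool → Set ℂ
  | (v, false) => {w | ‖w‖ ≤ 1 ∧ ∀ π, Q.pc π = v → Q.r π ≤ ‖w - Q.c π‖}
  | (_, true) => {w | ‖w‖ ≤ 1}

/-- the charts: `(v, false)` is the finite chart, `(v, true)` the chart at infinity -/
noncomputable def glue : Glue (V × Bool) (P ⊕ V × Bool) where
  W := Q.W
  Cp := Q.Cp
  ch := Sum.elim (fun π => (Q.pc π, false)) id
  σ := Sum.map Q.σ fun α => (α.1, !α.2)
  O := Sum.elim (fun π => {w | Q.r π / 2 < ‖w - Q.c π‖ ∧ ‖w - Q.c π‖ < 2 * Q.r π})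
    fun _ => {w | 1 / 2 < ‖w‖ ∧ ‖w‖ < 2}
  τ := Sum.elim (fun π w => Q.c (Q.σ π) + Q.ε π / (w - Q.c π)) fun _ w => w⁻¹

/-- residue of a form at a port -/
noncomputable def res (f : V × Bool → ℂ → ℂ) (π : P) : ℂ :=
  (2 * Real.pi * Complex.I)⁻¹ * ∮ z in C(Q.c π, Q.r π), f (Q.pc π, false) z

/-- a symmetry acting by `w ↦ -w` on the spheres -/
structure Sym (ι : V → V) (ιP : P → P) : Prop where
  ιι : ∀ v, ι (ι v) = v
  ιPιP : ∀ π, ιP (ιP π) = π
  pc_ι : ∀ π, Q.pc (ιP π) = ι (Q.pc π)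
  σ_ι : ∀ π, Q.σ (ιP π) = ιP (Q.σ π)
  c_ι : ∀ π, Q.c (ιP π) = -Q.c π
  L_ι : ∀ π, Q.L (ιP π) = Q.L π

variable [Fintype P]

/-- number of ports plus one -/
def n (_ : Plumb V P) : ℝ := Fintype.card P + 1

open Classical in
/-- the ports on the sphere `v` -/
noncomputable def pts (v : V) : Finset P := Finset.univ.filter fun π => Q.pc π = v

structure Ok : Prop where
  σσ : ∀ π, Q.σ (Q.σ π) = π
  pc_ne : ∀ π, Q.pc (Q.σ π) ≠ Q.pc π
  L_σ : ∀ π, Q.L (Q.σ π) = Q.L π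
  L_pos : ∀ π, 0 < Q.L π
  c_le : ∀ π, ‖Q.c π‖ ≤ 1 / 4
  sep_pos : 0 < Q.sep
  sep_le : Q.sep ≤ 1 / 4
  c_sep : ∀ π π', π ≠ π' → Q.pc π = Q.pc π' → Q.sep ≤ ‖Q.c π - Q.c π'‖
  r_le : ∀ π, 16 * Q.n * Q.r π ≤ Q.sep
  ne : Nonempty V
  conn : ∀ v v', Relation.ReflTransGen (fun a b => ∃ π, Q.pc π = a ∧ Q.pc (Q.σ π) = b) v v'

/-- the cycle space of the plumbing graph -/
def cyc : Submodule ℂ (P → ℂ) where
  carrier := {b | (∀ π, b (Q.σ π) = -b π) ∧ ∀ v, ∑ π ∈ Q.pts v, b π = 0}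
  add_mem' := fun ha hb => ⟨fun π => by simp [ha.1 π, hb.1 π, add_comm],
    fun v => by simp [Finset.sum_add_distrib, ha.2 v, hb.2 v]⟩
  zero_mem' := ⟨by simp, by simp⟩
  smul_mem' := fun c _ ha => ⟨fun π => by simp [ha.1 π],
    fun v => by simp [← Finset.mul_sum, ha.2 v]⟩

/-- the probability densities `β v` -/
structure Bump (β : V → ℂ → ℝ) (Λ : ℝ) : Prop where
  smooth : ∀ v, ContDiff ℝ ∞ (β v)
  nonneg : ∀ v w, 0 ≤ β v w
  int : ∀ v, ∫ w, β v w = 1
  supp : ∀ v w, β v w ≠ 0 → w ∈ Q.core v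
  pb : ∀ v, PB (β v) Λ
  one_le : 1 ≤ Λ
  log_le : |Real.log Q.sep| ≤ Λ

section fields

variable (β : V → ℂ → ℝ) (Y : Inp V P)

noncomputable def tt (v : V) : ℝ :=
  -(∑ π ∈ Q.pts v, Y.b π) - (∫ z, Y.g (v, false) z) - ∫ z, Y.g (v, true) z

noncomputable def gs (α : V × Bool) (z : ℂ) : ℝ := Y.g α z + Q.tt Y α.1 * fin β α z

noncomputable def Pot (α : V × Bool) (w : ℂ) : ℝ :=
  NP (Q.gs β Y α) w + NQ (Q.gs β Y (α.1, !α.2)) w

noncomputable def farY (π : P) (y : ℂ) : ℝ :=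
  PI (Q.r π / 2) (Y.h (Q.σ π)) y - PI (Q.r π / 2) (Y.h (Q.σ π)) 0

noncomputable def term (π : P) (w : ℂ) : ℝ :=
  Y.b π * Real.log ‖w - Q.c π‖ + Q.farY Y π (Q.ε π / (w - Q.c π))

noncomputable def Phi (v : V) (w : ℂ) : ℝ :=
  Q.Pot β Y (v, false) w + ∑ π ∈ Q.pts v, Q.term Y π w

noncomputable def CC (v : V) : ℝ := Y.u v - ∫ w, β v w * Q.Phi β Y v w

open Classical in
noncomputable def R0 (π : P) (x : ℂ) : ℝ :=
  Q.Pot β Y (Q.pc π, false) (Q.c π + x) +
    ∑ π' ∈ (Q.pts (Q.pc π)).erase π, Q.term Y π' (Q.c π + x)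

noncomputable def RR (π : P) : ℝ := Q.CC β Y (Q.pc π) + Q.R0 β Y π 0

noncomputable def phi : V × Bool → ℂ → ℝ
  | (v, false) => fun w => Q.CC β Y v + Q.Pot β Y (v, false) w + ∑ π ∈ Q.pts v,
      (Y.b π * Real.log ‖w - Q.c π‖ + Q.R0 β Y (Q.σ π) (Q.ε π / (w - Q.c π)) -
        Q.R0 β Y (Q.σ π) 0)
  | (v, true) => fun w => Q.CC β Y v + Q.Pot β Y (v, true) w + ∑ π ∈ Q.pts v,
      (Y.b π * Real.log ‖1 - Q.c π * w‖ + Q.farY Y π (Q.ε π * w / (1 - Q.c π * w)))

/-- regularity of an input -/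
def Reg (k : WithTop ℕ∞) : Prop := (∀ π, Continuous (Y.h π)) ∧ Q.glue.CS k Y.g

/-- the fixed point equations -/
structure IsFix (s : ℝ) (ν ext : V × Bool → ℂ → ℝ) : Prop where
  reg : Q.Reg Y 0
  tube : ∀ π, Q.L π * Y.b π = Q.RR β Y π - Q.RR β Y (Q.σ π)
  circ : ∀ π (x : ℂ), ‖x‖ = Q.r π / 2 → Y.h π x = Q.R0 β Y π x
  sour : ∀ α z, Y.g α z = -s * ν α z * Q.phi β Y α z + ext α z

end fields

/-- smallness assumptions -/
structure Hyp (β μ : V → ℂ → ℝ) (νt : V × Bool → ℂ → ℝ) (Λ δ τ a om κ : ℝ) : Prop where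
  ok : Q.Ok
  bump : Q.Bump β Λ
  μ_smooth : ∀ v, ContDiff ℝ ∞ (μ v)
  μ_supp : ∀ v w, μ v w ≠ 0 → w ∈ Q.core v
  μ_pb : ∀ v, PB (μ v) δ
  νt_cs : Q.glue.CS ∞ νt
  νt_pb : ∀ α, PB (νt α) τ
  a_nonneg : 0 ≤ a
  a_ge : ∀ π, 1 ≤ a * Q.L π
  om_nonneg : 0 ≤ om
  om_ge : ∀ π, Q.r π ≤ om * Q.sep
  small : 1000 * Q.n ^ 2 * (Λ * (δ + τ) + Λ * a + om) ≤ 1
  κ_ge : 300 * Q.n ^ 2 * (τ + om) ≤ κ

/-- what the estimates need to know about a solution -/
structure Rep (β μ : V → ℂ → ℝ) (s κ N : ℝ) (u : V → ℝ) where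
  b : P → ℝ
  R : P → ℝ
  t : V → ℝ
  C : V → ℝ
  e : V → ℝ
  φ : V → ℂ → ℝ
  cont : ∀ v, Continuous (φ v)
  φ_le : ∀ v w, |φ v w| ≤ 16 * Q.n * N
  tube : ∀ π, Q.L π * b π = R π - R (Q.σ π)
  b_le : ∀ π, Q.L π * |b π| ≤ 4 * N
  norm : ∀ v, ∫ w, β v w * φ v w = u v
  t_eq : ∀ v, t v = -(∑ π ∈ Q.pts v, b π) + s * ((∫ w, μ v w * φ v w) + e v)
  e_le : ∀ v, |e v| ≤ κ * N
  rep : ∀ v, ∀ w ∈ Q.bulk v, |φ v w - (C v + ∑ π ∈ Q.pts v, b π * Real.log ‖w - Q.c π‖ +
    NP (fun z => -s * μ v z * φ v z + t v * β v z) w)| ≤ κ * N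
  repR : ∀ π, |R π - (C (Q.pc π) + ∑ π' ∈ Q.pts (Q.pc π), b π' * Real.log ‖Q.c π - Q.c π'‖ +
    NP (fun z => -s * μ (Q.pc π) z * φ (Q.pc π) z + t (Q.pc π) * β (Q.pc π) z) (Q.c π))| ≤ κ * N

/-- assumptions for the estimates on `Rep` -/
structure Est (β μ : V → ℂ → ℝ) (Λ : ℝ) (m : V → ℝ) : Prop where
  ok : Q.Ok
  bump : Q.Bump β Λ
  μ_supp : ∀ v w, μ v w ≠ 0 → w ∈ Q.core v
  mass : ∀ v, ∫ w, |μ v w| ≤ m v
  μ_pb : ∀ v, PB (μ v) (Λ * m v)
  small : ∀ v, 8 * Λ * m v ≤ 1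

end Plumb

end Pool.Agent.MP_4f0ed6_gt

end

section

open Set Laplacian Filter Topology MeasureTheory Metric
open scoped ContDiff

namespace Pool.Agent.MP_4f0ed6_gt

/-- sign -/
def sg : Bool → ℝ
  | true => 1
  | false => -1

/-- the involution on the points -/
def flp {D : Type} (v : D × Bool) : D × Bool := (v.1, !v.2)

/-- the involution on the spheres; `none` is the big sphere -/
def iV {D : Type} : Option (D × Bool) → Option (D × Bool) := Option.map flp

/-- the involution on the charts -/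
def iA {D : Type} (α : Option (D × Bool) × Bool) : Option (D × Bool) × Bool := (iV α.1, α.2)

open Classical in
/-- odd basis vector -/
noncomputable def ed {D : Type} (d : D) : Option (D × Bool) → ℝ
  | none => 0
  | some v => if v.1 = d then sg v.2 else 0

/-- parameter cube -/
def cube (D : Type) : Set (D × D → ℝ) := {p | ∀ i, |p i| ≤ 1}

/-- graph Laplacian of a family of permutations -/
noncomputable def Lap {T X : Type} [Fintype T] (Pm : T → Equiv.Perm X) (u : X → ℝ) (v : X) : ℝ :=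
  ∑ t, (2 * u v - u (Pm t v) - u ((Pm t).symm v))

/-- all the facts needed for the final spectral argument -/
structure Sys (D P : Type) [Fintype D] [Fintype P] where
  Q : Plumb (Option (D × Bool)) P
  β : Option (D × Bool) → ℂ → ℝ
  μ : (D × D → ℝ) → Option (D × Bool) → ℂ → ℝ
  νt : Option (D × Bool) × Bool → ℂ → ℝ
  ιP : P → P
  Λ : ℝ
  δ : ℝ
  τ : ℝ
  a : ℝ
  om : ℝ
  κ : ℝ
  c0 : ℝ
  Cl : ℝ
  M0 : D → D → ℝ
  tau : D → D → ℝ
  J : D → D → Prop
  hyp : ∀ p ∈ cube D, Q.Hyp β (μ p) νt Λ δ τ a om κ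
  sym : Q.Sym iV ιP
  β_sym : ∀ v w, β (iV v) (-w) = β v w
  μ_sym : ∀ p ∈ cube D, ∀ v w, μ p (iV v) (-w) = μ p v w
  νt_sym : ∀ α w, νt (iA α) (-w) = νt α w
  μ_nonneg : ∀ p ∈ cube D, ∀ v w, 0 ≤ μ p v w
  νt_pos : ∀ α, ∀ z ∈ Q.glue.W α, 0 < Q.glue.gd νt α z
  lip : ∀ p ∈ cube D, ∀ p' ∈ cube D, ∀ v, ∫ w, |μ p v w - μ p' v w| ≤ Cl * ‖p - p'‖
  M0_symm : ∀ d d', M0 d d' = M0 d' d
  M0_psd : ∀ f : D → ℝ, 0 ≤ ∑ d, ∑ d', f d * M0 d d' * f d'
  J_total : ∀ d d', J d d' ∨ J d' d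
  tau_pos : ∀ d d', 0 < tau d d'
  expn : ∀ p ∈ cube D, ∀ d d', J d d' → ∀ ρ : Q.Rep β (μ p) 1 κ 1 (ed d'),
    |(ρ.t (some (d, true)) - ρ.t (some (d, false))) / 2 + M0 d d' - tau d d' * p (d, d')| ≤
      tau d d'
  even : ∀ p ∈ cube D, ∀ s : ℝ, 0 < s → s ≤ 1 → ∀ u N, (∀ v, u (iV v) = u v) →
    (∀ v, |u v| ≤ N) → (∃ v, |u v| = N) → ∀ ρ : Q.Rep β (μ p) s κ N u, (∀ v, ρ.t v = 0) → N = 0
  pos : ∀ p ∈ cube D, ∀ s s' : ℝ, s ∈ Icc (0 : ℝ) 1 → s' ∈ Icc (0 : ℝ) 1 → ∀ u N, u none = 0 →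
    (∀ v, |u v| ≤ N) → (∃ v, |u v| = N) → ∀ (ρ : Q.Rep β (μ p) s κ N u)
    (ρ' : Q.Rep β (μ p) s' κ N u), c0 * N ^ 2 ≤ ∑ v, ∫ w, μ p v w * (ρ.φ v w * ρ'.φ v w)
  c0_gt : 2 * Fintype.card (Option (D × Bool)) * τ * (16 * Q.n) ^ 2 < c0

/-- the graph part of the data -/
structure GraphOk {D T : Type} [Fintype D] [Fintype T] (Pm : T → Equiv.Perm (D × Bool))
    (θ : ℝ) : Prop where
  θ_nonneg : 0 ≤ θ
  ne : ∀ t v, Pm t v ≠ v
  comm : ∀ t v, Pm t (flp v) = flp (Pm t v)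
  odd : ∀ u : D × Bool → ℝ, (∀ v, u (flp v) = -u v) → θ * ∑ v, u v ^ 2 ≤ ∑ v, u v * Lap Pm u v
  even : ∀ u : D × Bool → ℝ, (∀ v, u (flp v) = u v) →
    (θ + 1) * (∑ v, u v ^ 2 - (∑ v, u v) ^ 2 / Fintype.card (D × Bool)) ≤ ∑ v, u v * Lap Pm u v

/-- the control densities -/
structure CtlOk {D : Type} [Fintype D] (x : D → ℝ) (nu : (D × D → ℝ) → ℂ → ℝ) (A : ℝ) : Prop where
  one_le : 1 ≤ A
  smooth : ∀ p, ContDiff ℝ ∞ (nu p)
  even : ∀ p u, nu p (-u) = nu p u
  supp : ∀ p u, nu p u ≠ 0 → 3 / 4 ≤ |u.re| ∧ 3 / 4 ≤ |u.im| ∧ 1 ≤ ‖u‖ ∧ ‖u‖ ≤ 2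
  nonneg : ∀ p ∈ cube D, ∀ u, 0 ≤ nu p u
  le : ∀ p ∈ cube D, ∀ u, nu p u ≤ A
  mass : ∀ p ∈ cube D, 1 ≤ ∫ u, nu p u
  lip : ∀ p p' u, |nu p u - nu p' u| ≤ A * ‖p - p'‖
  dual : ∀ p a b, ∫ u, kk (x a) u * kk u (x b * Complex.I) * nu p u = 2 * p (a, b)

/-- the standard bump -/
structure BumpOk (β1 : ℂ → ℝ) (A : ℝ) : Prop where
  smooth : ContDiff ℝ ∞ β1
  even : ∀ u, β1 (-u) = β1 u
  supp : ∀ u, β1 u ≠ 0 → ‖u‖ ≤ 1 / 2
  nonneg : ∀ u, 0 ≤ β1 u
  le : ∀ u, β1 u ≤ A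
  int : ∫ u, β1 u = 1

/-- the classes -/
abbrev DD (h : ℕ) : Type := Fin h → Bool

/-- the ports: legs, main tubes, extra tubes -/
abbrev PP (h nT nx : ℕ) : Type :=
  ((DD h × Bool) × Fin h × Bool) ⊕ ((DD h × Bool) × Fin nT × Bool) ⊕ (Fin nx × Bool)

/-- port types on a small sphere -/
abbrev PT (h nT nx : ℕ) : Type := Fin h ⊕ (Fin nT × Bool) ⊕ Fin nx

/-- the first `j` bits -/
def pre {h : ℕ} (j : Fin h) (d : DD h) : DD h := fun i => if i < j then d i else false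

/-- the pair `(d, d')` is separated at level `j` -/
def Ori {h : ℕ} (j : Fin h) (d d' : DD h) : Prop :=
  pre j d = pre j d' ∧ d j = false ∧ d' j = true

/-- the fixed data -/
structure Fx (h nT nx : ℕ) where
  Pm : Fin nT → Equiv.Perm (DD h × Bool)
  θ : ℝ
  x : DD h → ℝ
  z : PT h nT nx → ℝ
  g0 : ℝ
  ix : Fin h × DD h → ℕ
  ns : ℕ
  β1 : ℂ → ℝ
  nu : (DD h × DD h → ℝ) → ℂ → ℝ
  A : ℝ

namespace Fx

variable {h nT nx : ℕ} (S : Fx h nT nx)

structure Ok : Prop where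
  h_pos : 0 < h
  graph : GraphOk S.Pm S.θ
  ctl : CtlOk S.x S.nu S.A
  bump : BumpOk S.β1 S.A
  g0_pos : 0 < S.g0
  g0_le : S.g0 ≤ 1
  x_mem : ∀ d, S.x d ∈ Icc (1 : ℝ) 2
  x_gap : ∀ d d', d ≠ d' → S.g0 ≤ |S.x d - S.x d'|
  z_mem : ∀ i, S.z i ∈ Icc (1 : ℝ) 2
  z_gap : ∀ i i', i ≠ i' → S.g0 ≤ |S.z i - S.z i'|
  ix_inj : Function.Injective S.ix
  ix_lt : ∀ i, S.ix i < S.ns

/-- scale of the shell number `k` -/
noncomputable def rho (_ : Fx h nT nx) (η : ℝ) (k : ℕ) : ℝ := η ^ (6 * h * k) / 8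

/-- largest conductance -/
noncomputable def aa (_ : Fx h nT nx) (η : ℝ) : ℝ := η ^ (6 * h + 4)

/-- conductance of the legs of level `j` -/
noncomputable def aj (η : ℝ) (j : Fin h) : ℝ := η ^ (3 * (h - 1 - j)) * S.aa η

/-- conductance of the main tubes -/
noncomputable def am (_ : Fx h nT nx) (η : ℝ) : ℝ := η ^ (12 * h + 5)

/-- size of the diagonal control -/
noncomputable def ad (_ : Fx h nT nx) (η : ℝ) : ℝ := η ^ (12 * h + 6)

/-- normalised position of the class `d` in its shell of level `j` -/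
noncomputable def yy (j : Fin h) (d : DD h) : ℂ := S.x d * if d j = true then Complex.I else 1

/-- position of the class `d` in its shell of level `j` -/
noncomputable def cY (η : ℝ) (j : Fin h) (d : DD h) : ℂ :=
  S.rho η (S.ix (j, pre j d)) * S.yy j d

def pc (_ : Fx h nT nx) : PP h nT nx → Option (DD h × Bool)
  | .inl (v, _, false) => some v
  | .inl (_, _, true) => none
  | .inr (.inl (v, _, _)) => some v
  | .inr (.inr (_, ε)) => some (fun _ => false, ε)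

def σ : PP h nT nx → PP h nT nx
  | .inl (v, j, i) => .inl (v, j, !i)
  | .inr (.inl (v, t, false)) => .inr (.inl (S.Pm t v, t, true))
  | .inr (.inl (v, t, true)) => .inr (.inl ((S.Pm t).symm v, t, false))
  | .inr (.inr (e, ε)) => .inr (.inr (e, !ε))

noncomputable def c (η : ℝ) : PP h nT nx → ℂ
  | .inl (v, j, false) => (sg v.2 * S.z (.inl j) / 8 : ℝ)
  | .inl (v, j, true) => sg v.2 * S.cY η j v.1
  | .inr (.inl (v, t, i)) => (sg v.2 * S.z (.inr (.inl (t, i))) / 8 : ℝ)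
  | .inr (.inr (e, ε)) => (sg ε * S.z (.inr (.inr e)) / 8 : ℝ)

/-- conductance of a tube -/
noncomputable def cond (η : ℝ) : PP h nT nx → ℝ
  | .inl (_, j, _) => S.aj η j
  | .inr (.inl _) => S.am η
  | .inr (.inr _) => S.aa η ^ 3

def ιP (_ : Fx h nT nx) : PP h nT nx → PP h nT nx
  | .inl (v, q) => .inl (flp v, q)
  | .inr (.inl (v, q)) => .inr (.inl (flp v, q))
  | .inr (.inr (e, ε)) => .inr (.inr (e, !ε))

noncomputable def Q (η : ℝ) : Plumb (Option (DD h × Bool)) (PP h nT nx) where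
  pc := S.pc
  σ := S.σ
  c := S.c η
  L π := (S.cond η π)⁻¹
  sep := S.g0 * S.rho η S.ns / 4

noncomputable def β (η : ℝ) : Option (DD h × Bool) → ℂ → ℝ
  | none => scl (S.rho η S.ns) S.β1
  | some _ => scl (1 / 8) S.β1

/-- mass of a small sphere -/
noncomputable def m (η : ℝ) (p : DD h × DD h → ℝ) (d : DD h) : ℝ :=
  ∑ j, S.aj η j + S.θ * S.am η + S.ad η * p (d, d)

noncomputable def μ (η : ℝ) (p : DD h × DD h → ℝ) : Option (DD h × Bool) → ℂ → ℝ
  | none => fun w => η ^ 4 * ∑ i : Fin h × DD h, scl (S.rho η (S.ix i)) (S.nu p) w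
  | some v => fun w => S.m η p v.1 * scl (1 / 8) S.β1 w

/-- bound for the masses -/
noncomputable def mm (η : ℝ) : Option (DD h × Bool) → ℝ
  | none => 13 * Fintype.card (Fin h × DD h) * S.A * η ^ 4
  | some _ => (h + 1) * S.aa η

open Classical in
/-- the target matrix -/
noncomputable def M1 (d d' : DD h) : ℝ :=
  Lap S.Pm (fun v => ed d' (some v)) (d, true) - if d = d' then S.θ else 0

/-- the solutions with parameter `η` -/
abbrev Rp (η : ℝ) (p : DD h × DD h → ℝ) (s N : ℝ) (u : Option (DD h × Bool) → ℝ) : Type :=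
  (S.Q η).Rep (S.β η) (S.μ η p) s (S.aa η ^ 3) N u

end Fx

end Pool.Agent.MP_4f0ed6_gt

end

section

open Set Laplacian Filter Topology MeasureTheory Metric InnerProductSpace
open scoped ContDiff

namespace Pool.Agent.MP_4f0ed6_gt

theorem lap_add {f g : ℂ → ℝ} {z : ℂ} (hf : ContDiffAt ℝ 2 f z) (hg : ContDiffAt ℝ 2 g z) :
    Δ (fun w => f w + g w) z = Δ f z + Δ g z :=
  hf.laplacian_add hg

theorem lap_sub {f g : ℂ → ℝ} {z : ℂ} (hf : ContDiffAt ℝ 2 f z) (hg : ContDiffAt ℝ 2 g z) :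
    Δ (fun w => f w - g w) z = Δ f z - Δ g z :=
  hf.laplacian_sub hg

theorem lap_const_mul {f : ℂ → ℝ} {z : ℂ} (c : ℝ) (hf : ContDiffAt ℝ 2 f z) :
    Δ (fun w => c * f w) z = c * Δ f z :=
  laplacian_smul c hf

theorem Calc_const (c : ℝ) (z : ℂ) : Δ (fun _ : ℂ => c) z = 0 := by
  rw [laplacian_const]
  rfl

theorem lap_sum {ι : Type} (s : Finset ι) (f : ι → ℂ → ℝ) {z : ℂ}
    (hf : ∀ i ∈ s, ContDiffAt ℝ 2 (f i) z) :
    Δ (fun w => ∑ i ∈ s, f i w) z = ∑ i ∈ s, Δ (f i) z := by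
  classical
  induction s using Finset.induction_on with
  | empty => simp only [Finset.sum_empty]; exact Calc_const 0 z
  | insert a s ha ih =>
    simp only [Finset.sum_insert ha]
    have h1 : ContDiffAt ℝ 2 (f a) z := hf a (Finset.mem_insert_self a s)
    have h2 : ∀ i ∈ s, ContDiffAt ℝ 2 (f i) z := fun i hi => hf i (Finset.mem_insert_of_mem hi)
    rw [lap_add h1 (ContDiffAt.sum h2), ih h2]

theorem lap_congr {f g : ℂ → ℝ} {z : ℂ} (h : f =ᶠ[𝓝 z] g) : Δ f z = Δ g z :=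
  (laplacian_congr_nhds h).eq_of_nhds

theorem lap_const (c : ℝ) (z : ℂ) : Δ (fun _ : ℂ => c) z = 0 :=
  Calc_const c z

theorem log_norm_smooth {g : ℂ → ℂ} {z : ℂ} (hg : AnalyticAt ℂ g z) (h0 : g z ≠ 0) :
    ContDiffAt ℝ ∞ (fun w => Real.log ‖g w‖) z := by
  have h1 : ContDiffAt ℝ ∞ g z := (hg.restrictScalars (𝕜 := ℝ)).contDiffAt
  exact (h1.norm ℝ h0).log (norm_ne_zero_iff.mpr h0)

theorem log_norm_lap {g : ℂ → ℂ} {z : ℂ} (hg : AnalyticAt ℂ g z) (h0 : g z ≠ 0) :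
    Δ (fun w => Real.log ‖g w‖) z = 0 :=
  (hg.harmonicAt_log_norm h0).2.eq_of_nhds

theorem analytic_real_smooth {g : ℂ → ℂ} {z : ℂ} (hg : AnalyticAt ℂ g z) (k : WithTop ℕ∞) :
    ContDiffAt ℝ k g z :=
  (hg.restrictScalars (𝕜 := ℝ)).contDiffAt

theorem lap_smoothAt {f : ℂ → ℝ} {z : ℂ} (hf : ContDiffAt ℝ ∞ f z) :
    ContDiffAt ℝ ∞ (Δ f) z := by
  rw [laplacian_eq_iteratedFDeriv_complexPlane]
  have h1 : ContDiffAt ℝ ∞ (iteratedFDeriv ℝ 2 f) z :=
    hf.iteratedFDeriv_right (i := 2) (le_of_eq rfl)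
  have h2 : ∀ m : Fin 2 → ℂ, ContDiffAt ℝ ∞ (fun x => iteratedFDeriv ℝ 2 f x m) z := fun m =>
    ((ContinuousMultilinearMap.apply ℝ (fun _ : Fin 2 => ℂ) ℝ m).contDiff.contDiffAt).comp z h1
  exact (h2 _).add (h2 _)

theorem tsupport_lap (f : ℂ → ℝ) : tsupport (Δ f) ⊆ tsupport f := by
  intro z hz
  by_contra hn
  rw [notMem_tsupport_iff_eventuallyEq] at hn
  have h1 : Δ f =ᶠ[𝓝 z] Δ (fun _ : ℂ => (0 : ℝ)) := laplacian_congr_nhds hn
  rw [laplacian_const] at h1
  exact (notMem_tsupport_iff_eventuallyEq.mpr h1) hz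

theorem harmonicAt_of_lap {f : ℂ → ℝ} {U : Set ℂ} (hU : IsOpen U) (hf : ContDiffOn ℝ 2 f U)
    (h0 : ∀ z ∈ U, Δ f z = 0) {z : ℂ} (hz : z ∈ U) : HarmonicAt f z := by
  refine ⟨hf.contDiffAt (hU.mem_nhds hz), ?_⟩
  filter_upwards [hU.mem_nhds hz] with w hw
  exact h0 w hw

theorem exists_cutoff {C U : Set ℂ} (hC : IsCompact C) (hU : IsOpen U) (h : C ⊆ U) :
    ∃ ξ : ℂ → ℝ, ContDiff ℝ ∞ ξ ∧ HasCompactSupport ξ ∧ tsupport ξ ⊆ U ∧
      (∀ z, 0 ≤ ξ z ∧ ξ z ≤ 1) ∧ ∀ z ∈ C, ξ z = 1 := by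
  obtain ⟨L, hL, hCL, hLU⟩ := exists_compact_between hC hU h
  obtain ⟨f, h1, h0, h01⟩ := exists_contMDiffMap_one_nhds_of_subset_interior
    (modelWithCornersSelf ℝ ℂ) (n := ⊤) hC.isClosed hCL
  have hs : tsupport (f : ℂ → ℝ) ⊆ L := by
    refine closure_minimal ?_ hL.isClosed
    intro x hx
    by_contra hn
    exact hx (h0 x hn)
  refine ⟨f, contMDiff_iff_contDiff.mp f.contMDiff, hL.of_isClosed_subset (isClosed_tsupport _) hs,
    hs.trans hLU, fun z => h01 z, fun z hz => h1.self_of_nhdsSet z hz⟩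

theorem contDiff_mul_of_supp {k : WithTop ℕ∞} {ξ f : ℂ → ℝ} {U : Set ℂ} (hU : IsOpen U)
    (hξ : ContDiff ℝ k ξ) (hs : tsupport ξ ⊆ U) (hf : ContDiffOn ℝ k f U) :
    ContDiff ℝ k (fun z => ξ z * f z) := by
  rw [contDiff_iff_contDiffAt]
  intro z
  by_cases hz : z ∈ tsupport ξ
  · exact hξ.contDiffAt.mul (hf.contDiffAt (hU.mem_nhds (hs hz)))
  · rw [notMem_tsupport_iff_eventuallyEq] at hz
    refine (contDiffAt_const (c := (0 : ℝ))).congr_of_eventuallyEq ?_
    filter_upwards [hz] with w hw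
    simp [hw]

theorem continuous_mul_of_supp {ξ f : ℂ → ℝ} {U : Set ℂ} (hU : IsOpen U)
    (hξ : Continuous ξ) (hs : tsupport ξ ⊆ U) (hf : ContinuousOn f U) :
    Continuous (fun z => ξ z * f z) := by
  rw [continuous_iff_continuousAt]
  intro z
  by_cases hz : z ∈ tsupport ξ
  · exact hξ.continuousAt.mul (hf.continuousAt (hU.mem_nhds (hs hz)))
  · rw [notMem_tsupport_iff_eventuallyEq] at hz
    refine (continuousAt_const (y := (0 : ℝ))).congr_of_eventuallyEq ?_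
    filter_upwards [hz] with w hw
    simp [hw]

end Pool.Agent.MP_4f0ed6_gt

end

section

open Set Laplacian Filter Topology MeasureTheory Metric InnerProductSpace
open scoped ContDiff

namespace Pool.Agent.MP_4f0ed6_gt

theorem Conf_bilin (B : ℂ →L[ℝ] ℂ →L[ℝ] ℝ) (a : ℂ) :
    B a a + B (a * Complex.I) (a * Complex.I) = ‖a‖ ^ 2 * (B 1 1 + B Complex.I Complex.I) := by
  have h1 : a = a.re • (1 : ℂ) + a.im • Complex.I := by
    apply Complex.ext <;> simp
  have h2 : a * Complex.I = (-a.im) • (1 : ℂ) + a.re • Complex.I := by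
    apply Complex.ext <;> simp
  have h3 : ‖a‖ ^ 2 = a.re ^ 2 + a.im ^ 2 := by
    rw [Complex.sq_norm, Complex.normSq_apply]; ring
  rw [h2, h3]
  have h4 : B a a = B (a.re • (1 : ℂ) + a.im • Complex.I) (a.re • (1 : ℂ) + a.im • Complex.I) := by
    rw [← h1]
  rw [h4]
  simp only [map_add, map_smul, add_apply, smul_apply,
    smul_eq_mul]
  ring

theorem Conf_hasFDerivAt {g : ℂ → ℂ} {w a : ℂ} (h : HasDerivAt g a w) :
    HasFDerivAt g (ContinuousLinearMap.mul ℝ ℂ a) w := by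
  have h1 := (h.hasFDerivAt).restrictScalars ℝ
  have h2 : ContinuousLinearMap.mul ℝ ℂ a =
      (ContinuousLinearMap.toSpanSingleton ℂ a).restrictScalars ℝ := by
    apply ContinuousLinearMap.ext
    intro v
    simp [mul_comm]
  rw [h2]
  exact h1

theorem laplacian_comp_hol {f : ℂ → ℝ} {τ : ℂ → ℂ} {z : ℂ} (hf : ContDiffAt ℝ 2 f (τ z))
    (hτ : AnalyticAt ℂ τ z) : Δ (fun w => f (τ w)) z = ‖deriv τ z‖ ^ 2 * Δ f (τ z) := by
  have hτ1 : ∀ᶠ w in 𝓝 z, HasDerivAt τ (deriv τ w) w :=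
    hτ.eventually_analyticAt.mono fun w hw => hw.differentiableAt.hasDerivAt
  have hf1 : ∀ᶠ u in 𝓝 (τ z), DifferentiableAt ℝ f u :=
    (hf.eventually (by simp)).mono fun u hu => hu.differentiableAt (by simp)
  have hf2 : ∀ᶠ w in 𝓝 z, DifferentiableAt ℝ f (τ w) := hτ.continuousAt.eventually hf1
  have hE : fderiv ℝ (fun w => f (τ w)) =ᶠ[𝓝 z]
      fun w => (fderiv ℝ f (τ w)).comp (ContinuousLinearMap.mul ℝ ℂ (deriv τ w)) := by
    filter_upwards [hτ1, hf2] with w h1 h2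
    exact (h2.hasFDerivAt.comp w (Conf_hasFDerivAt h1)).fderiv
  have hF : HasFDerivAt (fderiv ℝ f) (fderiv ℝ (fderiv ℝ f) (τ z)) (τ z) := by
    have : ContDiffAt ℝ 1 (fderiv ℝ f) (τ z) := hf.fderiv_right (by norm_num)
    exact (this.differentiableAt (by simp)).hasFDerivAt
  have hz : HasFDerivAt τ (ContinuousLinearMap.mul ℝ ℂ (deriv τ z)) z :=
    Conf_hasFDerivAt hτ.differentiableAt.hasDerivAt
  have hd : HasFDerivAt (deriv τ) (ContinuousLinearMap.mul ℝ ℂ (deriv (deriv τ) z)) z :=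
    Conf_hasFDerivAt hτ.deriv.differentiableAt.hasDerivAt
  have hL := (ContinuousLinearMap.mul ℝ ℂ).hasFDerivAt.comp z hd
  have hC := (hF.comp z hz).clm_comp hL
  have hG := (hC.congr_of_eventuallyEq hE).fderiv
  rw [laplacian_eq_iteratedFDeriv_complexPlane, laplacian_eq_iteratedFDeriv_complexPlane]
  simp only [iteratedFDeriv_two_apply, Matrix.cons_val_zero, Matrix.cons_val_one,
    Matrix.cons_val_fin_one]
  rw [hG, ← Conf_bilin]
  simp only [add_apply, ContinuousLinearMap.comp_apply,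
    ContinuousLinearMap.compL_apply, ContinuousLinearMap.flip_apply,
    ContinuousLinearMap.mul_apply', Function.comp_apply, mul_one]
  have hI : deriv (deriv τ) z * Complex.I * Complex.I = - deriv (deriv τ) z := by
    rw [mul_assoc, Complex.I_mul_I]; ring
  rw [hI, map_neg]
  ring

end Pool.Agent.MP_4f0ed6_gt

end

section

open Set Laplacian Filter Topology MeasureTheory Metric InnerProductSpace
open scoped ContDiff

namespace Pool.Agent.MP_4f0ed6_gt

namespace Glue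

variable {A K : Type} {G : Glue A K} {k : WithTop ℕ∞} {f g φ : A → ℂ → ℝ}

theorem Ok.analytic (hG : G.Ok) {κ : K} {z : ℂ} (hz : z ∈ G.O κ) : AnalyticAt ℂ (G.τ κ) z := by
  exact (hG.hol κ).analyticAt ((hG.O_open κ).mem_nhds hz)

theorem Ok.deriv_mul (hG : G.Ok) {κ : K} {z : ℂ} (hz : z ∈ G.O κ) :
    deriv (G.τ (G.σ κ)) (G.τ κ z) * deriv (G.τ κ) z = 1 := by
  have h1 := (hG.analytic hz).differentiableAt.hasDerivAt
  have h2 := (hG.analytic (hG.maps κ z hz)).differentiableAt.hasDerivAt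
  have h3 := h2.comp z h1
  have h4 : (G.τ (G.σ κ) ∘ G.τ κ) =ᶠ[𝓝 z] id := by
    filter_upwards [(hG.O_open κ).mem_nhds hz] with w hw
    exact hG.inv κ w hw
  have h5 := (hasDerivAt_id z).congr_of_eventuallyEq h4
  exact h3.unique h5

theorem CS.of_le {k' : WithTop ℕ∞} (h : G.CS k f) (hk : k' ≤ k) : G.CS k' f := by
  intro α
  exact ⟨(h α).1.of_le hk, (h α).2.1, (h α).2.2⟩

theorem CS.zero : G.CS k fun _ _ => 0 := by
  intro α
  refine ⟨contDiff_const, HasCompactSupport.zero, ?_⟩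
  have : tsupport (fun _ : ℂ => (0 : ℝ)) = ∅ := by
    simp [tsupport]
  rw [this]
  exact empty_subset _

theorem CS.add (h : G.CS k f) (h' : G.CS k g) : G.CS k fun α z => f α z + g α z := by
  intro α
  refine ⟨(h α).1.add (h' α).1, (h α).2.1.add (h' α).2.1, ?_⟩
  exact (tsupport_add (f α) (g α)).trans (union_subset (h α).2.2 (h' α).2.2)

theorem Fam0_CS_const_mul (h : G.CS k f) (c : A → ℝ) : G.CS k fun α z => c α * f α z := by
  intro α
  have hs : tsupport (fun z => c α * f α z) ⊆ tsupport (f α) :=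
    tsupport_mul_subset_right (f := fun _ => c α) (g := f α)
  refine ⟨contDiff_const.mul (h α).1, ?_, hs.trans (h α).2.2⟩
  exact (h α).2.1.of_isClosed_subset (isClosed_tsupport _) hs

theorem CS.sub (h : G.CS k f) (h' : G.CS k g) : G.CS k fun α z => f α z - g α z := by
  have := h.add (Fam0_CS_const_mul h' fun _ => -1)
  simpa [sub_eq_add_neg] using this

theorem CS.const_mul (h : G.CS k f) (c : A → ℝ) : G.CS k fun α z => c α * f α z := by
  exact Fam0_CS_const_mul h c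

theorem CS.mul (hG : G.Ok) (h : G.CS k f) (hφ : ∀ α, ContDiffOn ℝ k (φ α) (G.W α)) :
    G.CS k fun α z => f α z * φ α z := by
  intro α
  have hs : tsupport (fun z => f α z * φ α z) ⊆ tsupport (f α) :=
    tsupport_mul_subset_left (f := f α) (g := φ α)
  refine ⟨contDiff_mul_of_supp (hG.W_open α) (h α).1 (h α).2.2 (hφ α), ?_, hs.trans (h α).2.2⟩
  exact (h α).2.1.of_isClosed_subset (isClosed_tsupport _) hs

theorem CS.lap (h : G.CS ∞ f) : G.CS ∞ fun α => Δ (f α) := by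
  intro α
  have hs := tsupport_lap (f α)
  refine ⟨contDiff_iff_contDiffAt.2 fun z => lap_smoothAt (h α).1.contDiffAt, ?_,
    hs.trans (h α).2.2⟩
  exact (h α).2.1.of_isClosed_subset (isClosed_tsupport _) hs

theorem CS.eq_zero (h : G.CS k f) {α : A} {z : ℂ} (hz : z ∉ G.W α) : f α z = 0 := by
  exact image_eq_zero_of_notMem_tsupport fun h1 => hz ((h α).2.2 h1)

theorem CS.integrable (h : G.CS k f) (α : A) : Integrable (f α) := by
  exact (h α).1.continuous.integrable_of_hasCompactSupport (h α).2.1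

variable [Fintype K]

open Classical in
theorem Fam0_sum_single (hG : G.Ok) (F : K → ℝ) {κ : K} {z : ℂ} (hz : z ∈ G.O κ) :
    (∑ κ', if G.ch κ' = G.ch κ ∧ z ∈ G.O κ' then F κ' else 0) = F κ := by
  rw [Finset.sum_eq_single κ]
  · simp [hz]
  · intro b _ hb
    rw [if_neg]
    rintro ⟨h1, h2⟩
    exact hb (hG.disj b κ z h1 h2 hz)
  · intro h
    exact absurd (Finset.mem_univ κ) h

theorem Fam0_gf_eq (hG : G.Ok) (f : A → ℂ → ℝ) {κ : K} {z : ℂ} (hz : z ∈ G.O κ) :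
    G.gf f (G.ch κ) z = f (G.ch κ) z + f (G.ch (G.σ κ)) (G.τ κ z) := by
  unfold gf
  rw [Fam0_sum_single hG (fun κ' => f (G.ch (G.σ κ')) (G.τ κ' z)) hz]

theorem Fam0_gd_eq (hG : G.Ok) (g : A → ℂ → ℝ) {κ : K} {z : ℂ} (hz : z ∈ G.O κ) :
    G.gd g (G.ch κ) z =
      g (G.ch κ) z + g (G.ch (G.σ κ)) (G.τ κ z) * ‖deriv (G.τ κ) z‖ ^ 2 := by
  unfold gd
  rw [Fam0_sum_single hG
    (fun κ' => g (G.ch (G.σ κ')) (G.τ κ' z) * ‖deriv (G.τ κ') z‖ ^ 2) hz]

theorem gf_compat (hG : G.Ok) (f : A → ℂ → ℝ) : G.Compat (G.gf f) := by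
  intro κ z hz
  rw [Fam0_gf_eq hG f hz, Fam0_gf_eq hG f (hG.maps κ z hz), hG.σσ, hG.inv κ z hz, add_comm]

theorem gd_compat (hG : G.Ok) (g : A → ℂ → ℝ) {κ : K} {z : ℂ} (hz : z ∈ G.O κ) :
    G.gd g (G.ch κ) z = G.gd g (G.ch (G.σ κ)) (G.τ κ z) * ‖deriv (G.τ κ) z‖ ^ 2 := by
  rw [Fam0_gd_eq hG g hz, Fam0_gd_eq hG g (hG.maps κ z hz), hG.σσ, hG.inv κ z hz]
  have h1 : ‖deriv (G.τ (G.σ κ)) (G.τ κ z)‖ * ‖deriv (G.τ κ) z‖ = 1 := by
    rw [← norm_mul, hG.deriv_mul hz, norm_one]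
  have h2 : ‖deriv (G.τ (G.σ κ)) (G.τ κ z)‖ ^ 2 * ‖deriv (G.τ κ) z‖ ^ 2 = 1 := by
    rw [← mul_pow, h1, one_pow]
  rw [add_mul, mul_assoc (g (G.ch κ) z), h2, mul_one, add_comm]

theorem gf_mul (hφ : G.Compat φ) (f : A → ℂ → ℝ) (α : A) (z : ℂ) :
    G.gf (fun α z => f α z * φ α z) α z = G.gf f α z * φ α z := by
  unfold gf
  rw [add_mul, Finset.sum_mul]
  congr 1
  refine Finset.sum_congr rfl fun κ _ => ?_
  split_ifs with h
  · beta_reduce
    rw [← hφ κ z h.2, h.1]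
  · rw [zero_mul]

theorem gd_mul (hφ : G.Compat φ) (g : A → ℂ → ℝ) (α : A) (z : ℂ) :
    G.gd (fun α z => g α z * φ α z) α z = G.gd g α z * φ α z := by
  unfold gd
  rw [add_mul, Finset.sum_mul]
  congr 1
  refine Finset.sum_congr rfl fun κ _ => ?_
  split_ifs with h
  · beta_reduce
    rw [← hφ κ z h.2, h.1]
    ring
  · rw [zero_mul]

theorem gd_add (f g : A → ℂ → ℝ) (α : A) (z : ℂ) :
    G.gd (fun α z => f α z + g α z) α z = G.gd f α z + G.gd g α z := by
  unfold gd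
  rw [add_add_add_comm, ← Finset.sum_add_distrib]
  congr 1
  refine Finset.sum_congr rfl fun κ _ => ?_
  split_ifs with h
  · ring
  · rw [add_zero]

theorem gd_const_mul (c : ℝ) (g : A → ℂ → ℝ) (α : A) (z : ℂ) :
    G.gd (fun α z => c * g α z) α z = c * G.gd g α z := by
  unfold gd
  rw [mul_add, Finset.mul_sum]
  congr 1
  refine Finset.sum_congr rfl fun κ _ => ?_
  split_ifs with h
  · ring
  · rw [mul_zero]

theorem gd_nonneg (hg : ∀ α z, 0 ≤ g α z) (α : A) (z : ℂ) : 0 ≤ G.gd g α z := by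
  unfold gd
  refine add_nonneg (hg α z) (Finset.sum_nonneg fun κ _ => ?_)
  split_ifs with h
  · exact mul_nonneg (hg _ _) (sq_nonneg _)
  · exact le_rfl

end Glue

end Pool.Agent.MP_4f0ed6_gt

end

section

open Set Laplacian Filter Topology MeasureTheory Metric InnerProductSpace
open scoped ContDiff

namespace Pool.Agent.MP_4f0ed6_gt

namespace Glue

variable {A K : Type} {G : Glue A K} {k : WithTop ℕ∞} {f g φ : A → ℂ → ℝ}

open Classical in
theorem Fam_in (hG : G.Ok) {α : A} {κ : K} {z : ℂ} (hz : G.ch κ = α ∧ z ∈ G.O κ) (F : ℂ → ℝ) :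
    (fun w => if G.ch κ = α ∧ w ∈ G.O κ then F w else 0) =ᶠ[𝓝 z] F := by
  filter_upwards [(hG.O_open κ).mem_nhds hz.2] with w hw
  rw [if_pos ⟨hz.1, hw⟩]

open Classical in
theorem Fam_out (hG : G.Ok) (h : G.CS k f) {α : A} {κ : K} {z : ℂ} (hW : z ∈ G.W α)
    (hz : ¬ (G.ch κ = α ∧ z ∈ G.O κ)) (F : ℂ → ℝ)
    (hF : ∀ w, f (G.ch (G.σ κ)) (G.τ κ w) = 0 → F w = 0) :
    (fun w => if G.ch κ = α ∧ w ∈ G.O κ then F w else 0) =ᶠ[𝓝 z] fun _ => 0 := by
  by_cases hc : G.ch κ = α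
  · have hO : z ∉ G.O κ := fun hO => hz ⟨hc, hO⟩
    have hW' : z ∈ G.W (G.ch κ) := by rw [hc]; exact hW
    have := hG.closed κ (tsupport (f (G.ch (G.σ κ)))) (h _).2.1.isCompact (h _).2.2 z hW' hO
    filter_upwards [this] with w hw
    by_cases hw' : G.ch κ = α ∧ w ∈ G.O κ
    · rw [if_pos hw']
      exact hF w (image_eq_zero_of_notMem_tsupport (hw hw'.2))
    · rw [if_neg hw']
  · filter_upwards with w
    rw [if_neg (fun hw => hc hw.1)]

theorem Fam_comp (hG : G.Ok) (h : G.CS k f) {κ : K} {z : ℂ} (hz : z ∈ G.O κ) :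
    ContDiffAt ℝ k (fun w => f (G.ch (G.σ κ)) (G.τ κ w)) z :=
  ((h _).1.contDiffAt (x := G.τ κ z)).comp z (analytic_real_smooth (hG.analytic hz) k)

open Classical in
theorem Fam_term (hG : G.Ok) (h : G.CS k f) {α : A} (κ : K) {z : ℂ} (hW : z ∈ G.W α) :
    ContDiffAt ℝ k
      (fun w => if G.ch κ = α ∧ w ∈ G.O κ then f (G.ch (G.σ κ)) (G.τ κ w) else 0) z := by
  by_cases hz : G.ch κ = α ∧ z ∈ G.O κ
  · exact (Fam_comp hG h hz.2).congr_of_eventuallyEq (Fam_in hG hz _)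
  · exact contDiffAt_const.congr_of_eventuallyEq (Fam_out hG h hW hz _ (fun _ hw => hw))

variable [Fintype K]

theorem gf_smooth (hG : G.Ok) (h : G.CS k f) (α : A) : ContDiffOn ℝ k (G.gf f α) (G.W α) := by
  intro z hz
  apply ContDiffAt.contDiffWithinAt
  unfold gf
  exact (h α).1.contDiffAt.add (ContDiffAt.sum fun κ _ => Fam_term hG h κ hz)

theorem gd_smooth (hG : G.Ok) (h : G.CS k g) (α : A) : ContDiffOn ℝ k (G.gd g α) (G.W α) := by
  intro z hW
  apply ContDiffAt.contDiffWithinAt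
  unfold gd
  refine (h α).1.contDiffAt.add (ContDiffAt.sum fun κ _ => ?_)
  by_cases hz : G.ch κ = α ∧ z ∈ G.O κ
  · refine ContDiffAt.congr_of_eventuallyEq ?_ (Fam_in hG hz _)
    refine (Fam_comp hG h hz.2).mul ?_
    exact ContDiffAt.norm_sq ℝ (analytic_real_smooth (hG.analytic hz.2).deriv k)
  · refine contDiffAt_const.congr_of_eventuallyEq (Fam_out hG h hW hz _ (fun w hw => ?_))
    rw [hw, zero_mul]

theorem lap_gf (hG : G.Ok) (h : G.CS ∞ f) {α : A} {z : ℂ} (hz : z ∈ G.W α) :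
    Δ (G.gf f α) z = G.gd (fun α => Δ (f α)) α z := by
  have h2 : G.CS 2 f := h.of_le (by norm_cast)
  unfold gf gd
  rw [lap_add (h2 α).1.contDiffAt (ContDiffAt.sum fun κ _ => Fam_term hG h2 κ hz),
    lap_sum _ _ (fun κ _ => Fam_term hG h2 κ hz)]
  congr 1
  refine Finset.sum_congr rfl fun κ _ => ?_
  by_cases hk : G.ch κ = α ∧ z ∈ G.O κ
  · rw [if_pos hk, lap_congr (Fam_in hG hk _),
      laplacian_comp_hol (h2 _).1.contDiffAt (hG.analytic hk.2), mul_comm]
  · rw [if_neg hk, lap_congr (Fam_out hG h2 hz hk _ (fun _ hw => hw)), lap_const]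

end Glue

end Pool.Agent.MP_4f0ed6_gt

end

section

open Set Laplacian Filter Topology MeasureTheory Metric InnerProductSpace
open scoped ContDiff

namespace Pool.Agent.MP_4f0ed6_gt

theorem PlGeo_compact {P : Type} (a b : ℝ) (p : P → Prop) (c : P → ℂ) :
    IsCompact {w : ℂ | ‖w‖ ≤ a ∧ ∀ π, p π → b ≤ ‖w - c π‖} := by
  have h1 : IsClosed {w : ℂ | ∀ π, p π → b ≤ ‖w - c π‖} := by
    rw [Set.ofPred_forall]
    refine isClosed_iInter fun π => ?_
    rw [Set.ofPred_forall]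
    refine isClosed_iInter fun _ => ?_
    exact isClosed_le continuous_const (by fun_prop)
  have h2 : IsCompact {w : ℂ | ‖w‖ ≤ a} := by
    have : {w : ℂ | ‖w‖ ≤ a} = closedBall (0 : ℂ) a := by
      ext w
      simp
    rw [this]
    exact isCompact_closedBall _ _
  exact h2.inter_right h1

theorem PlGeo_r {V P : Type} {Q : Plumb V P} {ι : V → V} {ιP : P → P} (h : Q.Sym ι ιP) (π : P) :
    Q.r (ιP π) = Q.r π := by
  simp [Plumb.r, h.L_ι]

namespace Plumb

variable {V P : Type} [Fintype P] {Q : Plumb V P}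

omit [Fintype P] in
theorem r_pos (π : P) : 0 < Q.r π := Real.exp_pos _

omit [Fintype P] in
theorem log_r (π : P) : Real.log (Q.r π) = -Q.L π / 2 := Real.log_exp _

omit [Fintype P] in
theorem norm_ε (π : P) : ‖Q.ε π‖ = Q.r π ^ 2 := by
  simp [Plumb.ε]

theorem one_le_n : 1 ≤ Q.n := by
  have : (0 : ℝ) ≤ Fintype.card P := Nat.cast_nonneg _
  unfold Plumb.n
  linarith

theorem mem_pts {v : V} {π : P} : π ∈ Q.pts v ↔ Q.pc π = v := by
  simp [Plumb.pts]

theorem card_pts_le (v : V) : ((Q.pts v).card : ℝ) ≤ Q.n := by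
  have h : (Q.pts v).card ≤ Fintype.card P := Finset.card_le_univ _
  have h' : ((Q.pts v).card : ℝ) ≤ Fintype.card P := by exact_mod_cast h
  unfold Plumb.n
  linarith

theorem sum_pts [Fintype V] {M : Type} [AddCommMonoid M] (F : P → M) :
    ∑ v, ∑ π ∈ Q.pts v, F π = ∑ π, F π := by
  classical
  have := Finset.sum_fiberwise (s := (Finset.univ : Finset P)) Q.pc F
  rw [← this]
  refine Finset.sum_congr rfl fun v _ => ?_
  refine Finset.sum_congr ?_ fun _ _ => rfl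
  ext π
  simp [Plumb.pts]

theorem abs_sum_pts_le {s : Finset P} {F : P → ℝ} {B : ℝ} (hB : 0 ≤ B)
    (h : ∀ π ∈ s, |F π| ≤ B) : |∑ π ∈ s, F π| ≤ Q.n * B := by
  have h1 : |∑ π ∈ s, F π| ≤ ∑ π ∈ s, |F π| := Finset.abs_sum_le_sum_abs _ _
  have h2 : ∑ π ∈ s, |F π| ≤ s.card • B := Finset.sum_le_card_nsmul _ _ _ h
  have h3 : s.card ≤ Fintype.card P := Finset.card_le_univ _
  have h4 : (s.card : ℝ) ≤ Fintype.card P := by exact_mod_cast h3
  rw [nsmul_eq_mul] at h2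
  have h5 : (s.card : ℝ) * B ≤ Q.n * B := by
    apply mul_le_mul_of_nonneg_right _ hB
    unfold Plumb.n
    linarith
  linarith

theorem Ok.r_σ (hQ : Q.Ok) (π : P) : Q.r (Q.σ π) = Q.r π := by
  simp [Plumb.r, hQ.L_σ]

theorem Ok.ε_σ (hQ : Q.Ok) (π : P) : Q.ε (Q.σ π) = Q.ε π := by
  simp [Plumb.ε, hQ.r_σ]

theorem Ok.r_le' (hQ : Q.Ok) (π : P) : 16 * Q.r π ≤ Q.sep := by
  have h1 := hQ.r_le π
  have h2 : 1 ≤ Q.n := one_le_n
  have h3 : 0 < Q.r π := r_pos π
  nlinarith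

theorem Ok.core_sub_bulk (hQ : Q.Ok) (v : V) : Q.core v ⊆ Q.bulk v := by
  intro w hw
  have hs := hQ.sep_pos
  refine ⟨by linarith [hw.1], fun π hπ => ?_⟩
  linarith [hw.2 π hπ]

theorem Ok.bulk_sub_W (hQ : Q.Ok) (v : V) : Q.bulk v ⊆ Q.W (v, false) := by
  intro w hw
  refine ⟨by linarith [hw.1], fun π hπ => ?_⟩
  have h1 := hw.2 π hπ
  have h2 := hQ.r_le' π
  have h3 : 0 < Q.r π := r_pos π
  linarith

omit [Fintype P] in
theorem isCompact_core (v : V) : IsCompact (Q.core v) := by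
  exact PlGeo_compact (1 / 4) Q.sep (fun π => Q.pc π = v) Q.c

omit [Fintype P] in
theorem isCompact_bulk (v : V) : IsCompact (Q.bulk v) := by
  exact PlGeo_compact (1 / 2) (Q.sep / 2) (fun π => Q.pc π = v) Q.c

theorem isOpen_W (α : V × Bool) : IsOpen (Q.W α) := by
  obtain ⟨v, b⟩ := α
  have h0 : IsOpen {w : ℂ | ‖w‖ < 2} := isOpen_lt continuous_norm continuous_const
  cases b
  · have h1 : IsOpen {w : ℂ | ∀ π, Q.pc π = v → Q.r π / 2 < ‖w - Q.c π‖} := by
      rw [Set.ofPred_forall]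
      refine isOpen_iInter_of_finite fun π => ?_
      by_cases hπ : Q.pc π = v
      · simp only [hπ, forall_const]
        exact isOpen_lt continuous_const (by fun_prop)
      · simp [hπ]
    exact h0.inter h1
  · exact h0

omit [Fintype P] in
theorem norm_lt_of_W {α : V × Bool} {w : ℂ} (h : w ∈ Q.W α) : ‖w‖ < 2 := by
  obtain ⟨v, b⟩ := α
  cases b
  · exact h.1
  · exact h

theorem Ok.near (hQ : Q.Ok) {π π' : P} (hne : π' ≠ π) (hp : Q.pc π' = Q.pc π) {x : ℂ}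
    (hx : ‖x‖ ≤ Q.sep / 2) :
    Q.sep / 2 ≤ ‖Q.c π + x - Q.c π'‖ ∧ ‖Q.c π + x - Q.c π'‖ ≤ 1 := by
  have h1 := hQ.c_sep π π' hne.symm hp.symm
  have h2 := hQ.c_le π
  have h3 := hQ.c_le π'
  have h4 := hQ.sep_le
  constructor
  · have : ‖Q.c π - Q.c π'‖ ≤ ‖Q.c π + x - Q.c π'‖ + ‖x‖ := by
      have e : Q.c π - Q.c π' = (Q.c π + x - Q.c π') - x := by ring
      conv_lhs => rw [e]
      exact norm_sub_le _ _
    linarith
  · have h5 : ‖Q.c π + x - Q.c π'‖ ≤ ‖Q.c π + x‖ + ‖Q.c π'‖ := norm_sub_le _ _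
    have h6 : ‖Q.c π + x‖ ≤ ‖Q.c π‖ + ‖x‖ := norm_add_le _ _
    linarith

theorem Ok.cs_fin (hQ : Q.Ok) {k : WithTop ℕ∞} {μ : V → ℂ → ℝ} (hs : ∀ v, ContDiff ℝ k (μ v))
    (hc : ∀ v w, μ v w ≠ 0 → w ∈ Q.core v) : Q.glue.CS k (fin μ) := by
  rintro ⟨v, b⟩
  cases b
  · have hsub : tsupport (μ v) ⊆ Q.core v :=
      closure_minimal (fun w hw => hc v w hw) (isCompact_core v).isClosed
    refine ⟨hs v, (isCompact_core v).of_isClosed_subset (isClosed_tsupport _) hsub, ?_⟩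
    exact hsub.trans ((hQ.core_sub_bulk v).trans (hQ.bulk_sub_W v))
  · refine ⟨contDiff_const, HasCompactSupport.zero, ?_⟩
    have : tsupport (fin μ (v, true)) = ∅ := tsupport_eq_empty_iff.mpr rfl
    rw [this]
    exact empty_subset _

omit [Fintype P] in
theorem cs_supp {k : WithTop ℕ∞} {g : V × Bool → ℂ → ℝ} (hg : Q.glue.CS k g) (α : V × Bool)
    (u : ℂ) (h : g α u ≠ 0) : ‖u‖ < 2 := by
  exact norm_lt_of_W ((hg α).2.2 (subset_tsupport _ h))

omit [Fintype P] in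
theorem Sym.glue {ι : V → V} {ιP : P → P} (h : Q.Sym ι ιP) :
    Q.glue.Sym (fun α => (ι α.1, α.2)) (Sum.map ιP fun α => (ι α.1, α.2)) := by
  refine ⟨?_, ?_, ?_, ?_, ?_, ?_, ?_⟩
  · rintro ⟨v, b⟩
    simp [h.ιι]
  · rintro (π | ⟨v, b⟩)
    · simp [h.ιPιP]
    · simp [h.ιι]
  · rintro (π | ⟨v, b⟩)
    · simp [Plumb.glue, h.pc_ι]
    · simp [Plumb.glue]
  · rintro (π | ⟨v, b⟩)
    · simp [Plumb.glue, h.σ_ι]
    · simp [Plumb.glue]
  · rintro ⟨v, b⟩ z hz
    cases b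
    · refine ⟨by simpa using hz.1, fun π hπ => ?_⟩
      have h1 : Q.pc (ιP π) = v := by
        rw [h.pc_ι, hπ]
        exact h.ιι v
      have h2 := hz.2 _ h1
      rw [PlGeo_r h, h.c_ι] at h2
      have e : -z - Q.c π = -(z - -Q.c π) := by ring
      rw [e, norm_neg]
      exact h2
    · have : ‖z‖ < 2 := hz
      show ‖-z‖ < 2
      simpa using this
  · rintro (π | ⟨v, b⟩) z hz
    · have hz' : Q.r π / 2 < ‖z - Q.c π‖ ∧ ‖z - Q.c π‖ < 2 * Q.r π := hz
      show Q.r (ιP π) / 2 < ‖-z - Q.c (ιP π)‖ ∧ ‖-z - Q.c (ιP π)‖ < 2 * Q.r (ιP π)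
      have e : -z - -Q.c π = -(z - Q.c π) := by ring
      rw [PlGeo_r h, h.c_ι, e, norm_neg]
      exact hz'
    · have hz' : 1 / 2 < ‖z‖ ∧ ‖z‖ < 2 := hz
      show 1 / 2 < ‖-z‖ ∧ ‖-z‖ < 2
      rw [norm_neg]
      exact hz'
  · rintro (π | ⟨v, b⟩) z _
    · show Q.c (Q.σ (ιP π)) + Q.ε (ιP π) / (-z - Q.c (ιP π)) =
        -(Q.c (Q.σ π) + Q.ε π / (z - Q.c π))
      have e : -z - -Q.c π = -(z - Q.c π) := by ring
      have e2 : Q.ε (ιP π) = Q.ε π := by simp [Plumb.ε, PlGeo_r h]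
      rw [h.σ_ι, h.c_ι, h.c_ι, e, e2, div_neg]
      ring
    · show (-z)⁻¹ = -z⁻¹
      exact inv_neg

omit [Fintype P] in
theorem Sym.core {ι : V → V} {ιP : P → P} (h : Q.Sym ι ιP) {v : V} {w : ℂ}
    (hw : w ∈ Q.core v) : -w ∈ Q.core (ι v) := by
  refine ⟨by simpa using hw.1, fun π hπ => ?_⟩
  have h1 : Q.pc (ιP π) = v := by
    rw [h.pc_ι, hπ]
    exact h.ιι v
  have h2 := hw.2 _ h1
  rw [h.c_ι] at h2
  have e : -w - Q.c π = -(w - -Q.c π) := by ring
  rw [e, norm_neg]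
  exact h2

end Plumb

end Pool.Agent.MP_4f0ed6_gt

end

section

open Set Laplacian Filter Topology MeasureTheory Metric InnerProductSpace
open scoped ContDiff

namespace Pool.Agent.MP_4f0ed6_gt

theorem ori_total {h : ℕ} {d d' : DD h} (hne : d ≠ d') : ∃ j, Ori j d d' ∨ Ori j d' d := by
  classical
  have hex : ∃ j, d j ≠ d' j := Function.ne_iff.1 hne
  obtain ⟨j, hj, hmin⟩ := (wellFounded_lt (α := Fin h)).has_min {j | d j ≠ d' j} hex
  have hp : pre j d = pre j d' := by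
    funext i
    unfold pre
    split_ifs with hi
    · by_contra hc
      exact hmin i hc hi
    · rfl
  refine ⟨j, ?_⟩
  have hj' : d j ≠ d' j := hj
  cases h1 : d j <;> cases h2 : d' j
  · exact absurd (h1.trans h2.symm) hj'
  · exact Or.inl ⟨hp, h1, h2⟩
  · exact Or.inr ⟨hp.symm, h2, h1⟩
  · exact absurd (h1.trans h2.symm) hj'

theorem Ori.pre_ne {h : ℕ} {j j' : Fin h} {d d' : DD h} (ho : Ori j d d') (hj : j < j') :
    pre j' d' ≠ pre j' d := by
  intro e
  have := congrFun e j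
  simp only [pre, if_pos hj, ho.2.1, ho.2.2] at this
  exact absurd this (by simp)

namespace Fx

variable {h nT nx : ℕ} (S : Fx h nT nx)

theorem n_eq (η : ℝ) : (S.Q η).n = Fintype.card (PP h nT nx) + 1 := rfl

theorem card_PP : Fintype.card (PP h nT nx) = 2 ^ h * 4 * (h + nT) + 2 * nx := by
  simp only [Fintype.card_sum, Fintype.card_prod, Fintype.card_fun, Fintype.card_bool,
    Fintype.card_fin]
  ring

theorem card_VV : Fintype.card (Option (DD h × Bool)) = 2 ^ h * 2 + 1 := by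
  simp only [Fintype.card_option, Fintype.card_prod, Fintype.card_fun, Fintype.card_bool,
    Fintype.card_fin]

theorem aj_pos {η : ℝ} (h0 : 0 < η) (j : Fin h) : 0 < S.aj η j := by
  unfold aj aa
  positivity

theorem aj_le {η : ℝ} (h0 : 0 < η) (h1 : η ≤ 1) (j : Fin h) : S.aj η j ≤ S.aa η := by
  unfold aj
  exact mul_le_of_le_one_left (by unfold aa; positivity) (pow_le_one₀ h0.le h1)

theorem aj_lt {η : ℝ} (h0 : 0 < η) (h1 : η ≤ 1) {j j' : Fin h} (hj : j' < j) :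
    S.aj η j' ≤ η ^ 3 * S.aj η j := by
  unfold aj
  rw [← mul_assoc, ← pow_add]
  refine mul_le_mul_of_nonneg_right (pow_le_pow_of_le_one h0.le h1 ?_) (by unfold aa; positivity)
  have := j.2
  have : (j' : ℕ) < j := hj
  omega

theorem aj_ge {η : ℝ} (h0 : 0 < η) (h1 : η ≤ 1) (j : Fin h) :
    η ^ (6 * h) * S.aa η ^ 2 ≤ η ^ 6 * S.aj η j ^ 2 := by
  unfold aj
  rw [mul_pow, ← mul_assoc, ← pow_mul, ← pow_add]
  refine mul_le_mul_of_nonneg_right (pow_le_pow_of_le_one h0.le h1 ?_) (by positivity)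
  have := j.2
  omega

theorem sum_aj {η : ℝ} (hS : S.Ok) (h0 : 0 < η) (h1 : η ≤ 1) :
    S.aa η ≤ ∑ j, S.aj η j ∧ ∑ j, S.aj η j ≤ h * S.aa η := by
  constructor
  · have hh := hS.h_pos
    have e : S.aj η ⟨h - 1, by omega⟩ = S.aa η := by simp [aj]
    rw [← e]
    exact Finset.single_le_sum (f := fun j => S.aj η j) (fun j _ => (S.aj_pos h0 j).le)
      (Finset.mem_univ _)
  · calc ∑ j, S.aj η j ≤ ∑ _j : Fin h, S.aa η := Finset.sum_le_sum fun j _ => S.aj_le h0 h1 j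
      _ = h * S.aa η := by simp

theorem cond_pos {η : ℝ} (h0 : 0 < η) (π : PP h nT nx) : 0 < S.cond η π := by
  rcases π with ⟨v, j, i⟩ | q | q
  · exact S.aj_pos h0 j
  · simp only [cond, am]
    positivity
  · simp only [cond, aa]
    positivity

theorem cond_le {η : ℝ} (h0 : 0 < η) (h1 : η ≤ 1) (hS : S.Ok) (π : PP h nT nx) :
    S.cond η π ≤ S.aa η := by
  have _ := hS
  rcases π with ⟨v, j, i⟩ | q | q
  · exact S.aj_le h0 h1 j
  · simp only [cond, am, aa]
    exact pow_le_pow_of_le_one h0.le h1 (by omega)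
  · simp only [cond, aa]
    rw [← pow_mul]
    exact pow_le_pow_of_le_one h0.le h1 (by omega)

theorem am_eq {η : ℝ} (h0 : 0 < η) : S.am η = S.aa η ^ 2 / η ^ 3 := by
  unfold am aa
  field_simp
  ring

theorem ad_eq {η : ℝ} (h0 : 0 < η) : S.ad η = S.aa η ^ 2 / η ^ 2 := by
  unfold ad aa
  field_simp
  ring

theorem aa_le {η : ℝ} (hS : S.Ok) (h0 : 0 < η) (h1 : η ≤ 1) : S.aa η ≤ η ^ 10 := by
  have := hS.h_pos
  exact pow_le_pow_of_le_one h0.le h1 (by omega)

theorem b_eq {η s N : ℝ} (h0 : 0 < η) {p : DD h × DD h → ℝ} {u : Option (DD h × Bool) → ℝ}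
    (ρ : S.Rp η p s N u) (π : PP h nT nx) :
    ρ.b π = S.cond η π * (ρ.R π - ρ.R (S.σ π)) ∧ |ρ.b π| ≤ 4 * S.cond η π * N := by
  have hc := S.cond_pos h0 π
  have e1 : (S.cond η π)⁻¹ * ρ.b π = ρ.R π - ρ.R (S.σ π) := ρ.tube π
  have e2 : (S.cond η π)⁻¹ * |ρ.b π| ≤ 4 * N := ρ.b_le π
  constructor
  · rw [← e1, ← mul_assoc, mul_inv_cancel₀ hc.ne', one_mul]
  · rw [inv_mul_le_iff₀ hc] at e2
    linarith

end Fx

end Pool.Agent.MP_4f0ed6_gt

end

section

open Set Laplacian Filter Topology MeasureTheory Metric InnerProductSpace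
open scoped ContDiff

namespace Pool.Agent.MP_4f0ed6_gt

theorem abs_sg (ε : Bool) : |sg ε| = 1 := by
  cases ε <;> simp [sg]

theorem sg_not (ε : Bool) : sg (!ε) = -sg ε := by
  cases ε <;> simp [sg]

theorem abs_ed_le {D : Type} (d : D) (v : Option (D × Bool)) : |ed d v| ≤ 1 := by
  cases v with
  | none => simp [ed]
  | some v =>
    simp only [ed]
    split_ifs
    · exact (abs_sg _).le
    · simp

theorem ed_iV {D : Type} (d : D) (v : Option (D × Bool)) : ed d (iV v) = -ed d v := by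
  cases v with
  | none => simp [ed, iV]
  | some v =>
    simp only [ed, iV, Option.map_some, flp]
    split_ifs
    · exact sg_not _
    · simp

theorem SSum_flp_flp {D : Type} (v : D × Bool) : flp (flp v) = v := by
  simp [flp]

theorem SSum_symm_flp {D T : Type} {Pm : T → Equiv.Perm (D × Bool)}
    (hc : ∀ t v, Pm t (flp v) = flp (Pm t v)) (t : T) (v : D × Bool) :
    (Pm t).symm (flp v) = flp ((Pm t).symm v) := by
  rw [Equiv.symm_apply_eq, hc, Equiv.apply_symm_apply]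

theorem SSum_adj {T X : Type} [Fintype T] [Fintype X] (Pm : T → Equiv.Perm X) (u w : X → ℝ) :
    ∑ v, u v * Lap Pm w v = ∑ v, w v * Lap Pm u v := by
  simp only [Lap, Finset.mul_sum]
  rw [Finset.sum_comm, Finset.sum_comm (f := fun v t => w v * _)]
  refine Finset.sum_congr rfl fun t _ => ?_
  have h1 : ∑ v, u v * w (Pm t v) = ∑ v, w v * u ((Pm t).symm v) := by
    rw [← Equiv.sum_comp (Pm t) (fun v => w v * u ((Pm t).symm v))]
    simp [mul_comm]
  have h2 : ∑ v, w v * u (Pm t v) = ∑ v, u v * w ((Pm t).symm v) := by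
    rw [← Equiv.sum_comp (Pm t) (fun v => u v * w ((Pm t).symm v))]
    simp [mul_comm]
  have h3 : ∑ v, u v * (2 * w v) = ∑ v, w v * (2 * u v) :=
    Finset.sum_congr rfl fun v _ => by ring
  simp only [mul_sub, Finset.sum_sub_distrib]
  rw [h1, h2, h3]
  ring

theorem SSum_ed_sum {D : Type} [Fintype D] (d : D) (w : D × Bool → ℝ) :
    ∑ v, ed d (some v) * w v = w (d, true) - w (d, false) := by
  classical
  rw [Fintype.sum_prod_type, Finset.sum_eq_single d]
  · simp [ed, sg, sub_eq_add_neg]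
  · intro b _ hb
    simp [ed, hb]
  · simp

theorem SSum_ed_odd {D : Type} (d : D) (v : D × Bool) :
    ed d (some (flp v)) = -ed d (some v) := ed_iV d (some v)

theorem SSum_expand {D : Type} [Fintype D] (F : D × Bool → ℝ) (hF : ∀ v, F (flp v) = -F v)
    (v : D × Bool) : ∑ d', ed d' (some v) * F (d', true) = F v := by
  classical
  obtain ⟨d, b⟩ := v
  rw [Finset.sum_eq_single d]
  · cases b
    · have := hF (d, true)
      simp only [flp, Bool.not_true] at this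
      simp [ed, sg, this]
    · simp [ed, sg]
  · intro b _ hb
    simp [ed, Ne.symm hb]
  · simp

theorem Lap_flp {D T : Type} [Fintype T] {Pm : T → Equiv.Perm (D × Bool)}
    (hc : ∀ t v, Pm t (flp v) = flp (Pm t v)) {u : D × Bool → ℝ} (hu : ∀ v, u (flp v) = -u v)
    (v : D × Bool) : Lap Pm u (flp v) = -Lap Pm u v := by
  simp only [Lap, ← Finset.sum_neg_distrib]
  refine Finset.sum_congr rfl fun t _ => ?_
  rw [hc, SSum_symm_flp hc, hu, hu, hu]
  ring

namespace Fx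

variable {h nT nx : ℕ} (S : Fx h nT nx)

theorem sym (hS : S.Ok) (η : ℝ) : (S.Q η).Sym iV S.ιP := by
  refine ⟨?_, ?_, ?_, ?_, ?_, ?_⟩
  · rintro (_ | v)
    · rfl
    · simp [iV, SSum_flp_flp]
  · rintro (⟨v, q⟩ | ⟨v, q⟩ | ⟨e, ε⟩) <;> simp [ιP, SSum_flp_flp]
  · rintro (⟨v, j, _ | _⟩ | ⟨v, t, i⟩ | ⟨e, ε⟩) <;> simp [ιP, Q, pc, iV, flp]
  · rintro (⟨v, j, i⟩ | ⟨v, t, _ | _⟩ | ⟨e, ε⟩)
    · simp [ιP, Q, σ]
    · simp [ιP, Q, σ, hS.graph.comm]
    · simp [ιP, Q, σ, SSum_symm_flp hS.graph.comm]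
    · simp [ιP, Q, σ]
  · rintro (⟨v, j, _ | _⟩ | ⟨v, t, i⟩ | ⟨e, ε⟩) <;> simp [ιP, Q, c, flp, sg_not, neg_div]
  · rintro (⟨v, j, i⟩ | ⟨v, t, i⟩ | ⟨e, ε⟩) <;> simp [ιP, Q, cond]

theorem sum_pts_some (η : ℝ) (v : DD h × Bool) (F : PP h nT nx → ℝ) :
    ∑ π ∈ (S.Q η).pts (some v), F π = ∑ j, F (.inl (v, j, false)) +
      ∑ t, (F (.inr (.inl (v, t, false))) + F (.inr (.inl (v, t, true)))) +
      ∑ e, if v.1 = (fun _ => false) then F (.inr (.inr (e, v.2))) else 0 := by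
  classical
  unfold Plumb.pts
  rw [Finset.sum_filter, Fintype.sum_sum_type, Fintype.sum_sum_type, add_assoc]
  congr 1
  · rw [Fintype.sum_prod_type, Finset.sum_eq_single v]
    · rw [Fintype.sum_prod_type]
      simp [Q, pc]
    · intro b _ hb
      rw [Fintype.sum_prod_type]
      simp [Q, pc, hb]
    · simp
  congr 1
  · rw [Fintype.sum_prod_type, Finset.sum_eq_single v]
    · rw [Fintype.sum_prod_type]
      simp [Q, pc, add_comm]
    · intro b _ hb
      rw [Fintype.sum_prod_type]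
      simp [Q, pc, hb]
    · simp
  · rw [Fintype.sum_prod_type]
    refine Finset.sum_congr rfl fun e _ => ?_
    obtain ⟨d, b⟩ := v
    by_cases hd : d = fun _ => false
    · subst hd
      cases b <;> simp [Q, pc]
    · simp [Q, pc, hd, Ne.symm hd]

theorem sum_pts_none (η : ℝ) (F : PP h nT nx → ℝ) :
    ∑ π ∈ (S.Q η).pts none, F π = ∑ v, ∑ j, F (.inl (v, j, true)) := by
  classical
  unfold Plumb.pts
  rw [Finset.sum_filter, Fintype.sum_sum_type, Fintype.sum_sum_type]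
  simp [Q, pc, Fintype.sum_prod_type]

theorem M1_symm (hS : S.Ok) (d d' : DD h) : S.M1 d d' = S.M1 d' d := by
  have key : ∀ a b : DD h, ∑ v, ed a (some v) * Lap S.Pm (fun v => ed b (some v)) v =
      2 * Lap S.Pm (fun v => ed b (some v)) (a, true) := by
    intro a b
    rw [SSum_ed_sum]
    have := Lap_flp hS.graph.comm (u := fun v => ed b (some v)) (SSum_ed_odd b) (a, true)
    simp only [flp, Bool.not_true] at this
    rw [this]
    ring
  have h1 := SSum_adj S.Pm (fun v => ed d (some v)) (fun v => ed d' (some v))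
  rw [key, key] at h1
  unfold M1
  have h2 : Lap S.Pm (fun v => ed d' (some v)) (d, true) =
      Lap S.Pm (fun v => ed d (some v)) (d', true) := by linarith
  rw [h2]
  by_cases hd : d = d'
  · simp [hd]
  · simp [hd, Ne.symm hd]

theorem M1_mul (F : DD h × Bool → ℝ) (hF : ∀ v, F (flp v) = -F v) (d : DD h) :
    ∑ d', S.M1 d d' * F (d', true) = Lap S.Pm F (d, true) - S.θ * F (d, true) := by
  classical
  simp only [M1, sub_mul, Finset.sum_sub_distrib]
  congr 1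
  · simp only [Lap, Finset.sum_mul]
    rw [Finset.sum_comm]
    refine Finset.sum_congr rfl fun t _ => ?_
    simp only [sub_mul, Finset.sum_sub_distrib, mul_assoc, ← Finset.mul_sum, SSum_expand F hF]
  · rw [Finset.sum_eq_single d]
    · simp
    · intro b _ hb
      simp [Ne.symm hb]
    · simp

theorem M1_psd (hS : S.Ok) (f : DD h → ℝ) : 0 ≤ ∑ d, ∑ d', f d * S.M1 d d' * f d' := by
  set u : DD h × Bool → ℝ := fun v => sg v.2 * f v.1 with hu
  have hodd : ∀ v, u (flp v) = -u v := fun v => by simp [hu, flp, sg_not]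
  have ht : ∀ d, u (d, true) = f d := fun d => by simp [hu, sg]
  have hf : ∀ d, u (d, false) = -f d := fun d => by simp [hu, sg]
  have hl : ∀ d, Lap S.Pm u (d, false) = -Lap S.Pm u (d, true) := fun d =>
    Lap_flp hS.graph.comm hodd (d, true)
  have h1 : ∀ d, ∑ d', f d * S.M1 d d' * f d' =
      f d * Lap S.Pm u (d, true) - S.θ * f d ^ 2 := by
    intro d
    have := S.M1_mul u hodd d
    simp only [ht] at this
    simp only [mul_assoc, ← Finset.mul_sum, this]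
    ring
  have h2 := hS.graph.odd u hodd
  simp only [Fintype.sum_prod_type, Fintype.sum_bool, ht, hf, hl, neg_mul_neg, neg_sq,
    Finset.sum_add_distrib] at h2
  simp only [h1, Finset.sum_sub_distrib, ← Finset.mul_sum]
  linarith

end Fx

end Pool.Agent.MP_4f0ed6_gt

end

section

open Set Laplacian Filter Topology MeasureTheory Metric InnerProductSpace
open scoped ContDiff

namespace Pool.Agent.MP_4f0ed6_gt

theorem PotI_inv : LocallyIntegrable (fun u : ℂ => ‖u‖⁻¹) := by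
  refine locallyIntegrable_of_norm_le_rpow (C := 1) (α := 1) (by simp) (by simp)
    (Eventually.of_forall fun u => ?_) measurable_norm.inv.aestronglyMeasurable
  rw [Real.rpow_neg_one, one_mul, norm_inv, norm_norm]

theorem PotI_ae (g : ℂ → ℝ) {w : ℂ} (hw : w ≠ 0) :
    (fun u => Real.log ‖1 - u * w‖ * g u) =ᵐ[volume]
      fun u => Real.log ‖w⁻¹ - u‖ * g u + Real.log ‖w‖ * g u := by
  have h0 : ∀ᵐ u : ℂ, u ≠ w⁻¹ := by
    simp [ae_iff]
  filter_upwards [h0] with u hu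
  have e : 1 - u * w = (w⁻¹ - u) * w := by field_simp
  rw [e, norm_mul, Real.log_mul (norm_ne_zero_iff.mpr (sub_ne_zero.mpr hu.symm))
    (norm_ne_zero_iff.mpr hw), add_mul]

theorem PotI_kk (g : ℂ → ℝ) (w u : ℂ) :
    kk w u * g u = Real.log ‖w - u‖ * g u - Real.log ‖-w - u‖ * g u := by
  rw [kk, sub_mul, ← norm_neg (-w - u), neg_sub, sub_neg_eq_add, add_comm]

theorem locInt_log : LocallyIntegrable (fun u : ℂ => Real.log ‖u‖) := by
  have h1 : LocallyIntegrable (fun u : ℂ => ‖u‖ + ‖u‖⁻¹) :=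
    continuous_norm.locallyIntegrable.add PotI_inv
  refine h1.mono (measurable_norm.log.aestronglyMeasurable) (Eventually.of_forall fun u => ?_)
  have h0 := norm_nonneg u
  have h2 : 0 ≤ ‖u‖⁻¹ := inv_nonneg.mpr h0
  rw [Real.norm_eq_abs, Real.norm_eq_abs, abs_of_nonneg (add_nonneg h0 h2), abs_le]
  constructor
  · have := Real.log_le_self h2
    rw [Real.log_inv] at this
    linarith
  · have := Real.log_le_self h0
    linarith

theorem locInt_inv : LocallyIntegrable (fun u : ℂ => ‖u‖⁻¹) := by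
  exact PotI_inv

theorem integrable_np {g : ℂ → ℝ} (hg : Continuous g) (hc : HasCompactSupport g) (w : ℂ) :
    Integrable fun u => Real.log ‖w - u‖ * g u := by
  have hg' : Continuous fun u => g (w - u) := hg.comp (continuous_const.sub continuous_id)
  have hc' : HasCompactSupport fun u => g (w - u) :=
    hc.comp_homeomorph (Homeomorph.subLeft w)
  have h1 := locInt_log.integrable_smul_right_of_hasCompactSupport hg' hc'
  have h2 := h1.comp_sub_left w
  simpa using h2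

theorem integrable_nq {g : ℂ → ℝ} (hg : Continuous g) (hc : HasCompactSupport g) (w : ℂ) :
    Integrable fun u => Real.log ‖1 - u * w‖ * g u := by
  by_cases hw : w = 0
  · subst hw; simp
  · refine Integrable.congr ?_ (PotI_ae g hw).symm
    exact (integrable_np hg hc w⁻¹).add ((hg.integrable_of_hasCompactSupport hc).const_mul _)

theorem integrable_kk {g : ℂ → ℝ} (hg : Continuous g) (hc : HasCompactSupport g) (w : ℂ) :
    Integrable fun u => kk w u * g u := by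
  refine Integrable.congr ((integrable_np hg hc w).sub (integrable_np hg hc (-w)))
    (Eventually.of_forall fun u => ?_)
  exact (PotI_kk g w u).symm

theorem NP_add {g g' : ℂ → ℝ} (hg : Continuous g) (hc : HasCompactSupport g)
    (hg' : Continuous g') (hc' : HasCompactSupport g') (w : ℂ) :
    NP (fun u => g u + g' u) w = NP g w + NP g' w := by
  simp only [NP, mul_add]
  exact integral_add (integrable_np hg hc w) (integrable_np hg' hc' w)

theorem NP_sub {g g' : ℂ → ℝ} (hg : Continuous g) (hc : HasCompactSupport g)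
    (hg' : Continuous g') (hc' : HasCompactSupport g') (w : ℂ) :
    NP (fun u => g u - g' u) w = NP g w - NP g' w := by
  simp only [NP, mul_sub]
  exact integral_sub (integrable_np hg hc w) (integrable_np hg' hc' w)

theorem NQ_sub {g g' : ℂ → ℝ} (hg : Continuous g) (hc : HasCompactSupport g)
    (hg' : Continuous g') (hc' : HasCompactSupport g') (w : ℂ) :
    NQ (fun u => g u - g' u) w = NQ g w - NQ g' w := by
  simp only [NQ, mul_sub]
  exact integral_sub (integrable_nq hg hc w) (integrable_nq hg' hc' w)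

theorem NQ_eq {g : ℂ → ℝ} (hg : Continuous g) (hc : HasCompactSupport g) {w : ℂ} (hw : w ≠ 0) :
    NQ g w = NP g w⁻¹ + Real.log ‖w‖ * ∫ u, g u := by
  rw [NQ, integral_congr_ae (PotI_ae g hw), integral_add (integrable_np hg hc w⁻¹)
    ((hg.integrable_of_hasCompactSupport hc).const_mul _), integral_const_mul, NP]

theorem integral_kk {g : ℂ → ℝ} (hg : Continuous g) (hc : HasCompactSupport g) (w : ℂ) :
    ∫ u, kk w u * g u = NP g w - NP g (-w) := by
  simp only [PotI_kk]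
  exact integral_sub (integrable_np hg hc w) (integrable_np hg hc (-w))

theorem kk_comm (w c : ℂ) : kk w c = kk c w := by
  rw [kk, kk, norm_sub_rev, add_comm]

theorem kk_neg (w c : ℂ) : kk w (-c) = -kk w c := by
  rw [kk, kk, sub_neg_eq_add, ← sub_eq_add_neg]
  ring

theorem kk_smul {ρ : ℝ} (hρ : 0 < ρ) {w c : ℂ} (h1 : w - c ≠ 0) (h2 : w + c ≠ 0) :
    kk (ρ * w) (ρ * c) = kk w c := by
  have hρ' : ‖(ρ : ℂ)‖ ≠ 0 := by
    rw [Complex.norm_real, Real.norm_eq_abs]; exact abs_ne_zero.mpr hρ.ne'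
  rw [kk, kk, ← mul_sub, ← mul_add, norm_mul, norm_mul, Real.log_mul hρ' (norm_ne_zero_iff.mpr h1),
    Real.log_mul hρ' (norm_ne_zero_iff.mpr h2)]
  ring

theorem kk_perp (a b : ℝ) : kk (a : ℂ) (b * Complex.I) = 0 := by
  have : ‖(a : ℂ) - b * Complex.I‖ = ‖(a : ℂ) + b * Complex.I‖ := by
    rw [← Complex.norm_conj]
    simp
  rw [kk, this, sub_self]

theorem kk_small {w c : ℂ} {t : ℝ} (ht : t ≤ 1 / 2) (hw : w ≠ 0) (h : ‖c‖ ≤ t * ‖w‖) :
    |kk w c| ≤ 4 * t := by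
  have hw' : 0 < ‖w‖ := norm_pos_iff.mpr hw
  have ht0 : 0 ≤ t := by
    by_contra h0
    have := mul_neg_of_neg_of_pos (not_le.mp h0) hw'
    linarith [norm_nonneg c]
  have key : ∀ x y : ℝ, (1 - t) * ‖w‖ ≤ x → x ≤ (1 + t) * ‖w‖ → (1 - t) * ‖w‖ ≤ y →
      Real.log x - Real.log y ≤ 4 * t := by
    intro x y hx1 hx2 hy
    have hp : 0 < (1 - t) * ‖w‖ := mul_pos (by linarith) hw'
    have hx : 0 < x := hp.trans_le hx1
    have hy' : 0 < y := hp.trans_le hy
    rw [← Real.log_div hx.ne' hy'.ne']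
    refine (Real.log_le_sub_one_of_pos (div_pos hx hy')).trans ?_
    rw [sub_le_iff_le_add, div_le_iff₀ hy']
    have h3 : (1 + t) * ‖w‖ ≤ (4 * t + 1) * ((1 - t) * ‖w‖) := by
      have : 0 ≤ t * (1 - 2 * t) * ‖w‖ := mul_nonneg (mul_nonneg ht0 (by linarith)) hw'.le
      nlinarith
    have h4 : (4 * t + 1) * ((1 - t) * ‖w‖) ≤ (4 * t + 1) * y :=
      mul_le_mul_of_nonneg_left hy (by linarith)
    linarith
  have a1 : (1 - t) * ‖w‖ ≤ ‖w - c‖ := by linarith [norm_sub_norm_le w c]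
  have a2 : ‖w - c‖ ≤ (1 + t) * ‖w‖ := by linarith [norm_sub_le w c]
  have a3 : (1 - t) * ‖w‖ ≤ ‖w + c‖ := by
    have := norm_sub_norm_le w (-c)
    rw [norm_neg, sub_neg_eq_add] at this
    linarith
  have a4 : ‖w + c‖ ≤ (1 + t) * ‖w‖ := by linarith [norm_add_le w c]
  rw [kk, abs_le]
  exact ⟨by linarith [key _ _ a3 a4 a1], key _ _ a1 a2 a3⟩

end Pool.Agent.MP_4f0ed6_gt

end

section

open Set Laplacian Filter Topology MeasureTheory Metric InnerProductSpace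
open scoped ContDiff

namespace Pool.Agent.MP_4f0ed6_gt

variable {g g' : ℂ → ℝ} {Λ Λ' : ℝ}

theorem PotB_hcs (hs : ∀ u, g u ≠ 0 → ‖u‖ < 2) : HasCompactSupport g := by
  refine HasCompactSupport.intro (isCompact_closedBall (0 : ℂ) 2) fun x hx => ?_
  by_contra h0
  exact hx (by simpa using (hs x h0).le)

theorem PotB_abs {k : ℂ → ℝ} (h : Integrable fun u => k u * g u) :
    Integrable fun u => |k u| * |g u| := by
  simpa only [abs_mul] using h.abs

theorem PotB_add {k : ℂ → ℝ} (h : Integrable fun u => k u * g u)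
    (h' : Integrable fun u => k u * g' u) (h1 : ∫ u, |k u| * |g u| ≤ Λ)
    (h2 : ∫ u, |k u| * |g' u| ≤ Λ') : ∫ u, |k u| * |g u + g' u| ≤ Λ + Λ' := by
  have hi := PotB_abs h
  have hi' := PotB_abs h'
  have h3 : ∫ u, |k u| * |g u + g' u| ≤ ∫ u, (|k u| * |g u| + |k u| * |g' u|) := by
    refine integral_mono_of_nonneg (Eventually.of_forall fun u => ?_) (hi.add hi')
      (Eventually.of_forall fun u => ?_)
    · exact mul_nonneg (abs_nonneg _) (abs_nonneg _)
    · show |k u| * |g u + g' u| ≤ |k u| * |g u| + |k u| * |g' u|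
      rw [← mul_add]
      exact mul_le_mul_of_nonneg_left (abs_add_le _ _) (abs_nonneg _)
  rw [integral_add hi hi'] at h3
  linarith

theorem PotB_le {k : ℂ → ℝ} {N : ℝ} (hN : 0 ≤ N) (h : Integrable fun u => k u * g u)
    (h1 : ∫ u, |k u| * |g u| ≤ Λ) (hb : ∀ u, |g' u| ≤ N * |g u|) :
    ∫ u, |k u| * |g' u| ≤ N * Λ := by
  have hi := PotB_abs h
  have h3 : ∫ u, |k u| * |g' u| ≤ ∫ u, N * (|k u| * |g u|) := by
    refine integral_mono_of_nonneg (Eventually.of_forall fun u => ?_) (hi.const_mul N)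
      (Eventually.of_forall fun u => ?_)
    · exact mul_nonneg (abs_nonneg _) (abs_nonneg _)
    · show |k u| * |g' u| ≤ N * (|k u| * |g u|)
      have := mul_le_mul_of_nonneg_left (hb u) (abs_nonneg (k u))
      linarith
  rw [integral_const_mul] at h3
  exact h3.trans (mul_le_mul_of_nonneg_left h1 hN)

theorem PotB_int {k : ℂ → ℝ} (h1 : ∫ u, |k u| * |g u| ≤ Λ) : |∫ u, k u * g u| ≤ Λ := by
  refine le_trans abs_integral_le_integral_abs ?_
  simpa only [abs_mul] using h1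

theorem PB.hcs (h : PB g Λ) : HasCompactSupport g := PotB_hcs h.supp

theorem PB.integrable (h : PB g Λ) : Integrable g :=
  h.cont.integrable_of_hasCompactSupport h.hcs

theorem PB.nonneg (h : PB g Λ) : 0 ≤ Λ :=
  le_trans (integral_nonneg fun _ => abs_nonneg _) h.mass

theorem PB.zero : PB (fun _ => 0) 0 :=
  ⟨continuous_const, fun _ h => absurd rfl h, by simp, by simp, by simp⟩

theorem PB.mono (h : PB g Λ) (h' : Λ ≤ Λ') : PB g Λ' :=
  ⟨h.cont, h.supp, h.mass.trans h', fun w hw => (h.np w hw).trans h',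
    fun w hw => (h.nq w hw).trans h'⟩

theorem PB.add (h : PB g Λ) (h' : PB g' Λ') : PB (fun u => g u + g' u) (Λ + Λ') := by
  refine ⟨h.cont.add h'.cont, fun u hu => ?_, ?_, fun w hw => ?_, fun w hw => ?_⟩
  · by_cases h0 : g u = 0
    · exact h'.supp u (by simpa [h0] using hu)
    · exact h.supp u h0
  · have := PotB_add (k := fun _ => 1) (by simpa using h.integrable)
      (by simpa using h'.integrable) (by simpa using h.mass) (by simpa using h'.mass)
    simpa using this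
  · exact PotB_add (integrable_np h.cont h.hcs w) (integrable_np h'.cont h'.hcs w)
      (h.np w hw) (h'.np w hw)
  · exact PotB_add (integrable_nq h.cont h.hcs w) (integrable_nq h'.cont h'.hcs w)
      (h.nq w hw) (h'.nq w hw)

theorem PotB_of_le (h : PB g Λ) {N : ℝ} (hN : 0 ≤ N) (hc : Continuous g')
    (hb : ∀ u, |g' u| ≤ N * |g u|) : PB g' (N * Λ) := by
  refine ⟨hc, fun u hu => ?_, ?_, fun w hw => ?_, fun w hw => ?_⟩
  · refine h.supp u fun h0 => hu ?_
    have := hb u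
    rw [h0, abs_zero, mul_zero] at this
    exact abs_nonpos_iff.mp this
  · have := PotB_le (k := fun _ => 1) hN (by simpa using h.integrable)
      (by simpa using h.mass) hb
    simpa using this
  · exact PotB_le hN (integrable_np h.cont h.hcs w) (h.np w hw) hb
  · exact PotB_le hN (integrable_nq h.cont h.hcs w) (h.nq w hw) hb

theorem PB.const_mul (h : PB g Λ) (c : ℝ) : PB (fun u => c * g u) (|c| * Λ) :=
  PotB_of_le h (abs_nonneg c) (continuous_const.mul h.cont) fun u => (abs_mul c (g u)).le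

theorem PB.sum {ι : Type} (s : Finset ι) {f : ι → ℂ → ℝ} {L : ι → ℝ}
    (h : ∀ i ∈ s, PB (f i) (L i)) : PB (fun u => ∑ i ∈ s, f i u) (∑ i ∈ s, L i) := by
  classical
  induction s using Finset.induction_on with
  | empty => simpa using PB.zero
  | insert a s ha ih =>
    simp only [Finset.sum_insert ha]
    exact (h a (Finset.mem_insert_self _ _)).add
      (ih fun i hi => h i (Finset.mem_insert_of_mem hi))

theorem PB.of_le (h : PB g Λ) {N : ℝ} (hN : 0 ≤ N) (hc : Continuous g')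
    (hb : ∀ u, |g' u| ≤ N * |g u|) : PB g' (N * Λ) :=
  PotB_of_le h hN hc hb

theorem PB.abs_int (h : PB g Λ) : |∫ u, g u| ≤ Λ :=
  le_trans abs_integral_le_integral_abs h.mass

theorem PB.abs_NP (h : PB g Λ) {w : ℂ} (hw : ‖w‖ ≤ 2) : |NP g w| ≤ Λ :=
  PotB_int (h.np w hw)

theorem PB.abs_NQ (h : PB g Λ) {w : ℂ} (hw : ‖w‖ ≤ 2) : |NQ g w| ≤ Λ :=
  PotB_int (h.nq w hw)

theorem PB.abs_kk (h : PB g Λ) {w : ℂ} (hw : ‖w‖ ≤ 2) : |∫ u, kk w u * g u| ≤ 2 * Λ := by
  rw [integral_kk h.cont h.hcs]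
  have h1 := h.abs_NP hw
  have h2 := h.abs_NP (w := -w) (by simpa using hw)
  have h3 := abs_sub (NP g w) (NP g (-w))
  linarith

theorem abs_integral_mul_le {φ : ℂ → ℝ} {m N : ℝ} (hg : Integrable g) (hN : 0 ≤ N)
    (hm : ∫ u, |g u| ≤ m) (hφ : ∀ u, g u ≠ 0 → |φ u| ≤ N) : |∫ u, g u * φ u| ≤ m * N := by
  have h1 : ‖∫ u, g u * φ u‖ ≤ ∫ u, |g u| * N := by
    refine norm_integral_le_of_norm_le (hg.abs.mul_const N) (Eventually.of_forall fun u => ?_)
    rw [Real.norm_eq_abs, abs_mul]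
    by_cases h0 : g u = 0
    · simp [h0]
    · exact mul_le_mul_of_nonneg_left (hφ u h0) (abs_nonneg _)
  rw [integral_mul_const, Real.norm_eq_abs] at h1
  exact h1.trans (mul_le_mul_of_nonneg_right hm hN)

end Pool.Agent.MP_4f0ed6_gt

end

section

open Set Laplacian Filter Topology MeasureTheory Metric InnerProductSpace
open scoped ContDiff

namespace Pool.Agent.MP_4f0ed6_gt

theorem PotS_abslog {x : ℝ} (h0 : 0 ≤ x) : |Real.log x| ≤ x + x⁻¹ := by
  have h2 : 0 ≤ x⁻¹ := inv_nonneg.mpr h0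
  rw [abs_le]
  constructor
  · have := Real.log_le_self h2
    rw [Real.log_inv] at this
    linarith
  · have := Real.log_le_self h0
    linarith

theorem PotS_half {z : ℂ} (hz : ‖z‖ ≤ 1 / 2) : |Real.log ‖1 - z‖| ≤ 4 := by
  have h1 : 1 / 2 ≤ ‖1 - z‖ := by
    have := norm_sub_norm_le (1 : ℂ) z
    rw [norm_one] at this
    linarith
  have h2 : ‖1 - z‖ ≤ 2 := by
    have := norm_sub_le (1 : ℂ) z
    rw [norm_one] at this
    linarith
  have h3 : ‖1 - z‖⁻¹ ≤ 2 := by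
    rw [inv_le_comm₀ (by linarith) (by norm_num)]
    linarith
  linarith [PotS_abslog (norm_nonneg (1 - z))]

theorem PotS_dom {g F H : ℂ → ℝ} {A B : ℝ} (hs : ∀ u, g u ≠ 0 → ‖u‖ ≤ 2)
    (hb : ∀ u, |g u| ≤ A) (hF0 : ∀ u, 0 ≤ F u) (hH : Integrable H) (hH0 : ∀ u, 0 ≤ H u)
    (hFH : ∀ᵐ u : ℂ, ‖u‖ ≤ 2 → F u ≤ H u) (hB : ∫ u, H u ≤ B) :
    ∫ u, F u * |g u| ≤ B * A := by
  have hA : 0 ≤ A := (abs_nonneg _).trans (hb 0)
  have h1 : ∫ u, F u * |g u| ≤ ∫ u, H u * A := by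
    refine integral_mono_of_nonneg (Eventually.of_forall fun u => ?_) (hH.mul_const A) ?_
    · exact mul_nonneg (hF0 u) (abs_nonneg _)
    · filter_upwards [hFH] with u hu
      by_cases h : g u = 0
      · rw [h, abs_zero, mul_zero]
        exact mul_nonneg (hH0 u) hA
      · exact mul_le_mul (hu (hs u h)) (hb u) (abs_nonneg _) (hH0 u)
  rw [integral_mul_const] at h1
  exact h1.trans (mul_le_mul_of_nonneg_right hB hA)

theorem PotS_ind_int : Integrable ((closedBall (0 : ℂ) 2).indicator fun _ => (1 : ℝ)) :=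
  (integrable_indicator_iff measurableSet_closedBall).mpr
    (integrableOn_const (isCompact_closedBall _ _).measure_lt_top.ne)

theorem PotS_area : ∫ u, (closedBall (0 : ℂ) 2).indicator (fun _ => (1 : ℝ)) u ≤ 13 := by
  rw [integral_indicator measurableSet_closedBall, setIntegral_const, smul_eq_mul, mul_one,
    Measure.real, Complex.volume_closedBall]
  have := Real.pi_lt_d2
  simp only [ENNReal.toReal_mul, ENNReal.toReal_pow, ENNReal.coe_toReal, NNReal.coe_real_pi]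
  rw [ENNReal.toReal_ofReal (by norm_num)]
  linarith

theorem PotS_inv_int : Integrable ((closedBall (0 : ℂ) 6).indicator fun u => ‖u‖⁻¹) :=
  (integrable_indicator_iff measurableSet_closedBall).mpr
    (locInt_inv.integrableOn_isCompact (isCompact_closedBall _ _))

theorem PotS_inv6 : ∫ u, (closedBall (0 : ℂ) 6).indicator (fun u => ‖u‖⁻¹) u ≤ 38 := by
  have h := integral_fun_norm_addHaar (volume : Measure ℂ)
    ((Iic (6 : ℝ)).indicator fun y => y⁻¹)
  have e : (fun u : ℂ => (closedBall (0 : ℂ) 6).indicator (fun u => ‖u‖⁻¹) u) =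
      fun u : ℂ => (Iic (6 : ℝ)).indicator (fun y => y⁻¹) ‖u‖ := by
    funext u
    by_cases hu : ‖u‖ ≤ 6
    · rw [indicator_of_mem (by simpa using hu), indicator_of_mem (by simpa using hu)]
    · rw [indicator_of_notMem (by simpa using hu), indicator_of_notMem (by simpa using hu)]
  rw [e, h]
  have e2 : ∫ y in Ioi (0 : ℝ), y ^ (Module.finrank ℝ ℂ - 1) •
      (Iic (6 : ℝ)).indicator (fun y => y⁻¹) y = 6 := by
    have : ∫ y in Ioi (0 : ℝ), y ^ (Module.finrank ℝ ℂ - 1) •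
        (Iic (6 : ℝ)).indicator (fun y => y⁻¹) y =
        ∫ y in Ioi (0 : ℝ), (Iic (6 : ℝ)).indicator (fun _ => (1 : ℝ)) y := by
      refine setIntegral_congr_fun measurableSet_Ioi fun y hy => ?_
      have hy' : y ≠ 0 := ne_of_gt hy
      by_cases h6 : y ≤ 6
      · simp [indicator_of_mem (mem_Iic.mpr h6), hy']
      · simp [indicator_of_notMem (fun h => h6 (mem_Iic.mp h))]
    rw [this, setIntegral_indicator measurableSet_Iic, Ioi_inter_Iic, setIntegral_const]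
    simp
  rw [e2, Measure.real, Complex.volume_ball]
  have := Real.pi_lt_d2
  simp only [ENNReal.toReal_mul, ENNReal.toReal_pow, ENNReal.coe_toReal, NNReal.coe_real_pi,
    Complex.finrank_real_complex, ENNReal.ofReal_one, ENNReal.toReal_one, smul_eq_mul,
    nsmul_eq_mul]
  norm_num
  linarith

theorem PotS_main {g F : ℂ → ℝ} {A c : ℝ} (a : ℂ) (hc0 : 0 ≤ c) (ha : ‖a‖ ≤ 4)
    (hs : ∀ u, g u ≠ 0 → ‖u‖ ≤ 2) (hb : ∀ u, |g u| ≤ A) (hF0 : ∀ u, 0 ≤ F u)
    (hF : ∀ u, u ≠ a → ‖u‖ ≤ 2 → F u ≤ c + ‖a - u‖⁻¹) :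
    ∫ u, F u * |g u| ≤ (13 * c + 38) * A := by
  have i1 := PotS_ind_int.const_mul c
  have i2 := PotS_inv_int.comp_sub_left a
  refine PotS_dom (H := fun u => c * (closedBall (0 : ℂ) 2).indicator (fun _ => (1 : ℝ)) u +
    (closedBall (0 : ℂ) 6).indicator (fun u => ‖u‖⁻¹) (a - u)) hs hb hF0 (i1.add i2)
    (fun u => ?_) ?_ ?_
  · exact add_nonneg (mul_nonneg hc0 (indicator_nonneg (fun _ _ => zero_le_one) _))
      (indicator_nonneg (fun _ _ => inv_nonneg.mpr (norm_nonneg _)) _)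
  · have h0 : ∀ᵐ u : ℂ, u ≠ a := by simp [ae_iff]
    filter_upwards [h0] with u hu h2
    have h6 : ‖a - u‖ ≤ 6 := by linarith [norm_sub_le a u]
    rw [indicator_of_mem (by simpa using h2), indicator_of_mem (by simpa using h6), mul_one]
    exact hF u hu h2
  · rw [integral_add i1 i2, integral_const_mul,
      integral_sub_left_eq_self ((closedBall (0 : ℂ) 6).indicator fun u => ‖u‖⁻¹) volume a]
    have := mul_le_mul_of_nonneg_left PotS_area hc0
    linarith [PotS_inv6]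

theorem PotS_mass {g : ℂ → ℝ} {A : ℝ} (hs : ∀ u, g u ≠ 0 → ‖u‖ ≤ 2)
    (hb : ∀ u, |g u| ≤ A) : ∫ u, |g u| ≤ 13 * A := by
  have := PotS_dom (F := fun _ => 1) hs hb (fun _ => zero_le_one) PotS_ind_int
    (fun u => indicator_nonneg (fun _ _ => zero_le_one) _)
    (Eventually.of_forall fun u hu => by rw [indicator_of_mem (by simpa using hu)]) PotS_area
  simpa using this

theorem PotS_abs_scl (ρ : ℝ) (g : ℂ → ℝ) (u : ℂ) :
    |scl ρ g u| = scl ρ (fun z => |g z|) u := by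
  rw [scl, scl, abs_mul, abs_of_nonneg (inv_nonneg.mpr (sq_nonneg ρ))]

theorem PB.of_bdd {g : ℂ → ℝ} {τ : ℝ} (hc : Continuous g) (hs : ∀ u, g u ≠ 0 → ‖u‖ < 2)
    (hb : ∀ u, |g u| ≤ τ) : PB g (1000 * τ) := by
  have hA : 0 ≤ τ := (abs_nonneg _).trans (hb 0)
  have hs' : ∀ u, g u ≠ 0 → ‖u‖ ≤ 2 := fun u hu => (hs u hu).le
  refine ⟨hc, hs, by linarith [PotS_mass hs' hb], fun w hw => ?_, fun w hw => ?_⟩
  · have := PotS_main (F := fun u => |Real.log ‖w - u‖|) (c := 4) w (by norm_num) (by linarith)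
      hs' hb (fun _ => abs_nonneg _) fun u _ hu => by
        linarith [PotS_abslog (norm_nonneg (w - u)), norm_sub_le w u]
    linarith
  · by_cases h4 : ‖w‖ ≤ 1 / 4
    · have := PotS_main (F := fun u => |Real.log ‖1 - u * w‖|) (c := 4) 0 (by norm_num)
        (by simp) hs' hb (fun _ => abs_nonneg _) fun u _ hu => by
          have h1 : ‖u * w‖ ≤ 1 / 2 := by
            rw [norm_mul]
            nlinarith [norm_nonneg u, norm_nonneg w]
          have := inv_nonneg.mpr (norm_nonneg (0 - u))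
          linarith [PotS_half h1]
      linarith
    · rw [not_le] at h4
      have hw0 : w ≠ 0 := by
        rintro rfl
        rw [norm_zero] at h4
        linarith
      have hi : ‖w‖⁻¹ ≤ 4 := by
        rw [inv_le_comm₀ (by linarith) (by norm_num)]
        linarith
      have hi' : ‖w⁻¹‖ ≤ 4 := by rwa [norm_inv]
      have := PotS_main (F := fun u => |Real.log ‖1 - u * w‖|) (c := 12) w⁻¹ (by norm_num)
        hi' hs' hb (fun _ => abs_nonneg _) fun u hne hu => by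
          have e : 1 - u * w = (w⁻¹ - u) * w := by field_simp
          rw [e, norm_mul, Real.log_mul (norm_ne_zero_iff.mpr (sub_ne_zero.mpr hne.symm))
            (norm_ne_zero_iff.mpr hw0)]
          have := abs_add_le (Real.log ‖w⁻¹ - u‖) (Real.log ‖w‖)
          linarith [PotS_abslog (norm_nonneg (w⁻¹ - u)), PotS_abslog (norm_nonneg w),
            norm_sub_le w⁻¹ u]
      linarith

theorem integral_scl {ρ : ℝ} (hρ : 0 < ρ) (F g : ℂ → ℝ) :
    ∫ u, F u * scl ρ g u = ∫ u, F (ρ * u) * g u := by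
  have h := Measure.integral_comp_smul (volume : Measure ℂ) (fun u => F u * g (u / ρ)) ρ
  have hρ' : (ρ : ℂ) ≠ 0 := by exact_mod_cast hρ.ne'
  have e : (fun x : ℂ => F (ρ • x) * g (ρ • x / ρ)) = fun x => F (ρ * x) * g x := by
    funext x
    rw [Complex.real_smul, mul_div_cancel_left₀ _ hρ']
  rw [e, Complex.finrank_real_complex, abs_of_nonneg (inv_nonneg.mpr (sq_nonneg ρ)),
    smul_eq_mul, ← integral_const_mul] at h
  rw [h]
  refine integral_congr_ae (Eventually.of_forall fun u => ?_)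
  simp only [scl]
  ring

theorem integral_abs_le {g : ℂ → ℝ} {A : ℝ} (hs : ∀ u, g u ≠ 0 → ‖u‖ ≤ 2)
    (hb : ∀ u, |g u| ≤ A) : ∫ u, |g u| ≤ 13 * A := by
  exact PotS_mass hs hb

theorem PB.of_scl {g : ℂ → ℝ} {A ρ : ℝ} (hc : Continuous g) (hs : ∀ u, g u ≠ 0 → ‖u‖ ≤ 2)
    (hb : ∀ u, |g u| ≤ A) (hρ : 0 < ρ) (hρ' : ρ ≤ 1 / 8) :
    PB (scl ρ g) (1000 * A * (1 + |Real.log ρ|)) := by
  have hA : 0 ≤ A := (abs_nonneg _).trans (hb 0)
  have hl : 0 ≤ |Real.log ρ| := abs_nonneg _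
  have hAl : 0 ≤ A * |Real.log ρ| := mul_nonneg hA hl
  have hρc : (ρ : ℂ) ≠ 0 := by exact_mod_cast hρ.ne'
  have hn : ‖(ρ : ℂ)‖ = ρ := by rw [Complex.norm_real, Real.norm_eq_abs, abs_of_pos hρ]
  refine ⟨?_, fun u hu => ?_, ?_, fun w hw => ?_, fun w hw => ?_⟩
  · exact continuous_const.mul (hc.comp (continuous_id.div_const _))
  · have h1 := hs _ (right_ne_zero_of_mul hu)
    rw [norm_div, hn, div_le_iff₀ hρ] at h1
    linarith
  · have h1 := integral_scl hρ (fun _ => 1) fun z => |g z|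
    simp only [one_mul] at h1
    simp only [PotS_abs_scl]
    rw [h1]
    nlinarith [PotS_mass hs hb]
  · simp only [PotS_abs_scl]
    rw [integral_scl hρ (fun u => |Real.log ‖w - u‖|) fun z => |g z|]
    by_cases h4 : ‖w‖ ≤ 4 * ρ
    · have ha : ‖w / ρ‖ ≤ 4 := by rwa [norm_div, hn, div_le_iff₀ hρ]
      have := PotS_main (F := fun u => |Real.log ‖w - ρ * u‖|) (c := 6 + |Real.log ρ|) (w / ρ)
        (by linarith) ha hs hb (fun _ => abs_nonneg _) fun u hne hu => by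
          have e : w - ρ * u = ρ * (w / ρ - u) := by field_simp
          rw [e, norm_mul, hn, Real.log_mul hρ.ne'
            (norm_ne_zero_iff.mpr (sub_ne_zero.mpr hne.symm))]
          have := abs_add_le (Real.log ρ) (Real.log ‖w / ρ - u‖)
          linarith [PotS_abslog (norm_nonneg (w / ρ - u)), norm_sub_le (w / ρ) u]
      nlinarith
    · rw [not_le] at h4
      have := PotS_main (F := fun u => |Real.log ‖w - ρ * u‖|) (c := 3 + |Real.log ρ|) 0
        (by linarith) (by simp) hs hb (fun _ => abs_nonneg _) fun u _ hu => by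
          have h1 : ‖(ρ : ℂ) * u‖ ≤ 2 * ρ := by
            rw [norm_mul, hn]
            nlinarith
          have h2 : ρ ≤ ‖w - ρ * u‖ := by linarith [norm_sub_norm_le w (ρ * u)]
          have h3 : ‖w - ρ * u‖ ≤ 3 := by linarith [norm_sub_le w (ρ * u)]
          have h5 := Real.log_le_log hρ h2
          have h6 := Real.log_le_self (norm_nonneg (w - ρ * u))
          have h7 := neg_abs_le (Real.log ρ)
          have h8 := inv_nonneg.mpr (norm_nonneg (0 - u))
          rw [abs_le]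
          constructor <;> linarith
      nlinarith
  · simp only [PotS_abs_scl]
    rw [integral_scl hρ (fun u => |Real.log ‖1 - u * w‖|) fun z => |g z|]
    have := PotS_main (F := fun u => |Real.log ‖1 - ρ * u * w‖|) (c := 4) 0 (by norm_num)
      (by simp) hs hb (fun _ => abs_nonneg _) fun u _ hu => by
        have h1 : ‖(ρ : ℂ) * u * w‖ ≤ 1 / 2 := by
          rw [norm_mul, norm_mul, hn]
          have h2 : ρ * ‖u‖ ≤ 1 / 4 := by nlinarith [norm_nonneg u]
          have h3 : 0 ≤ ρ * ‖u‖ := mul_nonneg hρ.le (norm_nonneg u)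
          nlinarith [norm_nonneg w]
        have := inv_nonneg.mpr (norm_nonneg (0 - u))
        linarith [PotS_half h1]
    nlinarith

theorem scl_smooth {k : WithTop ℕ∞} {g : ℂ → ℝ} (hg : ContDiff ℝ k g) (ρ : ℝ) :
    ContDiff ℝ k (scl ρ g) := by
  have h1 : ContDiff ℝ k fun u : ℂ => u / (ρ : ℂ) := contDiff_id.div_const _
  exact contDiff_const.mul (hg.comp h1)

theorem scl_ne {g : ℂ → ℝ} {ρ : ℝ} (hρ : 0 < ρ) {w : ℂ} (h : scl ρ g w ≠ 0) :
    ∃ u, g u ≠ 0 ∧ w = ρ * u := by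
  have hρc : (ρ : ℂ) ≠ 0 := by exact_mod_cast hρ.ne'
  exact ⟨w / ρ, right_ne_zero_of_mul h, by field_simp⟩

end Pool.Agent.MP_4f0ed6_gt

end

section

open Set Laplacian Filter Topology MeasureTheory Metric InnerProductSpace
open scoped ContDiff

namespace Pool.Agent.MP_4f0ed6_gt

/-- a point of the standard shell lying on an axis -/
def OnAx (y : ℂ) : Prop := 1 ≤ ‖y‖ ∧ ‖y‖ ≤ 2 ∧ (y.re = 0 ∨ y.im = 0)

variable {I : Type} [Fintype I] {ρ α : I → ℝ} {y : I → ℂ} {ν F : ℂ → ℝ} {ϖ A Λ M a E : ℝ}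

theorem Shell1_kk {r r' ϖ : ℝ} (hr : 0 < r) (hr' : 0 < r') (h : r ≤ ϖ * r' ∨ r' ≤ ϖ * r)
    (hϖ : ϖ ≤ 1 / 4) (hϖ0 : 0 ≤ ϖ) {w c : ℂ} (hw : 1 ≤ ‖w‖ ∧ ‖w‖ ≤ 2) (hc : 1 ≤ ‖c‖ ∧ ‖c‖ ≤ 2) :
    |kk (r * w) (r' * c)| ≤ 8 * ϖ := by
  have key : ∀ {r r' : ℝ} {w c : ℂ}, 0 < r → 0 < r' → r' ≤ ϖ * r → 1 ≤ ‖w‖ → ‖c‖ ≤ 2 →
      |kk (r * w) (r' * c)| ≤ 8 * ϖ := fun {r r' w c} hr hr' h hw hc => by
    have h0 : (r : ℂ) * w ≠ 0 := mul_ne_zero (by exact_mod_cast hr.ne')
      (norm_pos_iff.1 (by linarith))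
    have := kk_small (t := 2 * ϖ) (c := r' * c) (by linarith) h0 (by
      rw [norm_mul, norm_mul, Complex.norm_real, Complex.norm_real, Real.norm_of_nonneg hr.le,
        Real.norm_of_nonneg hr'.le]
      have h1 : r' * ‖c‖ ≤ r' * 2 := mul_le_mul_of_nonneg_left hc hr'.le
      have h2 : ϖ * r * 1 ≤ ϖ * r * ‖w‖ := mul_le_mul_of_nonneg_left hw (mul_nonneg hϖ0 hr.le)
      nlinarith)
    linarith
  rcases h with h | h
  · rw [kk_comm]; exact key hr' hr h hc.1 hw.2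
  · exact key hr hr' h hw.1 hc.2

theorem Shell1_hcs {g : ℂ → ℝ} {R : ℝ} (h : ∀ u, g u ≠ 0 → ‖u‖ ≤ R) : HasCompactSupport g :=
  HasCompactSupport.intro (isCompact_closedBall (0 : ℂ) R) fun u hu => by
    by_contra h0
    exact hu (mem_closedBall_zero_iff.2 (h u h0))

theorem shell_loc (hρ : ∀ i, 0 < ρ i ∧ ρ i ≤ 1 / 8)
    (hsep : ∀ i i', i ≠ i' → ρ i ≤ ϖ * ρ i' ∨ ρ i' ≤ ϖ * ρ i) (hϖ0 : 0 ≤ ϖ) (hϖ : ϖ ≤ 1 / 4)
    (hν : Continuous ν) (hs : ∀ u, ν u ≠ 0 → 1 ≤ ‖u‖ ∧ ‖u‖ ≤ 2) (hA : ∀ u, |ν u| ≤ A)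
    (hM : 0 ≤ M) (hα : ∀ i, |α i| ≤ a) (hy : ∀ i, 1 ≤ ‖y i‖ ∧ ‖y i‖ ≤ 2) (hF : Continuous F)
    (hE0 : 0 ≤ E) (hE : ∀ i u, ν u ≠ 0 → |F (ρ i * u)| ≤ E) (i : I) {w : ℂ}
    (hw : 1 ≤ ‖w‖ ∧ ‖w‖ ≤ 2) :
    |(∑ i', α i' * kk (ρ i * w) (ρ i' * y i') +
        1 / 2 * ∫ z, kk (ρ i * w) z * (M * (∑ i', scl (ρ i') ν z) * F z)) -
      (α i * kk (ρ i * w) (ρ i * y i) +
        M / 2 * ∫ z, kk (ρ i * w) z * (scl (ρ i) ν z * F z))| ≤
      8 * ϖ * Fintype.card I * a + 52 * ϖ * M * Fintype.card I * A * E := by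
  classical
  have hA0 : 0 ≤ A := (abs_nonneg _).trans (hA 0)
  have ha0 : 0 ≤ a := (abs_nonneg _).trans (hα i)
  have hint : ∀ j, Integrable fun z => kk (ρ i * w) z * (scl (ρ j) ν z * F z) := fun j => by
    refine integrable_kk (((scl_smooth (k := 0) (contDiff_zero.2 hν) _).continuous).mul hF)
      (Shell1_hcs (R := 2) fun u hu => ?_) _
    obtain ⟨v, hv, rfl⟩ := scl_ne (hρ j).1 (left_ne_zero_of_mul hu)
    rw [norm_mul, Complex.norm_real, Real.norm_of_nonneg (hρ j).1.le]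
    have := (hs v hv).2
    have h1 := hρ j
    nlinarith [norm_nonneg v]
  have hνi : Integrable ν :=
    hν.integrable_of_hasCompactSupport (Shell1_hcs (R := 2) fun u hu => (hs u hu).2)
  have e1 : ∫ z, kk (ρ i * w) z * (M * (∑ i', scl (ρ i') ν z) * F z) =
      M * ∑ j, ∫ z, kk (ρ i * w) z * (scl (ρ j) ν z * F z) := by
    rw [← integral_finset_sum _ fun j _ => hint j, ← integral_const_mul]
    congr 1
    funext z
    rw [← Finset.mul_sum, ← Finset.sum_mul]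
    ring
  have b1 : ∀ j ∈ Finset.univ.erase i, |α j * kk (ρ i * w) (ρ j * y j)| ≤ a * (8 * ϖ) :=
    fun j hj => by
      rw [abs_mul]
      exact mul_le_mul (hα j) (Shell1_kk (hρ i).1 (hρ j).1
        (hsep i j (Finset.ne_of_mem_erase hj).symm) hϖ hϖ0 hw (hy j)) (abs_nonneg _) ha0
  have b2 : ∀ j ∈ Finset.univ.erase i,
      |∫ z, kk (ρ i * w) z * (scl (ρ j) ν z * F z)| ≤ 13 * A * (8 * ϖ * E) := fun j hj => by
    have e : ∫ z, kk (ρ i * w) z * (scl (ρ j) ν z * F z) =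
        ∫ u, ν u * (kk (ρ i * w) (ρ j * u) * F (ρ j * u)) := by
      have := integral_scl (hρ j).1 (fun z => kk (ρ i * w) z * F z) ν
      simp only [mul_comm (ν _)]
      rw [← this]
      congr 1
      funext z
      ring
    rw [e]
    refine abs_integral_mul_le hνi (mul_nonneg (by linarith) hE0)
      (integral_abs_le (fun u hu => (hs u hu).2) hA) fun u hu => ?_
    rw [abs_mul]
    exact mul_le_mul (Shell1_kk (hρ i).1 (hρ j).1
      (hsep i j (Finset.ne_of_mem_erase hj).symm) hϖ hϖ0 hw (hs u hu)) (hE j u hu)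
      (abs_nonneg _) (by linarith)
  have hc : ((Finset.univ.erase i).card : ℝ) ≤ Fintype.card I := by
    exact_mod_cast Finset.card_le_univ _
  have c1 := (Finset.abs_sum_le_sum_abs _ _).trans (Finset.sum_le_card_nsmul _ _ _ b1)
  have c2 := (Finset.abs_sum_le_sum_abs _ _).trans (Finset.sum_le_card_nsmul _ _ _ b2)
  rw [nsmul_eq_mul] at c1 c2
  have c1' := c1.trans (mul_le_mul_of_nonneg_right hc (mul_nonneg ha0 (by linarith)))
  have c2' := c2.trans (mul_le_mul_of_nonneg_right hc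
    (mul_nonneg (by linarith) (mul_nonneg (by linarith) hE0)))
  rw [e1, ← Finset.add_sum_erase _ _ (Finset.mem_univ i),
    ← Finset.add_sum_erase _ _ (Finset.mem_univ i)]
  set S1 := ∑ j ∈ Finset.univ.erase i, α j * kk (ρ i * w) (ρ j * y j)
  set S2 := ∑ j ∈ Finset.univ.erase i, ∫ z, kk (ρ i * w) z * (scl (ρ j) ν z * F z)
  have e2 : ∀ p q : ℝ, p + S1 + 1 / 2 * (M * (q + S2)) - (p + M / 2 * q) = S1 + M / 2 * S2 :=
    fun p q => by ring
  rw [e2]
  refine (abs_add_le _ _).trans ?_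
  rw [abs_mul, abs_of_nonneg (by linarith : 0 ≤ M / 2)]
  have := mul_le_mul_of_nonneg_left c2' (by linarith : 0 ≤ M / 2)
  nlinarith

end Pool.Agent.MP_4f0ed6_gt

end

section

open Set Laplacian Filter Topology MeasureTheory Metric InnerProductSpace
open scoped ContDiff

namespace Pool.Agent.MP_4f0ed6_gt

variable {I : Type} [Fintype I] {ρ α : I → ℝ} {y : I → ℂ} {ν F : ℂ → ℝ} {ϖ A Λ M a E : ℝ}

theorem Shell_dist {y u : ℂ} (hy : OnAx y)
    (hu : 3 / 4 ≤ |u.re| ∧ 3 / 4 ≤ |u.im| ∧ 1 ≤ ‖u‖ ∧ ‖u‖ ≤ 2) :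
    (3 / 4 ≤ ‖y - u‖ ∧ ‖y - u‖ ≤ 4) ∧ (3 / 4 ≤ ‖y + u‖ ∧ ‖y + u‖ ≤ 4) := by
  obtain ⟨-, h2, h3⟩ := hy
  obtain ⟨u1, u2, -, u4⟩ := hu
  have a1 := norm_sub_le y u
  have a2 := norm_add_le y u
  have b1 := Complex.abs_re_le_norm (y - u)
  have b2 := Complex.abs_im_le_norm (y - u)
  have b3 := Complex.abs_re_le_norm (y + u)
  have b4 := Complex.abs_im_le_norm (y + u)
  rcases h3 with h3 | h3
  · simp only [Complex.sub_re, Complex.add_re, h3, zero_sub, zero_add, abs_neg] at b1 b3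
    exact ⟨⟨by linarith, by linarith⟩, by linarith, by linarith⟩
  · simp only [Complex.sub_im, Complex.add_im, h3, zero_sub, zero_add, abs_neg] at b2 b4
    exact ⟨⟨by linarith, by linarith⟩, by linarith, by linarith⟩

theorem Shell_log {s t : ℝ} (hs : 3 / 4 ≤ s) (ht : t ≤ 4) (ht0 : 0 < t) :
    Real.log t - Real.log s ≤ 2 := by
  have h1 : Real.log t ≤ Real.log 4 := Real.log_le_log ht0 ht
  have h2 : Real.log (3 / 4) ≤ Real.log s := Real.log_le_log (by norm_num) hs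
  have h3 : Real.log 4 = 2 * Real.log 2 := by
    rw [show (4 : ℝ) = 2 ^ 2 by norm_num, Real.log_pow]; norm_num
  have h4 := Real.log_two_lt_d9
  have h5 := Real.one_sub_inv_le_log_of_pos (show (0 : ℝ) < 3 / 4 by norm_num)
  norm_num at h5
  linarith

theorem Shell_kk {y u : ℂ} (hy : OnAx y)
    (hu : 3 / 4 ≤ |u.re| ∧ 3 / 4 ≤ |u.im| ∧ 1 ≤ ‖u‖ ∧ ‖u‖ ≤ 2) : |kk y u| ≤ 2 := by
  obtain ⟨⟨a1, a2⟩, a3, a4⟩ := Shell_dist hy hu
  have b1 := Shell_log a1 a4 (by linarith)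
  have b2 := Shell_log a3 a2 (by linarith)
  unfold kk
  rw [abs_le]
  constructor <;> linarith

theorem Shell_smul {y u : ℂ} {r : ℝ} (hr : 0 < r) (hy : OnAx y)
    (hu : 3 / 4 ≤ |u.re| ∧ 3 / 4 ≤ |u.im| ∧ 1 ≤ ‖u‖ ∧ ‖u‖ ≤ 2) :
    kk (r * y) (r * u) = kk y u := by
  obtain ⟨⟨a1, -⟩, a3, -⟩ := Shell_dist hy hu
  apply kk_smul hr
  · intro h; rw [h, norm_zero] at a1; linarith
  · intro h; rw [h, norm_zero] at a3; linarith

theorem Shell_meas (y : ℂ) : Measurable fun u => kk y u := by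
  unfold kk
  exact (Real.measurable_log.comp (measurable_const.sub measurable_id).norm).sub
    (Real.measurable_log.comp (measurable_const.add measurable_id).norm)

theorem Shell_int {φ : ℂ → ℝ} {N : ℝ} (hν : Continuous ν) (hs : ∀ u, ν u ≠ 0 → ‖u‖ ≤ 2)
    (hφ : Measurable φ) (hN : ∀ u, ν u ≠ 0 → |φ u| ≤ N) : Integrable fun u => φ u * ν u := by
  have hc : HasCompactSupport ν := by
    apply HasCompactSupport.intro (isCompact_closedBall (0 : ℂ) 2)
    intro x hx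
    by_contra h0
    exact hx (by simpa using hs x h0)
  have hi : Integrable ν := hν.integrable_of_hasCompactSupport hc
  refine Integrable.mono' (hi.norm.const_mul N) (hφ.mul hν.measurable).aestronglyMeasurable
    (Eventually.of_forall fun u => ?_)
  by_cases h0 : ν u = 0
  · simp [h0]
  · rw [norm_mul]
    exact mul_le_mul_of_nonneg_right (hN u h0) (norm_nonneg _)

theorem Shell_bd {φ : ℂ → ℝ} {N : ℝ} (hs : ∀ u, ν u ≠ 0 → ‖u‖ ≤ 2) (hA : ∀ u, |ν u| ≤ A)
    (hN0 : 0 ≤ N) (hN : ∀ u, ν u ≠ 0 → |φ u| ≤ N) : |∫ u, φ u * ν u| ≤ 13 * (N * A) := by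
  have hA0 : 0 ≤ A := (abs_nonneg _).trans (hA 0)
  refine abs_integral_le_integral_abs.trans (integral_abs_le (g := fun u => φ u * ν u) ?_ ?_)
  · intro u hu
    exact hs u (right_ne_zero_of_mul hu)
  · intro u
    by_cases h0 : ν u = 0
    · simp only [h0, mul_zero, abs_zero]
      positivity
    · rw [abs_mul]
      exact mul_le_mul (hN u h0) (hA u) (abs_nonneg _) hN0

theorem shell_in {r c ζ : ℝ} {y₀ y₁ : ℂ} (hr : 0 < r ∧ r ≤ 1 / 8) (hν : Continuous ν)
    (hs : ∀ u, ν u ≠ 0 → 3 / 4 ≤ |u.re| ∧ 3 / 4 ≤ |u.im| ∧ 1 ≤ ‖u‖ ∧ ‖u‖ ≤ 2)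
    (hA : ∀ u, |ν u| ≤ A) (hΛ : PB (scl r ν) Λ) (hM : 0 ≤ M) (hMΛ : 2 * M * Λ ≤ 1)
    (hMA : 26 * M * A ≤ 1) (hy₀ : OnAx y₀) (hy₁ : OnAx y₁) (hF : Continuous F)
    (h : ∀ u, ν u ≠ 0 → |F (r * u) + c * kk (r * u) (r * y₁) +
      M / 2 * ∫ z, kk (r * u) z * (scl r ν z * F z)| ≤ ζ) (hζ : 0 ≤ ζ) :
    |M / 2 * (∫ z, kk (r * y₀) z * (scl r ν z * F z)) +
      M / 2 * c * ∫ u, kk y₀ u * kk u y₁ * ν u| ≤ 52 * M ^ 2 * Λ * A * |c| + ζ := by
  have hΛ0 : 0 ≤ Λ := hΛ.nonneg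
  have hA0 : 0 ≤ A := (abs_nonneg _).trans (hA 0)
  have hs2 : ∀ u, ν u ≠ 0 → ‖u‖ ≤ 2 := fun u hu => (hs u hu).2.2.2
  have hru : ∀ u, ν u ≠ 0 → ‖(r : ℂ) * u‖ ≤ 2 := by
    intro u hu
    rw [norm_mul, Complex.norm_real, Real.norm_eq_abs, abs_of_pos hr.1]
    have := hs2 u hu
    nlinarith [hr.1, hr.2, norm_nonneg u]
  obtain ⟨C, hC⟩ := (isCompact_closedBall (0 : ℂ) 2).exists_bound_of_continuousOn hF.continuousOn
  set T : Set ℝ := {t | ∃ u, ν u ≠ 0 ∧ t = |F (r * u)|} with hT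
  have hTb : BddAbove T := by
    refine ⟨C, ?_⟩
    rintro t ⟨u, hu, rfl⟩
    exact hC _ (by simpa using hru u hu)
  set S := sSup T with hS
  have hS0 : 0 ≤ S := Real.sSup_nonneg (by rintro t ⟨u, -, rfl⟩; exact abs_nonneg _)
  have hle : ∀ u, ν u ≠ 0 → |F (r * u)| ≤ S := fun u hu => le_csSup hTb ⟨u, hu, rfl⟩
  have hPB : PB (fun z => scl r ν z * F z) (S * Λ) := by
    refine hΛ.of_le hS0 (hΛ.cont.mul hF) fun z => ?_
    by_cases h0 : scl r ν z = 0
    · simp [h0]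
    · obtain ⟨u, hu, rfl⟩ := scl_ne hr.1 h0
      rw [abs_mul, mul_comm]
      exact mul_le_mul_of_nonneg_right (hle u hu) (abs_nonneg _)
  have hk1 : ∀ u, ν u ≠ 0 → kk (r * u) (r * y₁) = kk u y₁ := by
    intro u hu
    rw [kk_comm, Shell_smul hr.1 hy₁ (hs u hu), kk_comm]
  have hk2 : ∀ u, ν u ≠ 0 → |kk u y₁| ≤ 2 := by
    intro u hu
    rw [kk_comm]
    exact Shell_kk hy₁ (hs u hu)
  have hstep : ∀ u, ν u ≠ 0 → |F (r * u) + c * kk u y₁| ≤ M * Λ * S + ζ := by
    intro u hu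
    have h1 := h u hu
    rw [hk1 u hu] at h1
    have h2 := hPB.abs_kk (hru u hu)
    set J := ∫ z, kk (r * u) z * (scl r ν z * F z)
    have h3 : |M / 2 * J| ≤ M * Λ * S := by
      rw [abs_mul, abs_of_nonneg (by positivity : 0 ≤ M / 2)]
      have := mul_le_mul_of_nonneg_left h2 (by positivity : 0 ≤ M / 2)
      linarith
    have h4 := abs_sub (F (r * u) + c * kk u y₁ + M / 2 * J) (M / 2 * J)
    rw [add_sub_cancel_right] at h4
    linarith
  have hck : ∀ u, ν u ≠ 0 → |c * kk u y₁| ≤ 2 * |c| := by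
    intro u hu
    rw [abs_mul, mul_comm]
    exact mul_le_mul_of_nonneg_right (hk2 u hu) (abs_nonneg _)
  have hMS : M * Λ * S ≤ S / 2 := by nlinarith
  have hS1 : S ≤ 2 * |c| + M * Λ * S + ζ := by
    apply Real.sSup_le
    · rintro t ⟨u, hu, rfl⟩
      have h4 := abs_sub (F (r * u) + c * kk u y₁) (c * kk u y₁)
      rw [add_sub_cancel_right] at h4
      linarith [hstep u hu, hck u hu]
    · positivity
  have hS2 : S ≤ 4 * |c| + 2 * ζ := by linarith
  have hD : ∀ u, ν u ≠ 0 → |F (r * u) + c * kk u y₁| ≤ 4 * M * Λ * |c| + 2 * ζ := by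
    intro u hu
    have h1 := mul_le_mul_of_nonneg_left hS2 (by positivity : 0 ≤ M * Λ)
    have h2 := mul_le_mul_of_nonneg_right hMΛ hζ
    linarith [hstep u hu]
  have e1 : ∫ z, kk (r * y₀) z * (scl r ν z * F z) = ∫ u, kk y₀ u * F (r * u) * ν u := by
    have := integral_scl hr.1 (fun z => kk (r * y₀) z * F z) ν
    rw [show (fun z => kk (r * y₀) z * (scl r ν z * F z)) =
      fun z => kk (r * y₀) z * F z * scl r ν z from funext fun z => by ring, this]
    congr 1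
    funext u
    by_cases h0 : ν u = 0
    · simp [h0]
    · rw [Shell_smul hr.1 hy₀ (hs u h0)]
  have hm1 : Measurable fun u => kk u y₁ := by
    simp only [fun u => kk_comm u y₁]
    exact Shell_meas y₁
  have hmF : Measurable fun u : ℂ => F (r * u) :=
    (hF.comp (continuous_const.mul continuous_id)).measurable
  have i1 : Integrable fun u => kk y₀ u * F (r * u) * ν u := by
    refine Shell_int (N := 2 * S) hν hs2 ((Shell_meas y₀).mul hmF) fun u hu => ?_
    rw [abs_mul]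
    exact mul_le_mul (Shell_kk hy₀ (hs u hu)) (hle u hu) (abs_nonneg _) (by norm_num)
  have i2 : Integrable fun u => kk y₀ u * kk u y₁ * ν u := by
    refine Shell_int (N := 2 * 2) hν hs2 ((Shell_meas y₀).mul hm1) fun u hu => ?_
    rw [abs_mul]
    exact mul_le_mul (Shell_kk hy₀ (hs u hu)) (hk2 u hu) (abs_nonneg _) (by norm_num)
  have e2 : (∫ u, kk y₀ u * F (r * u) * ν u) + c * ∫ u, kk y₀ u * kk u y₁ * ν u =
      ∫ u, kk y₀ u * (F (r * u) + c * kk u y₁) * ν u := by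
    rw [← integral_const_mul, ← integral_add i1 (i2.const_mul c)]
    congr 1
    funext u
    ring
  have e3 := Shell_bd (φ := fun u => kk y₀ u * (F (r * u) + c * kk u y₁))
    (N := 2 * (4 * M * Λ * |c| + 2 * ζ)) hs2 hA (by positivity) fun u hu => by
      rw [abs_mul]
      exact mul_le_mul (Shell_kk hy₀ (hs u hu)) (hD u hu) (abs_nonneg _) (by norm_num)
  rw [e1, mul_assoc (M / 2) c, ← mul_add, e2, abs_mul, abs_of_nonneg (by positivity : 0 ≤ M / 2)]
  have h5 := mul_le_mul_of_nonneg_left e3 (by positivity : 0 ≤ M / 2)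
  have h6 := mul_le_mul_of_nonneg_right hMA hζ
  linarith

theorem int_kk_le {y₀ y₁ : ℂ} (hy₀ : OnAx y₀) (hy₁ : OnAx y₁)
    (hs : ∀ u, ν u ≠ 0 → 3 / 4 ≤ |u.re| ∧ 3 / 4 ≤ |u.im| ∧ 1 ≤ ‖u‖ ∧ ‖u‖ ≤ 2)
    (hA : ∀ u, |ν u| ≤ A) : |∫ u, kk y₀ u * kk u y₁ * ν u| ≤ 52 * A := by
  have e3 := Shell_bd (φ := fun u => kk y₀ u * kk u y₁) (N := 2 * 2)
    (fun u hu => (hs u hu).2.2.2) hA (by positivity) fun u hu => by
      rw [abs_mul, kk_comm u y₁]
      exact mul_le_mul (Shell_kk hy₀ (hs u hu)) (Shell_kk hy₁ (hs u hu)) (abs_nonneg _)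
        (by norm_num)
  linarith

end Pool.Agent.MP_4f0ed6_gt

end

section

open Set Laplacian Filter Topology MeasureTheory Metric InnerProductSpace
open scoped ContDiff

namespace Pool.Agent.MP_4f0ed6_gt

/-- the regularised kernel -/
noncomputable def PotD_l (d : ℝ) (u : ℂ) : ℝ := Real.log (‖u‖ ^ 2 + d) / 2

/-- its derivative -/
noncomputable def PotD_K (d : ℝ) (u : ℂ) : ℂ →L[ℝ] ℝ := (‖u‖ ^ 2 + d)⁻¹ • innerSL ℝ u

lemma PotD_der {d : ℝ} (hd : 0 < d) (u : ℂ) : HasFDerivAt (PotD_l d) (PotD_K d u) u := by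
  have h1 : HasFDerivAt (fun x : ℂ => ‖x‖ ^ 2 + d) (2 • innerSL ℝ u) u :=
    (hasStrictFDerivAt_norm_sq u).hasFDerivAt.add_const d
  have h2 := (h1.log (by positivity)).const_mul (2 : ℝ)⁻¹
  have e1 : PotD_l d = fun y : ℂ => 2⁻¹ * Real.log (‖y‖ ^ 2 + d) :=
    funext fun x => div_eq_inv_mul _ _
  rw [e1]
  refine h2.congr_fderiv (ContinuousLinearMap.ext fun v => ?_)
  simp only [PotD_K, smul_apply, smul_eq_mul, nsmul_eq_mul]
  push_cast
  ring

lemma PotD_norm {d : ℝ} (hd : 0 ≤ d) (u : ℂ) : ‖PotD_K d u‖ = (‖u‖ ^ 2 + d)⁻¹ * ‖u‖ := by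
  rw [PotD_K, norm_smul, innerSL_apply_norm, Real.norm_of_nonneg (by positivity)]

lemma PotD_le {d : ℝ} (hd : 0 ≤ d) (u : ℂ) : ‖PotD_K d u‖ ≤ ‖u‖⁻¹ := by
  rw [PotD_norm hd]
  rcases eq_or_lt_of_le (norm_nonneg u) with h | h
  · rw [← h]
    simp
  · rw [inv_mul_le_iff₀ (by positivity), le_mul_inv_iff₀ h]
    nlinarith

lemma PotD_le' {d : ℝ} (hd : 0 < d) (u : ℂ) : ‖PotD_K d u‖ ≤ 1 + d⁻¹ := by
  rw [PotD_norm hd.le, inv_mul_le_iff₀ (by positivity)]
  have h1 : d * d⁻¹ = 1 := mul_inv_cancel₀ hd.ne'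
  have h2 : 0 ≤ ‖u‖ ^ 2 * d⁻¹ := by positivity
  nlinarith [sq_nonneg (‖u‖ - 1), norm_nonneg u]

lemma PotD_meas (d : ℝ) : AEStronglyMeasurable (PotD_K d) volume :=
  AEStronglyMeasurable.smul (𝕜 := ℝ) (f := fun u : ℂ => (‖u‖ ^ 2 + d)⁻¹)
    (Measurable.aestronglyMeasurable (by fun_prop))
    (innerSL ℝ (E := ℂ)).continuous.aestronglyMeasurable

lemma PotD_loc {d : ℝ} (hd : 0 ≤ d) : LocallyIntegrable (PotD_K d) :=
  locInt_inv.mono (PotD_meas d) (Eventually.of_forall fun u =>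
    (PotD_le hd u).trans (le_abs_self _))

lemma PotD_int {g : ℂ → ℝ} (hg : Continuous g) (hc : HasCompactSupport g) {d : ℝ} (hd : 0 ≤ d)
    (x : ℂ) : Integrable fun u => g (x - u) • PotD_K d u :=
  (PotD_loc hd).integrable_smul_left_of_hasCompactSupport (g := fun u => g (x - u))
    (by fun_prop) (hc.comp_homeomorph (Homeomorph.subLeft x))

lemma PotD_cont {d : ℝ} (hd : 0 < d) : Continuous (PotD_l d) :=
  continuous_iff_continuousAt.mpr fun u => (PotD_der hd u).continuousAt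

lemma PotD_intl {g : ℂ → ℝ} (hg : Continuous g) (hc : HasCompactSupport g) {d : ℝ} (hd : 0 < d)
    (x : ℂ) : Integrable fun u => PotD_l d (x - u) * g u :=
  Continuous.integrable_of_hasCompactSupport
    (((PotD_cont hd).comp (by fun_prop)).mul hg) hc.mul_left

lemma PotD_reg {g : ℂ → ℝ} (hg : Continuous g) (hc : HasCompactSupport g) {d : ℝ} (hd : 0 < d)
    (x : ℂ) : HasFDerivAt (fun y => ∫ u, PotD_l d (y - u) * g u)
      (∫ u, g (x - u) • PotD_K d u) x := by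
  have e : ∫ u, g (x - u) • PotD_K d u = ∫ u, g u • PotD_K d (x - u) := by
    rw [← integral_sub_left_eq_self (fun u => g u • PotD_K d (x - u)) volume x]
    simp only [sub_sub_cancel]
  rw [e]
  refine hasFDerivAt_integral_of_dominated_of_fderiv_le (F' := fun y u => g u • PotD_K d (y - u))
    (bound := fun u => ‖g u‖ * (1 + d⁻¹)) univ_mem
    (Eventually.of_forall fun y => (PotD_intl hg hc hd y).aestronglyMeasurable)
    (PotD_intl hg hc hd x) ?_ (Eventually.of_forall fun u y _ => ?_)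
    ((hg.integrable_of_hasCompactSupport hc).norm.mul_const _)
    (Eventually.of_forall fun u y _ => ?_)
  · have := (PotD_int hg hc hd.le x).comp_sub_left x
    simp only [sub_sub_cancel] at this
    exact this.aestronglyMeasurable
  · rw [norm_smul]
    exact mul_le_mul_of_nonneg_left (PotD_le' hd _) (norm_nonneg _)
  · have := ((PotD_der hd (y - u)).comp y ((hasFDerivAt_id y).sub_const u)).mul_const (g u)
    rwa [ContinuousLinearMap.comp_id] at this

lemma PotD_seq : Tendsto (fun n : ℕ => 1 / ((n : ℝ) + 1)) atTop (𝓝 0) :=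
  tendsto_one_div_add_atTop_nhds_zero_nat

lemma PotD_pt {g : ℂ → ℝ} (hg : Continuous g) (hc : HasCompactSupport g) (x : ℂ) :
    Tendsto (fun n : ℕ => ∫ u, PotD_l (1 / ((n : ℝ) + 1)) (x - u) * g u) atTop (𝓝 (NP g x)) := by
  have hx : ∀ᵐ u, 0 < ‖x - u‖ ^ 2 := (Measure.ae_ne volume x).mono fun u hu =>
    pow_pos (norm_pos_iff.mpr (sub_ne_zero.mpr hu.symm)) 2
  have e : ∀ v : ℂ, Real.log ‖v‖ = PotD_l 0 v := fun v => by
    rw [PotD_l, add_zero, Real.log_pow]
    push_cast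
    ring
  refine tendsto_integral_of_dominated_convergence
    (fun u => ‖Real.log ‖x - u‖ * g u‖ + ‖PotD_l 1 (x - u) * g u‖)
    (fun n => (PotD_intl hg hc Nat.one_div_pos_of_nat x).aestronglyMeasurable)
    ((integrable_np hg hc x).norm.add (PotD_intl hg hc one_pos x).norm)
    (fun n => hx.mono fun u hu => ?_) (hx.mono fun u hu => ?_)
  · have h0 : (0 : ℝ) < 1 / ((n : ℝ) + 1) := Nat.one_div_pos_of_nat
    have h1 : 1 / ((n : ℝ) + 1) ≤ 1 := Nat.one_div_le_one_div (Nat.zero_le n) |>.trans (by simp)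
    have h2 := Real.log_le_log (x := ‖x - u‖ ^ 2 + 0) (y := ‖x - u‖ ^ 2 + 1 / ((n : ℝ) + 1))
      (by linarith) (by linarith)
    have h3 := Real.log_le_log (y := ‖x - u‖ ^ 2 + 1) (x := ‖x - u‖ ^ 2 + 1 / ((n : ℝ) + 1))
      (by linarith) (by linarith)
    rw [norm_mul, norm_mul, norm_mul, ← add_mul, e]
    refine mul_le_mul_of_nonneg_right ?_ (norm_nonneg _)
    simp only [PotD_l, Real.norm_eq_abs]
    refine abs_le.mpr ⟨?_, ?_⟩
    · linarith [neg_abs_le (Real.log (‖x - u‖ ^ 2 + 0) / 2),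
        abs_nonneg (Real.log (‖x - u‖ ^ 2 + 1) / 2)]
    · linarith [le_abs_self (Real.log (‖x - u‖ ^ 2 + 1) / 2),
        abs_nonneg (Real.log (‖x - u‖ ^ 2 + 0) / 2)]
  · rw [e]
    exact (((PotD_seq.const_add _).log (by linarith)).div_const 2).mul_const _

lemma PotD_err (R : ℝ) : Tendsto (fun n : ℕ => ∫ u in closedBall (0 : ℂ) R,
    ‖PotD_K 0 u - PotD_K (1 / ((n : ℝ) + 1)) u‖) atTop (𝓝 0) := by
  have hi := locInt_inv.integrableOn_isCompact (isCompact_closedBall (0 : ℂ) R)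
  have := tendsto_integral_of_dominated_convergence (μ := volume.restrict (closedBall (0 : ℂ) R))
    (F := fun (n : ℕ) u => ‖PotD_K 0 u - PotD_K (1 / ((n : ℝ) + 1)) u‖) (f := fun _ => (0 : ℝ))
    (fun u => ‖u‖⁻¹ + ‖u‖⁻¹) (fun n => ((PotD_meas _).sub (PotD_meas _)).norm.restrict)
    (hi.add hi) (fun n => Eventually.of_forall fun u => ?_) (Eventually.of_forall fun u => ?_)
  · rwa [integral_zero] at this
  · rw [norm_norm]
    exact (norm_sub_le _ _).trans
      (add_le_add (PotD_le le_rfl u) (PotD_le Nat.one_div_pos_of_nat.le u))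
  · by_cases hu : u = 0
    · simp [hu, PotD_K]
    · have h1 : ‖u‖ ^ 2 + 0 ≠ 0 := by simpa using hu
      have h2 := (((PotD_seq.const_add _).inv₀ h1).smul_const (innerSL ℝ u)).const_sub
        (PotD_K 0 u)
      have h3 := h2.norm
      rwa [show PotD_K 0 u - (‖u‖ ^ 2 + 0)⁻¹ • innerSL ℝ u = 0 from sub_self _, norm_zero] at h3

theorem NP_hasFDerivAt {g : ℂ → ℝ} (hg : Continuous g) (hc : HasCompactSupport g) (w : ℂ) :
    HasFDerivAt (NP g) (∫ u : ℂ, g (w - u) • ((‖u‖ ^ 2)⁻¹ • innerSL ℝ u)) w := by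
  have e : ∀ u : ℂ, (‖u‖ ^ 2)⁻¹ • innerSL ℝ u = PotD_K 0 u := fun u => by rw [PotD_K, add_zero]
  simp only [e]
  obtain ⟨M, hM⟩ := hg.bounded_above_of_compact_support hc
  obtain ⟨R, hR⟩ := hc.isCompact.isBounded.subset_closedBall 0
  refine hasFDerivAt_of_tendstoUniformlyOn (l := atTop) (s := ball w 1)
    (f' := fun (n : ℕ) x => ∫ u, g (x - u) • PotD_K (1 / ((n : ℝ) + 1)) u)
    (g' := fun x => ∫ u, g (x - u) • PotD_K 0 u) isOpen_ball ?_
    (fun n x _ => PotD_reg hg hc Nat.one_div_pos_of_nat x) (fun x _ => PotD_pt hg hc x)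
    (mem_ball_self one_pos)
  refine Metric.tendstoUniformlyOn_iff.mpr fun ε hε => ?_
  have h1 := (PotD_err (‖w‖ + 1 + R)).const_mul M
  rw [mul_zero] at h1
  filter_upwards [h1.eventually (gt_mem_nhds hε)] with n hn x hx
  have hd : (0 : ℝ) ≤ 1 / ((n : ℝ) + 1) := Nat.one_div_pos_of_nat.le
  refine lt_of_le_of_lt ?_ hn
  rw [dist_eq_norm, ← integral_sub (PotD_int hg hc le_rfl x) (PotD_int hg hc hd x),
    ← integral_const_mul, ← integral_indicator measurableSet_closedBall]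
  refine norm_integral_le_of_norm_le ?_ (Eventually.of_forall fun u => ?_)
  · refine (integrable_indicator_iff measurableSet_closedBall).mpr (Integrable.const_mul ?_ M)
    exact (((PotD_loc le_rfl).sub (PotD_loc hd)).integrableOn_isCompact
      (isCompact_closedBall _ _)).norm
  · refine (congrArg norm (smul_sub _ _ _).symm).trans_le ((norm_smul _ _).trans_le ?_)
    by_cases hu : u ∈ closedBall (0 : ℂ) (‖w‖ + 1 + R)
    · rw [indicator_of_mem hu]
      exact mul_le_mul_of_nonneg_right (hM _) (norm_nonneg _)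
    · rw [indicator_of_notMem hu, image_eq_zero_of_notMem_tsupport (f := g) fun h => hu ?_,
        norm_zero, zero_mul]
      have h2 := mem_closedBall_zero_iff.mp (hR h)
      have h3 := mem_ball_iff_norm.mp hx
      have h4 : u = w + (x - w) - (x - u) := by ring
      rw [mem_closedBall_zero_iff, h4]
      linarith [norm_sub_le (w + (x - w)) (x - u), norm_add_le w (x - w)]

end Pool.Agent.MP_4f0ed6_gt

end

section

open Set Laplacian Filter Topology MeasureTheory Metric InnerProductSpace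
open scoped ContDiff

namespace Pool.Agent.MP_4f0ed6_gt

lemma PotC_conv (k : ℕ) {g : ℂ → ℝ} (hg : ContDiff ℝ k g) (hc : HasCompactSupport g) :
    ContDiff ℝ k (fun w : ℂ => ∫ u : ℂ, g (w - u) • ((‖u‖ ^ 2)⁻¹ • innerSL ℝ u)) := by
  have h := hc.contDiff_convolution_right (𝕜 := ℝ) (n := (k : ℕ∞)) (μ := volume)
    (ContinuousLinearMap.lsmul ℝ ℝ (E := ℂ →L[ℝ] ℝ)).flip (PotD_loc (le_refl (0 : ℝ))) hg
  have e : (fun w : ℂ => ∫ u : ℂ, g (w - u) • ((‖u‖ ^ 2)⁻¹ • innerSL ℝ u)) =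
      convolution (PotD_K 0) g (ContinuousLinearMap.lsmul ℝ ℝ (E := ℂ →L[ℝ] ℝ)).flip volume := by
    funext w
    simp only [convolution, PotD_K, add_zero, ContinuousLinearMap.flip_apply,
      ContinuousLinearMap.lsmul_apply]
  rw [e]
  exact h

theorem NP_contDiff (k : ℕ) {g : ℂ → ℝ} (hg : ContDiff ℝ k g) (hc : HasCompactSupport g) :
    ContDiff ℝ (k + 1 : ℕ) (NP g) := by
  have h : ContDiff ℝ ((k : WithTop ℕ∞) + 1) (NP g) :=
    contDiff_succ_iff_hasFDerivAt.2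
      ⟨_, PotC_conv k hg hc, fun w => NP_hasFDerivAt hg.continuous hc w⟩
  exact_mod_cast h

theorem NP_smooth {g : ℂ → ℝ} (hg : ContDiff ℝ ∞ g) (hc : HasCompactSupport g) :
    ContDiff ℝ ∞ (NP g) := by
  rw [contDiff_infty] at hg ⊢
  intro n
  exact (NP_contDiff n (hg n) hc).of_le (by exact_mod_cast Nat.le_succ n)

end Pool.Agent.MP_4f0ed6_gt

end

section

open Set Laplacian Filter Topology MeasureTheory Metric InnerProductSpace
open scoped ContDiff

namespace Pool.Agent.MP_4f0ed6_gt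

theorem Pois_int {R : ℝ} {h : ℂ → ℝ} (hh : Continuous h) {y : ℂ} (hy : ‖y‖ < R) :
    CircleIntegrable ((Complex.re ∘ herglotzRieszKernel 0 y) • h) 0 R :=
  ((Complex.continuous_re.comp_continuousOn (continuousOn_herglotzRieszKernel_sphere
    (mem_ball_zero_iff.2 hy))).smul hh.continuousOn).circleIntegrable'

theorem PI_smooth {R : ℝ} {h : ℂ → ℝ} (hh : Continuous h) {y : ℂ} (hy : ‖y‖ < R) :
    ContDiffAt ℝ ∞ (PI R h) y ∧ Δ (PI R h) y = 0 := by
  have h1 := (analyticOnNhd_circleAverage_herglotzRieszKernel_smul (R := R)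
    (f := fun z => (h z : ℂ)) (Complex.continuous_ofReal.comp hh).continuousOn.circleIntegrable'
    y (mem_ball_zero_iff.2 hy)).harmonicAt_re
  have h2 : HarmonicAt (PI R h) y := by
    refine (harmonicAt_congr_nhds ?_).1 h1
    filter_upwards [isOpen_ball.mem_nhds (mem_ball_zero_iff.2 hy)] with w hw
    exact re_circleAverage_herglotzRieszKernel_smul hh.continuousOn.circleIntegrable' hw
  exact ⟨(_root_.HarmonicAt.analyticAt h2).contDiffAt, h2.2.self_of_nhds⟩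

theorem PI_sub {R : ℝ} {h h' : ℂ → ℝ} (hh : Continuous h) (hh' : Continuous h') {y : ℂ}
    (hy : ‖y‖ < R) : PI R (fun x => h x - h' x) y = PI R h y - PI R h' y := by
  rw [PI, PI, PI, ← Real.circleAverage_sub (Pois_int hh hy) (Pois_int hh' hy), ← smul_sub]
  rfl

theorem PI_bound {R H : ℝ} {h : ℂ → ℝ} (hR : 0 < R) (hh : Continuous h)
    (hb : ∀ x : ℂ, ‖x‖ = R → |h x| ≤ H) {y : ℂ} (hy : ‖y‖ ≤ R / 2) :
    |PI R h y - PI R h 0| ≤ 4 * (‖y‖ / R) * H := by
  have h1 := Pois_int (R := R) hh (y := y) (by linarith)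
  have h2 := Pois_int (R := R) hh (y := 0) (by simpa using hR)
  rw [PI, PI, ← Real.circleAverage_sub h1 h2]
  refine Real.abs_circleAverage_le_circleAverage_abs.trans
    (Real.circleAverage_mono_on_of_le_circle (h1.sub h2).abs fun z hz => ?_)
  rw [mem_sphere_zero_iff_norm, abs_of_pos hR] at hz
  have h3 : R / 2 ≤ ‖z - y‖ := by linarith [norm_sub_norm_le z y]
  have h4 : z - y ≠ 0 := norm_pos_iff.1 (by linarith)
  have h5 : z ≠ 0 := norm_pos_iff.1 (by linarith)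
  have h6 : herglotzRieszKernel 0 y z - herglotzRieszKernel 0 0 z = 2 * y / (z - y) := by
    simp only [herglotzRieszKernel, sub_zero, add_zero]
    field_simp
    ring
  have h7 : |(herglotzRieszKernel 0 y z).re - (herglotzRieszKernel 0 0 z).re| ≤
      4 * (‖y‖ / R) := by
    rw [← Complex.sub_re, h6]
    refine (Complex.abs_re_le_norm _).trans ?_
    rw [norm_div, norm_mul, Complex.norm_two]
    refine (div_le_div_of_nonneg_left (by positivity) (half_pos hR) h3).trans_eq ?_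
    field_simp
    ring
  change |(herglotzRieszKernel 0 y z).re * h z - (herglotzRieszKernel 0 0 z).re * h z| ≤ _
  rw [← sub_mul, abs_mul]
  exact mul_le_mul h7 (hb z hz) (abs_nonneg _) (by positivity)

theorem PI_eq {R : ℝ} {h f : ℂ → ℝ} (hf : ∀ x : ℂ, ‖x‖ ≤ R → HarmonicAt f x)
    (he : ∀ x : ℂ, ‖x‖ = R → h x = f x) {y : ℂ} (hy : ‖y‖ < R) : PI R h y = f y := by
  rw [← HarmonicOnNhd.circleAverage_re_herglotzRieszKernel_smul (c := 0) (R := R)
    (fun x hx => hf x (mem_closedBall_zero_iff.1 hx)) (mem_ball_zero_iff.2 hy)]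
  refine Real.circleAverage_congr_sphere fun z hz => ?_
  rw [mem_sphere_zero_iff_norm, abs_of_pos ((norm_nonneg y).trans_lt hy)] at hz
  simp only [Pi.smul_apply', he z hz]

end Pool.Agent.MP_4f0ed6_gt

end

section

open Set Laplacian Filter Topology MeasureTheory Metric InnerProductSpace
open scoped ContDiff

namespace Pool.Agent.MP_4f0ed6_gt

theorem Fld3_log_two : Real.log 2 ≤ 1 := by
  have := Real.log_le_sub_one_of_pos (show (0 : ℝ) < 2 by norm_num)
  linarith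

theorem Fld3_log_ge {a x : ℝ} (ha : 0 < a) (hx : a / 2 ≤ x) : Real.log a - 1 ≤ Real.log x := by
  have h1 : Real.log (a / 2) ≤ Real.log x := Real.log_le_log (by positivity) hx
  rw [Real.log_div ha.ne' (by norm_num)] at h1
  have := Fld3_log_two
  linarith

theorem Fld3_log_le {x : ℝ} (h0 : 0 < x) (hx : x ≤ 9 / 4) : Real.log x ≤ 1 := by
  rw [Real.log_le_iff_le_exp h0]
  have := Real.exp_one_gt_d9
  linarith

namespace Plumb

variable {V P : Type} [Fintype P] {Q : Plumb V P} {β : V → ℂ → ℝ} {Λ om : ℝ} {Y : Inp V P}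

theorem Fld3_far (hQ : Q.Ok) (hh : ∀ π, Continuous (Y.h π))
    {H : ℝ} (hH : ∀ π (x : ℂ), ‖x‖ = Q.r π / 2 → |Y.h π x| ≤ H) (π : P) {y : ℂ} {t : ℝ}
    (ht : t ≤ 1 / 4) (hy : ‖y‖ ≤ t * Q.r π) : |Q.farY Y π y| ≤ 8 * t * H := by
  have hr := r_pos (Q := Q) π
  have hH0 : 0 ≤ H := by
    refine (abs_nonneg _).trans (hH π ((Q.r π / 2 : ℝ) : ℂ) ?_)
    rw [Complex.norm_real, Real.norm_eq_abs, abs_of_pos (by positivity)]
  have hb : ∀ x : ℂ, ‖x‖ = Q.r π / 2 → |Y.h (Q.σ π) x| ≤ H := fun x hx =>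
    hH _ x (by rw [hQ.r_σ, hx])
  have hy' : ‖y‖ ≤ Q.r π / 2 / 2 := by nlinarith
  have h := PI_bound (R := Q.r π / 2) (by positivity) (hh (Q.σ π)) hb hy'
  have h2 : ‖y‖ / (Q.r π / 2) ≤ 2 * t := by
    rw [div_le_iff₀ (by positivity)]
    linarith
  unfold farY
  refine h.trans ?_
  nlinarith

theorem farY_le (hQ : Q.Ok) (hom : ∀ π, Q.r π ≤ om * Q.sep) (hh : ∀ π, Continuous (Y.h π))
    {H : ℝ} (hH : ∀ π (x : ℂ), ‖x‖ = Q.r π / 2 → |Y.h π x| ≤ H) (π : P) {w : ℂ}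
    (hw : Q.sep / 2 ≤ ‖w - Q.c π‖) : |Q.farY Y π (Q.ε π / (w - Q.c π))| ≤ 16 * om * H := by
  have hr := r_pos (Q := Q) π
  have hs := hQ.sep_pos
  have hrs := hQ.r_le' π
  have hH0 : 0 ≤ H := by
    refine (abs_nonneg _).trans (hH π ((Q.r π / 2 : ℝ) : ℂ) ?_)
    rw [Complex.norm_real, Real.norm_eq_abs, abs_of_pos (by positivity)]
  have ht : 2 * (Q.r π / Q.sep) ≤ 1 / 4 := by
    have : Q.r π / Q.sep ≤ 1 / 16 := by
      rw [div_le_iff₀ hs]
      linarith
    linarith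
  have hy : ‖Q.ε π / (w - Q.c π)‖ ≤ 2 * (Q.r π / Q.sep) * Q.r π := by
    rw [norm_div, norm_ε, div_le_iff₀ (by linarith)]
    have h1 : 2 * (Q.r π / Q.sep) * Q.r π * (Q.sep / 2) = Q.r π ^ 2 := by
      field_simp
    rw [← h1]
    exact mul_le_mul_of_nonneg_left hw (by positivity)
  have h := Fld3_far hQ hh hH π ht hy
  have h3 : Q.r π / Q.sep ≤ om := by
    rw [div_le_iff₀ hs]
    exact hom π
  refine h.trans ?_
  nlinarith

theorem Fld3_tt {B G : ℝ} (hB0 : 0 ≤ B) (hB : ∀ π, |Y.b π| ≤ B) (hG : ∀ α, PB (Y.g α) G)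
    (v : V) : |Q.tt Y v| ≤ Q.n * B + 2 * G := by
  have h1 : |∑ π ∈ Q.pts v, Y.b π| ≤ Q.n * B := abs_sum_pts_le hB0 fun π _ => hB π
  have h2 := (hG (v, false)).abs_int
  have h3 := (hG (v, true)).abs_int
  unfold tt
  rw [abs_le] at h1 h2 h3 ⊢
  constructor <;> linarith [h1.1, h1.2, h2.1, h2.2, h3.1, h3.2]

omit [Fintype P] in
theorem Fld3_fin (hβ : Q.Bump β Λ) (α : V × Bool) : PB (fin β α) Λ := by
  obtain ⟨v, b⟩ := α
  cases b
  · exact hβ.pb v
  · exact PB.zero.mono (by linarith [hβ.one_le])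

theorem Fld3_gs (hβ : Q.Bump β Λ) {B G : ℝ} (hB0 : 0 ≤ B) (hB : ∀ π, |Y.b π| ≤ B)
    (hG : ∀ α, PB (Y.g α) G) (α : V × Bool) :
    PB (Q.gs β Y α) (3 * Λ * G + Λ * (Q.n * B)) := by
  have h := (hG α).add ((Fld3_fin hβ α).const_mul (Q.tt Y α.1))
  have h1 := Fld3_tt (Q := Q) hB0 hB hG α.1
  have h2 := hβ.one_le
  have h3 := (hG α).nonneg
  refine PB.mono h ?_
  have h4 : |Q.tt Y α.1| * Λ ≤ (Q.n * B + 2 * G) * Λ :=
    mul_le_mul_of_nonneg_right h1 (by linarith)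
  nlinarith

theorem Fld3_Pot (hβ : Q.Bump β Λ) {B G : ℝ} (hB0 : 0 ≤ B) (hB : ∀ π, |Y.b π| ≤ B)
    (hG : ∀ α, PB (Y.g α) G) (α : V × Bool) {w : ℂ} (hw : ‖w‖ ≤ 2) :
    |Q.Pot β Y α w| ≤ 6 * Λ * G + 2 * Λ * (Q.n * B) := by
  have h1 := (Fld3_gs hβ hB0 hB hG α).abs_NP hw
  have h2 := (Fld3_gs hβ hB0 hB hG (α.1, !α.2)).abs_NQ hw
  unfold Pot
  refine (abs_add_le _ _).trans ?_
  linarith

theorem Fld3_term (hQ : Q.Ok) (hβ : Q.Bump β Λ) (hom : ∀ π, Q.r π ≤ om * Q.sep)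
    (hh : ∀ π, Continuous (Y.h π)) {B H : ℝ} (hB : ∀ π, |Y.b π| ≤ B)
    (hH : ∀ π (x : ℂ), ‖x‖ = Q.r π / 2 → |Y.h π x| ≤ H) (π : P) {w : ℂ}
    (hw : Q.sep / 2 ≤ ‖w - Q.c π‖) (hw1 : ‖w - Q.c π‖ ≤ 1) :
    |Q.term Y π w| ≤ 2 * Λ * B + 16 * om * H := by
  have h1 := farY_le hQ hom hh hH π hw
  have h2 := Fld3_log_ge hQ.sep_pos hw
  have h3 : Real.log ‖w - Q.c π‖ ≤ 0 := Real.log_nonpos (norm_nonneg _) hw1
  have h4 := hβ.log_le
  have h5 := hβ.one_le
  have h6 : |Real.log ‖w - Q.c π‖| ≤ 2 * Λ := by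
    rw [abs_le] at h4 ⊢
    constructor <;> linarith [h4.1]
  have h7 : |Y.b π * Real.log ‖w - Q.c π‖| ≤ B * (2 * Λ) := by
    rw [abs_mul]
    exact mul_le_mul (hB π) h6 (abs_nonneg _) ((abs_nonneg _).trans (hB π))
  unfold term
  refine (abs_add_le _ _).trans ?_
  linarith

theorem Fld3_sum (hQ : Q.Ok) (hβ : Q.Bump β Λ) (hom0 : 0 ≤ om) (hom : ∀ π, Q.r π ≤ om * Q.sep)
    (hh : ∀ π, Continuous (Y.h π)) {B H G E : ℝ} (hB0 : 0 ≤ B) (hH0 : 0 ≤ H)
    (hB : ∀ π, |Y.b π| ≤ B)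
    (hH : ∀ π (x : ℂ), ‖x‖ = Q.r π / 2 → |Y.h π x| ≤ H) (hG : ∀ α, PB (Y.g α) G)
    (hE : 8 * Λ * (G + Q.n * B) + 16 * Q.n * om * H ≤ E) (v : V) (s : Finset P) {w : ℂ}
    (hw : ‖w‖ ≤ 2) (hs : ∀ π ∈ s, Q.sep / 2 ≤ ‖w - Q.c π‖ ∧ ‖w - Q.c π‖ ≤ 1) :
    |Q.Pot β Y (v, false) w + ∑ π ∈ s, Q.term Y π w| ≤ E := by
  have h1 := Fld3_Pot hβ hB0 hB hG (v, false) hw
  have hΛ := hβ.one_le
  have hn := one_le_n (Q := Q)
  have hG0 := (hG (v, false)).nonneg
  have h2 : |∑ π ∈ s, Q.term Y π w| ≤ Q.n * (2 * Λ * B + 16 * om * H) :=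
    abs_sum_pts_le (by positivity) fun π hπ =>
      Fld3_term hQ hβ hom hh hB hH π (hs π hπ).1 (hs π hπ).2
  have h3 : 0 ≤ Λ * G := by positivity
  have h4 : 0 ≤ Λ * (Q.n * B) := by positivity
  refine (abs_add_le _ _).trans ?_
  nlinarith

theorem Fld3_CC (hQ : Q.Ok) (hβ : Q.Bump β Λ) (hom0 : 0 ≤ om) (hom : ∀ π, Q.r π ≤ om * Q.sep)
    (hh : ∀ π, Continuous (Y.h π)) {B H G E : ℝ} (hB0 : 0 ≤ B) (hH0 : 0 ≤ H)
    (hB : ∀ π, |Y.b π| ≤ B)
    (hH : ∀ π (x : ℂ), ‖x‖ = Q.r π / 2 → |Y.h π x| ≤ H) (hG : ∀ α, PB (Y.g α) G)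
    (hE : 8 * Λ * (G + Q.n * B) + 16 * Q.n * om * H ≤ E) (hE0 : 0 ≤ E) (v : V) :
    |Q.CC β Y v - Y.u v| ≤ E := by
  have hm : ∫ u, |β v u| ≤ 1 := by
    have : (fun u => |β v u|) = β v := funext fun u => abs_of_nonneg (hβ.nonneg v u)
    rw [this, hβ.int v]
  have h := abs_integral_mul_le (φ := Q.Phi β Y v) (hβ.pb v).integrable hE0 hm fun u hu => by
    have hc := hβ.supp v u hu
    refine Fld3_sum hQ hβ hom0 hom hh hB0 hH0 hB hH hG hE v _ (by linarith [hc.1]) fun π hπ => ?_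
    have h1 := hc.2 π (mem_pts.1 hπ)
    have h2 := norm_sub_le u (Q.c π)
    have h3 := hQ.c_le π
    have h4 := hQ.sep_pos
    exact ⟨by linarith, by linarith [hc.1]⟩
  have h5 : Q.CC β Y v - Y.u v = -∫ w, β v w * Q.Phi β Y v w := by
    unfold CC
    ring
  rw [h5, abs_neg]
  linarith

theorem fld_le (hQ : Q.Ok) (hβ : Q.Bump β Λ) (hom0 : 0 ≤ om) (hom : ∀ π, Q.r π ≤ om * Q.sep)
    (hh : ∀ π, Continuous (Y.h π)) {B Bh H G E : ℝ} (hB0 : 0 ≤ B) (hBh0 : 0 ≤ Bh) (hH0 : 0 ≤ H)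
    (hB : ∀ π, |Y.b π| ≤ B) (hBh : ∀ π, Q.L π * |Y.b π| ≤ Bh)
    (hH : ∀ π (x : ℂ), ‖x‖ = Q.r π / 2 → |Y.h π x| ≤ H) (hG : ∀ α, PB (Y.g α) G)
    (hE : 8 * Λ * (G + Q.n * B) + 16 * Q.n * om * H ≤ E) :
    (∀ π (x : ℂ), ‖x‖ ≤ Q.sep / 2 → |Q.R0 β Y π x| ≤ E) ∧
      (∀ π, |Q.RR β Y π - Y.u (Q.pc π)| ≤ 2 * E) ∧
      ∀ α, ∀ w ∈ Q.W α, |Q.phi β Y α w - Y.u α.1| ≤ Q.n * Bh + 6 * Q.n * E := by
  classical
  have hΛ := hβ.one_le
  have hn := one_le_n (Q := Q)
  have hs := hQ.sep_pos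
  have hs1 := hQ.sep_le
  obtain ⟨v0⟩ := hQ.ne
  have hG0 := (hG (v0, false)).nonneg
  have e1 : 0 ≤ Λ * G := by positivity
  have e2 : 0 ≤ Q.n * B := by positivity
  have e3 : 0 ≤ Q.n * (om * H) := by positivity
  have e4 : Q.n * B ≤ Λ * (Q.n * B) := le_mul_of_one_le_left e2 hΛ
  have hE' : 8 * (Λ * G) + 8 * (Λ * (Q.n * B)) + 16 * (Q.n * (om * H)) ≤ E := by
    refine le_of_eq_of_le ?_ hE
    ring
  have hE0 : 0 ≤ E := by linarith
  have e5 : E ≤ Q.n * E := le_mul_of_one_le_left hE0 hn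
  have e6 : 0 ≤ Q.n * Bh := by positivity
  have hR0 : ∀ π (x : ℂ), ‖x‖ ≤ Q.sep / 2 → |Q.R0 β Y π x| ≤ E := by
    intro π x hx
    unfold R0
    refine Fld3_sum hQ hβ hom0 hom hh hB0 hH0 hB hH hG hE _ _ ?_ fun π' hπ' => ?_
    · have h1 := norm_add_le (Q.c π) x
      have h2 := hQ.c_le π
      linarith
    · rw [Finset.mem_erase] at hπ'
      exact hQ.near hπ'.1 (mem_pts.1 hπ'.2) hx
  have hCC := Fld3_CC hQ hβ hom0 hom hh hB0 hH0 hB hH hG hE hE0
  refine ⟨hR0, fun π => ?_, fun α w hw => ?_⟩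
  · have h1 := hCC (Q.pc π)
    have h2 := hR0 π 0 (by rw [norm_zero]; positivity)
    unfold RR
    rw [abs_le] at h1 h2 ⊢
    constructor <;> linarith [h1.1, h1.2, h2.1, h2.2]
  · have hw2 := norm_lt_of_W hw
    have hP := Fld3_Pot hβ hB0 hB hG α hw2.le
    have hC := hCC α.1
    obtain ⟨v, b⟩ := α
    cases b
    · have hS : |∑ π ∈ Q.pts v, (Y.b π * Real.log ‖w - Q.c π‖ +
          Q.R0 β Y (Q.σ π) (Q.ε π / (w - Q.c π)) - Q.R0 β Y (Q.σ π) 0)| ≤
          Q.n * (Bh / 2 + B + 2 * E) := by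
        refine abs_sum_pts_le (by positivity) fun π hπ => ?_
        have hr := r_pos (Q := Q) π
        have hrs := hQ.r_le' π
        have hL := hQ.L_pos π
        have h1 : Q.r π / 2 < ‖w - Q.c π‖ := hw.2 π (mem_pts.1 hπ)
        have h2 := Fld3_log_ge hr h1.le
        rw [log_r] at h2
        have h3 : Real.log ‖w - Q.c π‖ ≤ 1 := by
          refine Fld3_log_le (by linarith) ?_
          have := norm_sub_le w (Q.c π)
          linarith [hQ.c_le π]
        have h4 : |Real.log ‖w - Q.c π‖| ≤ Q.L π / 2 + 1 := by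
          rw [abs_le]
          constructor <;> linarith
        have h5 : |Y.b π * Real.log ‖w - Q.c π‖| ≤ Bh / 2 + B := by
          rw [abs_mul]
          have h6 := mul_le_mul_of_nonneg_left h4 (abs_nonneg (Y.b π))
          have h7 := hB π
          have h8 := hBh π
          nlinarith
        have h6 := hR0 (Q.σ π) (Q.ε π / (w - Q.c π)) (by
          rw [norm_div, norm_ε, div_le_iff₀ (by linarith)]
          nlinarith)
        have h7 := hR0 (Q.σ π) 0 (by rw [norm_zero]; positivity)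
        rw [abs_le] at h5 h6 h7 ⊢
        constructor <;> linarith [h5.1, h5.2, h6.1, h6.2, h7.1, h7.2]
      simp only [phi]
      rw [abs_le] at hS hP hC ⊢
      constructor <;> linarith [hS.1, hS.2, hP.1, hP.2, hC.1, hC.2]
    · have hS : |∑ π ∈ Q.pts v, (Y.b π * Real.log ‖1 - Q.c π * w‖ +
          Q.farY Y π (Q.ε π * w / (1 - Q.c π * w)))| ≤ Q.n * (B + 16 * (om * H)) := by
        refine abs_sum_pts_le (by positivity) fun π _ => ?_
        have hr := r_pos (Q := Q) π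
        have hrs := hQ.r_le' π
        have h0 : ‖Q.c π * w‖ ≤ 1 / 2 := by
          rw [norm_mul]
          have := mul_le_mul (hQ.c_le π) hw2.le (norm_nonneg _) (by norm_num)
          linarith
        have h1 : 1 / 2 ≤ ‖1 - Q.c π * w‖ := by
          have := norm_sub_norm_le (1 : ℂ) (Q.c π * w)
          rw [norm_one] at this
          linarith
        have h2 : ‖1 - Q.c π * w‖ ≤ 9 / 4 := by
          have := norm_sub_le (1 : ℂ) (Q.c π * w)
          rw [norm_one] at this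
          linarith
        have h3 := Fld3_log_ge one_pos h1
        rw [Real.log_one] at h3
        have h4 := Fld3_log_le (by linarith) h2
        have h5 : |Y.b π * Real.log ‖1 - Q.c π * w‖| ≤ B := by
          rw [abs_mul]
          have h6 : |Real.log ‖1 - Q.c π * w‖| ≤ 1 := by
            rw [abs_le]
            constructor <;> linarith
          have h7 := mul_le_mul_of_nonneg_left h6 (abs_nonneg (Y.b π))
          linarith [hB π]
        have h6 := Fld3_far hQ hh hH π (y := Q.ε π * w / (1 - Q.c π * w)) (t := 4 * Q.r π)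
          (by linarith) (by
            rw [norm_div, norm_mul, norm_ε, div_le_iff₀ (by linarith)]
            have h7 : Q.r π ^ 2 * ‖w‖ ≤ Q.r π ^ 2 * 2 :=
              mul_le_mul_of_nonneg_left hw2.le (by positivity)
            have h8 : 4 * Q.r π * Q.r π * (1 / 2) ≤ 4 * Q.r π * Q.r π * ‖1 - Q.c π * w‖ :=
              mul_le_mul_of_nonneg_left h1 (by positivity)
            nlinarith)
        have h7 : Q.r π ≤ om / 4 := by
          have := mul_le_mul_of_nonneg_left hs1 hom0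
          linarith [hom π]
        have h8 : Q.r π * H ≤ om / 4 * H := mul_le_mul_of_nonneg_right h7 hH0
        have h9 : 0 ≤ om * H := by positivity
        refine (abs_add_le _ _).trans ?_
        nlinarith
      simp only [phi]
      rw [abs_le] at hS hP hC ⊢
      constructor <;> linarith [hS.1, hS.2, hP.1, hP.2, hC.1, hC.2]

end Plumb

end Pool.Agent.MP_4f0ed6_gt

end

section

open Set Laplacian Filter Topology MeasureTheory Metric InnerProductSpace
open scoped ContDiff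

namespace Pool.Agent.MP_4f0ed6_gt

namespace Plumb

variable {V P : Type} [Fintype V] [Fintype P] {Q : Plumb V P}

/-- vectors with a given parity under an involution -/
def cycPar {P : Type} (σ : P → P) (s : ℂ) : Submodule ℂ (P → ℂ) where
  carrier := {b | ∀ π, b (σ π) = s * b π}
  add_mem' := fun ha hb π => by simp [ha π, hb π, mul_add]
  zero_mem' := by simp
  smul_mem' := fun c b ha π => by
    simp only [Pi.smul_apply, smul_eq_mul, ha π]; ring

theorem cycPar_mem {P : Type} {σ : P → P} {s : ℂ} {b : P → ℂ} :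
    b ∈ cycPar σ s ↔ ∀ π, b (σ π) = s * b π := Iff.rfl

theorem cyc_sign {P : Type} [Fintype P] {σ : P → P} (h1 : ∀ π, σ (σ π) = π)
    (h2 : ∀ π, σ π ≠ π) :
    ∃ e : P → ℂ, (∀ π, e (σ π) = -e π) ∧ ∀ π, e π * e π = 1 := by
  classical
  let i := Fintype.equivFin P
  refine ⟨fun π => if i π < i (σ π) then 1 else -1, fun π => ?_, fun π => ?_⟩
  · simp only [h1]
    have hne : i (σ π) ≠ i π := fun h => h2 π (i.injective h)
    rcases lt_or_gt_of_ne hne with h | h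
    · simp [h, not_lt.mpr h.le]
    · simp [h, not_lt.mpr h.le]
  · by_cases h : i π < i (σ π) <;> simp [h]

theorem cyc_odd_rank {P : Type} [Fintype P] {σ : P → P} (h1 : ∀ π, σ (σ π) = π)
    (h2 : ∀ π, σ π ≠ π) :
    2 * Module.finrank ℂ (cycPar σ (-1)) = Fintype.card P := by
  obtain ⟨e, he1, he2⟩ := cyc_sign h1 h2
  have hc : IsCompl (cycPar σ 1) (cycPar σ (-1)) := by
    constructor
    · rw [Submodule.disjoint_def]
      intro b hb hb'
      funext π
      have a1 := cycPar_mem.mp hb π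
      have a2 := cycPar_mem.mp hb' π
      simp only [Pi.zero_apply]
      linear_combination (1 / 2 : ℂ) * a2 - (1 / 2 : ℂ) * a1
    · rw [codisjoint_iff, eq_top_iff]
      intro b _
      rw [Submodule.mem_sup]
      refine ⟨fun π => (b π + b (σ π)) / 2, cycPar_mem.mpr fun π => ?_,
        fun π => (b π - b (σ π)) / 2, cycPar_mem.mpr fun π => ?_, ?_⟩
      · simp only [h1]; ring
      · simp only [h1]; ring
      · funext π; simp only [Pi.add_apply]; ring
  have hsum := Submodule.finrank_add_eq_of_isCompl hc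
  let E : cycPar σ 1 ≃ₗ[ℂ] cycPar σ (-1) :=
    { toFun := fun b => ⟨fun π => e π * b.1 π, cycPar_mem.mpr fun π => by
        rw [he1, cycPar_mem.mp b.2 π]; ring⟩
      invFun := fun b => ⟨fun π => e π * b.1 π, cycPar_mem.mpr fun π => by
        rw [he1, cycPar_mem.mp b.2 π]; ring⟩
      map_add' := fun a b => Subtype.ext (funext fun π => by simp [mul_add])
      map_smul' := fun c a => Subtype.ext (funext fun π => by
        simp only [SetLike.val_smul, Pi.smul_apply, smul_eq_mul, RingHom.id_apply]; ring)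
      left_inv := fun a => Subtype.ext (funext fun π => by
        simp only [← mul_assoc, he2, one_mul])
      right_inv := fun a => Subtype.ext (funext fun π => by
        simp only [← mul_assoc, he2, one_mul]) }
  have hE := E.finrank_eq
  rw [Module.finrank_fintype_fun_eq_card] at hsum
  omega

/-- divergence -/
noncomputable def cycDiv (Q : Plumb V P) : (P → ℂ) →ₗ[ℂ] (V → ℂ) where
  toFun b v := ∑ π ∈ Q.pts v, b π
  map_add' a b := by funext v; simp [Finset.sum_add_distrib]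
  map_smul' c a := by funext v; simp [Finset.mul_sum]

/-- total sum -/
noncomputable def cycSum (V : Type) [Fintype V] : (V → ℂ) →ₗ[ℂ] ℂ where
  toFun f := ∑ v, f v
  map_add' a b := by simp [Finset.sum_add_distrib]
  map_smul' c a := by simp [Finset.mul_sum]

theorem cycSum_ker (V : Type) [Fintype V] (h : Nonempty V) :
    Module.finrank ℂ (LinearMap.ker (cycSum V)) + 1 = Fintype.card V := by
  classical
  obtain ⟨v0⟩ := h
  have hr : LinearMap.range (cycSum V) = ⊤ := by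
    rw [eq_top_iff]
    intro c _
    exact ⟨Pi.single v0 c, by simp [cycSum]⟩
  have := LinearMap.finrank_range_add_finrank_ker (cycSum V)
  rw [hr, finrank_top, Module.finrank_self, Module.finrank_fintype_fun_eq_card] at this
  omega

omit [Fintype V] in
theorem cycDiv_single [DecidableEq V] [DecidableEq P] (π : P) :
    cycDiv Q (Pi.single π 1) = Pi.single (Q.pc π) 1 := by
  funext v
  show ∑ π' ∈ Q.pts v, (Pi.single π (1 : ℂ) : P → ℂ) π' = _
  rw [Finset.sum_pi_single']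
  by_cases h : Q.pc π = v
  · rw [if_pos (mem_pts.mpr h), h, Pi.single_eq_same]
  · rw [if_neg (fun h' => h (mem_pts.mp h')), Pi.single_eq_of_ne (Ne.symm h)]

theorem cycDiv_range (hQ : Q.Ok) :
    LinearMap.range (cycDiv Q ∘ₗ (cycPar Q.σ (-1)).subtype) = LinearMap.ker (cycSum V) := by
  classical
  apply le_antisymm
  · rintro f ⟨b, rfl⟩
    rw [LinearMap.mem_ker]
    show ∑ v, ∑ π ∈ Q.pts v, b.1 π = 0
    rw [sum_pts]
    have hinv : Function.Involutive Q.σ := hQ.σσ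
    have h1 : ∑ π, b.1 (Q.σ π) = ∑ π, b.1 π := Equiv.sum_comp hinv.toPerm b.1
    have h2 : ∑ π, b.1 (Q.σ π) = -∑ π, b.1 π := by
      rw [← Finset.sum_neg_distrib]
      exact Finset.sum_congr rfl fun π _ => by rw [cycPar_mem.mp b.2 π]; ring
    linear_combination (1 / 2 : ℂ) * h2 - (1 / 2 : ℂ) * h1
  · intro f hf
    set R := LinearMap.range (cycDiv Q ∘ₗ (cycPar Q.σ (-1)).subtype) with hR
    have key : ∀ a b : V, (Pi.single a 1 - Pi.single b 1 : V → ℂ) ∈ R := by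
      intro a b
      induction hQ.conn a b with
      | refl => simp
      | @tail b c _ hbc ih =>
        obtain ⟨π, h1, h2⟩ := hbc
        have hσ : Q.σ π ≠ π := fun h => hQ.pc_ne π (by rw [h])
        have hm : (Pi.single π 1 - Pi.single (Q.σ π) 1 : P → ℂ) ∈ cycPar Q.σ (-1) := by
          refine cycPar_mem.mpr fun π' => ?_
          have hinv : Function.Involutive Q.σ := hQ.σσ
          have e1 : Q.σ π' = π ↔ π' = Q.σ π :=
            ⟨fun h => by rw [← h, hQ.σσ], fun h => by rw [h, hQ.σσ]⟩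
          have e2 : Q.σ π' = Q.σ π ↔ π' = π := hinv.injective.eq_iff
          simp only [Pi.sub_apply, Pi.single_apply, e1, e2]
          ring
        have hbc' : (Pi.single b 1 - Pi.single c 1 : V → ℂ) ∈ R := by
          refine ⟨⟨_, hm⟩, ?_⟩
          simp only [LinearMap.comp_apply, Submodule.subtype_apply, map_sub, cycDiv_single, h1, h2]
        have := R.add_mem ih hbc'
        rwa [sub_add_sub_cancel] at this
    obtain ⟨v0⟩ := hQ.ne
    have hs : ∑ v, f v = 0 := hf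
    have hf' : f = ∑ v, f v • (Pi.single v 1 - Pi.single v0 1 : V → ℂ) := by
      simp only [smul_sub, Finset.sum_sub_distrib, ← Finset.sum_smul, hs, zero_smul, sub_zero]
      funext w
      simp [Finset.sum_apply, Pi.single_apply]
    rw [hf']
    exact R.sum_mem fun v _ => R.smul_mem _ (key v v0)

theorem Ok.finrank_cyc (hQ : Q.Ok) :
    2 * (Module.finrank ℂ Q.cyc + Fintype.card V) = Fintype.card P + 2 := by
  have hσ : ∀ π, Q.σ π ≠ π := fun π h => hQ.pc_ne π (by rw [h])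
  have h1 := cyc_odd_rank hQ.σσ hσ
  have h2 := LinearMap.finrank_range_add_finrank_ker (cycDiv Q ∘ₗ (cycPar Q.σ (-1)).subtype)
  rw [cycDiv_range hQ] at h2
  have h3 := cycSum_ker V hQ.ne
  have hle : Q.cyc ≤ cycPar Q.σ (-1) := fun b hb =>
    cycPar_mem.mpr fun π => by rw [hb.1 π]; ring
  have hk : LinearMap.ker (cycDiv Q ∘ₗ (cycPar Q.σ (-1)).subtype) =
      Q.cyc.comap (cycPar Q.σ (-1)).subtype := by
    ext b
    simp only [LinearMap.mem_ker, LinearMap.comp_apply, Submodule.subtype_apply,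
      Submodule.mem_comap]
    constructor
    · intro h
      exact ⟨fun π => by rw [cycPar_mem.mp b.2 π]; ring, fun v => congrFun h v⟩
    · intro h
      funext v
      exact h.2 v
  rw [hk, (Submodule.comapSubtypeEquivOfLe hle).finrank_eq] at h2
  omega

end Plumb

end Pool.Agent.MP_4f0ed6_gt

end

section

open Set Laplacian Filter Topology MeasureTheory Metric InnerProductSpace
open scoped ContDiff

namespace Pool.Agent.MP_4f0ed6_gt

/-- the real character attached to a functional -/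
noncomputable def chr {G : Type} [AddCommGroup G] [Module (ZMod 2) G] (f : Module.Dual (ZMod 2) G)
    (x : G) : ℝ := if f x = 0 then 1 else -1

variable {G T : Type} [AddCommGroup G] [Module (ZMod 2) G] [Fintype G] [Fintype T]

/-- the eigenvalue of the character -/
noncomputable def eig (γ : T → G) (f : Module.Dual (ZMod 2) G) : ℝ :=
  ∑ t, if f (γ t) = 0 then 0 else 4

theorem RS1_sgn (a b : ZMod 2) : (if a + b = 0 then (1 : ℝ) else -1) =
    (if a = 0 then (1 : ℝ) else -1) * (if b = 0 then (1 : ℝ) else -1) := by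
  have h : ∀ c : ZMod 2, c = 0 ∨ c = 1 := by decide
  have h11 : (1 : ZMod 2) + 1 = 0 := by decide
  have h10 : (1 : ZMod 2) ≠ 0 := by decide
  rcases h a with rfl | rfl <;> rcases h b with rfl | rfl <;> simp [h11, h10]

omit [Fintype G] in
theorem RS1_add (f : Module.Dual (ZMod 2) G) (x y : G) : chr f (x + y) = chr f x * chr f y := by
  unfold chr
  rw [map_add, RS1_sgn]

omit [Fintype G] in
theorem RS1_add' (f g : Module.Dual (ZMod 2) G) (x : G) : chr (f + g) x = chr f x * chr g x := by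
  unfold chr
  rw [LinearMap.add_apply, RS1_sgn]

omit [Fintype G] in
theorem RS1_self (y : G) : y + y = 0 := by
  have h : (2 : ZMod 2) = 0 := by decide
  rw [← two_smul (ZMod 2) y, h, zero_smul]

omit [Fintype G] in
theorem RS1_symm (y v : G) : (Equiv.addRight y).symm v = v + y := by
  have : -y = y := neg_eq_of_add_eq_zero_left (RS1_self y)
  simp [this]

omit [Fintype G] in
theorem RS1_zero (x : G) : chr (0 : Module.Dual (ZMod 2) G) x = 1 := by simp [chr]

omit [Fintype G] in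
theorem RS1_zero' (f : Module.Dual (ZMod 2) G) : chr f 0 = 1 := by simp [chr]

theorem RS1_shift (w : G → ℝ) (y : G) : ∑ x, w (x + y) = ∑ x, w x :=
  Fintype.sum_equiv (Equiv.addRight y) _ _ fun _ => rfl

theorem RS1_sum_x {f : Module.Dual (ZMod 2) G} (hf : f ≠ 0) : ∑ x, chr f x = 0 := by
  obtain ⟨y, hy⟩ : ∃ y, f y ≠ 0 := by
    by_contra h
    push Not at h
    exact hf (LinearMap.ext h)
  have h1 := RS1_shift (chr f) y
  have h2 : chr f y = -1 := by simp [chr, hy]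
  simp only [RS1_add, h2, mul_neg, mul_one, Finset.sum_neg_distrib] at h1
  linarith

omit [Fintype G] in
theorem RS1_sum_f [Fintype (Module.Dual (ZMod 2) G)] {x : G} (hx : x ≠ 0) :
    ∑ f : Module.Dual (ZMod 2) G, chr f x = 0 := by
  haveI : Fact (Nat.Prime 2) := ⟨Nat.prime_two⟩
  obtain ⟨g, hg⟩ : ∃ g : Module.Dual (ZMod 2) G, g x ≠ 0 := by
    by_contra h
    push Not at h
    exact hx ((Module.forall_dual_apply_eq_zero_iff (ZMod 2) x).1 h)
  have h1 : ∑ f : Module.Dual (ZMod 2) G, chr (f + g) x = ∑ f : Module.Dual (ZMod 2) G, chr f x :=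
    Fintype.sum_equiv (Equiv.addRight g) _ _ fun _ => rfl
  have h2 : chr g x = -1 := by simp [chr, hg]
  simp only [RS1_add', h2, mul_neg, mul_one, Finset.sum_neg_distrib] at h1
  linarith

theorem RS1_card [Fintype (Module.Dual (ZMod 2) G)] :
    (Fintype.card (Module.Dual (ZMod 2) G) : ℝ) = Fintype.card G := by
  classical
  have h1 : ∑ f : Module.Dual (ZMod 2) G, ∑ x, chr f x = Fintype.card G := by
    rw [Finset.sum_eq_single (0 : Module.Dual (ZMod 2) G)]
    · simp [RS1_zero]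
    · intro f _ hf
      exact RS1_sum_x hf
    · simp
  have h2 : ∑ x : G, ∑ f : Module.Dual (ZMod 2) G, chr f x =
      Fintype.card (Module.Dual (ZMod 2) G) := by
    rw [Finset.sum_eq_single (0 : G)]
    · simp [RS1_zero']
    · intro x _ hx
      exact RS1_sum_f hx
    · simp
  rw [← h1, ← h2, Finset.sum_comm]

/-- the transform -/
noncomputable def RS1_ft (u : G → ℝ) (f : Module.Dual (ZMod 2) G) : ℝ := ∑ x, u x * chr f x

theorem RS1_parseval [Fintype (Module.Dual (ZMod 2) G)] (u w : G → ℝ) :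
    ∑ f : Module.Dual (ZMod 2) G, RS1_ft u f * RS1_ft w f =
      Fintype.card G * ∑ x, u x * w x := by
  classical
  have h1 : ∀ f : Module.Dual (ZMod 2) G, RS1_ft u f * RS1_ft w f =
      ∑ x, ∑ y, u x * w y * chr f (x + y) := by
    intro f
    unfold RS1_ft
    rw [Finset.sum_mul_sum]
    refine Finset.sum_congr rfl fun x _ => Finset.sum_congr rfl fun y _ => ?_
    rw [RS1_add]; ring
  simp only [h1]
  rw [Finset.sum_comm, Finset.mul_sum]
  refine Finset.sum_congr rfl fun x _ => ?_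
  rw [Finset.sum_comm, Finset.sum_eq_single x]
  · rw [RS1_self, ← Finset.mul_sum]
    simp only [RS1_zero', Finset.sum_const, Finset.card_univ, nsmul_eq_mul, mul_one]
    rw [RS1_card]; ring
  · intro y _ hy
    have : x + y ≠ 0 := fun h => hy (by
      have h2 : x + y + y = 0 + y := by rw [h]
      rw [add_assoc, RS1_self, add_zero, zero_add] at h2
      exact h2.symm)
    rw [← Finset.mul_sum, RS1_sum_f this, mul_zero]
  · simp

omit [Fintype G] in
theorem RS1_lap (γ : T → G) (u : G → ℝ) (x : G) :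
    Lap (fun t => Equiv.addRight (γ t)) u x = ∑ t, (2 * u x - 2 * u (x + γ t)) := by
  unfold Lap
  refine Finset.sum_congr rfl fun t _ => ?_
  rw [RS1_symm, Equiv.coe_addRight]
  ring

theorem RS1_ft_shift (u : G → ℝ) (y : G) (f : Module.Dual (ZMod 2) G) :
    ∑ x, u (x + y) * chr f x = chr f y * RS1_ft u f := by
  unfold RS1_ft
  rw [← RS1_shift (fun x => u (x + y) * chr f x) y, Finset.mul_sum]
  refine Finset.sum_congr rfl fun x _ => ?_
  rw [add_assoc, RS1_self, add_zero, RS1_add]; ring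

theorem RS1_ft_lap (γ : T → G) (u : G → ℝ) (f : Module.Dual (ZMod 2) G) :
    RS1_ft (Lap (fun t => Equiv.addRight (γ t)) u) f = eig γ f * RS1_ft u f := by
  have h1 : RS1_ft (Lap (fun t => Equiv.addRight (γ t)) u) f =
      ∑ x, ∑ t, (2 * (u x * chr f x) - 2 * (u (x + γ t) * chr f x)) := by
    unfold RS1_ft
    refine Finset.sum_congr rfl fun x _ => ?_
    rw [RS1_lap, Finset.sum_mul]
    refine Finset.sum_congr rfl fun t _ => by ring
  rw [h1, Finset.sum_comm, eig, Finset.sum_mul]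
  refine Finset.sum_congr rfl fun t _ => ?_
  rw [Finset.sum_sub_distrib, ← Finset.mul_sum, ← Finset.mul_sum, RS1_ft_shift]
  change 2 * RS1_ft u f - _ = _
  unfold chr
  split_ifs <;> ring

theorem lap_chr (γ : T → G) (f : Module.Dual (ZMod 2) G) (x : G) :
    Lap (fun t => Equiv.addRight (γ t)) (chr f) x = eig γ f * chr f x := by
  rw [RS1_lap, eig, Finset.sum_mul]
  refine Finset.sum_congr rfl fun t _ => ?_
  rw [RS1_add]
  have : chr f (γ t) = if f (γ t) = 0 then 1 else -1 := rfl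
  rw [this]
  split_ifs <;> ring

theorem chr_indep : LinearIndependent ℝ fun f : Module.Dual (ZMod 2) G => chr f := by
  classical
  rw [linearIndependent_iff']
  intro s c hc g hg
  have h1 : ∑ x, (∑ f ∈ s, c f • chr f) x * chr g x = 0 := by rw [hc]; simp
  have h2 : ∑ x, (∑ f ∈ s, c f • chr f) x * chr g x = ∑ f ∈ s, c f * ∑ x, chr (f + g) x := by
    simp only [Finset.sum_apply, Pi.smul_apply, smul_eq_mul, Finset.sum_mul, Finset.mul_sum]
    rw [Finset.sum_comm]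
    refine Finset.sum_congr rfl fun f _ => Finset.sum_congr rfl fun x _ => ?_
    rw [RS1_add']; ring
  have hgg : g + g = 0 := RS1_self g
  rw [h2, Finset.sum_eq_single g] at h1
  · rw [hgg] at h1
    simp only [RS1_zero, Finset.sum_const, Finset.card_univ, nsmul_eq_mul, mul_one] at h1
    have : (Fintype.card G : ℝ) ≠ 0 := by exact_mod_cast Fintype.card_ne_zero
    exact (mul_eq_zero.1 h1).resolve_right this
  · intro f _ hf
    have : f + g ≠ 0 := fun h => hf (by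
      have h2 : f + g + g = 0 + g := by rw [h]
      rwa [add_assoc, hgg, add_zero, zero_add] at h2)
    rw [RS1_sum_x this, mul_zero]
  · intro h
    exact absurd hg h

theorem lap_odd (γ : T → G) (z : G) {θ : ℝ} (h : ∀ f, f z ≠ 0 → θ ≤ eig γ f) (u : G → ℝ)
    (hu : ∀ x, u (x + z) = -u x) :
    θ * ∑ x, u x ^ 2 ≤ ∑ x, u x * Lap (fun t => Equiv.addRight (γ t)) u x := by
  haveI : Finite (Module.Dual (ZMod 2) G) := DFunLike.finite _
  haveI : Fintype (Module.Dual (ZMod 2) G) := Fintype.ofFinite _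
  have hn : (0 : ℝ) < Fintype.card G := by exact_mod_cast Fintype.card_pos
  have h1 := RS1_parseval u u
  have h2 := RS1_parseval u (Lap (fun t => Equiv.addRight (γ t)) u)
  refine le_of_mul_le_mul_left ?_ hn
  simp only [sq]
  rw [← h2, mul_left_comm, ← h1, Finset.mul_sum]
  refine Finset.sum_le_sum fun f _ => ?_
  rw [RS1_ft_lap]
  by_cases hf : f z = 0
  · have h3 := RS1_ft_shift u z f
    have h4 : chr f z = 1 := by simp [chr, hf]
    simp only [hu, h4, neg_mul, Finset.sum_neg_distrib, one_mul] at h3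
    have h5 : RS1_ft u f = 0 := by
      change -RS1_ft u f = _ at h3
      linarith
    simp [h5]
  · have := h f hf
    nlinarith [mul_self_nonneg (RS1_ft u f)]

theorem lap_even (γ : T → G) (z : G) {θ : ℝ} (h : ∀ f, f ≠ 0 → f z = 0 → θ ≤ eig γ f)
    (u : G → ℝ) (hu : ∀ x, u (x + z) = u x) :
    θ * (∑ x, u x ^ 2 - (∑ x, u x) ^ 2 / Fintype.card G) ≤
      ∑ x, u x * Lap (fun t => Equiv.addRight (γ t)) u x := by
  classical
  haveI : Finite (Module.Dual (ZMod 2) G) := DFunLike.finite _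
  haveI : Fintype (Module.Dual (ZMod 2) G) := Fintype.ofFinite _
  have hn : (0 : ℝ) < Fintype.card G := by exact_mod_cast Fintype.card_pos
  have h1 := RS1_parseval u u
  have h2 := RS1_parseval u (Lap (fun t => Equiv.addRight (γ t)) u)
  have h0 : RS1_ft u 0 = ∑ x, u x := by simp [RS1_ft, RS1_zero]
  have he : eig γ 0 = 0 := by simp [eig]
  refine le_of_mul_le_mul_left ?_ hn
  have h3 : (Fintype.card G : ℝ) * (θ * (∑ x, u x ^ 2 - (∑ x, u x) ^ 2 / Fintype.card G)) =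
      ∑ f ∈ Finset.univ.erase (0 : Module.Dual (ZMod 2) G), θ * (RS1_ft u f * RS1_ft u f) := by
    rw [← Finset.mul_sum, Finset.sum_erase_eq_sub (Finset.mem_univ _), h1, h0]
    simp only [sq]
    field_simp
  rw [h3, ← h2, ← Finset.add_sum_erase _ _ (Finset.mem_univ (0 : Module.Dual (ZMod 2) G)),
    RS1_ft_lap, he, zero_mul, mul_zero, zero_add]
  refine Finset.sum_le_sum fun f hf0 => ?_
  rw [RS1_ft_lap]
  by_cases hf : f z = 0
  · have := h f (Finset.ne_of_mem_erase hf0) hf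
    nlinarith [mul_self_nonneg (RS1_ft u f)]
  · have h3 := RS1_ft_shift u z f
    have h4 : chr f z = -1 := by simp [chr, hf]
    simp only [hu, h4, neg_mul, one_mul] at h3
    have h5 : RS1_ft u f = 0 := by
      change RS1_ft u f = _ at h3
      linarith
    simp [h5]

end Pool.Agent.MP_4f0ed6_gt

end

section

open Set Laplacian Filter Topology MeasureTheory Metric InnerProductSpace
open scoped ContDiff

namespace Pool.Agent.MP_4f0ed6_gt

section RS2aux

variable {F : Type} [Field F] [Algebra (ZMod 2) F] [Fintype F]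

/-- evaluation of the polynomial with coefficient vector `g` at `x` -/
noncomputable def RS2ev (m : ℕ) (x : F) : (Fin m → F) →ₗ[ZMod 2] F where
  toFun g := ∑ i, g i * x ^ (i : ℕ)
  map_add' g h := by simp [add_mul, Finset.sum_add_distrib]
  map_smul' c g := by simp [Finset.smul_sum]

/-- the generators -/
noncomputable def RS2gam (m : ℕ) (t : F × {l : Module.Dual (ZMod 2) F // l ≠ 0}) :
    Module.Dual (ZMod 2) (Fin m → F) × ZMod 2 :=
  (t.2.1 ∘ₗ RS2ev m t.1, t.2.1 (t.1 ^ m))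

/-- the functional attached to a coefficient vector and a leading coefficient -/
noncomputable def RS2fun (m : ℕ) (g : Fin m → F) (c : ZMod 2) :
    Module.Dual (ZMod 2) (Module.Dual (ZMod 2) (Fin m → F) × ZMod 2) where
  toFun p := p.1 g + p.2 * c
  map_add' p p' := by simp [add_mul]; ring
  map_smul' a p := by simp [mul_add, mul_assoc]

omit [Fintype F] in
lemma RS2fun_apply (m : ℕ) (g : Fin m → F) (c : ZMod 2)
    (p : Module.Dual (ZMod 2) (Fin m → F) × ZMod 2) : RS2fun m g c p = p.1 g + p.2 * c := rfl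

lemma RS2_exists (m : ℕ) (f : Module.Dual (ZMod 2) (Module.Dual (ZMod 2) (Fin m → F) × ZMod 2)) :
    ∃ g : Fin m → F, f = RS2fun m g (f (0, 1)) := by
  have : Module.Finite (ZMod 2) F := Module.Finite.of_finite
  obtain ⟨g, hg⟩ := (Module.evalEquiv (ZMod 2) (Fin m → F)).surjective
    (f ∘ₗ LinearMap.inl (ZMod 2) _ _)
  refine ⟨g, ?_⟩
  apply LinearMap.ext
  rintro ⟨ξ, a⟩
  have h1 : ξ g = f (ξ, 0) := by
    have := congrArg (fun φ => φ ξ) hg
    simpa using this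
  have h2 : ((ξ, a) : Module.Dual (ZMod 2) (Fin m → F) × ZMod 2) = (ξ, 0) + a • (0, 1) := by
    simp
  rw [RS2fun_apply, h2, map_add, map_smul]
  simp [h1]

omit [Fintype F] in
lemma RS2fun_gam (m : ℕ) (g : Fin m → F) (c : ZMod 2)
    (t : F × {l : Module.Dual (ZMod 2) F // l ≠ 0}) :
    RS2fun m g c (RS2gam m t) = t.2.1 (RS2ev m t.1 g + c • t.1 ^ m) := by
  rw [RS2fun_apply, map_add, map_smul]
  simp [RS2gam, mul_comm]

lemma RS2_card_dual [Fintype (Module.Dual (ZMod 2) F)] :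
    Fintype.card (Module.Dual (ZMod 2) F) = Fintype.card F := by
  have : Module.Finite (ZMod 2) F := Module.Finite.of_finite
  rw [Module.card_eq_pow_finrank (K := ZMod 2) (V := Module.Dual (ZMod 2) F),
    Module.card_eq_pow_finrank (K := ZMod 2) (V := F), Subspace.dual_finrank_eq]

open Classical in
lemma RS2_sum_l [Fintype {l : Module.Dual (ZMod 2) F // l ≠ 0}] (y : F) :
    (∑ l : {l : Module.Dual (ZMod 2) F // l ≠ 0}, if l.1 y = 0 then (0 : ℝ) else 4) =
      if y = 0 then 0 else 2 * (Fintype.card F : ℝ) := by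
  have : Module.Finite (ZMod 2) F := Module.Finite.of_finite
  have : Finite (Module.Dual (ZMod 2) F) := Module.finite_of_finite (ZMod 2)
  let : Fintype (Module.Dual (ZMod 2) F) := Fintype.ofFinite _
  split_ifs with hy
  · simp [hy]
  have hall : (∑ l : {l : Module.Dual (ZMod 2) F // l ≠ 0}, if l.1 y = 0 then (0 : ℝ) else 4) =
      ∑ l : Module.Dual (ZMod 2) F, if l y = 0 then (0 : ℝ) else 4 := by
    rw [← Finset.sum_subtype (Finset.univ.filter fun l : Module.Dual (ZMod 2) F => l ≠ 0)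
      (by simp) (fun l : Module.Dual (ZMod 2) F => if l y = 0 then (0 : ℝ) else 4)]
    rw [Finset.sum_filter]
    refine Finset.sum_congr rfl fun l _ => ?_
    by_cases hl : l = 0
    · simp [hl]
    · simp [hl]
  rw [hall]
  obtain ⟨l0, hl0⟩ : ∃ l0 : Module.Dual (ZMod 2) F, l0 y ≠ 0 := by
    by_contra hcon
    push Not at hcon
    exact hy ((Module.forall_dual_apply_eq_zero_iff (ZMod 2) y).1 hcon)
  have hsw : (∑ l : Module.Dual (ZMod 2) F, if l y = 0 then (0 : ℝ) else 4) =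
      ∑ l : Module.Dual (ZMod 2) F, if (l + l0) y = 0 then (0 : ℝ) else 4 :=
    (Equiv.sum_comp (Equiv.addRight l0)
      (fun l : Module.Dual (ZMod 2) F => if l y = 0 then (0 : ℝ) else 4)).symm
  have hsum : (∑ l : Module.Dual (ZMod 2) F, if l y = 0 then (0 : ℝ) else 4) +
      (∑ l : Module.Dual (ZMod 2) F, if (l + l0) y = 0 then (0 : ℝ) else 4) =
      4 * (Fintype.card F : ℝ) := by
    rw [← Finset.sum_add_distrib, ← RS2_card_dual]
    rw [Finset.sum_congr rfl (g := fun _ => (4 : ℝ))]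
    · simp [mul_comm]
    · intro l _
      rw [LinearMap.add_apply]
      have h01 : ∀ a b : ZMod 2, b ≠ 0 → (a = 0 ↔ ¬ (a + b = 0)) := by decide
      by_cases h : l y = 0
      · have := (h01 _ _ hl0).1 h
        rw [if_pos h, if_neg this]; norm_num
      · have : l y + l0 y = 0 := by
          by_contra h'
          exact h ((h01 _ _ hl0).2 h')
        rw [if_neg h, if_pos this]; norm_num
  linarith

open Classical in
lemma RS2_eig (m : ℕ) [Fintype {l : Module.Dual (ZMod 2) F // l ≠ 0}] (g : Fin m → F) (c : ZMod 2) :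
    eig (RS2gam (F := F) m) (RS2fun m g c) = 2 * (Fintype.card F : ℝ) *
      ((Fintype.card F : ℝ) -
        (Finset.univ.filter fun x : F => RS2ev m x g + c • x ^ m = 0).card) := by
  unfold eig
  rw [Fintype.sum_prod_type]
  simp_rw [RS2fun_gam]
  simp_rw [RS2_sum_l]
  rw [Finset.sum_ite, Finset.sum_const_zero, zero_add, Finset.sum_const, nsmul_eq_mul]
  have := Finset.card_filter_add_card_filter_not (s := (Finset.univ : Finset F))
    (fun x : F => RS2ev m x g + c • x ^ m = 0)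
  rw [Finset.card_univ] at this
  rw [← this]
  push_cast
  ring

/-- the polynomial with coefficient vector `g` -/
noncomputable def RS2pol (m : ℕ) (g : Fin m → F) : Polynomial F :=
  ∑ i : Fin m, Polynomial.C (g i) * Polynomial.X ^ (i : ℕ)

omit [Fintype F] in
lemma RS2pol_eval (m : ℕ) (g : Fin m → F) (x : F) : (RS2pol m g).eval x = RS2ev m x g := by
  simp [RS2pol, RS2ev, Polynomial.eval_finsetSum]

omit [Fintype F] [Algebra (ZMod 2) F] in
lemma RS2pol_degree (m : ℕ) (g : Fin m → F) : (RS2pol m g).degree < m :=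
  Polynomial.degree_sum_fin_lt g

omit [Fintype F] [Algebra (ZMod 2) F] in
lemma RS2pol_coeff (m : ℕ) (g : Fin m → F) (i : Fin m) : (RS2pol m g).coeff i = g i := by
  unfold RS2pol
  rw [Polynomial.finsetSum_coeff, Finset.sum_eq_single i]
  · simp
  · intro j _ hj
    rw [Polynomial.coeff_C_mul_X_pow, if_neg]
    intro h
    exact hj (Fin.ext h.symm)
  · simp

omit [Algebra (ZMod 2) F] in
open Classical in
lemma RS2_roots_le (p : Polynomial F) (hp : p ≠ 0) :
    (Finset.univ.filter fun x : F => p.eval x = 0).card ≤ p.natDegree := by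
  have h1 : (Finset.univ.filter fun x : F => p.eval x = 0) = p.roots.toFinset := by
    ext x
    simp [hp]
  rw [h1]
  exact (Multiset.toFinset_card_le _).trans (Polynomial.card_roots' p)

open Classical in
lemma RS2_odd (m : ℕ) (g : Fin m → F) :
    (Finset.univ.filter fun x : F => RS2ev m x g + (1 : ZMod 2) • x ^ m = 0).card ≤ m := by
  have hmon : (Polynomial.X ^ m + RS2pol m g).Monic :=
    Polynomial.monic_X_pow_add (RS2pol_degree m g)
  have hdeg : (Polynomial.X ^ m + RS2pol m g).natDegree = m := by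
    rw [Polynomial.natDegree_add_eq_left_of_degree_lt]
    · simp
    · simpa using RS2pol_degree m g
  have := RS2_roots_le _ hmon.ne_zero
  rw [hdeg] at this
  convert this using 3 with x
  simp [RS2pol_eval, add_comm]

open Classical in
lemma RS2_even (m : ℕ) (g : Fin m → F) (hg : g ≠ 0) :
    (Finset.univ.filter fun x : F => RS2ev m x g + (0 : ZMod 2) • x ^ m = 0).card + 1 ≤ m := by
  have hne : RS2pol m g ≠ 0 := by
    intro h
    apply hg
    funext i
    rw [← RS2pol_coeff m g i, h]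
    simp
  have hdeg : (RS2pol m g).natDegree < m :=
    (Polynomial.natDegree_lt_iff_degree_lt hne).2 (RS2pol_degree m g)
  have := RS2_roots_le _ hne
  have h2 : (Finset.univ.filter fun x : F => RS2ev m x g + (0 : ZMod 2) • x ^ m = 0) =
      Finset.univ.filter fun x : F => (RS2pol m g).eval x = 0 := by
    ext x
    simp [RS2pol_eval]
  rw [h2]
  omega

/-- the low coefficients of the monic polynomial with root set `S` -/
noncomputable def RS2co (m : ℕ) (S : Finset F) : Fin m → F :=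
  fun i => (∏ s ∈ S, (Polynomial.X - Polynomial.C s)).coeff i

open Classical in
lemma RS2co_roots (m : ℕ) (S : Finset F) (hS : S.card = m) :
    (Finset.univ.filter fun x : F => RS2ev m x (RS2co m S) + (1 : ZMod 2) • x ^ m = 0) = S := by
  have hmon : (∏ s ∈ S, (Polynomial.X - Polynomial.C s : Polynomial F)).Monic :=
    Polynomial.monic_prod_of_monic _ _ fun s _ => Polynomial.monic_X_sub_C s
  have hdeg : (∏ s ∈ S, (Polynomial.X - Polynomial.C s : Polynomial F)).natDegree = m := by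
    rw [Polynomial.natDegree_prod_of_monic _ _ fun s _ => Polynomial.monic_X_sub_C s]
    simp [hS]
  have hev : ∀ x : F, RS2ev m x (RS2co m S) + (1 : ZMod 2) • x ^ m = ∏ s ∈ S, (x - s) := by
    intro x
    have h1 : (∏ s ∈ S, (Polynomial.X - Polynomial.C s : Polynomial F)).eval x =
        ∏ s ∈ S, (x - s) := by simp [Polynomial.eval_prod]
    rw [← h1, Polynomial.eval_eq_sum_range, hdeg, Finset.sum_range_succ]
    have h2 : (∏ s ∈ S, (Polynomial.X - Polynomial.C s : Polynomial F)).coeff m = 1 := by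
      rw [← hdeg]; exact hmon.coeff_natDegree
    rw [h2, one_mul, one_smul, Finset.sum_range]
    rfl
  ext x
  rw [Finset.mem_filter, hev]
  simp [Finset.prod_eq_zero_iff, sub_eq_zero]

end RS2aux

theorem rs_code (e m : ℕ) (he : 0 < e) (hm : 0 < m) (hme : m ≤ 2 ^ e) :
    ∃ (W T : Type) (_ : AddCommGroup W) (_ : Module (ZMod 2) W) (_ : Fintype W) (_ : Fintype T)
      (γ : T → W × ZMod 2) (θ : ℝ) (F : Fin (Nat.choose (2 ^ e) m) → Module.Dual (ZMod 2) (W × ZMod 2)),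
      Fintype.card W = 2 ^ (e * m) ∧ Fintype.card T ≤ 4 ^ e ∧ 0 ≤ θ ∧ (∀ t, γ t ≠ 0) ∧
      (∀ f : Module.Dual (ZMod 2) (W × ZMod 2), f (0, 1) ≠ 0 → θ ≤ eig γ f) ∧
      (∀ f : Module.Dual (ZMod 2) (W × ZMod 2), f ≠ 0 → f (0, 1) = 0 → θ + 1 ≤ eig γ f) ∧
      Function.Injective F ∧ ∀ i, F i (0, 1) ≠ 0 ∧ eig γ (F i) = θ := by
  classical
  let K : Type := GaloisField 2 e
  let : Fintype K := Fintype.ofFinite _
  have hrank : Module.finrank (ZMod 2) K = e := GaloisField.finrank 2 he.ne'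
  have hcard : Fintype.card K = 2 ^ e := by
    rw [Module.card_eq_pow_finrank (K := ZMod 2) (V := K), hrank, ZMod.card]
  have : Finite (Module.Dual (ZMod 2) K) := Module.finite_of_finite (ZMod 2)
  have : Finite (Module.Dual (ZMod 2) (Fin m → K)) := Module.finite_of_finite (ZMod 2)
  let : Fintype (Module.Dual (ZMod 2) K) := Fintype.ofFinite _
  let iW : Fintype (Module.Dual (ZMod 2) (Fin m → K)) := Fintype.ofFinite _
  let iL : Fintype {l : Module.Dual (ZMod 2) K // l ≠ 0} := Fintype.ofFinite _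
  have hPc : Fintype.card (Finset.powersetCard m (Finset.univ : Finset K)) =
      Nat.choose (2 ^ e) m := by
    rw [Fintype.card_coe, Finset.card_powersetCard, Finset.card_univ, hcard]
  let σ := (Fintype.equivFinOfCardEq hPc).symm
  have hσ : ∀ i, (σ i).1.card = m := fun i => (Finset.mem_powersetCard.1 (σ i).2).2
  have hq : (0 : ℝ) < Fintype.card K := by exact_mod_cast Fintype.card_pos
  have hq1 : (1 : ℝ) ≤ Fintype.card K := by exact_mod_cast Fintype.card_pos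
  have hmq : (m : ℝ) ≤ Fintype.card K := by rw [hcard]; exact_mod_cast hme
  refine ⟨Module.Dual (ZMod 2) (Fin m → K), K × {l : Module.Dual (ZMod 2) K // l ≠ 0},
    inferInstance, inferInstance, iW, inferInstance, RS2gam m,
    2 * (Fintype.card K : ℝ) * ((Fintype.card K : ℝ) - m),
    fun i => RS2fun m (RS2co m (σ i).1) 1, ?_, ?_, ?_, ?_, ?_, ?_, ?_, ?_⟩
  · rw [Module.card_eq_pow_finrank (K := ZMod 2), Subspace.dual_finrank_eq, ZMod.card,
      Module.finrank_pi_fintype]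
    simp [hrank, mul_comm]
  · rw [Fintype.card_prod, hcard]
    have h1 : Fintype.card {l : Module.Dual (ZMod 2) K // l ≠ 0} ≤ 2 ^ e := by
      rw [← hcard, ← RS2_card_dual (F := K)]
      exact Fintype.card_subtype_le _
    calc 2 ^ e * Fintype.card {l : Module.Dual (ZMod 2) K // l ≠ 0} ≤ 2 ^ e * 2 ^ e :=
          Nat.mul_le_mul_left _ h1
      _ = 4 ^ e := by rw [← mul_pow]; norm_num
  · exact mul_nonneg (by positivity) (by linarith)
  · rintro ⟨x, l⟩ h
    apply l.2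
    apply LinearMap.ext
    intro y
    have h1 : (l.1 ∘ₗ RS2ev m x) = 0 := congrArg Prod.fst h
    have h2 := congrArg (fun φ => φ (Pi.single (⟨0, hm⟩ : Fin m) y)) h1
    have h3 : RS2ev m x (Pi.single (⟨0, hm⟩ : Fin m) y) = y := by
      change ∑ i : Fin m, (Pi.single (⟨0, hm⟩ : Fin m) y : Fin m → K) i * x ^ (i : ℕ) = y
      rw [Finset.sum_eq_single ⟨0, hm⟩]
      · simp
      · intro j _ hj
        simp [Pi.single_eq_of_ne hj]
      · simp
    simpa [h3] using h2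
  · intro f hf
    obtain ⟨g, hg⟩ := RS2_exists m f
    have h01 : ∀ a : ZMod 2, a ≠ 0 → a = 1 := by decide
    rw [h01 _ hf] at hg
    rw [hg, RS2_eig]
    have : ((Finset.univ.filter fun x : K => RS2ev m x g + (1 : ZMod 2) • x ^ m = 0).card : ℝ)
        ≤ m := by exact_mod_cast RS2_odd m g
    apply mul_le_mul_of_nonneg_left _ (by positivity)
    convert sub_le_sub_left this (Fintype.card K : ℝ)
  · intro f hf hf0
    obtain ⟨g, hg⟩ := RS2_exists m f
    rw [hf0] at hg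
    have hg0 : g ≠ 0 := by
      rintro rfl
      apply hf
      rw [hg]
      apply LinearMap.ext
      intro p
      simp [RS2fun_apply]
    rw [hg, RS2_eig]
    have : ((Finset.univ.filter fun x : K => RS2ev m x g + (0 : ZMod 2) • x ^ m = 0).card : ℝ)
        + 1 ≤ m := by exact_mod_cast RS2_even m g hg0
    set N : ℝ := ((Finset.univ.filter
      fun x : K => RS2ev m x g + (0 : ZMod 2) • x ^ m = 0).card : ℝ) with hN
    have h5 : 2 * (Fintype.card K : ℝ) * ((Fintype.card K : ℝ) - m) + 1 ≤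
        2 * (Fintype.card K : ℝ) * ((Fintype.card K : ℝ) - N) := by nlinarith
    convert h5
  · intro i j hij
    have hg : RS2co m (σ i).1 = RS2co m (σ j).1 := by
      rw [← sub_eq_zero, ← Module.forall_dual_apply_eq_zero_iff (ZMod 2)]
      intro ξ
      have := congrArg (fun φ => φ (ξ, 0)) hij
      simp only [RS2fun_apply, zero_mul, add_zero] at this
      rw [map_sub, this, sub_self]
    have h1 := RS2co_roots m _ (hσ i)
    have h2 := RS2co_roots m _ (hσ j)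
    rw [hg, h2] at h1
    exact σ.injective (Subtype.ext h1.symm)
  · intro i
    refine ⟨by simp [RS2fun_apply], ?_⟩
    rw [RS2_eig]
    have h1 := RS2co_roots m _ (hσ i)
    have h2 : (Finset.univ.filter
        fun x : K => RS2ev m x (RS2co m (σ i).1) + (1 : ZMod 2) • x ^ m = 0).card = m := by
      convert hσ i
    convert congrArg (fun n : ℕ => 2 * (Fintype.card K : ℝ) * ((Fintype.card K : ℝ) - n)) h2

end Pool.Agent.MP_4f0ed6_gt

end

section

open Set Laplacian Filter Topology MeasureTheory Metric InnerProductSpace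
open scoped ContDiff

namespace Pool.Agent.MP_4f0ed6_gt

/-- the bijection between the field with two elements and the booleans -/
def RS3_eB : ZMod 2 ≃ Bool where
  toFun a := decide (a = 1)
  invFun b := if b then 1 else 0
  left_inv := by decide
  right_inv := by decide

theorem RS3_eB_add (a : ZMod 2) : RS3_eB (a + 1) = !(RS3_eB a) := by
  revert a; decide

theorem RS3_lap {X Y T T' : Type} [Fintype T] [Fintype T'] (E : X ≃ Y) (eT : T' ≃ T)
    (P : T → Equiv.Perm X) (u : Y → ℝ) (x : X) :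
    Lap (fun t => E.permCongr (P (eT t))) u (E x) = Lap P (fun y => u (E y)) x := by
  unfold Lap
  rw [← Equiv.sum_comp eT]
  refine Finset.sum_congr rfl fun t _ => ?_
  simp [Equiv.permCongr_def]

theorem RS3_chr_odd {G : Type} [AddCommGroup G] [Module (ZMod 2) G]
    (f : Module.Dual (ZMod 2) G) (z : G) (hz : f z ≠ 0) (x : G) :
    chr f (x + z) = -chr f x := by
  unfold chr
  rw [map_add]
  generalize f x = a at *
  generalize f z = b at *
  have h : ∀ a b : ZMod 2, b ≠ 0 → (a + b = 0 ↔ ¬ a = 0) := by decide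
  by_cases ha : a = 0
  · rw [if_pos ha, if_neg (by rw [h a b hz]; exact not_not.mpr ha)]
  · rw [if_neg ha, if_pos ((h a b hz).mpr ha)]; simp

theorem graph_exists (e m : ℕ) (he : 0 < e) (hm : 0 < m) (hme : m ≤ 2 ^ e) :
    ∃ nT ≤ 4 ^ e, ∃ (Pm : Fin nT → Equiv.Perm (DD (e * m) × Bool)) (θ : ℝ)
      (F : Fin (Nat.choose (2 ^ e) m) → DD (e * m) × Bool → ℝ), GraphOk Pm θ ∧
      LinearIndependent ℝ F ∧ (∀ i v, F i (flp v) = -F i v) ∧
      ∀ i v, Lap Pm (F i) v = θ * F i v := by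
  classical
  obtain ⟨W, T, _, _, _, _, γ, θ, F, hW, hT, hθ, hγ, hodd, heven, hF, hFi⟩ :=
    rs_code e m he hm hme
  have hc : Fintype.card W = Fintype.card (DD (e * m)) := by
    rw [hW]; simp [DD]
  let eW : W ≃ DD (e * m) := Fintype.equivOfCardEq hc
  let eT : Fin (Fintype.card T) ≃ T := (Fintype.equivFin T).symm
  let E : W × ZMod 2 ≃ DD (e * m) × Bool := eW.prodCongr RS3_eB
  have hE : ∀ x : W × ZMod 2, E (x + (0, 1)) = flp (E x) := by
    rintro ⟨w, a⟩
    simp [E, flp, RS3_eB_add]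
  have hlap : ∀ (u : DD (e * m) × Bool → ℝ) (x : W × ZMod 2),
      Lap (fun t => E.permCongr (Equiv.addRight (γ (eT t)))) u (E x) =
        Lap (fun t => Equiv.addRight (γ t)) (fun y => u (E y)) x :=
    fun u x => RS3_lap E eT (fun t => Equiv.addRight (γ t)) u x
  refine ⟨Fintype.card T, hT, fun t => E.permCongr (Equiv.addRight (γ (eT t))), θ,
    fun i v => chr (F i) (E.symm v), ⟨hθ, ?_, ?_, ?_, ?_⟩, ?_, ?_, ?_⟩
  · intro t v h
    obtain ⟨x, rfl⟩ := E.surjective v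
    simp only [Equiv.permCongr_apply, Equiv.symm_apply_apply, Equiv.coe_addRight,
      EmbeddingLike.apply_eq_iff_eq, add_eq_left] at h
    exact hγ _ h
  · intro t v
    obtain ⟨x, rfl⟩ := E.surjective v
    rw [← hE]
    simp only [Equiv.permCongr_apply, Equiv.symm_apply_apply, Equiv.coe_addRight]
    rw [← hE, add_right_comm]
  · intro u hu
    have := lap_odd γ (0, 1) hodd (fun y => u (E y)) (fun x => by
      show u (E (x + (0, 1))) = -u (E x)
      rw [hE, hu])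
    rw [← Equiv.sum_comp E (fun v => u v ^ 2), ← Equiv.sum_comp E
      (fun v => u v * Lap (fun t => E.permCongr (Equiv.addRight (γ (eT t)))) u v)]
    simpa only [hlap] using this
  · intro u hu
    have := lap_even γ (0, 1) heven (fun y => u (E y)) (fun x => by
      show u (E (x + (0, 1))) = u (E x)
      rw [hE, hu])
    rw [← Equiv.sum_comp E (fun v => u v ^ 2), ← Equiv.sum_comp E
      (fun v => u v * Lap (fun t => E.permCongr (Equiv.addRight (γ (eT t)))) u v),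
      ← Equiv.sum_comp E u, ← Fintype.card_congr E]
    simpa only [hlap] using this
  · have h1 : LinearIndependent ℝ fun i => chr (F i) := chr_indep.comp F hF
    rw [Fintype.linearIndependent_iff] at h1 ⊢
    intro g hg
    refine h1 g ?_
    funext x
    have := congrFun hg (E x)
    simpa using this
  · intro i v
    obtain ⟨x, rfl⟩ := E.surjective v
    rw [← hE]
    simp only [Equiv.symm_apply_apply]
    exact RS3_chr_odd _ _ (hFi i).1 x
  · intro i v
    obtain ⟨x, rfl⟩ := E.surjective v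
    rw [hlap]
    simp only [Equiv.symm_apply_apply]
    rw [← (hFi i).2]
    exact lap_chr γ (F i) x

end Pool.Agent.MP_4f0ed6_gt

end
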