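import Pool.Agent.MP_4f0ed6_gt.Defs
import Pool.Agent.Mg.F4f0ed6.Gbb96b0

section

open Set Laplacian Filter Topology MeasureTheory Metric InnerProductSpace
open scoped ContDiff

namespace Pool.Agent.MP_4f0ed6_gt

theorem Ev_le {f : ℝ → ℝ} (hf : ContinuousAt f 0) {c : ℝ} (h : f 0 < c) :
    ∀ᶠ η : ℝ in 𝓝[>] 0, 0 < η ∧ f η ≤ c :=
  Eventually.and self_mem_nhdsWithin
    (((hf.eventually (gt_mem_nhds h)).mono fun _ => le_of_lt).filter_mono nhdsWithin_le_nhds)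

theorem ev_small {c : ℝ} (hc : 0 < c) : ∀ᶠ η : ℝ in 𝓝[>] 0, 0 < η ∧ η ≤ c := by
  exact Ev_le continuousAt_id hc

theorem ev_pow (C : ℝ) {a b : ℕ} (h : b < a) : ∀ᶠ η : ℝ in 𝓝[>] 0, C * η ^ a ≤ η ^ b := by
  obtain ⟨k, rfl⟩ := Nat.exists_eq_add_of_lt h
  filter_upwards [Ev_le (f := fun η => C * η ^ (k + 1)) (by fun_prop) (c := 1) (by simp)]
    with η hη
  have := mul_le_mul_of_nonneg_left hη.2 (pow_pos hη.1 b).le
  calc C * η ^ (b + k + 1) = η ^ b * (C * η ^ (k + 1)) := by ring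
    _ ≤ η ^ b := by simpa using this

theorem ev_log (C : ℝ) {c : ℝ} (hc : 0 < c) (k : ℕ) :
    ∀ᶠ η : ℝ in 𝓝[>] 0, C * (1 + |Real.log (c * η ^ k)|) ≤ η⁻¹ := by
  have h : Continuous fun η : ℝ => C * (η + |η * Real.log c + k * (η * Real.log η)|) :=
    continuous_const.mul (continuous_id.add ((continuous_id.mul continuous_const).add
      (continuous_const.mul Real.continuous_mul_log)).abs)
  filter_upwards [Ev_le h.continuousAt (c := 1) (by simp)] with η hη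
  rw [← one_div, le_div_iff₀ hη.1, Real.log_mul hc.ne' (pow_pos hη.1 k).ne', Real.log_pow]
  refine le_of_eq_of_le ?_ hη.2
  rw [show η * Real.log c + k * (η * Real.log η) = η * (Real.log c + k * Real.log η) by ring,
    abs_mul, abs_of_pos hη.1]
  ring

theorem ev_exp {c : ℝ} (hc : 0 < c) (k : ℕ) :
    ∀ᶠ η : ℝ in 𝓝[>] 0, Real.exp (-η⁻¹ / 2) ≤ c * η ^ k := by
  filter_upwards [ev_log 2 hc k, self_mem_nhdsWithin] with η h1 h2
  have h3 : 0 < c * η ^ k := mul_pos hc (pow_pos h2 k)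
  rw [← Real.exp_log h3, Real.exp_le_exp]
  have := neg_abs_le (Real.log (c * η ^ k))
  linarith

end Pool.Agent.MP_4f0ed6_gt

end

section

open Set Laplacian Filter Topology MeasureTheory Metric InnerProductSpace
open scoped ContDiff

namespace Pool.Agent.MP_4f0ed6_gt

theorem SOk_norm_sg (s : Bool) (y : ℂ) : ‖(sg s : ℂ) * y‖ = ‖y‖ := by
  rw [norm_mul, Complex.norm_real, Real.norm_eq_abs, abs_sg, one_mul]

theorem SOk_same {ρ g : ℝ} (hρ : 0 < ρ) {y y' : ℂ} {s s' : Bool} (h1 : s = s' → g ≤ ‖y - y'‖)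
    (h2 : g ≤ ‖y + y'‖) : ρ * g ≤ ‖(sg s : ℂ) * (ρ * y) - sg s' * (ρ * y')‖ := by
  by_cases hs : s = s'
  · subst hs
    rw [← mul_sub, ← mul_sub, SOk_norm_sg, norm_mul, Complex.norm_real, Real.norm_of_nonneg hρ.le]
    exact mul_le_mul_of_nonneg_left (h1 rfl) hρ.le
  · rw [Bool.eq_not.2 (Ne.symm hs), sg_not, Complex.ofReal_neg, neg_mul, sub_neg_eq_add,
      ← mul_add, ← mul_add, SOk_norm_sg, norm_mul, Complex.norm_real, Real.norm_of_nonneg hρ.le]
    exact mul_le_mul_of_nonneg_left h2 hρ.le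

theorem SOk_diff {ρ ρ' : ℝ} (hρ : 0 < ρ) (hρ' : 0 < ρ') (hle : ρ' ≤ 1 / 4 * ρ) {y y' : ℂ}
    (hy : OnAx y) (hy' : OnAx y') (s s' : Bool) :
    ρ / 2 ≤ ‖(sg s : ℂ) * (ρ * y) - sg s' * (ρ' * y')‖ := by
  refine le_trans ?_ (norm_sub_norm_le _ _)
  rw [SOk_norm_sg, SOk_norm_sg, norm_mul, norm_mul, Complex.norm_real, Complex.norm_real,
    Real.norm_of_nonneg hρ.le, Real.norm_of_nonneg hρ'.le]
  have h1 := mul_le_mul_of_nonneg_left hy.1 hρ.le
  have h2 := mul_le_mul_of_nonneg_left hy'.2.1 hρ'.le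
  linarith

namespace Fx

variable {h nT nx : ℕ} {S : Fx h nT nx}

theorem Ok.yy_ax (hS : S.Ok) (j : Fin h) (d : DD h) : OnAx (S.yy j d) := by
  have h1 := hS.x_mem d
  have h2 : ‖S.yy j d‖ = S.x d := by
    rw [yy, norm_mul, Complex.norm_real, Real.norm_of_nonneg (by linarith [h1.1])]
    split_ifs <;> simp
  refine ⟨h2 ▸ h1.1, h2 ▸ h1.2, ?_⟩
  rw [yy]
  split_ifs <;> simp

theorem Ok.yy_ne (hS : S.Ok) (j : Fin h) {d d' : DD h} (hne : d ≠ d') :
    S.g0 ≤ ‖S.yy j d - S.yy j d'‖ ∧ S.g0 ≤ ‖S.yy j d + S.yy j d'‖ := by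
  have h1 := (hS.x_mem d).1
  have h2 := (hS.x_mem d').1
  have h3 := hS.x_gap d d' hne
  have h4 := hS.g0_le
  have h5 : S.g0 ≤ |S.x d + S.x d'| := le_trans (by linarith) (le_abs_self _)
  have h6 : S.g0 ≤ |S.x d| := le_trans (by linarith) (le_abs_self _)
  simp only [yy]
  split_ifs
  · exact ⟨le_trans (by simpa using h3) (Complex.abs_im_le_norm _),
      le_trans (by simpa using h5) (Complex.abs_im_le_norm _)⟩
  · exact ⟨le_trans (by simpa using h6) (Complex.abs_im_le_norm _),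
      le_trans (by simpa using h6) (Complex.abs_im_le_norm _)⟩
  · exact ⟨le_trans (by simpa using h6) (Complex.abs_re_le_norm _),
      le_trans (by simpa using h6) (Complex.abs_re_le_norm _)⟩
  · exact ⟨le_trans (by simpa using h3) (Complex.abs_re_le_norm _),
      le_trans (by simpa using h5) (Complex.abs_re_le_norm _)⟩

theorem rho_mem {η : ℝ} (h0 : 0 < η) (h1 : η ≤ 1) (k : ℕ) :
    0 < S.rho η k ∧ S.rho η k ≤ 1 / 8 := by
  rw [rho]
  exact ⟨by positivity, div_le_div_of_nonneg_right (pow_le_one₀ h0.le h1) (by norm_num)⟩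

theorem rho_lt {η : ℝ} (h0 : 0 < η) (h1 : η ≤ 1) {k k' : ℕ} (hk : k < k') :
    S.rho η k' ≤ η ^ (6 * h) * S.rho η k := by
  rw [rho, rho, ← mul_div_assoc, ← pow_add, ← mul_one_add]
  exact div_le_div_of_nonneg_right (pow_le_pow_of_le_one h0.le h1
    (Nat.mul_le_mul_left _ (by omega))) (by norm_num)

theorem SOk_aa (hS : S.Ok) {η : ℝ} (h0 : 0 < η) (h1 : η ≤ 1) : S.aa η ≤ η :=
  (S.aa_le hS h0 h1).trans (pow_le_of_le_one h0.le h1 (by norm_num))

theorem Ok.r_ev (hS : S.Ok) :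
    ∀ᶠ η : ℝ in 𝓝[>] 0, ∀ π, (S.Q η).r π ≤ S.aa η ^ 4 * (S.Q η).sep := by
  have hg := hS.g0_pos
  filter_upwards [ev_small one_pos,
    ev_exp (c := S.g0 / 32) (by positivity) (6 * h * S.ns + (6 * h + 4) * 4)] with η h1 h2 π
  have h3 : η⁻¹ ≤ (S.cond η π)⁻¹ := inv_anti₀ (S.cond_pos h1.1 π)
    ((S.cond_le h1.1 h1.2 hS π).trans (SOk_aa hS h1.1 h1.2))
  have h4 : (S.Q η).r π ≤ Real.exp (-η⁻¹ / 2) := Real.exp_le_exp.2 (by
    change -(S.cond η π)⁻¹ / 2 ≤ _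
    linarith)
  refine h4.trans (h2.trans_eq ?_)
  change _ = S.aa η ^ 4 * (S.g0 * S.rho η S.ns / 4)
  rw [aa, rho, pow_add, pow_mul η (6 * h + 4)]
  ring

/-- the type of a port -/
def SOk_ty : PP h nT nx → PT h nT nx
  | .inl (_, j, _) => .inl j
  | .inr (.inl (_, q)) => .inr (.inl q)
  | .inr (.inr (e, _)) => .inr (.inr e)

theorem SOk_small (η : ℝ) {π : PP h nT nx} {v : DD h × Bool} (hv : S.pc π = some v) :
    S.c η π = (sg v.2 * S.z (SOk_ty π) / 8 : ℝ) := by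
  rcases π with ⟨w, j, _ | _⟩ | ⟨w, t, i⟩ | ⟨e, ε⟩
  · obtain rfl : w = v := Option.some.inj hv
    rfl
  · cases hv
  · obtain rfl : w = v := Option.some.inj hv
    rfl
  · obtain rfl : (fun _ => false, ε) = v := Option.some.inj hv
    rfl

theorem SOk_inj {π π' : PP h nT nx} {v : DD h × Bool} (hv : S.pc π = some v)
    (hv' : S.pc π' = some v) (ht : SOk_ty π = SOk_ty π') : π = π' := by
  rcases π with ⟨w, j, _ | _⟩ | ⟨w, t, i⟩ | ⟨e, ε⟩ <;>
    rcases π' with ⟨w', j', _ | _⟩ | ⟨w', t', i'⟩ | ⟨e', ε'⟩ <;>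
    simp_all [pc, SOk_ty]
  exact (Prod.ext_iff.1 (hv.trans hv'.symm)).2

theorem SOk_big {π : PP h nT nx} (hv : S.pc π = none) : ∃ v j, π = .inl (v, j, true) := by
  rcases π with ⟨w, j, _ | _⟩ | ⟨w, t, i⟩ | ⟨e, ε⟩
  · cases hv
  · exact ⟨w, j, rfl⟩
  · cases hv
  · cases hv

theorem SOk_sep (hS : S.Ok) {η : ℝ} (h0 : 0 < η) (h1 : η ≤ 1 / 4) (π π' : PP h nT nx)
    (hne : π ≠ π') (he : S.pc π = S.pc π') :
    S.g0 * S.rho η S.ns / 4 ≤ ‖S.c η π - S.c η π'‖ := by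
  have h2 : η ≤ 1 := by linarith
  have hg := hS.g0_pos
  have hg1 := hS.g0_le
  have hr := rho_mem (S := S) h0 h2
  have hq : η ^ (6 * h) ≤ 1 / 4 :=
    (pow_le_of_le_one h0.le h2 (by have := hS.h_pos; omega)).trans h1
  have hlt : ∀ {k k' : ℕ}, k < k' → S.rho η k' ≤ 1 / 4 * S.rho η k := fun hk =>
    (rho_lt h0 h2 hk).trans (mul_le_mul_of_nonneg_right hq (hr _).1.le)
  have hs : S.g0 * S.rho η S.ns ≤ S.rho η S.ns := mul_le_of_le_one_left (hr _).1.le hg1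
  rcases hv : S.pc π with _ | v
  · obtain ⟨v, j, rfl⟩ := SOk_big hv
    obtain ⟨v', j', rfl⟩ := SOk_big (he ▸ hv)
    simp only [c, cY]
    have a1 := hlt (hS.ix_lt (j, pre j v.1))
    have a2 := hlt (hS.ix_lt (j', pre j' v'.1))
    have a3 := (hr (S.ix (j, pre j v.1))).1
    have a4 := (hr (S.ix (j', pre j' v'.1))).1
    rcases lt_trichotomy (S.ix (j, pre j v.1)) (S.ix (j', pre j' v'.1)) with hk | hk | hk
    · refine le_trans ?_ (SOk_diff a3 a4 (hlt hk) (hS.yy_ax _ _) (hS.yy_ax _ _) _ _)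
      linarith
    · rw [← hk]
      obtain rfl : j = j' := congrArg Prod.fst (hS.ix_inj hk)
      refine le_trans ?_ (SOk_same (g := S.g0) a3 (fun e => ?_) ?_)
      · nlinarith
      · refine (hS.yy_ne j fun e' => hne ?_).1
        rw [Prod.ext e' e]
      · by_cases e' : v.1 = v'.1
        · rw [← e', ← two_mul, norm_mul, Complex.norm_two]
          linarith [(hS.yy_ax j v.1).1]
        · exact (hS.yy_ne j e').2
    · rw [norm_sub_rev]
      refine le_trans ?_ (SOk_diff a4 a3 (hlt hk) (hS.yy_ax _ _) (hS.yy_ax _ _) _ _)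
      linarith
  · have hv' : S.pc π' = some v := he ▸ hv
    have h3 := hS.z_gap _ _ fun e => hne (SOk_inj hv hv' e)
    rw [SOk_small η hv, SOk_small η hv', ← Complex.ofReal_sub, Complex.norm_real, ← sub_div,
      ← mul_sub, Real.norm_eq_abs, abs_div, abs_mul, abs_sg, abs_of_pos (by norm_num : (0 : ℝ) < 8)]
    nlinarith [(hr S.ns).2]

theorem Ok.Q_ok (hS : S.Ok) : ∀ᶠ η : ℝ in 𝓝[>] 0, (S.Q η).Ok := by
  have hn : (0 : ℝ) < 16 * (Fintype.card (PP h nT nx) + 1) := by positivity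
  filter_upwards [ev_small (c := 1 / 4) (by norm_num), ev_small (inv_pos.2 hn), hS.r_ev]
    with η h1 h2 h3
  have h0 := h1.1
  have h4 : η ≤ 1 := by linarith [h1.2]
  have hg := hS.g0_pos
  have hr := rho_mem (S := S) h0 h4
  have hsep : 0 < (S.Q η).sep := div_pos (mul_pos hg (hr _).1) four_pos
  have hup : ∀ v, Relation.ReflTransGen
      (fun a b => ∃ π, (S.Q η).pc π = a ∧ (S.Q η).pc ((S.Q η).σ π) = b) v none := by
    rintro (_ | v)
    · exact .refl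
    · exact .single ⟨.inl (v, ⟨0, hS.h_pos⟩, false), rfl, rfl⟩
  have hdown : ∀ v, Relation.ReflTransGen
      (fun a b => ∃ π, (S.Q η).pc π = a ∧ (S.Q η).pc ((S.Q η).σ π) = b) none v := by
    rintro (_ | v)
    · exact .refl
    · exact .single ⟨.inl (v, ⟨0, hS.h_pos⟩, true), rfl, rfl⟩
  refine ⟨fun π => ?_, fun π => ?_, fun π => ?_, fun π => inv_pos.2 (S.cond_pos h0 π),
    fun π => ?_, hsep, ?_, SOk_sep hS h0 h1.2, fun π => ?_, ⟨none⟩,
    fun v v' => (hup v).trans (hdown v')⟩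
  · rcases π with ⟨w, j, i⟩ | ⟨w, t, _ | _⟩ | ⟨e, ε⟩ <;> simp [Q, σ]
  · rcases π with ⟨w, j, _ | _⟩ | ⟨w, t, _ | _⟩ | ⟨e, ε⟩
    · simp [Q, σ, pc]
    · simp [Q, σ, pc]
    · exact fun e => hS.graph.ne t w (Option.some.inj e)
    · exact fun e => hS.graph.ne t w ((Equiv.symm_apply_eq _).1 (Option.some.inj e)).symm
    · simp [Q, σ, pc]
  · rcases π with ⟨w, j, i⟩ | ⟨w, t, _ | _⟩ | ⟨e, ε⟩ <;> rfl
  · change ‖S.c η π‖ ≤ _
    rcases hv : S.pc π with _ | v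
    · obtain ⟨v, j, rfl⟩ := SOk_big hv
      simp only [c, cY]
      rw [SOk_norm_sg, norm_mul, Complex.norm_real, Real.norm_of_nonneg (hr _).1.le]
      exact (mul_le_mul (hr _).2 (hS.yy_ax _ _).2.1 (norm_nonneg _) (by norm_num)).trans
        (by norm_num)
    · have h5 := hS.z_mem (SOk_ty π)
      rw [SOk_small η hv, Complex.norm_real, Real.norm_eq_abs, abs_div, abs_mul, abs_sg,
        abs_of_pos (by norm_num : (0 : ℝ) < 8), abs_of_nonneg (by linarith [h5.1])]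
      linarith [h5.2]
  · change S.g0 * S.rho η S.ns / 4 ≤ _
    nlinarith [(hr S.ns).2, (hr S.ns).1, hS.g0_le]
  · have h5 : 0 < S.aa η := pow_pos h0 _
    have h6 := SOk_aa hS h0 h4
    have h7 : S.aa η ^ 4 ≤ (16 * (Fintype.card (PP h nT nx) + 1 : ℝ))⁻¹ :=
      (pow_le_of_le_one h5.le (h6.trans h4) (by norm_num)).trans (h6.trans h2.2)
    rw [n_eq, ← le_inv_mul_iff₀ hn]
    exact (h3 π).trans (mul_le_mul_of_nonneg_right h7 hsep.le)

end Fx

end Pool.Agent.MP_4f0ed6_gt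

end

section

open Set Laplacian Filter Topology MeasureTheory Metric InnerProductSpace
open scoped ContDiff

namespace Pool.Agent.MP_4f0ed6_gt

theorem SEst0_scl_neg {g : ℂ → ℝ} (hg : ∀ u, g (-u) = g u) (ρ : ℝ) (w : ℂ) :
    scl ρ g (-w) = scl ρ g w := by
  unfold scl
  rw [neg_div, hg]

theorem SEst0_scl_nonneg {g : ℂ → ℝ} (hg : ∀ u, 0 ≤ g u) (ρ : ℝ) (w : ℂ) :
    0 ≤ scl ρ g w := by
  unfold scl
  exact mul_nonneg (inv_nonneg.2 (sq_nonneg _)) (hg _)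

theorem SEst0_int_scl {ρ : ℝ} (hρ : 0 < ρ) (g : ℂ → ℝ) : ∫ u, scl ρ g u = ∫ u, g u := by
  have := integral_scl hρ (fun _ => 1) g
  simpa using this

theorem SEst0_scl_integrable {ρ : ℝ} (hρ : 0 < ρ) {g : ℂ → ℝ} (hg : Continuous g)
    (hs : ∀ u, g u ≠ 0 → ‖u‖ ≤ 2) : Integrable (scl ρ g) := by
  have hc : Continuous (scl ρ g) := by
    unfold scl
    fun_prop
  refine hc.integrable_of_hasCompactSupport ?_
  refine HasCompactSupport.intro (isCompact_closedBall (0 : ℂ) (2 * ρ)) ?_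
  intro w hw
  by_contra hne
  obtain ⟨u, hu, rfl⟩ := scl_ne hρ hne
  apply hw
  rw [mem_closedBall, dist_zero_right, norm_mul, Complex.norm_real, Real.norm_eq_abs,
    abs_of_pos hρ]
  have := hs u hu
  nlinarith

theorem SEst0_abs_scl_sub (ρ : ℝ) (g g' : ℂ → ℝ) (w : ℂ) :
    |scl ρ g w - scl ρ g' w| = scl ρ (fun u => |g u - g' u|) w := by
  unfold scl
  rw [← mul_sub, abs_mul, abs_of_nonneg (inv_nonneg.2 (sq_nonneg _))]

namespace Fx

variable {h nT nx : ℕ} {S : Fx h nT nx}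

theorem SEst0_rho_pos {η : ℝ} (h0 : 0 < η) (k : ℕ) : 0 < S.rho η k := by
  unfold rho
  positivity

theorem Ok.β_sym (hS : S.Ok) (η : ℝ) (v : Option (DD h × Bool)) (w : ℂ) :
    S.β η (iV v) (-w) = S.β η v w := by
  rcases v with _ | v
  · exact SEst0_scl_neg hS.bump.even _ _
  · exact SEst0_scl_neg hS.bump.even _ _

theorem Ok.μ_sym (hS : S.Ok) (η : ℝ) (p : DD h × DD h → ℝ) (v : Option (DD h × Bool)) (w : ℂ) :
    S.μ η p (iV v) (-w) = S.μ η p v w := by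
  rcases v with _ | v
  · show η ^ 4 * ∑ i : Fin h × DD h, scl (S.rho η (S.ix i)) (S.nu p) (-w) =
      η ^ 4 * ∑ i : Fin h × DD h, scl (S.rho η (S.ix i)) (S.nu p) w
    congr 1
    exact Finset.sum_congr rfl fun i _ => SEst0_scl_neg (hS.ctl.even p) _ _
  · show S.m η p v.1 * scl (1 / 8) S.β1 (-w) = S.m η p v.1 * scl (1 / 8) S.β1 w
    rw [SEst0_scl_neg hS.bump.even]

theorem Ok.μ_smooth (hS : S.Ok) (η : ℝ) (p : DD h × DD h → ℝ) (v : Option (DD h × Bool)) :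
    ContDiff ℝ ∞ (S.μ η p v) := by
  rcases v with _ | v
  · show ContDiff ℝ ∞ fun w => η ^ 4 * ∑ i : Fin h × DD h, scl (S.rho η (S.ix i)) (S.nu p) w
    exact contDiff_const.mul (ContDiff.sum fun i _ => scl_smooth (hS.ctl.smooth p) _)
  · show ContDiff ℝ ∞ fun w => S.m η p v.1 * scl (1 / 8) S.β1 w
    exact contDiff_const.mul (scl_smooth hS.bump.smooth _)

theorem Ok.shell_core (hS : S.Ok) {η : ℝ} (h0 : 0 < η) (h1 : η ≤ 1) (i : Fin h × DD h)
    {p : DD h × DD h → ℝ} {u : ℂ} (hu : S.nu p u ≠ 0) :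
    (S.rho η (S.ix i) : ℂ) * u ∈ (S.Q η).core none := by
  obtain ⟨hre, him, -, hn⟩ := hS.ctl.supp p u hu
  obtain ⟨hρ0, hρ1⟩ := rho_mem (S := S) h0 h1 (S.ix i)
  have hsep : (S.Q η).sep ≤ S.rho η (S.ix i) * (3 / 4) := by
    show S.g0 * S.rho η S.ns / 4 ≤ _
    have h2 := rho_lt (S := S) h0 h1 (hS.ix_lt i)
    have h3 : η ^ (6 * h) ≤ 1 := pow_le_one₀ h0.le h1
    have h4 : 0 < S.rho η S.ns := SEst0_rho_pos h0 _
    have h5 : S.g0 * S.rho η S.ns ≤ S.rho η S.ns := mul_le_of_le_one_left h4.le hS.g0_le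
    have h6 : η ^ (6 * h) * S.rho η (S.ix i) ≤ S.rho η (S.ix i) :=
      mul_le_of_le_one_left hρ0.le h3
    linarith
  refine ⟨?_, ?_⟩
  · rw [norm_mul, Complex.norm_real, Real.norm_eq_abs, abs_of_pos hρ0]
    nlinarith [norm_nonneg u]
  · intro π hπ
    rcases π with ⟨v, j, b⟩ | ⟨v, t, b⟩ | ⟨e, ε⟩
    · cases b
      · exact absurd hπ (by simp [Q, pc])
      · have hc : (S.Q η).c (.inl (v, j, true)) =
            sg v.2 * (S.rho η (S.ix (j, pre j v.1)) * S.yy j v.1) := rfl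
        rw [hc]
        obtain ⟨-, -, hax | hax⟩ := hS.yy_ax j v.1
        · refine le_trans ?_ (Complex.abs_re_le_norm _)
          have : ((S.rho η (S.ix i) : ℂ) * u -
              sg v.2 * (S.rho η (S.ix (j, pre j v.1)) * S.yy j v.1)).re =
              S.rho η (S.ix i) * u.re := by
            simp [hax]
          rw [this, abs_mul, abs_of_pos hρ0]
          exact hsep.trans (mul_le_mul_of_nonneg_left hre hρ0.le)
        · refine le_trans ?_ (Complex.abs_im_le_norm _)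
          have : ((S.rho η (S.ix i) : ℂ) * u -
              sg v.2 * (S.rho η (S.ix (j, pre j v.1)) * S.yy j v.1)).im =
              S.rho η (S.ix i) * u.im := by
            simp [hax]
          rw [this, abs_mul, abs_of_pos hρ0]
          exact hsep.trans (mul_le_mul_of_nonneg_left him hρ0.le)
    · exact absurd hπ (by simp [Q, pc])
    · exact absurd hπ (by simp [Q, pc])

theorem Ok.m_ev (hS : S.Ok) : ∀ᶠ η : ℝ in 𝓝[>] 0, ∀ p ∈ cube (DD h), ∀ d,
    S.aa η / 2 ≤ S.m η p d ∧ S.m η p d ≤ (h + 1) * S.aa η := by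
  filter_upwards [ev_small one_pos, ev_pow (2 * S.θ) (show 6 * h + 4 < 12 * h + 5 by omega),
    ev_pow 2 (show 6 * h + 4 < 12 * h + 6 by omega)] with η ⟨h0, h1⟩ h2 h3 p hp d
  obtain ⟨h4, h5⟩ := S.sum_aj hS h0 h1
  have h6 : 0 ≤ S.θ * S.am η := mul_nonneg hS.graph.θ_nonneg (by unfold am; positivity)
  have h7 : S.θ * S.am η ≤ S.aa η / 2 := by
    unfold am aa
    linarith
  have h8 : S.ad η ≤ S.aa η / 2 := by
    unfold ad aa
    linarith
  have h9 : 0 ≤ S.ad η := by unfold ad; positivity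
  have h10 := abs_le.1 (hp (d, d))
  have h11 : -S.ad η ≤ S.ad η * p (d, d) := by nlinarith [h10.1]
  have h12 : S.ad η * p (d, d) ≤ S.ad η := by nlinarith [h10.2]
  unfold m
  constructor
  · linarith
  · nlinarith

theorem Ok.mass_Y (hS : S.Ok) {η : ℝ} (h0 : 0 < η) {p : DD h × DD h → ℝ} (hp : p ∈ cube (DD h)) :
    η ^ 4 ≤ ∫ w, S.μ η p none w := by
  show η ^ 4 ≤ ∫ w, η ^ 4 * ∑ i : Fin h × DD h, scl (S.rho η (S.ix i)) (S.nu p) w
  rw [integral_const_mul, integral_finsetSum _ fun i _ =>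
    SEst0_scl_integrable (SEst0_rho_pos h0 _) (hS.ctl.smooth p).continuous
      fun u hu => (hS.ctl.supp p u hu).2.2.2]
  refine le_mul_of_one_le_right (by positivity) ?_
  have i0 : Fin h × DD h := (⟨0, hS.h_pos⟩, fun _ => false)
  have h1 : ∀ i : Fin h × DD h, 1 ≤ ∫ w, scl (S.rho η (S.ix i)) (S.nu p) w := fun i => by
    rw [SEst0_int_scl (SEst0_rho_pos h0 _)]
    exact hS.ctl.mass p hp
  exact (h1 i0).trans (Finset.single_le_sum
    (f := fun i : Fin h × DD h => ∫ w, scl (S.rho η (S.ix i)) (S.nu p) w)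
    (fun i _ => zero_le_one.trans (h1 i)) (Finset.mem_univ i0))

theorem Ok.μ_nonneg (hS : S.Ok) : ∀ᶠ η : ℝ in 𝓝[>] 0, ∀ p ∈ cube (DD h), ∀ v w,
    0 ≤ S.μ η p v w := by
  filter_upwards [ev_small one_pos, hS.m_ev] with η ⟨h0, _⟩ h2 p hp v w
  rcases v with _ | v
  · show 0 ≤ η ^ 4 * ∑ i : Fin h × DD h, scl (S.rho η (S.ix i)) (S.nu p) w
    exact mul_nonneg (by positivity)
      (Finset.sum_nonneg fun i _ => SEst0_scl_nonneg (hS.ctl.nonneg p hp) _ _)
  · show 0 ≤ S.m η p v.1 * scl (1 / 8) S.β1 w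
    have h3 : 0 ≤ S.aa η / 2 := by unfold aa; positivity
    exact mul_nonneg (h3.trans (h2 p hp v.1).1) (SEst0_scl_nonneg hS.bump.nonneg _ _)

theorem Ok.μ_lip (hS : S.Ok) {η : ℝ} (h0 : 0 < η) : ∃ Cl : ℝ, ∀ p p' v,
    ∫ w, |S.μ η p v w - S.μ η p' v w| ≤ Cl * ‖p - p'‖ := by
  have hA : 0 ≤ S.A := zero_le_one.trans hS.ctl.one_le
  have had : 0 ≤ S.ad η := by unfold ad; positivity
  refine ⟨η ^ 4 * (Fintype.card (Fin h × DD h) * (13 * S.A)) + S.ad η, fun p p' v => ?_⟩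
  have hn := norm_nonneg (p - p')
  rcases v with _ | v
  · have hs : ∀ u, |S.nu p u - S.nu p' u| ≠ 0 → ‖u‖ ≤ 2 := by
      intro u hu
      by_cases h1 : S.nu p u = 0
      · have h2 : S.nu p' u ≠ 0 := by
          intro h2
          apply hu
          rw [h1, h2, sub_self, abs_zero]
        exact (hS.ctl.supp p' u h2).2.2.2
      · exact (hS.ctl.supp p u h1).2.2.2
    have hc : Continuous fun u => |S.nu p u - S.nu p' u| :=
      ((hS.ctl.smooth p).continuous.sub (hS.ctl.smooth p').continuous).abs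
    have hI : ∀ i : Fin h × DD h,
        Integrable (scl (S.rho η (S.ix i)) fun u => |S.nu p u - S.nu p' u|) := fun i =>
      SEst0_scl_integrable (SEst0_rho_pos h0 _) hc hs
    have hb : ∫ u, |S.nu p u - S.nu p' u| ≤ 13 * (S.A * ‖p - p'‖) := by
      refine integral_abs_le (g := fun u => S.nu p u - S.nu p' u) (fun u hu => hs u ?_)
        fun u => hS.ctl.lip p p' u
      exact abs_ne_zero.2 hu
    have hle : ∀ w, |S.μ η p none w - S.μ η p' none w| ≤ η ^ 4 * ∑ i : Fin h × DD h,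
        scl (S.rho η (S.ix i)) (fun u => |S.nu p u - S.nu p' u|) w := by
      intro w
      show |η ^ 4 * ∑ i : Fin h × DD h, scl (S.rho η (S.ix i)) (S.nu p) w -
        η ^ 4 * ∑ i : Fin h × DD h, scl (S.rho η (S.ix i)) (S.nu p') w| ≤ _
      rw [← mul_sub, abs_mul, abs_of_nonneg (by positivity : (0 : ℝ) ≤ η ^ 4),
        ← Finset.sum_sub_distrib]
      refine mul_le_mul_of_nonneg_left ((Finset.abs_sum_le_sum_abs _ _).trans (le_of_eq ?_))
        (by positivity)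
      exact Finset.sum_congr rfl fun i _ => SEst0_abs_scl_sub _ _ _ _
    calc ∫ w, |S.μ η p none w - S.μ η p' none w|
        ≤ ∫ w, η ^ 4 * ∑ i : Fin h × DD h,
          scl (S.rho η (S.ix i)) (fun u => |S.nu p u - S.nu p' u|) w :=
          integral_mono_of_nonneg (Eventually.of_forall fun w => abs_nonneg _)
            ((integrable_finsetSum _ fun i _ => hI i).const_mul _) (Eventually.of_forall hle)
      _ = η ^ 4 * ∑ _i : Fin h × DD h, ∫ u, |S.nu p u - S.nu p' u| := by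
          rw [integral_const_mul, integral_finsetSum _ fun i _ => hI i]
          congr 1
          exact Finset.sum_congr rfl fun i _ => SEst0_int_scl (SEst0_rho_pos h0 _) _
      _ ≤ η ^ 4 * (Fintype.card (Fin h × DD h) * (13 * (S.A * ‖p - p'‖))) := by
          rw [Finset.sum_const, Finset.card_univ, nsmul_eq_mul]
          gcongr
      _ ≤ _ := by nlinarith [mul_nonneg had hn]
  · have he : ∀ w, |S.μ η p (some v) w - S.μ η p' (some v) w| =
        S.ad η * |(p - p') (v.1, v.1)| * scl (1 / 8) S.β1 w := by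
      intro w
      show |S.m η p v.1 * scl (1 / 8) S.β1 w - S.m η p' v.1 * scl (1 / 8) S.β1 w| = _
      rw [← sub_mul, abs_mul, abs_of_nonneg (SEst0_scl_nonneg hS.bump.nonneg _ _)]
      congr 1
      have : S.m η p v.1 - S.m η p' v.1 = S.ad η * (p - p') (v.1, v.1) := by
        unfold m
        rw [Pi.sub_apply]
        ring
      rw [this, abs_mul, abs_of_nonneg had]
    simp_rw [he]
    rw [integral_const_mul, SEst0_int_scl (by norm_num), hS.bump.int, mul_one]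
    have h1 : |(p - p') (v.1, v.1)| ≤ ‖p - p'‖ := norm_le_pi_norm (p - p') (v.1, v.1)
    have h2 : 0 ≤ η ^ 4 * (Fintype.card (Fin h × DD h) * (13 * S.A)) * ‖p - p'‖ := by positivity
    have h3 := mul_le_mul_of_nonneg_left h1 had
    nlinarith

end Fx

end Pool.Agent.MP_4f0ed6_gt

end

section

open Set Laplacian Filter Topology MeasureTheory Metric InnerProductSpace
open scoped ContDiff

namespace Pool.Agent.MP_4f0ed6_gt

theorem sEst_scl_nonneg {g : ℂ → ℝ} (hg : ∀ u, 0 ≤ g u) (ρ : ℝ) (w : ℂ) : 0 ≤ scl ρ g w :=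
  mul_nonneg (inv_nonneg.2 (sq_nonneg ρ)) (hg _)

theorem sEst_int_scl {ρ : ℝ} (hρ : 0 < ρ) (g : ℂ → ℝ) : ∫ u, scl ρ g u = ∫ u, g u := by
  have := integral_scl hρ (fun _ => 1) g
  simpa using this

theorem sEst_norm_sg (ε : Bool) : ‖((sg ε : ℝ) : ℂ)‖ = 1 := by
  rw [Complex.norm_real, Real.norm_eq_abs, abs_sg]

namespace Fx

variable {h nT nx : ℕ} {S : Fx h nT nx}

theorem sEst_rho_eq (η : ℝ) (k : ℕ) : S.rho η k = 1 / 8 * η ^ (6 * h * k) := by
  unfold rho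
  ring

theorem sEst_nu_abs (hS : S.Ok) {p : DD h × DD h → ℝ} (hp : p ∈ cube (DD h)) (u : ℂ) :
    |S.nu p u| ≤ S.A := by
  rw [abs_of_nonneg (hS.ctl.nonneg p hp u)]
  exact hS.ctl.le p hp u

theorem sEst_b_abs (hS : S.Ok) (u : ℂ) : |S.β1 u| ≤ S.A := by
  rw [abs_of_nonneg (hS.bump.nonneg u)]
  exact hS.bump.le u

theorem sEst_b_supp (hS : S.Ok) (u : ℂ) (hu : S.β1 u ≠ 0) : ‖u‖ ≤ 2 :=
  (hS.bump.supp u hu).trans (by norm_num)

theorem sEst_port (hS : S.Ok) (ε : Bool) (i : PT h nT nx) :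
    1 / 8 ≤ ‖((sg ε * S.z i / 8 : ℝ) : ℂ)‖ := by
  have h1 := (hS.z_mem i).1
  rw [Complex.norm_real, Real.norm_eq_abs, abs_div, abs_mul, abs_sg,
    abs_of_nonneg (by linarith : (0 : ℝ) ≤ S.z i), abs_of_pos (by norm_num : (0 : ℝ) < 8)]
  linarith

theorem sEst_yy (hS : S.Ok) (j : Fin h) (d : DD h) : 1 ≤ ‖S.yy j d‖ := by
  have h1 := (hS.x_mem d).1
  unfold yy
  rw [norm_mul, Complex.norm_real, Real.norm_eq_abs, abs_of_nonneg (by linarith)]
  split_ifs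
  · rw [Complex.norm_I]; linarith
  · rw [norm_one]; linarith

theorem sEst_core (hS : S.Ok) {η : ℝ} (h0 : 0 < η) (h1 : η ≤ 1) (v : Option (DD h × Bool)) (w : ℂ)
    (hw : S.β η v w ≠ 0) : w ∈ (S.Q η).core v := by
  have hr := rho_mem (S := S) h0 h1 S.ns
  have hg0 := hS.g0_pos
  have hg1 := hS.g0_le
  have hsep : (S.Q η).sep ≤ S.rho η S.ns / 4 := by
    show S.g0 * S.rho η S.ns / 4 ≤ _
    nlinarith [hr.1]
  cases v with
  | none =>
    obtain ⟨u, hu, rfl⟩ := scl_ne hr.1 (show scl (S.rho η S.ns) S.β1 w ≠ 0 from hw)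
    have hu2 := hS.bump.supp u hu
    have hn : ‖(S.rho η S.ns : ℂ) * u‖ ≤ S.rho η S.ns / 2 := by
      rw [norm_mul, Complex.norm_real, Real.norm_eq_abs, abs_of_pos hr.1]
      nlinarith [hr.1]
    refine ⟨by linarith [hr.2], ?_⟩
    rintro (⟨v, j, _ | _⟩ | ⟨v, t, i⟩ | ⟨e, ε⟩) hπ
    · exact absurd hπ (by simp [Q, pc])
    · have hlt := rho_lt (S := S) h0 h1 (hS.ix_lt (j, pre j v.1))
      have hr' := rho_mem (S := S) h0 h1 (S.ix (j, pre j v.1))
      have hp : η ^ (6 * h) ≤ 1 := pow_le_one₀ h0.le h1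
      have hc : S.rho η S.ns ≤ ‖(S.Q η).c (.inl (v, j, true))‖ := by
        show _ ≤ ‖((sg v.2 : ℝ) : ℂ) * S.cY η j v.1‖
        unfold cY
        rw [norm_mul, norm_mul, sEst_norm_sg, Complex.norm_real, Real.norm_eq_abs,
          abs_of_pos hr'.1]
        have := sEst_yy hS j v.1
        nlinarith [hr'.1]
      have := norm_sub_norm_le ((S.Q η).c (.inl (v, j, true))) ((S.rho η S.ns : ℂ) * u)
      rw [norm_sub_rev] at this
      linarith [hr.1]
    · exact absurd hπ (by simp [Q, pc])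
    · exact absurd hπ (by simp [Q, pc])
  | some v =>
    obtain ⟨u, hu, rfl⟩ := scl_ne (by norm_num : (0 : ℝ) < 1 / 8)
      (show scl (1 / 8) S.β1 w ≠ 0 from hw)
    have hu2 := hS.bump.supp u hu
    have hn : ‖((1 / 8 : ℝ) : ℂ) * u‖ ≤ 1 / 16 := by
      rw [norm_mul, Complex.norm_real, Real.norm_eq_abs, abs_of_pos (by norm_num)]
      linarith
    refine ⟨by linarith, ?_⟩
    have key : ∀ π, 1 / 8 ≤ ‖(S.Q η).c π‖ → (S.Q η).sep ≤ ‖((1 / 8 : ℝ) : ℂ) * u - (S.Q η).c π‖ := by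
      intro π hc
      have := norm_sub_norm_le ((S.Q η).c π) (((1 / 8 : ℝ) : ℂ) * u)
      rw [norm_sub_rev] at this
      linarith [hr.2]
    rintro (⟨v', j, _ | _⟩ | ⟨v', t, i⟩ | ⟨e, ε⟩) hπ
    · exact key _ (sEst_port hS _ _)
    · exact absurd hπ (by simp [Q, pc])
    · exact key _ (sEst_port hS _ _)
    · exact key _ (sEst_port hS _ _)

theorem Ok.shell_pb (hS : S.Ok) : ∀ᶠ η : ℝ in 𝓝[>] 0, ∀ p ∈ cube (DD h), ∀ i : Fin h × DD h,
    PB (scl (S.rho η (S.ix i)) (S.nu p)) η⁻¹ := by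
  have hall : ∀ᶠ η : ℝ in 𝓝[>] 0, ∀ i : Fin h × DD h,
      1000 * S.A * (1 + |Real.log (1 / 8 * η ^ (6 * h * S.ix i))|) ≤ η⁻¹ :=
    Filter.eventually_all.2 fun i => ev_log _ (by norm_num) _
  filter_upwards [hall, ev_small one_pos] with η hη h01 p hp i
  have hr := rho_mem (S := S) h01.1 h01.2 (S.ix i)
  refine (PB.of_scl (hS.ctl.smooth p).continuous (fun u hu => (hS.ctl.supp p u hu).2.2.2)
    (sEst_nu_abs hS hp) hr.1 hr.2).mono ?_
  rw [sEst_rho_eq]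
  exact hη i

theorem Ok.bump_ev (hS : S.Ok) : ∀ᶠ η : ℝ in 𝓝[>] 0, (S.Q η).Bump (S.β η) η⁻¹ := by
  have hg0 := hS.g0_pos
  filter_upwards [ev_log (1000 * S.A) (by norm_num : (0 : ℝ) < 1 / 8) (6 * h * S.ns),
    ev_log (1000 * S.A) (by norm_num : (0 : ℝ) < 1 / 8) 0,
    ev_log 1 (by positivity : (0 : ℝ) < S.g0 / 32) (6 * h * S.ns),
    ev_small one_pos] with η e1 e2 e3 h01
  have hr := rho_mem (S := S) h01.1 h01.2 S.ns
  refine ⟨?_, ?_, ?_, sEst_core hS h01.1 h01.2, ?_, ?_, ?_⟩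
  · rintro (_ | v)
    · exact scl_smooth hS.bump.smooth _
    · exact scl_smooth hS.bump.smooth _
  · rintro (_ | v) w
    · exact sEst_scl_nonneg hS.bump.nonneg _ _
    · exact sEst_scl_nonneg hS.bump.nonneg _ _
  · rintro (_ | v)
    · exact (sEst_int_scl hr.1 _).trans hS.bump.int
    · exact (sEst_int_scl (by norm_num : (0 : ℝ) < 1 / 8) _).trans hS.bump.int
  · rintro (_ | v)
    · refine (PB.of_scl hS.bump.smooth.continuous (sEst_b_supp hS) (sEst_b_abs hS)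
        hr.1 hr.2).mono ?_
      rw [sEst_rho_eq]
      exact e1
    · refine (PB.of_scl hS.bump.smooth.continuous (sEst_b_supp hS) (sEst_b_abs hS)
        (by norm_num : (0 : ℝ) < 1 / 8) le_rfl).mono ?_
      rw [pow_zero, mul_one] at e2
      exact e2
  · exact (one_le_inv₀ h01.1).2 h01.2
  · have hs : (S.Q η).sep = S.g0 / 32 * η ^ (6 * h * S.ns) := by
      show S.g0 * S.rho η S.ns / 4 = _
      rw [sEst_rho_eq]
      ring
    rw [hs]
    linarith

theorem Ok.est (hS : S.Ok) : ∀ᶠ η : ℝ in 𝓝[>] 0, ∀ p ∈ cube (DD h),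
    (S.Q η).Est (S.β η) (S.μ η p) η⁻¹ (S.mm η) := by
  filter_upwards [hS.Q_ok, hS.bump_ev, hS.shell_pb, hS.m_ev, ev_small one_pos,
    ev_pow (8 * (13 * Fintype.card (Fin h × DD h) * S.A)) (by norm_num : 0 < 3),
    ev_pow (8 * (h + 1 : ℝ)) (by norm_num : 0 < 9)] with η hQ hB hP hm h01 e1 e2 p hp
  have h0 := h01.1
  have hA := hS.ctl.one_le
  have haa : 0 < S.aa η := pow_pos h0 _
  have hm0 : ∀ d, 0 ≤ S.m η p d := fun d => by linarith [(hm p hp d).1]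
  have hi : 0 < η⁻¹ := inv_pos.2 h0
  have hc0 : (0 : ℝ) ≤ Fintype.card (Fin h × DD h) := Nat.cast_nonneg _
  refine ⟨hQ, hB, ?_, ?_, ?_, ?_⟩
  · rintro (_ | v) w hw
    · have h1 : ∑ i : Fin h × DD h, scl (S.rho η (S.ix i)) (S.nu p) w ≠ 0 :=
        right_ne_zero_of_mul hw
      obtain ⟨i, -, hi⟩ := Finset.exists_ne_zero_of_sum_ne_zero h1
      obtain ⟨u, hu, rfl⟩ := scl_ne (rho_mem (S := S) h01.1 h01.2 (S.ix i)).1 hi
      exact hS.shell_core h01.1 h01.2 i hu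
    · exact hB.supp (some v) w (right_ne_zero_of_mul hw)
  · rintro (_ | v)
    · have h1 : (fun w => |S.μ η p none w|) =
          fun w => η ^ 4 * ∑ i : Fin h × DD h, scl (S.rho η (S.ix i)) (S.nu p) w := by
        funext w
        exact abs_of_nonneg (mul_nonneg (pow_nonneg h0.le _)
          (Finset.sum_nonneg fun i _ => sEst_scl_nonneg (hS.ctl.nonneg p hp) _ _))
      rw [h1, integral_const_mul, integral_finsetSum _ fun i _ => (hP p hp i).integrable]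
      have h2 : ∀ i : Fin h × DD h, ∫ w, scl (S.rho η (S.ix i)) (S.nu p) w ≤ 13 * S.A := by
        intro i
        rw [sEst_int_scl (rho_mem (S := S) h01.1 h01.2 (S.ix i)).1]
        have h3 := integral_abs_le (fun u hu => (hS.ctl.supp p u hu).2.2.2) (sEst_nu_abs hS hp)
        have h4 : (fun u => |S.nu p u|) = S.nu p := by
          funext u
          exact abs_of_nonneg (hS.ctl.nonneg p hp u)
        rwa [h4] at h3
      have h5 := Finset.sum_le_card_nsmul Finset.univ _ _ fun i _ => h2 i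
      rw [Finset.card_univ, nsmul_eq_mul] at h5
      show _ ≤ 13 * Fintype.card (Fin h × DD h) * S.A * η ^ 4
      have h6 := mul_le_mul_of_nonneg_left h5 (pow_nonneg h0.le 4)
      linarith
    · have h1 : (fun w => |S.μ η p (some v) w|) =
          fun w => S.m η p v.1 * S.β η (some v) w := by
        funext w
        exact abs_of_nonneg (mul_nonneg (hm0 _) (hB.nonneg (some v) w))
      rw [h1, integral_const_mul, hB.int, mul_one]
      exact (hm p hp v.1).2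
  · rintro (_ | v)
    · refine ((PB.sum Finset.univ fun i _ => hP p hp i).const_mul (η ^ 4)).mono ?_
      rw [Finset.sum_const, Finset.card_univ, nsmul_eq_mul, abs_of_pos (pow_pos h0 4)]
      show _ ≤ η⁻¹ * (13 * Fintype.card (Fin h × DD h) * S.A * η ^ 4)
      have h1 : 0 ≤ η ^ 4 * (Fintype.card (Fin h × DD h) * η⁻¹) := by positivity
      nlinarith
    · refine ((hB.pb (some v)).const_mul (S.m η p v.1)).mono ?_
      rw [abs_of_nonneg (hm0 _), mul_comm]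
      exact mul_le_mul_of_nonneg_left (hm p hp v.1).2 hi.le
  · rintro (_ | v)
    · show 8 * η⁻¹ * (13 * Fintype.card (Fin h × DD h) * S.A * η ^ 4) ≤ 1
      have h1 : 8 * η⁻¹ * (13 * Fintype.card (Fin h × DD h) * S.A * η ^ 4) =
          8 * (13 * Fintype.card (Fin h × DD h) * S.A) * η ^ 3 := by
        field_simp
      rw [h1]
      simpa using e1
    · show 8 * η⁻¹ * ((h + 1) * S.aa η) ≤ 1
      have h1 := S.aa_le hS h01.1 h01.2
      have h2 : 8 * η⁻¹ * ((h + 1 : ℝ) * η ^ 10) = 8 * (h + 1 : ℝ) * η ^ 9 := by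
        field_simp
      have h3 : 8 * η⁻¹ * ((h + 1 : ℝ) * S.aa η) ≤ 8 * η⁻¹ * ((h + 1 : ℝ) * η ^ 10) := by
        gcongr
      rw [pow_zero] at e2
      linarith

end Fx

end Pool.Agent.MP_4f0ed6_gt

end

section

open Set Laplacian Filter Topology MeasureTheory Metric InnerProductSpace
open scoped ContDiff

namespace Pool.Agent.MP_4f0ed6_gt

namespace Plumb

variable {V P : Type} [Fintype P] {Q : Plumb V P} {β μ : V → ℂ → ℝ} {Λ s κ N : ℝ} {m u : V → ℝ}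

omit [Fintype P] in
theorem Osc_log {x : ℝ} (hp : 0 < Q.sep) (hΛ : |Real.log Q.sep| ≤ Λ) (h1 : Q.sep ≤ x)
    (h2 : x ≤ 1) : |Real.log x| ≤ Λ := by
  have h3 : Real.log x ≤ 0 := Real.log_nonpos (hp.le.trans h1) h2
  have h4 : Real.log Q.sep ≤ Real.log x := Real.log_le_log hp h1
  have h5 := (abs_le.1 hΛ).1
  rw [abs_of_nonpos h3]
  linarith

theorem Osc_sum {v : V} {b : P → ℝ} {B : ℝ} (hB0 : 0 ≤ B) (hB : ∀ π, Q.pc π = v → |b π| ≤ B)
    (hΛ : 0 ≤ Λ) {l : P → ℝ} (hl : ∀ π, Q.pc π = v → |l π| ≤ Λ) :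
    |∑ π ∈ Q.pts v, b π * l π| ≤ Q.n * (B * Λ) := by
  refine abs_sum_pts_le (mul_nonneg hB0 hΛ) fun π hπ => ?_
  rw [abs_mul]
  exact mul_le_mul (hB π (mem_pts.1 hπ)) (hl π (mem_pts.1 hπ)) (abs_nonneg _) hB0

omit [Fintype P] in
theorem Osc_core_ne (hb : Q.Bump β Λ) (v : V) : (Q.core v).Nonempty := by
  by_contra h
  have h0 : ∀ w, β v w = 0 := fun w => by
    by_contra k
    exact h ⟨w, hb.supp v w k⟩
  have h1 := hb.int v
  simp [h0] at h1

theorem Osc_tri {a c x y z k A D : ℝ} (h : |a - (c + x + y)| ≤ k) (hx : |x| ≤ A)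
    (hy : |y| ≤ D) (hz : k + A + D ≤ z) : |a - c| ≤ z := by
  have h1 := abs_le.1 h
  have h2 := abs_le.1 hx
  have h3 := abs_le.1 hy
  rw [abs_le]
  constructor <;> linarith [h1.1, h1.2, h2.1, h2.2, h3.1, h3.2]

theorem Rep.anti (hQ : Q.Ok) (ρ : Q.Rep β μ s κ N u) (π : P) : ρ.b (Q.σ π) = -ρ.b π := by
  have h1 := ρ.tube π
  have h2 := ρ.tube (Q.σ π)
  rw [hQ.σσ, hQ.L_σ] at h2
  apply mul_left_cancel₀ (hQ.L_pos π).ne'
  linarith

theorem Rep.sum_t [Fintype V] (hQ : Q.Ok) (ρ : Q.Rep β μ s κ N u) :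
    ∑ v, ρ.t v = s * ∑ v, ((∫ w, μ v w * ρ.φ v w) + ρ.e v) := by
  have h1 : ∑ π, ρ.b (Q.σ π) = ∑ π, ρ.b π :=
    Equiv.sum_comp (Function.Involutive.toPerm Q.σ hQ.σσ) ρ.b
  have h2 : ∑ π, ρ.b π = 0 := by
    simp only [ρ.anti hQ, Finset.sum_neg_distrib] at h1
    linarith
  simp only [ρ.t_eq, Finset.sum_add_distrib, Finset.sum_neg_distrib, ← Finset.mul_sum]
  rw [sum_pts, h2, neg_zero, zero_add]

theorem Rep.osc (hE : Q.Est β μ Λ m) (ρ : Q.Rep β μ s κ N u) (hs : s ∈ Icc (0 : ℝ) 1)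
    (hκ : 0 ≤ κ * N) (v : V) {B : ℝ} (hB0 : 0 ≤ B) (hB : ∀ π, Q.pc π = v → |ρ.b π| ≤ B) :
    (∀ w ∈ Q.core v, |ρ.φ v w - u v| ≤ 16 * Λ * (Q.n * B + m v * |u v| + κ * N)) ∧
      ∀ π, Q.pc π = v → |ρ.R π - u v| ≤ 16 * Λ * (Q.n * B + m v * |u v| + κ * N) := by
  have hQ := hE.ok
  have hb := hE.bump
  have hΛ1 := hb.one_le
  have hΛ : 0 ≤ Λ := zero_le_one.trans hΛ1
  have hm : 0 ≤ m v := (integral_nonneg fun w => abs_nonneg _).trans (hE.mass v)
  have hn : 0 ≤ Q.n := zero_le_one.trans one_le_n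
  obtain ⟨w₀, hw₀, hmax⟩ := (isCompact_core (Q := Q) v).exists_isMaxOn (Osc_core_ne hb v)
    (f := fun w => |ρ.φ v w|) (ρ.cont v).abs.continuousOn
  obtain ⟨S, hSd⟩ : ∃ S, S = |ρ.φ v w₀| := ⟨_, rfl⟩
  have hS0 : 0 ≤ S := hSd ▸ abs_nonneg _
  have hS : ∀ w ∈ Q.core v, |ρ.φ v w| ≤ S := fun w hw => hSd ▸ hmax hw
  have hint : |∫ w, μ v w * ρ.φ v w| ≤ m v * S :=
    abs_integral_mul_le (hE.μ_pb v).integrable hS0 (hE.mass v)
      fun w h => hS w (hE.μ_supp v w h)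
  have ht : |ρ.t v| ≤ Q.n * B + m v * S + κ * N := by
    have h1 : |∑ π ∈ Q.pts v, ρ.b π| ≤ Q.n * B :=
      abs_sum_pts_le hB0 fun π hπ => hB π (mem_pts.1 hπ)
    have h2 : |(∫ w, μ v w * ρ.φ v w) + ρ.e v| ≤ m v * S + κ * N :=
      (abs_add_le _ _).trans (add_le_add hint (ρ.e_le v))
    have h3 : |s * ((∫ w, μ v w * ρ.φ v w) + ρ.e v)| ≤ m v * S + κ * N := by
      rw [abs_mul, abs_of_nonneg hs.1]
      exact (mul_le_of_le_one_left (abs_nonneg _) hs.2).trans h2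
    rw [ρ.t_eq]
    refine (abs_add_le _ _).trans ?_
    rw [abs_neg]
    linarith
  have hp1 : PB (fun z => -s * μ v z * ρ.φ v z) (S * (Λ * m v)) := by
    refine (hE.μ_pb v).of_le hS0
      ((continuous_const.mul (hE.μ_pb v).cont).mul (ρ.cont v)) fun z => ?_
    by_cases h : μ v z = 0
    · simp [h]
    · rw [abs_mul, abs_mul, abs_neg, abs_of_nonneg hs.1, mul_comm S]
      exact mul_le_mul (mul_le_of_le_one_left (abs_nonneg _) hs.2) (hS z (hE.μ_supp v z h))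
        (abs_nonneg _) (abs_nonneg _)
  have hp := hp1.add ((hb.pb v).const_mul (ρ.t v))
  obtain ⟨E, hEd⟩ : ∃ E, E = 2 * Λ * (Q.n * B + m v * S + κ * N) := ⟨_, rfl⟩
  have hz : κ * N + Q.n * (B * Λ) + (S * (Λ * m v) + |ρ.t v| * Λ) ≤ E := by
    have h1 := mul_le_mul_of_nonneg_right ht hΛ
    have h2 := mul_le_mul_of_nonneg_right hΛ1 hκ
    rw [hEd]
    nlinarith
  have hE0 : 0 ≤ E := by rw [hEd]; positivity
  have hφ : ∀ w ∈ Q.core v, |ρ.φ v w - ρ.C v| ≤ E := fun w hw => by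
    refine Osc_tri (ρ.rep v w (hQ.core_sub_bulk v hw)) (Osc_sum hB0 hB hΛ fun π hπ => ?_)
      (hp.abs_NP (hw.1.trans (by norm_num))) hz
    refine Osc_log hQ.sep_pos hb.log_le (hw.2 π hπ) ((norm_sub_le _ _).trans ?_)
    linarith [hw.1, hQ.c_le π]
  have hR : ∀ π, Q.pc π = v → |ρ.R π - ρ.C v| ≤ E := fun π hπ => by
    have h := ρ.repR π
    rw [hπ] at h
    refine Osc_tri h (Osc_sum hB0 hB hΛ fun π' hπ' => ?_)
      (hp.abs_NP ((hQ.c_le π).trans (by norm_num))) hz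
    rcases eq_or_ne π π' with rfl | hne
    · simpa using hΛ
    · refine Osc_log hQ.sep_pos hb.log_le (hQ.c_sep π π' hne (hπ.trans hπ'.symm))
        ((norm_sub_le _ _).trans ?_)
      linarith [hQ.c_le π, hQ.c_le π']
  have hC : |u v - ρ.C v| ≤ E := by
    have h1 : ∫ w, |β v w| ≤ 1 := by
      simp only [abs_of_nonneg (hb.nonneg v _)]
      exact (hb.int v).le
    have h2 := abs_integral_mul_le (φ := fun w => ρ.φ v w - ρ.C v) (hb.pb v).integrable hE0 h1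
      fun w h => hφ w (hb.supp v w h)
    have h3 : Integrable fun w => β v w * ρ.φ v w :=
      ((hb.pb v).cont.mul (ρ.cont v)).integrable_of_hasCompactSupport (hb.pb v).hcs.mul_right
    simp only [mul_sub] at h2
    rw [integral_sub h3 ((hb.pb v).integrable.mul_const _), integral_mul_const, ρ.norm, hb.int,
      one_mul, one_mul] at h2
    exact h2
  have hfin : ∀ a, |a - ρ.C v| ≤ E → |a - u v| ≤ 2 * E := fun a ha => by
    have h1 := abs_le.1 ha
    have h2 := abs_le.1 hC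
    rw [abs_le]
    constructor <;> linarith [h1.1, h1.2, h2.1, h2.2]
  have hSle : S ≤ |u v| + 2 * E := by
    have h1 := hfin _ (hφ w₀ hw₀)
    have h2 := abs_sub_abs_le_abs_sub (ρ.φ v w₀) (u v)
    rw [hSd]
    linarith
  have hX : 0 ≤ Q.n * B + κ * N := by positivity
  have hsm := hE.small v
  have h1 : S ≤ 2 * |u v| + 8 * Λ * (Q.n * B + κ * N) := by
    have := mul_le_mul_of_nonneg_right hsm hS0
    rw [hEd] at hSle
    nlinarith
  have h2 : m v * S ≤ 2 * (m v * |u v|) + (Q.n * B + κ * N) := by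
    have h3 := mul_le_mul_of_nonneg_left h1 hm
    have h4 := mul_le_mul_of_nonneg_right hsm hX
    nlinarith
  have h3 : 2 * E ≤ 16 * Λ * (Q.n * B + m v * |u v| + κ * N) := by
    have h4 := mul_le_mul_of_nonneg_left h2 hΛ
    have h5 : 0 ≤ Λ * (m v * |u v|) := by positivity
    have h6 := mul_nonneg hΛ hX
    rw [hEd]
    nlinarith
  exact ⟨fun w hw => (hfin _ (hφ w hw)).trans h3, fun π hπ => (hfin _ (hR π hπ)).trans h3⟩

end Plumb

end Pool.Agent.MP_4f0ed6_gt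

end

section

open Set Laplacian Filter Topology MeasureTheory Metric InnerProductSpace
open scoped ContDiff

namespace Pool.Agent.MP_4f0ed6_gt

namespace Fx

variable {h nT nx : ℕ} {S : Fx h nT nx}

theorem Bnd_aa_mem {η : ℝ} (h0 : 0 < η) (h1 : η ≤ 1) : 0 < S.aa η ∧ S.aa η ≤ 1 :=
  ⟨pow_pos h0 _, pow_le_one₀ h0.le h1⟩

theorem Bnd_tube {a c x y R R' E E' : ℝ} (hc0 : 0 ≤ c) (hc : c ≤ a) (h1 : |R - x| ≤ E)
    (h2 : |R' - y| ≤ E') : |c * (R - R') - c * (x - y)| ≤ a * (E + E') := by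
  have e : c * (R - R') - c * (x - y) = c * ((R - x) - (R' - y)) := by ring
  rw [e, abs_mul, abs_of_nonneg hc0]
  have h3 : |(R - x) - (R' - y)| ≤ E + E' := (abs_sub _ _).trans (add_le_add h1 h2)
  exact mul_le_mul hc h3 (abs_nonneg _) (hc0.trans hc)

theorem Bnd_sum {ι : Type} [Fintype ι] {F : ι → ℝ} {B : ℝ} (hF : ∀ i, |F i| ≤ B) :
    |∑ i, F i| ≤ Fintype.card ι * B := by
  refine (Finset.abs_sum_le_sum_abs _ _).trans ?_
  refine (Finset.sum_le_sum fun i _ => hF i).trans ?_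
  simp

theorem Ok.bnd (hS : S.Ok) : ∃ C : ℝ, 0 ≤ C ∧ ∀ᶠ η : ℝ in 𝓝[>] 0, ∀ p ∈ cube (DD h),
    ∀ s ∈ Icc (0 : ℝ) 1, ∀ N u, (∀ v, |u v| ≤ N) → ∀ ρ : S.Rp η p s N u,
      (∀ v, ∀ w ∈ (S.Q η).core (some v),
        |ρ.φ (some v) w - u (some v)| ≤ C * (S.aa η / η * N)) ∧
      (∀ v π, S.pc π = some v → |ρ.R π - u (some v)| ≤ C * (S.aa η / η * N)) ∧
      (∀ w ∈ (S.Q η).core none,
        |ρ.φ none w - u none| ≤ C * (S.aa η / η * N + η ^ 3 * |u none|)) ∧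
      ∀ π, S.pc π = none → |ρ.R π - u none| ≤ C * (S.aa η / η * N + η ^ 3 * |u none|) := by
  set n : ℝ := Fintype.card (PP h nT nx) + 1 with hn
  set K : ℝ := 13 * Fintype.card (Fin h × DD h) * S.A with hK
  have hA : 0 ≤ S.A := zero_le_one.trans hS.ctl.one_le
  have hn0 : 0 ≤ n := by positivity
  have hK0 : 0 ≤ K := by positivity
  have hh : (0 : ℝ) ≤ h := Nat.cast_nonneg _
  refine ⟨16 * (4 * n + h + 2 + K), by positivity, ?_⟩
  filter_upwards [hS.est, ev_small one_pos] with η hE ⟨h0, h1⟩ p hp s hs N u hu ρ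
  have hN : 0 ≤ N := (abs_nonneg _).trans (hu none)
  obtain ⟨ha0, ha1⟩ := Bnd_aa_mem (S := S) h0 h1
  have hB : ∀ π, |ρ.b π| ≤ 4 * S.aa η * N := fun π =>
    (S.b_eq h0 ρ π).2.trans (by
      have := S.cond_le h0 h1 hS π
      gcongr)
  have hosc := fun v => Plumb.Rep.osc (hE p hp) ρ hs (by positivity) v
    (B := 4 * S.aa η * N) (by positivity) (fun π _ => hB π)
  have ha3 : S.aa η ^ 3 ≤ S.aa η := by
    have : S.aa η ^ 3 = S.aa η * S.aa η ^ 2 := by ring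
    rw [this]
    exact mul_le_of_le_one_right ha0.le (pow_le_one₀ ha0.le ha1)
  have hX : 0 ≤ S.aa η / η * N := by positivity
  have hsome : ∀ v, 16 * η⁻¹ * ((S.Q η).n * (4 * S.aa η * N) + S.mm η (some v) * |u (some v)| +
      S.aa η ^ 3 * N) ≤ 16 * (4 * n + h + 2 + K) * (S.aa η / η * N) := by
    intro v
    have e1 : (S.Q η).n = n := rfl
    have e2 : S.mm η (some v) = (h + 1) * S.aa η := rfl
    rw [e1, e2]
    have i1 : n * (4 * S.aa η * N) + (h + 1) * S.aa η * |u (some v)| + S.aa η ^ 3 * N ≤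
        n * (4 * S.aa η * N) + (h + 1) * S.aa η * N + S.aa η * N := by
      have := hu (some v)
      gcongr
    calc _ ≤ 16 * η⁻¹ * (n * (4 * S.aa η * N) + (h + 1) * S.aa η * N + S.aa η * N) := by
          gcongr
      _ = 16 * (4 * n + h + 2) * (S.aa η / η * N) := by ring
      _ ≤ _ := mul_le_mul_of_nonneg_right (by linarith) hX
  have hnone : 16 * η⁻¹ * ((S.Q η).n * (4 * S.aa η * N) + S.mm η none * |u none| +
      S.aa η ^ 3 * N) ≤ 16 * (4 * n + h + 2 + K) * (S.aa η / η * N + η ^ 3 * |u none|) := by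
    have e1 : (S.Q η).n = n := rfl
    have e2 : S.mm η none = K * η ^ 4 := rfl
    rw [e1, e2]
    have hY : 0 ≤ η ^ 3 * |u none| := by positivity
    calc _ ≤ 16 * η⁻¹ * (n * (4 * S.aa η * N) + K * η ^ 4 * |u none| + S.aa η * N) := by
          gcongr
      _ = 16 * (4 * n + 1) * (S.aa η / η * N) + 16 * K * (η ^ 3 * |u none|) := by
          field_simp
          ring
      _ ≤ 16 * (4 * n + h + 2 + K) * (S.aa η / η * N) +
            16 * (4 * n + h + 2 + K) * (η ^ 3 * |u none|) := by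
          exact add_le_add (mul_le_mul_of_nonneg_right (by linarith) hX)
            (mul_le_mul_of_nonneg_right (by linarith) hY)
      _ = _ := by ring
  exact ⟨fun v w hw => ((hosc (some v)).1 w hw).trans (hsome v),
    fun v π hπ => ((hosc (some v)).2 π hπ).trans (hsome v),
    fun w hw => ((hosc none).1 w hw).trans hnone,
    fun π hπ => ((hosc none).2 π hπ).trans hnone⟩

theorem t_some {η s N : ℝ} {p : DD h × DD h → ℝ} {u : Option (DD h × Bool) → ℝ}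
    (ρ : S.Rp η p s N u) (v : DD h × Bool) :
    ρ.t (some v) = -(∑ π ∈ (S.Q η).pts (some v), ρ.b π) +
      s * (S.m η p v.1 * u (some v) + ρ.e (some v)) := by
  rw [ρ.t_eq, ← ρ.norm (some v), ← integral_const_mul]
  congr 3
  refine integral_congr_ae (Eventually.of_forall fun w => ?_)
  exact mul_assoc _ _ _

theorem Ok.first (hS : S.Ok) : ∃ C : ℝ, 0 ≤ C ∧ ∀ᶠ η : ℝ in 𝓝[>] 0, ∀ p ∈ cube (DD h),
    ∀ s ∈ Icc (0 : ℝ) 1, ∀ N u, (∀ v, |u v| ≤ N) → ∀ (ρ : S.Rp η p s N u) (v : DD h × Bool),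
      |ρ.t (some v) - ((s * S.m η p v.1 - ∑ j, S.aj η j) * u (some v) +
        (∑ j, S.aj η j) * u none - S.am η * Lap S.Pm (fun v => u (some v)) v)| ≤
        C * (S.aa η ^ 2 / η * N + S.aa η * η ^ 3 * |u none|) := by
  obtain ⟨C, hC, hev⟩ := hS.bnd
  refine ⟨2 * h * C + 4 * nT * C + 4 * nx + 1, by positivity, ?_⟩
  filter_upwards [hev, ev_small one_pos] with η hb ⟨h0, h1⟩ p hp s hs N u hu ρ v
  obtain ⟨-, hR, -, hR'⟩ := hb p hp s hs N u hu ρ
  have hN : 0 ≤ N := (abs_nonneg _).trans (hu none)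
  obtain ⟨ha0, ha1⟩ := Bnd_aa_mem (S := S) h0 h1
  set X : ℝ := S.aa η ^ 2 / η * N with hX
  set Y : ℝ := S.aa η * η ^ 3 * |u none| with hY
  have hX0 : 0 ≤ X := by positivity
  have hY0 : 0 ≤ Y := by positivity
  have h3 : S.aa η ^ 3 * N ≤ X := by
    have : S.aa η ^ 3 ≤ S.aa η ^ 2 / η := by
      rw [le_div_iff₀ h0]
      have : S.aa η ^ 3 * η = S.aa η ^ 2 * (S.aa η * η) := by ring
      rw [this]
      exact mul_le_of_le_one_right (by positivity) (mul_le_one₀ ha1 h0.le h1)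
    rw [hX]
    gcongr
  have hleg : ∀ j, |ρ.b (.inl (v, j, false)) - S.aj η j * (u (some v) - u none)| ≤
      2 * C * (X + Y) := by
    intro j
    rw [(S.b_eq h0 ρ _).1]
    refine (Bnd_tube (S.aj_pos h0 j).le (S.aj_le h0 h1 j) (hR v (.inl (v, j, false)) rfl)
      (hR' (.inl (v, j, true)) rfl)).trans ?_
    have : S.aa η * (C * (S.aa η / η * N) + C * (S.aa η / η * N + η ^ 3 * |u none|)) =
        2 * C * X + C * Y := by rw [hX, hY]; ring
    rw [this]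
    nlinarith [mul_nonneg hC hY0]
  have hmain : ∀ t, |ρ.b (.inr (.inl (v, t, false))) + ρ.b (.inr (.inl (v, t, true))) -
      S.am η * (2 * u (some v) - u (some (S.Pm t v)) - u (some ((S.Pm t).symm v)))| ≤
      4 * C * X := by
    intro t
    rw [(S.b_eq h0 ρ _).1, (S.b_eq h0 ρ (.inr (.inl (v, t, true)))).1]
    have c0 := (S.cond_pos h0 (.inr (.inl (v, t, false)))).le
    have c1 := S.cond_le h0 h1 hS (.inr (.inl (v, t, false)))
    have i1 := Bnd_tube c0 c1 (hR v (.inr (.inl (v, t, false))) rfl)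
      (hR (S.Pm t v) (.inr (.inl (S.Pm t v, t, true))) rfl)
    have i2 := Bnd_tube c0 c1 (hR v (.inr (.inl (v, t, true))) rfl)
      (hR ((S.Pm t).symm v) (.inr (.inl ((S.Pm t).symm v, t, false))) rfl)
    have e : S.aa η * (C * (S.aa η / η * N) + C * (S.aa η / η * N)) = 2 * C * X := by
      rw [hX]; ring
    rw [e] at i1 i2
    have i3 := (abs_add_le _ _).trans (add_le_add i1 i2)
    refine le_of_eq_of_le (congrArg _ ?_) (i3.trans_eq (by ring))
    simp only [cond, σ]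
    ring
  have hext : ∀ e : Fin nx, |if v.1 = (fun _ => false) then ρ.b (.inr (.inr (e, v.2))) else 0| ≤
      4 * X := by
    intro e
    split_ifs
    · refine (S.b_eq h0 ρ _).2.trans ?_
      have : 4 * S.cond η (.inr (.inr (e, v.2))) * N = 4 * (S.aa η ^ 3 * N) := by
        simp only [cond]; ring
      rw [this]
      linarith
    · rw [abs_zero]
      positivity
  have he : |s * ρ.e (some v)| ≤ X := by
    rw [abs_mul, abs_of_nonneg hs.1]
    exact (mul_le_of_le_one_left (abs_nonneg _) hs.2).trans ((ρ.e_le _).trans h3)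
  have s1 := Bnd_sum hleg
  have s2 := Bnd_sum hmain
  have s3 := Bnd_sum hext
  rw [Fintype.card_fin] at s1 s2 s3
  rw [Finset.sum_sub_distrib, ← Finset.sum_mul] at s1
  rw [Finset.sum_sub_distrib, ← Finset.mul_sum] at s2
  rw [t_some, S.sum_pts_some]
  unfold Lap
  have hh : (0 : ℝ) ≤ h := Nat.cast_nonneg _
  have hT : (0 : ℝ) ≤ nT := Nat.cast_nonneg _
  have hx : (0 : ℝ) ≤ nx := Nat.cast_nonneg _
  have k1 : 0 ≤ nT * C * Y := by positivity
  have k2 : 0 ≤ nx * Y := by positivity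
  rw [abs_le] at s1 s2 s3 he ⊢
  constructor <;> nlinarith [s1.1, s1.2, s2.1, s2.2, s3.1, s3.2, he.1, he.2]

theorem Ok.diag (hS : S.Ok) : ∀ᶠ η : ℝ in 𝓝[>] 0, ∀ p ∈ cube (DD h), ∀ d,
    ∀ ρ : S.Rp η p 1 1 (ed d), |(ρ.t (some (d, true)) - ρ.t (some (d, false))) / 2 +
      S.am η * S.M1 d d - S.ad η * p (d, d)| ≤ S.ad η := by
  obtain ⟨C, hC, hev⟩ := hS.first
  filter_upwards [hev, ev_small (c := (C + 1)⁻¹) (by positivity)] with η hb ⟨h0, h1⟩ p hp d ρ
  have hb' := hb p hp 1 ⟨zero_le_one, le_rfl⟩ 1 (ed d) (abs_ed_le d) ρ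
  have e0 : ed d none = 0 := rfl
  have e1 : ed d (some (d, true)) = 1 := by simp [ed, sg]
  have e2 : ed d (some (d, false)) = -1 := by simp [ed, sg]
  have eL : Lap S.Pm (fun v => ed d (some v)) (d, false) =
      -Lap S.Pm (fun v => ed d (some v)) (d, true) :=
    Lap_flp hS.graph.comm (u := fun v => ed d (some v)) (fun v => ed_iV d (some v)) (d, true)
  have i1 := hb' (d, true)
  have i2 := hb' (d, false)
  rw [e0, e1] at i1
  rw [e0, e2, eL] at i2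
  have eM : S.M1 d d = Lap S.Pm (fun v => ed d (some v)) (d, true) - S.θ := by simp [M1]
  have hle : C * (S.aa η ^ 2 / η * 1 + S.aa η * η ^ 3 * |(0 : ℝ)|) ≤ S.ad η := by
    rw [S.ad_eq h0, abs_zero, mul_zero, add_zero, mul_one]
    have hCη : C * η ≤ 1 := by
      have : (C + 1) * η ≤ 1 := by
        calc (C + 1) * η ≤ (C + 1) * (C + 1)⁻¹ := by gcongr
          _ = 1 := mul_inv_cancel₀ (by positivity)
      nlinarith
    have : C * (S.aa η ^ 2 / η) = C * η * (S.aa η ^ 2 / η ^ 2) := by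
      field_simp
    rw [this]
    exact mul_le_of_le_one_left (by positivity) hCη
  have j1 := i1.trans hle
  have j2 := i2.trans hle
  rw [eM]
  simp only [m] at j1 j2
  rw [abs_le] at j1 j2 ⊢
  constructor <;> linarith [j1.1, j1.2, j2.1, j2.2]

end Fx

end Pool.Agent.MP_4f0ed6_gt

end

section

open Set Laplacian Filter Topology MeasureTheory Metric InnerProductSpace
open scoped ContDiff

namespace Pool.Agent.MP_4f0ed6_gt

theorem Sec_ed {D : Type} {d : D} {v : D × Bool} (hv : v.1 ≠ d) : ed d (some v) = 0 := if_neg hv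

theorem Sec_sum {ι : Type} [Fintype ι] {F : ι → ℝ} {B : ℝ} (h : ∀ i, |F i| ≤ B) :
    |∑ i, F i| ≤ Fintype.card ι * B := by
  refine (Finset.abs_sum_le_sum_abs _ _).trans ((Finset.sum_le_card_nsmul _ _ B
    fun i _ => h i).trans_eq ?_)
  rw [nsmul_eq_mul, Finset.card_univ]

theorem Sec_two {c x y x' y' B : ℝ} (hc : 0 ≤ c) (h1 : |x - x'| ≤ B) (h2 : |y - y'| ≤ B) :
    |c * (x - y) - c * (x' - y')| ≤ c * (2 * B) := by
  rw [← mul_sub, abs_mul, abs_of_nonneg hc]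
  refine mul_le_mul_of_nonneg_left ?_ hc
  rw [abs_le] at h1 h2 ⊢
  constructor <;> linarith [h1.1, h1.2, h2.1, h2.2]

namespace Fx

variable {h nT nx : ℕ} {S : Fx h nT nx}

theorem Sec_cube {η : ℝ} (hS : S.Ok) (h0 : 0 < η) (h1 : η ≤ 1) : S.aa η ^ 3 ≤ S.am η := by
  have ha : 0 < S.aa η := pow_pos h0 _
  have h2 : S.aa η ≤ 1 := (S.aa_le hS h0 h1).trans (pow_le_one₀ h0.le h1)
  have h3 : η ^ 3 ≤ 1 := pow_le_one₀ h0.le h1
  rw [S.am_eq h0, le_div_iff₀ (pow_pos h0 3)]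
  calc S.aa η ^ 3 * η ^ 3 = S.aa η ^ 2 * (S.aa η * η ^ 3) := by ring
    _ ≤ S.aa η ^ 2 * 1 :=
      mul_le_mul_of_nonneg_left (mul_le_one₀ h2 (pow_pos h0 3).le h3) (by positivity)
    _ = _ := mul_one _

theorem Ok.b_far (hS : S.Ok) : ∀ᶠ η : ℝ in 𝓝[>] 0, ∀ p ∈ cube (DD h), ∀ d',
    ∀ (ρ : S.Rp η p 1 1 (ed d')) (v : DD h × Bool), v.1 ≠ d' → ∀ π, S.pc π = some v →
      |ρ.b π| ≤ 4 * S.am η := by
  obtain ⟨C, hC, H⟩ := hS.bnd
  filter_upwards [H, ev_small one_pos, ev_pow C (a := 2) (b := 0) two_pos]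
    with η H ⟨h0, h1⟩ h2 p hp d' ρ v hv π hπ
  obtain ⟨-, k1, -, k2⟩ := H p hp 1 ⟨zero_le_one, le_rfl⟩ 1 _ (abs_ed_le d') ρ
  have ha : 0 < S.aa η := pow_pos h0 _
  obtain ⟨e1, e2⟩ := S.b_eq h0 ρ π
  rcases π with ⟨w, j, _ | _⟩ | ⟨w, t, i⟩ | ⟨e, ε⟩
  · have k3 := k1 v _ hπ
    have k4 := k2 (.inl (w, j, true)) rfl
    rw [Sec_ed hv] at k3
    have e0 : ed d' none = 0 := rfl
    rw [e0, abs_zero, mul_zero, add_zero] at k4
    have k5 := Sec_two (S.aj_pos h0 j).le k3 k4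
    rw [sub_self, mul_zero, sub_zero] at k5
    rw [e1]
    refine k5.trans ((mul_le_mul_of_nonneg_right (S.aj_le h0 h1 j) (by positivity)).trans ?_)
    rw [S.am_eq h0]
    have k6 : S.aa η * (2 * (C * (S.aa η / η * 1))) = 2 * (C * η ^ 2) * (S.aa η ^ 2 / η ^ 3) := by
      field_simp
    rw [k6]
    refine mul_le_mul_of_nonneg_right ?_ (by positivity)
    rw [pow_zero] at h2
    linarith
  · cases hπ
  · exact e2.trans_eq (mul_one _)
  · refine e2.trans ?_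
    rw [mul_one]
    exact mul_le_mul_of_nonneg_left (Sec_cube hS h0 h1) (by norm_num)

theorem Ok.second (hS : S.Ok) : ∃ C : ℝ, 0 ≤ C ∧ ∀ᶠ η : ℝ in 𝓝[>] 0, ∀ p ∈ cube (DD h), ∀ d',
    ∀ (ρ : S.Rp η p 1 1 (ed d')) (v : DD h × Bool), v.1 ≠ d' →
      |ρ.t (some v) - (∑ j, S.aj η j * ρ.R (.inl (v, j, true)) -
        S.am η * Lap S.Pm (fun v => ed d' (some v)) v)| ≤ C * (η ^ (6 * h) * S.aa η ^ 2) := by
  obtain ⟨C, hC, H⟩ := hS.bnd
  obtain ⟨n, hn⟩ : ∃ n : ℝ, n = Fintype.card (PP h nT nx) + 1 := ⟨_, rfl⟩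
  have hn0 : 0 ≤ n := by rw [hn]; positivity
  refine ⟨h * (16 * (4 * n + 1)) + nT * (4 * C) + nx * 4 + 1, by positivity, ?_⟩
  filter_upwards [H, ev_small one_pos, hS.b_far, hS.est]
    with η H ⟨h0, h1⟩ hb hE p hp d' ρ v hv
  obtain ⟨-, k1, -, -⟩ := H p hp 1 ⟨zero_le_one, le_rfl⟩ 1 _ (abs_ed_le d') ρ
  have ha : 0 < S.aa η := pow_pos h0 _
  have hm : 0 < S.am η := pow_pos h0 _
  obtain ⟨X, hX⟩ : ∃ X, X = η ^ (6 * h) * S.aa η ^ 2 := ⟨_, rfl⟩
  have hX0 : 0 ≤ X := by rw [hX]; positivity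
  have x1 : S.am η * (S.aa η / η) = X := by
    rw [hX, S.am_eq h0]
    have : S.aa η = η ^ (6 * h) * η ^ 4 := pow_add _ _ _
    field_simp
    linear_combination this
  have x2 : S.aa η ^ 3 ≤ X := by
    have : S.aa η ≤ η ^ (6 * h) := pow_le_pow_of_le_one h0.le h1 (Nat.le_add_right _ _)
    rw [hX, pow_succ', pow_two (S.aa η)]
    exact mul_le_mul_of_nonneg_right this (by positivity)
  have o := (ρ.osc (hE p hp) ⟨zero_le_one, le_rfl⟩ (by positivity) (some v) (B := 4 * S.am η)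
    (by positivity) (hb p hp d' ρ v hv)).2
  have y1 : ∀ j, |ρ.b (.inl (v, j, false)) + S.aj η j * ρ.R (.inl (v, j, true))| ≤
      16 * (4 * n + 1) * X := by
    intro j
    have o1 := o (.inl (v, j, false)) rfl
    rw [Sec_ed hv, sub_zero, abs_zero, mul_zero, add_zero, mul_one, S.n_eq, ← hn] at o1
    have e1 : ρ.b (.inl (v, j, false)) =
        S.aj η j * (ρ.R (.inl (v, j, false)) - ρ.R (.inl (v, j, true))) := (S.b_eq h0 ρ _).1
    rw [e1, ← mul_add, sub_add_cancel, abs_mul, abs_of_pos (S.aj_pos h0 j)]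
    refine (mul_le_mul (S.aj_le h0 h1 j) o1 (abs_nonneg _) ha.le).trans ?_
    have o2 := Sec_cube hS h0 h1
    calc S.aa η * (16 * η⁻¹ * (n * (4 * S.am η) + S.aa η ^ 3))
        ≤ S.aa η * (16 * η⁻¹ * (n * (4 * S.am η) + S.am η)) := by gcongr
      _ = 16 * (4 * n + 1) * (S.am η * (S.aa η / η)) := by ring
      _ = _ := by rw [x1]
  have y2 : ∀ t, |ρ.b (.inr (.inl (v, t, false))) + ρ.b (.inr (.inl (v, t, true))) -
      S.am η * (2 * ed d' (some v) - ed d' (some (S.Pm t v)) - ed d' (some ((S.Pm t).symm v)))| ≤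
      4 * C * X := by
    intro t
    have e1 : ρ.b (.inr (.inl (v, t, false))) = S.am η * (ρ.R (.inr (.inl (v, t, false))) -
        ρ.R (.inr (.inl (S.Pm t v, t, true)))) := (S.b_eq h0 ρ _).1
    have e2 : ρ.b (.inr (.inl (v, t, true))) = S.am η * (ρ.R (.inr (.inl (v, t, true))) -
        ρ.R (.inr (.inl ((S.Pm t).symm v, t, false)))) := (S.b_eq h0 ρ _).1
    have z1 := Sec_two hm.le (k1 v (.inr (.inl (v, t, false))) rfl)
      (k1 _ (.inr (.inl (S.Pm t v, t, true))) rfl)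
    have z2 := Sec_two hm.le (k1 v (.inr (.inl (v, t, true))) rfl)
      (k1 _ (.inr (.inl ((S.Pm t).symm v, t, false))) rfl)
    have z3 : S.am η * (2 * (C * (S.aa η / η * 1))) = 2 * C * X := by rw [← x1]; ring
    rw [z3, ← e1, abs_le] at z1
    rw [z3, ← e2, abs_le] at z2
    rw [abs_le]
    constructor <;> linarith [z1.1, z1.2, z2.1, z2.2]
  have y3 : ∀ e : Fin nx, |if v.1 = (fun _ => false) then ρ.b (.inr (.inr (e, v.2))) else 0| ≤
      4 * X := by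
    intro e
    split_ifs
    · have e1 : |ρ.b (.inr (.inr (e, v.2)))| ≤ 4 * S.aa η ^ 3 * 1 := (S.b_eq h0 ρ _).2
      linarith
    · rw [abs_zero]; positivity
  have y4 := ρ.e_le (some v)
  have s1 := Sec_sum y1
  have s2 := Sec_sum y2
  have s3 := Sec_sum y3
  rw [Fintype.card_fin, abs_le] at s1 s2 s3
  rw [Finset.sum_add_distrib] at s1
  rw [Finset.sum_sub_distrib, ← Finset.mul_sum] at s2
  rw [abs_le] at y4
  rw [t_some, S.sum_pts_some, ← hX]
  unfold Lap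
  rw [Sec_ed hv] at s2 ⊢
  simp only [Sec_ed hv]
  rw [abs_le]
  constructor <;> linarith [s1.1, s1.2, s2.1, s2.2, s3.1, s3.2, y4.1, y4.2]

end Fx

end Pool.Agent.MP_4f0ed6_gt

end

section

open Set Laplacian Filter Topology MeasureTheory Metric InnerProductSpace
open scoped ContDiff

namespace Pool.Agent.MP_4f0ed6_gt

namespace Fx

variable {h nT nx : ℕ} {S : Fx h nT nx}

theorem YSum_model (η : ℝ) (d' : DD h) (w : ℂ) (j : Fin h) :
    ∑ v : DD h × Bool, ed d' (some v) * kk w (S.c η (.inl (v, j, true))) =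
      2 * kk w (S.cY η j d') := by
  classical
  rw [Fintype.sum_prod_type, Finset.sum_eq_single d']
  · simp only [ed, c, sg, Fintype.sum_bool, if_true]
    push_cast
    rw [one_mul, one_mul, neg_one_mul (S.cY η j d'), kk_neg]
    ring
  · intro d _ hd
    simp [ed, hd]
  · intro hd
    exact absurd (Finset.mem_univ _) hd

theorem YSum_num {η C a x K : ℝ} (h0 : 0 < η) (h1 : η ≤ 1) (hC : 0 ≤ C) (ha0 : 0 < a)
    (ha : a ≤ S.aa η) (hx : |x| ≤ 2 * (C * (S.aa η / η))) (hK : |K| ≤ 2 * η⁻¹) :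
    |a * x * K| ≤ 4 * C * (η ^ (6 * h) * S.aa η) := by
  have hA : 0 < S.aa η := ha0.trans_le ha
  have e : S.aa η * (2 * (C * (S.aa η / η))) * (2 * η⁻¹) =
      4 * C * (η ^ (6 * h) * S.aa η) * η ^ 2 := by
    rw [aa]
    field_simp
    ring
  have h2 : η ^ 2 ≤ 1 := pow_le_one₀ h0.le h1
  rw [abs_mul, abs_mul, abs_of_pos ha0]
  calc a * |x| * |K| ≤ S.aa η * (2 * (C * (S.aa η / η))) * (2 * η⁻¹) := by gcongr
    _ ≤ 4 * C * (η ^ (6 * h) * S.aa η) * 1 := by rw [e]; gcongr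
    _ = _ := mul_one _

theorem Ok.ysum (hS : S.Ok) : ∃ C : ℝ, 0 ≤ C ∧ ∀ᶠ η : ℝ in 𝓝[>] 0, ∀ p ∈ cube (DD h), ∀ d',
    ∀ (ρ : S.Rp η p 1 1 (ed d')) (w : ℂ), (∀ π, S.pc π = none → |kk w (S.c η π)| ≤ 2 * η⁻¹) →
      |1 / 2 * ∑ π ∈ (S.Q η).pts none, ρ.b π * kk w (S.c η π) +
        ∑ j, S.aj η j * kk w (S.cY η j d')| ≤ C * (η ^ (6 * h) * S.aa η) := by
  obtain ⟨C, hC, hb⟩ := hS.bnd
  refine ⟨Fintype.card (DD h × Bool) * h * (2 * C), by positivity, ?_⟩
  filter_upwards [hb, ev_small one_pos] with η hb ⟨h0, h1⟩ p hp d' ρ w hw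
  obtain ⟨-, b1, -, b2⟩ := hb p hp 1 ⟨zero_le_one, le_rfl⟩ 1 (ed d') (abs_ed_le d') ρ
  have key : ∀ (v : DD h × Bool) (j : Fin h),
      |(ρ.b (.inl (v, j, true)) + S.aj η j * ed d' (some v)) * kk w (S.c η (.inl (v, j, true)))| ≤
        4 * C * (η ^ (6 * h) * S.aa η) := by
    intro v j
    have e1 : ρ.b (.inl (v, j, true)) =
        S.aj η j * (ρ.R (.inl (v, j, true)) - ρ.R (.inl (v, j, false))) :=
      (S.b_eq h0 ρ (.inl (v, j, true))).1
    have c1 := b1 v (.inl (v, j, false)) rfl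
    have c2 := b2 (.inl (v, j, true)) rfl
    have e0 : ed d' none = 0 := rfl
    rw [e0, sub_zero, abs_zero, mul_zero, add_zero, mul_one] at c2
    rw [mul_one] at c1
    rw [e1, ← mul_add]
    refine YSum_num h0 h1 hC (S.aj_pos h0 j) (S.aj_le h0 h1 j) ?_ (hw _ rfl)
    rw [abs_le] at c1 c2 ⊢
    constructor <;> linarith [c1.1, c1.2, c2.1, c2.2]
  have e : 1 / 2 * ∑ π ∈ (S.Q η).pts none, ρ.b π * kk w (S.c η π) +
      ∑ j, S.aj η j * kk w (S.cY η j d') = 1 / 2 * ∑ v : DD h × Bool, ∑ j : Fin h,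
        (ρ.b (.inl (v, j, true)) + S.aj η j * ed d' (some v)) *
          kk w (S.c η (.inl (v, j, true))) := by
    rw [S.sum_pts_none]
    simp only [add_mul, Finset.sum_add_distrib, mul_add]
    congr 1
    rw [Finset.sum_comm, Finset.mul_sum]
    refine Finset.sum_congr rfl fun j _ => ?_
    simp only [mul_assoc]
    rw [← Finset.mul_sum, YSum_model]
    ring
  rw [e, abs_mul, abs_of_pos (by norm_num : (0 : ℝ) < 1 / 2)]
  have hs : |∑ v : DD h × Bool, ∑ j : Fin h,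
      (ρ.b (.inl (v, j, true)) + S.aj η j * ed d' (some v)) * kk w (S.c η (.inl (v, j, true)))| ≤
      ∑ _v : DD h × Bool, ∑ _j : Fin h, 4 * C * (η ^ (6 * h) * S.aa η) :=
    (Finset.abs_sum_le_sum_abs _ _).trans (Finset.sum_le_sum fun v _ =>
      (Finset.abs_sum_le_sum_abs _ _).trans (Finset.sum_le_sum fun j _ => key v j))
  simp only [Finset.sum_const, Finset.card_univ, Fintype.card_fin, nsmul_eq_mul] at hs
  linarith

end Fx

end Pool.Agent.MP_4f0ed6_gt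

end

section

open Set Laplacian Filter Topology MeasureTheory Metric InnerProductSpace
open scoped ContDiff

namespace Pool.Agent.MP_4f0ed6_gt

theorem EvPos_alg {x y u E N : ℝ} (hx : |x - u| ≤ E) (hy : |y - u| ≤ E) (hu : |u| ≤ N)
    (hE : E ≤ N) : |x * y - u ^ 2| ≤ 3 * N * E := by
  have hE0 : 0 ≤ E := (abs_nonneg _).trans hx
  have hN0 : 0 ≤ N := (abs_nonneg _).trans hu
  have e : x * y - u ^ 2 = (x - u) * (y - u) + u * (x - u) + u * (y - u) := by ring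
  have h1 : |(x - u) * (y - u)| ≤ N * E := by
    rw [abs_mul]; exact mul_le_mul (hx.trans hE) hy (abs_nonneg _) hN0
  have h2 : |u * (x - u)| ≤ N * E := by
    rw [abs_mul]; exact mul_le_mul hu hx (abs_nonneg _) hN0
  have h3 : |u * (y - u)| ≤ N * E := by
    rw [abs_mul]; exact mul_le_mul hu hy (abs_nonneg _) hN0
  rw [e]
  have h4 := abs_add_three ((x - u) * (y - u)) (u * (x - u)) (u * (y - u))
  linarith

theorem EvPos_small {β φ ψ : ℂ → ℝ} {Λ u E N : ℝ} (hβ : PB β Λ) (h0 : ∀ w, 0 ≤ β w)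
    (h1 : ∫ w, β w = 1) (hφ : Continuous φ) (hψ : Continuous ψ)
    (hx : ∀ w, β w ≠ 0 → |φ w - u| ≤ E) (hy : ∀ w, β w ≠ 0 → |ψ w - u| ≤ E) (hu : |u| ≤ N)
    (hE0 : 0 ≤ E) (hE : E ≤ N) : u ^ 2 - 3 * N * E ≤ ∫ w, β w * (φ w * ψ w) := by
  have hN0 : 0 ≤ N := hE0.trans hE
  have hm : ∫ w, |β w| ≤ 1 := by
    rw [← h1]
    exact le_of_eq (integral_congr_ae (Eventually.of_forall fun w => abs_of_nonneg (h0 w)))
  have h2 : |∫ w, β w * (φ w * ψ w - u ^ 2)| ≤ 1 * (3 * N * E) :=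
    abs_integral_mul_le (φ := fun w => φ w * ψ w - u ^ 2) hβ.integrable (by positivity) hm
      fun w hw => EvPos_alg (hx w hw) (hy w hw) hu hE
  have i1 : Integrable fun w => β w * (φ w * ψ w) :=
    (hβ.cont.mul (hφ.mul hψ)).integrable_of_hasCompactSupport hβ.hcs.mul_right
  have i2 : Integrable fun w => β w * u ^ 2 := hβ.integrable.mul_const _
  have h3 : ∫ w, β w * (φ w * ψ w - u ^ 2) = (∫ w, β w * (φ w * ψ w)) - u ^ 2 := by
    simp only [mul_sub]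
    rw [integral_sub i1 i2, integral_mul_const, h1, one_mul]
  rw [h3] at h2
  have := (abs_le.1 h2).1
  linarith

namespace Fx

variable {h nT nx : ℕ} {S : Fx h nT nx}

theorem Ok.pos (hS : S.Ok) : ∀ᶠ η : ℝ in 𝓝[>] 0, ∀ p ∈ cube (DD h), ∀ s s' : ℝ,
    s ∈ Icc (0 : ℝ) 1 → s' ∈ Icc (0 : ℝ) 1 → ∀ u N, u none = 0 → (∀ v, |u v| ≤ N) →
      (∃ v, |u v| = N) → ∀ (ρ : S.Rp η p s N u) (ρ' : S.Rp η p s' N u),
      S.aa η / 4 * N ^ 2 ≤ ∑ v, ∫ w, S.μ η p v w * (ρ.φ v w * ρ'.φ v w) := by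
  obtain ⟨C, hC, hb⟩ := hS.bnd
  set K : ℝ := (Fintype.card (DD h × Bool) : ℝ) with hK
  set K' : ℝ := 13 * (Fintype.card (Fin h × DD h) : ℝ) * S.A with hK'
  have hA : 0 ≤ S.A := zero_le_one.trans hS.ctl.one_le
  have hK0 : 0 ≤ K := by positivity
  have hK0' : 0 ≤ K' := by positivity
  filter_upwards [hb, hS.m_ev, hS.est, ev_small (c := 1) one_pos,
    ev_pow C (a := 9) (b := 0) (by norm_num),
    ev_pow (24 * K * (h + 1) * C) (a := 9) (b := 0) (by norm_num),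
    ev_pow (8 * K' * C ^ 2) (a := 12) (b := 0) (by norm_num)] with η hb hm hE hη e1 e2 e3
  intro p hp s s' hs hs' u N hu0 huN hmax ρ ρ'
  obtain ⟨η0, η1⟩ := hη
  rw [pow_zero] at e1 e2 e3
  have ha : S.aa η ≤ η ^ 10 := S.aa_le hS η0 η1
  have ha0 : 0 < S.aa η := pow_pos η0 _
  have hN0 : 0 ≤ N := (abs_nonneg _).trans (huN none)
  have hq : S.aa η / η ≤ η ^ 9 := by
    rw [div_le_iff₀ η0]; exact ha.trans (le_of_eq (by ring))
  have hq0 : 0 ≤ S.aa η / η := by positivity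
  set E : ℝ := C * (S.aa η / η * N) with hEd
  have hE0 : 0 ≤ E := by positivity
  have hE9 : E ≤ C * η ^ 9 * N := by
    rw [hEd, mul_assoc]
    exact mul_le_mul_of_nonneg_left (mul_le_mul_of_nonneg_right hq hN0) hC
  have hEN : E ≤ N := hE9.trans (by nlinarith)
  obtain ⟨b1, -, b3, -⟩ := hb p hp s hs N u huN ρ
  obtain ⟨b1', -, b3', -⟩ := hb p hp s' hs' N u huN ρ'
  have hest := hE p hp
  have hB := hest.bump
  -- small spheres
  have hsm : ∀ v : DD h × Bool, S.aa η / 2 * u (some v) ^ 2 - (h + 1) * S.aa η * (3 * N * E) ≤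
      ∫ w, S.μ η p (some v) w * (ρ.φ (some v) w * ρ'.φ (some v) w) := by
    intro v
    have h1 := EvPos_small (hB.pb (some v)) (hB.nonneg _) (hB.int _) (ρ.cont (some v))
      (ρ'.cont (some v)) (fun w hw => b1 v w (hB.supp _ w hw))
      (fun w hw => b1' v w (hB.supp _ w hw)) (huN _) hE0 hEN
    have h2 : ∫ w, S.μ η p (some v) w * (ρ.φ (some v) w * ρ'.φ (some v) w) =
        S.m η p v.1 * ∫ w, S.β η (some v) w * (ρ.φ (some v) w * ρ'.φ (some v) w) := by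
      rw [← integral_const_mul]
      refine integral_congr_ae (Eventually.of_forall fun w => ?_)
      simp only [μ, β]
      ring
    obtain ⟨m1, m2⟩ := hm p hp v.1
    have m0 : 0 ≤ S.m η p v.1 := le_trans (by positivity) m1
    have h3 := mul_le_mul_of_nonneg_left h1 m0
    have h4 : S.aa η / 2 * u (some v) ^ 2 ≤ S.m η p v.1 * u (some v) ^ 2 :=
      mul_le_mul_of_nonneg_right m1 (sq_nonneg _)
    have h5 : S.m η p v.1 * (3 * N * E) ≤ (h + 1) * S.aa η * (3 * N * E) :=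
      mul_le_mul_of_nonneg_right m2 (by positivity)
    rw [h2]
    rw [mul_sub] at h3
    linarith
  -- big sphere
  have hbig : |∫ w, S.μ η p none w * (ρ.φ none w * ρ'.φ none w)| ≤ S.mm η none * (E * E) := by
    refine abs_integral_mul_le (φ := fun w => ρ.φ none w * ρ'.φ none w)
      (hest.μ_pb none).integrable (by positivity) (hest.mass none) fun w hw => ?_
    have h1 := b3 w (hest.μ_supp _ w hw)
    have h2 := b3' w (hest.μ_supp _ w hw)
    rw [hu0, abs_zero, mul_zero, add_zero, sub_zero] at h1 h2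
    rw [abs_mul]
    exact mul_le_mul h1 h2 (abs_nonneg _) hE0
  have hbig2 : S.mm η none * (E * E) ≤ S.aa η / 8 * N ^ 2 := by
    have h1 : S.mm η none * (E * E) =
        S.aa η / 8 * N ^ 2 * (8 * K' * C ^ 2 * (η ^ 2 * S.aa η)) := by
      simp only [mm, hEd, ← hK']
      field_simp
    have h2 : η ^ 2 * S.aa η ≤ η ^ 12 :=
      (mul_le_mul_of_nonneg_left ha (by positivity)).trans (le_of_eq (by ring))
    have h3 : 8 * K' * C ^ 2 * (η ^ 2 * S.aa η) ≤ 1 :=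
      (mul_le_mul_of_nonneg_left h2 (by positivity)).trans e3
    rw [h1]
    exact mul_le_of_le_one_right (by positivity) h3
  have hsq : N ^ 2 ≤ ∑ v : DD h × Bool, u (some v) ^ 2 := by
    obtain ⟨v, hv⟩ := hmax
    cases v with
    | none =>
      rw [hu0, abs_zero] at hv
      rw [← hv, zero_pow two_ne_zero]
      exact Finset.sum_nonneg fun v _ => sq_nonneg _
    | some v =>
      rw [← hv, sq_abs]
      exact Finset.single_le_sum (f := fun v : DD h × Bool => u (some v) ^ 2)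
        (fun v _ => sq_nonneg _) (Finset.mem_univ v)
  have hsum := Finset.sum_le_sum (s := Finset.univ) fun v _ => hsm v
  rw [Finset.sum_sub_distrib, ← Finset.mul_sum, Finset.sum_const, Finset.card_univ,
    nsmul_eq_mul, ← hK] at hsum
  have herr : K * ((h + 1) * S.aa η * (3 * N * E)) ≤ S.aa η / 8 * N ^ 2 := by
    have h1 : K * ((h + 1) * S.aa η * (3 * N * E)) ≤
        K * ((h + 1) * S.aa η * (3 * N * (C * η ^ 9 * N))) := by gcongr
    have h2 : K * ((h + 1) * S.aa η * (3 * N * (C * η ^ 9 * N))) =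
        S.aa η / 8 * N ^ 2 * (24 * K * (h + 1) * C * η ^ 9) := by ring
    rw [h2] at h1
    exact h1.trans (mul_le_of_le_one_right (by positivity) e2)
  have h6 : S.aa η / 2 * N ^ 2 ≤ S.aa η / 2 * ∑ v : DD h × Bool, u (some v) ^ 2 :=
    mul_le_mul_of_nonneg_left hsq (by positivity)
  have h7 := (abs_le.1 (hbig.trans hbig2)).1
  rw [Fintype.sum_option]
  linarith

end Fx

end Pool.Agent.MP_4f0ed6_gt

end

section

open Set Laplacian Filter Topology MeasureTheory Metric InnerProductSpace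
open scoped ContDiff

namespace Pool.Agent.MP_4f0ed6_gt

theorem EvAlg_y {c t a N y MY Z : ℝ} (hc : 1 ≤ c) (ht : 0 < t) (ht1 : t ≤ 1) (hct : 2 * c * t ≤ 1)
    (ha : 0 < a) (hN : 0 ≤ N) (hM : t ^ 4 ≤ MY) (hZ : |Z| ≤ 2 * c ^ 2 * a * N)
    (h : |Z + MY * y| ≤ c * (t ^ 3 * a * N + t ^ 7 * |y|)) : t ^ 4 * |y| ≤ 6 * c ^ 2 * a * N := by
  have h4 : 0 < t ^ 4 := by positivity
  have h1 : MY * |y| ≤ |Z + MY * y| + |Z| := by
    have : MY * |y| = |(Z + MY * y) - Z| := by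
      rw [add_sub_cancel_left, abs_mul, abs_of_pos (h4.trans_le hM)]
    rw [this]
    exact abs_sub _ _
  have h2 : t ^ 4 * |y| ≤ MY * |y| := by gcongr
  have h3 : c * (t ^ 3 * a * N) ≤ c ^ 2 * a * N := by
    have : t ^ 3 ≤ c := (pow_le_one₀ ht.le ht1).trans hc
    calc c * (t ^ 3 * a * N) ≤ c * (c * a * N) := by gcongr
      _ = _ := by ring
  have h5 : c * (t ^ 7 * |y|) ≤ t ^ 4 * |y| / 2 := by
    have h6 : t ^ 2 ≤ 1 := pow_le_one₀ ht.le ht1
    have h7 : c * t * t ^ 2 ≤ 1 / 2 * 1 := by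
      have : c * t ≤ 1 / 2 := by linarith
      gcongr
    calc c * (t ^ 7 * |y|) = (c * t * t ^ 2) * (t ^ 4 * |y|) := by ring
      _ ≤ (1 / 2 * 1) * (t ^ 4 * |y|) := by gcongr
      _ = _ := by ring
  nlinarith

theorem EvAlg_s {c t a σ MY q S2 B w : ℝ} (hc : 1 ≤ c) (ht : 0 < t) (ha : 0 < a) (h1 : a ≤ σ)
    (h2 : σ ≤ c * a) (h3 : t ^ 4 ≤ MY) (h4 : MY ≤ c * t ^ 4) (hS : 0 ≤ S2) (hB : 0 ≤ B)
    (hw : w * t ^ 4 = a ^ 2) (h : MY * q ≤ -(a * S2) + t ^ 3 * a * B) :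
    σ * q ≤ -(w * S2 / c) + c * (w * t ^ 3) * B := by
  have h5 : 0 < t ^ 4 := by positivity
  have hM : 0 < MY := h5.trans_le h3
  have hw0 : 0 < w := by
    by_contra hn
    have : w * t ^ 4 ≤ 0 := mul_nonpos_of_nonpos_of_nonneg (not_lt.1 hn) h5.le
    nlinarith
  have hc0 : 0 < c := by linarith
  refine le_of_mul_le_mul_left ?_ hM
  have e1 : MY * (w * S2 / c) ≤ σ * (a * S2) := by
    calc MY * (w * S2 / c) ≤ c * t ^ 4 * (w * S2 / c) := by gcongr
      _ = a * (a * S2) := by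
        field_simp
        linear_combination S2 * hw
      _ ≤ _ := by gcongr
  have e2 : σ * (t ^ 3 * a * B) ≤ MY * (c * (w * t ^ 3) * B) := by
    calc σ * (t ^ 3 * a * B) ≤ c * a * (t ^ 3 * a * B) := by gcongr
      _ = t ^ 4 * (c * (w * t ^ 3) * B) := by linear_combination -(c * t ^ 3 * B) * hw
      _ ≤ _ := by gcongr
  have e3 : σ * (MY * q) ≤ σ * (-(a * S2) + t ^ 3 * a * B) :=
    mul_le_mul_of_nonneg_left h (ha.le.trans h1)
  nlinarith

theorem EvAlg_fin {c t w U S2 n θ : ℝ} (hc : 1 ≤ c) (ht : 0 < t) (hct : 100 * c ^ 5 * t ≤ 1)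
    (hw : 0 < w) (hU : 0 ≤ U) (hS : 0 ≤ S2) (hn : 1 ≤ n) (hθ : θ + 1 ≤ c)
    (h : -(7 * c ^ 4 * (w * t ^ 3) * U) ≤ (θ * (w * t) + w * t ^ 2) * U +
      (-(w * S2 / c) + c * (w * t ^ 3) * (8 * c ^ 4 * U)) - w * t * ((θ + 1) * (U - S2 / n))) :
    U ≤ 0 := by
  have c5 : 1 ≤ c ^ 5 := one_le_pow₀ hc
  have c4 : c ^ 4 ≤ c ^ 5 := pow_le_pow_right₀ hc (by norm_num)
  have c2 : c ^ 2 ≤ c ^ 5 := pow_le_pow_right₀ hc (by norm_num)
  have ht1 : t ≤ 1 / 100 := by nlinarith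
  have e1 : w * t * ((θ + 1) * (S2 / n)) ≤ w * S2 / c := by
    have : S2 / n ≤ S2 := div_le_self hS hn
    have h2 : t * c * c ≤ 1 := by nlinarith
    rw [le_div_iff₀ (by linarith)]
    calc w * t * ((θ + 1) * (S2 / n)) * c ≤ w * t * (c * S2) * c := by gcongr
      _ = (t * c * c) * (w * S2) := by ring
      _ ≤ 1 * (w * S2) := by gcongr
      _ = _ := one_mul _
  have e2 : 7 * c ^ 4 * t ^ 2 + 8 * c ^ 5 * t ^ 2 + t ≤ 1 / 2 := by
    have : c ^ 5 * t * t ≤ 1 / 100 * (1 / 100) := by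
      have : c ^ 5 * t ≤ 1 / 100 := by linarith
      gcongr
    have h3 : c ^ 4 * t ^ 2 ≤ c ^ 5 * t ^ 2 := by gcongr
    nlinarith
  have e3 : (7 * c ^ 4 * t ^ 2 + 8 * c ^ 5 * t ^ 2 + t) * (w * t * U) ≤ 1 / 2 * (w * t * U) := by
    gcongr
  have e4 : w * t * U ≤ 0 := by nlinarith
  by_contra hU'
  have : 0 < w * t * U := mul_pos (mul_pos hw ht) (not_le.1 hU')
  linarith

theorem even_alg {X : Type} [Fintype X] [Nonempty X] (C : ℝ) {θ : ℝ} (hθ : 0 ≤ θ) :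
    ∀ᶠ η : ℝ in 𝓝[>] 0, ∀ (a σ s y N MY : ℝ) (m u Lu : X → ℝ), 0 < a → a ≤ η ^ 10 → a ≤ σ →
      σ ≤ C * a → (∀ v, |m v - σ - θ * (a ^ 2 / η ^ 3)| ≤ a ^ 2 / η ^ 2) → 0 < s → s ≤ 1 →
      η ^ 4 ≤ MY → MY ≤ C * η ^ 4 → (∀ v, |u v| ≤ N) → ((∃ v, |u v| = N) ∨ |y| = N) →
      (∀ v, |(s * m v - σ) * u v + σ * y - a ^ 2 / η ^ 3 * Lu v| ≤
        C * (a ^ 2 / η * N + a * η ^ 3 * |y|)) →
      |∑ v, m v * u v + MY * y| ≤ C * (η ^ 3 * a * N + η ^ 7 * |y|) →
      (θ + 1) * (∑ v, u v ^ 2 - (∑ v, u v) ^ 2 / Fintype.card X) ≤ ∑ v, u v * Lu v →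
      N = 0 := by
  obtain ⟨n, hn⟩ : ∃ n : ℝ, n = Fintype.card X := ⟨_, rfl⟩
  have hn1 : 1 ≤ n := by rw [hn]; exact_mod_cast Fintype.card_pos
  obtain ⟨c, hc⟩ : ∃ c : ℝ, c = |C| + θ + 1 + n := ⟨_, rfl⟩
  have hCc : C ≤ c := by linarith [le_abs_self C]
  have hθc : θ + 1 ≤ c := by linarith [abs_nonneg C]
  have hnc : n ≤ c := by linarith [abs_nonneg C]
  have hc1 : 1 ≤ c := hn1.trans hnc
  have c5 : 1 ≤ c ^ 5 := one_le_pow₀ hc1
  have c2 : c ^ 2 ≤ c ^ 5 := pow_le_pow_right₀ hc1 (by norm_num)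
  have c1 : c ≤ c ^ 5 := le_self_pow₀ hc1 (by norm_num)
  filter_upwards [ev_small (c := 1 / (100 * c ^ 5)) (by positivity)] with t ⟨ht, htc⟩
  intro a σ s y N MY m u Lu ha hat hσ1 hσ2 hm hs0 hs1 hM1 hM2 hu hN h1 h2 h3
  rw [← hn] at h3
  have hct : 100 * c ^ 5 * t ≤ 1 := by
    rw [le_div_iff₀ (by positivity)] at htc
    linarith
  have tc5 : t ≤ c ^ 5 * t := le_mul_of_one_le_left ht.le c5
  have tc1 : c * t ≤ c ^ 5 * t := by gcongr
  have tc2 : c ^ 2 * t ≤ c ^ 5 * t := by gcongr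
  have ht1 : t ≤ 1 := by linarith
  have hN0 : 0 ≤ N := (abs_nonneg _).trans (hu (Classical.arbitrary X))
  obtain ⟨w, hw⟩ : ∃ w : ℝ, w = a ^ 2 / t ^ 4 := ⟨_, rfl⟩
  have hw0 : 0 < w := by rw [hw]; positivity
  have w4 : w * t ^ 4 = a ^ 2 := by rw [hw]; field_simp
  have w1 : a ^ 2 / t ^ 3 = w * t := by rw [hw]; field_simp
  have w2 : a ^ 2 / t ^ 2 = w * t ^ 2 := by rw [hw]; field_simp
  have w3 : a ^ 2 / t = w * t ^ 3 := by rw [hw]; field_simp
  rw [w1] at h1 hm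
  rw [w2] at hm
  rw [w3] at h1
  have wa : w ≤ t ^ 6 * a := by
    rw [hw, div_le_iff₀ (by positivity)]
    calc a ^ 2 = a * a := sq a
      _ ≤ t ^ 10 * a := by gcongr
      _ = _ := by ring
  have tp : ∀ i j : ℕ, i ≤ j → t ^ j ≤ t ^ i := fun i j h => pow_le_pow_of_le_one ht.le ht1 h
  have wt : w * t ≤ a := by
    calc w * t ≤ t ^ 6 * a * t := by gcongr
      _ = t ^ 7 * a := by ring
      _ ≤ t ^ 0 * a := by gcongr 1; exact tp _ _ (by norm_num)
      _ = a := by ring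
  have wt2 : w * t ^ 2 ≤ t ^ 3 * a := by
    calc w * t ^ 2 ≤ t ^ 6 * a * t ^ 2 := by gcongr
      _ = t ^ 8 * a := by ring
      _ ≤ t ^ 3 * a := by gcongr ?_ * a; exact tp _ _ (by norm_num)
  have t3a : t ^ 3 * a ≤ a := mul_le_of_le_one_left ha.le (pow_le_one₀ ht.le ht1)
  have hCa : C * a ≤ c * a := by gcongr
  have θw : θ * (w * t) ≤ θ * a := by gcongr
  have θw0 : 0 ≤ θ * (w * t) := by positivity
  have m0 : ∀ v, 0 ≤ m v := fun v => by linarith [(abs_le.1 (hm v)).1]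
  have m1 : ∀ v, m v ≤ 2 * c * a := fun v => by
    have : (θ + 1) * a ≤ c * a := by gcongr
    linarith [(abs_le.1 (hm v)).2]
  have sum_le : ∀ (F : X → ℝ) (B : ℝ), 0 ≤ B → (∀ v, |F v| ≤ B) → |∑ v, F v| ≤ c * B := by
    intro F B hB h
    calc |∑ v, F v| ≤ ∑ v, |F v| := Finset.abs_sum_le_sum_abs _ _
      _ ≤ ∑ _v : X, B := Finset.sum_le_sum fun v _ => h v
      _ = n * B := by simp [hn]
      _ ≤ c * B := by gcongr
  have hZ : |∑ v, m v * u v| ≤ 2 * c ^ 2 * a * N := by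
    have := sum_le (fun v => m v * u v) (2 * c * a * N) (by positivity) fun v => by
      rw [abs_mul, abs_of_nonneg (m0 v)]
      gcongr
      exacts [m1 v, hu v]
    linarith
  have h2' : |∑ v, m v * u v + MY * y| ≤ c * (t ^ 3 * a * N + t ^ 7 * |y|) :=
    h2.trans (by gcongr)
  have hy := EvAlg_y hc1 ht ht1 (by linarith) ha hN0 hM1 hZ h2'
  have hy2 : |y| ≤ N / 2 := by
    have h4 : 0 < t ^ 4 := by positivity
    refine le_of_mul_le_mul_left (hy.trans ?_) h4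
    have e : a ≤ t * t ^ 4 := hat.trans (by rw [← pow_succ']; exact tp _ _ (by norm_num))
    have e2 : c ^ 2 * t ≤ 1 / 12 := by linarith
    calc 6 * c ^ 2 * a * N ≤ 6 * c ^ 2 * (t * t ^ 4) * N := by gcongr
      _ = 6 * (c ^ 2 * t) * (t ^ 4 * N) := by ring
      _ ≤ 6 * (1 / 12) * (t ^ 4 * N) := by gcongr
      _ = _ := by ring
  rcases hN with ⟨v₀, hv₀⟩ | hN
  swap
  · linarith
  obtain ⟨U, hU⟩ : ∃ U, U = ∑ v, u v ^ 2 := ⟨_, rfl⟩
  obtain ⟨S, hS⟩ : ∃ S, S = ∑ v, u v := ⟨_, rfl⟩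
  have hNU : N ^ 2 ≤ U := by
    rw [hU, ← hv₀, sq_abs]
    exact Finset.single_le_sum (f := fun v => u v ^ 2) (fun v _ => sq_nonneg _) (Finset.mem_univ _)
  have hU0 : 0 ≤ U := (sq_nonneg _).trans hNU
  have hSN : |S| ≤ c * N := hS ▸ sum_le u N hN0 hu
  have c3 : c ≤ c ^ 3 := le_self_pow₀ hc1 (by norm_num)
  have hE : C * (w * t ^ 3 * N + a * t ^ 3 * |y|) ≤ 7 * c ^ 3 * (w * t ^ 3) * N := by
    have e : a * t ^ 3 * |y| ≤ 6 * c ^ 2 * (w * t ^ 3) * N := by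
      refine le_of_mul_le_mul_left ?_ ht
      calc t * (a * t ^ 3 * |y|) = a * (t ^ 4 * |y|) := by ring
        _ ≤ a * (6 * c ^ 2 * a * N) := by gcongr
        _ = _ := by linear_combination -(6 * c ^ 2 * N) * w4
    have e2 : c * (w * t ^ 3 * N) ≤ c ^ 3 * (w * t ^ 3 * N) := by gcongr
    calc _ ≤ c * (w * t ^ 3 * N + 6 * c ^ 2 * (w * t ^ 3) * N) := by gcongr
      _ ≤ _ := by linarith
  have k1 := sum_le (fun v => u v * ((s * m v - σ) * u v + σ * y - w * t * Lu v))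
    (N * (7 * c ^ 3 * (w * t ^ 3) * N)) (by positivity) fun v => by
      rw [abs_mul]
      gcongr
      exacts [hu v, (h1 v).trans hE]
  have k2 : ∑ v, u v * ((s * m v - σ) * u v + σ * y - w * t * Lu v) =
      ∑ v, (s * m v - σ) * u v ^ 2 + σ * (y * S) - w * t * ∑ v, u v * Lu v := by
    simp only [hS, Finset.mul_sum, ← Finset.sum_add_distrib, ← Finset.sum_sub_distrib]
    exact Finset.sum_congr rfl fun v _ => by ring
  have k3 : ∑ v, (s * m v - σ) * u v ^ 2 ≤ (θ * (w * t) + w * t ^ 2) * U := by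
    rw [hU, Finset.mul_sum]
    refine Finset.sum_le_sum fun v _ => ?_
    have : s * m v ≤ m v := mul_le_of_le_one_left (m0 v) hs1
    gcongr
    linarith [(abs_le.1 (hm v)).2]
  have k4 := sum_le (fun v => (m v - σ - θ * (w * t)) * u v) (t ^ 3 * a * N) (by positivity)
    fun v => by
      rw [abs_mul]
      gcongr
      exacts [(hm v).trans wt2, hu v]
  have k5 : ∑ v, (m v - σ - θ * (w * t)) * u v = ∑ v, m v * u v - (σ + θ * (w * t)) * S := by
    simp only [hS, Finset.mul_sum, ← Finset.sum_sub_distrib]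
    exact Finset.sum_congr rfl fun v _ => by ring
  have k6 : |∑ v, m v * u v + MY * y| ≤ 7 * c ^ 3 * (t ^ 3 * a * N) := by
    have e : t ^ 7 * |y| ≤ 6 * c ^ 2 * (t ^ 3 * a * N) := by
      calc t ^ 7 * |y| = t ^ 3 * (t ^ 4 * |y|) := by ring
        _ ≤ t ^ 3 * (6 * c ^ 2 * a * N) := by gcongr
        _ = _ := by ring
    have e2 : c * (t ^ 3 * a * N) ≤ c ^ 3 * (t ^ 3 * a * N) := by gcongr
    calc _ ≤ c * (t ^ 3 * a * N + 6 * c ^ 2 * (t ^ 3 * a * N)) := h2'.trans (by gcongr)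
      _ ≤ _ := by linarith
  have k7 : |MY * y + (σ + θ * (w * t)) * S| ≤ 8 * c ^ 3 * (t ^ 3 * a * N) := by
    have e : MY * y + (σ + θ * (w * t)) * S =
        (∑ v, m v * u v + MY * y) - ∑ v, (m v - σ - θ * (w * t)) * u v := by rw [k5]; ring
    have e2 : c * (t ^ 3 * a * N) ≤ c ^ 3 * (t ^ 3 * a * N) := by gcongr
    rw [e]
    linarith [abs_sub (∑ v, m v * u v + MY * y) (∑ v, (m v - σ - θ * (w * t)) * u v)]
  have k8 : MY * (y * S) ≤ -(a * S ^ 2) + t ^ 3 * a * (8 * c ^ 4 * U) := by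
    have e1 : (MY * y + (σ + θ * (w * t)) * S) * S ≤ 8 * c ^ 3 * (t ^ 3 * a * N) * (c * N) := by
      refine (le_abs_self _).trans ?_
      rw [abs_mul]
      gcongr
    have e2 : a * S ^ 2 ≤ (σ + θ * (w * t)) * S ^ 2 := by
      gcongr
      linarith
    have e3 : t ^ 3 * a * (8 * c ^ 4 * N ^ 2) ≤ t ^ 3 * a * (8 * c ^ 4 * U) := by gcongr
    linarith
  have k9 := EvAlg_s hc1 ht ha hσ1 (hσ2.trans hCa) hM1 (hM2.trans (by gcongr)) (sq_nonneg S)
    (by positivity) w4 k8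
  rw [← hU, ← hS] at h3
  have k10 : w * t * ((θ + 1) * (U - S ^ 2 / n)) ≤ w * t * ∑ v, u v * Lu v := by gcongr
  have k11 : 7 * c ^ 4 * (w * t ^ 3) * N ^ 2 ≤ 7 * c ^ 4 * (w * t ^ 3) * U := by gcongr
  have := EvAlg_fin (U := U) (S2 := S ^ 2) hc1 ht hct hw0 hU0 (sq_nonneg S) hn1 hθc (by
    rw [k2] at k1
    have := (abs_le.1 k1).1
    linarith)
  exact pow_eq_zero_iff (two_ne_zero) |>.1 (le_antisymm (hNU.trans this) (sq_nonneg N))

end Pool.Agent.MP_4f0ed6_gt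

end

section

open Set Laplacian Filter Topology MeasureTheory Metric InnerProductSpace
open scoped ContDiff

namespace Pool.Agent.MP_4f0ed6_gt

namespace Fx

variable {h nT nx : ℕ} {S : Fx h nT nx}

theorem Even_small {η s N : ℝ} {p : DD h × DD h → ℝ} {u : Option (DD h × Bool) → ℝ}
    (ρ : S.Rp η p s N u) (v : DD h × Bool) :
    ∫ w, S.μ η p (some v) w * ρ.φ (some v) w = S.m η p v.1 * u (some v) := by
  rw [← ρ.norm (some v), ← integral_const_mul]
  refine integral_congr_ae (Eventually.of_forall fun w => ?_)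
  simp only [μ, β, mul_assoc]

theorem Even_mass {η s N K B : ℝ} {p : DD h × DD h → ℝ} {u : Option (DD h × Bool) → ℝ}
    (hE : (S.Q η).Est (S.β η) (S.μ η p) η⁻¹ (S.mm η)) (hs : 0 < s) (ρ : S.Rp η p s N u)
    (ht : ∀ v, ρ.t v = 0) (hB : 0 ≤ B) (hK : S.mm η none = K)
    (hφ : ∀ w ∈ (S.Q η).core none, |ρ.φ none w - u none| ≤ B) :
    |∑ v, S.m η p v.1 * u (some v) + (∫ w, S.μ η p none w) * u none| ≤
      K * B + Fintype.card (Option (DD h × Bool)) * (S.aa η ^ 3 * N) := by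
  have h1 := ρ.sum_t hE.ok
  simp only [ht, Finset.sum_const_zero] at h1
  have h2 := (mul_eq_zero.1 h1.symm).resolve_left hs.ne'
  rw [Finset.sum_add_distrib, Fintype.sum_option] at h2
  simp only [Even_small] at h2
  have h3 : |∑ v, ρ.e v| ≤ Fintype.card (Option (DD h × Bool)) * (S.aa η ^ 3 * N) := by
    refine (Finset.abs_sum_le_sum_abs _ _).trans ?_
    refine (Finset.sum_le_sum fun v _ => ρ.e_le v).trans ?_
    rw [Finset.sum_const, Finset.card_univ, nsmul_eq_mul]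
  have hpb := hE.μ_pb none
  have h4 := abs_integral_mul_le (φ := fun w => ρ.φ none w - u none) hpb.integrable hB
    (hE.mass none) fun w k => hφ w (hE.μ_supp none w k)
  have h5 : Integrable fun w => S.μ η p none w * ρ.φ none w :=
    (hpb.cont.mul (ρ.cont none)).integrable_of_hasCompactSupport hpb.hcs.mul_right
  simp only [mul_sub] at h4
  rw [integral_sub h5 (hpb.integrable.mul_const _), integral_mul_const, hK] at h4
  have h6 := abs_le.1 h3
  have h7 := abs_le.1 h4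
  rw [abs_le]
  constructor <;> linarith [h6.1, h6.2, h7.1, h7.2]

theorem Ok.even (hS : S.Ok) : ∀ᶠ η : ℝ in 𝓝[>] 0, ∀ p ∈ cube (DD h), ∀ s : ℝ, 0 < s → s ≤ 1 →
    ∀ u N, (∀ v, u (iV v) = u v) → (∀ v, |u v| ≤ N) → (∃ v, |u v| = N) →
      ∀ ρ : S.Rp η p s N u, (∀ v, ρ.t v = 0) → N = 0 := by
  obtain ⟨Cb, hCb, evb⟩ := hS.bnd
  obtain ⟨Cf, hCf, evf⟩ := hS.first
  obtain ⟨K, hK⟩ : ∃ K : ℝ, K = 13 * Fintype.card (Fin h × DD h) * S.A := ⟨_, rfl⟩
  obtain ⟨cV, hcV⟩ : ∃ c : ℝ, c = Fintype.card (Option (DD h × Bool)) := ⟨_, rfl⟩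
  have hA : 0 ≤ S.A := zero_le_one.trans hS.ctl.one_le
  have hK0 : 0 ≤ K := by rw [hK]; positivity
  have hcV0 : 0 ≤ cV := by rw [hcV]; positivity
  have hh0 : (0 : ℝ) ≤ h := Nat.cast_nonneg _
  have hKC : 0 ≤ K * Cb := mul_nonneg hK0 hCb
  filter_upwards [evb, evf, hS.est, ev_small one_pos,
    even_alg (X := DD h × Bool) (h + K + Cf + (K * Cb + cV)) hS.graph.θ_nonneg]
    with η eb ef ee ⟨h0, h1⟩ ea p hp s hs0 hs1 u N hu hN hex ρ ht
  have hs : s ∈ Icc (0 : ℝ) 1 := ⟨hs0.le, hs1⟩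
  have hE := ee p hp
  have ha : 0 < S.aa η := pow_pos h0 _
  have ha' := S.aa_le hS h0 h1
  have hN0 : 0 ≤ N := (abs_nonneg _).trans (hN none)
  have hy0 : 0 ≤ |u none| := abs_nonneg _
  obtain ⟨hσ1, hσ2⟩ := S.sum_aj hS h0 h1
  have hmm : S.mm η none = K * η ^ 4 := by rw [hK]; rfl
  refine ea (S.aa η) (∑ j, S.aj η j) s (u none) N (∫ w, S.μ η p none w)
    (fun v => S.m η p v.1) (fun v => u (some v)) (Lap S.Pm fun v => u (some v)) ha ha' hσ1
    (hσ2.trans (mul_le_mul_of_nonneg_right (by linarith) ha.le)) (fun v => ?_) hs0 hs1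
    (hS.mass_Y h0 hp) ?_ (fun v => hN _) ?_ (fun v => ?_) ?_
    (hS.graph.even _ fun v => hu (some v))
  · rw [← S.am_eq h0, ← S.ad_eq h0]
    have h2 : S.m η p v.1 - ∑ j, S.aj η j - S.θ * S.am η = S.ad η * p (v.1, v.1) := by
      rw [m]; ring
    have h3 : 0 < S.ad η := pow_pos h0 _
    rw [h2, abs_mul, abs_of_pos h3]
    exact mul_le_of_le_one_right h3.le (hp _)
  · have h2 : ∫ w, S.μ η p none w ≤ ∫ w, |S.μ η p none w| :=
      (le_abs_self _).trans abs_integral_le_integral_abs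
    refine (h2.trans (hE.mass none)).trans ?_
    rw [hmm]
    exact mul_le_mul_of_nonneg_right (by linarith) (pow_pos h0 _).le
  · obtain ⟨v, hv⟩ := hex
    rcases v with _ | v
    · exact Or.inr hv
    · exact Or.inl ⟨v, hv⟩
  · have h2 := ef p hp s hs N u hN ρ v
    rw [ht, zero_sub, abs_neg, S.am_eq h0] at h2
    exact h2.trans (mul_le_mul_of_nonneg_right (by linarith) (by positivity))
  · have h2 := Even_mass hE hs0 ρ ht (by positivity) hmm (eb p hp s hs N u hN ρ).2.2.1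
    rw [← hcV] at h2
    refine h2.trans ?_
    have h3 : K * η ^ 4 * (Cb * (S.aa η / η * N + η ^ 3 * |u none|)) =
        K * Cb * (η ^ 3 * S.aa η * N + η ^ 7 * |u none|) := by
      field_simp
    have h4 : S.aa η ^ 2 ≤ η ^ 3 :=
      calc S.aa η ^ 2 ≤ (η ^ 10) ^ 2 := pow_le_pow_left₀ ha.le ha' 2
        _ = η ^ 20 := by ring
        _ ≤ η ^ 3 := pow_le_pow_of_le_one h0.le h1 (by norm_num)
    have h5 : S.aa η ^ 3 * N ≤ η ^ 3 * S.aa η * N + η ^ 7 * |u none| := by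
      have h6 := mul_le_mul_of_nonneg_right h4 (mul_nonneg ha.le hN0)
      have h7 : 0 ≤ η ^ 7 * |u none| := by positivity
      nlinarith
    have h6 := mul_le_mul_of_nonneg_left h5 hcV0
    have h7 : 0 ≤ (h + K + Cf) * (η ^ 3 * S.aa η * N + η ^ 7 * |u none|) := by positivity
    rw [h3]
    nlinarith

end Fx

end Pool.Agent.MP_4f0ed6_gt

end
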