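import Pool.Agent.Mg.F4f0ed6.Gbb96b0
import Pool.Agent.Mg.F4f0ed6.G62e3c0
import Pool.Agent.MP_92c74b_an.Brouwer

section

open Set Laplacian Filter Topology MeasureTheory Metric InnerProductSpace
open scoped ContDiff

namespace Pool.Agent.MP_4f0ed6_gt

theorem PlConn_ann (c : ℂ) {a b : ℝ} (ha : 0 ≤ a) :
    IsPreconnected {w : ℂ | a < ‖w - c‖ ∧ ‖w - c‖ < b} := by
  have h : {w : ℂ | a < ‖w - c‖ ∧ ‖w - c‖ < b} =
      (fun p : ℝ × ℝ => circleMap c p.1 p.2) '' (Ioo a b ×ˢ univ) := by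
    ext w
    constructor
    · rintro ⟨h1, h2⟩
      refine ⟨(‖w - c‖, Complex.arg (w - c)), ⟨⟨h1, h2⟩, trivial⟩, ?_⟩
      simp [circleMap, Complex.norm_mul_exp_arg_mul_I]
    · rintro ⟨⟨t, θ⟩, ⟨⟨h1, h2⟩, -⟩, rfl⟩
      have ht : 0 < t := lt_of_le_of_lt ha h1
      simp only [mem_ofPred_eq, circleMap_sub_center, norm_circleMap_zero, abs_of_pos ht]
      exact ⟨h1, h2⟩
  rw [h]
  refine (isPreconnected_Ioo.prod isPreconnected_univ).image _ (Continuous.continuousOn ?_)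
  unfold circleMap
  fun_prop

theorem PlConn_open (c : ℂ) (a : ℝ) : IsOpen {w : ℂ | a < ‖w - c‖} :=
  isOpen_lt continuous_const (by fun_prop)

theorem PlConn_hole {U : Set ℂ} (hU : IsOpen U) (hc : IsPreconnected U) {c : ℂ} {a b : ℝ}
    (ha : 0 ≤ a) (hab : a < b) (hb : ∀ w, ‖w - c‖ < b → w ∈ U) :
    IsPreconnected {w | w ∈ U ∧ a < ‖w - c‖} := by
  refine isPreconnected_of_forall_constant fun f hf x hx y hy => ?_
  have hA := PlConn_ann c (b := b) ha
  have hsub : {w : ℂ | a < ‖w - c‖ ∧ ‖w - c‖ < b} ⊆ {w | w ∈ U ∧ a < ‖w - c‖} :=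
    fun w hw => ⟨hb w hw.2, hw.1⟩
  have h0 : c + (((a + b) / 2 : ℝ) : ℂ) ∈ {w : ℂ | a < ‖w - c‖ ∧ ‖w - c‖ < b} := by
    have hp : 0 < (a + b) / 2 := by linarith
    simp only [mem_ofPred_eq, add_sub_cancel_left, Complex.norm_real, Real.norm_eq_abs,
      abs_of_pos hp]
    constructor <;> linarith
  set val := f (c + (((a + b) / 2 : ℝ) : ℂ)) with hval
  have hconst : ∀ w ∈ {w : ℂ | a < ‖w - c‖ ∧ ‖w - c‖ < b}, f w = val :=
    fun w hw => hA.constant (hf.mono hsub) hw h0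
  classical
  let g : ℂ → Bool := fun w => if ‖w - c‖ < b then val else f w
  have hgf : ∀ w ∈ {w | w ∈ U ∧ a < ‖w - c‖}, g w = f w := by
    intro w hw
    by_cases h : ‖w - c‖ < b
    · simp only [g, if_pos h]
      exact (hconst w ⟨hw.2, h⟩).symm
    · simp only [g, if_neg h]
  have ho1 : IsOpen {w | w ∈ U ∧ a < ‖w - c‖} :=
    hU.inter (PlConn_open c a)
  have ho2 : IsOpen {w : ℂ | ‖w - c‖ < b} := isOpen_lt (by fun_prop) continuous_const
  have hg : ContinuousOn g U := by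
    intro w hw
    refine ContinuousAt.continuousWithinAt ?_
    by_cases h : ‖w - c‖ < b
    · have : g =ᶠ[𝓝 w] fun _ => val := by
        filter_upwards [ho2.mem_nhds h] with z hz
        have hz' : ‖z - c‖ < b := hz
        simp only [g, if_pos hz']
      exact continuousAt_const.congr this.symm
    · have hw' : w ∈ {w | w ∈ U ∧ a < ‖w - c‖} := ⟨hw, by push Not at h; linarith⟩
      have : g =ᶠ[𝓝 w] f := by
        filter_upwards [ho1.mem_nhds hw'] with z hz using hgf z hz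
      exact (hf.continuousAt (ho1.mem_nhds hw')).congr this.symm
  rw [← hgf x hx, ← hgf y hy]
  exact hc.constant hg hx.1 hy.1

theorem PlConn_fin {V P : Type} [Fintype P] {Q : Plumb V P} (hQ : Q.Ok) (v : V) (s : Finset P)
    (hs : ∀ π ∈ s, Q.pc π = v) :
    IsOpen {w : ℂ | ‖w‖ < 2 ∧ ∀ π ∈ s, Q.r π / 2 < ‖w - Q.c π‖} ∧
      IsPreconnected {w : ℂ | ‖w‖ < 2 ∧ ∀ π ∈ s, Q.r π / 2 < ‖w - Q.c π‖} := by
  classical
  induction s using Finset.induction_on with
  | empty =>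
    have h : {w : ℂ | ‖w‖ < 2 ∧ ∀ π ∈ (∅ : Finset P), Q.r π / 2 < ‖w - Q.c π‖} = ball 0 2 := by
      ext w
      simp
    rw [h]
    exact ⟨isOpen_ball, (convex_ball _ _).isPreconnected⟩
  | insert π s hπ ih =>
    obtain ⟨h1, h2⟩ := ih fun π' h => hs π' (Finset.mem_insert_of_mem h)
    have h : {w : ℂ | ‖w‖ < 2 ∧ ∀ π' ∈ insert π s, Q.r π' / 2 < ‖w - Q.c π'‖} =
        {w | w ∈ {w : ℂ | ‖w‖ < 2 ∧ ∀ π ∈ s, Q.r π / 2 < ‖w - Q.c π‖} ∧
          Q.r π / 2 < ‖w - Q.c π‖} := by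
      ext w
      simp only [mem_ofPred_eq, Finset.forall_mem_insert]
      tauto
    rw [h]
    have hr := Plumb.r_pos (Q := Q) π
    refine ⟨h1.inter (PlConn_open _ _), ?_⟩
    refine PlConn_hole h1 h2 (b := Q.r π) (by linarith) (by linarith) fun w hw => ?_
    have hr' := hQ.r_le' π
    have hsep := hQ.sep_le
    refine ⟨?_, fun π' hπ' => ?_⟩
    · have h3 : ‖w‖ ≤ ‖w - Q.c π‖ + ‖Q.c π‖ := by
        simpa using norm_add_le (w - Q.c π) (Q.c π)
      have := hQ.c_le π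
      linarith
    · have hne : π' ≠ π := fun h => hπ (h ▸ hπ')
      have hp : Q.pc π' = Q.pc π := by
        rw [hs π' (Finset.mem_insert_of_mem hπ'), hs π (Finset.mem_insert_self _ _)]
      have h4 := (hQ.near hne hp (x := w - Q.c π) (by linarith)).1
      have h5 := hQ.r_le' π'
      have h6 := Plumb.r_pos (Q := Q) π'
      rw [add_sub_cancel] at h4
      linarith

theorem Plumb.Ok.W_conn {V P : Type} [Fintype P] {Q : Plumb V P} (hQ : Q.Ok) (α : V × Bool) :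
    IsPreconnected (Q.W α) := by
  obtain ⟨v, _ | _⟩ := α
  · have h := (PlConn_fin hQ v (Q.pts v) fun π hπ => Plumb.mem_pts.1 hπ).2
    have he : Q.W (v, false) =
        {w : ℂ | ‖w‖ < 2 ∧ ∀ π ∈ Q.pts v, Q.r π / 2 < ‖w - Q.c π‖} := by
      ext w
      simp only [Plumb.W, mem_ofPred_eq, Plumb.mem_pts]
    rw [he]
    exact h
  · have he : Q.W (v, true) = ball 0 2 := by
      ext w
      simp [Plumb.W]
    rw [he]
    exact (convex_ball _ _).isPreconnected

end Pool.Agent.MP_4f0ed6_gt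

end

section

open Set Laplacian Filter Topology MeasureTheory Metric InnerProductSpace
open scoped ContDiff

namespace Pool.Agent.MP_4f0ed6_gt

section aux

variable {V P : Type} [Fintype P] {Q : Plumb V P}

theorem PlOk_r (hQ : Q.Ok) (π : P) : Q.r π ≤ 1 / 64 := by
  have := hQ.r_le' π
  have := hQ.sep_le
  linarith

omit [Fintype P] in
theorem PlOk_norm (π : P) (x : ℂ) : ‖Q.ε π / x‖ = Q.r π ^ 2 / ‖x‖ := by
  rw [norm_div, Plumb.norm_ε]

omit [Fintype P] in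
theorem PlOk_ε_ne (π : P) : Q.ε π ≠ 0 := by
  rw [← norm_pos_iff, Plumb.norm_ε]
  exact pow_pos (Plumb.r_pos π) 2

theorem PlOk_far (hQ : Q.Ok) (π : P) {w : ℂ} (hw : 1 / 2 ≤ ‖w‖) : 1 / 4 ≤ ‖w - Q.c π‖ := by
  have h1 := norm_sub_norm_le w (Q.c π)
  have h2 := hQ.c_le π
  linarith

theorem PlOk_small (hQ : Q.Ok) (π : P) {w : ℂ} (hw : ‖w - Q.c π‖ < 2 * Q.r π) : ‖w‖ < 1 / 2 := by
  by_contra h
  have := PlOk_far hQ π (not_lt.mp h)
  have := PlOk_r hQ π
  linarith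

theorem PlOk_other (hQ : Q.Ok) {π π' : P} (hne : π' ≠ π) (hp : Q.pc π' = Q.pc π) {w : ℂ}
    (hw : ‖w - Q.c π‖ < 2 * Q.r π) : 2 * Q.r π' ≤ ‖w - Q.c π'‖ := by
  have h1 := hQ.r_le' π
  have h2 := hQ.r_le' π'
  have h3 := Plumb.r_pos (Q := Q) π
  have h4 := Plumb.r_pos (Q := Q) π'
  have h5 := (hQ.near hne hp (x := w - Q.c π) (by linarith)).1
  rw [add_sub_cancel] at h5
  linarith

theorem PlOk_tube (hQ : Q.Ok) (π : P) {w : ℂ} (h1 : Q.r π / 2 < ‖w - Q.c π‖)
    (h2 : ‖w - Q.c π‖ < 2 * Q.r π) :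
    Q.r (Q.σ π) / 2 < ‖Q.c (Q.σ π) + Q.ε π / (w - Q.c π) - Q.c (Q.σ π)‖ ∧
      ‖Q.c (Q.σ π) + Q.ε π / (w - Q.c π) - Q.c (Q.σ π)‖ < 2 * Q.r (Q.σ π) := by
  have h3 := Plumb.r_pos (Q := Q) π
  have h4 : 0 < ‖w - Q.c π‖ := by linarith
  rw [add_sub_cancel_left, PlOk_norm, hQ.r_σ, lt_div_iff₀ h4, div_lt_iff₀ h4]
  constructor <;> nlinarith

theorem PlOk_cap {w : ℂ} (h1 : 1 / 2 < ‖w‖) (h2 : ‖w‖ < 2) : 1 / 2 < ‖w⁻¹‖ ∧ ‖w⁻¹‖ < 2 := by
  have h4 : 0 < ‖w‖ := by linarith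
  rw [norm_inv, inv_eq_one_div, lt_div_iff₀ h4, div_lt_iff₀ h4]
  constructor <;> linarith

theorem PlOk_inv_le {w : ℂ} (h1 : 1 < ‖w‖) : ‖w⁻¹‖ ≤ 1 := by
  rw [norm_inv]
  exact inv_le_one_of_one_le₀ h1.le

theorem PlOk_O_sub (hQ : Q.Ok) (κ : P ⊕ V × Bool) : Q.glue.O κ ⊆ Q.glue.W (Q.glue.ch κ) := by
  rcases κ with π | ⟨v, _ | _⟩
  · rintro w ⟨h1, h2⟩
    refine ⟨by linarith [PlOk_small hQ π h2], fun π' hp => ?_⟩
    by_cases hne : π' = π
    · rw [hne]; exact h1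
    · linarith [PlOk_other hQ hne hp h2, Plumb.r_pos (Q := Q) π']
  · rintro w ⟨h1, h2⟩
    exact ⟨h2, fun π _ => by linarith [PlOk_far hQ π h1.le, PlOk_r hQ π]⟩
  · exact fun w hw => hw.2

theorem PlOk_disj (hQ : Q.Ok) (κ κ' : P ⊕ V × Bool) (z : ℂ) (h : Q.glue.ch κ = Q.glue.ch κ')
    (h1 : z ∈ Q.glue.O κ) (h2 : z ∈ Q.glue.O κ') : κ = κ' := by
  rcases κ with π | α <;> rcases κ' with π' | α'
  · by_contra hne
    have hne' : π' ≠ π := fun e => hne (by rw [e])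
    have hp : Q.pc π' = Q.pc π := (congrArg Prod.fst h).symm
    exact absurd h2.2 (not_lt.mpr (PlOk_other hQ hne' hp h1.2))
  · exact absurd h2.1 (not_lt.mpr (PlOk_small hQ π h1.2).le)
  · exact absurd h1.1 (not_lt.mpr (PlOk_small hQ π' h2.2).le)
  · exact congrArg Sum.inr h

theorem PlOk_closed (hQ : Q.Ok) (κ : P ⊕ V × Bool) (C : Set ℂ) (hC : IsCompact C)
    (hs : C ⊆ Q.glue.W (Q.glue.ch (Q.glue.σ κ))) (z : ℂ) (hz : z ∈ Q.glue.W (Q.glue.ch κ))
    (hO : z ∉ Q.glue.O κ) : ∀ᶠ w in 𝓝 z, w ∈ Q.glue.O κ → Q.glue.τ κ w ∉ C := by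
  have key : ContinuousAt (Q.glue.τ κ) z → Q.glue.τ κ z ∉ Q.glue.W (Q.glue.ch (Q.glue.σ κ)) →
      ∀ᶠ w in 𝓝 z, w ∈ Q.glue.O κ → Q.glue.τ κ w ∉ C := fun hc hn => by
    have : ∀ᶠ w in 𝓝 z, Q.glue.τ κ w ∈ Cᶜ :=
      hc (hC.isClosed.isOpen_compl.mem_nhds fun h => hn (hs h))
    exact this.mono fun w hw _ => hw
  rcases κ with π | α
  · have h1 : Q.r π / 2 < ‖z - Q.c π‖ := hz.2 π rfl
    have h2 : 2 * Q.r π ≤ ‖z - Q.c π‖ := not_lt.mp fun h => hO ⟨h1, h⟩
    have h3 := Plumb.r_pos (Q := Q) π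
    have h4 : 0 < ‖z - Q.c π‖ := by linarith
    refine key ?_ fun h => ?_
    · exact continuousAt_const.add (continuousAt_const.div (continuousAt_id.sub continuousAt_const)
        (norm_pos_iff.mp h4))
    · have h5 : Q.r (Q.σ π) / 2 < ‖Q.c (Q.σ π) + Q.ε π / (z - Q.c π) - Q.c (Q.σ π)‖ :=
        h.2 (Q.σ π) rfl
      rw [add_sub_cancel_left, PlOk_norm, hQ.r_σ, lt_div_iff₀ h4] at h5
      nlinarith
  · have h1 : ‖z‖ < 2 := Plumb.norm_lt_of_W hz
    have h2 : ‖z‖ ≤ 1 / 2 := not_lt.mp fun h => hO ⟨h, h1⟩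
    by_cases h0 : z = 0
    · subst h0
      filter_upwards [ball_mem_nhds (0 : ℂ) (show (0 : ℝ) < 1 / 2 by norm_num)] with w hw hw'
      exact absurd hw'.1 (not_lt.mpr (mem_ball_zero_iff.mp hw).le)
    · refine key (continuousAt_inv₀ h0) fun h => ?_
      have h3 : ‖z⁻¹‖ < 2 := Plumb.norm_lt_of_W h
      have h4 : 0 < ‖z‖ := norm_pos_iff.mpr h0
      rw [norm_inv, inv_eq_one_div, div_lt_iff₀ h4] at h3
      linarith

omit [Fintype P] in
theorem PlOk_compact (α : V × Bool) : IsCompact (Q.Cp α) := by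
  rcases α with ⟨v, _ | _⟩
  · refine (isCompact_closedBall (0 : ℂ) 1).of_isClosed_subset ?_
      fun w hw => mem_closedBall_zero_iff.mpr hw.1
    simp only [Plumb.Cp, Set.ofPred_and, Set.ofPred_forall]
    refine (isClosed_le continuous_norm continuous_const).inter
      (isClosed_iInter fun π => isClosed_iInter fun _ => isClosed_le continuous_const ?_)
    fun_prop
  · convert isCompact_closedBall (0 : ℂ) 1 using 1
    ext w
    simp [Plumb.Cp]

theorem PlOk_cover (hQ : Q.Ok) (α : V × Bool) (z : ℂ) (hz : z ∈ Q.glue.W α) :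
    z ∈ Q.glue.Cp α ∨ ∃ κ, Q.glue.ch κ = α ∧ z ∈ Q.glue.O κ ∧
      Q.glue.τ κ z ∈ Q.glue.Cp (Q.glue.ch (Q.glue.σ κ)) := by
  have h2 : ‖z‖ < 2 := Plumb.norm_lt_of_W hz
  rcases α with ⟨v, _ | _⟩
  · by_cases h1 : ‖z‖ ≤ 1
    · by_cases h3 : ∀ π, Q.pc π = v → Q.r π ≤ ‖z - Q.c π‖
      · exact Or.inl ⟨h1, h3⟩
      push Not at h3
      obtain ⟨π, rfl, h4⟩ := h3
      have h5 := Plumb.r_pos (Q := Q) π
      have h6 : Q.r π / 2 < ‖z - Q.c π‖ := hz.2 π rfl
      have h7 : ‖z - Q.c π‖ < 2 * Q.r π := by linarith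
      have h8 := PlOk_tube hQ π h6 h7
      refine Or.inr ⟨Sum.inl π, rfl, ⟨h6, h7⟩, ?_⟩
      change Q.c (Q.σ π) + Q.ε π / (z - Q.c π) ∈ Q.Cp (Q.pc (Q.σ π), false)
      refine ⟨by linarith [PlOk_small hQ _ h8.2], fun π' hp => ?_⟩
      by_cases hne : π' = Q.σ π
      · rw [hne, add_sub_cancel_left, PlOk_norm, hQ.r_σ, le_div_iff₀ (by linarith)]
        nlinarith
      · linarith [PlOk_other hQ hne hp h8.2, Plumb.r_pos (Q := Q) π']
    · push Not at h1
      exact Or.inr ⟨Sum.inr (v, false), rfl, ⟨by linarith, h2⟩, PlOk_inv_le h1⟩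
  · by_cases h1 : ‖z‖ ≤ 1
    · exact Or.inl h1
    push Not at h1
    refine Or.inr ⟨Sum.inr (v, true), rfl, ⟨by linarith, h2⟩, ?_⟩
    change z⁻¹ ∈ Q.Cp (v, false)
    refine ⟨PlOk_inv_le h1, fun π _ => ?_⟩
    linarith [PlOk_far hQ π (PlOk_cap (w := z) (by linarith) h2).1.le, PlOk_r hQ π]

theorem PlOk_conn (hQ : Q.Ok) (α β : V × Bool) : Relation.ReflTransGen
    (fun a b => ∃ κ, Q.glue.ch κ = a ∧ Q.glue.ch (Q.glue.σ κ) = b) α β := by
  have h1 : ∀ v v', Relation.ReflTransGen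
      (fun a b => ∃ κ, Q.glue.ch κ = a ∧ Q.glue.ch (Q.glue.σ κ) = b) (v, false) (v', false) := by
    intro v v'
    induction hQ.conn v v' with
    | refl => exact .refl
    | tail _ h ih =>
      obtain ⟨π, rfl, rfl⟩ := h
      exact ih.tail ⟨Sum.inl π, rfl, rfl⟩
  rcases α with ⟨v, _ | _⟩ <;> rcases β with ⟨v', _ | _⟩
  · exact h1 v v'
  · exact (h1 v v').tail ⟨Sum.inr (v', false), rfl, rfl⟩
  · exact (h1 v v').head ⟨Sum.inr (v, true), rfl, rfl⟩
  · exact ((h1 v v').head ⟨Sum.inr (v, true), rfl, rfl⟩).tail ⟨Sum.inr (v', false), rfl, rfl⟩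

theorem PlOk_core (hQ : Q.Ok) (α : V × Bool) :
    ∃ z ∈ Q.glue.W α, ∀ κ, Q.glue.ch κ = α → z ∉ Q.glue.O κ := by
  rcases α with ⟨v, _ | _⟩
  · have h : ‖(1 / 2 : ℂ)‖ = 1 / 2 := by simp
    refine ⟨1 / 2, ⟨by rw [h]; norm_num, fun π _ => ?_⟩, ?_⟩
    · linarith [PlOk_far hQ π h.ge, PlOk_r hQ π]
    · rintro (π | β) - hm
      · exact absurd (PlOk_small hQ π hm.2) (not_lt.mpr h.ge)
      · exact absurd hm.1 (not_lt.mpr h.le)
  · refine ⟨0, show ‖(0 : ℂ)‖ < 2 by simp, ?_⟩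
    rintro (π | β) h hm
    · exact absurd (congrArg Prod.snd h) Bool.false_ne_true
    · have : (1 : ℝ) / 2 < ‖(0 : ℂ)‖ := hm.1
      norm_num at this

end aux

theorem Plumb.Ok.glue {V P : Type} [Fintype P] {Q : Plumb V P} (hQ : Q.Ok) : Q.glue.Ok where
  W_open := Plumb.isOpen_W
  O_open := by
    rintro (π | α)
    · have h : Continuous fun w : ℂ => ‖w - Q.c π‖ := by fun_prop
      exact (isOpen_lt continuous_const h).inter (isOpen_lt h continuous_const)
    · exact (isOpen_lt continuous_const continuous_norm).inter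
        (isOpen_lt continuous_norm continuous_const)
  O_sub := PlOk_O_sub hQ
  σσ := by
    rintro (π | ⟨v, i⟩)
    · exact congrArg Sum.inl (hQ.σσ π)
    · simp [Plumb.glue]
  ch_ne := by
    rintro (π | ⟨v, i⟩) h
    · exact hQ.pc_ne π (congrArg Prod.fst h)
    · simp [Plumb.glue] at h
  maps := by
    rintro (π | α) z hz
    · exact PlOk_tube hQ π hz.1 hz.2
    · exact PlOk_cap hz.1 hz.2
  inv := by
    rintro (π | α) z hz
    · change Q.c (Q.σ (Q.σ π)) + Q.ε (Q.σ π) /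
        (Q.c (Q.σ π) + Q.ε π / (z - Q.c π) - Q.c (Q.σ π)) = z
      rw [hQ.σσ, hQ.ε_σ, add_sub_cancel_left, div_div_cancel₀ (PlOk_ε_ne π), add_sub_cancel]
    · exact inv_inv z
  hol := by
    rintro (π | α) z hz
    · have h : z - Q.c π ≠ 0 := norm_pos_iff.mp (by linarith [hz.1, Plumb.r_pos (Q := Q) π])
      have h1 : DifferentiableAt ℂ (fun w : ℂ => Q.c (Q.σ π) + Q.ε π / (w - Q.c π)) z := by
        fun_prop (disch := exact h)
      exact h1.differentiableWithinAt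
    · have h : z ≠ 0 := norm_pos_iff.mp (by linarith [hz.1])
      exact (differentiableAt_inv h).differentiableWithinAt
  disj := PlOk_disj hQ
  closed := PlOk_closed hQ
  Cp_compact := PlOk_compact
  Cp_sub := by
    rintro ⟨v, _ | _⟩ w hw
    · exact ⟨by linarith [hw.1], fun π h => by linarith [hw.2 π h, Plumb.r_pos (Q := Q) π]⟩
    · have h : ‖w‖ ≤ 1 := hw
      show ‖w‖ < 2
      linarith
  cover := PlOk_cover hQ
  W_conn := hQ.W_conn
  O_ne := by
    rintro (π | α)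
    · have h := Plumb.r_pos (Q := Q) π
      refine ⟨Q.c π + Q.r π, ?_⟩
      change Q.r π / 2 < ‖Q.c π + Q.r π - Q.c π‖ ∧ ‖Q.c π + Q.r π - Q.c π‖ < 2 * Q.r π
      rw [add_sub_cancel_left, Complex.norm_real, Real.norm_of_nonneg h.le]
      constructor <;> linarith
    · refine ⟨1, ?_⟩
      change (1 : ℝ) / 2 < ‖(1 : ℂ)‖ ∧ ‖(1 : ℂ)‖ < 2
      norm_num
  ne := hQ.ne.elim fun v => ⟨(v, false)⟩
  conn := PlOk_conn hQ
  core := PlOk_core hQ

end Pool.Agent.MP_4f0ed6_gt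

end

section

open Set Laplacian Filter Topology MeasureTheory Metric InnerProductSpace
open scoped ContDiff

namespace Pool.Agent.MP_4f0ed6_gt

/-- the space of unknowns -/
abbrev Fix_X (V P : Type) : Type :=
  (P → ℝ) × (P → BoundedContinuousFunction ℂ ℝ) × (V × Bool → BoundedContinuousFunction ℂ ℝ)

theorem Fix_dist_le {V P : Type} [Fintype V] [Fintype P] {A B : Fix_X V P} {c : ℝ} (hc : 0 ≤ c)
    (h1 : ∀ π, |A.1 π - B.1 π| ≤ c) (h2 : ∀ π x, |A.2.1 π x - B.2.1 π x| ≤ c)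
    (h3 : ∀ α x, |A.2.2 α x - B.2.2 α x| ≤ c) : dist A B ≤ c := by
  rw [Prod.dist_eq, Prod.dist_eq]
  refine max_le ((dist_pi_le_iff hc).2 h1) (max_le ((dist_pi_le_iff hc).2 fun π => ?_)
    ((dist_pi_le_iff hc).2 fun α => ?_))
  · exact (BoundedContinuousFunction.dist_le hc).2 (h2 π)
  · exact (BoundedContinuousFunction.dist_le hc).2 (h3 α)

theorem Fix_le_dist {V P : Type} [Fintype V] [Fintype P] (A B : Fix_X V P) :
    (∀ π, |A.1 π - B.1 π| ≤ dist A B) ∧ (∀ π x, |A.2.1 π x - B.2.1 π x| ≤ dist A B) ∧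
      ∀ α x, |A.2.2 α x - B.2.2 α x| ≤ dist A B := by
  rw [Prod.dist_eq, Prod.dist_eq]
  refine ⟨fun π => (dist_le_pi_dist A.1 B.1 π).trans (le_max_left _ _), fun π x => ?_,
    fun α x => ?_⟩
  · exact ((BoundedContinuousFunction.dist_coe_le_dist x).trans
      (dist_le_pi_dist A.2.1 B.2.1 π)).trans ((le_max_left _ _).trans (le_max_right _ _))
  · exact ((BoundedContinuousFunction.dist_coe_le_dist x).trans
      (dist_le_pi_dist A.2.2 B.2.2 α)).trans ((le_max_right _ _).trans (le_max_right _ _))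

/-- radial retraction onto a disc -/
noncomputable def Fix_cl (R : ℝ) (x : ℂ) : ℂ := (R / max R ‖x‖) • x

theorem Fix_cl_cont {R : ℝ} (hR : 0 < R) : Continuous (Fix_cl R) := by
  refine Continuous.smul (continuous_const.div (continuous_const.max continuous_norm) fun x => ?_)
    continuous_id
  exact (hR.trans_le (le_max_left _ _)).ne'

theorem Fix_cl_le {R : ℝ} (hR : 0 < R) (x : ℂ) : ‖Fix_cl R x‖ ≤ R := by
  have h : 0 < max R ‖x‖ := hR.trans_le (le_max_left _ _)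
  rw [Fix_cl, norm_smul, Real.norm_of_nonneg (div_pos hR h).le, div_mul_eq_mul_div, div_le_iff₀ h]
  exact mul_le_mul_of_nonneg_left (le_max_right _ _) hR.le

theorem Fix_cl_eq {R : ℝ} (hR : 0 < R) {x : ℂ} (hx : ‖x‖ = R) : Fix_cl R x = x := by
  rw [Fix_cl, hx, max_self, div_self hR.ne', one_smul]

theorem Fix_ext {R : ℝ} (hR : 0 < R) {f : ℂ → ℝ} (hf : ∀ x, ‖x‖ ≤ R → ContinuousAt f x) :
    ∃ F : BoundedContinuousFunction ℂ ℝ, ∀ x, F x = f (Fix_cl R x) := by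
  have hc : ContinuousOn f (closedBall 0 R) := fun x hx =>
    (hf x (mem_closedBall_zero_iff.1 hx)).continuousWithinAt
  obtain ⟨C, hC⟩ := (isCompact_closedBall (0 : ℂ) R).exists_bound_of_continuousOn hc
  have hm : ∀ x, Fix_cl R x ∈ closedBall (0 : ℂ) R := fun x =>
    mem_closedBall_zero_iff.2 (Fix_cl_le hR x)
  exact ⟨BoundedContinuousFunction.ofNormedAddCommGroup (fun x => f (Fix_cl R x))
    (hc.comp_continuous (Fix_cl_cont hR) hm) C fun x => hC _ (hm x), fun _ => rfl⟩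

theorem Fix_ext' {f : ℂ → ℝ} (hf : Continuous f) (hs : HasCompactSupport f) :
    ∃ F : BoundedContinuousFunction ℂ ℝ, ∀ x, F x = f x := by
  obtain ⟨C, hC⟩ := hs.exists_bound_of_continuous hf
  exact ⟨BoundedContinuousFunction.ofNormedAddCommGroup f hf C hC, fun _ => rfl⟩

theorem Fix_cs {A K : Type} {G : Glue A K} {ν F : A → ℂ → ℝ} (hν : G.CS 0 ν)
    (hF : ∀ α, Continuous (F α)) (c : ℝ) : G.CS 0 fun α z => c * ν α z * F α z := by
  intro α
  obtain ⟨h1, h2, h3⟩ := hν.const_mul (fun _ => c) α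
  exact ⟨h1.mul (contDiff_zero.2 (hF α)), h2.mul_right, (tsupport_mul_subset_left).trans h3⟩

/-- the input given by an unknown -/
noncomputable def Fix_in {V P : Type} [Fintype P] (Q : Plumb V P) (u : V → ℝ) (s : ℝ)
    (ν ext : V × Bool → ℂ → ℝ) (X : Fix_X V P) : Inp V P where
  u := u
  b π := X.1 π / (4 * Q.n * Q.L π)
  h π := X.2.1 π
  g α z := -s * ν α z * X.2.2 α z + ext α z

theorem Fix_est {V P : Type} [Fintype P] {Q : Plumb V P} {β : V → ℂ → ℝ}
    {Λ δ a om : ℝ} {ν : V × Bool → ℂ → ℝ} (hQ : Q.Ok) (hβ : Q.Bump β Λ)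
    (hδ : ∀ α, PB (ν α) δ) (ha0 : 0 ≤ a) (ha : ∀ π, 1 ≤ a * Q.L π)
    (hom0 : 0 ≤ om) (hom : ∀ π, Q.r π ≤ om * Q.sep)
    (hsm : 1000 * Q.n ^ 2 * (Λ * δ + Λ * a + om) ≤ 1) {Z : Inp V P} (hZ : Q.Reg Z 0) {d : ℝ}
    (hd : 0 ≤ d) (hb : ∀ π, 4 * Q.n * Q.L π * |Z.b π| ≤ d) (hh : ∀ π x, |Z.h π x| ≤ d)
    (hg : ∀ α z, |Z.g α z| ≤ d * |ν α z|) :
    (∀ π (x : ℂ), ‖x‖ ≤ Q.sep / 2 → |Q.R0 β Z π x| ≤ d / 2) ∧
      (∀ π, 4 * Q.n * |Q.RR β Z π - Z.u (Q.pc π)| ≤ d / 4) ∧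
      ∀ α, ∀ w ∈ Q.W α, |Q.phi β Z α w - Z.u α.1| ≤ d / 2 := by
  have hn : 1 ≤ Q.n := Plumb.one_le_n
  have hΛ := hβ.one_le
  obtain ⟨v₀⟩ := hQ.ne
  have hδ0 : 0 ≤ δ := (hδ (v₀, false)).nonneg
  have hBh : ∀ π, Q.L π * |Z.b π| ≤ d / (4 * Q.n) := fun π => by
    rw [le_div_iff₀ (by positivity)]
    linarith [hb π]
  have hBh' : d / (4 * Q.n) ≤ d := div_le_self hd (by linarith)
  have hB : ∀ π, |Z.b π| ≤ a * d := fun π =>
    calc |Z.b π| ≤ a * Q.L π * |Z.b π| := le_mul_of_one_le_left (abs_nonneg _) (ha π)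
      _ = a * (Q.L π * |Z.b π|) := mul_assoc _ _ _
      _ ≤ a * d := mul_le_mul_of_nonneg_left ((hBh π).trans hBh') ha0
  have hG : ∀ α, PB (Z.g α) (d * δ) := fun α =>
    (hδ α).of_le hd (contDiff_zero.1 (hZ.2 α).1) (hg α)
  set e := Λ * δ + Λ * a + om with he
  have hE : 8 * Λ * (d * δ + Q.n * (a * d)) + 16 * Q.n * om * d ≤ 16 * Q.n * e * d := by
    have h1 : 0 ≤ Λ * δ * d := by positivity
    have h2 : 0 ≤ Λ * a * d * Q.n := by positivity
    have h3 : Λ * δ * d ≤ Λ * δ * d * Q.n := le_mul_of_one_le_right h1 hn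
    rw [he]
    nlinarith
  obtain ⟨h1, h2, h3⟩ := Plumb.fld_le hQ hβ hom0 hom hZ.1 (by positivity) (by positivity) hd hB hBh
    (fun π x _ => hh π x) hG hE
  have he0 : 0 ≤ e := by positivity
  have k1 : Q.n * (16 * Q.n * e * d) ≤ 16 / 1000 * d := by
    have := mul_le_mul_of_nonneg_right hsm hd
    nlinarith
  have k2 : 16 * Q.n * e * d ≤ Q.n * (16 * Q.n * e * d) :=
    le_mul_of_one_le_left (by positivity) hn
  have k3 : Q.n * (d / (4 * Q.n)) = d / 4 := by field_simp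
  refine ⟨fun π x hx => ?_, fun π => ?_, fun α w hw => ?_⟩
  · linarith [h1 π x hx]
  · have := mul_le_mul_of_nonneg_left (h2 π) (by positivity : 0 ≤ 4 * Q.n)
    linarith
  · linarith [h3 α w hw]

theorem Plumb.exists_fix {V P : Type} [Fintype V] [Fintype P] {Q : Plumb V P} {β : V → ℂ → ℝ}
    {Λ δ a om s : ℝ} {ν ext : V × Bool → ℂ → ℝ} (hQ : Q.Ok) (hβ : Q.Bump β Λ)
    (hν : Q.glue.CS 0 ν) (hδ : ∀ α, PB (ν α) δ) (ha0 : 0 ≤ a) (ha : ∀ π, 1 ≤ a * Q.L π)
    (hom0 : 0 ≤ om) (hom : ∀ π, Q.r π ≤ om * Q.sep)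
    (hsm : 1000 * Q.n ^ 2 * (Λ * δ + Λ * a + om) ≤ 1) (hs : s ∈ Icc (0 : ℝ) 1)
    (hext : Q.glue.CS 0 ext) (u : V → ℝ) :
    ∃ Y : Inp V P, Y.u = u ∧ Q.IsFix β Y s ν ext ∧
      ((∀ α z, ext α z = 0) → ∀ N : ℝ, (∀ v, |u v| ≤ N) →
        (∀ π, Q.L π * |Y.b π| ≤ 4 * N) ∧
        (∀ π (x : ℂ), ‖x‖ = Q.r π / 2 → |Y.h π x| ≤ 16 * Q.n * N) ∧
        ∀ α, ∀ w ∈ Q.W α, |Q.phi β Y α w| ≤ 16 * Q.n * N) := by
  have hn : 1 ≤ Q.n := Plumb.one_le_n
  choose ξ hξ1 hξ2 hξ3 hξ4 hξ5 using fun α : V × Bool =>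
    exists_cutoff (hν α).2.1.isCompact (Plumb.isOpen_W (Q := Q) α) (hν α).2.2
  have hreg : ∀ X : Fix_X V P, Q.Reg (Fix_in Q u s ν ext X) 0 := fun X =>
    ⟨fun π => (X.2.1 π).continuous, (Fix_cs hν (fun α => (X.2.2 α).continuous) (-s)).add hext⟩
  have hreg' : ∀ X : Fix_X V P, Q.Reg (Fix_in Q u s ν ext X) (0 : ℕ) := fun X => by
    rw [Nat.cast_zero]
    exact hreg X
  have hr : ∀ π, 0 < Q.r π / 2 := fun π => half_pos (Plumb.r_pos π)
  have hr' : ∀ π, Q.r π / 2 ≤ Q.sep / 2 := fun π => by linarith [hQ.r_le' π, hr π]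
  have hcl : ∀ π x, ‖Fix_cl (Q.r π / 2) x‖ ≤ Q.sep / 2 := fun π x =>
    (Fix_cl_le (hr π) x).trans (hr' π)
  have hT : ∀ X : Fix_X V P, ∃ X' : Fix_X V P,
      (∀ π, X'.1 π = 4 * Q.n * (Q.RR β (Fix_in Q u s ν ext X) π -
        Q.RR β (Fix_in Q u s ν ext X) (Q.σ π))) ∧
      (∀ π x, X'.2.1 π x = Q.R0 β (Fix_in Q u s ν ext X) π (Fix_cl (Q.r π / 2) x)) ∧
      ∀ α z, X'.2.2 α z = ξ α z * Q.phi β (Fix_in Q u s ν ext X) α z := by
    intro X
    choose F hF using fun π => Fix_ext (f := Q.R0 β (Fix_in Q u s ν ext X) π) (hr π) fun x hx =>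
      (Plumb.R0_reg hQ hβ (hreg' X) π (hx.trans (hr' π))).continuousAt
    choose G hG using fun α => Fix_ext' (continuous_mul_of_supp (Plumb.isOpen_W α)
      (hξ1 α).continuous (hξ3 α) (Plumb.phi_reg hQ hβ (hreg' X) α).continuousOn) (hξ2 α).mul_right
    exact ⟨(_, F, G), fun _ => rfl, hF, hG⟩
  choose T hT1 hT2 hT3 using hT
  have hL : ∀ π, 0 < 4 * Q.n * Q.L π := fun π => by
    have := hQ.L_pos π
    positivity
  have hxi : ∀ α z {f c : ℝ}, 0 ≤ c → (z ∈ Q.W α → |f| ≤ c) → |ξ α z * f| ≤ c := by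
    intro α z f c hc h
    by_cases hz : ξ α z = 0
    · rwa [hz, zero_mul, abs_zero]
    · rw [abs_mul, abs_of_nonneg (hξ4 α z).1]
      exact (mul_le_of_le_one_left (abs_nonneg _) (hξ4 α z).2).trans
        (h (hξ3 α (subset_tsupport _ hz)))
  have hsν : ∀ α z {f c : ℝ}, |f| ≤ c → |-s * ν α z * f| ≤ c * |ν α z| := by
    intro α z f c h
    rw [abs_mul, abs_mul, abs_neg, abs_of_nonneg hs.1, mul_comm c]
    exact mul_le_mul (mul_le_of_le_one_left (abs_nonneg _) hs.2) h (abs_nonneg _) (abs_nonneg _)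
  have hcon : ContractingWith (1 / 2) T := by
    refine ⟨by norm_num, LipschitzWith.of_dist_le_mul fun X X' => ?_⟩
    obtain ⟨d1, d2, d3⟩ := Fix_le_dist X X'
    obtain ⟨e1, e2, e3⟩ := Fix_est hQ hβ hδ ha0 ha hom0 hom hsm ((hreg X).sub (hreg X'))
      (dist_nonneg (x := X) (y := X')) (fun π => by
        have e : ((Fix_in Q u s ν ext X).sub (Fix_in Q u s ν ext X')).b π =
            (X.1 π - X'.1 π) / (4 * Q.n * Q.L π) := (sub_div _ _ _).symm
        rw [e, abs_div, abs_of_pos (hL π), mul_div_cancel₀ _ (hL π).ne']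
        exact d1 π) d2 fun α z => by
        have e : ((Fix_in Q u s ν ext X).sub (Fix_in Q u s ν ext X')).g α z =
            -s * ν α z * (X.2.2 α z - X'.2.2 α z) := by
          simp only [Inp.sub, Fix_in]
          ring
        rw [e]
        exact hsν α z (d3 α z)
    have hu : ∀ v, ((Fix_in Q u s ν ext X).sub (Fix_in Q u s ν ext X')).u v = 0 := fun v =>
      sub_self _
    simp only [hu, sub_zero] at e2 e3
    have e0 : ((1 / 2 : NNReal) : ℝ) * dist X X' = dist X X' / 2 := by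
      push_cast
      ring
    rw [e0]
    refine Fix_dist_le (by positivity) (fun π => ?_) (fun π x => ?_) fun α z => ?_
    · have a1 := e2 π
      have a2 := e2 (Q.σ π)
      rw [Plumb.RR_sub hQ hβ (hreg X) (hreg X')] at a1 a2
      rw [hT1, hT1, ← mul_sub, sub_sub_sub_comm, abs_mul, abs_of_pos (by positivity)]
      have := mul_le_mul_of_nonneg_left (abs_sub
        (Q.RR β (Fix_in Q u s ν ext X) π - Q.RR β (Fix_in Q u s ν ext X') π)
        (Q.RR β (Fix_in Q u s ν ext X) (Q.σ π) - Q.RR β (Fix_in Q u s ν ext X') (Q.σ π)))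
        (by positivity : 0 ≤ 4 * Q.n)
      linarith
    · rw [hT2, hT2, ← Plumb.R0_sub hQ hβ (hreg X) (hreg X') π (hcl π x)]
      exact e1 π _ (hcl π x)
    · rw [hT3, hT3, ← mul_sub]
      refine hxi α z (by positivity) fun hz => ?_
      rw [← Plumb.phi_sub hQ hβ (hreg X) (hreg X') α hz]
      exact e3 α z hz
  obtain ⟨X, hX⟩ : ∃ X, T X = X := ⟨_, hcon.fixedPoint_isFixedPt⟩
  have f1 := hT1 X
  have f2 := hT2 X
  have f3 := hT3 X
  rw [hX] at f1 f2 f3
  refine ⟨Fix_in Q u s ν ext X, rfl, ⟨hreg X, fun π => ?_, fun π x hx => ?_, fun α z => ?_⟩,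
    fun h0 N hN => ?_⟩
  · have e : (Fix_in Q u s ν ext X).b π = X.1 π / (4 * Q.n * Q.L π) := rfl
    have := (hQ.L_pos π).ne'
    rw [e, f1]
    field_simp
  · exact (f2 π x).trans (by rw [Fix_cl_eq (hr π) hx])
  · have e : (Fix_in Q u s ν ext X).g α z = -s * ν α z * X.2.2 α z + ext α z := rfl
    rw [e, f3]
    by_cases hz : ν α z = 0
    · simp [hz]
    · rw [hξ5 α z (subset_tsupport _ hz), one_mul]
  · obtain ⟨v₀⟩ := hQ.ne
    have hN0 : 0 ≤ N := (abs_nonneg _).trans (hN v₀)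
    have hnN : N ≤ Q.n * N := le_mul_of_one_le_left hN0 hn
    obtain ⟨d1, d2, d3⟩ := Fix_le_dist X 0
    simp only [Prod.fst_zero, Prod.snd_zero, Pi.zero_apply, BoundedContinuousFunction.coe_zero,
      sub_zero] at d1 d2 d3
    have hd0 : 0 ≤ dist X 0 := dist_nonneg
    have hb : ∀ π, 4 * Q.n * Q.L π * |(Fix_in Q u s ν ext X).b π| ≤ dist X 0 := fun π => by
      have e : (Fix_in Q u s ν ext X).b π = X.1 π / (4 * Q.n * Q.L π) := rfl
      rw [e, abs_div, abs_of_pos (hL π), mul_div_cancel₀ _ (hL π).ne']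
      exact d1 π
    obtain ⟨e1, e2, e3⟩ := Fix_est hQ hβ hδ ha0 ha hom0 hom hsm (hreg X) hd0 hb d2 fun α z => by
      have e : (Fix_in Q u s ν ext X).g α z = -s * ν α z * X.2.2 α z + ext α z := rfl
      rw [e, h0, add_zero]
      exact hsν α z (d3 α z)
    have hu : (Fix_in Q u s ν ext X).u = u := rfl
    rw [hu] at e2 e3
    have e4 : ∀ α, ∀ w ∈ Q.W α, |Q.phi β (Fix_in Q u s ν ext X) α w| ≤ N + dist X 0 / 2 := by
      intro α w hw
      have := abs_sub_abs_le_abs_sub (Q.phi β (Fix_in Q u s ν ext X) α w) (u α.1)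
      linarith [e3 α w hw, hN α.1]
    have e5 : ∀ π, 4 * Q.n * |Q.RR β (Fix_in Q u s ν ext X) π| ≤ 4 * (Q.n * N) + dist X 0 / 4 := by
      intro π
      have h1 := abs_sub_abs_le_abs_sub (Q.RR β (Fix_in Q u s ν ext X) π) (u (Q.pc π))
      have h2 := mul_le_mul_of_nonneg_left (hN (Q.pc π)) (by positivity : 0 ≤ 4 * Q.n)
      have h3 := mul_le_mul_of_nonneg_left h1 (by positivity : 0 ≤ 4 * Q.n)
      linarith [e2 π]
    have hd : dist X 0 ≤ 8 * (Q.n * N) + dist X 0 / 2 := by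
      refine Fix_dist_le (by positivity) (fun π => ?_) (fun π x => ?_) fun α z => ?_ <;>
        simp only [Prod.fst_zero, Prod.snd_zero, Pi.zero_apply,
          BoundedContinuousFunction.coe_zero, sub_zero]
      · rw [f1, abs_mul, abs_of_pos (by positivity)]
        have := mul_le_mul_of_nonneg_left (abs_sub (Q.RR β (Fix_in Q u s ν ext X) π)
          (Q.RR β (Fix_in Q u s ν ext X) (Q.σ π))) (by positivity : 0 ≤ 4 * Q.n)
        linarith [e5 π, e5 (Q.σ π)]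
      · rw [f2]
        linarith [e1 π _ (hcl π x)]
      · rw [f3]
        refine hxi α z (by positivity) fun hz => ?_
        linarith [e4 α z hz]
    refine ⟨fun π => ?_, fun π x _ => ?_, fun α w hw => ?_⟩
    · refine le_of_mul_le_mul_left ?_ (by positivity : 0 < 4 * Q.n)
      linarith [hb π]
    · have := d2 π x
      change |X.2.1 π x| ≤ _
      linarith
    · linarith [e4 α w hw]

end Pool.Agent.MP_4f0ed6_gt

end

section

open Set Laplacian Filter Topology MeasureTheory Metric InnerProductSpace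
open scoped ContDiff

namespace Pool.Agent.MP_4f0ed6_gt

namespace Plumb

variable {V P : Type} [Fintype V] [Fintype P] {Q : Plumb V P} {β μ : V → ℂ → ℝ}
  {νt : V × Bool → ℂ → ℝ} {Λ δ τ a om κ s : ℝ}

omit [Fintype V] in
theorem Hyp.tot_cs (h : Q.Hyp β μ νt Λ δ τ a om κ) : Q.glue.CS ∞ (tot μ νt) :=
  (h.ok.cs_fin h.μ_smooth h.μ_supp).add h.νt_cs

omit [Fintype V] in
theorem Core_tot_pb (h : Q.Hyp β μ νt Λ δ τ a om κ) (α : V × Bool) :
    PB (tot μ νt α) (δ + τ) := by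
  obtain ⟨v, b⟩ := α
  cases b
  · exact (h.μ_pb v).add (h.νt_pb _)
  · exact (PB.zero.mono (h.μ_pb v).nonneg).add (h.νt_pb _)

theorem Core_fix (h : Q.Hyp β μ νt Λ δ τ a om κ) (hs : s ∈ Icc (0 : ℝ) 1)
    {ext : V × Bool → ℂ → ℝ} (hext : Q.glue.CS ∞ ext) (u : V → ℝ) :
    ∃ Y : Inp V P, Y.u = u ∧ Q.IsFix β Y s (tot μ νt) ext ∧
      ((∀ α z, ext α z = 0) → ∀ N : ℝ, (∀ v, |u v| ≤ N) →
        (∀ π, Q.L π * |Y.b π| ≤ 4 * N) ∧
        (∀ π (x : ℂ), ‖x‖ = Q.r π / 2 → |Y.h π x| ≤ 16 * Q.n * N) ∧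
        ∀ α, ∀ w ∈ Q.W α, |Q.phi β Y α w| ≤ 16 * Q.n * N) :=
  Plumb.exists_fix h.ok h.bump (h.tot_cs.of_le zero_le) (Core_tot_pb h) h.a_nonneg h.a_ge
    h.om_nonneg h.om_ge h.small hs (hext.of_le zero_le) u

theorem Hyp.exists_ext (h : Q.Hyp β μ νt Λ δ τ a om κ) (hs : s ∈ Icc (0 : ℝ) 1)
    {ext : V × Bool → ℂ → ℝ} (hext : Q.glue.CS ∞ ext) :
    ∃ φ t, Q.glue.GSol φ fun α z => src s (tot μ νt) β t φ α z + ext α z := by
  obtain ⟨Y, -, hY, -⟩ := Core_fix h hs hext 0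
  exact ⟨_, _, hY.gsol h.ok h.bump h.tot_cs hext⟩

omit [Fintype V] in
theorem Core_far (hQ : Q.Ok) (hom0 : 0 ≤ om) (hom : ∀ π, Q.r π ≤ om * Q.sep) {Y : Inp V P}
    (hh : ∀ π, Continuous (Y.h π)) {H : ℝ} (hH0 : 0 ≤ H)
    (hH : ∀ π (x : ℂ), ‖x‖ = Q.r π / 2 → |Y.h π x| ≤ H) {S : Finset P} {w : ℂ}
    (hw : ∀ π ∈ S, Q.sep / 2 ≤ ‖w - Q.c π‖) :
    |∑ π ∈ S, Q.term Y π w - ∑ π ∈ S, Y.b π * Real.log ‖w - Q.c π‖| ≤
      Q.n * (16 * om * H) := by
  rw [← Finset.sum_sub_distrib]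
  refine abs_sum_pts_le (by positivity) fun π hπ => ?_
  rw [term, add_sub_cancel_left]
  exact farY_le hQ hom hh hH π (hw π hπ)

theorem Hyp.exists_rep (h : Q.Hyp β μ νt Λ δ τ a om κ) (hs : s ∈ Icc (0 : ℝ) 1) (u : V → ℝ)
    {N : ℝ} (hN : ∀ v, |u v| ≤ N) :
    ∃ (φ : V × Bool → ℂ → ℝ) (ρ : Q.Rep β μ s κ N u),
      Q.glue.GSol φ (src s (tot μ νt) β ρ.t φ) ∧ av β φ = u ∧
      (∀ v, ∀ w ∈ Q.bulk v, φ (v, false) w = ρ.φ v w) ∧
      ∀ α, ∀ w ∈ Q.W α, |φ α w| ≤ 16 * Q.n * N := by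
  classical
  have hQ := h.ok
  obtain ⟨Y, hu, hY, hbd⟩ := Core_fix h hs (Glue.CS.zero (G := Q.glue) (k := ∞)) u
  obtain ⟨hb, hh, hφ⟩ := hbd (fun _ _ => rfl) N hN
  have hreg : Q.Reg Y ∞ := hY.smooth hQ h.bump h.tot_cs Glue.CS.zero
  have hsm := phi_smooth hQ h.bump hreg
  obtain ⟨v0⟩ := hQ.ne
  have hN0 : 0 ≤ N := (abs_nonneg _).trans (hN v0)
  have hn : 1 ≤ Q.n := one_le_n
  have hτ : 0 ≤ τ := (h.νt_pb (v0, false)).nonneg
  have hom := h.om_nonneg
  have hH0 : 0 ≤ 16 * Q.n * N := by positivity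
  choose ξ hξ1 hξ2 hξ3 hξ4 hξ5 using fun v =>
    exists_cutoff (isCompact_bulk (Q := Q) v) (isOpen_W (v, false)) (hQ.bulk_sub_W v)
  let φ : V → ℂ → ℝ := fun v w => ξ v w * Q.phi β Y (v, false) w
  have hφb : ∀ v, ∀ w ∈ Q.bulk v, Q.phi β Y (v, false) w = φ v w := by
    intro v w hw
    simp only [φ, hξ5 v w hw, one_mul]
  have hcont : ∀ v, Continuous (φ v) := fun v =>
    continuous_mul_of_supp (isOpen_W (v, false)) (hξ1 v).continuous (hξ3 v)
      (hsm (v, false)).continuousOn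
  have hfar : ∀ v, ∀ w ∈ Q.bulk v, Q.phi β Y (v, false) w = Q.CC β Y v + Q.Phi β Y v w := by
    intro v w hw
    refine phi_far hQ h.bump hreg hY v fun π hπ => ?_
    have h1 := hw.2 π hπ
    have h2 := hQ.r_le' π
    have h3 := hQ.sep_pos
    linarith
  have hμφ : ∀ v z, μ v z * Q.phi β Y (v, false) z = μ v z * φ v z := by
    intro v z
    by_cases hz : μ v z = 0
    · rw [hz, zero_mul, zero_mul]
    · rw [hφb v z (hQ.core_sub_bulk v (h.μ_supp v z hz))]
  have hβφ : ∀ v z, β v z * Q.phi β Y (v, false) z = β v z * φ v z := by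
    intro v z
    by_cases hz : β v z = 0
    · rw [hz, zero_mul, zero_mul]
    · rw [hφb v z (hQ.core_sub_bulk v (h.bump.supp v z hz))]
  have hav : ∀ v, ∫ w, β v w * Q.phi β Y (v, false) w = u v := by
    intro v
    have e : ∀ w, β v w * Q.phi β Y (v, false) w =
        Q.CC β Y v * β v w + β v w * Q.Phi β Y v w := by
      intro w
      by_cases hz : β v w = 0
      · rw [hz]
        ring
      · rw [hfar v w (hQ.core_sub_bulk v (h.bump.supp v w hz))]
        ring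
    simp only [e]
    rw [integral_add ((h.bump.pb v).integrable.const_mul _)
      (integrable_β_Phi hQ h.bump hY.reg v), integral_const_mul, h.bump.int, CC, hu]
    ring
  have hcsν : Q.glue.CS ∞ fun α z => νt α z * Q.phi β Y α z := h.νt_cs.mul hQ.glue hsm
  have hcsμ : Q.glue.CS ∞ fun α z => fin μ α z * Q.phi β Y α z :=
    (hQ.cs_fin h.μ_smooth h.μ_supp).mul hQ.glue hsm
  have hpb : ∀ α, PB (fun z => νt α z * Q.phi β Y α z) (16 * Q.n * N * τ) := by
    intro α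
    refine (h.νt_pb α).of_le hH0 (hcsν α).1.continuous fun z => ?_
    by_cases hz : z ∈ Q.W α
    · rw [abs_mul, mul_comm]
      exact mul_le_mul_of_nonneg_right (hφ α z hz) (abs_nonneg _)
    · rw [h.νt_cs.eq_zero hz]
      simp
  have hpb' : ∀ α, PB (fun z => -s * (νt α z * Q.phi β Y α z)) (16 * Q.n * N * τ) := by
    intro α
    refine ((hpb α).const_mul (-s)).mono ?_
    rw [abs_neg, abs_of_nonneg hs.1]
    exact mul_le_of_le_one_left (by positivity) hs.2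
  have hg0 : ∀ v z, Y.g (v, false) z =
      -s * (μ v z * φ v z) + -s * (νt (v, false) z * Q.phi β Y (v, false) z) := by
    intro v z
    rw [hY.sour, ← hμφ]
    simp only [tot, fin]
    ring
  have hg1 : ∀ v z, Y.g (v, true) z = -s * (νt (v, true) z * Q.phi β Y (v, true) z) := by
    intro v z
    rw [hY.sour]
    simp only [tot, fin]
    ring
  have hmain : ∀ v, Continuous (fun z => -s * μ v z * φ v z + Q.tt Y v * β v z) ∧
      HasCompactSupport (fun z => -s * μ v z * φ v z + Q.tt Y v * β v z) := by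
    intro v
    refine ⟨((continuous_const.mul (h.μ_pb v).cont).mul (hcont v)).add
      (continuous_const.mul (h.bump.pb v).cont), HasCompactSupport.add ?_ ?_⟩
    · exact ((h.μ_pb v).const_mul (-s)).hcs.mul_right
    · exact ((h.bump.pb v).const_mul (Q.tt Y v)).hcs
  have hpot : ∀ v (w : ℂ), ‖w‖ ≤ 2 → |Q.Pot β Y (v, false) w -
      NP (fun z => -s * μ v z * φ v z + Q.tt Y v * β v z) w| ≤ 2 * (16 * Q.n * N * τ) := by
    intro v w hw
    have e0 : Q.gs β Y (v, false) = fun z => (-s * μ v z * φ v z + Q.tt Y v * β v z) +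
        -s * (νt (v, false) z * Q.phi β Y (v, false) z) := by
      funext z
      rw [gs, hg0]
      simp only [fin]
      ring
    have e1 : Q.gs β Y (v, true) = fun z => -s * (νt (v, true) z * Q.phi β Y (v, true) z) := by
      funext z
      rw [gs, hg1]
      simp only [fin]
      ring
    have e2 : Q.Pot β Y (v, false) w = NP (Q.gs β Y (v, false)) w + NQ (Q.gs β Y (v, true)) w :=
      rfl
    rw [e2, e0, e1, NP_add (hmain v).1 (hmain v).2 (hpb' _).cont (hpb' _).hcs, add_assoc,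
      add_sub_cancel_left]
    have a1 := (hpb' (v, false)).abs_NP hw
    have a2 := (hpb' (v, true)).abs_NQ hw
    exact (abs_add_le _ _).trans (by linarith)
  have hκ : 2 * (16 * Q.n * N * τ) + Q.n * (16 * om * (16 * Q.n * N)) ≤ κ * N := by
    refine le_trans ?_ (mul_le_mul_of_nonneg_right h.κ_ge hN0)
    have a1 : 0 ≤ Q.n * N * τ := by positivity
    have a2 : 0 ≤ Q.n ^ 2 * om * N := by positivity
    have a3 : Q.n * N * τ ≤ Q.n * (Q.n * N * τ) := le_mul_of_one_le_left a1 hn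
    nlinarith
  have hκ0 : 0 ≤ Q.n * (16 * om * (16 * Q.n * N)) := by positivity
  refine ⟨Q.phi β Y, ⟨Y.b, Q.RR β Y, Q.tt Y, Q.CC β Y, fun v =>
    (∫ z, νt (v, false) z * Q.phi β Y (v, false) z) + ∫ z, νt (v, true) z * Q.phi β Y (v, true) z,
    φ, hcont, fun v w => ?_, hY.tube, hb, fun v => ?_, fun v => ?_, fun v => ?_,
    fun v w hw => ?_, fun π => ?_⟩, ?_, funext hav, hφb, hφ⟩
  · by_cases hw : w ∈ Q.W (v, false)
    · rw [abs_mul, abs_of_nonneg (hξ4 v w).1]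
      exact (mul_le_of_le_one_left (abs_nonneg _) (hξ4 v w).2).trans (hφ _ w hw)
    · have e : ξ v w = 0 := image_eq_zero_of_notMem_tsupport fun h' => hw (hξ3 v h')
      simp only [φ, e, zero_mul, abs_zero]
      exact hH0
  · simp only [← hβφ]
    exact hav v
  · have i1 : Integrable fun z => μ v z * φ v z := by
      simp only [← hμφ]
      exact hcsμ.integrable (v, false)
    rw [tt]
    simp only [hg0, hg1]
    rw [integral_add (i1.const_mul _) (hpb' _).integrable, integral_const_mul, integral_const_mul,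
      integral_const_mul]
    ring
  · have a1 := (hpb (v, false)).abs_int
    have a2 := (hpb (v, true)).abs_int
    exact (abs_add_le _ _).trans (by linarith)
  · have a1 := hpot v w (hw.1.trans (by norm_num))
    have a2 := Core_far hQ hom h.om_ge hreg.1 hH0 hh (S := Q.pts v) (w := w)
      fun π hπ => hw.2 π (mem_pts.mp hπ)
    rw [← hφb v w hw, hfar v w hw, Phi]
    rw [abs_le] at a1 a2 ⊢
    constructor <;> linarith [a1.1, a1.2, a2.1, a2.2]
  · have a1 := hpot (Q.pc π) (Q.c π) ((hQ.c_le π).trans (by norm_num))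
    have a2 := Core_far hQ hom h.om_ge hreg.1 hH0 hh (S := (Q.pts (Q.pc π)).erase π)
      (w := Q.c π) fun π' hπ' => by
        have b1 := hQ.c_sep π π' (Finset.ne_of_mem_erase hπ').symm
          (mem_pts.mp (Finset.mem_of_mem_erase hπ')).symm
        have b2 := hQ.sep_pos
        linarith
    have e : Q.RR β Y π = Q.CC β Y (Q.pc π) + (Q.Pot β Y (Q.pc π, false) (Q.c π) +
        ∑ π' ∈ (Q.pts (Q.pc π)).erase π, Q.term Y π' (Q.c π)) := by
      rw [RR, R0, add_zero]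
    rw [e, ← Finset.add_sum_erase _ _ (mem_pts.mpr rfl : π ∈ Q.pts (Q.pc π)), sub_self,
      norm_zero, Real.log_zero, mul_zero, zero_add]
    rw [abs_le] at a1 a2 ⊢
    constructor <;> linarith [a1.1, a1.2, a2.1, a2.2]
  · have g := hY.gsol hQ h.bump h.tot_cs Glue.CS.zero
    simp only [add_zero] at g
    exact g

end Plumb

end Pool.Agent.MP_4f0ed6_gt

end

section

open Set Laplacian Filter Topology MeasureTheory Metric InnerProductSpace
open scoped ContDiff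

namespace Pool.Agent.MP_4f0ed6_gt

namespace Plumb

variable {V P : Type} [Fintype V] [Fintype P] {Q : Plumb V P} {β : V → ℂ → ℝ} {Λ : ℝ}

omit [Fintype P] in
theorem Spec_fin (t : V → ℝ) (φ : V × Bool → ℂ → ℝ) :
    ∑ α : V × Bool, ∫ z, t α.1 * fin β α z * φ α z = ∑ v, t v * av β φ v := by
  rw [Fintype.sum_prod_type]
  refine Finset.sum_congr rfl fun v _ => ?_
  rw [Fintype.sum_bool]
  simp only [fin, av, mul_zero, zero_mul, integral_zero, zero_add, mul_assoc]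
  rw [integral_const_mul]

omit [Fintype V] in
theorem Spec_cs_fin (hQ : Q.Ok) (hβ : Q.Bump β Λ) : Q.glue.CS 0 (fin β) :=
  hQ.cs_fin (fun v => (hβ.smooth v).of_le (by simp)) hβ.supp

omit [Fintype V] [Fintype P] in
theorem Spec_sm {φ : V × Bool → ℂ → ℝ} (hφ : ∀ α, ContDiffOn ℝ ∞ (φ α) (Q.W α)) :
    ∀ α, ContDiffOn ℝ 0 (φ α) (Q.glue.W α) := fun α => (hφ α).of_le (by simp)

omit [Fintype V] in
theorem src_cs (hQ : Q.Ok) (hβ : Q.Bump β Λ) {ν φ : V × Bool → ℂ → ℝ} (hν : Q.glue.CS 0 ν)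
    (hφ : ∀ α, ContDiffOn ℝ ∞ (φ α) (Q.W α)) (s : ℝ) (t : V → ℝ) :
    Q.glue.CS 0 (src s ν β t φ) := by
  exact ((hν.const_mul fun _ => -s).mul hQ.glue (Spec_sm hφ)).add
    ((Spec_cs_fin hQ hβ).const_mul fun α => t α.1)

theorem gi_ext (hQ : Q.Ok) (hβ : Q.Bump β Λ) {ν φ ν' φ' ext : V × Bool → ℂ → ℝ} {s s' : ℝ}
    {t t' : V → ℝ} (hν : Q.glue.CS 0 ν) (hν' : Q.glue.CS 0 ν') (hext : Q.glue.CS 0 ext)
    (h : Q.glue.GSol φ (src s ν β t φ))
    (h' : Q.glue.GSol φ' fun α z => src s' ν' β t' φ' α z + ext α z) :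
    ∑ v, t' v * av β φ v - ∑ v, t v * av β φ' v + ∑ α, ∫ z, ext α z * φ α z =
      ∑ α, ∫ z, (s' * ν' α z - s * ν α z) * (φ α z * φ' α z) := by
  have hG := hQ.glue
  have hφ := Spec_sm h.smooth
  have hφ' := Spec_sm h'.smooth
  have key := Glue.green hG h h' (src_cs hQ hβ hν h.smooth s t)
    ((src_cs hQ hβ hν' h'.smooth s' t').add hext)
  have iA := fun α => ((hν.mul hG hφ).mul hG hφ').integrable α
  have iA' := fun α => ((hν'.mul hG hφ).mul hG hφ').integrable α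
  have iB := fun α => (((Spec_cs_fin hQ hβ).const_mul fun α => t α.1).mul hG hφ').integrable α
  have iB' := fun α => (((Spec_cs_fin hQ hβ).const_mul fun α => t' α.1).mul hG hφ).integrable α
  have iE := fun α => (hext.mul hG hφ).integrable α
  have e1 : ∀ α, ∫ z, (src s' ν' β t' φ' α z + ext α z) * φ α z =
      -s' * (∫ z, ν' α z * φ α z * φ' α z) + (∫ z, t' α.1 * fin β α z * φ α z) +
        ∫ z, ext α z * φ α z := by
    intro α
    have i1 : Integrable fun a => -s' * (ν' α a * φ α a * φ' α a) + t' α.1 * fin β α a * φ α a :=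
      ((iA' α).const_mul _).add (iB' α)
    rw [← integral_const_mul, ← integral_add ((iA' α).const_mul _) (iB' α),
      ← integral_add i1 (iE α)]
    refine integral_congr_ae (Eventually.of_forall fun z => ?_)
    simp only [src]
    ring
  have e2 : ∀ α, ∫ z, src s ν β t φ α z * φ' α z =
      -s * (∫ z, ν α z * φ α z * φ' α z) + ∫ z, t α.1 * fin β α z * φ' α z := by
    intro α
    rw [← integral_const_mul, ← integral_add ((iA α).const_mul _) (iB α)]
    refine integral_congr_ae (Eventually.of_forall fun z => ?_)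
    simp only [src]
    ring
  have e3 : ∀ α, ∫ z, (s' * ν' α z - s * ν α z) * (φ α z * φ' α z) =
      s' * (∫ z, ν' α z * φ α z * φ' α z) - s * ∫ z, ν α z * φ α z * φ' α z := by
    intro α
    rw [← integral_const_mul, ← integral_const_mul,
      ← integral_sub ((iA' α).const_mul _) ((iA α).const_mul _)]
    refine integral_congr_ae (Eventually.of_forall fun z => ?_)
    simp only
    ring
  simp only [e1, e2, Finset.sum_add_distrib, Spec_fin, neg_mul, Finset.sum_neg_distrib] at key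
  simp only [e3, Finset.sum_sub_distrib]
  linarith

theorem gi_two (hQ : Q.Ok) (hβ : Q.Bump β Λ) {ν φ ν' φ' : V × Bool → ℂ → ℝ} {s s' : ℝ}
    {t t' : V → ℝ} (hν : Q.glue.CS 0 ν) (hν' : Q.glue.CS 0 ν')
    (h : Q.glue.GSol φ (src s ν β t φ)) (h' : Q.glue.GSol φ' (src s' ν' β t' φ')) :
    ∑ v, t' v * av β φ v - ∑ v, t v * av β φ' v =
      ∑ α, ∫ z, (s' * ν' α z - s * ν α z) * (φ α z * φ' α z) := by
  have := gi_ext hQ hβ (ext := fun _ _ => 0) hν hν' Glue.CS.zero h (s' := s') (t' := t')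
    (φ' := φ') (by simpa using h')
  simpa using this

theorem gi_same (hQ : Q.Ok) (hβ : Q.Bump β Λ) {ν φ φ' : V × Bool → ℂ → ℝ} {s : ℝ}
    {t t' : V → ℝ} (hν : Q.glue.CS 0 ν)
    (h : Q.glue.GSol φ (src s ν β t φ)) (h' : Q.glue.GSol φ' (src s ν β t' φ')) :
    ∑ v, t' v * av β φ v = ∑ v, t v * av β φ' v := by
  have := gi_two hQ hβ hν hν h h'
  simp only [sub_self, zero_mul, integral_zero, Finset.sum_const_zero] at this
  linarith

theorem gsol_comb (hQ : Q.Ok) (hβ : Q.Bump β Λ) {ν : V × Bool → ℂ → ℝ} {s : ℝ} {ι : Type}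
    [Fintype ι] (c : ι → ℝ) {φ : ι → V × Bool → ℂ → ℝ} {t : ι → V → ℝ}
    (h : ∀ i, Q.glue.GSol (φ i) (src s ν β (t i) (φ i))) :
    Q.glue.GSol (fun α z => ∑ i, c i * φ i α z)
        (src s ν β (fun v => ∑ i, c i * t i v) fun α z => ∑ i, c i * φ i α z) ∧
      ∀ v, av β (fun α z => ∑ i, c i * φ i α z) v = ∑ i, c i * av β (φ i) v := by
  have hG := hQ.glue
  refine ⟨?_, fun v => ?_⟩
  · have := Glue.GSol.sum hG c h
    convert this using 1
    funext α z
    simp only [src, Finset.mul_sum, Finset.sum_mul, ← Finset.sum_add_distrib]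
    refine Finset.sum_congr rfl fun i _ => ?_
    ring
  · have hi : ∀ i, Integrable fun w => β v w * φ i (v, false) w := fun i =>
      ((Spec_cs_fin hQ hβ).mul hG (Spec_sm (h i).smooth)).integrable (v, false)
    simp only [av, ← integral_const_mul]
    rw [← integral_finsetSum _ fun i _ => (hi i).const_mul (c i)]
    refine integral_congr_ae (Eventually.of_forall fun z => ?_)
    simp only [Finset.mul_sum]
    refine Finset.sum_congr rfl fun i _ => ?_
    ring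

theorem gsol_rf (hQ : Q.Ok) {ι : V → V} {ιP : P → P} (hS : Q.Sym ι ιP)
    (hβ : ∀ v w, β (ι v) (-w) = β v w) {ν φ : V × Bool → ℂ → ℝ}
    (hν : ∀ α w, ν (ι α.1, α.2) (-w) = ν α w) {s : ℝ} {t : V → ℝ}
    (h : Q.glue.GSol φ (src s ν β t φ)) :
    Q.glue.GSol (rf (fun α => (ι α.1, α.2)) φ)
        (src s ν β (fun v => t (ι v)) (rf (fun α => (ι α.1, α.2)) φ)) ∧
      ∀ v, av β (rf (fun α => (ι α.1, α.2)) φ) v = av β φ (ι v) := by
  refine ⟨?_, fun v => ?_⟩
  · have := Glue.GSol.rf hQ.glue hS.glue h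
    convert this using 1
    funext α z
    obtain ⟨v, b⟩ := α
    have h1 := hν (v, b) z
    simp only at h1
    cases b <;> simp only [src, rf, fin, h1, hβ]
  · simp only [av, rf]
    rw [← integral_neg_eq_self (fun w => β (ι v) w * φ (ι v, false) w) volume]
    simp only [hβ]

theorem Hyp.vanish {μ : V → ℂ → ℝ} {νt : V × Bool → ℂ → ℝ} {δ τ a om κ s : ℝ}
    (h : Q.Hyp β μ νt Λ δ τ a om κ) (hs : s ∈ Icc (0 : ℝ) 1) {f : V × Bool → ℂ → ℝ}
    (hf : Q.glue.GSol f (src s (tot μ νt) β (fun _ => 0) f)) (h0 : ∀ v, av β f v = 0) :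
    ∀ α, ∀ z ∈ Q.W α, f α z = 0 := by
  classical
  intro α0 z0 hz0
  have hG := h.ok.glue
  obtain ⟨ξ, hξ, hc, hsub, h01, h1⟩ := exists_cutoff (isCompact_singleton (x := z0))
    (isOpen_W (Q := Q) α0) (singleton_subset_iff.2 hz0)
  have hξ' : Q.glue.CS ∞ fun b z => if b = α0 then ξ z else 0 := by
    intro b
    by_cases hb : b = α0
    · subst hb
      simp only [if_true]
      exact ⟨hξ, hc, hsub⟩
    · simp only [hb, if_false]
      exact Glue.CS.zero b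
  have hext := hξ'.mul hG hf.smooth
  obtain ⟨φ', t', h'⟩ := h.exists_ext hs hext
  have htot : Q.glue.CS 0 (tot μ νt) := h.tot_cs.of_le (by simp)
  have key := gi_ext h.ok h.bump htot htot (hext.of_le (by simp)) hf h'
  simp only [h0, mul_zero, zero_mul, Finset.sum_const_zero, sub_self, zero_add,
    integral_zero] at key
  rw [Finset.sum_eq_single α0 (fun b _ hb => by simp [hb]) (by simp)] at key
  simp only [if_true] at key
  have hcs := (hext.mul hG hf.smooth)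
  have hcont := (hcs α0).1.continuous
  have hint := hcs.integrable α0
  simp only [if_true] at hcont hint
  have hnn : 0 ≤ fun z => ξ z * f α0 z * f α0 z := fun z => by
    have := (h01 z).1
    simp only [Pi.zero_apply, mul_assoc]
    exact mul_nonneg this (mul_self_nonneg _)
  have hae := (integral_eq_zero_iff_of_nonneg hnn hint).1 key
  have heq := (hcont.ae_eq_iff_eq volume continuous_zero).1 hae
  have := congrFun heq z0
  simp only [h1 z0 rfl, one_mul, Pi.zero_apply] at this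
  exact mul_self_eq_zero.1 this

end Plumb

end Pool.Agent.MP_4f0ed6_gt

end

section

open Set Laplacian Filter Topology MeasureTheory Metric InnerProductSpace
open scoped ContDiff

namespace Pool.Agent.MP_4f0ed6_gt

/-- the parameter `p` realises the target matrix -/
def Sys.Hit {D P : Type} [Fintype D] [Fintype P] (S : Sys D P) (p : D × D → ℝ) : Prop :=
  ∀ d', ∃ φ t, S.Q.glue.GSol φ (src 1 (tot (S.μ p) S.νt) S.β t φ) ∧ av S.β φ = ed d' ∧
    t none = 0 ∧ ∀ d ε, t (some (d, ε)) = -(sg ε * S.M0 d d')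

theorem Brw_ed_abs {D : Type} (d : D) (v : Option (D × Bool)) : |ed d v| ≤ 1 := by
  rcases v with _ | ⟨d', ε⟩
  · simp [ed]
  · by_cases h : d' = d <;> cases ε <;> simp [ed, sg, h]

theorem Brw_ed_iV {D : Type} (d : D) (v : Option (D × Bool)) : ed d (iV v) = -1 * ed d v := by
  rcases v with _ | ⟨d', ε⟩
  · simp [ed, iV]
  · by_cases h : d' = d <;> cases ε <;> simp [ed, sg, iV, flp, h]

theorem Brw_sum_ed {D : Type} [Fintype D] (t : Option (D × Bool) → ℝ) (d : D) :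
    ∑ v, t v * ed d v = t (some (d, true)) - t (some (d, false)) := by
  classical
  rw [Fintype.sum_option, Fintype.sum_prod_type, Finset.sum_eq_single d]
  · simp [ed, sg]
    ring
  · intro b _ hb
    simp [ed, hb]
  · simp

theorem Brw_cs0 {V P : Type} [Fintype P] {Q : Plumb V P} {β μ : V → ℂ → ℝ}
    {νt : V × Bool → ℂ → ℝ} {Λ δ τ a om κ : ℝ} (h : Q.Hyp β μ νt Λ δ τ a om κ) :
    Q.glue.CS 0 (tot μ νt) :=
  h.tot_cs.of_le bot_le

variable {D P : Type} [Fintype D] [Fintype P] (S : Sys D P)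

theorem Brw_diff {p p' : D × D → ℝ} (hp : p ∈ cube D) (hp' : p' ∈ cube D)
    {φ φ' : Option (D × Bool) × Bool → ℂ → ℝ}
    (hb : ∀ α, ∀ w ∈ S.Q.W α, |φ α w| ≤ 16 * S.Q.n * 1)
    (hb' : ∀ α, ∀ w ∈ S.Q.W α, |φ' α w| ≤ 16 * S.Q.n * 1) (α : Option (D × Bool) × Bool) :
    |∫ z, (1 * tot (S.μ p') S.νt α z - 1 * tot (S.μ p) S.νt α z) * (φ α z * φ' α z)| ≤
      |S.Cl| * ‖p' - p‖ * (16 * S.Q.n) ^ 2 := by
  obtain ⟨v, b⟩ := α
  have hQ := (S.hyp p hp).ok
  cases b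
  · have e : ∀ z, 1 * tot (S.μ p') S.νt (v, false) z - 1 * tot (S.μ p) S.νt (v, false) z =
        S.μ p' v z - S.μ p v z := by
      intro z
      simp [tot, fin]
    simp only [e]
    refine abs_integral_mul_le (g := fun z => S.μ p' v z - S.μ p v z)
      (φ := fun z => φ (v, false) z * φ' (v, false) z)
      (((S.hyp p' hp').μ_pb v).integrable.sub ((S.hyp p hp).μ_pb v).integrable) (by positivity)
      ((S.lip p' hp' p hp v).trans
        (mul_le_mul_of_nonneg_right (le_abs_self _) (norm_nonneg _))) ?_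
    intro u hu
    have hc : u ∈ S.Q.core v := by
      by_cases h1 : S.μ p v u = 0
      · refine (S.hyp p' hp').μ_supp v u fun h2 => hu ?_
        simp [h1, h2]
      · exact (S.hyp p hp).μ_supp v u h1
    have hW := hQ.bulk_sub_W v (hQ.core_sub_bulk v hc)
    have h1 := hb _ u hW
    have h2 := hb' _ u hW
    rw [mul_one] at h1 h2
    rw [abs_mul, sq]
    exact mul_le_mul h1 h2 (abs_nonneg _) ((abs_nonneg _).trans h1)
  · have e : ∀ z, 1 * tot (S.μ p') S.νt (v, true) z - 1 * tot (S.μ p) S.νt (v, true) z = 0 := by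
      intro z
      simp [tot, fin]
    simp only [e, zero_mul, integral_zero, abs_zero]
    positivity

theorem Sys.tot_sym {p : D × D → ℝ} (hp : p ∈ cube D) (α : Option (D × Bool) × Bool) (w : ℂ) :
    tot (S.μ p) S.νt (iV α.1, α.2) (-w) = tot (S.μ p) S.νt α w := by
  obtain ⟨v, b⟩ := α
  have h1 := S.νt_sym (v, b) w
  have h2 := S.μ_sym p hp v w
  simp only [iA] at h1
  cases b
  · simp only [tot, fin, h1, h2]
  · simp only [tot, fin, h1]

theorem Sys.resp_sym {p : D × D → ℝ} (hp : p ∈ cube D) {s c : ℝ} (hs : s ∈ Icc (0 : ℝ) 1)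
    {φ : Option (D × Bool) × Bool → ℂ → ℝ} {t : Option (D × Bool) → ℝ}
    (h : S.Q.glue.GSol φ (src s (tot (S.μ p) S.νt) S.β t φ))
    (hu : ∀ v, av S.β φ (iV v) = c * av S.β φ v) (v : Option (D × Bool)) :
    t (iV v) = c * t v := by
  classical
  have H := S.hyp p hp
  obtain ⟨ψ, ρ, hψ, hav, -, -⟩ := H.exists_rep hs (Pi.single v 1) (N := 1) (fun w => by
    by_cases hw : w = v
    · simp [hw]
    · simp [hw])
  obtain ⟨hr, hra⟩ := Plumb.gsol_rf H.ok S.sym S.β_sym (S.tot_sym hp) h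
  have e1 := Plumb.gi_same H.ok H.bump (Brw_cs0 H) h hψ
  have e2 := Plumb.gi_same H.ok H.bump (Brw_cs0 H) hr hψ
  have e3 : ∀ x : Option (D × Bool) → ℝ, ∑ w, x w * av S.β ψ w = x v := by
    intro x
    rw [hav, Finset.sum_eq_single v]
    · simp
    · intro b _ hb
      simp [hb]
    · simp
  rw [e3] at e1 e2
  rw [← e1, ← e2, Finset.mul_sum]
  refine Finset.sum_congr rfl fun w _ => ?_
  rw [hra, hu]
  ring

theorem Sys.exists_hit : ∃ p ∈ cube D, S.Hit p := by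
  classical
  have h1 : (1 : ℝ) ∈ Icc (0 : ℝ) 1 := ⟨zero_le_one, le_rfl⟩
  choose φ ρ hs hav hbk hb using fun (p : cube D) (d : D) =>
    (S.hyp p p.2).exists_rep h1 (ed d) (N := 1) (Brw_ed_abs d)
  let T : cube D → D → D → ℝ := fun p d d' =>
    ((ρ p d').t (some (d, true)) - (ρ p d').t (some (d, false))) / 2
  have hT : ∀ p d d', ∑ v, (ρ p d').t v * ed d v = 2 * T p d d' := by
    intro p d d'
    rw [Brw_sum_ed]
    simp only [T]
    ring
  have hsym : ∀ p d d', T p d d' = T p d' d := by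
    intro p d d'
    have H := S.hyp p p.2
    have e := Plumb.gi_same H.ok H.bump (Brw_cs0 H) (hs p d) (hs p d')
    rw [hav, hav, hT, hT] at e
    linarith
  have hlip : ∀ p p' d d', |T p' d d' - T p d d'| ≤
      Fintype.card (Option (D × Bool) × Bool) * (|S.Cl| * (16 * S.Q.n) ^ 2) * dist p' p := by
    intro p p' d d'
    have H := S.hyp p p.2
    have e := Plumb.gi_two H.ok H.bump (Brw_cs0 H) (Brw_cs0 (S.hyp p' p'.2)) (hs p d) (hs p' d')
    rw [hav, hav, hT, hT, hsym p d' d] at e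
    have b := (Finset.abs_sum_le_sum_abs _ _).trans (Finset.sum_le_card_nsmul Finset.univ _ _
      fun α _ => Brw_diff S p.2 p'.2 (hb p d) (hb p' d') α)
    rw [← e, ← mul_sub, abs_mul, nsmul_eq_mul, Finset.card_univ] at b
    rw [Subtype.dist_eq, dist_eq_norm]
    have h2 : |(2 : ℝ)| = 2 := abs_two
    have h3 := abs_nonneg (T p' d d' - T p d d')
    rw [h2] at b
    linarith
  have hcont : ∀ d d', Continuous fun p => T p d d' := by
    intro d d'
    exact (LipschitzWith.of_dist_le' (K := Fintype.card (Option (D × Bool) × Bool) *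
      (|S.Cl| * (16 * S.Q.n) ^ 2)) fun p' p => hlip p p' d d').continuous
  let g : cube D → D × D → ℝ := fun p i =>
    if S.J i.1 i.2 then p.1 i - (T p i.1 i.2 + S.M0 i.1 i.2) / S.tau i.1 i.2 else 0
  have hg : Continuous g := by
    refine continuous_pi fun i => ?_
    by_cases hJ : S.J i.1 i.2
    · simp only [g, hJ, if_true]
      exact ((continuous_apply i).comp continuous_subtype_val).sub
        (((hcont i.1 i.2).add continuous_const).div_const _)
    · simp only [g, hJ, if_false]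
      exact continuous_const
  obtain ⟨p, hp, hf⟩ := MP_92c74b_an.brouwer_cube zero_le_one
    (fun p => if hp : p ∈ cube D then g ⟨p, hp⟩ else 0)
    (by
      rw [continuousOn_iff_continuous_domRestrict]
      refine hg.congr fun p => ?_
      have hp : p.1 ∈ cube D := p.2
      simp only [domRestrict_apply, hp, dite_true])
    (by
      intro p hp i
      have hp' : p ∈ cube D := hp
      simp only [hp', dite_true, g]
      split_ifs with hJ
      · have e := S.expn p hp' i.1 i.2 hJ (ρ ⟨p, hp'⟩ i.2)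
        have ht := S.tau_pos i.1 i.2
        have e2 : p i - (T ⟨p, hp'⟩ i.1 i.2 + S.M0 i.1 i.2) / S.tau i.1 i.2 =
            -(T ⟨p, hp'⟩ i.1 i.2 + S.M0 i.1 i.2 - S.tau i.1 i.2 * p (i.1, i.2)) /
              S.tau i.1 i.2 := by
          field_simp
          ring
        rw [e2, abs_div, abs_neg, abs_of_pos ht, div_le_one ht]
        exact e
      · simp)
  have hp' : p ∈ cube D := hp
  simp only [hp', dite_true] at hf
  have hJ : ∀ d d', S.J d d' → T ⟨p, hp'⟩ d d' = -S.M0 d d' := by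
    intro d d' hJ
    have e := congrFun hf (d, d')
    simp only [g, hJ, if_true] at e
    have e2 : (T ⟨p, hp'⟩ d d' + S.M0 d d') / S.tau d d' = 0 := by linarith
    rcases div_eq_zero_iff.1 e2 with e3 | e3
    · linarith
    · exact absurd e3 (S.tau_pos d d').ne'
  have hall : ∀ d d', T ⟨p, hp'⟩ d d' = -S.M0 d d' := by
    intro d d'
    rcases S.J_total d d' with h | h
    · exact hJ d d' h
    · rw [hsym, hJ d' d h, S.M0_symm]
  refine ⟨p, hp', fun d' => ⟨φ ⟨p, hp'⟩ d', (ρ ⟨p, hp'⟩ d').t, hs _ _, hav _ _, ?_⟩⟩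
  have hodd := S.resp_sym hp' (c := -1) h1 (hs ⟨p, hp'⟩ d') (fun v => by
    rw [hav]
    exact Brw_ed_iV d' v)
  refine ⟨?_, fun d ε => ?_⟩
  · have e := hodd none
    simp only [iV, Option.map_none] at e
    linarith
  · have e := hodd (some (d, true))
    simp only [iV, flp, Option.map_some, Bool.not_true] at e
    have e2 := hall d d'
    simp only [T] at e2
    cases ε
    · simp only [sg]
      linarith
    · simp only [sg]
      linarith

end Pool.Agent.MP_4f0ed6_gt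

end

section

open Set Laplacian Filter Topology MeasureTheory Metric InnerProductSpace
open scoped ContDiff

namespace Pool.Agent.MP_4f0ed6_gt

variable {D P : Type} [Fintype D] [Fintype P] (S : Sys D P)

theorem Gap_lower {p : D × D → ℝ} (hp : p ∈ cube D) {s N : ℝ} (hs : s ∈ Icc (0 : ℝ) 1)
    {u : Option (D × Bool) → ℝ} (hu : u none = 0) (hN : ∀ v, |u v| ≤ N) (hN' : ∃ v, |u v| = N)
    {φ φ' : Option (D × Bool) × Bool → ℂ → ℝ} (ρ : S.Q.Rep S.β (S.μ p) s S.κ N u)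
    (ρ' : S.Q.Rep S.β (S.μ p) 1 S.κ N u) (hφ : ∀ α, ContDiffOn ℝ ∞ (φ α) (S.Q.W α))
    (hφ' : ∀ α, ContDiffOn ℝ ∞ (φ' α) (S.Q.W α))
    (hb : ∀ v, ∀ w ∈ S.Q.bulk v, φ (v, false) w = ρ.φ v w)
    (hb' : ∀ v, ∀ w ∈ S.Q.bulk v, φ' (v, false) w = ρ'.φ v w)
    (hle : ∀ α, ∀ w ∈ S.Q.W α, |φ α w| ≤ 16 * S.Q.n * N)
    (hle' : ∀ α, ∀ w ∈ S.Q.W α, |φ' α w| ≤ 16 * S.Q.n * N) :
    (S.c0 - 2 * Fintype.card (Option (D × Bool)) * S.τ * (16 * S.Q.n) ^ 2) * N ^ 2 ≤
      ∑ α, ∫ z, tot (S.μ p) S.νt α z * (φ α z * φ' α z) := by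
  have H := S.hyp p hp
  have hG := H.ok.glue
  have hφφ : ∀ α, ContDiffOn ℝ ∞ (fun z => φ α z * φ' α z) (S.Q.glue.W α) :=
    fun α => (hφ α).mul (hφ' α)
  have i1 := ((H.ok.cs_fin H.μ_smooth H.μ_supp).mul hG hφφ).integrable
  have i2 := (H.νt_cs.mul hG hφφ).integrable
  have hN0 : 0 ≤ 16 * S.Q.n * N := by
    obtain ⟨v, rfl⟩ := hN'
    have := Plumb.one_le_n (Q := S.Q)
    positivity
  have e1 : ∀ α, ∫ z, tot (S.μ p) S.νt α z * (φ α z * φ' α z) =
      (∫ z, fin (S.μ p) α z * (φ α z * φ' α z)) + ∫ z, S.νt α z * (φ α z * φ' α z) := fun α => by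
    rw [← integral_add (i1 α) (i2 α)]
    simp only [tot, add_mul]
  have e2 : ∑ α, ∫ z, fin (S.μ p) α z * (φ α z * φ' α z) =
      ∑ v, ∫ w, S.μ p v w * (ρ.φ v w * ρ'.φ v w) := by
    rw [Fintype.sum_prod_type]
    refine Finset.sum_congr rfl fun v _ => ?_
    rw [Fintype.sum_bool]
    simp only [fin, zero_mul, integral_zero, zero_add]
    refine integral_congr_ae (Eventually.of_forall fun w => ?_)
    by_cases hw : S.μ p v w = 0
    · simp only [hw, zero_mul]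
    · have hk := H.ok.core_sub_bulk v (H.μ_supp v w hw)
      simp only [hb v w hk, hb' v w hk]
  have e3 : ∀ α, -(S.τ * (16 * S.Q.n * N) ^ 2) ≤ ∫ z, S.νt α z * (φ α z * φ' α z) := fun α => by
    refine neg_le_of_abs_le (abs_integral_mul_le (H.νt_pb α).integrable (sq_nonneg _)
      (H.νt_pb α).mass fun z hz => ?_)
    have hz' : z ∈ S.Q.W α := by
      by_contra hn
      exact hz (H.νt_cs.eq_zero hn)
    rw [abs_mul, sq]
    exact mul_le_mul (hle α z hz') (hle' α z hz') (abs_nonneg _) hN0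
  have e4 := Finset.sum_le_sum fun α (_ : α ∈ Finset.univ) => e3 α
  rw [Finset.sum_const, Finset.card_univ, Fintype.card_prod, Fintype.card_bool, nsmul_eq_mul] at e4
  have e5 := S.pos p hp s 1 hs ⟨zero_le_one, le_rfl⟩ u N hu hN hN' ρ ρ'
  simp only [e1, Finset.sum_add_distrib, e2]
  push_cast at e4 ⊢
  nlinarith [e4, e5]

theorem Gap_t_zero {p : D × D → ℝ} (hp : p ∈ cube D) {s : ℝ} (hs : s ∈ Icc (0 : ℝ) 1)
    {f φ : Option (D × Bool) × Bool → ℂ → ℝ} {t : Option (D × Bool) → ℝ} {a b : ℝ}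
    (hf : S.Q.glue.GSol f (src s (tot (S.μ p) S.νt) S.β (fun _ => 0) f))
    (h : S.Q.glue.GSol φ (src s (tot (S.μ p) S.νt) S.β t φ))
    (hav : av S.β φ = fun v => a * av S.β f v + b * av S.β f (iV v)) (w : Option (D × Bool)) :
    t w = 0 := by
  classical
  have H := S.hyp p hp
  have hν : S.Q.glue.CS 0 (tot (S.μ p) S.νt) := H.tot_cs.of_le bot_le
  obtain ⟨hf', hav'⟩ := Plumb.gsol_rf H.ok S.sym S.β_sym (S.tot_sym hp) hf
  obtain ⟨ψ, ρ, hψ, havψ, -, -⟩ := H.exists_rep hs (Pi.single w 1) (N := 1) fun v => by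
    rw [Pi.single_apply]
    split_ifs <;> simp
  have k0 := Plumb.gi_same H.ok H.bump hν h hψ
  have k1 := Plumb.gi_same H.ok H.bump hν hf hψ
  have k2 := Plumb.gi_same H.ok H.bump hν hf' hψ
  simp only [zero_mul, Finset.sum_const_zero, hav'] at k1 k2
  simp only [havψ, hav, Pi.single_apply, mul_ite, mul_one, mul_zero, Finset.sum_ite_eq',
    Finset.mem_univ, if_true] at k0
  rw [← k0]
  have : ∀ v, ρ.t v * (a * av S.β f v + b * av S.β f (iV v)) =
      a * (ρ.t v * av S.β f v) + b * (ρ.t v * av S.β f (iV v)) := fun v => by ring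
  simp only [this, Finset.sum_add_distrib, ← Finset.mul_sum, k1, k2, mul_zero, add_zero]

omit [Fintype D] in
theorem Gap_iV_iV (v : Option (D × Bool)) : iV (iV v) = v := by
  rcases v with _ | ⟨d, ε⟩
  · rfl
  · simp [iV, flp]

theorem Sys.odd_zero {p : D × D → ℝ} (hp : p ∈ cube D) (hit : S.Hit p) {s N : ℝ} (h0 : 0 < s)
    (h1 : s < 1) {u : Option (D × Bool) → ℝ} (hu : ∀ v, u (iV v) = -u v) (hN : ∀ v, |u v| ≤ N)
    (hN' : ∃ v, |u v| = N) {φ : Option (D × Bool) × Bool → ℂ → ℝ}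
    (ρ : S.Q.Rep S.β (S.μ p) s S.κ N u)
    (h : S.Q.glue.GSol φ (src s (tot (S.μ p) S.νt) S.β ρ.t φ)) (hav : av S.β φ = u)
    (hb : ∀ v, ∀ w ∈ S.Q.bulk v, φ (v, false) w = ρ.φ v w)
    (hle : ∀ α, ∀ w ∈ S.Q.W α, |φ α w| ≤ 16 * S.Q.n * N) (ht : ∀ v, ρ.t v = 0) : N = 0 := by
  classical
  have H := S.hyp p hp
  have hν : S.Q.glue.CS 0 (tot (S.μ p) S.νt) := H.tot_cs.of_le bot_le
  have hun : u none = 0 := by
    have := hu none
    change u none = -u none at this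
    linarith
  have hus : ∀ d ε, u (some (d, ε)) = u (some (d, true)) * sg ε := fun d ε => by
    cases ε
    · have := hu (some (d, true))
      change u (some (d, false)) = _ at this
      rw [this, sg]
      ring
    · rw [sg, mul_one]
  obtain ⟨φ1, ρ1, g1, av1, hb1, hle1⟩ := H.exists_rep (s := 1) ⟨zero_le_one, le_rfl⟩ u hN
  choose φd td gd avd tn ts using hit
  obtain ⟨g2, av2⟩ := Plumb.gsol_comb H.ok H.bump (fun d => u (some (d, true))) gd
  have av2' : ∀ v, av S.β (fun α z => ∑ d, u (some (d, true)) * φd d α z) v = u v := fun v => by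
    rw [av2]
    rcases v with _ | ⟨d, ε⟩
    · simp only [avd, ed, mul_zero, Finset.sum_const_zero, hun]
    · simp only [avd, ed, mul_ite, mul_zero, Finset.sum_ite_eq, Finset.mem_univ, if_true]
      exact (hus d ε).symm
  have k1 := Plumb.gi_two H.ok H.bump hν hν h g1
  have k2 := Plumb.gi_same H.ok H.bump hν g1 g2
  simp only [ht, zero_mul, Finset.sum_const_zero, sub_zero, hav] at k1
  simp only [av1, av2'] at k2
  have k3 : ∑ v, (∑ d, u (some (d, true)) * td d v) * u v =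
      -2 * ∑ d, ∑ d', u (some (d, true)) * S.M0 d d' * u (some (d', true)) := by
    rw [Fintype.sum_option, hun, mul_zero, zero_add, Fintype.sum_prod_type, Finset.mul_sum]
    refine Finset.sum_congr rfl fun d _ => ?_
    rw [Fintype.sum_bool, hus d false, Finset.sum_mul, Finset.sum_mul, Finset.mul_sum,
      ← Finset.sum_add_distrib]
    refine Finset.sum_congr rfl fun d' _ => ?_
    rw [ts, ts, sg, sg]
    ring
  have k4 := S.M0_psd fun d => u (some (d, true))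
  have k5 := Gap_lower S hp ⟨h0.le, h1.le⟩ hun hN hN' ρ ρ1 h.smooth g1.smooth hb hb1 hle hle1
  have k6 : ∑ α, ∫ z, (1 * tot (S.μ p) S.νt α z - s * tot (S.μ p) S.νt α z) *
      (φ α z * φ1 α z) = (1 - s) * ∑ α, ∫ z, tot (S.μ p) S.νt α z * (φ α z * φ1 α z) := by
    rw [Finset.mul_sum]
    refine Finset.sum_congr rfl fun α _ => ?_
    rw [← integral_const_mul]
    congr 1
    ext z
    ring
  have k7 : ∑ α, ∫ z, tot (S.μ p) S.νt α z * (φ α z * φ1 α z) ≤ 0 := by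
    by_contra hn
    have := mul_pos (sub_pos.2 h1) (not_le.1 hn)
    linarith
  have k8 := sub_pos.2 S.c0_gt
  by_contra hn
  have := mul_pos k8 (sq_pos_of_ne_zero hn)
  linarith

theorem Sys.gap {p : D × D → ℝ} (hp : p ∈ cube D) (hit : S.Hit p) {s : ℝ} (h0 : 0 < s)
    (h1 : s < 1) {f : Option (D × Bool) × Bool → ℂ → ℝ}
    (hf : S.Q.glue.GSol f (src s (tot (S.μ p) S.νt) S.β (fun _ => 0) f)) :
    ∀ α, ∀ z ∈ S.Q.W α, f α z = 0 := by
  have H := S.hyp p hp
  have hs : s ∈ Icc (0 : ℝ) 1 := ⟨h0.le, h1.le⟩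
  have hp0 : ∀ v, 1 / 2 * av S.β f v + 1 / 2 * av S.β f (iV v) = 0 := by
    obtain ⟨v0, hv0⟩ := Finite.exists_max fun v =>
      |1 / 2 * av S.β f v + 1 / 2 * av S.β f (iV v)|
    obtain ⟨φ, ρ, g, hav, -, -⟩ := H.exists_rep hs _ hv0
    have := S.even p hp s h0 h1.le _ _ (fun v => by simp only [Gap_iV_iV]; ring) hv0 ⟨v0, rfl⟩ ρ
      (Gap_t_zero S hp hs hf g hav)
    intro v
    exact abs_nonpos_iff.1 ((hv0 v).trans this.le)
  have hm0 : ∀ v, 1 / 2 * av S.β f v + -(1 / 2) * av S.β f (iV v) = 0 := by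
    obtain ⟨v0, hv0⟩ := Finite.exists_max fun v =>
      |1 / 2 * av S.β f v + -(1 / 2) * av S.β f (iV v)|
    obtain ⟨φ, ρ, g, hav, hb, hle⟩ := H.exists_rep hs _ hv0
    have := S.odd_zero hp hit h0 h1 (fun v => by simp only [Gap_iV_iV]; ring) hv0 ⟨v0, rfl⟩ ρ g
      hav hb hle (Gap_t_zero S hp hs hf g hav)
    intro v
    exact abs_nonpos_iff.1 ((hv0 v).trans this.le)
  exact H.vanish hs hf fun v => by linarith [hp0 v, hm0 v]

end Pool.Agent.MP_4f0ed6_gt

end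

section

open Set Laplacian Filter Topology MeasureTheory Metric InnerProductSpace
open scoped ContDiff

namespace Pool.Agent.MP_4f0ed6_gt

section

variable {A K : Type} {G : Glue A K}

/-- the gluing relation -/
def Atl0_s (hG : G.Ok) : Setoid {x : A × ℂ // x.2 ∈ G.W x.1} where
  r x y := x = y ∨ ∃ κ, G.ch κ = x.1.1 ∧ G.ch (G.σ κ) = y.1.1 ∧ x.1.2 ∈ G.O κ ∧ y.1.2 = G.τ κ x.1.2
  iseqv := by
    refine ⟨fun _ => Or.inl rfl, ?_, ?_⟩
    · rintro x y (rfl | ⟨κ, h1, h2, h3, h4⟩)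
      · exact Or.inl rfl
      · exact Or.inr ⟨G.σ κ, h2, by rw [hG.σσ, h1], h4 ▸ hG.maps κ _ h3, by rw [h4, hG.inv κ _ h3]⟩
    · rintro x y z (rfl | ⟨κ, h1, h2, h3, h4⟩) h
      · exact h
      rcases h with rfl | ⟨κ', k1, k2, k3, k4⟩
      · exact Or.inr ⟨κ, h1, h2, h3, h4⟩
      obtain rfl : G.σ κ = κ' := hG.disj _ _ _ (h2.trans k1.symm) (h4 ▸ hG.maps κ _ h3) k3
      refine Or.inl (Subtype.ext (Prod.ext ?_ ?_))
      · rw [← h1, ← k2, hG.σσ]
      · rw [k4, h4, hG.inv κ _ h3]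

open Classical in
/-- the parametrisations -/
noncomputable def Atl0_p (hG : G.Ok) (a : A) (z : ℂ) : Quotient (Atl0_s hG) :=
  Quotient.mk _ (if h : z ∈ G.W a then ⟨(a, z), h⟩
    else ⟨(a, (hG.core a).choose), (hG.core a).choose_spec.1⟩)

theorem Atl0_p_eq (hG : G.Ok) {a : A} {z : ℂ} (h : z ∈ G.W a) :
    Atl0_p hG a z = Quotient.mk _ ⟨(a, z), h⟩ := by rw [Atl0_p, dif_pos h]

theorem Atl0_key (hG : G.Ok) {a b : A} {z z' : ℂ} (h : z ∈ G.W a) (h' : z' ∈ G.W b) :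
    Atl0_p hG a z = Atl0_p hG b z' ↔
      (a = b ∧ z = z') ∨ ∃ κ, G.ch κ = a ∧ G.ch (G.σ κ) = b ∧ z ∈ G.O κ ∧ z' = G.τ κ z := by
  rw [Atl0_p_eq hG h, Atl0_p_eq hG h', Quotient.eq]
  exact or_congr_left (Subtype.ext_iff.trans Prod.ext_iff)

/-- the topology of the glued surface -/
@[reducible] def Atl0_top (hG : G.Ok) : TopologicalSpace (Quotient (Atl0_s hG)) where
  IsOpen U := ∀ a, IsOpen (G.W a ∩ Atl0_p hG a ⁻¹' U)
  isOpen_univ a := by simpa using hG.W_open a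
  isOpen_inter U V hU hV a := by
    have := (hU a).inter (hV a)
    rwa [← inter_inter_distrib_left, ← preimage_inter] at this
  isOpen_sUnion S hS a := by
    rw [preimage_sUnion, inter_iUnion₂]
    exact isOpen_biUnion fun U hU => hS U hU a

theorem Atl0_inj (hG : G.Ok) (a : A) : InjOn (Atl0_p hG a) (G.W a) := fun z h z' h' e => by
  rcases (Atl0_key hG h h').1 e with k | ⟨κ, k1, k2, -⟩
  · exact k.2
  · exact absurd (k2.trans k1.symm) (hG.ch_ne κ)

theorem Atl0_open (hG : G.Ok) {a : A} {U : Set ℂ} (hU : IsOpen U) (hs : U ⊆ G.W a) (b : A) :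
    IsOpen (G.W b ∩ Atl0_p hG b ⁻¹' (Atl0_p hG a '' U)) := by
  rw [isOpen_iff_forall_mem_open]
  rintro z ⟨hz, u, hu, e⟩
  rcases (Atl0_key hG hz (hs hu)).1 e.symm with ⟨rfl, rfl⟩ | ⟨κ, rfl, rfl, k3, rfl⟩
  · exact ⟨U, fun w hw => ⟨hs hw, w, hw, rfl⟩, hU, hu⟩
  · refine ⟨G.O κ ∩ G.τ κ ⁻¹' U, fun w hw => ⟨hG.O_sub κ hw.1, _, hw.2, ?_⟩,
      (hG.hol κ).continuousOn.isOpen_inter_preimage (hG.O_open κ) hU, k3, hu⟩
    exact ((Atl0_key hG (hG.O_sub κ hw.1) (hs hw.2)).2 (Or.inr ⟨κ, rfl, rfl, hw.1, rfl⟩)).symm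

/-- the parametrisations as homeomorphisms -/
noncomputable def Atl0_e (hG : G.Ok) (a : A) :
    @OpenPartialHomeomorph ℂ (Quotient (Atl0_s hG)) _ (Atl0_top hG) :=
  letI := Atl0_top hG
  OpenPartialHomeomorph.ofContinuousOpenRestrict ((Atl0_inj hG a).toPartialEquiv _ _)
    ((continuousOn_open_iff (hG.W_open a)).2 fun _ hU => hU a)
    (fun V hV => by
      have := Atl0_open hG ((hG.W_open a).isOpenMap_subtype_val V hV)
        (Subtype.coe_image_subset _ _)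
      rw [image_image] at this
      exact this)
    (hG.W_open a)

end

theorem Glue.Ok.exists_atl {A K : Type} {G : Glue A K} (hG : G.Ok) :
    Nonempty G.Atl := by
  let := Atl0_top hG
  refine ⟨{ M := Quotient (Atl0_s hG)
            top := Atl0_top hG
            e := fun a => (Atl0_e hG a).symm
            idx := fun q => q.out.1.1
            target := fun _ => rfl
            mem := fun q => ⟨q.out.1.2, q.out.2, ?_⟩
            surj := fun a => ?_
            glue := fun κ z hz => ?_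
            sep := fun a b z h z' h' e => (Atl0_key hG h h').1 e }⟩
  · exact (Atl0_p_eq hG q.out.2).trans q.out_eq
  · obtain ⟨z, hz, h⟩ := hG.core a
    refine ⟨Quotient.mk _ ⟨(a, z), hz⟩, ?_⟩
    rcases (Atl0_s hG).symm (Quotient.mk_out (s := Atl0_s hG) ⟨(a, z), hz⟩) with e | ⟨κ, k1, -, k3, -⟩
    · exact congrArg (fun x => x.1.1) e.symm
    · exact absurd k3 (h κ k1)
  · exact (Atl0_key hG (hG.O_sub κ hz) (hG.O_sub _ (hG.maps κ z hz))).2
      (Or.inr ⟨κ, rfl, rfl, hz, rfl⟩)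

end Pool.Agent.MP_4f0ed6_gt

end

section

open Set Laplacian Filter Topology MeasureTheory Metric InnerProductSpace
open scoped ContDiff

namespace Pool.Agent.MP_4f0ed6_gt

variable {A K : Type} [Fintype A] [Fintype K] {G : Glue A K}

omit [Fintype A] [Fintype K] in
theorem Atl1_rep (X : G.Atl) (q : X.M) : ∃ a, ∃ z ∈ G.W a, (X.e a).symm z = q :=
  ⟨X.idx q, X.e (X.idx q) q, X.target _ ▸ (X.e _).map_source (X.mem q),
    (X.e _).left_inv (X.mem q)⟩

omit [Fintype A] [Fintype K] in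
theorem Atl1_cont (X : G.Atl) (a : A) : ContinuousOn (X.e a).symm (G.W a) :=
  X.target a ▸ (X.e a).continuousOn_symm

omit [Fintype A] [Fintype K] in
theorem Atl1_nhds (X : G.Atl) {a : A} {z : ℂ} (hz : z ∈ G.W a) :
    map (X.e a).symm (𝓝 z) = 𝓝 ((X.e a).symm z) :=
  (X.e a).symm.map_nhds_eq (by rwa [OpenPartialHomeomorph.symm_source, X.target])

theorem Glue.Atl.t2 (hG : G.Ok) (X : G.Atl) : T2Space X.M := by
  refine t2Space_iff_disjoint_nhds.2 fun q q' hne => ?_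
  obtain ⟨a, z, hz, rfl⟩ := Atl1_rep X q
  obtain ⟨b, z', hz', rfl⟩ := Atl1_rep X q'
  have h1 : ∀ᶠ p in 𝓝 (z, z'), p.1 ∈ G.W a :=
    continuous_fst.continuousAt.eventually ((hG.W_open a).mem_nhds hz)
  have h2 : ∀ᶠ p in 𝓝 (z, z'), p.2 ∈ G.W b :=
    continuous_snd.continuousAt.eventually ((hG.W_open b).mem_nhds hz')
  have h3 : ∀ᶠ p : ℂ × ℂ in 𝓝 (z, z'), a = b → p.1 ≠ p.2 := by
    refine eventually_imp_distrib_left.2 ?_
    rintro rfl
    exact (isOpen_ne_fun continuous_fst continuous_snd).mem_nhds fun h : z = z' => hne (by rw [h])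
  have h4 : ∀ᶠ p : ℂ × ℂ in 𝓝 (z, z'), ∀ κ, G.ch κ = a → G.ch (G.σ κ) = b → p.1 ∈ G.O κ →
      p.2 ≠ G.τ κ p.1 := by
    refine eventually_all.2 fun κ => eventually_imp_distrib_left.2 ?_
    rintro rfl
    refine eventually_imp_distrib_left.2 ?_
    rintro rfl
    by_cases h : z ∈ G.O κ
    · have hc : ContinuousAt (G.τ κ) z :=
        (hG.hol κ).continuousOn.continuousAt ((hG.O_open κ).mem_nhds h)
      have hn : z' ≠ G.τ κ z := fun e => hne (by rw [e]; exact X.glue κ z h)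
      have hc' : ContinuousAt (fun p : ℂ × ℂ => p.2 - G.τ κ p.1) (z, z') :=
        continuousAt_snd.sub (ContinuousAt.comp (f := Prod.fst) hc continuousAt_fst)
      filter_upwards [hc'.eventually_ne (sub_ne_zero.2 hn)] with p hp _
      exact sub_ne_zero.1 hp
    · obtain ⟨C, hC, k1, k2⟩ := exists_compact_subset (hG.W_open _) hz'
      have k3 : ∀ᶠ p : ℂ × ℂ in 𝓝 (z, z'), p.1 ∈ G.O κ → G.τ κ p.1 ∉ C :=
        (continuous_fst.tendsto (z, z')).eventually (hG.closed κ C hC k2 z hz h)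
      have k4 : ∀ᶠ p : ℂ × ℂ in 𝓝 (z, z'), p.2 ∈ C :=
        (continuous_snd.tendsto (z, z')).eventually (mem_interior_iff_mem_nhds.1 k1)
      filter_upwards [k3, k4] with p k5 k6 k7 e
      exact k5 k7 (e ▸ k6)
  have h5 : ∀ᶠ p : ℂ × ℂ in 𝓝 z ×ˢ 𝓝 z', (X.e a).symm p.1 ≠ (X.e b).symm p.2 := by
    rw [← nhds_prod_eq]
    filter_upwards [h1, h2, h3, h4] with p k1 k2 k3 k4 e
    rcases X.sep a b _ k1 _ k2 e with ⟨k5, k6⟩ | ⟨κ, k5, k6, k7, k8⟩
    · exact k3 k5 k6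
    · exact k4 κ k5 k6 k7 k8
  obtain ⟨U, hU, V, hV, h6⟩ := mem_prod_iff.1 h5
  rw [← Atl1_nhds X hz, ← Atl1_nhds X hz']
  refine Filter.disjoint_iff.2 ⟨_, image_mem_map hU, _, image_mem_map hV, Set.disjoint_left.2 ?_⟩
  rintro _ ⟨w, hw, rfl⟩ ⟨w', hw', e⟩
  exact h6 (mk_mem_prod hw hw') e.symm

theorem Glue.Atl.compact (hG : G.Ok) (X : G.Atl) : CompactSpace X.M := by
  refine ⟨(isCompact_iUnion fun a => (hG.Cp_compact a).image_of_continuousOn
    ((Atl1_cont X a).mono (hG.Cp_sub a))).of_isClosed_subset isClosed_univ fun q _ => ?_⟩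
  obtain ⟨a, z, hz, rfl⟩ := Atl1_rep X q
  rcases hG.cover a z hz with h | ⟨κ, rfl, h1, h2⟩
  · exact mem_iUnion.2 ⟨a, z, h, rfl⟩
  · exact mem_iUnion.2 ⟨_, _, h2, (X.glue κ z h1).symm⟩

theorem Glue.Atl.connected (hG : G.Ok) (X : G.Atl) : ConnectedSpace X.M := by
  obtain ⟨a₀⟩ := hG.ne
  obtain ⟨z₀, hz₀, -⟩ := hG.core a₀
  have hS : ∀ a, IsPreconnected ((X.e a).symm '' G.W a) := fun a =>
    (hG.W_conn a).image _ (Atl1_cont X a)
  have key : ∀ a, (X.e a).symm '' G.W a ⊆ connectedComponent ((X.e a₀).symm z₀) := fun a => by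
    induction hG.conn a₀ a with
    | refl => exact (hS a₀).subset_connectedComponent ⟨z₀, hz₀, rfl⟩
    | tail _ h ih =>
      obtain ⟨κ, rfl, rfl⟩ := h
      obtain ⟨z, hz⟩ := hG.O_ne κ
      rw [connectedComponent_eq (ih ⟨z, hG.O_sub κ hz, rfl⟩)]
      exact (hS _).subset_connectedComponent
        ⟨_, hG.O_sub _ (hG.maps κ z hz), (X.glue κ z hz).symm⟩
  refine connectedSpace_iff_connectedComponent.2
    ⟨(X.e a₀).symm z₀, eq_univ_of_forall fun q => ?_⟩
  obtain ⟨a, z, hz, rfl⟩ := Atl1_rep X q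
  exact key a ⟨z, hz, rfl⟩

end Pool.Agent.MP_4f0ed6_gt

end

section

open Set Laplacian Filter Topology MeasureTheory Metric InnerProductSpace
open scoped ContDiff

namespace Pool.Agent.MP_4f0ed6_gt

open scoped Manifold

variable {A K : Type} {G : Glue A K}

theorem AtlM_glue (hG : G.Ok) (X : G.Atl) {κ : K} {w : ℂ} (hw : w ∈ G.O κ) :
    X.e (G.ch (G.σ κ)) ((X.e (G.ch κ)).symm w) = G.τ κ w := by
  rw [X.glue κ w hw]
  apply (X.e (G.ch (G.σ κ))).right_inv
  rw [X.target]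
  exact hG.O_sub _ (hG.maps κ w hw)

theorem AtlM_ev (hG : G.Ok) (X : G.Atl) {κ : K} {z : ℂ} (hz : z ∈ G.O κ) :
    X.e (G.ch (G.σ κ)) ∘ (X.e (G.ch κ)).symm =ᶠ[𝓝 z] G.τ κ := by
  filter_upwards [(hG.O_open κ).mem_nhds hz] with w hw
  exact AtlM_glue hG X hw

theorem AtlM_ev_self (X : G.Atl) {α : A} {z : ℂ} (hz : z ∈ (X.e α).target) :
    X.e α ∘ (X.e α).symm =ᶠ[𝓝 z] id := by
  filter_upwards [(X.e α).open_target.mem_nhds hz] with w hw
  exact (X.e α).right_inv hw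

theorem Glue.Atl.trans (hG : G.Ok) (X : G.Atl) {α β : A} {q : X.M} (hα : q ∈ (X.e α).source)
    (hβ : q ∈ (X.e β).source) :
    α = β ∨ ∃ κ, G.ch κ = α ∧ G.ch (G.σ κ) = β ∧ X.e α q ∈ G.O κ ∧
      X.e β q = G.τ κ (X.e α q) ∧ X.e β ∘ (X.e α).symm =ᶠ[𝓝 (X.e α q)] G.τ κ := by
  have h1 : X.e α q ∈ G.W α := by
    rw [← X.target]; exact (X.e α).map_source hα
  have h2 : X.e β q ∈ G.W β := by
    rw [← X.target]; exact (X.e β).map_source hβ
  have h3 : (X.e α).symm (X.e α q) = (X.e β).symm (X.e β q) := by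
    rw [(X.e α).left_inv hα, (X.e β).left_inv hβ]
  rcases X.sep α β _ h1 _ h2 h3 with h | ⟨κ, rfl, rfl, hz, hτ⟩
  · exact Or.inl h.1
  · exact Or.inr ⟨κ, rfl, rfl, hz, hτ, AtlM_ev hG X hz⟩

theorem Glue.Atl.trans_self (hG : G.Ok) (X : G.Atl) {α : A} {q : X.M}
    (hα : q ∈ (X.e α).source) : deriv (X.e α ∘ (X.e α).symm) (X.e α q) = 1 := by
  have _h := hG.ne
  rw [(AtlM_ev_self X ((X.e α).map_source hα)).deriv_eq]
  exact deriv_id _

theorem Glue.Atl.over (hG : G.Ok) (X : G.Atl) {κ : K} {z : ℂ} (hz : z ∈ G.O κ) :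
    (X.e (G.ch κ)).symm z ∈ (X.e (G.ch κ)).source ∧
      (X.e (G.ch κ)).symm z ∈ (X.e (G.ch (G.σ κ))).source ∧
      X.e (G.ch κ) ((X.e (G.ch κ)).symm z) = z ∧
      X.e (G.ch (G.σ κ)) ((X.e (G.ch κ)).symm z) = G.τ κ z ∧
      deriv (X.e (G.ch (G.σ κ)) ∘ (X.e (G.ch κ)).symm) z = deriv (G.τ κ) z := by
  have h1 : z ∈ (X.e (G.ch κ)).target := by
    rw [X.target]; exact hG.O_sub κ hz
  have h2 : G.τ κ z ∈ (X.e (G.ch (G.σ κ))).target := by
    rw [X.target]; exact hG.O_sub _ (hG.maps κ z hz)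
  refine ⟨(X.e _).map_target h1, ?_, (X.e _).right_inv h1, AtlM_glue hG X hz,
    (AtlM_ev hG X hz).deriv_eq⟩
  rw [X.glue κ z hz]
  exact (X.e _).map_target h2

theorem Glue.Atl.isManifold (hG : G.Ok) (X : G.Atl) : IsManifold 𝓘(ℂ) ω X.M := by
  apply isManifold_of_contDiffOn
  rintro e e' ⟨α, rfl⟩ ⟨β, rfl⟩
  simp only [mfld_simps]
  intro z hz
  apply ContDiffAt.contDiffWithinAt
  have hq : (X.e α).symm z ∈ (X.e α).source := (X.e α).map_target hz.1
  have hz' : X.e α ((X.e α).symm z) = z := (X.e α).right_inv hz.1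
  rcases X.trans hG hq hz.2 with rfl | ⟨κ, _, _, hO, _, hev⟩
  · exact contDiffAt_id.congr_of_eventuallyEq (AtlM_ev_self X hz.1)
  · rw [hz'] at hO hev
    exact ((hG.hol κ).analyticAt ((hG.O_open κ).mem_nhds hO)).contDiffAt.congr_of_eventuallyEq
      hev

end Pool.Agent.MP_4f0ed6_gt

end

section

open Set Laplacian Filter Topology MeasureTheory Metric InnerProductSpace
open scoped ContDiff

namespace Pool.Agent.MP_4f0ed6_gt

open scoped Manifold

variable {A K : Type} {G : Glue A K}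

theorem AtlF_mem (hG : G.Ok) (X : G.Atl) (f : G.forms) :
    (fun x => f.1 (X.idx x)) ∈ holForms X.M := by
  refine ⟨fun x => ?_, fun x z hz => ?_, fun x y q hq => ?_⟩
  · rw [X.chartAt_eq, X.target]
    exact f.2.1 _
  · rw [X.chartAt_eq, X.target] at hz
    exact f.2.2.1 _ z hz
  · simp only [X.chartAt_eq] at hq ⊢
    rcases X.trans hG hq.1 hq.2 with h | ⟨κ, h1, h2, h3, h4, h5⟩
    · rw [← h, X.trans_self hG hq.1, mul_one]
    · rw [h5.deriv_eq, h4]
      have := f.2.2.2 κ _ h3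
      rwa [h1, h2] at this

/-- forms of the gluing data as forms on the surface -/
def AtlF_map (hG : G.Ok) (X : G.Atl) : G.forms →ₗ[ℂ] holForms X.M where
  toFun f := ⟨fun x => f.1 (X.idx x), AtlF_mem hG X f⟩
  map_add' _ _ := rfl
  map_smul' _ _ := rfl

theorem AtlF_eq (hG : G.Ok) (X : G.Atl) (F : holForms X.M) {x y : X.M}
    (h : X.idx x = X.idx y) : F.1 x = F.1 y := by
  funext z
  by_cases hz : z ∈ (X.e (X.idx x)).target
  · have h1 := (X.e (X.idx x)).map_target hz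
    have h2 := F.2.2.2 x y ((X.e (X.idx x)).symm z) (by
      simp only [X.chartAt_eq, ← h]
      exact ⟨h1, h1⟩)
    simp only [X.chartAt_eq, ← h] at h2
    rw [X.trans_self hG h1, mul_one, (X.e (X.idx x)).right_inv hz] at h2
    exact h2
  · rw [F.2.2.1 x z hz, F.2.2.1 y z (by rw [X.chartAt_eq, ← h]; exact hz)]

theorem Glue.Atl.genus_eq (hG : G.Ok) (X : G.Atl) : genus X.M = Module.finrank ℂ G.forms := by
  choose x hx using X.surj
  refine (LinearEquiv.ofBijective (AtlF_map hG X) ⟨fun f g h => ?_, fun F => ?_⟩).finrank_eq.symm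
  · refine Subtype.ext (funext fun α => ?_)
    have h1 : f.1 (X.idx (x α)) = g.1 (X.idx (x α)) := congrFun (congrArg Subtype.val h) (x α)
    rwa [hx] at h1
  · refine ⟨⟨fun α => F.1 (x α), fun α => ?_, fun α z hz => ?_, fun κ z hz => ?_⟩, ?_⟩
    · have := F.2.1 (x α)
      rwa [X.chartAt_eq, hx, X.target] at this
    · refine F.2.2.1 (x α) z ?_
      rwa [X.chartAt_eq, hx, X.target]
    · obtain ⟨h1, h2, h3, h4, h5⟩ := X.over hG hz
      have h6 := F.2.2.2 (x (G.ch κ)) (x (G.ch (G.σ κ))) ((X.e (G.ch κ)).symm z) (by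
        simp only [X.chartAt_eq, hx]
        exact ⟨h1, h2⟩)
      simp only [X.chartAt_eq, hx] at h6
      rw [h3, h4, h5] at h6
      exact h6
    · refine Subtype.ext (funext fun y => ?_)
      exact AtlF_eq hG X F (hx _)

end Pool.Agent.MP_4f0ed6_gt

end

section

open Set Laplacian Filter Topology MeasureTheory Metric InnerProductSpace
open scoped ContDiff

namespace Pool.Agent.MP_4f0ed6_gt

section

variable {A K : Type} {G : Glue A K}

theorem AtlR_val (hG : G.Ok) (X : G.Atl) {φ : A → ℂ → ℝ} (hφ : G.Compat φ) {a : A} {z : ℂ}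
    (hz : z ∈ G.W a) :
    φ (X.idx ((X.e a).symm z)) (X.e (X.idx ((X.e a).symm z)) ((X.e a).symm z)) = φ a z := by
  have hz' : z ∈ (X.e a).target := by rwa [X.target]
  have h0 := (X.e a).right_inv hz'
  rcases X.trans hG ((X.e a).map_target hz') (X.mem _) with h | ⟨κ, h1, h2, h3, h4, -⟩
  · rw [← h, h0]
  · rw [h0] at h3 h4
    have := hφ κ z h3
    rw [h1, h2] at this
    rw [h4, this]

variable [Fintype K]

theorem AtlR_gd {ν φ : A → ℂ → ℝ} (hφ : G.Compat φ) (c : ℝ) (a : A) (z : ℂ) :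
    G.gd (fun α z => c * ν α z * φ α z) a z = c * G.gd ν a z * φ a z := by
  rw [Glue.gd_mul hφ (fun α z => c * ν α z), Glue.gd_const_mul]

/-- the metric with density `2 π gd ν` -/
noncomputable def AtlR_g (hG : G.Ok) (X : G.Atl) {ν : A → ℂ → ℝ} (hν : G.CS ∞ ν)
    (hpos : ∀ α, ∀ z ∈ G.W α, 0 < G.gd ν α z) : ConfMetric X.M where
  ρ x z := 2 * Real.pi * G.gd ν (X.idx x) z
  smooth x := by
    rw [X.chartAt_eq, X.target]
    exact contDiffOn_const.mul (Glue.gd_smooth hG hν _)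
  pos x z hz := by
    rw [X.chartAt_eq, X.target] at hz
    exact mul_pos (mul_pos two_pos Real.pi_pos) (hpos _ z hz)
  compat x y q hq := by
    simp only [X.chartAt_eq] at hq ⊢
    rcases X.trans hG hq.1 hq.2 with h | ⟨κ, h1, h2, h3, h4, h5⟩
    · rw [← h, X.trans_self hG hq.1, norm_one, one_pow, mul_one]
    · have := Glue.gd_compat hG ν h3
      rw [h1, h2] at this
      rw [h5.deriv_eq, h4, this, mul_assoc (2 * Real.pi)]

theorem AtlR_up (hG : G.Ok) (X : G.Atl) {ν : A → ℂ → ℝ} (hν : G.CS ∞ ν)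
    (hpos : ∀ α, ∀ z ∈ G.W α, 0 < G.gd ν α z) {φ : A → ℂ → ℝ}
    (hφ : G.GSol φ fun α z => -1 * ν α z * φ α z) :
    IsEigen (AtlR_g hG X hν hpos) 1 fun q => φ (X.idx q) (X.e (X.idx q) q) := by
  intro x
  rw [X.chartAt_eq, X.target]
  have hv : ∀ z ∈ G.W (X.idx x),
      ((fun q => φ (X.idx q) (X.e (X.idx q) q)) ∘ (X.e (X.idx x)).symm) z = φ (X.idx x) z :=
    fun z hz => AtlR_val hG X hφ.compat hz
  refine ⟨(hφ.smooth _).congr hv, fun z hz => ?_⟩
  have h1 := lap_congr (eventually_of_mem ((hG.W_open _).mem_nhds hz) hv)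
  have h2 := (mul_pos (mul_pos two_pos Real.pi_pos) (hpos _ z hz)).ne'
  rw [h1, hφ.lap _ z hz, AtlR_gd hφ.compat]
  beta_reduce
  rw [AtlR_val hG X hφ.compat hz]
  change _ / (2 * Real.pi * G.gd ν (X.idx x) z) = _
  rw [div_eq_iff h2]
  ring

theorem AtlR_down (hG : G.Ok) (X : G.Atl) {ν : A → ℂ → ℝ} (hν : G.CS ∞ ν)
    (hpos : ∀ α, ∀ z ∈ G.W α, 0 < G.gd ν α z) {s : ℝ} {u : X.M → ℝ}
    (hu : IsEigen (AtlR_g hG X hν hpos) s u) :
    G.GSol (fun a => u ∘ (X.e a).symm) fun α z => -s * ν α z * (u ∘ (X.e α).symm) z := by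
  have hc : G.Compat fun a => u ∘ (X.e a).symm := fun κ z hz => congrArg u (X.glue κ z hz)
  refine ⟨fun a => ?_, hc, fun a z hz => ?_⟩
  · obtain ⟨x, rfl⟩ := X.surj a
    have := (hu x).1
    rwa [X.chartAt_eq, X.target] at this
  · obtain ⟨x, rfl⟩ := X.surj a
    have h1 := (hu x).2 z (by rwa [X.chartAt_eq, X.target])
    have h2 := (mul_pos (mul_pos two_pos Real.pi_pos) (hpos _ z hz)).ne'
    rw [X.chartAt_eq] at h1
    change _ / (2 * Real.pi * G.gd ν (X.idx x) z) = _ at h1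
    rw [div_eq_iff h2] at h1
    rw [AtlR_gd hc, Function.comp_apply]
    linarith

end

theorem Glue.realize {A K : Type} [Fintype A] [Fintype K] {G : Glue A K} (hG : G.Ok)
    {ν : A → ℂ → ℝ} (hν : G.CS ∞ ν) (hpos : ∀ α, ∀ z ∈ G.W α, 0 < G.gd ν α z) {k : ℕ}
    (φ : Fin k → A → ℂ → ℝ) (hφ : ∀ i, G.GSol (φ i) fun α z => -1 * ν α z * φ i α z)
    (hind : ∀ c : Fin k → ℝ, (∀ α, ∀ z ∈ G.W α, ∑ i, c i * φ i α z = 0) → c = 0)
    (hgap : ∀ s : ℝ, 0 < s → s < 1 → ∀ f, (G.GSol f fun α z => -s * ν α z * f α z) →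
      ∀ α, ∀ z ∈ G.W α, f α z = 0) :
    Good (Module.finrank ℂ G.forms) k := by
  obtain ⟨X⟩ := hG.exists_atl
  refine ⟨X.M, inferInstance, inferInstance, X.t2 hG, X.compact hG, X.connected hG,
    X.isManifold hG, X.genus_eq hG, AtlR_g hG X hν hpos,
    fun i q => φ i (X.idx q) (X.e (X.idx q) q), fun s h0 h1 u hu => ?_, ?_,
    fun i => AtlR_up hG X hν hpos (hφ i)⟩
  · funext q
    obtain ⟨a, z, hz, rfl⟩ := Atl1_rep X q
    exact hgap s h0 h1 _ (AtlR_down hG X hν hpos hu) a z hz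
  · rw [Fintype.linearIndependent_iff]
    intro c hc
    refine congrFun (hind c fun a z hz => ?_)
    have := congrFun hc ((X.e a).symm z)
    simp only [Finset.sum_apply, Pi.smul_apply, smul_eq_mul, Pi.zero_apply] at this
    rw [← this]
    exact Finset.sum_congr rfl fun i _ => by rw [AtlR_val hG X (hφ i).compat hz]

end Pool.Agent.MP_4f0ed6_gt

end

section

open Set Laplacian Filter Topology MeasureTheory Metric InnerProductSpace
open scoped ContDiff

namespace Pool.Agent.MP_4f0ed6_gt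

theorem SysG_src {V : Type} (s : ℝ) (ν : V × Bool → ℂ → ℝ) (β : V → ℂ → ℝ)
    (φ : V × Bool → ℂ → ℝ) :
    src s ν β (fun _ => 0) φ = fun α z => -s * ν α z * φ α z := by
  funext α z
  simp [src]

theorem SysG_av {V P : Type} [Fintype P] {Q : Plumb V P} {β : V → ℂ → ℝ} {Λ : ℝ} (hQ : Q.Ok)
    (hβ : Q.Bump β Λ) {φ : V × Bool → ℂ → ℝ} (h : ∀ α, ∀ z ∈ Q.W α, φ α z = 0) (v : V) :
    av β φ v = 0 := by
  have : (fun w => β v w * φ (v, false) w) = fun _ => 0 := by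
    funext w
    by_cases hw : β v w = 0
    · simp [hw]
    · rw [h _ w (hQ.bulk_sub_W v (hQ.core_sub_bulk v (hβ.supp v w hw))), mul_zero]
  simp [av, this]

theorem SysG_ed {D : Type} [Fintype D] (c : D → ℝ) (d : D) :
    ∑ d', c d' * ed d' (some (d, true)) = c d := by
  classical
  rw [Finset.sum_eq_single d]
  · simp [ed, sg]
  · intro b _ hb
    simp [ed, hb.symm]
  · simp

theorem SysG_pos {D P : Type} [Fintype D] [Fintype P] (S : Sys D P) {p : D × D → ℝ}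
    (hp : p ∈ cube D) (α : Option (D × Bool) × Bool) (z : ℂ) (hz : z ∈ S.Q.glue.W α) :
    0 < S.Q.glue.gd (tot (S.μ p) S.νt) α z := by
  have e : S.Q.glue.gd (tot (S.μ p) S.νt) α z =
      S.Q.glue.gd (fin (S.μ p)) α z + S.Q.glue.gd S.νt α z := Glue.gd_add _ _ _ _
  rw [e]
  refine add_pos_of_nonneg_of_pos (Glue.gd_nonneg ?_ _ _) (S.νt_pos α z hz)
  rintro ⟨v, _ | _⟩ w
  · exact S.μ_nonneg p hp v w
  · exact le_rfl

theorem Sys.good {D P : Type} [Fintype D] [Fintype P] (S : Sys D P) {k : ℕ} (f : Fin k → D → ℝ)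
    (hf : LinearIndependent ℝ f) (h0 : ∀ i d, ∑ d', S.M0 d d' * f i d' = 0) :
    Good (Module.finrank ℂ S.Q.glue.forms) k := by
  obtain ⟨p, hp, hit⟩ := S.exists_hit
  have H := S.hyp p hp
  choose ψ t hψ hav ht0 ht using id hit
  have hc := fun i => Plumb.gsol_comb H.ok H.bump (f i) hψ
  have htz : ∀ i, (fun v => ∑ d', f i d' * t d' v) = fun _ => 0 := by
    intro i
    funext v
    rcases v with _ | ⟨d, ε⟩
    · simp [ht0]
    · have : ∑ d', f i d' * t d' (some (d, ε)) = -sg ε * ∑ d', S.M0 d d' * f i d' := by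
        rw [Finset.mul_sum]
        exact Finset.sum_congr rfl fun d' _ => by rw [ht]; ring
      rw [this, h0, mul_zero]
  have hφ : ∀ i, S.Q.glue.GSol (fun α z => ∑ d', f i d' * ψ d' α z)
      (src 1 (tot (S.μ p) S.νt) S.β (fun _ => 0) fun α z => ∑ d', f i d' * ψ d' α z) := by
    intro i
    have := (hc i).1
    rwa [htz i] at this
  refine Glue.realize H.ok.glue H.tot_cs (SysG_pos S hp)
    (fun i α z => ∑ d', f i d' * ψ d' α z) (fun i => ?_) (fun c hcz => ?_)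
    (fun s hs0 hs1 g hg => ?_)
  · have := hφ i
    rwa [SysG_src] at this
  · have h1 := (Plumb.gsol_comb H.ok H.bump c hφ).2
    funext i
    refine Fintype.linearIndependent_iff.1 hf c ?_ i
    funext d
    have h2 := h1 (some (d, true))
    rw [SysG_av H.ok H.bump hcz] at h2
    rw [Finset.sum_apply, Pi.zero_apply, h2]
    refine Finset.sum_congr rfl fun j _ => ?_
    rw [(hc j).2]
    simp only [hav, SysG_ed, Pi.smul_apply, smul_eq_mul]
  · refine S.gap hp hit hs0 hs1 ?_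
    rwa [SysG_src]

end Pool.Agent.MP_4f0ed6_gt

end
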