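import Pool.Agent.Mg.F4f0ed6.Gbb96b0
import Pool.Agent.Mg.F4f0ed6.G73b1d3
import Pool.Agent.Mg.F4f0ed6.Gc88739
import Pool.Agent.Mg.F4f0ed6.G62e3c0
import Pool.Agent.MP_4f0ed6_gt.Defs

section

open Set Laplacian Filter Topology MeasureTheory Metric InnerProductSpace
open scoped ContDiff

namespace Pool.Agent.MP_4f0ed6_gt

theorem OddR_even {β : ℂ → ℝ} (hβ : ∀ w, β (-w) = β w) (w : ℂ) : ∫ z, kk w z * β z = 0 := by
  have h1 := integral_neg_eq_self (fun z => kk w z * β z) volume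
  simp only [kk_neg, hβ, neg_mul, integral_neg] at h1
  linarith

theorem OddR_odd {μ φ : ℂ → ℝ} (hμ : ∀ w, μ (-w) = μ w) (hm : Continuous μ)
    (hc : HasCompactSupport μ) (hφ : Continuous φ) (w : ℂ) :
    ∫ z, kk w z * (μ z * ((φ z - φ (-z)) / 2)) = ∫ z, kk w z * (μ z * φ z) := by
  have h1 := integral_neg_eq_self (fun z => kk w z * (μ z * φ z)) volume
  simp only [kk_neg, hμ, neg_mul, integral_neg] at h1
  have hφ' : Continuous fun z => φ (-z) := hφ.comp continuous_neg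
  have i1 : Integrable fun z => kk w z * (μ z * φ z) :=
    integrable_kk (g := fun z => μ z * φ z) (hm.mul hφ) hc.mul_right w
  have i2 : Integrable fun z => kk w z * (μ z * φ (-z)) :=
    integrable_kk (g := fun z => μ z * φ (-z)) (hm.mul hφ') hc.mul_right w
  have e : (fun z => kk w z * (μ z * ((φ z - φ (-z)) / 2))) =
      fun z => 1 / 2 * (kk w z * (μ z * φ z)) - 1 / 2 * (kk w z * (μ z * φ (-z))) := by
    funext z; ring
  rw [e, integral_sub (i1.const_mul _) (i2.const_mul _), integral_const_mul, integral_const_mul]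
  linarith

theorem OddR_np {β μ φ : ℂ → ℝ} (hβ : ∀ w, β (-w) = β w) (hμ : ∀ w, μ (-w) = μ w)
    (hb : Continuous β) (hbc : HasCompactSupport β) (hm : Continuous μ)
    (hc : HasCompactSupport μ) (hφ : Continuous φ) (s t : ℝ) (w : ℂ) :
    NP (fun z => -s * μ z * φ z + t * β z) w - NP (fun z => -s * μ z * φ z + t * β z) (-w) =
      -s * ∫ z, kk w z * (μ z * ((φ z - φ (-z)) / 2)) := by
  have i1 : Integrable fun z => kk w z * (μ z * φ z) :=
    integrable_kk (g := fun z => μ z * φ z) (hm.mul hφ) hc.mul_right w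
  have i2 : Integrable fun z => kk w z * β z := integrable_kk hb hbc w
  have c1 : Continuous fun z => -s * μ z * φ z + t * β z := by fun_prop
  have h1 : HasCompactSupport fun z => -s * μ z * φ z :=
    HasCompactSupport.mul_right (f := fun z => -s * μ z) (f' := φ)
      (HasCompactSupport.mul_left (f := fun _ => -s) (f' := μ) hc)
  have h2 : HasCompactSupport fun z => t * β z :=
    HasCompactSupport.mul_left (f := fun _ => t) (f' := β) hbc
  have h3 : HasCompactSupport fun z => -s * μ z * φ z + t * β z := h1.add h2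
  rw [← integral_kk c1 h3, OddR_odd hμ hm hc hφ]
  have e : (fun z => kk w z * (-s * μ z * φ z + t * β z)) =
      fun z => -s * (kk w z * (μ z * φ z)) + t * (kk w z * β z) := by
    funext z; ring
  rw [e, integral_add (i1.const_mul _) (i2.const_mul _), integral_const_mul, integral_const_mul,
    OddR_even hβ]
  ring

theorem OddR_sum {P : Type} (S : Finset P) (b : P → ℝ) (c : P → ℂ) (w : ℂ) :
    ∑ π ∈ S, b π * kk w (c π) =
      ∑ π ∈ S, b π * Real.log ‖w - c π‖ - ∑ π ∈ S, b π * Real.log ‖-w - c π‖ := by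
  rw [← Finset.sum_sub_distrib]
  refine Finset.sum_congr rfl fun π _ => ?_
  rw [kk, ← norm_neg (-w - c π), neg_sub, sub_neg_eq_add, add_comm (c π) w]
  ring

theorem OddR_log {σ Λ x : ℝ} (hσ : 0 < σ) (hΛ : |Real.log σ| ≤ Λ) (hx : x = 0 ∨ σ ≤ x)
    (hx1 : x ≤ 1) : |Real.log x| ≤ Λ := by
  rcases hx with rfl | hx
  · simpa using (abs_nonneg _).trans hΛ
  · have h1 := Real.log_le_log hσ hx
    have h2 := Real.log_nonpos (hσ.le.trans hx) hx1
    have h3 := neg_abs_le (Real.log σ)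
    rw [abs_of_nonpos h2]
    linarith

theorem OddR_kk {σ Λ : ℝ} {w c : ℂ} (hσ : 0 < σ) (hΛ : |Real.log σ| ≤ Λ) (hw : ‖w‖ ≤ 1 / 4)
    (hc : ‖c‖ ≤ 1 / 4) (h1 : ‖w - c‖ = 0 ∨ σ ≤ ‖w - c‖) (h2 : ‖-w - c‖ = 0 ∨ σ ≤ ‖-w - c‖) :
    |kk w c| ≤ 2 * Λ := by
  have e : ‖-w - c‖ = ‖w + c‖ := by
    rw [← norm_neg (-w - c), neg_sub, sub_neg_eq_add, add_comm]
  rw [e] at h2
  have a1 := OddR_log hσ hΛ h1 (by linarith [norm_sub_le w c])
  have a2 := OddR_log hσ hΛ h2 (by linarith [norm_add_le w c])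
  have a3 := abs_sub (Real.log ‖w - c‖) (Real.log ‖w + c‖)
  rw [kk]
  linarith

namespace Plumb

variable {V P : Type} [Fintype P] {Q : Plumb V P} {β μ : V → ℂ → ℝ} {Λ s κ N : ℝ} {m u : V → ℝ}

theorem Rep.odd_rep (hE : Q.Est β μ Λ m) (ρ : Q.Rep β μ s κ N u) {v : V}
    (hβ : ∀ w, β v (-w) = β v w) (hμ : ∀ w, μ v (-w) = μ v w) {w : ℂ} (hw : w ∈ Q.bulk v)
    (hw' : -w ∈ Q.bulk v) :
    |(ρ.φ v w - ρ.φ v (-w)) / 2 - (1 / 2 * ∑ π ∈ Q.pts v, ρ.b π * kk w (Q.c π) -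
      s / 2 * ∫ z, kk w z * (μ v z * ((ρ.φ v z - ρ.φ v (-z)) / 2)))| ≤ κ * N := by
  have h1 := abs_le.mp (ρ.rep v w hw)
  have h2 := abs_le.mp (ρ.rep v (-w) hw')
  have h3 := OddR_np hβ hμ (hE.bump.pb v).cont (hE.bump.pb v).hcs (hE.μ_pb v).cont
    (hE.μ_pb v).hcs (ρ.cont v) s (ρ.t v) w
  rw [OddR_sum, abs_le]
  constructor <;> linarith [h1.1, h1.2, h2.1, h2.2]

theorem Rep.odd_repR (hE : Q.Est β μ Λ m) (ρ : Q.Rep β μ s κ N u) {v : V}
    (hβ : ∀ w, β v (-w) = β v w) (hμ : ∀ w, μ v (-w) = μ v w) {π₁ π₂ : P} (h1 : Q.pc π₁ = v)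
    (h2 : Q.pc π₂ = v) (hc : Q.c π₂ = -Q.c π₁) :
    |(ρ.R π₁ - ρ.R π₂) / 2 - (1 / 2 * ∑ π ∈ Q.pts v, ρ.b π * kk (Q.c π₁) (Q.c π) -
      s / 2 * ∫ z, kk (Q.c π₁) z * (μ v z * ((ρ.φ v z - ρ.φ v (-z)) / 2)))| ≤ κ * N := by
  have k1 := abs_le.mp (ρ.repR π₁)
  have k2 := abs_le.mp (ρ.repR π₂)
  rw [h1] at k1
  rw [h2, hc] at k2
  have h3 := OddR_np hβ hμ (hE.bump.pb v).cont (hE.bump.pb v).hcs (hE.μ_pb v).cont
    (hE.μ_pb v).hcs (ρ.cont v) s (ρ.t v) (Q.c π₁)
  rw [OddR_sum, abs_le]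
  constructor <;> linarith [k1.1, k1.2, k2.1, k2.2]

theorem Bump.kk_core (hQ : Q.Ok) (hβ : Q.Bump β Λ) {v : V} {w : ℂ} (hw : w ∈ Q.core v)
    (hw' : -w ∈ Q.core v) {π : P} (hπ : Q.pc π = v) : |kk w (Q.c π)| ≤ 2 * Λ := by
  exact OddR_kk hQ.sep_pos hβ.log_le hw.1 (hQ.c_le π) (Or.inr (hw.2 π hπ)) (Or.inr (hw'.2 π hπ))

theorem Bump.kk_port (hQ : Q.Ok) (hβ : Q.Bump β Λ) {π π₁ π₂ : P} (h1 : Q.pc π₁ = Q.pc π)
    (h2 : Q.pc π₂ = Q.pc π) (hc : Q.c π₂ = -Q.c π₁) : |kk (Q.c π₁) (Q.c π)| ≤ 2 * Λ := by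
  refine OddR_kk hQ.sep_pos hβ.log_le (hQ.c_le π₁) (hQ.c_le π) ?_ ?_
  · by_cases h : π₁ = π
    · left; simp [h]
    · exact Or.inr (hQ.c_sep _ _ h h1)
  · rw [← hc]
    by_cases h : π₂ = π
    · left; simp [h]
    · exact Or.inr (hQ.c_sep _ _ h h2)

end Plumb

end Pool.Agent.MP_4f0ed6_gt

end

section

open Set Laplacian Filter Topology MeasureTheory Metric InnerProductSpace
open scoped ContDiff

namespace Pool.Agent.MP_4f0ed6_gt

theorem RY_tri {X T1 T2 T3 T4 T5 a b c : ℝ} (h1 : |X - (T1 - T3)| ≤ a) (h2 : |T1 + T2| ≤ b)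
    (h3 : |(T2 + T3) - (T4 + T5)| ≤ c) : |X + T4 + T5| ≤ a + b + c := by
  rw [abs_le] at h1 h2 h3 ⊢
  constructor <;> linarith [h1.1, h1.2, h2.1, h2.2, h3.1, h3.2]

theorem RY_fin {X K T J a b : ℝ} (h1 : |X + K + T| ≤ a) (h2 : |T + J| ≤ b) :
    |X + K - J| ≤ a + b := by
  rw [abs_le] at h1 h2 ⊢
  constructor <;> linarith [h1.1, h1.2, h2.1, h2.2]

open Classical in
theorem RY_sum {h nT nx : ℕ} (S : Fx h nT nx) (η : ℝ) (d' : DD h) (w : ℂ) :
    ∑ i : Fin h × DD h, (if pre i.1 d' = i.2 then S.aj η i.1 else 0) *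
      kk w (S.rho η (S.ix i) * S.yy i.1 d') = ∑ j, S.aj η j * kk w (S.cY η j d') := by
  rw [Fintype.sum_prod_type]
  refine Finset.sum_congr rfl fun j _ => ?_
  rw [Finset.sum_eq_single (pre j d')]
  · simp [Fx.cY]
  · intro e _ he
    simp [Ne.symm he]
  · simp

theorem RY_zeta {η aa ϖ Cy Cb A n : ℝ} (h0 : 0 < η) (h1 : η ≤ 1) (ha0 : 0 ≤ aa) (ha1 : aa ≤ 1)
    (ha : aa ≤ ϖ) (hCb : 0 ≤ Cb) (hA : 0 ≤ A) (hn : 0 ≤ n) :
    aa ^ 3 * 1 + Cy * (ϖ * aa) + (8 * ϖ * n * aa + 52 * ϖ * η ^ 4 * n * A * (Cb * (aa / η))) ≤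
      (1 + Cy + 8 * n + 52 * n * A * Cb) * (ϖ * aa) := by
  have hϖ : 0 ≤ ϖ := ha0.trans ha
  have e1 : aa ^ 3 ≤ ϖ * aa := by
    have : aa * aa ≤ ϖ := by nlinarith
    calc aa ^ 3 = aa * aa * aa := by ring
      _ ≤ ϖ * aa := mul_le_mul_of_nonneg_right this ha0
  have e2 : 52 * ϖ * η ^ 4 * n * A * (Cb * (aa / η)) = η ^ 3 * (52 * n * A * Cb * (ϖ * aa)) := by
    field_simp
  have e3 : η ^ 3 * (52 * n * A * Cb * (ϖ * aa)) ≤ 52 * n * A * Cb * (ϖ * aa) :=
    mul_le_of_le_one_left (by positivity) (pow_le_one₀ h0.le h1)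
  rw [e2]
  nlinarith

open Classical in
theorem Fx.Ok.ry {h nT nx : ℕ} {S : Fx h nT nx} (hS : S.Ok) : ∃ C : ℝ, 0 ≤ C ∧
    ∀ᶠ η : ℝ in 𝓝[>] 0, ∀ p ∈ cube (DD h), ∀ d d', d ≠ d' →
    ∀ (ρ : S.Rp η p 1 1 (ed d')) (j : Fin h) (α : ℝ),
      α = (if pre j d' = pre j d then S.aj η j else 0) →
      |(ρ.R (.inl ((d, true), j, true)) - ρ.R (.inl ((d, false), j, true))) / 2 +
        α * kk (S.yy j d) (S.yy j d') -
        η ^ 4 / 2 * α * ∫ u, kk (S.yy j d) u * kk u (S.yy j d') * S.nu p u| ≤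
        C * (η ^ 7 * α + η ^ (6 * h) * S.aa η) := by
  obtain ⟨Cy, hCy, hy⟩ := hS.ysum
  obtain ⟨Cb, hCb, hb⟩ := hS.bnd
  have hA0 : 0 ≤ S.A := zero_le_one.trans hS.ctl.one_le
  set n : ℝ := (Fintype.card (Fin h × DD h) : ℝ) with hn
  have hn0 : 0 ≤ n := by positivity
  set C1 : ℝ := 1 + Cy + 8 * n + 52 * n * S.A * Cb with hC1
  have hC10 : 0 ≤ C1 := by positivity
  refine ⟨52 * S.A + 2 * C1, by positivity, ?_⟩
  filter_upwards [hy, hb, hS.est, hS.shell_pb, ev_small (c := 1 / 4) (by norm_num),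
    ev_pow (26 * S.A) (a := 4) (b := 0) (by norm_num)] with η hy hb hE hpb hη hMA p hp d d' hne ρ j
    α hα
  obtain ⟨h0, h4⟩ := hη
  have h1 : η ≤ 1 := by linarith
  have hE := hE p hp
  have hQ := hE.ok
  have hϖ0 : 0 ≤ η ^ (6 * h) := by positivity
  have hϖ : η ^ (6 * h) ≤ 1 / 4 := by
    have hh := hS.h_pos
    calc η ^ (6 * h) ≤ η ^ 1 := pow_le_pow_of_le_one h0.le h1 (by omega)
      _ ≤ 1 / 4 := by simpa using h4
  have haa0 : 0 ≤ S.aa η := by unfold Fx.aa; positivity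
  have haaϖ : S.aa η ≤ η ^ (6 * h) := pow_le_pow_of_le_one h0.le h1 (by omega)
  have haa1 : S.aa η ≤ 1 := by linarith
  have hν : Continuous (S.nu p) := (hS.ctl.smooth p).continuous
  have hs := hS.ctl.supp p
  have hA : ∀ u, |S.nu p u| ≤ S.A := fun u => by
    rw [abs_of_nonneg (hS.ctl.nonneg p hp u)]
    exact hS.ctl.le p hp u
  set F : ℂ → ℝ := fun z => (ρ.φ none z - ρ.φ none (-z)) / 2 with hF
  have hFc : Continuous F := ((ρ.cont none).sub ((ρ.cont none).comp continuous_neg)).div_const 2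
  have hcore : ∀ (i : Fin h × DD h) (u : ℂ), S.nu p u ≠ 0 →
      (S.rho η (S.ix i) : ℂ) * u ∈ (S.Q η).core none ∧
        -((S.rho η (S.ix i) : ℂ) * u) ∈ (S.Q η).core none := fun i u hu =>
    ⟨hS.shell_core h0 h1 i hu, (S.sym hS η).core (hS.shell_core h0 h1 i hu)⟩
  have hbn := (hb p hp 1 ⟨zero_le_one, le_rfl⟩ 1 (ed d') (abs_ed_le d') ρ).2.2.1
  have hFE : ∀ (i : Fin h × DD h) (u : ℂ), S.nu p u ≠ 0 →
      |F (S.rho η (S.ix i) * u)| ≤ Cb * (S.aa η / η) := fun i u hu => by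
    have e1 := hbn _ (hcore i u hu).1
    have e2 := hbn _ (hcore i u hu).2
    have e0 : ed d' (none : Option (DD h × Bool)) = 0 := rfl
    rw [e0] at e1 e2
    simp only [sub_zero, abs_zero, mul_zero, add_zero, mul_one] at e1 e2
    rw [abs_le] at e1 e2 ⊢
    simp only [hF]
    constructor <;> linarith [e1.1, e1.2, e2.1, e2.2]
  have hβs : ∀ w, S.β η none (-w) = S.β η none w := fun w => hS.β_sym η none w
  have hμs : ∀ w, S.μ η p none (-w) = S.μ η p none w := fun w => hS.μ_sym η p none w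
  have key : ∀ (i : Fin h × DD h) (w : ℂ), (1 ≤ ‖w‖ ∧ ‖w‖ ≤ 2) → ∀ X : ℝ,
      (∀ π, S.pc π = none → |kk (S.rho η (S.ix i) * w) (S.c η π)| ≤ 2 * η⁻¹) →
      |X - (1 / 2 * ∑ π ∈ (S.Q η).pts none, ρ.b π * kk (S.rho η (S.ix i) * w) (S.c η π) -
        1 / 2 * ∫ z, kk (S.rho η (S.ix i) * w) z * (S.μ η p none z * F z))| ≤ S.aa η ^ 3 * 1 →
      |X + (if pre i.1 d' = i.2 then S.aj η i.1 else 0) *
          kk (S.rho η (S.ix i) * w) (S.rho η (S.ix i) * S.yy i.1 d') +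
        η ^ 4 / 2 * ∫ z, kk (S.rho η (S.ix i) * w) z * (scl (S.rho η (S.ix i)) (S.nu p) z * F z)| ≤
        C1 * (η ^ (6 * h) * S.aa η) := by
    intro i w hw X hk hX
    have e2 := hy p hp d' ρ _ hk
    have e3 := shell_loc (I := Fin h × DD h) (ρ := fun i => S.rho η (S.ix i))
      (α := fun i => if pre i.1 d' = i.2 then S.aj η i.1 else 0) (y := fun i => S.yy i.1 d')
      (ν := S.nu p) (F := F) (ϖ := η ^ (6 * h)) (A := S.A) (M := η ^ 4) (a := S.aa η)
      (E := Cb * (S.aa η / η)) (fun i => Fx.rho_mem h0 h1 _)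
      (fun i i' hii => by
        rcases lt_or_gt_of_ne (hS.ix_inj.ne hii) with hl | hl
        · exact Or.inr (Fx.rho_lt h0 h1 hl)
        · exact Or.inl (Fx.rho_lt h0 h1 hl))
      hϖ0 hϖ hν (fun u hu => (hs u hu).2.2) hA (by positivity)
      (fun i => by
        split_ifs
        · rw [abs_of_pos (S.aj_pos h0 _)]
          exact S.aj_le h0 h1 _
        · simpa using haa0)
      (fun i => ⟨(hS.yy_ax _ _).1, (hS.yy_ax _ _).2.1⟩) hFc (by positivity) hFE i hw
    rw [RY_sum] at e3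
    exact (RY_tri hX e2 e3).trans (RY_zeta h0 h1 haa0 haa1 haaϖ hCb hA0 hn0)
  have hα0 : 0 ≤ α := by
    rw [hα]
    split_ifs
    · exact (S.aj_pos h0 _).le
    · exact le_rfl
  have hr := Fx.rho_mem (S := S) h0 h1 (S.ix (j, pre j d))
  have hin := shell_in (ν := S.nu p) (F := F) (A := S.A) (Λ := η⁻¹) (M := η ^ 4)
    (r := S.rho η (S.ix (j, pre j d))) (c := α) (ζ := C1 * (η ^ (6 * h) * S.aa η))
    (y₀ := S.yy j d) (y₁ := S.yy j d') hr hν hs hA (hpb p hp _) (by positivity)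
    (by
      have e : 2 * η ^ 4 * η⁻¹ = 2 * η ^ 3 := by field_simp
      have e' : η ^ 3 ≤ η ^ 1 := pow_le_pow_of_le_one h0.le h1 (by omega)
      rw [e]
      linarith [pow_one η])
    (by linarith [pow_zero η]) (hS.yy_ax _ _) (hS.yy_ax _ _) hFc
    (fun u hu => by
      have hc := hcore (j, pre j d) u hu
      have e := key (j, pre j d) u (hs u hu).2.2 _
        (fun π hπ => hE.bump.kk_core hQ hc.1 hc.2 hπ)
        (ρ.odd_rep hE hβs hμs (hQ.core_sub_bulk _ hc.1) (hQ.core_sub_bulk _ hc.2))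
      rw [hα]
      exact e)
    (by positivity)
  have hc1 : (S.Q η).c (.inl ((d, true), j, true)) = S.rho η (S.ix (j, pre j d)) * S.yy j d := by
    show ((sg true : ℝ) : ℂ) * S.cY η j d = _
    simp [sg, Fx.cY]
  have hc2 : (S.Q η).c (.inl ((d, false), j, true)) = -(S.Q η).c (.inl ((d, true), j, true)) := by
    show ((sg false : ℝ) : ℂ) * S.cY η j d = -(((sg true : ℝ) : ℂ) * S.cY η j d)
    simp [sg]
  have hR := ρ.odd_repR hE hβs hμs (π₁ := .inl ((d, true), j, true))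
    (π₂ := .inl ((d, false), j, true)) rfl rfl hc2
  have hkp : ∀ π, S.pc π = none →
      |kk ((S.Q η).c (.inl ((d, true), j, true))) (S.c η π)| ≤ 2 * η⁻¹ := fun π hπ =>
    hE.bump.kk_port hQ (π := π) (π₁ := .inl ((d, true), j, true))
      (π₂ := .inl ((d, false), j, true)) hπ.symm hπ.symm hc2
  rw [hc1] at hR hkp
  have e := key (j, pre j d) (S.yy j d) ⟨(hS.yy_ax _ _).1, (hS.yy_ax _ _).2.1⟩ _ hkp hR
  have hyy := hS.yy_ne j hne
  rw [← hα, kk_smul hr.1 (norm_pos_iff.mp (hS.g0_pos.trans_le hyy.1))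
    (norm_pos_iff.mp (hS.g0_pos.trans_le hyy.2))] at e
  refine (RY_fin e hin).trans ?_
  have e7 : 52 * (η ^ 4) ^ 2 * η⁻¹ * S.A * |α| = 52 * S.A * (η ^ 7 * α) := by
    rw [abs_of_nonneg hα0]
    field_simp
  rw [e7]
  have p1 : 0 ≤ η ^ 7 * α := by positivity
  have p2 : 0 ≤ η ^ (6 * h) * S.aa η := by positivity
  nlinarith [mul_nonneg hC10 p1, mul_nonneg hA0 p2]

end Pool.Agent.MP_4f0ed6_gt

end

section

open Set Laplacian Filter Topology MeasureTheory Metric InnerProductSpace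
open scoped ContDiff

namespace Pool.Agent.MP_4f0ed6_gt

theorem Off_log {g : ℝ} (hg : 0 < g) {a : ℝ} (h1 : g ≤ a) (h2 : a ≤ 4) :
    Real.log g ≤ Real.log a ∧ Real.log a ≤ 3 :=
  ⟨Real.log_le_log hg h1, by linarith [Real.log_le_sub_one_of_pos (hg.trans_le h1)]⟩

theorem Off_kk {h nT nx : ℕ} {S : Fx h nT nx} (hS : S.Ok) (j : Fin h) {d d' : DD h}
    (hne : d ≠ d') : |kk (S.yy j d) (S.yy j d')| ≤ 3 - Real.log S.g0 := by
  have a := (hS.yy_ax j d).2.1
  have b := (hS.yy_ax j d').2.1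
  obtain ⟨c1, c2⟩ := hS.yy_ne j hne
  have e1 := Off_log hS.g0_pos c1 ((norm_sub_le _ _).trans (by linarith))
  have e2 := Off_log hS.g0_pos c2 ((norm_add_le _ _).trans (by linarith))
  unfold kk
  rw [abs_le]
  constructor <;> linarith [e1.1, e1.2, e2.1, e2.2]

/-- the estimate of one term away from the separating level -/
theorem Off_term {r k I α a1 aa η K A C E w : ℝ} (h0 : 0 < η) (h1 : η ≤ 1) (hα : 0 ≤ α)
    (ha : 0 ≤ a1) (haa : a1 ≤ aa) (hC : 0 ≤ C) (hw : 0 ≤ w) (hk : |k| ≤ K) (hI : |I| ≤ 52 * A)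
    (hE1 : a1 * α ≤ E) (hE2 : w * aa ^ 2 ≤ E)
    (h : |r + α * k - η ^ 4 / 2 * α * I| ≤ C * (η ^ 7 * α + w * aa)) :
    |a1 * r| ≤ (K + 26 * A + 2 * C) * E := by
  have p4 : η ^ 4 ≤ 1 := pow_le_one₀ h0.le h1
  have p7 : η ^ 7 ≤ 1 := pow_le_one₀ h0.le h1
  have hK : 0 ≤ K := (abs_nonneg _).trans hk
  have hA : 0 ≤ A := by linarith [abs_nonneg I]
  have b1 : |α * k| ≤ α * K := by
    rw [abs_mul, abs_of_nonneg hα]
    exact mul_le_mul_of_nonneg_left hk hα
  have b2 : |η ^ 4 / 2 * α * I| ≤ α * (26 * A) := by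
    rw [abs_mul, abs_of_nonneg (by positivity : 0 ≤ η ^ 4 / 2 * α)]
    calc η ^ 4 / 2 * α * |I| ≤ 1 / 2 * α * (52 * A) := by gcongr
      _ = α * (26 * A) := by ring
  have b3 : C * (η ^ 7 * α + w * aa) ≤ C * (α + w * aa) := by
    have : η ^ 7 * α ≤ 1 * α := mul_le_mul_of_nonneg_right p7 hα
    exact mul_le_mul_of_nonneg_left (by linarith) hC
  have b4 : |r| ≤ α * (K + 26 * A + C) + C * (w * aa) := by
    have := abs_le.1 h
    have := abs_le.1 b1
    have := abs_le.1 b2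
    rw [abs_le]
    constructor <;> nlinarith
  have haa0 : 0 ≤ aa := ha.trans haa
  have b5 : a1 * (w * aa) ≤ E :=
    calc a1 * (w * aa) ≤ aa * (w * aa) := by gcongr
      _ = w * aa ^ 2 := by ring
      _ ≤ E := hE2
  rw [abs_mul, abs_of_nonneg ha]
  calc a1 * |r| ≤ a1 * (α * (K + 26 * A + C) + C * (w * aa)) := by gcongr
    _ = (K + 26 * A + C) * (a1 * α) + C * (a1 * (w * aa)) := by ring
    _ ≤ (K + 26 * A + C) * E + C * E := by gcongr
    _ = _ := by ring

/-- the estimate of the term at the separating level -/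
theorem Off_main {r q a aa η C w : ℝ} (h0 : 0 < η) (h1 : η ≤ 1) (ha : 0 ≤ a) (haa : a ≤ aa)
    (hC : 0 ≤ C) (hw : 0 ≤ w) (hE : w * aa ^ 2 ≤ η ^ 6 * a ^ 2)
    (h : |r + a * 0 - η ^ 4 / 2 * a * (2 * q)| ≤ C * (η ^ 7 * a + w * aa)) :
    |a * r - η ^ 4 * a ^ 2 * q| ≤ 2 * C * (η ^ 6 * a ^ 2) := by
  have haa0 : 0 ≤ aa := ha.trans haa
  have p7 : η ^ 7 ≤ η ^ 6 := pow_le_pow_of_le_one h0.le h1 (by norm_num)
  rw [show a * r - η ^ 4 * a ^ 2 * q = a * (r + a * 0 - η ^ 4 / 2 * a * (2 * q)) by ring,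
    abs_mul, abs_of_nonneg ha]
  calc a * |r + a * 0 - η ^ 4 / 2 * a * (2 * q)| ≤ a * (C * (η ^ 7 * a + w * aa)) := by gcongr
    _ = C * (η ^ 7 * a ^ 2) + C * (a * (w * aa)) := by ring
    _ ≤ C * (η ^ 6 * a ^ 2) + C * (aa * (w * aa)) := by gcongr
    _ = C * (η ^ 6 * a ^ 2) + C * (w * aa ^ 2) := by ring
    _ ≤ C * (η ^ 6 * a ^ 2) + C * (η ^ 6 * a ^ 2) := by gcongr
    _ = _ := by ring

theorem Fx.Ok.off {h nT nx : ℕ} {S : Fx h nT nx} (hS : S.Ok) :
    ∀ᶠ η : ℝ in 𝓝[>] 0, ∀ p ∈ cube (DD h), ∀ j d d', Ori j d d' →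
    ∀ ρ : S.Rp η p 1 1 (ed d'), |(ρ.t (some (d, true)) - ρ.t (some (d, false))) / 2 +
      S.am η * S.M1 d d' - η ^ 4 * S.aj η j ^ 2 * p (d, d')| ≤ η ^ 4 * S.aj η j ^ 2 := by
  classical
  obtain ⟨C, hC, hry⟩ := hS.ry
  obtain ⟨C2, hC2, hsec⟩ := hS.second
  set K : ℝ := 3 - Real.log S.g0 with hKdef
  have hK : 0 ≤ K := by linarith [Real.log_nonpos hS.g0_pos.le hS.g0_le]
  have hA : 0 ≤ S.A := by linarith [hS.ctl.one_le]
  set B : ℝ := K + 26 * S.A + 2 * C with hB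
  filter_upwards [hry, hsec, ev_small one_pos, ev_pow (C2 + h * B) (show 4 < 6 by norm_num)]
    with η hry hsec hη hpow p hp j d d' ho ρ
  obtain ⟨h0, h1⟩ := hη
  have hne : d ≠ d' := by
    rintro rfl
    exact absurd (ho.2.1.symm.trans ho.2.2) (by simp)
  have hw : 0 ≤ η ^ (6 * h) := by positivity
  have hE := S.aj_ge h0 h1 j
  have haj := fun j => (S.aj_pos h0 j).le
  set E : ℝ := η ^ 6 * S.aj η j ^ 2 with hEdef
  have hE0 : 0 ≤ E := by positivity
  set r : Fin h → ℝ := fun j1 =>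
    (ρ.R (.inl ((d, true), j1, true)) - ρ.R (.inl ((d, false), j1, true))) / 2 with hr
  have hterm : ∀ j1, |S.aj η j1 * r j1 -
      if j1 = j then η ^ 4 * S.aj η j ^ 2 * p (d, d') else 0| ≤ B * E := by
    intro j1
    have hI := int_kk_le (hS.yy_ax j1 d) (hS.yy_ax j1 d') (hS.ctl.supp p) (A := S.A) fun u => by
      rw [abs_of_nonneg (hS.ctl.nonneg p hp u)]
      exact hS.ctl.le p hp u
    have hk := Off_kk hS j1 hne
    rcases lt_trichotomy j1 j with hj | rfl | hj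
    · rw [if_neg hj.ne, sub_zero]
      have hl := S.aj_lt h0 h1 hj
      have hsq : S.aj η j1 * S.aj η j1 ≤ E :=
        calc S.aj η j1 * S.aj η j1 ≤ (η ^ 3 * S.aj η j) * (η ^ 3 * S.aj η j) :=
              mul_self_le_mul_self (haj j1) hl
          _ = E := by rw [hEdef]; ring
      refine Off_term h0 h1 ?_ (haj j1) (S.aj_le h0 h1 j1) hC hw hk hI ?_ hE
        (hry p hp d d' hne ρ j1 _ rfl)
      · split_ifs
        · exact haj j1
        · exact le_rfl
      · split_ifs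
        · exact hsq
        · simpa using hE0
    · rw [if_pos rfl]
      have h2 := hry p hp d d' hne ρ j1 (S.aj η j1) (by rw [if_pos ho.1.symm])
      have y1 : S.yy j1 d = (S.x d : ℂ) := by simp [Fx.yy, ho.2.1]
      have y2 : S.yy j1 d' = (S.x d' : ℂ) * Complex.I := by simp [Fx.yy, ho.2.2]
      rw [y1, y2, kk_perp, hS.ctl.dual] at h2
      refine (Off_main h0 h1 (haj j1) (S.aj_le h0 h1 j1) hC hw hE h2).trans ?_
      exact mul_le_mul_of_nonneg_right (by linarith) hE0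
    · rw [if_neg hj.ne', sub_zero]
      exact Off_term h0 h1 le_rfl (haj j1) (S.aj_le h0 h1 j1) hC hw hk hI (by simpa using hE0) hE
        (hry p hp d d' hne ρ j1 0 (by rw [if_neg (ho.pre_ne hj)]))
  have hsum : |∑ j1, S.aj η j1 * r j1 - η ^ 4 * S.aj η j ^ 2 * p (d, d')| ≤ h * (B * E) := by
    have e : ∑ j1, S.aj η j1 * r j1 - η ^ 4 * S.aj η j ^ 2 * p (d, d') = ∑ j1, (S.aj η j1 * r j1 -
        if j1 = j then η ^ 4 * S.aj η j ^ 2 * p (d, d') else 0) := by
      rw [Finset.sum_sub_distrib, Finset.sum_ite_eq']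
      simp
    rw [e]
    refine (Finset.abs_sum_le_sum_abs _ _).trans ((Finset.sum_le_sum fun j1 _ => hterm j1).trans ?_)
    simp
  have s1 := hsec p hp d' ρ (d, true) hne
  have s2 := hsec p hp d' ρ (d, false) hne
  have hl : Lap S.Pm (fun v => ed d' (some v)) (d, false) =
      -Lap S.Pm (fun v => ed d' (some v)) (d, true) :=
    Lap_flp hS.graph.comm (fun v => ed_iV d' (some v)) (d, true)
  have hM : S.M1 d d' = Lap S.Pm (fun v => ed d' (some v)) (d, true) := by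
    simp [Fx.M1, hne]
  have hs : ∑ j1, S.aj η j1 * r j1 = (∑ j1, S.aj η j1 * ρ.R (.inl ((d, true), j1, true)) -
      ∑ j1, S.aj η j1 * ρ.R (.inl ((d, false), j1, true))) / 2 := by
    rw [← Finset.sum_sub_distrib, Finset.sum_div]
    exact Finset.sum_congr rfl fun j1 _ => by simp only [hr]; ring
  have hC2E : C2 * (η ^ (6 * h) * S.aa η ^ 2) ≤ C2 * E := mul_le_mul_of_nonneg_left hE hC2
  have hfin : C2 * E + h * (B * E) ≤ η ^ 4 * S.aj η j ^ 2 :=
    calc C2 * E + h * (B * E) = (C2 + h * B) * η ^ 6 * S.aj η j ^ 2 := by rw [hEdef]; ring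
      _ ≤ _ := mul_le_mul_of_nonneg_right hpow (sq_nonneg _)
  rw [hl] at s2
  rw [hs] at hsum
  rw [hM]
  have := abs_le.1 hsum
  rw [abs_le]
  constructor <;> linarith [this.1, this.2, (abs_le.1 s1).1, (abs_le.1 s1).2, (abs_le.1 s2).1,
    (abs_le.1 s2).2]

end Pool.Agent.MP_4f0ed6_gt

end

section

open Set Laplacian Filter Topology MeasureTheory Metric InnerProductSpace
open scoped ContDiff

namespace Pool.Agent.MP_4f0ed6_gt

theorem mkSys_ev (C : ℝ) : ∀ᶠ η : ℝ in 𝓝[>] 0, C * η ≤ 1 := by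
  have := ev_pow C (a := 1) (b := 0) (by norm_num)
  simpa using this

namespace Fx

variable {h nT nx : ℕ} {S : Fx h nT nx}

theorem mkSys_aa_pos {η : ℝ} (h0 : 0 < η) : 0 < S.aa η := pow_pos h0 _

theorem mkSys_aa_le (hS : S.Ok) {η : ℝ} (h0 : 0 < η) (h1 : η ≤ 1) :
    S.aa η ≤ η ^ 4 ∧ S.aa η ≤ η ^ 2 ∧ S.aa η ≤ η ∧ S.aa η ≤ 1 := by
  have h10 := S.aa_le hS h0 h1
  refine ⟨h10.trans (pow_le_pow_of_le_one h0.le h1 (by norm_num)),
    h10.trans (pow_le_pow_of_le_one h0.le h1 (by norm_num)), ?_,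
    h10.trans (pow_le_one₀ h0.le h1)⟩
  have : η ^ 10 ≤ η ^ 1 := pow_le_pow_of_le_one h0.le h1 (by norm_num)
  simpa using h10.trans this

theorem Ok.hyp_ev (hS : S.Ok) : ∀ᶠ η : ℝ in 𝓝[>] 0,
    ∀ νt : Option (DD h × Bool) × Bool → ℂ → ℝ, (S.Q η).glue.CS ∞ νt →
      (∀ α, PB (νt α) (S.aa η ^ 4)) → ∀ p ∈ cube (DD h),
      (S.Q η).Hyp (S.β η) (S.μ η p) νt η⁻¹ (η ^ 2) (S.aa η ^ 4) (S.aa η) (S.aa η ^ 4)
        (S.aa η ^ 3) := by
  filter_upwards [hS.est, hS.r_ev, ev_small (c := 1) one_pos,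
    mkSys_ev (13 * Fintype.card (Fin h × DD h) * S.A), mkSys_ev ((h : ℝ) + 1),
    mkSys_ev (4000 * ((Fintype.card (PP h nT nx) : ℝ) + 1) ^ 2)] with η hE hr hη hA hh hn
  obtain ⟨h0, h1⟩ := hη
  intro νt hcs hpb p hp
  have E := hE p hp
  have hapos : 0 < S.aa η := mkSys_aa_pos h0
  obtain ⟨ha4, ha2, ha1, ha0⟩ := mkSys_aa_le hS h0 h1
  have hp4 : S.aa η ^ 4 ≤ S.aa η := by
    have : S.aa η ^ 4 ≤ S.aa η ^ 1 := pow_le_pow_of_le_one hapos.le ha0 (by norm_num)
    simpa using this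
  have hinv : 0 < η⁻¹ := inv_pos.mpr h0
  refine ⟨E.ok, E.bump, hS.μ_smooth η p, E.μ_supp, fun v => (E.μ_pb v).mono ?_, hcs, hpb,
    hapos.le, fun π => ?_, by positivity, hr, ?_, ?_⟩
  · rcases v with _ | v
    · have : η⁻¹ * S.mm η none = (13 * Fintype.card (Fin h × DD h) * S.A * η) * η ^ 2 := by
        simp only [mm]
        field_simp
      rw [this]
      calc _ ≤ 1 * η ^ 2 := mul_le_mul_of_nonneg_right hA (by positivity)
        _ = η ^ 2 := one_mul _
    · have e1 : η⁻¹ * S.mm η (some v) ≤ η⁻¹ * ((h + 1) * η ^ 4) := by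
        simp only [mm]
        gcongr
      have e2 : η⁻¹ * (((h : ℝ) + 1) * η ^ 4) = ((h + 1) * η) * η ^ 2 := by
        field_simp
      rw [e2] at e1
      calc _ ≤ _ := e1
        _ ≤ 1 * η ^ 2 := mul_le_mul_of_nonneg_right hh (by positivity)
        _ = η ^ 2 := one_mul _
  · have hc := S.cond_pos h0 π
    have hc' := S.cond_le h0 h1 hS π
    change 1 ≤ S.aa η * (S.cond η π)⁻¹
    rw [← div_eq_mul_inv, le_div_iff₀ hc]
    simpa using hc'
  · rw [n_eq]
    have e1 : η⁻¹ * S.aa η ≤ η := by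
      calc η⁻¹ * S.aa η ≤ η⁻¹ * η ^ 2 := by gcongr
        _ = η := by field_simp
    have e2 : η⁻¹ * (η ^ 2 + S.aa η ^ 4) ≤ 2 * η := by
      calc η⁻¹ * (η ^ 2 + S.aa η ^ 4) ≤ η⁻¹ * (η ^ 2 + η ^ 2) := by
            gcongr
            exact hp4.trans ha2
        _ = 2 * η := by field_simp; ring
    have e3 : η⁻¹ * (η ^ 2 + S.aa η ^ 4) + η⁻¹ * S.aa η + S.aa η ^ 4 ≤ 4 * η := by
      linarith
    calc _ ≤ 1000 * ((Fintype.card (PP h nT nx) : ℝ) + 1) ^ 2 * (4 * η) := by gcongr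
      _ = 4000 * ((Fintype.card (PP h nT nx) : ℝ) + 1) ^ 2 * η := by ring
      _ ≤ 1 := hn
  · rw [n_eq]
    have e1 : 600 * ((Fintype.card (PP h nT nx) : ℝ) + 1) ^ 2 * S.aa η ≤ 1 := by
      calc _ ≤ 4000 * ((Fintype.card (PP h nT nx) : ℝ) + 1) ^ 2 * η := by
            gcongr
            norm_num
        _ ≤ 1 := hn
    calc _ = (600 * ((Fintype.card (PP h nT nx) : ℝ) + 1) ^ 2 * S.aa η) * S.aa η ^ 3 := by ring
      _ ≤ 1 * S.aa η ^ 3 := mul_le_mul_of_nonneg_right e1 (by positivity)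
      _ = _ := one_mul _

theorem Ok.exists_sys (hS : S.Ok) : ∃ (η : ℝ) (T : Sys (DD h) (PP h nT nx)),
    T.Q = S.Q η ∧ T.M0 = fun d d' => S.am η * S.M1 d d' := by
  classical
  obtain ⟨η, hH, hQ, hdiag, hoff, heven, hpos, hnn, ⟨h0, h1⟩, hc⟩ :=
    (hS.hyp_ev.and (hS.Q_ok.and (hS.diag.and (hS.off.and (hS.even.and (hS.pos.and
      (hS.μ_nonneg.and ((ev_small (c := 1) one_pos).and
      (mkSys_ev (16 * Fintype.card (Option (DD h × Bool)) *
        (16 * ((Fintype.card (PP h nT nx) : ℝ) + 1)) ^ 2)))))))))).exists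
  have hapos : 0 < S.aa η := mkSys_aa_pos h0
  obtain ⟨ha4, ha2, ha1, ha0⟩ := mkSys_aa_le hS h0 h1
  have hsym := S.sym hS η
  obtain ⟨ξ, hξcs, hξ01, hξsym, hξpos⟩ := Glue.exists_tiny hQ.glue hsym.glue
  obtain ⟨Cl, hCl⟩ := hS.μ_lip h0
  have hc0 : 0 < S.aa η ^ 4 / 1000 := by positivity
  have hcs : (S.Q η).glue.CS ∞ fun α z => S.aa η ^ 4 / 1000 * ξ α z :=
    hξcs.const_mul fun _ => S.aa η ^ 4 / 1000
  have hpb : ∀ α, PB (fun z => S.aa η ^ 4 / 1000 * ξ α z) (S.aa η ^ 4) := by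
    intro α
    have := PB.of_bdd (g := fun z => S.aa η ^ 4 / 1000 * ξ α z) (τ := S.aa η ^ 4 / 1000)
      (hcs α).1.continuous (Plumb.cs_supp hcs α) (fun u => by
        rw [abs_of_nonneg (mul_nonneg hc0.le (hξ01 α u).1)]
        exact mul_le_of_le_one_right hc0.le (hξ01 α u).2)
    refine this.mono (le_of_eq ?_)
    ring
  have ham : 0 < S.am η := pow_pos h0 _
  have had : 0 < S.ad η := pow_pos h0 _
  refine ⟨η,
    { Q := S.Q η
      β := S.β η
      μ := S.μ η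
      νt := fun α z => S.aa η ^ 4 / 1000 * ξ α z
      ιP := S.ιP
      Λ := η⁻¹
      δ := η ^ 2
      τ := S.aa η ^ 4
      a := S.aa η
      om := S.aa η ^ 4
      κ := S.aa η ^ 3
      c0 := S.aa η / 4
      Cl := Cl
      M0 := fun d d' => S.am η * S.M1 d d'
      tau := fun d d' => if d = d' then S.ad η else
        if hj : ∃ j, Ori j d d' then η ^ 4 * S.aj η hj.choose ^ 2 else 1
      J := fun d d' => d = d' ∨ ∃ j, Ori j d d'
      hyp := hH _ hcs hpb
      sym := hsym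
      β_sym := hS.β_sym η
      μ_sym := fun p _ => hS.μ_sym η p
      νt_sym := fun α w => congrArg (fun x => S.aa η ^ 4 / 1000 * x) (hξsym α w)
      μ_nonneg := hnn
      νt_pos := fun α z hz => by
        rw [Glue.gd_const_mul]
        exact mul_pos hc0 (hξpos α z hz)
      lip := fun p _ p' _ v => hCl p p' v
      M0_symm := fun d d' => by rw [S.M1_symm hS d d']
      M0_psd := fun f => by
        have := mul_nonneg ham.le (S.M1_psd hS f)
        rw [Finset.mul_sum] at this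
        refine this.trans (le_of_eq (Finset.sum_congr rfl fun d _ => ?_))
        rw [Finset.mul_sum]
        exact Finset.sum_congr rfl fun d' _ => by ring
      J_total := fun d d' => by
        by_cases hd : d = d'
        · exact Or.inl (Or.inl hd)
        · obtain ⟨j, hj | hj⟩ := ori_total hd
          · exact Or.inl (Or.inr ⟨j, hj⟩)
          · exact Or.inr (Or.inr ⟨j, hj⟩)
      tau_pos := fun d d' => by
        split_ifs with h2 h3
        · exact had
        · have := S.aj_pos h0 h3.choose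
          positivity
        · exact one_pos
      expn := fun p hp d d' hJ ρ => by
        by_cases hd : d = d'
        · subst hd
          rw [if_pos rfl]
          exact hdiag p hp d ρ
        · have hj : ∃ j, Ori j d d' := hJ.resolve_left hd
          rw [if_neg hd, dif_pos hj]
          exact hoff p hp _ d d' hj.choose_spec ρ
      even := heven
      pos := hpos
      c0_gt := by
        rw [n_eq]
        have e1 : S.aa η ^ 3 ≤ η := by
          have : S.aa η ^ 3 ≤ S.aa η ^ 1 := pow_le_pow_of_le_one hapos.le ha0 (by norm_num)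
          rw [pow_one] at this
          exact this.trans ha1
        have e2 : 16 * Fintype.card (Option (DD h × Bool)) *
            (16 * ((Fintype.card (PP h nT nx) : ℝ) + 1)) ^ 2 * S.aa η ^ 3 ≤ 1 :=
          le_trans (by gcongr) hc
        calc _ = (16 * Fintype.card (Option (DD h × Bool)) *
            (16 * ((Fintype.card (PP h nT nx) : ℝ) + 1)) ^ 2 * S.aa η ^ 3) * (S.aa η / 8) := by
              ring
          _ ≤ 1 * (S.aa η / 8) := mul_le_mul_of_nonneg_right e2 (by positivity)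
          _ < S.aa η / 4 := by linarith }, rfl, rfl⟩

end Fx

end Pool.Agent.MP_4f0ed6_gt

end

section

open Set Laplacian Filter Topology MeasureTheory Metric InnerProductSpace
open scoped ContDiff

namespace Pool.Agent.MP_4f0ed6_gt

theorem laur_cont {f : ℂ → ℂ} {c : ℂ} {R : ℝ} (hR : 0 ≤ R) (hf : ContinuousOn f (sphere c R)) :
    Continuous (fun θ : ℝ => deriv (circleMap c R) θ * f (circleMap c R θ)) := by
  have h1 : Continuous (fun θ : ℝ => f (circleMap c R θ)) :=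
    hf.comp_continuous (continuous_circleMap c R) (fun θ => circleMap_mem_sphere c hR θ)
  have h2 : Continuous (fun θ : ℝ => deriv (circleMap c R) θ) := by
    rw [funext (deriv_circleMap c R)]
    exact (continuous_circleMap 0 R).mul continuous_const
  exact h2.mul h1

theorem laur_diff {f : ℂ → ℂ} {c : ℂ} {R : ℝ} (hR : 0 ≤ R) (hf : ContinuousOn f (sphere c R))
    {w₀ : ℂ} (hw : ‖w₀ - c‖ ≠ R) :
    DifferentiableAt ℂ (fun w => ∮ z in C(c, R), (z - w)⁻¹ * f z) w₀ := by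
  set g : ℝ → ℂ := fun θ => deriv (circleMap c R) θ * f (circleMap c R θ) with hg
  have hgc : Continuous g := laur_cont hR hf
  set δ : ℝ := |‖w₀ - c‖ - R| / 2 with hδ
  have hδ0 : 0 < δ := by
    have : 0 < |‖w₀ - c‖ - R| := abs_pos.2 (sub_ne_zero.2 hw)
    linarith
  have hlow : ∀ x ∈ ball w₀ δ, ∀ θ : ℝ, δ ≤ ‖circleMap c R θ - x‖ := by
    intro x hx θ
    have hx' : ‖x - w₀‖ < δ := by simpa [dist_eq_norm] using hx
    have hz : ‖circleMap c R θ - c‖ = R := by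
      have := circleMap_mem_sphere c hR θ
      simpa [dist_eq_norm] using this
    have h1 : |‖w₀ - c‖ - ‖circleMap c R θ - c‖| ≤ ‖(w₀ - c) - (circleMap c R θ - c)‖ :=
      abs_norm_sub_norm_le _ _
    have h2 : (w₀ - c) - (circleMap c R θ - c) = -((circleMap c R θ - x) + (x - w₀)) := by ring
    rw [hz, h2, norm_neg] at h1
    have h3 := norm_add_le (circleMap c R θ - x) (x - w₀)
    linarith
  have hne : ∀ x ∈ ball w₀ δ, ∀ θ : ℝ, circleMap c R θ - x ≠ 0 := by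
    intro x hx θ h
    have := hlow x hx θ
    rw [h, norm_zero] at this
    linarith
  have hcont : ∀ x ∈ ball w₀ δ, Continuous (fun θ : ℝ => (circleMap c R θ - x)⁻¹ * g θ) := by
    intro x hx
    exact (((continuous_circleMap c R).sub continuous_const).inv₀ (hne x hx)).mul hgc
  have hcont' : ∀ x ∈ ball w₀ δ,
      Continuous (fun θ : ℝ => ((circleMap c R θ - x) ^ 2)⁻¹ * g θ) := by
    intro x hx
    exact ((((continuous_circleMap c R).sub continuous_const).pow 2).inv₀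
      (fun θ => pow_ne_zero 2 (hne x hx θ))).mul hgc
  have hw0 : w₀ ∈ ball w₀ δ := mem_ball_self hδ0
  have key := intervalIntegral.hasDerivAt_integral_of_dominated_loc_of_deriv_le
    (μ := volume) (a := 0) (b := 2 * Real.pi)
    (F := fun (x : ℂ) (θ : ℝ) => (circleMap c R θ - x)⁻¹ * g θ)
    (F' := fun (x : ℂ) (θ : ℝ) => ((circleMap c R θ - x) ^ 2)⁻¹ * g θ)
    (bound := fun θ => (δ ^ 2)⁻¹ * ‖g θ‖) (x₀ := w₀) (s := ball w₀ δ)
    (ball_mem_nhds w₀ hδ0)
    (by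
      filter_upwards [ball_mem_nhds w₀ hδ0] with x hx
      exact (hcont x hx).aestronglyMeasurable)
    ((hcont w₀ hw0).intervalIntegrable _ _)
    (hcont' w₀ hw0).aestronglyMeasurable
    (Eventually.of_forall fun θ _ x hx => by
      rw [norm_mul, norm_inv, norm_pow]
      refine mul_le_mul_of_nonneg_right ?_ (norm_nonneg _)
      exact inv_anti₀ (pow_pos hδ0 2) (pow_le_pow_left₀ hδ0.le (hlow x hx θ) 2))
    ((continuous_const.mul hgc.norm).intervalIntegrable _ _)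
    (Eventually.of_forall fun θ _ x hx => by
      have h1 : HasDerivAt (fun y : ℂ => circleMap c R θ - y) (-1) x :=
        (hasDerivAt_id x).const_sub _
      have h2 := (h1.inv (hne x hx θ)).mul_const (g θ)
      rw [neg_neg, one_div] at h2
      exact h2)
  have heq : (fun w => ∮ z in C(c, R), (z - w)⁻¹ * f z) =
      fun x => ∫ θ in (0 : ℝ)..2 * Real.pi, (circleMap c R θ - x)⁻¹ * g θ := by
    funext x
    unfold circleIntegral
    refine intervalIntegral.integral_congr fun θ _ => ?_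
    simp only [hg, smul_eq_mul]
    ring
  rw [heq]
  exact key.2.differentiableAt

theorem laur_open (c : ℂ) (a b : ℝ) : IsOpen {w : ℂ | a < ‖w - c‖ ∧ ‖w - c‖ < b} := by
  have h : Continuous (fun w : ℂ => ‖w - c‖) := by fun_prop
  exact (isOpen_lt continuous_const h).inter (isOpen_lt h continuous_const)

theorem laur_radius {F : ℂ → ℂ} {c : ℂ} {ρ₀ a b R₀ : ℝ} (h0 : 0 < ρ₀) (ha : ρ₀ < a) (hab : a ≤ b)
    (hb : b < R₀) (hF : DifferentiableOn ℂ F {w | ρ₀ < ‖w - c‖ ∧ ‖w - c‖ < R₀}) :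
    (∮ z in C(c, b), F z) = ∮ z in C(c, a), F z := by
  have hU : IsOpen {w : ℂ | ρ₀ < ‖w - c‖ ∧ ‖w - c‖ < R₀} := laur_open c ρ₀ R₀
  refine Complex.circleIntegral_eq_of_differentiable_on_annulus_off_countable (h0.trans ha) hab
    countable_empty (hF.continuousOn.mono ?_) ?_
  · intro z hz
    have h1 : ‖z - c‖ ≤ b := by simpa [dist_eq_norm] using hz.1
    have h2 : a ≤ ‖z - c‖ := by simpa [dist_eq_norm] using hz.2
    exact ⟨by linarith, by linarith⟩
  · intro z hz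
    have h1 : ‖z - c‖ < b := by simpa [dist_eq_norm] using hz.1.1
    have h2 : a < ‖z - c‖ := by simpa [dist_eq_norm] using hz.1.2
    exact hF.differentiableAt (hU.mem_nhds ⟨by linarith, by linarith⟩)

theorem laur_split {F : ℂ → ℂ} {c w : ℂ} {a : ℝ} (ha : 0 ≤ a) (hw : ‖w - c‖ ≠ a)
    (hF : ContinuousOn F (sphere c a)) :
    (∮ z in C(c, a), dslope F w z) =
      (∮ z in C(c, a), (z - w)⁻¹ * F z) - F w * ∮ z in C(c, a), (z - w)⁻¹ := by
  have hne : ∀ z ∈ sphere c a, z - w ≠ 0 := by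
    intro z hz h
    have h1 : z = w := sub_eq_zero.1 h
    have h2 : ‖z - c‖ = a := by simpa [dist_eq_norm] using hz
    exact hw (h1 ▸ h2)
  have hi : ContinuousOn (fun z : ℂ => (z - w)⁻¹) (sphere c a) :=
    (continuousOn_id.sub continuousOn_const).inv₀ hne
  have i1 : CircleIntegrable (fun z : ℂ => (z - w)⁻¹ * F z) c a := (hi.mul hF).circleIntegrable ha
  have i2 : CircleIntegrable (fun z : ℂ => F w * (z - w)⁻¹) c a :=
    (continuousOn_const.mul hi).circleIntegrable ha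
  rw [← circleIntegral.integral_const_mul, ← circleIntegral.integral_sub i1 i2]
  refine circleIntegral.integral_congr ha fun z hz => ?_
  have hzw : z ≠ w := sub_ne_zero.1 (hne z hz)
  simp only [dslope_of_ne F hzw, slope_def_field]
  rw [div_eq_mul_inv]
  ring

theorem laur_lim {F : ℂ → ℂ} {c : ℂ} {a : ℝ} (ha : 0 ≤ a) (hF : ContinuousOn F (sphere c a)) :
    Tendsto (fun w : ℂ => w * -∮ z in C(c, a), (z - w)⁻¹ * F z) (cocompact ℂ)
      (𝓝 (∮ z in C(c, a), F z)) := by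
  obtain ⟨M, hM⟩ := (isCompact_sphere c a).exists_bound_of_continuousOn
    (continuousOn_id.mul hF)
  set K : ℝ := ‖c‖ + a with hK
  have hn : Tendsto (fun w : ℂ => ‖w‖) (cocompact ℂ) atTop := tendsto_norm_cocompact_atTop (E := ℂ)
  have hlim : Tendsto (fun w : ℂ => 2 * Real.pi * a * ((‖w‖ - K)⁻¹ * M)) (cocompact ℂ) (𝓝 0) := by
    have h1 : Tendsto (fun w : ℂ => ‖w‖ - K) (cocompact ℂ) atTop :=
      tendsto_atTop_add_const_right _ (-K) hn
    have h2 := (h1.inv_tendsto_atTop.mul_const M).const_mul (2 * Real.pi * a)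
    simpa using h2
  rw [tendsto_iff_norm_sub_tendsto_zero]
  refine squeeze_zero' (Eventually.of_forall fun _ => norm_nonneg _) ?_ hlim
  filter_upwards [hn.eventually_gt_atTop K] with w hw
  have hlow : ∀ z ∈ sphere c a, ‖w‖ - K ≤ ‖z - w‖ := by
    intro z hz
    have h2 : ‖z - c‖ = a := by simpa [dist_eq_norm] using hz
    have h3 : w = c + (z - c) - (z - w) := by ring
    have h4 : ‖c + (z - c) - (z - w)‖ ≤ ‖c‖ + ‖z - c‖ + ‖z - w‖ :=
      (norm_sub_le _ _).trans (by gcongr; exact norm_add_le _ _)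
    rw [← h3] at h4
    linarith
  have hne : ∀ z ∈ sphere c a, z - w ≠ 0 := by
    intro z hz h
    have := hlow z hz
    rw [h, norm_zero] at this
    linarith
  have hi : ContinuousOn (fun z : ℂ => (z - w)⁻¹) (sphere c a) :=
    (continuousOn_id.sub continuousOn_const).inv₀ hne
  have heq : w * (-∮ z in C(c, a), (z - w)⁻¹ * F z) - (∮ z in C(c, a), F z) =
      ∮ z in C(c, a), -((z - w)⁻¹ * (z * F z)) := by
    have i1 : CircleIntegrable (fun z : ℂ => -w * ((z - w)⁻¹ * F z)) c a :=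
      (continuousOn_const.mul (hi.mul hF)).circleIntegrable ha
    rw [mul_neg, ← neg_mul, ← circleIntegral.integral_const_mul, ← circleIntegral.integral_sub
      i1 (hF.circleIntegrable ha)]
    refine circleIntegral.integral_congr ha fun z hz => ?_
    have := hne z hz
    field_simp
    ring
  rw [heq]
  refine circleIntegral.norm_integral_le_of_norm_le_const ha fun z hz => ?_
  rw [norm_neg, norm_mul, norm_inv]
  have hp : 0 < ‖w‖ - K := sub_pos.2 hw
  exact mul_le_mul (inv_anti₀ hp (hlow z hz)) (hM z hz) (norm_nonneg _) (inv_pos.2 hp).le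

theorem laurent {F : ℂ → ℂ} {c : ℂ} {ρ₀ ρ r R R₀ : ℝ} (h0 : 0 < ρ₀) (h1 : ρ₀ < ρ) (h2 : ρ < R)
    (h3 : R < R₀) (hr : ρ₀ < r) (hr' : r < R₀)
    (hF : DifferentiableOn ℂ F {w | ρ₀ < ‖w - c‖ ∧ ‖w - c‖ < R₀}) :
    ∃ A B : ℂ → ℂ, DifferentiableOn ℂ A {w | ρ < ‖w - c‖} ∧
      DifferentiableOn ℂ B {w | ‖w - c‖ < R} ∧
      Tendsto (fun w => w * A w) (cocompact ℂ)
        (𝓝 ((2 * Real.pi * Complex.I)⁻¹ * ∮ z in C(c, r), F z)) ∧
      ∀ w, ρ < ‖w - c‖ → ‖w - c‖ < R → F w = A w + B w := by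
  have hU : IsOpen {w : ℂ | ρ₀ < ‖w - c‖ ∧ ‖w - c‖ < R₀} := laur_open c ρ₀ R₀
  have hρ : 0 < ρ := h0.trans h1
  have hR : 0 < R := hρ.trans h2
  have hsph : ∀ a : ℝ, ρ₀ < a → a < R₀ → ContinuousOn F (sphere c a) := by
    intro a ha ha'
    refine hF.continuousOn.mono fun z hz => ?_
    have h : ‖z - c‖ = a := by simpa [dist_eq_norm] using hz
    exact ⟨by linarith, by linarith⟩
  have hFρ := hsph ρ h1 (h2.trans h3)
  have hFR := hsph R (h1.trans h2) h3
  have hpi : (2 * Real.pi * Complex.I : ℂ) ≠ 0 := Complex.two_pi_I_ne_zero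
  refine ⟨fun w => (2 * Real.pi * Complex.I)⁻¹ * -∮ z in C(c, ρ), (z - w)⁻¹ * F z,
    fun w => (2 * Real.pi * Complex.I)⁻¹ * ∮ z in C(c, R), (z - w)⁻¹ * F z, ?_, ?_, ?_, ?_⟩
  · intro w hw
    exact ((laur_diff hρ.le hFρ (ne_of_gt hw)).neg.const_mul _).differentiableWithinAt
  · intro w hw
    exact ((laur_diff hR.le hFR (ne_of_lt hw)).const_mul _).differentiableWithinAt
  · have hrρ : (∮ z in C(c, r), F z) = ∮ z in C(c, ρ), F z := by
      rcases le_total r ρ with h | h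
      · exact (laur_radius h0 hr h (h2.trans h3) hF).symm
      · exact laur_radius h0 h1 h hr' hF
    rw [hrρ]
    refine ((laur_lim hρ.le hFρ).const_mul (2 * Real.pi * Complex.I)⁻¹).congr fun w => ?_
    ring
  · intro w hw hw'
    have hwU : {w : ℂ | ρ₀ < ‖w - c‖ ∧ ‖w - c‖ < R₀} ∈ 𝓝 w :=
      hU.mem_nhds ⟨by linarith, by linarith⟩
    have hd := (Complex.differentiableOn_dslope hwU).2 hF
    have he := laur_radius h0 h1 h2.le h3 hd
    rw [laur_split hR.le (ne_of_lt hw') hFR, laur_split hρ.le (ne_of_gt hw) hFρ,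
      circleIntegral.integral_sub_inv_of_mem_ball (by simpa [dist_eq_norm] using hw')] at he
    have hz : (∮ z in C(c, ρ), (z - w)⁻¹) = 0 := by
      have hne : ∀ z ∈ closedBall c ρ, z - w ≠ 0 := by
        intro z hz h
        have h4 : z = w := sub_eq_zero.1 h
        have h5 : ‖z - c‖ ≤ ρ := by simpa [dist_eq_norm] using hz
        rw [h4] at h5
        linarith
      refine Complex.circleIntegral_eq_zero_of_differentiable_on_off_countable hρ.le
        countable_empty ((continuousOn_id.sub continuousOn_const).inv₀ hne) fun z hz => ?_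
      exact (differentiableAt_id.sub_const w).inv (hne z (ball_subset_closedBall hz.1))
    rw [hz, mul_zero, sub_zero] at he
    simp only
    rw [← he]
    field_simp
    ring

theorem liouville_glue {A B : ℂ → ℂ} {ρ R : ℝ} (h : ρ < R)
    (hA : DifferentiableOn ℂ A {w | ρ < ‖w‖}) (hB : DifferentiableOn ℂ B {w | ‖w‖ < R})
    (he : ∀ w, ρ < ‖w‖ → ‖w‖ < R → A w = B w) (hl : Tendsto A (cocompact ℂ) (𝓝 0)) :
    ∀ w, ρ < ‖w‖ → A w = 0 := by
  classical
  set G : ℂ → ℂ := fun w => if ‖w‖ < R then B w else A w with hG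
  have hGA : ∀ w, ρ < ‖w‖ → G w = A w := by
    intro w hw
    by_cases hw' : ‖w‖ < R
    · simp only [hG, if_pos hw']
      exact (he w hw hw').symm
    · simp only [hG, if_neg hw']
  have hoA : IsOpen {w : ℂ | ρ < ‖w‖} := isOpen_lt continuous_const continuous_norm
  have hoB : IsOpen {w : ℂ | ‖w‖ < R} := isOpen_lt continuous_norm continuous_const
  have hGd : Differentiable ℂ G := by
    intro w
    by_cases hw : ‖w‖ < R
    · refine (hB.differentiableAt (hoB.mem_nhds hw)).congr_of_eventuallyEq ?_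
      filter_upwards [hoB.mem_nhds hw] with x hx
      simp only [hG, if_pos (show ‖x‖ < R from hx)]
    · have hw' : ρ < ‖w‖ := by linarith [not_lt.1 hw]
      refine (hA.differentiableAt (hoA.mem_nhds hw')).congr_of_eventuallyEq ?_
      filter_upwards [hoA.mem_nhds hw'] with x hx
      exact hGA x hx
  have hGl : Tendsto G (cocompact ℂ) (𝓝 0) := by
    refine hl.congr' ?_
    filter_upwards [(tendsto_norm_cocompact_atTop (E := ℂ)).eventually_gt_atTop ρ] with x hx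
    exact (hGA x hx).symm
  intro w hw
  rw [← hGA w hw]
  exact hGd.apply_eq_of_tendsto_cocompact w hGl

theorem tendsto_zero_of_mul {A : ℂ → ℂ} {a : ℂ}
    (h : Tendsto (fun w => w * A w) (cocompact ℂ) (𝓝 a)) : Tendsto A (cocompact ℂ) (𝓝 0) := by
  have hn : Tendsto (fun w : ℂ => ‖w‖) (cocompact ℂ) atTop := tendsto_norm_cocompact_atTop (E := ℂ)
  have hi : Tendsto (fun w : ℂ => w⁻¹) (cocompact ℂ) (𝓝 0) := by
    rw [tendsto_zero_iff_norm_tendsto_zero]
    simp only [norm_inv]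
    exact hn.inv_tendsto_atTop
  have h2 := hi.mul h
  rw [zero_mul] at h2
  refine h2.congr' ?_
  filter_upwards [hn.eventually_gt_atTop 0] with w hw
  have : w ≠ 0 := norm_pos_iff.1 hw
  field_simp

end Pool.Agent.MP_4f0ed6_gt

end

section

open Set Laplacian Filter Topology MeasureTheory Metric InnerProductSpace
open scoped ContDiff

namespace Pool.Agent.MP_4f0ed6_gt

theorem Split_glue {A B : ℂ → ℂ} {ρ R : ℝ} (h : ρ < R)
    (hA : DifferentiableOn ℂ A {w | ρ < ‖w‖}) (hB : ∀ w : ℂ, ‖w‖ < R → DifferentiableAt ℂ B w)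
    (he : ∀ w, ρ < ‖w‖ → ‖w‖ < R → A w = B w) (hl : Tendsto A (cocompact ℂ) (𝓝 0)) :
    (∀ w, ρ < ‖w‖ → A w = 0) ∧ ∀ w, ‖w‖ < R → B w = 0 := by
  classical
  set G : ℂ → ℂ := fun w => if ‖w‖ < R then B w else A w with hG
  have hGA : ∀ w, ρ < ‖w‖ → G w = A w := by
    intro w hw
    by_cases hw' : ‖w‖ < R
    · simp only [hG, if_pos hw']
      exact (he w hw hw').symm
    · simp only [hG, if_neg hw']
  have hoA : IsOpen {w : ℂ | ρ < ‖w‖} := isOpen_lt continuous_const continuous_norm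
  have hoB : IsOpen {w : ℂ | ‖w‖ < R} := isOpen_lt continuous_norm continuous_const
  have hGd : Differentiable ℂ G := by
    intro w
    by_cases hw : ‖w‖ < R
    · refine (hB w hw).congr_of_eventuallyEq ?_
      filter_upwards [hoB.mem_nhds hw] with x hx
      simp only [hG, if_pos (show ‖x‖ < R from hx)]
    · have hw' : ρ < ‖w‖ := by linarith [not_lt.1 hw]
      refine (hA.differentiableAt (hoA.mem_nhds hw')).congr_of_eventuallyEq ?_
      filter_upwards [hoA.mem_nhds hw'] with x hx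
      exact hGA x hx
  have hGl : Tendsto G (cocompact ℂ) (𝓝 0) := by
    refine hl.congr' ?_
    filter_upwards [(tendsto_norm_cocompact_atTop (E := ℂ)).eventually_gt_atTop ρ] with x hx
    exact (hGA x hx).symm
  refine ⟨fun w hw => ?_, fun w hw => ?_⟩
  · rw [← hGA w hw]
    exact hGd.apply_eq_of_tendsto_cocompact w hGl
  · have := hGd.apply_eq_of_tendsto_cocompact w hGl
    simpa only [hG, if_pos hw] using this

namespace Plumb

variable {V P : Type} [Fintype P] {Q : Plumb V P}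

/-- simple fraction decomposition of a form -/
structure Splits (Q : Plumb V P) (f : V × Bool → ℂ → ℂ) (A : P → ℂ → ℂ) : Prop where
  hol : ∀ π, DifferentiableOn ℂ (A π) {w | 3 / 4 * Q.r π < ‖w - Q.c π‖}
  lim : ∀ π, Tendsto (fun w => w * A π w) (cocompact ℂ) (𝓝 (Q.res f π))
  eq : ∀ v (w : ℂ), ‖w‖ < 2 → (∀ π, Q.pc π = v → 3 / 4 * Q.r π < ‖w - Q.c π‖) →
    f (v, false) w = ∑ π ∈ Q.pts v, A π w

theorem Split_far (hQ : Q.Ok) {π π' : P} (hne : π' ≠ π) (hp : Q.pc π' = Q.pc π) {w : ℂ}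
    (hw : ‖w - Q.c π‖ < Q.sep / 2) : Q.sep / 2 ≤ ‖w - Q.c π'‖ := by
  have := (hQ.near hne hp hw.le).1
  simpa using this

theorem Split_port (hQ : Q.Ok) {f : V × Bool → ℂ → ℂ} (hf : f ∈ Q.glue.forms) (π : P) :
    ∃ A B : ℂ → ℂ, DifferentiableOn ℂ A {w | 3 / 4 * Q.r π < ‖w - Q.c π‖} ∧
      DifferentiableOn ℂ B {w | ‖w - Q.c π‖ < Q.sep / 4} ∧
      Tendsto (fun w => w * A w) (cocompact ℂ) (𝓝 (Q.res f π)) ∧
      ∀ w, 3 / 4 * Q.r π < ‖w - Q.c π‖ → ‖w - Q.c π‖ < Q.sep / 4 →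
        f (Q.pc π, false) w = A w + B w := by
  have h1 := hQ.r_le' π
  have h2 : 0 < Q.r π := r_pos π
  have h3 := hQ.sep_le
  refine laurent (ρ₀ := Q.r π / 2) (R₀ := Q.sep / 2) (by linarith) (by linarith) (by linarith)
    (by linarith) (by linarith) (by linarith) ((hf.1 (Q.pc π, false)).mono ?_)
  intro w hw
  refine ⟨?_, fun π' hπ' => ?_⟩
  · have h4 := hQ.c_le π
    have h5 : ‖w‖ ≤ ‖w - Q.c π‖ + ‖Q.c π‖ := by simpa using norm_add_le (w - Q.c π) (Q.c π)
    linarith [hw.2]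
  · by_cases he : π' = π
    · rw [he]; exact hw.1
    · have h6 := Split_far hQ he hπ' hw.2
      have h7 := hQ.r_le' π'
      have h8 : 0 < Q.r π' := r_pos π'
      linarith

omit [Fintype P] in
theorem Split_inf {f : V × Bool → ℂ → ℂ} (hf : f ∈ Q.glue.forms) (v : V) {w : ℂ}
    (h1 : 1 / 2 < ‖w‖) (h2 : ‖w‖ < 2) :
    f (v, false) w = -f (v, true) w⁻¹ / w ^ 2 := by
  have h := hf.2.2 (Sum.inr (v, false)) w ⟨h1, h2⟩
  have h' : f (v, false) w = f (v, true) w⁻¹ * deriv (fun x : ℂ => x⁻¹) w := h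
  rw [h', deriv_inv, div_eq_mul_inv]
  ring

theorem Split_main (hQ : Q.Ok) {f : V × Bool → ℂ → ℂ} (hf : f ∈ Q.glue.forms)
    {A B : P → ℂ → ℂ}
    (hA : ∀ π, DifferentiableOn ℂ (A π) {w | 3 / 4 * Q.r π < ‖w - Q.c π‖})
    (hB : ∀ π, DifferentiableOn ℂ (B π) {w | ‖w - Q.c π‖ < Q.sep / 4})
    (hl : ∀ π, Tendsto (fun w => w * A π w) (cocompact ℂ) (𝓝 (Q.res f π)))
    (he : ∀ π w, 3 / 4 * Q.r π < ‖w - Q.c π‖ → ‖w - Q.c π‖ < Q.sep / 4 →
        f (Q.pc π, false) w = A π w + B π w) (v : V) :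
    (∀ w : ℂ, ‖w‖ < 2 → (∀ π, Q.pc π = v → 3 / 4 * Q.r π < ‖w - Q.c π‖) →
      f (v, false) w = ∑ π ∈ Q.pts v, A π w) ∧ ∑ π ∈ Q.pts v, Q.res f π = 0 := by
  classical
  have hs := hQ.sep_pos
  have hs' := hQ.sep_le
  have hoA : ∀ π, IsOpen {w : ℂ | 3 / 4 * Q.r π < ‖w - Q.c π‖} := fun π =>
    isOpen_lt continuous_const (by fun_prop)
  have hoB : ∀ π, IsOpen {w : ℂ | ‖w - Q.c π‖ < Q.sep / 4} := fun π =>
    isOpen_lt (by fun_prop) continuous_const
  have hAd : ∀ π w, 3 / 4 * Q.r π < ‖w - Q.c π‖ → DifferentiableAt ℂ (A π) w := fun π w hw =>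
    (hA π).differentiableAt ((hoA π).mem_nhds hw)
  set I : ℂ → ℂ := fun w => if h : ∃ π, Q.pc π = v ∧ ‖w - Q.c π‖ < Q.sep / 4 then
    B h.choose w - ∑ π' ∈ (Q.pts v).erase h.choose, A π' w
    else f (v, false) w - ∑ π ∈ Q.pts v, A π w with hI
  set O : ℂ → ℂ := fun w => -f (v, true) w⁻¹ / w ^ 2 - ∑ π ∈ Q.pts v, A π w with hO
  have hI1 : ∀ π, Q.pc π = v → ∀ w, ‖w - Q.c π‖ < Q.sep / 4 →
      I w = B π w - ∑ π' ∈ (Q.pts v).erase π, A π' w := by
    intro π hπ w hw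
    have h : ∃ π, Q.pc π = v ∧ ‖w - Q.c π‖ < Q.sep / 4 := ⟨π, hπ, hw⟩
    have hc : h.choose = π := by
      by_contra hne
      have := Split_far hQ hne (h.choose_spec.1.trans hπ.symm) (w := w) (by linarith)
      linarith [h.choose_spec.2]
    simp only [hI, dif_pos h, hc]
  have hI2 : ∀ w, (∀ π, Q.pc π = v → 3 / 4 * Q.r π < ‖w - Q.c π‖) →
      I w = f (v, false) w - ∑ π ∈ Q.pts v, A π w := by
    intro w hw
    by_cases h : ∃ π, Q.pc π = v ∧ ‖w - Q.c π‖ < Q.sep / 4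
    · obtain ⟨π, hπ, hπw⟩ := h
      rw [hI1 π hπ w hπw, ← Finset.add_sum_erase _ _ (mem_pts.2 hπ), ← hπ,
        he π w (hw π hπ) hπw]
      ring
    · simp only [hI, dif_neg h]
  have hbig : ∀ w : ℂ, 1 / 2 < ‖w‖ → ∀ π, 3 / 4 * Q.r π < ‖w - Q.c π‖ := by
    intro w hw π
    have h4 := hQ.c_le π
    have h5 : ‖w‖ ≤ ‖w - Q.c π‖ + ‖Q.c π‖ := by simpa using norm_add_le (w - Q.c π) (Q.c π)
    have h7 := hQ.r_le' π
    have h8 : 0 < Q.r π := r_pos π
    linarith
  have hF1 : ∀ w : ℂ, ‖w‖ < 2 → DifferentiableAt ℂ (f (v, true)) w := fun w hw =>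
    (hf.1 (v, true)).differentiableAt ((isOpen_W (Q := Q) (v, true)).mem_nhds hw)
  have hn : Tendsto (fun w : ℂ => ‖w‖) (cocompact ℂ) atTop := tendsto_norm_cocompact_atTop (E := ℂ)
  have hi : Tendsto (fun w : ℂ => w⁻¹) (cocompact ℂ) (𝓝 0) := by
    rw [tendsto_zero_iff_norm_tendsto_zero]
    simp only [norm_inv]
    exact hn.inv_tendsto_atTop
  have hlim : Tendsto (fun w => w * O w) (cocompact ℂ) (𝓝 (-∑ π ∈ Q.pts v, Q.res f π)) := by
    have h1 : Tendsto (fun w : ℂ => f (v, true) w⁻¹) (cocompact ℂ) (𝓝 (f (v, true) 0)) :=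
      ((hF1 0 (by simp)).continuousAt.tendsto).comp hi
    have h2 := (h1.neg.mul hi).sub (tendsto_finsetSum (Q.pts v) fun π _ => hl π)
    rw [mul_zero, zero_sub] at h2
    refine h2.congr' ?_
    filter_upwards [hn.eventually_gt_atTop 0] with w hw
    have : w ≠ 0 := norm_pos_iff.1 hw
    simp only [hO, mul_sub, Finset.mul_sum]
    congr 1
    field_simp
  have key := Split_glue (A := O) (B := I) (ρ := 1 / 2) (R := 2) (by norm_num) ?_ ?_ ?_
    (tendsto_zero_of_mul hlim)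
  · refine ⟨fun w hw hw' => ?_, ?_⟩
    · have := key.2 w hw
      rw [hI2 w hw'] at this
      exact sub_eq_zero.1 this
    · have h0 : Tendsto (fun w => w * O w) (cocompact ℂ) (𝓝 0) := by
        refine tendsto_const_nhds.congr' ?_
        filter_upwards [hn.eventually_gt_atTop (1 / 2)] with w hw
        rw [key.1 w hw, mul_zero]
      exact neg_eq_zero.1 (tendsto_nhds_unique hlim h0)
  · intro w hw
    have hw' : 1 / 2 < ‖w‖ := hw
    have hw0 : w ≠ 0 := norm_pos_iff.1 (by linarith)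
    have hw2 : ‖w⁻¹‖ < 2 := by
      rw [norm_inv]
      exact inv_lt_of_inv_lt₀ (by norm_num) (by linarith)
    refine DifferentiableAt.differentiableWithinAt ?_
    refine DifferentiableAt.sub (DifferentiableAt.div (DifferentiableAt.neg ?_) (by fun_prop)
      (pow_ne_zero 2 hw0)) (DifferentiableAt.fun_sum fun π _ => hAd π w (hbig w hw' π))
    exact (hF1 _ hw2).comp w (differentiableAt_inv hw0)
  · intro w hw
    by_cases h : ∃ π, Q.pc π = v ∧ ‖w - Q.c π‖ < Q.sep / 4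
    · obtain ⟨π, hπ, hπw⟩ := h
      have hd : DifferentiableAt ℂ (fun w => B π w - ∑ π' ∈ (Q.pts v).erase π, A π' w) w := by
        refine ((hB π).differentiableAt ((hoB π).mem_nhds hπw)).sub
          (DifferentiableAt.fun_sum fun π' hπ' => hAd π' w ?_)
        have h1 := Finset.mem_erase.1 hπ'
        have h6 := Split_far hQ h1.1 ((mem_pts.1 h1.2).trans hπ.symm) (w := w) (by linarith)
        have h7 := hQ.r_le' π'
        have h8 : 0 < Q.r π' := r_pos π'
        linarith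
      refine hd.congr_of_eventuallyEq ?_
      filter_upwards [(hoB π).mem_nhds hπw] with x hx
      exact hI1 π hπ x hx
    · have hw' : ∀ π, Q.pc π = v → 3 / 4 * Q.r π < ‖w - Q.c π‖ := by
        intro π hπ
        have h6 : Q.sep / 4 ≤ ‖w - Q.c π‖ := not_lt.1 fun hh => h ⟨π, hπ, hh⟩
        have h7 := hQ.r_le' π
        have h8 : 0 < Q.r π := r_pos π
        linarith
      have hW : w ∈ Q.W (v, false) := by
        refine ⟨hw, fun π hπ => ?_⟩
        have h8 : 0 < Q.r π := r_pos π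
        linarith [hw' π hπ]
      have hd : DifferentiableAt ℂ (fun w => f (v, false) w - ∑ π ∈ Q.pts v, A π w) w :=
        ((hf.1 (v, false)).differentiableAt ((isOpen_W (Q := Q) (v, false)).mem_nhds hW)).sub
          (DifferentiableAt.fun_sum fun π hπ => hAd π w (hw' π (mem_pts.1 hπ)))
      refine hd.congr_of_eventuallyEq ?_
      have hev : ∀ᶠ x in 𝓝 w, ∀ π ∈ Q.pts v, 3 / 4 * Q.r π < ‖x - Q.c π‖ :=
        (Filter.eventually_all_finset _).2 fun π hπ => (hoA π).mem_nhds (hw' π (mem_pts.1 hπ))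
      filter_upwards [hev] with x hx
      exact hI2 x fun π hπ => hx π (mem_pts.2 hπ)
  · intro w h1 h2
    rw [hI2 w fun π _ => hbig w h1 π, Split_inf hf v h1 h2]

theorem exists_splits (hQ : Q.Ok) {f : V × Bool → ℂ → ℂ} (hf : f ∈ Q.glue.forms) :
    (∃ A, Q.Splits f A) ∧ ∀ v, ∑ π ∈ Q.pts v, Q.res f π = 0 := by
  choose A B hA hB hl he using Split_port hQ hf
  exact ⟨⟨A, hA, hl, fun v => (Split_main hQ hf hA hB hl he v).1⟩,
    fun v => (Split_main hQ hf hA hB hl he v).2⟩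

end Plumb

end Pool.Agent.MP_4f0ed6_gt

end

section

open Set Laplacian Filter Topology MeasureTheory Metric InnerProductSpace
open scoped ContDiff

namespace Pool.Agent.MP_4f0ed6_gt

theorem Tube_add (c : ℂ) : Tendsto (fun x : ℂ => c + x) (cocompact ℂ) (cocompact ℂ) :=
  (Homeomorph.addLeft c).isClosedEmbedding.tendsto_cocompact

theorem Tube_inv : Tendsto (fun x : ℂ => x⁻¹) (cocompact ℂ) (𝓝 0) := by
  rw [← Metric.cobounded_eq_cocompact]; exact tendsto_inv₀_cobounded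

theorem Tube_div {e : ℂ} (he : e ≠ 0) (c : ℂ) :
    Tendsto (fun x : ℂ => c + e / x) (𝓝[≠] 0) (cocompact ℂ) := by
  refine (Tube_add c).comp ?_
  rw [← Metric.cobounded_eq_cocompact]
  exact ((tendsto_mul_left_cobounded he).comp tendsto_inv₀_nhdsNE_zero).congr
    fun x => (div_eq_mul_inv e x).symm

theorem Tube_norm {r : ℝ} (hr : 0 < r) {e x : ℂ} (he : ‖e‖ = r ^ 2) (hx : x ≠ 0) :
    (‖x‖ < 4 / 3 * r → 3 / 4 * r < ‖e / x‖) ∧ (3 / 4 * r < ‖x‖ → ‖e / x‖ < 4 / 3 * r) := by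
  have h0 : 0 < ‖x‖ := norm_pos_iff.2 hx
  rw [norm_div, he, lt_div_iff₀ h0, div_lt_iff₀ h0]
  constructor <;> intro h <;> nlinarith

open Classical in
theorem Tube_in {V P : Type} [Fintype P] {Q : Plumb V P} (hQ : Q.Ok)
    {f : V × Bool → ℂ → ℂ} {A : P → ℂ → ℂ} (hA : Q.Splits f A) (π : P) :
    DifferentiableOn ℂ (fun x => ∑ π' ∈ (Q.pts (Q.pc π)).erase π, A π' (Q.c π + x))
      {x | ‖x‖ < 4 / 3 * Q.r π} ∧
    ∀ x : ℂ, 3 / 4 * Q.r π < ‖x‖ → ‖x‖ < 4 / 3 * Q.r π → f (Q.pc π, false) (Q.c π + x) =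
      A π (Q.c π + x) + ∑ π' ∈ (Q.pts (Q.pc π)).erase π, A π' (Q.c π + x) := by
  have hr := Plumb.r_pos (Q := Q) π
  have hs := hQ.r_le' π
  have key : ∀ π', π' ≠ π → Q.pc π' = Q.pc π → ∀ x : ℂ, ‖x‖ < 4 / 3 * Q.r π →
      3 / 4 * Q.r π' < ‖Q.c π + x - Q.c π'‖ := fun π' hne hp x hx => by
    have h1 := (hQ.near hne hp (x := x) (by linarith)).1
    have h2 := hQ.r_le' π'
    have h3 := Plumb.r_pos (Q := Q) π'
    linarith
  refine ⟨DifferentiableOn.fun_sum fun π' hπ' => ?_, fun x h1 h2 => ?_⟩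
  · rw [Finset.mem_erase, Plumb.mem_pts] at hπ'
    exact (hA.hol π').comp (by fun_prop) fun x hx => key π' hπ'.1 hπ'.2 x hx
  · rw [hA.eq, Finset.add_sum_erase _ (fun π' => A π' (Q.c π + x)) (Plumb.mem_pts.2 rfl)]
    · have := norm_add_le (Q.c π) x
      have := hQ.c_le π
      have := hQ.sep_le
      linarith
    · intro π' hp
      by_cases hne : π' = π
      · subst hne; simpa using h1
      · exact key π' hne hp x h2

open Classical in
theorem Plumb.Splits.tube {V P : Type} [Fintype P] {Q : Plumb V P} (hQ : Q.Ok)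
    {f : V × Bool → ℂ → ℂ} (hf : f ∈ Q.glue.forms) {A : P → ℂ → ℂ} (hA : Q.Splits f A) (π : P) :
    Q.res f (Q.σ π) = -Q.res f π ∧ ∀ x : ℂ, 3 / 4 * Q.r π < ‖x‖ →
      A π (Q.c π + x) = Q.res f π / x - Q.ε π / x ^ 2 *
        ∑ π' ∈ (Q.pts (Q.pc (Q.σ π))).erase (Q.σ π), A π' (Q.c (Q.σ π) + Q.ε π / x) := by
  have hr := Plumb.r_pos (Q := Q) π
  have hε := Plumb.norm_ε (Q := Q) π
  have hε0 : Q.ε π ≠ 0 := by rw [← norm_pos_iff, hε]; positivity
  obtain ⟨I0, J0⟩ := Tube_in hQ hA π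
  obtain ⟨I1, J1⟩ := Tube_in hQ hA (Q.σ π)
  have H1 := hA.hol (Q.σ π)
  rw [hQ.r_σ] at I1 J1 H1
  set In0 := fun x => ∑ π' ∈ (Q.pts (Q.pc π)).erase π, A π' (Q.c π + x) with hIn0
  set In1 := fun x => ∑ π' ∈ (Q.pts (Q.pc (Q.σ π))).erase (Q.σ π), A π' (Q.c (Q.σ π) + x)
    with hIn1
  set S : ℂ → ℂ := Function.update (fun x => Q.ε π / x * A (Q.σ π) (Q.c (Q.σ π) + Q.ε π / x)) 0
    (Q.res f (Q.σ π)) with hS
  have S0 : S 0 = Q.res f (Q.σ π) := Function.update_self ..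
  have S1 : ∀ x ≠ 0, S x = Q.ε π / x * A (Q.σ π) (Q.c (Q.σ π) + Q.ε π / x) :=
    fun x hx => Function.update_of_ne hx ..
  have hball : {x : ℂ | ‖x‖ < 4 / 3 * Q.r π} ∈ 𝓝 (0 : ℂ) :=
    (isOpen_lt continuous_norm continuous_const).mem_nhds (by simp [hr])
  have Sd : DifferentiableOn ℂ S {x | ‖x‖ < 4 / 3 * Q.r π} := by
    rw [← Complex.differentiableOn_compl_singleton_and_continuousAt_iff hball]
    constructor
    · have hd : DifferentiableOn ℂ (fun x => Q.ε π / x) ({x | ‖x‖ < 4 / 3 * Q.r π} \ {0}) :=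
        (differentiableOn_const _).div differentiableOn_id fun x hx => hx.2
      refine (hd.mul (H1.comp (hd.const_add (Q.c (Q.σ π))) fun x hx => ?_)).congr
        fun x hx => S1 x hx.2
      simpa using (Tube_norm hr hε hx.2).1 hx.1
    · rw [hS, continuousAt_update_same]
      have t1 := (hA.lim (Q.σ π)).comp (Tube_div hε0 (Q.c (Q.σ π)))
      have t2 := (tendsto_zero_of_mul (hA.lim (Q.σ π))).comp (Tube_div hε0 (Q.c (Q.σ π)))
      have t3 := t1.sub (t2.const_mul (Q.c (Q.σ π)))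
      rw [mul_zero, sub_zero] at t3
      refine t3.congr fun x => ?_
      simp only [Function.comp]
      ring
  have hx0 : ∀ x : ℂ, 3 / 4 * Q.r π < ‖x‖ → x ≠ 0 := fun x hx h0 => by
    rw [h0, norm_zero] at hx; linarith
  have T1 : Tendsto (fun x => In1 (Q.ε π / x)) (cocompact ℂ) (𝓝 (In1 0)) := by
    refine (I1.differentiableAt hball).continuousAt.tendsto.comp ?_
    have := Tube_inv.const_mul (Q.ε π)
    rw [mul_zero] at this
    exact this.congr fun x => (div_eq_mul_inv _ x).symm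
  have hG : ∀ x : ℂ, 3 / 4 * Q.r π < ‖x‖ →
      A π (Q.c π + x) + Q.ε π / x ^ 2 * In1 (Q.ε π / x) + S 0 / x = 0 := by
    refine liouville_glue (A := fun x => A π (Q.c π + x) + Q.ε π / x ^ 2 * In1 (Q.ε π / x) +
      S 0 / x) (B := fun x => -In0 x - dslope S 0 x) (R := 4 / 3 * Q.r π) (by linarith) ?_
      (I0.neg.sub ((Complex.differentiableOn_dslope hball).2 Sd)) (fun x h1 h2 => ?_) ?_
    · have hd : DifferentiableOn ℂ (fun x => A π (Q.c π + x)) {x | 3 / 4 * Q.r π < ‖x‖} :=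
        (hA.hol π).comp (by fun_prop) fun x hx => by simpa using hx
      refine (hd.add
        (((differentiableOn_const _).div (differentiableOn_id.pow 2)
          fun x hx => pow_ne_zero 2 (hx0 x hx)).mul (I1.comp
          ((differentiableOn_const _).div differentiableOn_id hx0)
          fun x hx => (Tube_norm hr hε (hx0 x hx)).2 hx))).add
        ((differentiableOn_const _).div differentiableOn_id hx0)
    · have x0 := hx0 x h1
      have e1 := hf.2.2 (.inl π) (Q.c π + x) (by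
        change Q.r π / 2 < ‖Q.c π + x - Q.c π‖ ∧ ‖Q.c π + x - Q.c π‖ < 2 * Q.r π
        rw [add_sub_cancel_left]
        constructor <;> linarith)
      change f (Q.pc π, false) (Q.c π + x) =
        f (Q.pc (Q.σ π), false) (Q.c (Q.σ π) + Q.ε π / (Q.c π + x - Q.c π)) *
          deriv (fun w => Q.c (Q.σ π) + Q.ε π / (w - Q.c π)) (Q.c π + x) at e1
      have hd : HasDerivAt (fun w => Q.c (Q.σ π) + Q.ε π / (w - Q.c π)) (-(Q.ε π / x ^ 2))
          (Q.c π + x) := by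
        have := ((hasDerivAt_const (Q.c π + x) (Q.ε π)).div
          ((hasDerivAt_id (Q.c π + x)).sub_const (Q.c π)) (by simpa using x0)).const_add
          (Q.c (Q.σ π))
        refine this.congr_deriv ?_
        simp [neg_div]
      rw [hd.deriv, add_sub_cancel_left, J0 x h1 h2,
        J1 _ ((Tube_norm hr hε x0).1 h2) ((Tube_norm hr hε x0).2 h1)] at e1
      rw [dslope_of_ne _ x0, slope_def_field, S1 x x0, sub_zero]
      simp only [hIn0, hIn1]
      rw [eq_sub_of_add_eq e1]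
      field_simp
      ring
    · have t1 := (tendsto_zero_of_mul (hA.lim π)).comp (Tube_add (Q.c π))
      have t2 := (((Tube_inv.pow 2).const_mul (Q.ε π)).mul T1)
      have t3 := (t1.add t2).add (Tube_inv.const_mul (S 0))
      simp only [ne_eq, OfNat.ofNat_ne_zero, not_false_eq_true, zero_pow, mul_zero, zero_mul,
        add_zero] at t3
      refine t3.congr fun x => ?_
      simp only [Function.comp, div_eq_mul_inv, inv_pow]
  have hres : Q.res f π = -S 0 := by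
    have t1 := (hA.lim π).comp (Tube_add (Q.c π))
    have t2 := ((((Tube_inv.const_mul (Q.c π)).add_const 1).mul
      (((Tube_inv.const_mul (Q.ε π)).mul T1).add_const (S 0)))).neg
    simp only [mul_zero, zero_mul, zero_add, one_mul] at t2
    refine tendsto_nhds_unique t1 (t2.congr' ?_)
    have hev : ∀ᶠ x : ℂ in cocompact ℂ, 3 / 4 * Q.r π < ‖x‖ :=
      (tendsto_norm_cocompact_atTop (E := ℂ)).eventually (eventually_gt_atTop _)
    filter_upwards [hev] with x hx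
    have x0 := hx0 x hx
    have := hG x hx
    simp only [Function.comp]
    rw [show A π (Q.c π + x) = -(Q.ε π / x ^ 2 * In1 (Q.ε π / x) + S 0 / x) by
      linear_combination this]
    field_simp
  refine ⟨by rw [hres, neg_neg, S0], fun x hx => ?_⟩
  rw [hres]
  linear_combination hG x hx

end Pool.Agent.MP_4f0ed6_gt

end

section

open Set Laplacian Filter Topology MeasureTheory Metric InnerProductSpace
open scoped ContDiff

namespace Pool.Agent.MP_4f0ed6_gt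

open Classical in
/-- the contribution of the other ports near the port `π` -/
noncomputable def FInjIn {V P : Type} [Fintype P] (Q : Plumb V P) (A : P → ℂ → ℂ) (π : P)
    (y : ℂ) : ℂ :=
  ∑ π' ∈ (Q.pts (Q.pc π)).erase π, A π' (Q.c π + y)

theorem FInj_tube {V P : Type} [Fintype P] {Q : Plumb V P} (hQ : Q.Ok)
    {f : V × Bool → ℂ → ℂ} (hf : f ∈ Q.glue.forms) (h0 : ∀ π, Q.res f π = 0)
    {A : P → ℂ → ℂ} (hA : Q.Splits f A) (π : P) (x : ℂ) (hx : 3 / 4 * Q.r π < ‖x‖) :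
    A π (Q.c π + x) = -(Q.ε π / x ^ 2 * FInjIn Q A (Q.σ π) (Q.ε π / x)) := by
  rw [(Plumb.Splits.tube hQ hf hA π).2 x hx, h0 π, FInjIn]
  simp

theorem FInj_cont {V P : Type} [Fintype P] {Q : Plumb V P} (hQ : Q.Ok)
    {f : V × Bool → ℂ → ℂ} {A : P → ℂ → ℂ} (hA : Q.Splits f A) (π : P) :
    ContinuousOn (FInjIn Q A π) (closedBall 0 (Q.sep / 4)) := by
  classical
  unfold FInjIn
  refine continuousOn_finsetSum _ fun π' hπ' => ?_
  have hne : π' ≠ π := Finset.ne_of_mem_erase hπ'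
  have hp : Q.pc π' = Q.pc π := Plumb.mem_pts.1 (Finset.mem_of_mem_erase hπ')
  refine (hA.hol π').continuousOn.comp (continuous_const.add continuous_id).continuousOn ?_
  intro y hy
  have hy' : ‖y‖ ≤ Q.sep / 4 := by simpa using hy
  have hs := hQ.sep_pos
  have h1 := (hQ.near hne hp (x := y) (by linarith)).1
  have h2 := hQ.r_le' π'
  show 3 / 4 * Q.r π' < ‖Q.c π + y - Q.c π'‖
  linarith

theorem FInj_half {V P : Type} [Fintype P] {Q : Plumb V P} (hQ : Q.Ok)
    {f : V × Bool → ℂ → ℂ} (hf : f ∈ Q.glue.forms) (h0 : ∀ π, Q.res f π = 0)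
    {A : P → ℂ → ℂ} (hA : Q.Splits f A) {q : ℝ} (hq0 : 0 ≤ q)
    (hq : ∀ π (y : ℂ), ‖y‖ ≤ Q.sep / 4 → ‖FInjIn Q A π y‖ ≤ q) (π : P) (y : ℂ)
    (hy : ‖y‖ ≤ Q.sep / 4) : ‖FInjIn Q A π y‖ ≤ q * (1 / 2) := by
  classical
  have hs := hQ.sep_pos
  have hn : 1 ≤ Q.n := Plumb.one_le_n
  have key : ∀ π' ∈ (Q.pts (Q.pc π)).erase π, ‖A π' (Q.c π + y)‖ ≤ q * (1 / 2) / Q.n := by
    intro π' hπ'
    have hne : π' ≠ π := Finset.ne_of_mem_erase hπ'
    have hp : Q.pc π' = Q.pc π := Plumb.mem_pts.1 (Finset.mem_of_mem_erase hπ')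
    have h1 := (hQ.near hne hp (x := y) (by linarith)).1
    have h2 := hQ.r_le' π'
    have h3 := hQ.r_le π'
    have hr := Plumb.r_pos (Q := Q) π'
    set x := Q.c π + y - Q.c π' with hxdef
    have hx : Q.c π + y = Q.c π' + x := by rw [hxdef]; ring
    have hxpos : 0 < ‖x‖ := by linarith
    rw [hx, FInj_tube hQ hf h0 hA π' x (by linarith), norm_neg, norm_mul]
    have hb : ‖Q.ε π' / x‖ ≤ Q.sep / 4 := by
      rw [norm_div, Plumb.norm_ε, div_le_iff₀ hxpos]
      nlinarith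
    have hc : ‖Q.ε π' / x ^ 2‖ ≤ 1 / 2 / Q.n := by
      rw [norm_div, Plumb.norm_ε, norm_pow, div_le_div_iff₀ (by positivity) (by linarith)]
      have h4 : 8 * (Q.n * Q.r π') ≤ ‖x‖ := by linarith
      have h5 : Q.r π' ≤ Q.n * Q.r π' := by nlinarith
      have h6 : (8 * (Q.n * Q.r π')) ^ 2 ≤ ‖x‖ ^ 2 :=
        pow_le_pow_left₀ (by positivity) h4 2
      have h7 : Q.r π' * (Q.n * Q.r π') ≤ (Q.n * Q.r π') * (Q.n * Q.r π') :=
        mul_le_mul_of_nonneg_right h5 (by positivity)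
      nlinarith
    calc ‖Q.ε π' / x ^ 2‖ * ‖FInjIn Q A (Q.σ π') (Q.ε π' / x)‖ ≤ 1 / 2 / Q.n * q :=
          mul_le_mul hc (hq _ _ hb) (norm_nonneg _) (by positivity)
      _ = q * (1 / 2) / Q.n := by ring
  have hcard : (((Q.pts (Q.pc π)).erase π).card : ℝ) ≤ Q.n :=
    le_trans (by exact_mod_cast Finset.card_erase_le) (Plumb.card_pts_le _)
  calc ‖FInjIn Q A π y‖ ≤ ∑ π' ∈ (Q.pts (Q.pc π)).erase π, ‖A π' (Q.c π + y)‖ := by
        unfold FInjIn
        convert norm_sum_le _ _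
    _ ≤ ((Q.pts (Q.pc π)).erase π).card • (q * (1 / 2) / Q.n) :=
        Finset.sum_le_card_nsmul _ _ _ key
    _ = (((Q.pts (Q.pc π)).erase π).card : ℝ) * (q * (1 / 2) / Q.n) := by rw [nsmul_eq_mul]
    _ ≤ Q.n * (q * (1 / 2) / Q.n) := mul_le_mul_of_nonneg_right hcard (by positivity)
    _ = q * (1 / 2) := by field_simp

theorem FInj_in_zero {V P : Type} [Fintype P] {Q : Plumb V P} (hQ : Q.Ok)
    {f : V × Bool → ℂ → ℂ} (hf : f ∈ Q.glue.forms) (h0 : ∀ π, Q.res f π = 0)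
    {A : P → ℂ → ℂ} (hA : Q.Splits f A) (π : P) (y : ℂ) (hy : ‖y‖ ≤ Q.sep / 4) :
    FInjIn Q A π y = 0 := by
  have hb : ∀ π, ∃ C, ∀ y ∈ closedBall (0 : ℂ) (Q.sep / 4), ‖FInjIn Q A π y‖ ≤ C := fun π =>
    (isCompact_closedBall _ _).exists_bound_of_continuousOn (FInj_cont hQ hA π)
  choose C hC using hb
  have hC0 : 0 ≤ ∑ π, |C π| := Finset.sum_nonneg fun _ _ => abs_nonneg _
  have hk : ∀ k : ℕ, ∀ π (y : ℂ), ‖y‖ ≤ Q.sep / 4 →
      ‖FInjIn Q A π y‖ ≤ (∑ π, |C π|) * (1 / 2) ^ k := by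
    intro k
    induction k with
    | zero =>
      intro π y hy
      have h1 := hC π y (by simpa using hy)
      have h2 : |C π| ≤ ∑ π, |C π| :=
        Finset.single_le_sum (f := fun π => |C π|) (fun _ _ => abs_nonneg _) (Finset.mem_univ π)
      have h3 := le_abs_self (C π)
      simp only [pow_zero, mul_one]
      linarith
    | succ k ih =>
      intro π y hy
      rw [pow_succ, ← mul_assoc]
      exact FInj_half hQ hf h0 hA (by positivity) ih π y hy
  have hl : Tendsto (fun k : ℕ => (∑ π, |C π|) * (1 / 2 : ℝ) ^ k) atTop (𝓝 0) := by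
    have := (tendsto_pow_atTop_nhds_zero_of_lt_one (r := (1 / 2 : ℝ)) (by norm_num)
      (by norm_num)).const_mul (∑ π, |C π|)
    simpa using this
  exact norm_le_zero_iff.1 (ge_of_tendsto' hl fun k => hk k π y hy)

theorem FInj_far {V P : Type} [Fintype P] {Q : Plumb V P} (hQ : Q.Ok)
    {f : V × Bool → ℂ → ℂ} (hf : f ∈ Q.glue.forms) (h0 : ∀ π, Q.res f π = 0) (v : V) (w : ℂ)
    (hw : ‖w‖ < 2) (hfar : ∀ π, Q.pc π = v → 3 / 4 * Q.r π < ‖w - Q.c π‖) :
    f (v, false) w = 0 := by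
  obtain ⟨⟨A, hA⟩, -⟩ := Plumb.exists_splits hQ hf
  rw [hA.eq v w hw hfar]
  refine Finset.sum_eq_zero fun π hπ => ?_
  have h1 := hfar π (Plumb.mem_pts.1 hπ)
  have h2 := hQ.r_le' π
  have hr := Plumb.r_pos (Q := Q) π
  have hx : w = Q.c π + (w - Q.c π) := by ring
  have hxpos : 0 < ‖w - Q.c π‖ := by linarith
  have hb : ‖Q.ε π / (w - Q.c π)‖ ≤ Q.sep / 4 := by
    rw [norm_div, Plumb.norm_ε, div_le_iff₀ hxpos]
    nlinarith
  rw [hx, FInj_tube hQ hf h0 hA π _ h1, FInj_in_zero hQ hf h0 hA _ _ hb]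
  simp

theorem FInj_false {V P : Type} [Fintype P] {Q : Plumb V P} (hQ : Q.Ok)
    {f : V × Bool → ℂ → ℂ} (hf : f ∈ Q.glue.forms) (h0 : ∀ π, Q.res f π = 0) (v : V) (w : ℂ) :
    f (v, false) w = 0 := by
  by_cases hw : w ∈ Q.W (v, false)
  swap
  · exact hf.2.1 (v, false) w hw
  by_cases hfar : ∀ π, Q.pc π = v → 3 / 4 * Q.r π < ‖w - Q.c π‖
  · exact FInj_far hQ hf h0 v w hw.1 hfar
  push Not at hfar
  obtain ⟨π, hπ, hle⟩ := hfar
  have hlt : Q.r π / 2 < ‖w - Q.c π‖ := hw.2 π hπ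
  have hr := Plumb.r_pos (Q := Q) π
  have h2 := hQ.r_le' π
  have hs := hQ.sep_pos
  have hs' := hQ.sep_le
  have hxpos : 0 < ‖w - Q.c π‖ := by linarith
  have hO : w ∈ Q.glue.O (Sum.inl π) := ⟨hlt, by linarith⟩
  have hc : f (Q.pc π, false) w =
      f (Q.pc (Q.σ π), false) (Q.c (Q.σ π) + Q.ε π / (w - Q.c π)) *
        deriv (Q.glue.τ (Sum.inl π)) w := hf.2.2 (Sum.inl π) w hO
  have hy1 : ‖Q.ε π / (w - Q.c π)‖ ≤ 2 * Q.r π := by
    rw [norm_div, Plumb.norm_ε, div_le_iff₀ hxpos]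
    nlinarith
  have hy2 : Q.r π ≤ ‖Q.ε π / (w - Q.c π)‖ := by
    rw [norm_div, Plumb.norm_ε, le_div_iff₀ hxpos]
    nlinarith
  have hz : f (Q.pc (Q.σ π), false) (Q.c (Q.σ π) + Q.ε π / (w - Q.c π)) = 0 := by
    refine FInj_far hQ hf h0 _ _ ?_ ?_
    · have h3 := norm_add_le (Q.c (Q.σ π)) (Q.ε π / (w - Q.c π))
      have h4 := hQ.c_le (Q.σ π)
      linarith
    · intro π' hπ'
      by_cases hne : π' = Q.σ π
      · rw [hne, hQ.r_σ, add_sub_cancel_left]
        linarith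
      · have h3 := (hQ.near hne hπ' (x := Q.ε π / (w - Q.c π)) (by linarith)).1
        have h4 := hQ.r_le' π'
        linarith
  rw [← hπ, hc, hz, zero_mul]

theorem FInj_true {V P : Type} [Fintype P] {Q : Plumb V P} (hQ : Q.Ok)
    {f : V × Bool → ℂ → ℂ} (hf : f ∈ Q.glue.forms) (h0 : ∀ π, Q.res f π = 0) (v : V) (w : ℂ) :
    f (v, true) w = 0 := by
  by_cases hw : w ∈ Q.W (v, true)
  swap
  · exact hf.2.1 (v, true) w hw
  have hW : Q.W (v, true) = ball (0 : ℂ) 2 := by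
    ext z
    simp [Plumb.W]
  have hd : DifferentiableOn ℂ (f (v, true)) (ball (0 : ℂ) 2) := hW ▸ hf.1 (v, true)
  have han : AnalyticOnNhd ℂ (f (v, true)) (ball (0 : ℂ) 2) := hd.analyticOnNhd isOpen_ball
  have hann : ∀ z : ℂ, 1 / 2 < ‖z‖ → ‖z‖ < 2 → f (v, true) z = 0 := by
    intro z h1 h2
    have hO : z ∈ Q.glue.O (Sum.inr (v, true)) := ⟨h1, h2⟩
    have hc : f (v, true) z = f (v, false) z⁻¹ * deriv (Q.glue.τ (Sum.inr (v, true))) z :=
      hf.2.2 (Sum.inr (v, true)) z hO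
    rw [hc, FInj_false hQ hf h0, zero_mul]
  have hev : f (v, true) =ᶠ[𝓝 (1 : ℂ)] 0 := by
    have ho : IsOpen {z : ℂ | 1 / 2 < ‖z‖ ∧ ‖z‖ < 2} :=
      (isOpen_lt continuous_const continuous_norm).inter
        (isOpen_lt continuous_norm continuous_const)
    have hm : (1 : ℂ) ∈ {z : ℂ | 1 / 2 < ‖z‖ ∧ ‖z‖ < 2} := by
      constructor <;> norm_num
    filter_upwards [ho.mem_nhds hm] with z hz using hann z hz.1 hz.2
  exact han.eqOn_zero_of_preconnected_of_eventuallyEq_zero (convex_ball _ _).isPreconnected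
    (by simp) hev (hW ▸ hw)

theorem Plumb.Ok.form_inj {V P : Type} [Fintype P] {Q : Plumb V P} (hQ : Q.Ok)
    {f : V × Bool → ℂ → ℂ} (hf : f ∈ Q.glue.forms) (h0 : ∀ π, Q.res f π = 0) : f = 0 := by
  funext α w
  obtain ⟨v, b⟩ := α
  cases b
  · exact FInj_false hQ hf h0 v w
  · exact FInj_true hQ hf h0 v w

end Pool.Agent.MP_4f0ed6_gt

end

section

open Set Laplacian Filter Topology MeasureTheory Metric InnerProductSpace
open scoped ContDiff

namespace Pool.Agent.MP_4f0ed6_gt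

section
variable {V P : Type} [Fintype P] {Q : Plumb V P}

open Classical in
/-- the linear part of the fixed point equation -/
noncomputable def FFix_L (Q : Plumb V P) (F : P → ℂ → ℂ) (π : P) (x : ℂ) : ℂ :=
  ∑ π' ∈ (Q.pts (Q.pc π)).erase π,
    -(Q.ε π' / (Q.c π + x - Q.c π') ^ 2 * F (Q.σ π') (Q.ε π' / (Q.c π + x - Q.c π')))

open Classical in
theorem FFix_near (hQ : Q.Ok) {π π' : P} (h : π' ∈ (Q.pts (Q.pc π)).erase π) {x : ℂ}
    (hx : ‖x‖ < Q.sep / 4) : Q.sep / 2 ≤ ‖Q.c π + x - Q.c π'‖ ∧ Q.c π + x - Q.c π' ≠ 0 ∧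
      ‖Q.ε π' / (Q.c π + x - Q.c π')‖ < Q.sep / 4 ∧
      ‖Q.ε π' / (Q.c π + x - Q.c π') ^ 2‖ ≤ 1 / (2 * Q.n) := by
  have hs := hQ.sep_pos
  have h1 := (hQ.near (Finset.ne_of_mem_erase h) (Plumb.mem_pts.1 (Finset.mem_of_mem_erase h))
    (x := x) (by linarith)).1
  have h2 : 0 < ‖Q.c π + x - Q.c π'‖ := by linarith
  have h3 := hQ.r_le' π'
  have h4 := hQ.r_le π'
  have h5 := Plumb.r_pos (Q := Q) π'
  have h6 := Plumb.one_le_n (Q := Q)
  refine ⟨h1, norm_pos_iff.1 h2, ?_, ?_⟩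
  · rw [norm_div, Plumb.norm_ε, div_lt_iff₀ h2]
    nlinarith
  · rw [norm_div, norm_pow, Plumb.norm_ε, div_le_div_iff₀ (by positivity) (by positivity)]
    have h7 : Q.r π' * (Q.n * Q.r π') ≤ Q.sep / 16 * (Q.sep / 16) :=
      mul_le_mul (by linarith) (by linarith) (by positivity) (by positivity)
    nlinarith

open Classical in
theorem FFix_diff (hQ : Q.Ok) {F : P → ℂ → ℂ}
    (hF : ∀ π, DifferentiableOn ℂ (F π) {x | ‖x‖ < Q.sep / 4}) (π : P) :
    DifferentiableOn ℂ (FFix_L Q F π) {x | ‖x‖ < Q.sep / 4} := by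
  unfold FFix_L
  refine DifferentiableOn.fun_sum fun π' h => ?_
  have h1 : DifferentiableOn ℂ (fun x => Q.c π + x - Q.c π') {x | ‖x‖ < Q.sep / 4} := by fun_prop
  refine (DifferentiableOn.mul ((differentiableOn_const _).div (h1.pow 2) fun x hx =>
    pow_ne_zero _ (FFix_near hQ h hx).2.1) ?_).neg
  exact (hF _).comp ((differentiableOn_const _).div h1 fun x hx => (FFix_near hQ h hx).2.1)
    fun x hx => (FFix_near hQ h hx).2.2.1

open Classical in
theorem FFix_bound (hQ : Q.Ok) {F : P → ℂ → ℂ} {C : ℝ} (hC : 0 ≤ C)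
    (hF : ∀ π x, ‖x‖ < Q.sep / 4 → ‖F π x‖ ≤ C) (π : P) (x : ℂ) (hx : ‖x‖ < Q.sep / 4) :
    ‖FFix_L Q F π x‖ ≤ C / 2 := by
  have h6 := Plumb.one_le_n (Q := Q)
  refine (norm_sum_le _ _).trans ((Finset.sum_le_card_nsmul _ _ (1 / (2 * Q.n) * C)
    fun π' h => ?_).trans ?_)
  · rw [norm_neg, norm_mul]
    exact mul_le_mul (FFix_near hQ h hx).2.2.2 (hF _ _ (FFix_near hQ h hx).2.2.1) (norm_nonneg _)
      (by positivity)
  · have h1 : (((Q.pts (Q.pc π)).erase π).card : ℝ) ≤ Q.n :=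
      (Nat.cast_le.2 Finset.card_erase_le).trans (Plumb.card_pts_le _)
    rw [nsmul_eq_mul]
    refine (mul_le_mul_of_nonneg_right h1 (by positivity)).trans_eq ?_
    field_simp

end

open Classical in
theorem Plumb.Ok.form_fix {V P : Type} [Fintype P] {Q : Plumb V P} (hQ : Q.Ok) (b : P → ℂ) :
    ∃ H : P → ℂ → ℂ, (∀ π, DifferentiableOn ℂ (H π) {x | ‖x‖ < Q.sep / 4}) ∧
      ∀ π (x : ℂ), ‖x‖ < Q.sep / 4 → H π x = ∑ π' ∈ (Q.pts (Q.pc π)).erase π,
        (b π' / (Q.c π + x - Q.c π') - Q.ε π' / (Q.c π + x - Q.c π') ^ 2 *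
          H (Q.σ π') (Q.ε π' / (Q.c π + x - Q.c π'))) := by
  have hs := hQ.sep_pos
  let D0 : P → ℂ → ℂ := fun π x => ∑ π' ∈ (Q.pts (Q.pc π)).erase π, b π' / (Q.c π + x - Q.c π')
  let C : ℝ := ∑ π', ‖b π'‖ / (Q.sep / 2)
  have hC : 0 ≤ C := Finset.sum_nonneg fun _ _ => by positivity
  let D : ℕ → P → ℂ → ℂ := fun k => (FFix_L Q)^[k] D0
  have hD : ∀ k, D (k + 1) = FFix_L Q (D k) := fun k => Function.iterate_succ_apply' _ _ _
  have h1 : ∀ k π, DifferentiableOn ℂ (D k π) {x | ‖x‖ < Q.sep / 4} := by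
    intro k
    induction k with
    | zero =>
      intro π
      refine DifferentiableOn.fun_sum fun π' h => ?_
      exact (differentiableOn_const _).div (by fun_prop) fun x hx => (FFix_near hQ h hx).2.1
    | succ k ih => rw [hD]; exact FFix_diff hQ ih
  have h2 : ∀ k π x, ‖x‖ < Q.sep / 4 → ‖D k π x‖ ≤ C * (1 / 2) ^ k := by
    intro k
    induction k with
    | zero =>
      intro π x hx
      rw [pow_zero, mul_one]
      refine (norm_sum_le _ _).trans ((Finset.sum_le_sum fun π' h => ?_).trans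
        (Finset.sum_le_sum_of_subset_of_nonneg (Finset.subset_univ _) fun _ _ _ => by positivity))
      rw [norm_div]
      exact div_le_div_of_nonneg_left (norm_nonneg _) (by positivity) (FFix_near hQ h hx).1
    | succ k ih =>
      intro π x hx
      rw [hD]
      exact (FFix_bound hQ (by positivity) ih π x hx).trans_eq (by ring)
  have h3 : Summable fun k : ℕ => C * (1 / 2 : ℝ) ^ k := summable_geometric_two.mul_left C
  have h4 : ∀ π x, ‖x‖ < Q.sep / 4 → Summable fun k => D k π x := fun π x hx =>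
    Summable.of_norm_bounded h3 fun k => h2 k π x hx
  refine ⟨fun π x => ∑' k, D k π x, fun π => ?_, fun π x hx => ?_⟩
  · exact Complex.differentiableOn_tsum_of_summable_norm h3 (fun k => h1 k π)
      (isOpen_lt continuous_norm continuous_const) fun k x hx => h2 k π x hx
  · show ∑' k, D k π x = _
    rw [(h4 π x hx).tsum_eq_zero_add]
    simp only [hD, sub_eq_add_neg (b _ / _), Finset.sum_add_distrib]
    congr 1
    unfold FFix_L
    rw [Summable.tsum_finsetSum fun π' h =>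
      ((h4 _ _ (FFix_near hQ h hx).2.2.1).mul_left _).neg]
    refine Finset.sum_congr rfl fun π' _ => ?_
    rw [tsum_neg, tsum_mul_left]

end Pool.Agent.MP_4f0ed6_gt

end

section

open Set Laplacian Filter Topology MeasureTheory Metric InnerProductSpace
open scoped ContDiff

namespace Pool.Agent.MP_4f0ed6_gt

section FSurj

variable {V P : Type} [Fintype P] {Q : Plumb V P}

/-- the term of a port in the finite chart -/
noncomputable def FSurjT (Q : Plumb V P) (b : P → ℂ) (H : P → ℂ → ℂ) (π : P) (w : ℂ) : ℂ :=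
  b π / (w - Q.c π) - Q.ε π / (w - Q.c π) ^ 2 * H (Q.σ π) (Q.ε π / (w - Q.c π))

/-- the term of a port in the chart at infinity -/
noncomputable def FSurjU (Q : Plumb V P) (b : P → ℂ) (H : P → ℂ → ℂ) (π : P) (w : ℂ) : ℂ :=
  -(b π * Q.c π) / (1 - Q.c π * w) +
    Q.ε π / (1 - Q.c π * w) ^ 2 * H (Q.σ π) (Q.ε π * w / (1 - Q.c π * w))

open Classical in
/-- the form -/
noncomputable def FSurjF (Q : Plumb V P) (b : P → ℂ) (H : P → ℂ → ℂ) : V × Bool → ℂ → ℂ
  | (v, false) => fun w => if w ∈ Q.W (v, false) then ∑ π ∈ Q.pts v, FSurjT Q b H π w else 0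
  | (v, true) => fun w => if w ∈ Q.W (v, true) then ∑ π ∈ Q.pts v, FSurjU Q b H π w else 0

theorem FSurjF_false {b : P → ℂ} {H : P → ℂ → ℂ} {v : V} {w : ℂ} (hw : w ∈ Q.W (v, false)) :
    FSurjF Q b H (v, false) w = ∑ π ∈ Q.pts v, FSurjT Q b H π w := by
  simp only [FSurjF, if_pos hw]

theorem FSurjF_true {b : P → ℂ} {H : P → ℂ → ℂ} {v : V} {w : ℂ} (hw : w ∈ Q.W (v, true)) :
    FSurjF Q b H (v, true) w = ∑ π ∈ Q.pts v, FSurjU Q b H π w := by
  simp only [FSurjF, if_pos hw]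

theorem FSurj_small (hQ : Q.Ok) (π : P) {x : ℂ} (hx : Q.r π / 2 < ‖x‖) :
    x ≠ 0 ∧ ‖Q.ε π / x‖ < 2 * Q.r π := by
  have hr := Plumb.r_pos (Q := Q) π
  have hx0 : 0 < ‖x‖ := by linarith
  refine ⟨norm_pos_iff.1 hx0, ?_⟩
  rw [norm_div, Plumb.norm_ε, div_lt_iff₀ hx0]
  nlinarith

theorem FSurj_big (hQ : Q.Ok) (π : P) {x : ℂ} (hx : Q.r π / 2 < ‖x‖) (hx' : ‖x‖ < 2 * Q.r π) :
    Q.r π / 2 < ‖Q.ε π / x‖ := by
  have hr := Plumb.r_pos (Q := Q) π
  have hx0 : 0 < ‖x‖ := by linarith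
  rw [norm_div, Plumb.norm_ε, lt_div_iff₀ hx0]
  nlinarith

theorem FSurj_open (s : ℝ) : IsOpen {x : ℂ | ‖x‖ < s} :=
  isOpen_lt continuous_norm continuous_const

theorem FSurjT_diff (hQ : Q.Ok) {b : P → ℂ} {H : P → ℂ → ℂ}
    (hH : ∀ π, DifferentiableOn ℂ (H π) {x | ‖x‖ < Q.sep / 4}) (π : P) {w : ℂ}
    (hw : Q.r π / 2 < ‖w - Q.c π‖) : DifferentiableAt ℂ (FSurjT Q b H π) w := by
  obtain ⟨h0, h1⟩ := FSurj_small hQ π hw
  have hr := hQ.r_le' π
  have hs := hQ.sep_pos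
  have hm : Q.ε π / (w - Q.c π) ∈ {x : ℂ | ‖x‖ < Q.sep / 4} := by
    show ‖Q.ε π / (w - Q.c π)‖ < Q.sep / 4
    linarith
  have hd : DifferentiableAt ℂ (H (Q.σ π)) (Q.ε π / (w - Q.c π)) :=
    (hH _).differentiableAt ((FSurj_open _).mem_nhds hm)
  have hx : DifferentiableAt ℂ (fun z : ℂ => z - Q.c π) w := differentiableAt_id.sub_const _
  have hi : DifferentiableAt ℂ (fun z : ℂ => Q.ε π / (z - Q.c π)) w :=
    (differentiableAt_const _).div hx h0
  have hc : DifferentiableAt ℂ (fun z : ℂ => H (Q.σ π) (Q.ε π / (z - Q.c π))) w :=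
    DifferentiableAt.comp (g := H (Q.σ π)) w hd hi
  unfold FSurjT
  exact ((differentiableAt_const _).div hx h0).sub
    (((differentiableAt_const _).div (hx.pow 2) (pow_ne_zero 2 h0)).mul hc)

theorem FSurjU_diff (hQ : Q.Ok) {b : P → ℂ} {H : P → ℂ → ℂ}
    (hH : ∀ π, DifferentiableOn ℂ (H π) {x | ‖x‖ < Q.sep / 4}) (π : P) {w : ℂ}
    (hw : ‖w‖ < 2) : DifferentiableAt ℂ (FSurjU Q b H π) w := by
  have hr := hQ.r_le' π
  have hr0 := Plumb.r_pos (Q := Q) π
  have hs := hQ.sep_pos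
  have hs' := hQ.sep_le
  have hc := hQ.c_le π
  have h1 : ‖Q.c π * w‖ ≤ 1 / 2 := by
    rw [norm_mul]
    nlinarith [norm_nonneg w, norm_nonneg (Q.c π)]
  have h2 : 1 / 2 ≤ ‖1 - Q.c π * w‖ := by
    have := norm_sub_norm_le (1 : ℂ) (Q.c π * w)
    rw [norm_one] at this
    linarith
  have hp : 0 < ‖1 - Q.c π * w‖ := by linarith
  have h0 : 1 - Q.c π * w ≠ 0 := norm_pos_iff.1 hp
  have hm : Q.ε π * w / (1 - Q.c π * w) ∈ {x : ℂ | ‖x‖ < Q.sep / 4} := by
    show ‖Q.ε π * w / (1 - Q.c π * w)‖ < Q.sep / 4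
    rw [norm_div, norm_mul, Plumb.norm_ε, div_lt_iff₀ hp]
    have h3 : Q.r π ^ 2 * ‖w‖ ≤ Q.r π ^ 2 * 2 := mul_le_mul_of_nonneg_left hw.le (by positivity)
    have h4 : Q.r π ^ 2 ≤ Q.sep / 16 * (1 / 64) := by nlinarith
    nlinarith
  have hd : DifferentiableAt ℂ (H (Q.σ π)) (Q.ε π * w / (1 - Q.c π * w)) :=
    (hH _).differentiableAt ((FSurj_open _).mem_nhds hm)
  have hx : DifferentiableAt ℂ (fun z : ℂ => 1 - Q.c π * z) w :=
    (differentiableAt_id.const_mul _).const_sub _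
  have hi : DifferentiableAt ℂ (fun z : ℂ => Q.ε π * z / (1 - Q.c π * z)) w :=
    (differentiableAt_id.const_mul _).div hx h0
  have hc : DifferentiableAt ℂ (fun z : ℂ => H (Q.σ π) (Q.ε π * z / (1 - Q.c π * z))) w :=
    DifferentiableAt.comp (g := H (Q.σ π)) w hd hi
  unfold FSurjU
  exact ((differentiableAt_const _).div hx h0).add
    (((differentiableAt_const _).div (hx.pow 2) (pow_ne_zero 2 h0)).mul hc)

theorem FSurj_tube_W (hQ : Q.Ok) (π : P) {x : ℂ} (hx : Q.r π / 2 < ‖x‖) (hx' : ‖x‖ < 2 * Q.r π) :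
    Q.c π + x ∈ Q.W (Q.pc π, false) := by
  have hr := hQ.r_le' π
  have hs := hQ.sep_pos
  have hs' := hQ.sep_le
  have hc := hQ.c_le π
  refine ⟨?_, fun π' hp => ?_⟩
  · have := norm_add_le (Q.c π) x
    linarith
  · by_cases h : π' = π
    · subst h
      rwa [add_sub_cancel_left]
    · have h1 := (hQ.near h hp (x := x) (by linarith)).1
      have h2 := hQ.r_le' π'
      linarith

open Classical in
theorem FSurj_tube (hQ : Q.Ok) {b : P → ℂ} {H : P → ℂ → ℂ}
    (hH : ∀ π (x : ℂ), ‖x‖ < Q.sep / 4 → H π x = ∑ π' ∈ (Q.pts (Q.pc π)).erase π,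
        (b π' / (Q.c π + x - Q.c π') - Q.ε π' / (Q.c π + x - Q.c π') ^ 2 *
          H (Q.σ π') (Q.ε π' / (Q.c π + x - Q.c π'))))
    (π : P) {x : ℂ} (hx : Q.r π / 2 < ‖x‖) (hx' : ‖x‖ < 2 * Q.r π) :
    FSurjF Q b H (Q.pc π, false) (Q.c π + x) =
      b π / x - Q.ε π / x ^ 2 * H (Q.σ π) (Q.ε π / x) + H π x := by
  have hr := hQ.r_le' π
  have hs := hQ.sep_pos
  rw [FSurjF_false (FSurj_tube_W hQ π hx hx'),
    ← Finset.add_sum_erase _ _ (Plumb.mem_pts.2 (rfl : Q.pc π = Q.pc π)), hH π x (by linarith)]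
  simp only [FSurjT, add_sub_cancel_left]

theorem FSurj_cap_W (hQ : Q.Ok) (v : V) {w : ℂ} (hw : 1 / 2 < ‖w‖) (hw' : ‖w‖ < 2) :
    w ∈ Q.W (v, false) := by
  refine ⟨hw', fun π _ => ?_⟩
  have hr := hQ.r_le' π
  have hs' := hQ.sep_le
  have hc := hQ.c_le π
  have := norm_sub_norm_le w (Q.c π)
  linarith

theorem FSurj_inv {w : ℂ} (hw : 1 / 2 < ‖w‖) (hw' : ‖w‖ < 2) : 1 / 2 < ‖w⁻¹‖ ∧ ‖w⁻¹‖ < 2 := by
  have h0 : 0 < ‖w‖ := by linarith
  rw [norm_inv]
  constructor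
  · rw [lt_inv_comm₀ (by norm_num) h0]
    linarith
  · rw [inv_lt_comm₀ h0 (by norm_num)]
    linarith

theorem FSurj_cap (hQ : Q.Ok) {b : P → ℂ} (hb : b ∈ Q.cyc) (H : P → ℂ → ℂ) (v : V) {w : ℂ}
    (hw : 1 / 2 < ‖w‖) (hw' : ‖w‖ < 2) :
    FSurjF Q b H (v, false) w = FSurjF Q b H (v, true) w⁻¹ * (-(w ^ 2)⁻¹) := by
  have hW := FSurj_cap_W hQ v hw hw'
  have hW' : w⁻¹ ∈ Q.W (v, true) := (FSurj_inv hw hw').2
  have hw0 : w ≠ 0 := norm_pos_iff.1 (by linarith)
  rw [FSurjF_false hW, FSurjF_true hW', Finset.sum_mul]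
  have h0 : ∑ π ∈ Q.pts v, b π / w = 0 := by
    rw [← Finset.sum_div, hb.2 v, zero_div]
  rw [← add_zero (∑ π ∈ Q.pts v, FSurjU Q b H π w⁻¹ * -(w ^ 2)⁻¹), ← h0, ← Finset.sum_add_distrib]
  refine Finset.sum_congr rfl fun π hπ => ?_
  have hx : w - Q.c π ≠ 0 := (FSurj_small hQ π (hW.2 π (Plumb.mem_pts.1 hπ))).1
  have e1 : 1 - Q.c π * w⁻¹ = (w - Q.c π) / w := by field_simp
  have e2 : Q.ε π * w⁻¹ / ((w - Q.c π) / w) = Q.ε π / (w - Q.c π) := by field_simp
  simp only [FSurjT, FSurjU, e1, e2]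
  field_simp
  ring

theorem FSurj_res {c e β : ℂ} {r s : ℝ} (hr : 0 < r) (hrs : r < s) (he : ‖e‖ = r ^ 2)
    {H₀ H₁ F : ℂ → ℂ} (h₀ : DifferentiableOn ℂ H₀ {x | ‖x‖ < s})
    (h₁ : DifferentiableOn ℂ H₁ {x | ‖x‖ < s})
    (hF : ∀ x : ℂ, ‖x‖ = r → F (c + x) = β / x - e / x ^ 2 * H₁ (e / x) + H₀ x) :
    (2 * Real.pi * Complex.I)⁻¹ * ∮ z in C(c, r), F z = β := by
  have hb : {x : ℂ | ‖x‖ < s} = ball 0 s := by
    ext x
    simp
  rw [hb] at h₀ h₁
  obtain ⟨G₀, hG₀⟩ := h₀.isExactOn_ball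
  obtain ⟨G₁, hG₁⟩ := h₁.isExactOn_ball
  have hsp : ∀ z ∈ sphere c r, ‖z - c‖ = r ∧ z - c ≠ 0 ∧ ‖e / (z - c)‖ = r := by
    intro z hz
    have h1 : ‖z - c‖ = r := by rwa [mem_sphere, dist_eq_norm] at hz
    refine ⟨h1, norm_pos_iff.1 (by linarith), ?_⟩
    rw [norm_div, he, h1]
    field_simp
  have hder : ∀ z ∈ sphere c r, HasDerivAt (fun z => G₁ (e / (z - c)) + G₀ (z - c))
      (-(e / (z - c) ^ 2 * H₁ (e / (z - c))) + H₀ (z - c)) z := by
    intro z hz
    obtain ⟨h1, h2, h3⟩ := hsp z hz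
    have hx : HasDerivAt (fun z : ℂ => z - c) 1 z := (hasDerivAt_id z).sub_const c
    have hi : HasDerivAt (fun z : ℂ => e / (z - c)) (-(e / (z - c) ^ 2)) z := by
      refine ((hasDerivAt_const z e).fun_div hx h2).congr_deriv ?_
      field_simp
      ring
    have a1 : HasDerivAt (fun z => G₁ (e / (z - c))) _ z := HasDerivAt.comp (h₂ := G₁) z
      (hG₁ (e / (z - c)) (by simp only [mem_ball_zero_iff]; linarith)) hi
    have a0 : HasDerivAt (fun z => G₀ (z - c)) _ z := HasDerivAt.comp (h₂ := G₀) z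
      (hG₀ (z - c) (by simp only [mem_ball_zero_iff]; linarith)) hx
    refine (a1.fun_add a0).congr_deriv ?_
    ring
  have hcont : ContinuousOn (fun z => -(e / (z - c) ^ 2 * H₁ (e / (z - c))) + H₀ (z - c))
      (sphere c r) := by
    intro z hz
    obtain ⟨h1, h2, h3⟩ := hsp z hz
    have hx : ContinuousAt (fun z : ℂ => z - c) z := continuousAt_id.sub continuousAt_const
    have hi : ContinuousAt (fun z : ℂ => e / (z - c)) z := continuousAt_const.div hx h2
    have c1 : ContinuousAt H₁ (e / (z - c)) :=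
      (h₁.differentiableAt (isOpen_ball.mem_nhds
        (by simp only [mem_ball_zero_iff]; linarith))).continuousAt
    have c0 : ContinuousAt H₀ (z - c) :=
      (h₀.differentiableAt (isOpen_ball.mem_nhds
        (by simp only [mem_ball_zero_iff]; linarith))).continuousAt
    have a1 : ContinuousAt (fun z : ℂ => H₁ (e / (z - c))) z := ContinuousAt.comp (g := H₁) c1 hi
    have a0 : ContinuousAt (fun z : ℂ => H₀ (z - c)) z := ContinuousAt.comp (g := H₀) c0 hx
    exact (((continuousAt_const.div (hx.pow 2) (pow_ne_zero 2 h2)).mul a1).neg.add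
      a0).continuousWithinAt
  have hcont' : ContinuousOn (fun z => β * (z - c)⁻¹) (sphere c r) := by
    intro z hz
    obtain ⟨h1, h2, h3⟩ := hsp z hz
    have hx : ContinuousAt (fun z : ℂ => z - c) z := continuousAt_id.sub continuousAt_const
    exact (continuousAt_const.mul (hx.inv₀ h2)).continuousWithinAt
  have hz0 : (∮ z in C(c, r), (-(e / (z - c) ^ 2 * H₁ (e / (z - c))) + H₀ (z - c))) = 0 :=
    circleIntegral.integral_eq_zero_of_hasDerivWithinAt hr.le fun z hz =>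
      (hder z hz).hasDerivWithinAt
  have hE : EqOn F (fun z => β * (z - c)⁻¹ +
      (-(e / (z - c) ^ 2 * H₁ (e / (z - c))) + H₀ (z - c))) (sphere c r) := by
    intro z hz
    have := hF (z - c) (hsp z hz).1
    rw [add_sub_cancel] at this
    rw [this]
    ring
  rw [circleIntegral.integral_congr hr.le hE,
    circleIntegral.integral_add (hcont'.circleIntegrable hr.le) (hcont.circleIntegrable hr.le),
    hz0, circleIntegral.integral_const_mul, circleIntegral.integral_sub_center_inv c hr.ne']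
  have : (2 * Real.pi * Complex.I : ℂ) ≠ 0 := Complex.two_pi_I_ne_zero
  field_simp
  ring

end FSurj

theorem Plumb.Ok.form_surj {V P : Type} [Fintype P] {Q : Plumb V P} (hQ : Q.Ok) {b : P → ℂ}
    (hb : b ∈ Q.cyc) : ∃ f ∈ Q.glue.forms, Q.res f = b := by
  obtain ⟨H, hH, hfix⟩ := hQ.form_fix b
  refine ⟨FSurjF Q b H, ⟨?_, ?_, ?_⟩, ?_⟩
  · rintro ⟨v, _ | _⟩
    · refine DifferentiableOn.congr (f := fun w => ∑ π ∈ Q.pts v, FSurjT Q b H π w) ?_
        fun w hw => FSurjF_false hw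
      intro w hw
      exact (DifferentiableAt.fun_sum fun π hπ =>
        FSurjT_diff hQ hH π (hw.2 π (Plumb.mem_pts.1 hπ))).differentiableWithinAt
    · refine DifferentiableOn.congr (f := fun w => ∑ π ∈ Q.pts v, FSurjU Q b H π w) ?_
        fun w hw => FSurjF_true hw
      intro w hw
      exact (DifferentiableAt.fun_sum fun π _ => FSurjU_diff hQ hH π hw).differentiableWithinAt
  · rintro ⟨v, _ | _⟩ z hz
    · have hz' : z ∉ Q.W (v, false) := hz
      simp only [FSurjF, if_neg hz']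
    · have hz' : z ∉ Q.W (v, true) := hz
      simp only [FSurjF, if_neg hz']
  · rintro (π | ⟨v, _ | _⟩) z hz
    · obtain ⟨h1, h2⟩ : Q.r π / 2 < ‖z - Q.c π‖ ∧ ‖z - Q.c π‖ < 2 * Q.r π := hz
      obtain ⟨h0, h3⟩ := FSurj_small hQ π h1
      have h4 := FSurj_big hQ π h1 h2
      have e1 := FSurj_tube hQ hfix π h1 h2
      have e2 := FSurj_tube hQ hfix (Q.σ π) (x := Q.ε π / (z - Q.c π))
        (by rw [hQ.r_σ]; exact h4) (by rw [hQ.r_σ]; exact h3)
      rw [add_sub_cancel] at e1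
      have he : Q.ε π ≠ 0 := by
        rw [← norm_pos_iff, Plumb.norm_ε]
        exact pow_pos (Plumb.r_pos π) 2
      have e3 : Q.ε π / (Q.ε π / (z - Q.c π)) = z - Q.c π := by field_simp
      rw [hQ.ε_σ, hQ.σσ, hb.1, e3] at e2
      have hd : HasDerivAt (fun w => Q.c (Q.σ π) + Q.ε π / (w - Q.c π))
          (-(Q.ε π / (z - Q.c π) ^ 2)) z := by
        have hx : HasDerivAt (fun w : ℂ => w - Q.c π) 1 z := (hasDerivAt_id z).sub_const _
        refine (((hasDerivAt_const z (Q.ε π)).fun_div hx h0).const_add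
          (Q.c (Q.σ π))).congr_deriv ?_
        field_simp
        ring
      show FSurjF Q b H (Q.pc π, false) z = FSurjF Q b H (Q.pc (Q.σ π), false)
        (Q.c (Q.σ π) + Q.ε π / (z - Q.c π)) *
          deriv (fun w => Q.c (Q.σ π) + Q.ε π / (w - Q.c π)) z
      rw [e1, e2, hd.deriv]
      field_simp
      ring
    · obtain ⟨h1, h2⟩ : 1 / 2 < ‖z‖ ∧ ‖z‖ < 2 := hz
      show FSurjF Q b H (v, false) z = FSurjF Q b H (v, true) z⁻¹ * deriv (fun w : ℂ => w⁻¹) z
      rw [FSurj_cap hQ hb H v h1 h2, deriv_inv]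
    · obtain ⟨h1, h2⟩ : 1 / 2 < ‖z‖ ∧ ‖z‖ < 2 := hz
      obtain ⟨h3, h4⟩ := FSurj_inv h1 h2
      have hz0 : z ≠ 0 := norm_pos_iff.1 (by linarith)
      show FSurjF Q b H (v, true) z = FSurjF Q b H (v, false) z⁻¹ * deriv (fun w : ℂ => w⁻¹) z
      rw [FSurj_cap hQ hb H v h3 h4, deriv_inv, inv_inv]
      field_simp
  · funext π
    have hr := hQ.r_le' π
    have hr0 := Plumb.r_pos (Q := Q) π
    have hs := hQ.sep_pos
    exact FSurj_res (s := Q.sep / 4) hr0 (by linarith) (Plumb.norm_ε π) (hH π) (hH (Q.σ π))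
      fun x hx => FSurj_tube hQ hfix π (by linarith) (by linarith)

end Pool.Agent.MP_4f0ed6_gt

end

section

open Set Laplacian Filter Topology MeasureTheory Metric InnerProductSpace
open scoped ContDiff

namespace Pool.Agent.MP_4f0ed6_gt

namespace Plumb

variable {V P : Type} [Fintype V] [Fintype P] {Q : Plumb V P}

omit [Fintype V] in
theorem Ok.Genus_sphere (hQ : Q.Ok) (π : P) :
    sphere (Q.c π) (Q.r π) ⊆ Q.W (Q.pc π, false) := by
  intro w hw
  have h1 : ‖w - Q.c π‖ = Q.r π := mem_sphere_iff_norm.1 hw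
  have h2 := hQ.r_le' π
  have h3 := hQ.sep_le
  have h4 : 0 < Q.r π := r_pos π
  refine ⟨?_, fun π' hp => ?_⟩
  · have h5 := hQ.c_le π
    have h6 : ‖w‖ ≤ ‖w - Q.c π‖ + ‖Q.c π‖ := by
      simpa using norm_add_le (w - Q.c π) (Q.c π)
    linarith
  · by_cases h : π' = π
    · rw [h, h1]
      linarith
    · have h5 := (hQ.near h hp (x := w - Q.c π) (by linarith)).1
      have h6 := hQ.r_le' π'
      have h7 : 0 < Q.r π' := r_pos π'
      rw [add_sub_cancel] at h5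
      linarith

omit [Fintype V] in
theorem Ok.Genus_int (hQ : Q.Ok) {f : V × Bool → ℂ → ℂ} (hf : f ∈ Q.glue.forms) (π : P) :
    CircleIntegrable (f (Q.pc π, false)) (Q.c π) (Q.r π) :=
  ContinuousOn.circleIntegrable (r_pos π).le
    ((hf.1 (Q.pc π, false)).continuousOn.mono (hQ.Genus_sphere π))

/-- the residue map -/
noncomputable def Ok.Genus_res (hQ : Q.Ok) : Q.glue.forms →ₗ[ℂ] Q.cyc where
  toFun f := ⟨Q.res f.1, fun π => by
    obtain ⟨⟨A, hA⟩, -⟩ := exists_splits hQ f.2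
    exact (Splits.tube hQ f.2 hA π).1, (exists_splits hQ f.2).2⟩
  map_add' f g := Subtype.ext (funext fun π => by
    have h := circleIntegral.integral_add (hQ.Genus_int f.2 π) (hQ.Genus_int g.2 π)
    change Q.res (f.1 + g.1) π = Q.res f.1 π + Q.res g.1 π
    simp only [res, Pi.add_apply]
    rw [h, mul_add])
  map_smul' a f := Subtype.ext (funext fun π => by
    have h := circleIntegral.integral_smul a (f.1 (Q.pc π, false)) (Q.c π) (Q.r π)
    change Q.res (a • f.1) π = a • Q.res f.1 π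
    simp only [res, Pi.smul_apply]
    rw [h, smul_eq_mul, smul_eq_mul, mul_left_comm])

theorem Ok.finrank_forms (hQ : Q.Ok) :
    2 * (Module.finrank ℂ Q.glue.forms + Fintype.card V) = Fintype.card P + 2 := by
  have hb : Function.Bijective hQ.Genus_res := by
    refine ⟨(injective_iff_map_eq_zero _).2 fun f hf => Subtype.ext ?_, fun b => ?_⟩
    · exact hQ.form_inj f.2 fun π => congrFun (congrArg Subtype.val hf) π
    · obtain ⟨f, hf, h⟩ := hQ.form_surj b.2
      exact ⟨⟨f, hf⟩, Subtype.ext h⟩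
  rw [(LinearEquiv.ofBijective _ hb).finrank_eq]
  exact hQ.finrank_cyc

end Plumb

end Pool.Agent.MP_4f0ed6_gt

end

section

open Set Laplacian Filter Topology MeasureTheory Metric InnerProductSpace
open scoped ContDiff

namespace Pool.Agent.MP_4f0ed6_gt

theorem Pol1_two {F G : ℂ → ℝ} {z : ℂ} (hF : ContDiffAt ℝ 2 F z) (hG : ContDiffAt ℝ 2 G z)
    (v : ℂ) : fderiv ℝ (fderiv ℝ fun w => F w * G w) z v v =
      F z * fderiv ℝ (fderiv ℝ G) z v v + G z * fderiv ℝ (fderiv ℝ F) z v v +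
        2 * (fderiv ℝ F z v * fderiv ℝ G z v) := by
  have d1 : ∀ {H : ℂ → ℝ}, ContDiffAt ℝ 2 H z → ∀ᶠ w in 𝓝 z, DifferentiableAt ℝ H w :=
    fun h => (h.eventually (by simp)).mono fun w hw => hw.differentiableAt (by simp)
  have d2 : ∀ {H : ℂ → ℝ}, ContDiffAt ℝ 2 H z →
      HasFDerivAt (fderiv ℝ H) (fderiv ℝ (fderiv ℝ H) z) z := fun h =>
    ((h.fderiv_right (m := 1) (by norm_num)).differentiableAt (by simp)).hasFDerivAt
  have e : (fderiv ℝ fun w => F w * G w) =ᶠ[𝓝 z]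
      fun w => F w • fderiv ℝ G w + G w • fderiv ℝ F w := by
    filter_upwards [d1 hF, d1 hG] with w h1 h2 using fderiv_fun_mul h1 h2
  rw [e.fderiv_eq, (((d1 hF).self_of_nhds.hasFDerivAt.fun_smul (d2 hG)).fun_add
    ((d1 hG).self_of_nhds.hasFDerivAt.fun_smul (d2 hF))).fderiv]
  simp
  ring

theorem Pol1_lap_mul {F G : ℂ → ℝ} {z : ℂ} (hF : ContDiffAt ℝ 2 F z) (hG : ContDiffAt ℝ 2 G z) :
    Δ (fun w => F w * G w) z = F z * Δ G z + G z * Δ F z +
      2 * (fderiv ℝ F z 1 * fderiv ℝ G z 1 + fderiv ℝ F z Complex.I * fderiv ℝ G z Complex.I) := by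
  simp only [laplacian_eq_iteratedFDeriv_complexPlane, iteratedFDeriv_two_apply,
    Matrix.cons_val_zero, Matrix.cons_val_one, Pol1_two hF hG]
  ring

theorem Pol1_log {c u : ℂ} (h : u - c ≠ 0) (v : ℂ) :
    fderiv ℝ (fun w => Real.log ‖w - c‖) u v = (v / (u - c)).re := by
  have h0 : ‖u - c‖ ≠ 0 := norm_ne_zero_iff.2 h
  have e : (fun w => Real.log ‖w - c‖) = fun w => (1 / 2 : ℝ) * Real.log (‖w - c‖ ^ 2) := by
    funext w
    rw [Real.log_pow]
    push_cast
    ring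
  have d : HasFDerivAt (fun w : ℂ => w - c) (ContinuousLinearMap.id ℝ ℂ) u :=
    (hasFDerivAt_id u).sub_const c
  rw [e, ((d.norm_sq.log (pow_ne_zero 2 h0)).const_mul (1 / 2 : ℝ)).fderiv, Complex.div_re,
    Complex.normSq_eq_norm_sq]
  simp [Complex.inner]
  field_simp
  ring

theorem Pol1_kk {c u : ℂ} (h1 : u - c ≠ 0) (h2 : u + c ≠ 0) :
    ContDiffAt ℝ ∞ (fun w => kk w c) u ∧ Δ (fun w => kk w c) u = 0 ∧
      ∀ v, fderiv ℝ (fun w => kk w c) u v = (v * (2 * c / (u ^ 2 - c ^ 2))).re := by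
  have a1 : AnalyticAt ℂ (fun w => w - c) u := by fun_prop
  have a2 : AnalyticAt ℂ (fun w => w + c) u := by fun_prop
  have s1 := log_norm_smooth a1 h1
  have s2 := log_norm_smooth a2 h2
  have le : (2 : WithTop ℕ∞) ≤ ∞ := WithTop.coe_le_coe.2 le_top
  unfold kk
  refine ⟨s1.sub s2, ?_, fun v => ?_⟩
  · rw [lap_sub (s1.of_le le) (s2.of_le le), log_norm_lap a1 h1, log_norm_lap a2 h2, sub_self]
  · have h3 := Pol1_log (c := -c) (u := u) (by rwa [sub_neg_eq_add]) v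
    simp only [sub_neg_eq_add] at h3
    rw [fderiv_fun_sub (s1.differentiableAt (by simp)) (s2.differentiableAt (by simp)),
      _root_.sub_apply, Pol1_log h1, h3, ← Complex.sub_re, sq_sub_sq]
    congr 1
    field_simp
    ring

theorem lap_kk_mul {a b : ℝ} {u : ℂ} (hre : u.re ≠ 0) (him : u.im ≠ 0) :
    ContDiffAt ℝ ∞ (fun u => kk (a : ℂ) u * kk u (b * Complex.I)) u ∧
      Δ (fun u => kk (a : ℂ) u * kk u (b * Complex.I)) u =
        2 * ((2 * a / (u ^ 2 - a ^ 2)) *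
          (starRingEnd ℂ) (2 * b * Complex.I / (u ^ 2 + b ^ 2))).re := by
  have le : (2 : WithTop ℕ∞) ≤ ∞ := WithTop.coe_le_coe.2 le_top
  obtain ⟨f1, f2, f3⟩ := Pol1_kk (c := a) (u := u)
    (fun h => him (by simpa using congrArg Complex.im h))
    (fun h => him (by simpa using congrArg Complex.im h))
  obtain ⟨g1, g2, g3⟩ := Pol1_kk (c := b * Complex.I) (u := u)
    (fun h => hre (by simpa using congrArg Complex.re h))
    (fun h => hre (by simpa using congrArg Complex.re h))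
  simp only [kk_comm (a : ℂ)]
  refine ⟨f1.mul g1, ?_⟩
  rw [Pol1_lap_mul (f1.of_le le) (g1.of_le le), f2, g2, f3, f3, g3, g3, mul_pow, Complex.I_sq,
    mul_neg_one, sub_neg_eq_add, ← mul_assoc 2 (b : ℂ)]
  generalize 2 * (a : ℂ) / (u ^ 2 - a ^ 2) = α
  generalize 2 * (b : ℂ) * Complex.I / (u ^ 2 + b ^ 2) = β
  simp

theorem polarize (p : MvPolynomial (Fin 2) ℂ) {c : ℂ} {r : ℝ} (hr : 0 < r)
    (h : ∀ u ∈ ball c r, MvPolynomial.eval ![u, (starRingEnd ℂ) u] p = 0) (u w : ℂ) :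
    MvPolynomial.eval ![u, w] p = 0 := by
  let q : MvPolynomial (Fin 2) ℂ := MvPolynomial.bind₁
    ![MvPolynomial.X 0 + MvPolynomial.C Complex.I * MvPolynomial.X 1,
      MvPolynomial.X 0 - MvPolynomial.C Complex.I * MvPolynomial.X 1] p
  have hq : ∀ x : Fin 2 → ℂ, MvPolynomial.eval x q =
      MvPolynomial.eval ![x 0 + Complex.I * x 1, x 0 - Complex.I * x 1] p := fun x => by
    rw [← MvPolynomial.aeval_eq_eval, MvPolynomial.aeval_bind₁, MvPolynomial.aeval_eq_eval]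
    congr 2
    funext i
    fin_cases i <;> simp
  have hi : ∀ t : ℝ, (Complex.ofReal '' Ioo (t - r / 2) (t + r / 2)).Infinite := fun t =>
    (Ioo_infinite (by linarith)).image Complex.ofReal_injective.injOn
  have h0 : q = 0 := MvPolynomial.funext_set
    ![Complex.ofReal '' Ioo (c.re - r / 2) (c.re + r / 2),
      Complex.ofReal '' Ioo (c.im - r / 2) (c.im + r / 2)]
    (fun i => by fin_cases i <;> exact hi _) fun x hx => by
      obtain ⟨s, hs, e0⟩ := hx 0 trivial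
      obtain ⟨t, ht, e1⟩ := hx 1 trivial
      have := h (s + Complex.I * t) (by
        rw [mem_ball, Complex.dist_eq]
        refine (Complex.norm_le_abs_re_add_abs_im _).trans_lt ?_
        have a1 : |s - c.re| < r / 2 := abs_lt.2 ⟨by linarith [hs.1], by linarith [hs.2]⟩
        have a2 : |t - c.im| < r / 2 := abs_lt.2 ⟨by linarith [ht.1], by linarith [ht.2]⟩
        simp
        linarith)
      rw [hq, map_zero, ← e0, ← e1, ← this]
      simp [sub_eq_add_neg]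
  have := hq ![(u + w) / 2, -Complex.I * ((u - w) / 2)]
  rw [h0, map_zero] at this
  rw [this]
  congr 2
  simp only [Matrix.cons_val_zero, Matrix.cons_val_one, ← mul_assoc, mul_neg, Complex.I_mul_I]
  congr <;> ring

end Pool.Agent.MP_4f0ed6_gt

end

section

open Set Laplacian Filter Topology MeasureTheory Metric InnerProductSpace
open scoped ContDiff

namespace Pool.Agent.MP_4f0ed6_gt

theorem Pol_re {a b : ℝ} {u : ℂ} :
    ((2 * ((2 * a / (u ^ 2 - a ^ 2)) *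
      (starRingEnd ℂ) (2 * b * Complex.I / (u ^ 2 + b ^ 2))).re : ℝ) : ℂ) =
      -4 * Complex.I * (a * b * ((u ^ 2 - a ^ 2)⁻¹ * ((starRingEnd ℂ) u ^ 2 + b ^ 2)⁻¹ -
        ((starRingEnd ℂ) u ^ 2 - a ^ 2)⁻¹ * (u ^ 2 + b ^ 2)⁻¹)) := by
  rw [← Complex.add_conj]
  simp only [map_mul, map_neg, map_add, map_sub, map_pow, Complex.conj_ofReal, Complex.conj_I,
    Complex.conj_conj, map_ofNat, div_eq_mul_inv, map_inv₀]
  ring

theorem Pol_ne {u : ℂ} (hre : u.re ≠ 0) (him : u.im ≠ 0) (a : ℝ) :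
    u ^ 2 - a ^ 2 ≠ 0 ∧ u ^ 2 + a ^ 2 ≠ 0 := by
  constructor <;> intro h <;> have := congrArg Complex.im h <;>
    simp [pow_two] at this <;> exact mul_ne_zero hre him (by linarith)

theorem Pol_ball {u : ℂ} (hu : u ∈ ball (1 + Complex.I) (1 / 4)) : u.re ≠ 0 ∧ u.im ≠ 0 := by
  rw [mem_ball, dist_eq_norm] at hu
  have h1 := Complex.abs_re_le_norm (u - (1 + Complex.I))
  have h2 := Complex.abs_im_le_norm (u - (1 + Complex.I))
  simp only [Complex.sub_re, Complex.add_re, Complex.one_re, Complex.I_re, Complex.sub_im,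
    Complex.add_im, Complex.one_im, Complex.I_im] at h1 h2
  constructor <;> intro h
  · rw [h] at h1; norm_num at h1; linarith
  · rw [h] at h2; norm_num at h2; linarith

theorem prod_indep {D : Type} [Fintype D] {x : D → ℝ} (hx : Function.Injective x)
    (hpos : ∀ d, 0 < x d) (c : D × D → ℝ)
    (h : ∀ u ∈ ball (1 + Complex.I) (1 / 4),
      ∑ i : D × D, c i * (kk (x i.1) u * kk u (x i.2 * Complex.I)) = 0) : c = 0 := by
  classical
  have hsum : ∀ u ∈ ball (1 + Complex.I) (1 / 4), ∑ i : D × D, (c i : ℂ) * (x i.1 * x i.2 *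
      ((u ^ 2 - (x i.1 : ℂ) ^ 2)⁻¹ * ((starRingEnd ℂ) u ^ 2 + (x i.2 : ℂ) ^ 2)⁻¹ -
        ((starRingEnd ℂ) u ^ 2 - (x i.1 : ℂ) ^ 2)⁻¹ * (u ^ 2 + (x i.2 : ℂ) ^ 2)⁻¹)) = 0 := by
    intro u hu
    obtain ⟨hre, him⟩ := Pol_ball hu
    have hc2 : ∀ i : D × D,
        ContDiffAt ℝ 2 (fun u => kk (x i.1 : ℂ) u * kk u (x i.2 * Complex.I)) u :=
      fun i => (lap_kk_mul hre him).1.of_le (by norm_cast)
    have e0 : (fun u => ∑ i : D × D, c i * (kk (x i.1) u * kk u (x i.2 * Complex.I))) =ᶠ[𝓝 u]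
        fun _ => (0 : ℝ) := by
      filter_upwards [isOpen_ball.mem_nhds hu] with v hv using h v hv
    have e1 := lap_congr e0
    rw [lap_const, lap_sum _ (fun (i : D × D) u => c i * (kk (x i.1) u * kk u (x i.2 * Complex.I)))
      fun i _ => contDiffAt_const.mul (hc2 i)] at e1
    have e2 : ((∑ i : D × D, Δ (fun u => c i * (kk (x i.1) u * kk u (x i.2 * Complex.I))) u : ℝ)
        : ℂ) = 0 := by rw [e1]; simp
    rw [Complex.ofReal_sum] at e2
    have e3 : -4 * Complex.I ≠ 0 := mul_ne_zero (by norm_num) Complex.I_ne_zero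
    refine mul_left_cancel₀ e3 ?_
    rw [mul_zero, Finset.mul_sum, ← e2]
    refine Finset.sum_congr rfl fun i _ => ?_
    rw [lap_const_mul _ (hc2 i), (lap_kk_mul hre him).2, Complex.ofReal_mul,
      Pol_re]
    ring
  let A : Finset D → Fin 2 → MvPolynomial (Fin 2) ℂ := fun s j =>
    ∏ d ∈ s, (MvPolynomial.X j ^ 2 - MvPolynomial.C ((x d : ℂ) ^ 2))
  let B : Finset D → Fin 2 → MvPolynomial (Fin 2) ℂ := fun s j =>
    ∏ d ∈ s, (MvPolynomial.X j ^ 2 + MvPolynomial.C ((x d : ℂ) ^ 2))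
  let p : MvPolynomial (Fin 2) ℂ := ∑ i : D × D, MvPolynomial.C ((c i : ℂ) * (x i.1 * x i.2)) *
    (A (Finset.univ.erase i.1) 0 * B Finset.univ 0 * A Finset.univ 1 * B (Finset.univ.erase i.2) 1 -
      A Finset.univ 0 * B (Finset.univ.erase i.2) 0 * A (Finset.univ.erase i.1) 1 * B Finset.univ 1)
  have hev : ∀ u w : ℂ, MvPolynomial.eval ![u, w] p = ∑ i : D × D, (c i : ℂ) * (x i.1 * x i.2) *
      ((∏ d ∈ Finset.univ.erase i.1, (u ^ 2 - (x d : ℂ) ^ 2)) * (∏ d, (u ^ 2 + (x d : ℂ) ^ 2)) *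
        (∏ d, (w ^ 2 - (x d : ℂ) ^ 2)) * (∏ d ∈ Finset.univ.erase i.2, (w ^ 2 + (x d : ℂ) ^ 2)) -
      (∏ d, (u ^ 2 - (x d : ℂ) ^ 2)) * (∏ d ∈ Finset.univ.erase i.2, (u ^ 2 + (x d : ℂ) ^ 2)) *
        (∏ d ∈ Finset.univ.erase i.1, (w ^ 2 - (x d : ℂ) ^ 2)) *
        ∏ d, (w ^ 2 + (x d : ℂ) ^ 2)) := by
    intro u w
    simp only [p, A, B, map_sum, map_mul, map_sub, map_add, map_prod, map_pow, MvPolynomial.eval_X,
      MvPolynomial.eval_C, Matrix.cons_val_zero, Matrix.cons_val_one]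
  have her : ∀ (f : D → ℂ) (a : D), f a ≠ 0 →
      ∏ d ∈ Finset.univ.erase a, f d = (∏ d, f d) * (f a)⁻¹ := by
    intro f a ha
    rw [← Finset.mul_prod_erase _ f (Finset.mem_univ a)]
    field_simp
  have hp := polarize p (c := 1 + Complex.I) (r := 1 / 4) (by norm_num) fun u hu => by
    obtain ⟨hre, him⟩ := Pol_ball hu
    have hre' : ((starRingEnd ℂ) u).re ≠ 0 := by simpa using hre
    have him' : ((starRingEnd ℂ) u).im ≠ 0 := by simpa using him
    rw [hev, ← mul_zero ((∏ d, (u ^ 2 - (x d : ℂ) ^ 2)) * (∏ d, (u ^ 2 + (x d : ℂ) ^ 2)) *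
      (∏ d, ((starRingEnd ℂ) u ^ 2 - (x d : ℂ) ^ 2)) *
      ∏ d, ((starRingEnd ℂ) u ^ 2 + (x d : ℂ) ^ 2)), ← hsum u hu, Finset.mul_sum]
    refine Finset.sum_congr rfl fun i _ => ?_
    rw [her (fun d => u ^ 2 - (x d : ℂ) ^ 2) _ (Pol_ne hre him _).1,
      her (fun d => u ^ 2 + (x d : ℂ) ^ 2) _ (Pol_ne hre him _).2,
      her (fun d => (starRingEnd ℂ) u ^ 2 - (x d : ℂ) ^ 2) _ (Pol_ne hre' him' _).1,
      her (fun d => (starRingEnd ℂ) u ^ 2 + (x d : ℂ) ^ 2) _ (Pol_ne hre' him' _).2]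
    ring
  funext ⟨a, b⟩
  have key := hp (x a) (x b * Complex.I)
  have hI : ((x b : ℂ) * Complex.I) ^ 2 = -(x b : ℂ) ^ 2 := by
    rw [mul_pow, Complex.I_sq]; ring
  have z1 : ∏ d, ((x a : ℂ) ^ 2 - (x d : ℂ) ^ 2) = 0 :=
    Finset.prod_eq_zero (Finset.mem_univ a) (sub_self _)
  have hsq : ∀ d e, d ≠ e → (x d : ℂ) ^ 2 - (x e : ℂ) ^ 2 ≠ 0 := by
    intro d e hde h0
    have h1 : x d ^ 2 - x e ^ 2 = 0 := by exact_mod_cast h0
    have h2 : (x d - x e) * (x d + x e) = 0 := by linarith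
    rcases mul_eq_zero.mp h2 with h3 | h3
    · exact hde (hx (by linarith))
    · linarith [hpos d, hpos e]
  have hsq' : ∀ d e, (x d : ℂ) ^ 2 + (x e : ℂ) ^ 2 ≠ 0 := by
    intro d e h0
    have h1 : x d ^ 2 + x e ^ 2 = 0 := by exact_mod_cast h0
    nlinarith [hpos d, hpos e]
  rw [hev, hI, z1, Finset.sum_eq_single (a, b)] at key
  · simp only [zero_mul, sub_zero] at key
    have n1 : (x a : ℂ) * x b ≠ 0 :=
      mul_ne_zero (by exact_mod_cast (hpos a).ne') (by exact_mod_cast (hpos b).ne')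
    have n2 : ∏ d ∈ Finset.univ.erase a, ((x a : ℂ) ^ 2 - (x d : ℂ) ^ 2) ≠ 0 :=
      Finset.prod_ne_zero_iff.mpr fun d hd => hsq _ _ (Finset.ne_of_mem_erase hd).symm
    have n3 : ∏ d, ((x a : ℂ) ^ 2 + (x d : ℂ) ^ 2) ≠ 0 :=
      Finset.prod_ne_zero_iff.mpr fun d _ => hsq' _ _
    have n4 : ∏ d, (-(x b : ℂ) ^ 2 - (x d : ℂ) ^ 2) ≠ 0 :=
      Finset.prod_ne_zero_iff.mpr fun d _ h0 => hsq' b d (by linear_combination -h0)
    have n5 : ∏ d ∈ Finset.univ.erase b, (-(x b : ℂ) ^ 2 + (x d : ℂ) ^ 2) ≠ 0 :=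
      Finset.prod_ne_zero_iff.mpr fun d hd h0 =>
        hsq _ _ (Finset.ne_of_mem_erase hd) (by linear_combination h0)
    have := (mul_eq_zero.mp key).resolve_right
      (mul_ne_zero (mul_ne_zero (mul_ne_zero n2 n3) n4) n5)
    exact_mod_cast (mul_eq_zero.mp this).resolve_right n1
  · rintro ⟨a', b'⟩ - hne
    by_cases ha : a' = a
    · have hb : b ≠ b' := fun e => hne (by rw [ha, e])
      rw [Finset.prod_eq_zero (s := Finset.univ.erase b')
        (f := fun d => -(x b : ℂ) ^ 2 + (x d : ℂ) ^ 2) (i := b) (by simp [hb]) (by ring)]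
      ring
    · rw [Finset.prod_eq_zero (s := Finset.univ.erase a')
        (f := fun d => (x a : ℂ) ^ 2 - (x d : ℂ) ^ 2) (i := a) (by simp [Ne.symm ha]) (by ring)]
      ring
  · intro hn
    exact absurd (Finset.mem_univ _) hn

end Pool.Agent.MP_4f0ed6_gt

end

section

open Set Laplacian Filter Topology MeasureTheory Metric InnerProductSpace
open scoped ContDiff

namespace Pool.Agent.MP_4f0ed6_gt

theorem dual_hcs {b g : ℂ → ℝ} (hb : HasCompactSupport b) : HasCompactSupport (fun u => b u * g u) :=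
  hb.mul_right

theorem dual_exists {ι : Type} [Fintype ι] [DecidableEq ι] {F : ι → ℂ → ℝ} {c : ℂ} {r : ℝ}
    (hr : 0 < r) (hF : ∀ i, ContDiffOn ℝ ∞ (F i) (ball c (2 * r)))
    (hi : ∀ a : ι → ℝ, (∀ u ∈ ball c r, ∑ i, a i * F i u = 0) → a = 0) :
    ∃ (b : ℂ → ℝ) (ψ : ι → ℂ → ℝ) (B : ℝ), ContDiff ℝ ∞ b ∧ (∀ u, 0 ≤ b u ∧ b u ≤ 1) ∧
      (∀ u, b u ≠ 0 → u ∈ ball c r) ∧ 0 < ∫ u, b u ∧ (∀ i, ContDiff ℝ ∞ (ψ i)) ∧
      (∀ i u, |ψ i u| ≤ B * b u) ∧ ∀ i j, ∫ u, F i u * ψ j u = if i = j then 1 else 0 := by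
  let β : ContDiffBump c := ⟨r / 2, r, by positivity, by linarith⟩
  have hβs : ContDiff ℝ ∞ (β : ℂ → ℝ) := β.contDiff
  have hts : tsupport (β : ℂ → ℝ) ⊆ ball c (2 * r) := by
    rw [β.tsupport_eq]
    exact closedBall_subset_ball (by show r < 2 * r; linarith)
  have hcs : HasCompactSupport (β : ℂ → ℝ) := β.hasCompactSupport
  have hsupp : ∀ u, β u ≠ 0 → u ∈ ball c r := by
    intro u hu
    have : u ∈ Function.support (β : ℂ → ℝ) := hu
    rw [β.support_eq] at this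
    exact this
  have hpos : ∀ u ∈ ball c r, 0 < β u := fun u hu => β.pos_of_mem_ball hu
  -- continuity of products
  have hcont : ∀ g : ℂ → ℝ, ContinuousOn g (ball c (2 * r)) → Continuous (fun u => β u * g u) :=
    fun g hg => continuous_mul_of_supp isOpen_ball hβs.continuous hts hg
  have hint : ∀ g : ℂ → ℝ, ContinuousOn g (ball c (2 * r)) → Integrable (fun u => β u * g u) :=
    fun g hg => (hcont g hg).integrable_of_hasCompactSupport (dual_hcs hcs)
  have hFc : ∀ i, ContinuousOn (F i) (ball c (2 * r)) := fun i => (hF i).continuousOn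
  let G : Matrix ι ι ℝ := fun i j => ∫ u, β u * (F i u * F j u)
  have hlin : ∀ (i : ι) (a : ι → ℝ),
      ∫ u, β u * (F i u * ∑ k, a k * F k u) = ∑ k, G i k * a k := by
    intro i a
    have h1 : (fun u => β u * (F i u * ∑ k, a k * F k u)) =
        fun u => ∑ k, (β u * (F i u * F k u)) * a k := by
      funext u
      rw [Finset.mul_sum, Finset.mul_sum]
      exact Finset.sum_congr rfl fun k _ => by ring
    rw [h1, integral_finsetSum]
    · exact Finset.sum_congr rfl fun k _ => by rw [integral_mul_const]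
    · intro k _
      exact (hint _ ((hFc i).mul (hFc k))).mul_const _
  have hsc : ∀ a : ι → ℝ, ContinuousOn (fun u => ∑ k, a k * F k u) (ball c (2 * r)) :=
    fun a => continuousOn_finsetSum _ fun k _ => continuousOn_const.mul (hFc k)
  have hinj : Function.Injective G.mulVec := by
    have key : ∀ a : ι → ℝ, G.mulVec a = 0 → a = 0 := by
      intro a ha
      apply hi a
      have h0 : ∫ u, β u * ((∑ k, a k * F k u) * ∑ k, a k * F k u) = 0 := by
        have h1 : (fun u => β u * ((∑ k, a k * F k u) * ∑ k, a k * F k u)) =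
            fun u => ∑ i, a i * (β u * (F i u * ∑ k, a k * F k u)) := by
          funext u
          rw [Finset.sum_mul, Finset.mul_sum]
          exact Finset.sum_congr rfl fun i _ => by ring
        rw [h1, integral_finsetSum]
        · refine Finset.sum_eq_zero fun i _ => ?_
          rw [integral_const_mul, hlin i a]
          have : ∑ k, G i k * a k = G.mulVec a i := rfl
          rw [this, ha]
          simp
        · intro i _
          exact (hint _ ((hFc i).mul (hsc a))).const_mul _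
      have hc := hcont _ ((hsc a).mul (hsc a))
      have hnn : 0 ≤ fun u => β u * ((∑ k, a k * F k u) * ∑ k, a k * F k u) :=
        fun u => mul_nonneg β.nonneg (mul_self_nonneg _)
      have hae := (integral_eq_zero_iff_of_nonneg hnn (hint _ ((hsc a).mul (hsc a)))).1 h0
      have heq := (hc.ae_eq_iff_eq volume continuous_zero).1 hae
      intro u hu
      have h2 : β u * ((∑ k, a k * F k u) * ∑ k, a k * F k u) = 0 := congrFun heq u
      rcases mul_eq_zero.1 h2 with h | h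
      · exact absurd h (hpos u hu).ne'
      · exact mul_self_eq_zero.1 h
    intro a a' h
    have : G.mulVec (a - a') = 0 := by rw [Matrix.mulVec_sub, h, sub_self]
    exact sub_eq_zero.1 (key _ this)
  have hU : IsUnit G := Matrix.mulVec_injective_iff_isUnit.1 hinj
  have hGG : G * G⁻¹ = 1 := Matrix.mul_nonsing_inv G ((Matrix.isUnit_iff_isUnit_det G).1 hU)
  have hbd : ∀ j : ι, ∃ C : ℝ, ∀ u ∈ closedBall c r, ‖∑ k, G⁻¹ k j * F k u‖ ≤ C := by
    intro j
    exact (isCompact_closedBall c r).exists_bound_of_continuousOn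
      ((hsc fun k => G⁻¹ k j).mono (closedBall_subset_ball (by linarith)))
  choose C hC using hbd
  refine ⟨β, fun j u => β u * ∑ k, G⁻¹ k j * F k u, ∑ j, |C j|, hβs,
    fun u => ⟨β.nonneg, β.le_one⟩, hsupp, β.integral_pos, ?_, ?_, ?_⟩
  · intro j
    exact contDiff_mul_of_supp isOpen_ball hβs hts
      (ContDiffOn.sum fun k _ => contDiffOn_const.mul (hF k))
  · intro j u
    by_cases hu : β u = 0
    · simp [hu]
    · have h1 := hC j u (ball_subset_closedBall (hsupp u hu))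
      have h2 : |C j| ≤ ∑ j, |C j| :=
        Finset.single_le_sum (f := fun j => |C j|) (fun j _ => abs_nonneg _) (Finset.mem_univ j)
      rw [abs_mul, abs_of_nonneg β.nonneg, mul_comm]
      refine mul_le_mul_of_nonneg_right ?_ β.nonneg
      rw [Real.norm_eq_abs] at h1
      exact h1.trans ((le_abs_self _).trans h2)
  · intro i j
    have h1 : (fun u => F i u * (β u * ∑ k, G⁻¹ k j * F k u)) =
        fun u => β u * (F i u * ∑ k, G⁻¹ k j * F k u) := by
      funext u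
      ring
    rw [h1, hlin i fun k => G⁻¹ k j]
    have h2 : ∑ k, G i k * G⁻¹ k j = (G * G⁻¹) i j := (Matrix.mul_apply).symm
    rw [h2, hGG, Matrix.one_apply]

end Pool.Agent.MP_4f0ed6_gt

end

section

open Set Laplacian Filter Topology MeasureTheory Metric InnerProductSpace
open scoped ContDiff

namespace Pool.Agent.MP_4f0ed6_gt

/-- the test functions -/
noncomputable def CtlF (a b : ℝ) (u : ℂ) : ℝ := kk (a : ℂ) u * kk u (b * Complex.I)

theorem CtlF_neg (a b : ℝ) (u : ℂ) : CtlF a b (-u) = CtlF a b u := by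
  unfold CtlF
  rw [kk_neg, kk_comm (-u), kk_neg, kk_comm ((b : ℂ) * Complex.I) u]
  ring

theorem CtlF_conj (a b : ℝ) (u : ℂ) : CtlF a b ((starRingEnd ℂ) u) = -CtlF a b u := by
  unfold CtlF kk
  have h1 : ‖(a : ℂ) - (starRingEnd ℂ) u‖ = ‖(a : ℂ) - u‖ := by
    rw [← Complex.norm_conj ((a : ℂ) - u)]; simp
  have h2 : ‖(a : ℂ) + (starRingEnd ℂ) u‖ = ‖(a : ℂ) + u‖ := by
    rw [← Complex.norm_conj ((a : ℂ) + u)]; simp
  have h3 : ‖(starRingEnd ℂ) u - (b : ℂ) * Complex.I‖ = ‖u + (b : ℂ) * Complex.I‖ := by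
    rw [← Complex.norm_conj (u + (b : ℂ) * Complex.I)]; simp [sub_eq_add_neg]
  have h4 : ‖(starRingEnd ℂ) u + (b : ℂ) * Complex.I‖ = ‖u - (b : ℂ) * Complex.I‖ := by
    rw [← Complex.norm_conj (u - (b : ℂ) * Complex.I)]; simp
  rw [h1, h2, h3, h4]
  ring

theorem Ctl_ball {u : ℂ} {r : ℝ} (hu : u ∈ ball (1 + Complex.I) r) :
    |u.re - 1| < r ∧ |u.im - 1| < r := by
  rw [mem_ball, dist_eq_norm] at hu
  have h1 := Complex.abs_re_le_norm (u - (1 + Complex.I))
  have h2 := Complex.abs_im_le_norm (u - (1 + Complex.I))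
  simp only [Complex.sub_re, Complex.add_re, Complex.one_re, Complex.I_re, add_zero,
    Complex.sub_im, Complex.add_im, Complex.one_im, Complex.I_im, zero_add] at h1 h2
  exact ⟨h1.trans_lt hu, h2.trans_lt hu⟩

theorem Ctl_smoothOn (a b : ℝ) :
    ContDiffOn ℝ ∞ (CtlF a b) (ball (1 + Complex.I) (2 * (1 / 4))) := by
  intro u hu
  obtain ⟨h1, h2⟩ := Ctl_ball hu
  rw [abs_lt] at h1 h2
  exact ((lap_kk_mul (a := a) (b := b) (u := u) (by linarith [h1.1])
    (by linarith [h2.1])).1).contDiffWithinAt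

/-- the shape of the support -/
def CtlS (u : ℂ) : Prop := 3 / 4 ≤ |u.re| ∧ 3 / 4 ≤ |u.im| ∧ 1 ≤ ‖u‖ ∧ ‖u‖ ≤ 2

theorem CtlS_ball {u : ℂ} (hu : u ∈ ball (1 + Complex.I) (1 / 4)) : CtlS u := by
  obtain ⟨h1, h2⟩ := Ctl_ball hu
  rw [abs_lt] at h1 h2
  have hn : ‖u‖ ^ 2 = u.re ^ 2 + u.im ^ 2 := by
    rw [Complex.sq_norm, Complex.normSq_apply]; ring
  have h0 := norm_nonneg u
  refine ⟨?_, ?_, ?_, ?_⟩
  · exact le_trans (by linarith [h1.1]) (le_abs_self _)
  · exact le_trans (by linarith [h2.1]) (le_abs_self _)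
  · nlinarith [h1.1, h2.1]
  · nlinarith [h1.1, h2.1, h1.2, h2.2]

theorem CtlS_neg {u : ℂ} (h : CtlS (-u)) : CtlS u := by
  simpa [CtlS] using h

theorem CtlS_conj {u : ℂ} (h : CtlS ((starRingEnd ℂ) u)) : CtlS u := by
  simpa [CtlS] using h

theorem Ctl_int {g : ℂ → ℝ} (hg : Continuous g)
    (hs : ∀ u, g u ≠ 0 → u ∈ ball (1 + Complex.I) (1 / 4)) (a b : ℝ) :
    Integrable fun u => CtlF a b u * g u := by
  have hts : tsupport g ⊆ closedBall (1 + Complex.I) (1 / 4) :=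
    closure_minimal (fun u hu => ball_subset_closedBall (hs u hu)) isClosed_closedBall
  have hc : Continuous fun u => g u * CtlF a b u :=
    continuous_mul_of_supp isOpen_ball hg
      (hts.trans (closedBall_subset_ball (by norm_num))) (Ctl_smoothOn a b).continuousOn
  have hK : HasCompactSupport fun u => g u * CtlF a b u := by
    refine HasCompactSupport.intro (isCompact_closedBall (1 + Complex.I) (1 / 4)) ?_
    intro u hu
    have : g u = 0 := by
      by_contra h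
      exact hu (ball_subset_closedBall (hs u h))
    simp [this]
  simpa [mul_comm] using hc.integrable_of_hasCompactSupport hK

theorem Ctl_conj_mp : MeasurePreserving (fun u : ℂ => (starRingEnd ℂ) u) :=
  Complex.conjLIE.measurePreserving

theorem Ctl_conj_me : MeasurableEmbedding (fun u : ℂ => (starRingEnd ℂ) u) :=
  Complex.conjLIE.toHomeomorph.measurableEmbedding

theorem Ctl_neg_int {g : ℂ → ℝ} {a b : ℝ} (h : Integrable fun u => CtlF a b u * g u) :
    (Integrable fun u => CtlF a b u * g (-u)) ∧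
      ∫ u, CtlF a b u * g (-u) = ∫ u, CtlF a b u * g u := by
  have e : (fun u => CtlF a b u * g (-u)) = fun u => (fun u => CtlF a b u * g u) (-u) := by
    funext u; simp only [CtlF_neg]
  rw [e]
  exact ⟨h.comp_neg, integral_neg_eq_self (fun u => CtlF a b u * g u) _⟩

theorem Ctl_conj_int {g : ℂ → ℝ} {a b : ℝ} (h : Integrable fun u => CtlF a b u * g u) :
    (Integrable fun u => CtlF a b u * g ((starRingEnd ℂ) u)) ∧
      ∫ u, CtlF a b u * g ((starRingEnd ℂ) u) = -∫ u, CtlF a b u * g u := by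
  have e : (fun u => CtlF a b u * g ((starRingEnd ℂ) u)) =
      fun u => -(fun u => CtlF a b u * g u) ((starRingEnd ℂ) u) := by
    funext u; simp only [CtlF_conj]; ring
  rw [e]
  refine ⟨(Ctl_conj_mp.integrable_comp_of_integrable h).neg, ?_⟩
  rw [integral_neg, Ctl_conj_mp.integral_comp Ctl_conj_me (fun u => CtlF a b u * g u)]

theorem ctl_exists {D : Type} [Fintype D] {x : D → ℝ} (hx : Function.Injective x)
    (hpos : ∀ d, 0 < x d) : ∃ nu A, CtlOk x nu A := by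
  classical
  obtain ⟨b, ψ, B, hb, hb01, hbs, hbi, hψ, hψb, hd⟩ :=
    dual_exists (ι := D × D) (F := fun i => CtlF (x i.1) (x i.2)) (c := 1 + Complex.I)
      (r := 1 / 4) (by norm_num) (fun i => Ctl_smoothOn _ _)
      (fun a ha => prod_indep hx hpos a ha)
  set n : ℝ := (Fintype.card (D × D) : ℝ) with hn
  have hn0 : 0 ≤ n := by positivity
  have hB0 := abs_nonneg B
  have hψb' : ∀ i u, |ψ i u| ≤ |B| * b u := fun i u =>
    (hψb i u).trans (mul_le_mul_of_nonneg_right (le_abs_self B) (hb01 u).1)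
  have hψs : ∀ i u, ψ i u ≠ 0 → b u ≠ 0 := by
    intro i u h h0
    have := hψb' i u
    rw [h0, mul_zero] at this
    exact h (abs_nonpos_iff.mp this)
  set c0 : ℝ := n * |B| + (∫ u, b u)⁻¹ with hc0
  have hinv : 0 < (∫ u, b u)⁻¹ := inv_pos.mpr hbi
  have hnB : 0 ≤ n * |B| := mul_nonneg hn0 hB0
  have hc00 : 0 ≤ c0 := by positivity
  have hsum : ∀ (q : D × D → ℝ) (t : ℝ), (∀ i, |q i| ≤ t) → ∀ u,
      |∑ i, q i * (ψ i u + ψ i (-u))| ≤ t * (n * |B| * (b u + b (-u))) := by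
    intro q t hq u
    refine (Finset.abs_sum_le_sum_abs _ _).trans ?_
    have : ∀ i ∈ (Finset.univ : Finset (D × D)), |q i * (ψ i u + ψ i (-u))| ≤
        t * (|B| * (b u + b (-u))) := by
      intro i _
      rw [abs_mul]
      refine mul_le_mul (hq i) ?_ (abs_nonneg _) ((abs_nonneg _).trans (hq i))
      refine (abs_add_le _ _).trans ?_
      have h1 := hψb' i u
      have h2 := hψb' i (-u)
      linarith
    refine (Finset.sum_le_card_nsmul _ _ _ this).trans ?_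
    rw [Finset.card_univ, nsmul_eq_mul, ← hn]
    exact le_of_eq (by ring)
  let nu : (D × D → ℝ) → ℂ → ℝ := fun p u =>
    c0 * (b u + b (-u) + b ((starRingEnd ℂ) u) + b (-(starRingEnd ℂ) u)) +
      ∑ i, p i * (ψ i u + ψ i (-u))
  have hcj : ContDiff ℝ ∞ (fun u : ℂ => (starRingEnd ℂ) u) := Complex.conjCLE.contDiff
  have hsm : ∀ p, ContDiff ℝ ∞ (nu p) := by
    intro p
    refine ContDiff.add (contDiff_const.mul (((hb.add (hb.comp contDiff_neg)).add
      (hb.comp hcj)).add (hb.comp hcj.neg))) ?_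
    exact ContDiff.sum fun i _ => contDiff_const.mul ((hψ i).add ((hψ i).comp contDiff_neg))
  have hsupp : ∀ p u, nu p u ≠ 0 → CtlS u := by
    intro p u h
    by_contra hS
    have h1 : b u = 0 := by
      by_contra h'; exact hS (CtlS_ball (hbs _ h'))
    have h2 : b (-u) = 0 := by
      by_contra h'; exact hS (CtlS_neg (CtlS_ball (hbs _ h')))
    have h3 : b ((starRingEnd ℂ) u) = 0 := by
      by_contra h'; exact hS (CtlS_conj (CtlS_ball (hbs _ h')))
    have h4 : b (-(starRingEnd ℂ) u) = 0 := by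
      by_contra h'; exact hS (CtlS_conj (CtlS_neg (CtlS_ball (hbs _ h'))))
    have h5 : ∀ i, ψ i u = 0 := fun i => by
      by_contra h'; exact hψs i _ h' h1
    have h6 : ∀ i, ψ i (-u) = 0 := fun i => by
      by_contra h'; exact hψs i _ h' h2
    apply h
    simp [nu, h1, h2, h3, h4, h5, h6]
  have hlow : ∀ p ∈ cube D, ∀ u, (∫ u, b u)⁻¹ * b u ≤ nu p u := by
    intro p hp u
    have h := (abs_le.mp (hsum p 1 hp u)).1
    have h1 := (hb01 u).1
    have h2 := (hb01 (-u)).1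
    have h3 := (hb01 ((starRingEnd ℂ) u)).1
    have h4 := (hb01 (-(starRingEnd ℂ) u)).1
    have h5 := mul_nonneg hc00 h3
    have h6 := mul_nonneg hc00 h4
    have h7 := mul_nonneg hinv.le h2
    simp only [nu]
    rw [hc0] at h5 h6 ⊢
    nlinarith
  refine ⟨nu, 1 + 4 * c0 + 2 * (n * |B|), ⟨by linarith, hsm, ?_, hsupp, ?_, ?_, ?_, ?_, ?_⟩⟩
  · intro p u
    simp only [nu, neg_neg, map_neg]
    congr 1
    · ring
    · exact Finset.sum_congr rfl fun i _ => by ring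
  · intro p hp u
    exact (mul_nonneg hinv.le (hb01 u).1).trans (hlow p hp u)
  · intro p hp u
    have h := (abs_le.mp (hsum p 1 hp u)).2
    have h1 := (hb01 u).2
    have h2 := (hb01 (-u)).2
    have h3 := (hb01 ((starRingEnd ℂ) u)).2
    have h4 := (hb01 (-(starRingEnd ℂ) u)).2
    have h5 : c0 * (b u + b (-u) + b ((starRingEnd ℂ) u) + b (-(starRingEnd ℂ) u)) ≤ c0 * 4 :=
      mul_le_mul_of_nonneg_left (by linarith) hc00
    have h6 : n * |B| * (b u + b (-u)) ≤ n * |B| * 2 :=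
      mul_le_mul_of_nonneg_left (by linarith) hnB
    simp only [nu]
    linarith
  · intro p hp
    have hK : HasCompactSupport (nu p) := by
      refine HasCompactSupport.intro (isCompact_closedBall (0 : ℂ) 2) ?_
      intro u hu
      by_contra h
      exact hu (by simpa using (hsupp p u h).2.2.2)
    have hbK : HasCompactSupport b := by
      refine HasCompactSupport.intro (isCompact_closedBall (1 + Complex.I) (1 / 4)) ?_
      intro u hu
      by_contra h
      exact hu (ball_subset_closedBall (hbs u h))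
    have h := integral_mono (μ := volume) ((hb.continuous.integrable_of_hasCompactSupport hbK).const_mul
      (∫ u, b u)⁻¹) ((hsm p).continuous.integrable_of_hasCompactSupport hK) (hlow p hp)
    rw [integral_const_mul, inv_mul_cancel₀ hbi.ne'] at h
    exact h
  · intro p p' u
    have h := hsum (p - p') ‖p - p'‖ (fun i => by
      simpa [Real.norm_eq_abs] using norm_le_pi_norm (p - p') i) u
    have e : nu p u - nu p' u = ∑ i, (p - p') i * (ψ i u + ψ i (-u)) := by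
      simp only [nu, Pi.sub_apply, sub_mul, Finset.sum_sub_distrib]
      ring
    rw [e]
    refine h.trans ?_
    rw [mul_comm]
    refine mul_le_mul_of_nonneg_right ?_ (norm_nonneg _)
    have h6 : n * |B| * (b u + b (-u)) ≤ n * |B| * 2 :=
      mul_le_mul_of_nonneg_left (by linarith [(hb01 u).2, (hb01 (-u)).2]) hnB
    linarith
  · intro p a c
    have i1 := Ctl_int hb.continuous hbs (x a) (x c)
    obtain ⟨i2, e2⟩ := Ctl_neg_int i1
    obtain ⟨i3, e3⟩ := Ctl_conj_int i1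
    obtain ⟨i4, e4⟩ := Ctl_conj_int (g := fun u => b (-u)) i2
    have j1 : ∀ i, Integrable fun u => CtlF (x a) (x c) u * ψ i u := fun i =>
      Ctl_int (hψ i).continuous (fun u h => hbs u (hψs i u h)) _ _
    have e : (fun u => kk (x a) u * kk u (x c * Complex.I) * nu p u) = fun u =>
        c0 * (CtlF (x a) (x c) u * b u + CtlF (x a) (x c) u * b (-u) +
          CtlF (x a) (x c) u * b ((starRingEnd ℂ) u) +
          CtlF (x a) (x c) u * b (-(starRingEnd ℂ) u)) +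
        ∑ i, p i * (CtlF (x a) (x c) u * ψ i u + CtlF (x a) (x c) u * ψ i (-u)) := by
      funext u
      change CtlF (x a) (x c) u * nu p u = _
      simp only [nu]
      rw [mul_add, Finset.mul_sum]
      congr 1
      · ring
      · exact Finset.sum_congr rfl fun i _ => by ring
    have k : ∀ i, Integrable fun u =>
        p i * (CtlF (x a) (x c) u * ψ i u + CtlF (x a) (x c) u * ψ i (-u)) := fun i =>
      ((j1 i).add (Ctl_neg_int (j1 i)).1).const_mul _
    have i12 : Integrable fun u => CtlF (x a) (x c) u * b u + CtlF (x a) (x c) u * b (-u) :=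
      i1.add i2
    have i123 : Integrable fun u => CtlF (x a) (x c) u * b u + CtlF (x a) (x c) u * b (-u) +
        CtlF (x a) (x c) u * b ((starRingEnd ℂ) u) := i12.add i3
    have i1234 : Integrable fun u => CtlF (x a) (x c) u * b u + CtlF (x a) (x c) u * b (-u) +
        CtlF (x a) (x c) u * b ((starRingEnd ℂ) u) +
        CtlF (x a) (x c) u * b (-(starRingEnd ℂ) u) := i123.add i4
    rw [e, integral_add (i1234.const_mul c0) (integrable_finsetSum _ fun i _ => k i),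
      integral_const_mul, integral_add i123 i4, integral_add i12 i3, integral_add i1 i2,
      integral_finsetSum _ fun i _ => k i, e2, e3, e4, e2]
    have : ∀ i ∈ (Finset.univ : Finset (D × D)),
        ∫ u, p i * (CtlF (x a) (x c) u * ψ i u + CtlF (x a) (x c) u * ψ i (-u)) =
          if (a, c) = i then 2 * p i else 0 := by
      intro i _
      rw [integral_const_mul, integral_add (j1 i) (Ctl_neg_int (j1 i)).1, (Ctl_neg_int (j1 i)).2]
      have := hd (a, c) i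
      simp only at this
      rw [this]
      split_ifs <;> ring
    rw [Finset.sum_congr rfl this, Finset.sum_ite_eq]
    simp

end Pool.Agent.MP_4f0ed6_gt

end

section

open Set Laplacian Filter Topology MeasureTheory Metric InnerProductSpace
open scoped ContDiff

namespace Pool.Agent.MP_4f0ed6_gt

theorem FxEx_pts (I : Type) [Fintype I] : ∃ (z : I → ℝ) (g : ℝ), 0 < g ∧ g ≤ 1 ∧
    (∀ i, z i ∈ Icc (1 : ℝ) 2) ∧ ∀ i i', i ≠ i' → g ≤ |z i - z i'| := by
  set N : ℝ := (Fintype.card I : ℝ) + 1 with hN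
  have hN1 : 1 ≤ N := by
    have : (0 : ℝ) ≤ Fintype.card I := Nat.cast_nonneg _
    linarith
  have hN0 : 0 < N := by linarith
  refine ⟨fun i => 1 + ((Fintype.equivFin I i : ℕ) : ℝ) / N, 1 / N, by positivity,
    by rw [div_le_one hN0]; exact hN1, fun i => ⟨?_, ?_⟩, fun i i' hii => ?_⟩
  · have : (0 : ℝ) ≤ ((Fintype.equivFin I i : ℕ) : ℝ) / N := by positivity
    linarith
  · have h1 : ((Fintype.equivFin I i : ℕ) : ℝ) ≤ N := by
      have h2 : ((Fintype.equivFin I i : ℕ) : ℝ) < Fintype.card I := by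
        exact_mod_cast (Fintype.equivFin I i).2
      linarith
    have : ((Fintype.equivFin I i : ℕ) : ℝ) / N ≤ 1 := by
      rw [div_le_one hN0]; exact h1
    linarith
  · have hne : (Fintype.equivFin I i : ℕ) ≠ (Fintype.equivFin I i' : ℕ) := fun h =>
      hii ((Fintype.equivFin I).injective (Fin.ext h))
    have h1 : (1 : ℝ) ≤ |((Fintype.equivFin I i : ℕ) : ℝ) - ((Fintype.equivFin I i' : ℕ) : ℝ)| := by
      rcases lt_or_gt_of_ne hne with h | h
      · have h2 : ((Fintype.equivFin I i : ℕ) : ℝ) + 1 ≤ ((Fintype.equivFin I i' : ℕ) : ℝ) := by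
          exact_mod_cast h
        rw [abs_sub_comm]
        exact le_trans (by linarith) (le_abs_self _)
      · have h2 : ((Fintype.equivFin I i' : ℕ) : ℝ) + 1 ≤ ((Fintype.equivFin I i : ℕ) : ℝ) := by
          exact_mod_cast h
        exact le_trans (by linarith) (le_abs_self _)
    have h3 : 1 + ((Fintype.equivFin I i : ℕ) : ℝ) / N - (1 + ((Fintype.equivFin I i' : ℕ) : ℝ) / N)
        = (((Fintype.equivFin I i : ℕ) : ℝ) - ((Fintype.equivFin I i' : ℕ) : ℝ)) / N := by ring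
    rw [h3, abs_div, abs_of_pos hN0]
    exact div_le_div_of_nonneg_right h1 hN0.le

theorem FxEx_bump : ∃ (β1 : ℂ → ℝ) (A : ℝ), BumpOk β1 A := by
  let f : ContDiffBump (0 : ℂ) := ⟨1 / 4, 1 / 2, by norm_num, by norm_num⟩
  have hc : HasCompactSupport (f.normed volume) := f.hasCompactSupport_normed
  obtain ⟨A, hA⟩ := (f.continuous_normed (μ := volume)).bounded_above_of_compact_support hc
  refine ⟨f.normed volume, A, f.contDiff_normed, fun u => f.normed_neg u, fun u hu => ?_,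
    fun u => f.nonneg_normed u, fun u => le_trans (le_abs_self _) (hA u), f.integral_normed⟩
  have h1 : u ∈ Function.support (f.normed volume) := hu
  rw [f.support_normed_eq] at h1
  have h2 : ‖u‖ < f.rOut := by simpa using h1
  exact h2.le

theorem FxEx_ctl_mono {D : Type} [Fintype D] {x : D → ℝ} {nu : (D × D → ℝ) → ℂ → ℝ} {A B : ℝ}
    (h : CtlOk x nu A) (hAB : A ≤ B) : CtlOk x nu B where
  one_le := h.one_le.trans hAB
  smooth := h.smooth
  even := h.even
  supp := h.supp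
  nonneg := h.nonneg
  le p hp u := (h.le p hp u).trans hAB
  mass := h.mass
  lip p p' u := (h.lip p p' u).trans (mul_le_mul_of_nonneg_right hAB (norm_nonneg _))
  dual := h.dual

theorem FxEx_bump_mono {β1 : ℂ → ℝ} {A B : ℝ} (h : BumpOk β1 A) (hAB : A ≤ B) : BumpOk β1 B where
  smooth := h.smooth
  even := h.even
  supp := h.supp
  nonneg := h.nonneg
  le u := (h.le u).trans hAB
  int := h.int

theorem fx_exists {h nT : ℕ} (nx : ℕ) (hh : 0 < h) {Pm : Fin nT → Equiv.Perm (DD h × Bool)}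
    {θ : ℝ} (hG : GraphOk Pm θ) : ∃ S : Fx h nT nx, S.Ok ∧ S.Pm = Pm ∧ S.θ = θ := by
  obtain ⟨x, g1, hg1, hg1', hx, hxg⟩ := FxEx_pts (DD h)
  obtain ⟨z, g2, hg2, -, hz, hzg⟩ := FxEx_pts (PT h nT nx)
  have hxi : Function.Injective x := by
    intro d d' hd
    by_contra hne
    have := hxg d d' hne
    rw [hd, sub_self, abs_zero] at this
    linarith
  obtain ⟨nu, A, hA⟩ := ctl_exists hxi fun d => lt_of_lt_of_le one_pos (hx d).1
  obtain ⟨β1, B, hB⟩ := FxEx_bump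
  refine ⟨⟨Pm, θ, x, z, min g1 g2, fun i => (Fintype.equivFin (Fin h × DD h) i : ℕ),
    Fintype.card (Fin h × DD h), β1, nu, max A B⟩, ⟨hh, hG, FxEx_ctl_mono hA (le_max_left _ _),
    FxEx_bump_mono hB (le_max_right _ _), lt_min hg1 hg2, (min_le_left _ _).trans hg1', hx,
    fun d d' hd => (min_le_left _ _).trans (hxg d d' hd), hz,
    fun i i' hi => (min_le_right _ _).trans (hzg i i' hi), ?_, fun i => ?_⟩, rfl, rfl⟩
  · intro i i' hi
    exact (Fintype.equivFin (Fin h × DD h)).injective (Fin.ext hi)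
  · exact (Fintype.equivFin (Fin h × DD h) i).2

end Pool.Agent.MP_4f0ed6_gt

end

section

open Set Laplacian Filter Topology MeasureTheory Metric InnerProductSpace
open scoped ContDiff

namespace Pool.Agent.MP_4f0ed6_gt

theorem Main_indep {D : Type} {k : ℕ} (F : Fin k → D × Bool → ℝ) (hF : LinearIndependent ℝ F)
    (ho : ∀ i v, F i (flp v) = -F i v) :
    LinearIndependent ℝ (fun (i : Fin k) (d : D) => F i (d, true)) := by
  rw [Fintype.linearIndependent_iff] at hF ⊢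
  intro g hg
  apply hF g
  funext v
  obtain ⟨d, b⟩ := v
  have h1 : ∑ i, g i * F i (d, true) = 0 := by
    have := congrFun hg d
    simpa [Finset.sum_apply] using this
  cases b with
  | true => simpa [Finset.sum_apply] using h1
  | false =>
    have h2 : ∀ i, F i (d, false) = -F i (d, true) := fun i => ho i (d, true)
    simp only [Finset.sum_apply, Pi.smul_apply, smul_eq_mul, Pi.zero_apply, h2, mul_neg,
      Finset.sum_neg_distrib, h1, neg_zero]

theorem good_of_le (e m γ : ℕ) (he : 0 < e) (hm : 0 < m) (hme : m ≤ 2 ^ e)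
    (hγ : 2 ^ (e * m) * 2 * (e * m + 4 ^ e) ≤ γ) : Good γ (Nat.choose (2 ^ e) m) := by
  obtain ⟨nT, hnT, Pm, θ, F, hG, hF, ho, hL⟩ := graph_exists e m he hm hme
  have hh : 0 < e * m := Nat.mul_pos he hm
  obtain ⟨k, hk⟩ : ∃ k, e * m + nT = k + 1 := ⟨e * m + nT - 1, by omega⟩
  have hle : 2 ^ (e * m) * 2 * k ≤ γ :=
    le_trans (Nat.mul_le_mul_left _ (by omega)) hγ
  obtain ⟨S, hS, hP, hθ⟩ := fx_exists (γ - 2 ^ (e * m) * 2 * k) hh hG
  obtain ⟨η, T, hQ, hM⟩ := hS.exists_sys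
  have hok : T.Q.Ok := (T.hyp 0 (fun i => by simp)).ok
  have hr := hok.finrank_forms
  rw [Fx.card_PP, Fx.card_VV, hk] at hr
  have hg : Module.finrank ℂ T.Q.glue.forms = γ := by
    have e1 : 2 ^ (e * m) * 4 * (k + 1) = 2 * (2 ^ (e * m) * 2 * k) + 2 * (2 ^ (e * m) * 2) := by
      ring
    omega
  rw [← hg]
  refine T.good (fun i d => F i (d, true)) (Main_indep F hF ho) ?_
  intro i d
  rw [hM]
  simp only [mul_assoc]
  have h1 := Fx.M1_mul (S := S) (F i) (ho i) d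
  rw [← Finset.mul_sum, h1, hP, hθ, hL, sub_self, mul_zero]

end Pool.Agent.MP_4f0ed6_gt

end
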